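import Mathlib

/-! Lattice paths with steps 0 or 1, and short trades between paths. -/

namespace Pool.Agent.P.MP_c009d0_co

/-- A path: starts at 0, steps 0 or 1. -/
def IsPath (s : ℕ → ℤ) : Prop := s 0 = 0 ∧ ∀ k, s k ≤ s (k + 1) ∧ s (k + 1) ≤ s k + 1

theorem IsPath.lip {s : ℕ → ℤ} (h : IsPath s) {k l : ℕ} (hkl : k ≤ l) :
    s k ≤ s l ∧ s l + k ≤ s k + l := by
  induction l, hkl using Nat.le_induction with
  | base => omega
  | succ n _ ih => have := h.2 n; push_cast; omega

theorem IsPath.lip2 {s : ℕ → ℤ} (h : IsPath s) (k l : ℕ) :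
    (k ≤ l → s k ≤ s l ∧ s l + k ≤ s k + l) ∧ (l ≤ k → s l ≤ s k ∧ s k + l ≤ s l + k) :=
  ⟨fun x => h.lip x, fun x => h.lip x⟩

theorem IsPath.bd {s : ℕ → ℤ} (h : IsPath s) (k : ℕ) : 0 ≤ s k ∧ s k ≤ k := by
  have := h.lip (Nat.zero_le k); have := h.1; omega

/-- A peak: an up step followed by a flat step. -/
def Peak (s : ℕ → ℤ) (c : ℕ) : Prop :=
  0 < c ∧ (∀ k, k < c → s k < s c) ∧ (∀ k, c < k → s k + c < s c + k)

theorem Peak.at {s : ℕ → ℤ} {c : ℕ} (h : Peak s c) (k : ℕ) :
    (k < c → s k < s c) ∧ (c < k → s k + c < s c + k) := ⟨h.2.1 k, h.2.2 k⟩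

theorem Peak.pos {s : ℕ → ℤ} {c : ℕ} (hs : IsPath s) (h : Peak s c) : 1 ≤ s c := by
  have := h.2.1 0 h.1; have := hs.1; omega

/-- Eventually constant. -/
def Ev (s : ℕ → ℤ) : Prop := ∃ N, ∀ k, N ≤ k → s k = s N

theorem fail_peak {m s : ℕ → ℤ} (hm : IsPath m) (he : Ev m) (hs : IsPath s) {k : ℕ}
    (hk : s k < m k) : ∃ c, Peak m c ∧ s c < m c := by
  classical
  obtain ⟨N, hN⟩ := he
  have hex : ∃ l, k ≤ l ∧ m (l + 1) = m l := by
    refine ⟨max k N, le_max_left _ _, ?_⟩
    rw [hN (max k N + 1) (by omega), hN (max k N) (by omega)]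
  let k' := Nat.find hex
  have hk' : k ≤ k' ∧ m (k' + 1) = m k' := Nat.find_spec hex
  have hup : ∀ l, k ≤ l → l ≤ k' → m l + k = m k + l := by
    intro l h1
    induction l, h1 using Nat.le_induction with
    | base => intro _; rfl
    | succ n hn ih =>
      intro h2
      have h3 := ih (by omega)
      have h4 : ¬ (k ≤ n ∧ m (n + 1) = m n) := Nat.find_min hex (by omega)
      have := hm.2 n
      push_cast; omega
  have h5 := hup k' hk'.1 le_rfl
  have h6 := hs.lip hk'.1
  have hex2 : ∃ c, m c = m k' := ⟨k', rfl⟩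
  let c := Nat.find hex2
  have hc : m c = m k' := Nat.find_spec hex2
  have hck : c ≤ k' := Nat.find_min' hex2 rfl
  have h7 := hs.lip hck
  refine ⟨c, ⟨?_, ?_, ?_⟩, by omega⟩
  · rcases Nat.eq_zero_or_pos c with h | h
    · have := hm.1; have := hs.bd k'; rw [h] at hc; omega
    · exact h
  · intro l hl
    have h8 : ¬ (m l = m k') := Nat.find_min hex2 hl
    have := hm.lip hl.le; omega
  · intro l hl
    have h9 : m (c + 1) = m c := by
      rcases eq_or_lt_of_le hck with h | h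
      · rw [h]; exact hk'.2
      · have := hm.lip (show c + 1 ≤ k' by omega); have := hm.2 c; omega
    have := hm.lip (show c + 1 ≤ l by omega); push_cast at this; omega

/-- The highest path with value at most `c` at `k`. -/
def top (k : ℕ) (c : ℤ) : ℕ → ℤ := fun l => min (l : ℤ) (max c (c + l - k))

/-- The lowest path with value at least `c` at `k`. -/
def bot (k : ℕ) (c : ℤ) : ℕ → ℤ := fun l => max 0 (min c (c + l - k))

theorem top_path (k : ℕ) {c : ℤ} (hc : 0 ≤ c) : IsPath (top k c) := by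
  refine ⟨by simp only [top]; omega, fun l => ?_⟩
  simp only [top]; push_cast; omega

theorem bot_path (k : ℕ) {c : ℤ} (hc : c ≤ k) : IsPath (bot k c) := by
  refine ⟨by simp only [bot]; omega, fun l => ?_⟩
  simp only [bot]; push_cast; omega

theorem le_top {s : ℕ → ℤ} (hs : IsPath s) {k : ℕ} {c : ℤ} (h : s k ≤ c) (l : ℕ) :
    s l ≤ top k c l := by
  have := hs.lip2 k l; have := hs.bd l
  simp only [top]; omega

theorem min_path {s t : ℕ → ℤ} (hs : IsPath s) (ht : IsPath t) :
    IsPath (fun l => min (s l) (t l)) := by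
  refine ⟨by simp only [hs.1, ht.1, min_self], fun l => ?_⟩
  have := hs.2 l; have := ht.2 l; beta_reduce; omega

theorem max_path {s t : ℕ → ℤ} (hs : IsPath s) (ht : IsPath t) :
    IsPath (fun l => max (s l) (t l)) := by
  refine ⟨by simp only [hs.1, ht.1, max_self], fun l => ?_⟩
  have := hs.2 l; have := ht.2 l; beta_reduce; omega

/-- The unit function at `c`. -/
def ee (c : ℕ) : ℕ → ℤ := fun l => if l = c then 1 else 0

theorem sub_peak {s : ℕ → ℤ} (hs : IsPath s) {c : ℕ} (h0 : 0 < c) (h1 : s (c - 1) < s c)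
    (h2 : s (c + 1) ≤ s c) : IsPath (fun l => s l - ee c l) := by
  refine ⟨by simp only [ee, hs.1]; split_ifs <;> omega, fun l => ?_⟩
  have h3 := hs.2 l
  simp only [ee]
  split_ifs with ha hb hb
  · omega
  · subst ha; omega
  · have : l = c - 1 := by omega
    subst this
    have h4 : c - 1 + 1 = c := by omega
    rw [h4] at h3 ⊢; omega
  · omega

/-- No trade of length two. -/
def NoT2 (W : (ℕ → ℤ) → Prop) : Prop :=
  ∀ x x' y y', IsPath x → IsPath x' → IsPath y → IsPath y' → W x → W x' → ¬ W y → ¬ W y' →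
    (∀ k, x k + x' k = y k + y' k) → False

/-- No trade of length three. -/
def NoT3 (W : (ℕ → ℤ) → Prop) : Prop :=
  ∀ x x' x'' y y' y'', IsPath x → IsPath x' → IsPath x'' → IsPath y → IsPath y' → IsPath y'' →
    W x → W x' → W x'' → ¬ W y → ¬ W y' → ¬ W y'' →
    (∀ k, x k + x' k + x'' k = y k + y' k + y'' k) → False

theorem pure2 {W : (ℕ → ℤ) → Prop} (hW : NoT2 W) {w : ℕ → ℤ} (hw : IsPath w) (he : Ev w)
    (hwW : ∀ s, IsPath s → (∀ k, w k ≤ s k) → W s) {y y' : ℕ → ℤ} (hy : IsPath y)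
    (hy' : IsPath y') (h1 : ¬ W y) (h2 : ¬ W y') :
    ∃ c, Peak w c ∧ y c + y' c < 2 * w c := by
  by_contra hc
  push Not at hc
  have key : ∀ r : ℤ, 0 ≤ r → r ≤ 1 →
      IsPath (fun l => (y l + y' l + r) / 2) ∧ W (fun l => (y l + y' l + r) / 2) := by
    intro r h0 h1
    have hp : IsPath (fun l => (y l + y' l + r) / 2) := by
      refine ⟨by simp only [hy.1, hy'.1]; omega, fun l => ?_⟩
      have := hy.2 l; have := hy'.2 l; beta_reduce; omega
    refine ⟨hp, hwW _ hp fun k => ?_⟩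
    by_contra hk
    obtain ⟨c, hc1, hc2⟩ := fail_peak hw he hp (not_le.mp hk)
    have := hc c hc1
    omega
  exact hW _ _ y y' (key 0 le_rfl (by norm_num)).1 (key 1 (by norm_num) le_rfl).1 hy hy'
    (key 0 le_rfl (by norm_num)).2 (key 1 (by norm_num) le_rfl).2 h1 h2 (fun k => by omega)

theorem pure3 {W : (ℕ → ℤ) → Prop} (hW : NoT3 W) {w : ℕ → ℤ} (hw : IsPath w) (he : Ev w)
    (hwW : ∀ s, IsPath s → (∀ k, w k ≤ s k) → W s) {y y' y'' : ℕ → ℤ} (hy : IsPath y)
    (hy' : IsPath y') (hy'' : IsPath y'') (h1 : ¬ W y) (h2 : ¬ W y') (h3 : ¬ W y'') :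
    ∃ c, Peak w c ∧ y c + y' c + y'' c < 3 * w c := by
  by_contra hc
  push Not at hc
  have key : ∀ r : ℤ, 0 ≤ r → r ≤ 2 →
      IsPath (fun l => (y l + y' l + y'' l + r) / 3) ∧
        W (fun l => (y l + y' l + y'' l + r) / 3) := by
    intro r h0 h1
    have hp : IsPath (fun l => (y l + y' l + y'' l + r) / 3) := by
      refine ⟨by simp only [hy.1, hy'.1, hy''.1]; omega, fun l => ?_⟩
      have := hy.2 l; have := hy'.2 l; have := hy''.2 l; beta_reduce; omega
    refine ⟨hp, hwW _ hp fun k => ?_⟩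
    by_contra hk
    obtain ⟨c, hc1, hc2⟩ := fail_peak hw he hp (not_le.mp hk)
    have := hc c hc1
    omega
  exact hW _ _ _ y y' y'' (key 0 le_rfl (by norm_num)).1 (key 1 (by norm_num) (by norm_num)).1
    (key 2 (by norm_num) le_rfl).1 hy hy' hy''
    (key 0 le_rfl (by norm_num)).2 (key 1 (by norm_num) (by norm_num)).2
    (key 2 (by norm_num) le_rfl).2 h1 h2 h3 (fun k => by omega)

/-- Raise `w` at `k` and lower it at the peak `c`, or lower it back at `k`. -/
theorem shift {w : ℕ → ℤ} (hw : IsPath w) {c k : ℕ} (hc : Peak w c) (hk : k ≠ c)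
    (hedge : w k + 1 ≤ top c (w c - 1) k) :
    ∃ x y : ℕ → ℤ, IsPath x ∧ IsPath y ∧ (∀ l, w l ≤ x l) ∧ y c < w c ∧
      (∀ l, x l + ee k l = y l + ee c l) ∧ (∀ l, y l ≤ max (w l) (bot k (w k + 1) l)) := by
  have hb := hw.bd k
  simp only [top] at hedge
  have hk0 : 0 < k := by omega
  have hp : IsPath (fun l => max (w l) (bot k (w k + 1) l)) :=
    max_path hw (bot_path k (by omega))
  have hc0 := hc.1
  refine ⟨fun l => max (w l) (bot k (w k + 1) l) - ee k l,
    fun l => max (w l) (bot k (w k + 1) l) - ee c l, ?_, ?_, ?_, ?_, ?_, ?_⟩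
  · refine sub_peak hp hk0 ?_ ?_
    · have := hw.lip (show k - 1 ≤ k by omega)
      simp only [bot]; omega
    · have := hw.2 k
      simp only [bot]; push_cast; omega
  · have h3 := hc.pos hw
    refine sub_peak hp hc0 ?_ ?_
    · have := hc.at (c - 1)
      simp only [bot]; omega
    · have := hc.at (c + 1)
      simp only [bot]; push_cast at this ⊢; omega
  · intro l
    simp only [ee, bot]
    split_ifs with h
    · subst h; omega
    · omega
  · have h3 := hc.pos hw
    simp only [ee, bot, if_true]; omega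
  · intro l; ring
  · intro l
    simp only [ee]; split_ifs <;> omega

end Pool.Agent.P.MP_c009d0_co
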