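import Pool.Agent.P.MP_c009d0_co.Defs
import Pool.Agent.P.MP_c009d0_co.Path

/-! Coalitions of a ranked complete game as lattice paths. -/

namespace Pool.Agent.P.MP_c009d0_co

open Finset

variable {N : Type} [Fintype N] [DecidableEq N]

theorem Desir.trans' {W : Set (Finset N)} {i j k : N} (h1 : Desir W i j) (h2 : Desir W j k) :
    Desir W i k := by
  intro S hi hk hw
  by_cases e1 : i = k
  · rw [e1]; exact hw
  by_cases e2 : j = i
  · rw [← e2]; exact h2 S (e2 ▸ hi) hk hw
  by_cases e3 : j = k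
  · exact h1 S hi (e3 ▸ hk) (e3 ▸ hw)
  by_cases e4 : j ∈ S
  · have q1 : insert k S = insert j (insert k (S.erase j)) := by
      rw [insert_comm, insert_erase e4]
    have q2 := h1 (insert k (S.erase j)) (by simp [e1, hi]) (by simp [e3]) (q1 ▸ hw)
    rw [insert_comm] at q2
    have q3 := h2 (insert i (S.erase j)) (by simp [e2]) (by simp [Ne.symm e1, hk]) q2
    rwa [insert_comm, insert_erase e4] at q3
  · exact h1 S hi e4 (h2 S e4 hk hw)

/-- A ranking of the players by `0, …, n - 1`. -/
structure Rank (N : Type) where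
  n : ℕ
  rk : N → ℕ
  inj : Function.Injective rk
  lt : ∀ x, rk x < n
  surj : ∀ i, i < n → ∃ x, rk x = i

namespace Rank

variable (R : Rank N)

/-- Number of members among the `k` best ranked players. -/
def pc (S : Finset N) (k : ℕ) : ℕ := #{x ∈ S | R.rk x < k}

/-- The path of a coalition. -/
def pth (S : Finset N) : ℕ → ℤ := fun k => (R.pc S k : ℤ)

/-- The coalition of a path. -/
def co (s : ℕ → ℤ) : Finset N := {x | s (R.rk x) < s (R.rk x + 1)}

omit [Fintype N] in
theorem pc_succ_mem {S : Finset N} {x : N} (hx : x ∈ S) :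
    R.pc S (R.rk x + 1) = R.pc S (R.rk x) + 1 := by
  have : ({y ∈ S | R.rk y < R.rk x + 1} : Finset N) = insert x {y ∈ S | R.rk y < R.rk x} := by
    ext y
    simp only [mem_filter, mem_insert]
    constructor
    · rintro ⟨h1, h2⟩
      by_cases h : R.rk y = R.rk x
      · exact Or.inl (R.inj h)
      · exact Or.inr ⟨h1, by omega⟩
    · rintro (rfl | ⟨h1, h2⟩)
      · exact ⟨hx, by omega⟩
      · exact ⟨h1, by omega⟩
  rw [pc, this, card_insert_of_notMem (by simp)]; rfl

omit [Fintype N] [DecidableEq N] in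
theorem pc_succ_not {S : Finset N} {k : ℕ} (h : ∀ x ∈ S, R.rk x ≠ k) :
    R.pc S (k + 1) = R.pc S k := by
  unfold pc
  congr 1
  refine filter_congr fun x hx => ?_
  have := h x hx; omega

omit [Fintype N] in
theorem pth_path (S : Finset N) : IsPath (R.pth S) := by
  refine ⟨by simp [pth, pc], fun k => ?_⟩
  by_cases h : ∃ x ∈ S, R.rk x = k
  · obtain ⟨x, hx, rfl⟩ := h
    simp only [pth, R.pc_succ_mem hx]; push_cast; omega
  · push Not at h
    simp only [pth, R.pc_succ_not h]; omega

omit [Fintype N] [DecidableEq N] in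
theorem pth_const (S : Finset N) {k : ℕ} (hk : R.n ≤ k) : R.pth S k = R.pth S R.n := by
  simp only [pth, pc]
  congr 2
  refine filter_congr fun x _ => ?_
  have := R.lt x; omega

omit [Fintype N] [DecidableEq N] in
theorem pth_ev (S : Finset N) : Ev (R.pth S) := ⟨R.n, fun _ hk => R.pth_const S hk⟩

theorem mem_iff (S : Finset N) (x : N) :
    x ∈ S ↔ R.pth S (R.rk x) < R.pth S (R.rk x + 1) := by
  constructor
  · intro hx; simp only [pth, R.pc_succ_mem hx]; push_cast; omega
  · intro h
    by_contra hx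
    have : R.pc S (R.rk x + 1) = R.pc S (R.rk x) :=
      R.pc_succ_not fun y hy e => hx (R.inj e ▸ hy)
    simp only [pth, this] at h; omega

theorem co_pth (S : Finset N) : R.co (R.pth S) = S := by
  ext x; simp only [co, mem_filter, mem_univ, true_and]; exact (R.mem_iff S x).symm

theorem pth_co {s : ℕ → ℤ} (hs : IsPath s) {k : ℕ} (hk : k ≤ R.n) : R.pth (R.co s) k = s k := by
  induction k with
  | zero => rw [(R.pth_path _).1, hs.1]
  | succ k ih =>
    have h1 := ih (by omega)
    obtain ⟨x, rfl⟩ := R.surj k (by omega)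
    have h2 := R.mem_iff (R.co s) x
    have h3 := (R.pth_path (R.co s)).2 (R.rk x)
    have h4 := hs.2 (R.rk x)
    simp only [co, mem_filter, mem_univ, true_and] at h2
    simp only [co] at h1 h3 ⊢
    omega

theorem le_co {s : ℕ → ℤ} (hs : IsPath s) (T : Finset N) :
    (∀ k, R.pth T k ≤ R.pth (R.co s) k) ↔ ∀ k, R.pth T k ≤ s k := by
  constructor
  · intro h k
    by_cases hk : k ≤ R.n
    · rw [← R.pth_co hs hk]; exact h k
    · have h1 := h R.n
      rw [R.pth_co hs le_rfl] at h1
      have := R.pth_const T (k := k) (by omega)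
      have := hs.lip (show R.n ≤ k by omega); omega
  · intro h k
    by_cases hk : k ≤ R.n
    · rw [R.pth_co hs hk]; exact h k
    · rw [R.pth_const T (by omega), R.pth_const (R.co s) (by omega), R.pth_co hs le_rfl]
      exact h _

/-- The ranking is compatible with desirability. -/
def Compat (W : Set (Finset N)) : Prop := ∀ x y, R.rk x ≤ R.rk y → Desir W x y

theorem shift_mono {W : Set (Finset N)} (hW : IsSimpleGame W) (hc : R.Compat W) (S : Finset N) :
    ∀ (d : ℕ) (T : Finset N), #(T \ S) = d → T ∈ W → (∀ k, R.pth T k ≤ R.pth S k) → S ∈ W := by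
  intro d
  induction d with
  | zero =>
    intro T h hT _
    exact hW.1 T S hT (sdiff_eq_empty_iff_subset.mp (card_eq_zero.mp h))
  | succ d ih =>
    intro T h hT hle
    obtain ⟨j, hj, hmin⟩ := exists_min_image (T \ S) R.rk (card_pos.mp (by omega))
    rw [mem_sdiff] at hj
    have hsub : ∀ x ∈ T, R.rk x < R.rk j → x ∈ S := by
      intro x hx h1
      by_contra h2
      have := hmin x (mem_sdiff.mpr ⟨hx, h2⟩); omega
    obtain ⟨i, hiS, hiT, hij⟩ : ∃ i ∈ S, i ∉ T ∧ R.rk i < R.rk j := by
      by_contra h1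
      push Not at h1
      have h2 : R.pc S (R.rk j) ≤ R.pc T (R.rk j) := by
        refine card_le_card fun x hx => ?_
        rw [mem_filter] at hx ⊢
        refine ⟨?_, hx.2⟩
        by_contra h3
        have := h1 x hx.1 h3; omega
      have h3 := R.pc_succ_mem hj.1
      have h4 : R.pc S (R.rk j + 1) = R.pc S (R.rk j) :=
        R.pc_succ_not fun y hy e => hj.2 (R.inj e ▸ hy)
      have h5 := hle (R.rk j + 1)
      simp only [pth] at h5; omega
    have hw : insert i (T.erase j) ∈ W :=
      hc i j hij.le _ (by simp [hiT]) (by simp) (by rwa [insert_erase hj.1])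
    refine ih _ ?_ hw fun k => ?_
    · have : insert i (T.erase j) \ S = (T \ S).erase j := by
        ext x
        simp only [mem_sdiff, mem_insert, mem_erase]
        constructor
        · rintro ⟨rfl | h1, h2⟩
          · exact absurd hiS h2
          · exact ⟨h1.1, h1.2, h2⟩
        · rintro ⟨h1, h2, h3⟩; exact ⟨Or.inr ⟨h1, h2⟩, h3⟩
      rw [this, card_erase_of_mem (mem_sdiff.mpr hj)]; omega
    · by_cases hk : k ≤ R.rk j
      · simp only [pth, Nat.cast_le]
        refine card_le_card fun x hx => ?_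
        simp only [mem_filter, mem_insert, mem_erase] at hx ⊢
        refine ⟨?_, hx.2⟩
        rcases hx.1 with rfl | h1
        · exact hiS
        · exact hsub x h1.2 (by omega)
      · refine le_trans ?_ (hle k)
        simp only [pth, Nat.cast_le]
        have e : ({x ∈ insert i (T.erase j) | R.rk x < k} : Finset N) =
            insert i (({x ∈ T | R.rk x < k} : Finset N).erase j) := by
          ext x
          simp only [mem_filter, mem_insert, mem_erase]
          constructor
          · rintro ⟨rfl | h1, h2⟩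
            · exact Or.inl rfl
            · exact Or.inr ⟨h1.1, h1.2, h2⟩
          · rintro (rfl | h1)
            · exact ⟨Or.inl rfl, by omega⟩
            · exact ⟨Or.inr ⟨h1.1, h1.2.1⟩, h1.2.2⟩
        have hm : j ∈ ({x ∈ T | R.rk x < k} : Finset N) := mem_filter.mpr ⟨hj.1, by omega⟩
        have := card_pos.mpr ⟨j, hm⟩
        rw [pc, pc, e, card_insert_of_notMem (by simp [hiT]), card_erase_of_mem hm]; omega

omit [Fintype N] [DecidableEq N] in
theorem ncard_eq (S : Finset N) (P : N → Prop) (d : ℕ) (h : ∀ x, P x ↔ R.rk x < d) :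
    {j | j ∈ S ∧ P j}.ncard = R.pc S d := by
  rw [pc, ← Set.ncard_coe_finset]
  congr 1
  ext x; simp [h]

omit [DecidableEq N] in
theorem lower (P : N → Prop) (hP : ∀ x y, R.rk y ≤ R.rk x → P x → P y) :
    ∃ d, (∀ x, P x ↔ R.rk x < d) ∧ (d = 0 ∨ ∃ x, P x ∧ d = R.rk x + 1) := by
  classical
  by_cases h : ∃ x, P x
  · obtain ⟨x, hx⟩ := h
    obtain ⟨z, hz, hmax⟩ := exists_max_image ({x | P x} : Finset N) R.rk ⟨x, by simpa⟩
    simp only [mem_filter, mem_univ, true_and] at hz hmax
    refine ⟨R.rk z + 1, fun y => ⟨fun hy => ?_, fun hy => hP z y (by omega) hz⟩,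
      Or.inr ⟨z, hz, rfl⟩⟩
    have := hmax y hy; omega
  · exact ⟨0, fun y => ⟨fun hy => absurd ⟨y, hy⟩ h, fun hy => by omega⟩, Or.inl rfl⟩

/-- Class boundaries: players of rank below `hi i` are those at least as desirable as `i`,
players of rank below `lo i` those strictly more desirable. -/
theorem bounds {W : Set (Finset N)} (hc : R.Compat W) : ∃ lo hi : N → ℕ,
    (∀ i x, Desir W x i ↔ R.rk x < hi i) ∧ (∀ i x, ¬ Desir W i x ↔ R.rk x < lo i) ∧
    (∀ i, lo i = 0 ∨ ∃ x, lo i = hi x) ∧ (∀ i, lo i ≤ R.rk i ∧ R.rk i < hi i) ∧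
    (∀ i, ∃ x, hi i = R.rk x + 1) := by
  have h1 := fun i => R.lower (fun x => Desir W x i) fun x y h hx => (hc y x h).trans' hx
  have h2 := fun i => R.lower (fun x => ¬ Desir W i x)
    fun x y h hx g => hx (g.trans' (hc y x h))
  choose hi a1 a2 using h1
  choose lo b1 b2 using h2
  have hr : ∀ i, R.rk i < hi i := fun i => (a1 i i).1 (hc i i le_rfl)
  have hx : ∀ i, ∃ x, Desir W x i ∧ hi i = R.rk x + 1 := fun i =>
    (a2 i).resolve_left (by have := hr i; omega)
  refine ⟨lo, hi, a1, b1, fun i => ?_, fun i => ⟨?_, hr i⟩, fun i => ?_⟩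
  · rcases b2 i with h | ⟨x, h1, h2⟩
    · exact Or.inl h
    · obtain ⟨z, h3, h4⟩ := hx x
      refine Or.inr ⟨x, ?_⟩
      have := (b1 i z).1 fun g => h1 (g.trans' h3)
      have := hr x; omega
  · by_contra h
    exact (b1 i i).2 (by omega) (hc i i le_rfl)
  · obtain ⟨x, _, h⟩ := hx i; exact ⟨x, h⟩

omit [Fintype N] in
theorem pc_split (S : Finset N) {a b : ℕ} (h : a ≤ b) :
    R.pc S b = R.pc S a + #{x ∈ S | a ≤ R.rk x ∧ R.rk x < b} := by
  rw [pc, pc, ← card_union_of_disjoint]
  · congr 1; ext x; simp only [mem_filter, mem_union]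
    constructor
    · rintro ⟨h1, h2⟩
      by_cases g : R.rk x < a
      · exact Or.inl ⟨h1, g⟩
      · exact Or.inr ⟨h1, by omega, h2⟩
    · rintro (⟨h1, h2⟩ | ⟨h1, h2⟩)
      · exact ⟨h1, by omega⟩
      · exact ⟨h1, h2.2⟩
  · rw [disjoint_filter]; intro x _ h1; omega

theorem type_iff {W : Set (Finset N)} (hc : R.Compat W) (S T : Finset N) :
    coalType W S = coalType W T ↔ partialSum W S = partialSum W T := by
  obtain ⟨lo, hi, a1, b1, c1, d1, _⟩ := R.bounds hc
  have e1 : ∀ S i, partialSum W S i = R.pc S (hi i) := fun S i => R.ncard_eq S _ _ (a1 i)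
  have e2 : ∀ S i, R.pc S (hi i) = R.pc S (lo i) + coalType W S i := by
    intro S i
    rw [R.pc_split S (a := lo i) (b := hi i) (by have := d1 i; omega), coalType,
      ← Set.ncard_coe_finset]
    congr 2
    ext x
    have := b1 i x
    simp only [coe_filter, Set.mem_setOf_eq, a1]
    constructor
    · rintro ⟨h1, h2, h3⟩
      exact ⟨h1, h3, (a1 x i).1 (by by_contra g; have := this.1 g; omega)⟩
    · rintro ⟨h1, h2, h3⟩
      exact ⟨h1, by by_contra g; exact this.2 (by omega) ((a1 x i).2 h3), h2⟩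
  have e0 : ∀ S, R.pc S 0 = 0 := fun S => by simp [pc]
  constructor
  · intro h
    have key : ∀ d i, hi i = d → R.pc S (hi i) = R.pc T (hi i) := by
      intro d
      induction d using Nat.strong_induction_on with
      | _ d ih =>
        intro i hd
        rw [e2 S i, e2 T i, h]
        rcases c1 i with g | ⟨x, g⟩
        · rw [g, e0, e0]
        · rw [g, ih (hi x) (by have := d1 i; omega) x rfl]
    funext i; rw [e1, e1]; exact key _ i rfl
  · intro h
    funext i
    have h1 := congrFun h i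
    rw [e1, e1, e2 S i, e2 T i] at h1
    rcases c1 i with g | ⟨x, g⟩
    · rw [g, e0, e0] at h1; omega
    · have h2 := congrFun h x
      rw [e1, e1, ← g] at h2; omega

theorem ps_le {W : Set (Finset N)} (hc : R.Compat W) {S T : Finset N}
    (h : ∀ k, R.pth T k ≤ R.pth S k) (i : N) : partialSum W T i ≤ partialSum W S i := by
  obtain ⟨lo, hi, a1, -⟩ := R.bounds hc
  have e1 : ∀ S i, partialSum W S i = R.pc S (hi i) := fun S i => R.ncard_eq S _ _ (a1 i)
  have := h (hi i)
  rw [e1, e1]; simpa [pth] using this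

theorem lowest {W : Set (Finset N)} (hc : R.Compat W) {T : Finset N} (hT : T ∈ W) :
    ∃ U ∈ W, partialSum W U = partialSum W T ∧ ∀ S : Finset N,
      (∀ i, partialSum W T i ≤ partialSum W S i) → ∀ k, R.pth U k ≤ R.pth S k := by
  classical
  obtain ⟨lo, hi, a1, b1, c1, d1, f1⟩ := R.bounds hc
  have e1 : ∀ S i, partialSum W S i = R.pc S (hi i) := fun S i => R.ncard_eq S _ _ (a1 i)
  obtain ⟨U, hU, hmax⟩ := exists_max_image
    ({U | U ∈ W ∧ partialSum W U = partialSum W T} : Finset (Finset N))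
    (fun U => ∑ x ∈ U, R.rk x) ⟨T, by simpa⟩
  simp only [mem_filter, mem_univ, true_and] at hU hmax
  refine ⟨U, hU.1, hU.2, fun S hS k => ?_⟩
  induction k with
  | zero => rw [(R.pth_path _).1, (R.pth_path _).1]
  | succ k ih =>
    by_contra hk
    obtain ⟨x, hx, rfl⟩ : ∃ x ∈ U, R.rk x = k := by
      by_contra g
      push Not at g
      have := R.pc_succ_not g
      have := ((R.pth_path S).2 k).1
      simp only [pth] at *; omega
    obtain ⟨y, hy, h1, h2⟩ : ∃ y, y ∉ U ∧ R.rk x < R.rk y ∧ R.rk y < hi x := by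
      by_contra g
      push Not at g
      have up : ∀ l, R.rk x + 1 ≤ l → l ≤ hi x →
          R.pth U l + (R.rk x + 1 : ℕ) = R.pth U (R.rk x + 1) + l := by
        intro l hl
        induction l, hl using Nat.le_induction with
        | base => intro _; rfl
        | succ l hl ih2 =>
          intro h3
          obtain ⟨z, hz⟩ := f1 x
          obtain ⟨y, rfl⟩ := R.surj l (by have := R.lt z; omega)
          have h4 : y ∈ U := by
            by_contra g2
            have := g y g2 (by omega); omega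
          have h5 := ih2 (by omega)
          simp only [pth, R.pc_succ_mem h4] at h5 ⊢
          push_cast at h5 ⊢; omega
      have h3 := up (hi x) (d1 x).2 le_rfl
      have h4 := (R.pth_path S).lip (show R.rk x + 1 ≤ hi x from (d1 x).2)
      have h5 := hS x
      rw [← hU.2, e1, e1] at h5
      simp only [pth] at *; omega
    have hyx : Desir W y x := (a1 x y).2 h2
    have hw : insert y (U.erase x) ∈ W :=
      hyx _ (by simp [hy]) (by simp) (by rw [insert_erase hx]; exact hU.1)
    have hp : partialSum W (insert y (U.erase x)) = partialSum W U := by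
      funext i
      rw [e1, e1, pc, pc]
      have hxy : R.rk x < hi i ↔ R.rk y < hi i :=
        ⟨fun g => (a1 i y).1 (hyx.trans' ((a1 i x).2 g)), fun g => by omega⟩
      by_cases g : R.rk x < hi i
      · have e : ({z ∈ insert y (U.erase x) | R.rk z < hi i} : Finset N) =
            insert y (({z ∈ U | R.rk z < hi i} : Finset N).erase x) := by
          ext z
          simp only [mem_filter, mem_insert, mem_erase]
          constructor
          · rintro ⟨rfl | h3, h4⟩
            · exact Or.inl rfl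
            · exact Or.inr ⟨h3.1, h3.2, h4⟩
          · rintro (rfl | h3)
            · exact ⟨Or.inl rfl, hxy.1 g⟩
            · exact ⟨Or.inr ⟨h3.1, h3.2.1⟩, h3.2.2⟩
        have hm : x ∈ ({z ∈ U | R.rk z < hi i} : Finset N) := mem_filter.mpr ⟨hx, g⟩
        have := card_pos.mpr ⟨x, hm⟩
        rw [e, card_insert_of_notMem (by simp [hy]), card_erase_of_mem hm]; omega
      · congr 1
        ext z
        simp only [mem_filter, mem_insert, mem_erase]
        constructor
        · rintro ⟨rfl | h3, h4⟩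
          · exact absurd (hxy.2 h4) g
          · exact ⟨h3.2, h4⟩
        · rintro ⟨h3, h4⟩
          exact ⟨Or.inr ⟨by rintro rfl; exact g h4, h3⟩, h4⟩
    have h6 := hmax _ ⟨hw, hp.trans hU.2⟩
    rw [sum_insert (by simp [hy]), ← add_sum_erase U R.rk hx] at h6
    omega

/-- Winning coalitions whose path is minimal. -/
def Mins (W : Set (Finset N)) : Set (Finset N) :=
  {S | S ∈ W ∧ ∀ T ∈ W, (∀ k, R.pth T k ≤ R.pth S k) → T = S}

theorem exists_min {W : Set (Finset N)} {S : Finset N} (hS : S ∈ W) :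
    ∃ T ∈ R.Mins W, ∀ k, R.pth T k ≤ R.pth S k := by
  classical
  obtain ⟨T, hT, hmin⟩ := exists_min_image
    ({U | U ∈ W ∧ ∀ k, R.pth U k ≤ R.pth S k} : Finset (Finset N))
    (fun U => ∑ k ∈ range (R.n + 1), R.pth U k) ⟨S, by simpa⟩
  simp only [mem_filter, mem_univ, true_and] at hT hmin
  refine ⟨T, ⟨hT.1, fun U hU hle => ?_⟩, hT.2⟩
  have h1 := hmin U ⟨hU, fun k => (hle k).trans (hT.2 k)⟩
  have h2 : ∀ k ∈ range (R.n + 1), R.pth U k = R.pth T k :=
    (sum_eq_sum_iff_of_le fun k _ => hle k).1 (le_antisymm (sum_le_sum fun k _ => hle k) h1)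
  ext x
  have := R.lt x
  rw [R.mem_iff, R.mem_iff, h2 _ (mem_range.2 (by omega)), h2 _ (mem_range.2 (by omega))]

theorem ncard_types {W : Set (Finset N)} (hc : R.Compat W) :
    (shiftMinTypes W).ncard = (R.Mins W).ncard := by
  have himg : shiftMinTypes W = coalType W '' R.Mins W := by
    ext v
    constructor
    · rintro ⟨S, hS, rfl, h⟩
      obtain ⟨T, hT, hle⟩ := R.exists_min hS
      exact ⟨T, hT, h T hT.1 (R.ps_le hc hle)⟩
    · rintro ⟨S, hS, rfl⟩
      refine ⟨S, hS.1, rfl, fun T hT h => ?_⟩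
      obtain ⟨U, hU, h1, h2⟩ := R.lowest hc hT
      rw [← hS.2 U hU (h2 S h)]
      exact (R.type_iff hc _ _).2 h1.symm
  rw [himg]
  refine Set.InjOn.ncard_image fun S hS T hT h => ?_
  have h0 := (R.type_iff hc _ _).1 h
  obtain ⟨U, hU, _, h2⟩ := R.lowest hc hS.1
  rw [← hS.2 U hU (h2 S fun _ => le_rfl)]
  exact hT.2 U hU (h2 T fun i => (congrFun h0 i).le)

theorem mem_iff_min {W : Set (Finset N)} (hW : IsSimpleGame W) (hc : R.Compat W) (S : Finset N) :
    S ∈ W ↔ ∃ T ∈ R.Mins W, ∀ k, R.pth T k ≤ R.pth S k :=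
  ⟨R.exists_min, fun ⟨T, hT, h⟩ => R.shift_mono hW hc S _ T rfl hT.1 h⟩

theorem count_eq {ι : Type} [Fintype ι] (X : ι → Finset N) (p : N) :
    (({a | p ∈ X a} : Set ι).ncard : ℤ) =
      ∑ a, R.pth (X a) (R.rk p + 1) - ∑ a, R.pth (X a) (R.rk p) := by
  have h1 : ({a | p ∈ X a} : Set ι) = ↑({a | p ∈ X a} : Finset ι) := by simp
  rw [h1, Set.ncard_coe_finset, ← sum_sub_distrib, card_filter]
  push_cast
  refine sum_congr rfl fun a _ => ?_
  have h2 := R.mem_iff (X a) p
  have h3 := (R.pth_path (X a)).2 (R.rk p)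
  split_ifs with h
  · have := h2.1 h; omega
  · have := mt h2.2 h; omega

theorem sum_pth {ι : Type} [Fintype ι] (X Y : ι → Finset N)
    (h : ∀ p, {a | p ∈ X a}.ncard = {a | p ∈ Y a}.ncard) (k : ℕ) :
    ∑ a, R.pth (X a) k = ∑ a, R.pth (Y a) k := by
  induction k with
  | zero => simp only [(R.pth_path _).1]
  | succ k ih =>
    by_cases hk : k < R.n
    · obtain ⟨p, rfl⟩ := R.surj k hk
      have h1 := R.count_eq X p
      have h2 := R.count_eq Y p
      rw [h p] at h1; omega
    · have e : ∀ S, R.pth S (k + 1) = R.pth S k := fun S => by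
        rw [R.pth_const S (by omega), R.pth_const S (k := k) (by omega)]
      simp only [e, ih]

theorem count_co {ι : Type} [Fintype ι] (x y : ι → ℕ → ℤ) (hx : ∀ a, IsPath (x a))
    (hy : ∀ a, IsPath (y a)) (h : ∀ k, ∑ a, x a k = ∑ a, y a k) (p : N) :
    {a | p ∈ R.co (x a)}.ncard = {a | p ∈ R.co (y a)}.ncard := by
  have h1 := R.count_eq (fun a => R.co (x a)) p
  have h2 := R.count_eq (fun a => R.co (y a)) p
  have h3 := R.lt p
  simp only [fun a => R.pth_co (hx a) (show R.rk p + 1 ≤ R.n by omega),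
    fun a => R.pth_co (hx a) h3.le, fun a => R.pth_co (hy a) (show R.rk p + 1 ≤ R.n by omega),
    fun a => R.pth_co (hy a) h3.le, h] at h1 h2
  omega

end Rank

/-- Trade robustness for a family of winning paths. -/
def PR (V : (ℕ → ℤ) → Prop) (k : ℕ) : Prop :=
  ∀ j, 1 ≤ j → j ≤ k → ∀ x y : Fin j → ℕ → ℤ, (∀ a, IsPath (x a)) → (∀ a, IsPath (y a)) →
    (∀ a, V (x a)) → (∀ l, ∑ a, x a l = ∑ a, y a l) → ∃ a, V (y a)

theorem Rank.robust_iff (R : Rank N) {W : Set (Finset N)} {V : (ℕ → ℤ) → Prop}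
    (h : ∀ s, IsPath s → (V s ↔ R.co s ∈ W)) (k : ℕ) : TradeRobust W k ↔ PR V k := by
  constructor
  · intro H j h1 h2 x y hx hy hV hs
    obtain ⟨a, ha⟩ := H j h1 h2 (fun a => R.co (x a)) (fun a => R.co (y a))
      (fun a => (h _ (hx a)).1 (hV a)) (R.count_co x y hx hy hs)
    exact ⟨a, (h _ (hy a)).2 ha⟩
  · intro H j h1 h2 X Y hX hs
    obtain ⟨a, ha⟩ := H j h1 h2 (fun a => R.pth (X a)) (fun a => R.pth (Y a))
      (fun a => R.pth_path _) (fun a => R.pth_path _)
      (fun a => (h _ (R.pth_path _)).2 (by rw [R.co_pth]; exact hX a)) (R.sum_pth X Y hs)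
    exact ⟨a, by rw [← R.co_pth (Y a)]; exact (h _ (R.pth_path _)).1 ha⟩

end Pool.Agent.P.MP_c009d0_co
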