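import Pool.Agent.P.MP_c009d0_co.Core

/-! From a long trade to a closed family, in the normalised situation. -/

namespace Pool.Agent.P.MP_c009d0_co

theorem exists_pos {ι : Type} [Fintype ι] (f : ι → ℤ) (h : 0 ≤ ∑ i, f i) {i : ι} (hi : f i < 0) :
    ∃ i', 0 < f i' := by
  by_contra hc
  push Not at hc
  have : ∑ i, f i < ∑ _i : ι, (0 : ℤ) :=
    Finset.sum_lt_sum (fun a _ => hc a) ⟨i, Finset.mem_univ _, hi⟩
  simp at this; omega

theorem extremes {m : ℕ → ℤ} (em : Ev m) (P : ℕ → Prop) (hP : ∀ c, P c → Peak m c)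
    (hne : ∃ c, P c) : ∃ c1 c2, P c1 ∧ P c2 ∧ ∀ c, P c → c1 ≤ c ∧ c ≤ c2 := by
  classical
  obtain ⟨N, hN⟩ := em
  have hb : ∀ c, P c → c ≤ N := by
    intro c hc
    by_contra h
    have h1 := (hP c hc).at N
    have := hN c (by omega)
    omega
  obtain ⟨c0, hc0⟩ := hne
  refine ⟨Nat.find ⟨c0, hc0⟩, Nat.findGreatest P N, Nat.find_spec ⟨c0, hc0⟩,
    Nat.findGreatest_spec (hb c0 hc0) hc0, fun c hc => ⟨Nat.find_min' _ hc, ?_⟩⟩
  exact Nat.le_findGreatest (hb c hc) hc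

theorem slice {W : (ℕ → ℤ) → Prop} (hW : NoT2 W) {m T : ℕ → ℤ} (hm : IsPath m) (em : Ev m)
    (hwW : ∀ s, IsPath s → (∀ k, m k ≤ s k) → W s) (hT : IsPath T) (hTm : ∀ k, m k ≤ T k)
    (P : ℕ → Prop)
    (hP : ∀ c, P c → Peak m c ∧ ¬ W (fun l => min (T l) (top c (m c - 1) l)))
    (hne : ∃ c, P c) (hcl : ∀ c, P c → ∃ d, P d ∧ m c + 1 ≤ min (T c) (top d (m d - 1) c)) :
    False := by
  obtain ⟨c1, c2, h1, h2, h3⟩ := extremes em P (fun c hc => (hP c hc).1) hne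
  obtain ⟨d1, e1, f1⟩ := hcl c1 h1
  obtain ⟨d2, e2, f2⟩ := hcl c2 h2
  have p1 := (hP c1 h1).1
  have p2 := (hP c2 h2).1
  obtain ⟨c, _, hc⟩ := pure2 hW hm em hwW
    (min_path hT (top_path c1 (c := m c1 - 1) (by have := p1.pos hm; omega)))
    (min_path hT (top_path c2 (c := m c2 - 1) (by have := p2.pos hm; omega)))
    (hP c1 h1).2 (hP c2 h2).2
  have g1 := h3 d1 e1
  have g2 := h3 d2 e2
  have l1 := hm.lip g1.2
  have l2 := hm.lip g2.1
  have q1 := p1.at c; have q2 := p2.at c; have := hTm c; have := hm.bd c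
  simp only [top] at hc f1 f2
  by_cases k1 : c = c1
  · subst k1; omega
  · by_cases k2 : c = c2
    · subst k2; omega
    · omega

variable {m n : ℕ → ℤ} {j : ℕ}

/-- The second functional. -/
def FF (m n : ℕ → ℤ) (j k : ℕ) (s : ℕ → ℤ) : ℤ := s k - m k + (m k - n k) * (s j - m j)

theorem ymax (hm : IsPath m) {c1 c c2 : ℕ} (h1 : c1 ≤ c) (h2 : c ≤ c2) (k : ℕ) :
    yy m j c k ≤ yy m j c1 k ∨ yy m j c k ≤ yy m j c2 k := by
  have := hm.lip h1; have := hm.lip h2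
  simp only [yy, top]; omega

theorem Ctx.FFy (X : Ctx m n j) {c : ℕ} (hc : Peak m c) (h : c ≠ j) (k : ℕ) :
    FF m n j k (yy m j c) = yy m j c k - m k := by
  have h1 : yy m j c j = m j := by
    have := X.yj hc h
    simp only [yy, top] at this ⊢; omega
  simp only [FF, h1]; ring

theorem Ctx.FFj (X : Ctx m n j) (hc : Peak m j) (k : ℕ) :
    FF m n j k (yy m j j) = yy m j j k - (2 * m k - n k) := by
  have h1 : yy m j j j = m j - 1 := by
    have := (X.yge hc j).2 rfl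
    simp only [yy, top] at this ⊢; omega
  simp only [FF, h1]; ring

theorem Ctx.FFz (X : Ctx m n j) (a k : ℕ) :
    FF m n j k (zz n a) = zz n a k - n k + (m k - n k) * (zz n a j - n j) := by
  simp only [FF, X.hj]; ring

theorem Ctx.zf (X : Ctx m n j) {a k : ℕ} (ha : Peak n a) (h : a ≠ j) (hk : n k ≤ m k)
    (hp : 0 < FF m n j k (zz n a)) : ZF m n j a k := by
  rw [X.FFz] at hp
  have h1 := (X.zge ha j).1 h.symm
  by_cases h2 : n k + 1 ≤ zz n a k
  · exact ⟨Or.inl h2, Or.inl h2, Or.inl h2⟩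
  · refine ⟨Or.inr ?_, Or.inr ?_, Or.inr ?_⟩
    · by_contra h3
      have h4 : m k - n k = 0 := by omega
      rw [h4] at hp; omega
    · by_contra h3
      have h4 : zz n a j - n j = 0 := by omega
      rw [h4] at hp; omega
    · by_contra h3
      push Not at h3
      have h4 : a = k := by omega
      subst h4
      have h5 : zz n a a ≤ n a - 1 := by simp only [zz, top]; omega
      have h6 : (m a - n a) * (zz n a j - n j) ≤ 1 := by
        have : m a - n a = 0 ∨ m a - n a = 1 := by omega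
        rcases this with h7 | h7 <;> rw [h7] <;> omega
      omega

theorem closed (X : Ctx m n j) {b : ℕ} (pb : Peak m b) (hb : n b < m b) (Y : Set (ℕ → ℤ))
    (hne : Y.Nonempty)
    (hY : ∀ s ∈ Y, (∃ a, Peak n a ∧ a ≠ j ∧ s = zz n a) ∨
      ∃ c, Peak m c ∧ OK n j (yy m j c) ∧ s = yy m j c)
    (clG : ∀ k, n k ≤ m k → ∀ s ∈ Y, s k < n k → ∃ t ∈ Y, n k < t k)
    (clJ : ∀ s ∈ Y, s j < m j → ∃ t ∈ Y, m j < t j)
    (clF : ∀ k, n k ≤ m k → ∀ s ∈ Y, FF m n j k s < 0 → ∃ t ∈ Y, 0 < FF m n j k t) : False := by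
  have yle : ∀ c, yy m j c j ≤ m j := fun c => by simp only [yy, top]; omega
  have ycc : ∀ c, yy m j c c < m c := fun c => by simp only [yy, top]; omega
  have zaa : ∀ a, zz n a a < n a := fun a => by simp only [zz, top]; omega
  have nle : ∀ c, Peak m c → c ≠ j → n c ≤ m c := fun c hc h => (X.pkle hc).resolve_right h
  by_cases hO : ∃ a, Peak n a ∧ a ≠ j ∧ zz n a ∈ Y
  · obtain ⟨a1, a2, ⟨pa1, na1, ma1⟩, ⟨pa2, na2, ma2⟩, ha⟩ :=
      extremes X.en _ (fun c hc => hc.1) hO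
    have ha' : ∀ a, Peak n a → a ≠ j → zz n a ∈ Y → a = a1 ∨ a = a2 := by
      intro a pa na ma
      by_contra hc
      have h1 := ha a ⟨pa, na, ma⟩
      obtain ⟨t, ht, h2⟩ := clG a1 (X.uniq a1 pa1 na1) _ ma1 (zaa a1)
      have h3 : t a1 ≤ a1 := by
        rcases hY t ht with ⟨a, _, _, rfl⟩ | ⟨c, _, _, rfl⟩
        · simp only [zz, top]; omega
        · simp only [yy, top]; omega
      have := pa1.at a; have := pa.at a1; have := pa.at a2; have := pa2.at a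
      have := X.hn.bd a1
      refine X.Fzz pa1 pa2 na1 na2 ?_ ?_ <;> simp only [zz, top] <;> omega
    let HC : Prop := ∃ c, Peak m c ∧ c ≠ j ∧ OK n j (yy m j c) ∧ yy m j c ∈ Y
    let JJ : Prop := Peak m j ∧ OK n j (yy m j j) ∧ yy m j j ∈ Y
    have hc : ∃ c1 c2, (Peak m c1 ∧ c1 ≠ j ∧ OK n j (yy m j c1) ∧ (HC → yy m j c1 ∈ Y)) ∧
        (Peak m c2 ∧ c2 ≠ j ∧ OK n j (yy m j c2) ∧ (HC → yy m j c2 ∈ Y)) ∧ c1 ≤ c2 ∧
        ∀ c, Peak m c ∧ c ≠ j ∧ OK n j (yy m j c) ∧ yy m j c ∈ Y → c1 ≤ c ∧ c ≤ c2 := by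
      by_cases h : HC
      · obtain ⟨c1, c2, h1, h2, h3⟩ := extremes X.em _ (fun c hc => hc.1) h
        exact ⟨c1, c2, ⟨h1.1, h1.2.1, h1.2.2.1, fun _ => h1.2.2.2⟩,
          ⟨h2.1, h2.2.1, h2.2.2.1, fun _ => h2.2.2.2⟩, (h3 c2 h2).1, h3⟩
      · have nb : b ≠ j := by rintro rfl; have := X.hj; omega
        exact ⟨b, b, ⟨pb, nb, X.okX hb, fun g => absurd g h⟩,
          ⟨pb, nb, X.okX hb, fun g => absurd g h⟩, le_rfl, fun c g => absurd ⟨c, g⟩ h⟩
    obtain ⟨c1, c2, ⟨pc1, nc1, oc1, mc1⟩, ⟨pc2, nc2, oc2, mc2⟩, c12, hc⟩ := hc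
    have posG : ∀ k, (∃ t ∈ Y, n k < t k) → PosG m n j a1 a2 c1 c2 HC JJ k := by
      rintro k ⟨t, ht, h⟩
      rcases hY t ht with ⟨a, pa, na, rfl⟩ | ⟨c, pc, oc, rfl⟩
      · rcases ha' a pa na ht with rfl | rfl
        · exact Or.inl h
        · exact Or.inr (Or.inl h)
      · by_cases hcj : c = j
        · subst hcj
          exact Or.inr (Or.inr (Or.inr (Or.inr ⟨⟨pc, oc, ht⟩, h⟩)))
        · have g := hc c ⟨pc, hcj, oc, ht⟩
          rcases ymax (j := j) X.hm g.1 g.2 k with q | q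
          · exact Or.inr (Or.inr (Or.inl ⟨⟨c, pc, hcj, oc, ht⟩, by omega⟩))
          · exact Or.inr (Or.inr (Or.inr (Or.inl ⟨⟨c, pc, hcj, oc, ht⟩, by omega⟩)))
    have posF : ∀ k, n k ≤ m k → (∃ t ∈ Y, 0 < FF m n j k t) →
        PosF m n j a1 a2 c1 c2 HC JJ k := by
      rintro k hk ⟨t, ht, h⟩
      rcases hY t ht with ⟨a, pa, na, rfl⟩ | ⟨c, pc, oc, rfl⟩
      · have q := X.zf pa na hk h
        rcases ha' a pa na ht with rfl | rfl
        · exact Or.inl q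
        · exact Or.inr (Or.inl q)
      · by_cases hcj : c = j
        · subst hcj
          rw [X.FFj pc] at h
          exact Or.inr (Or.inr (Or.inr (Or.inr ⟨⟨pc, oc, ht⟩, by omega⟩)))
        · have g := hc c ⟨pc, hcj, oc, ht⟩
          rw [X.FFy pc hcj] at h
          rcases ymax (j := j) X.hm g.1 g.2 k with q | q
          · exact Or.inr (Or.inr (Or.inl ⟨⟨c, pc, hcj, oc, ht⟩, by omega⟩))
          · exact Or.inr (Or.inr (Or.inr (Or.inl ⟨⟨c, pc, hcj, oc, ht⟩, by omega⟩)))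
    have Fa : ∀ a, Peak n a → a ≠ j → zz n a ∈ Y → ¬ n j + 1 ≤ zz n a j →
        PosF m n j a1 a2 c1 c2 HC JJ a := by
      intro a pa na ma h
      refine posF a (X.uniq a pa na) (clF a (X.uniq a pa na) _ ma ?_)
      have h1 := (X.zge pa j).1 na.symm
      have h2 : zz n a j - n j = 0 := by omega
      rw [X.FFz, h2]; have := zaa a; omega
    have Fc : ∀ c, Peak m c → c ≠ j → yy m j c ∈ Y → PosF m n j a1 a2 c1 c2 HC JJ c := by
      intro c pc nc mc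
      refine posF c (nle c pc nc) (clF c (nle c pc nc) _ mc ?_)
      rw [X.FFy pc nc]; have := ycc c; omega
    obtain ⟨x, px, wx⟩ : ∃ x, Peak m x ∧ (JJ → zz n a2 x + yy m j j x < 2 * m x) := by
      by_cases h : JJ
      · obtain ⟨k, h1, h2⟩ := X.Fm2 pa2 na2 h.1
        exact ⟨k, h1, fun _ => h2⟩
      · exact ⟨b, pb, fun g => absurd g h⟩
    have w3 : ∀ c, Peak m c →
        ∃ x, Peak m x ∧ (JJ → zz n a1 x + yy m j j x + yy m j c x < 3 * m x) := by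
      intro c pc
      by_cases h : JJ
      · obtain ⟨k, h1, h2⟩ := X.Fm3 pa1 na1 h.1 pc
        exact ⟨k, h1, fun _ => h2⟩
      · exact ⟨b, pb, fun g => absurd g h⟩
    obtain ⟨v, pv, wv⟩ := w3 c1 pc1
    obtain ⟨u, pu, wu⟩ := w3 c2 pc2
    refine core X (HC := HC) (JJ := JJ)
      ⟨pa1, pa2, na1, na2, (ha a2 ⟨pa2, na2, ma2⟩).1, pc1, pc2, nc1, nc2, c12, oc1, oc2,
        fun h => h.1, fun h => h.2.1, px, pv, pu, wx, wv, wu,
        posG a1 (clG a1 (X.uniq a1 pa1 na1) _ ma1 (zaa a1)),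
        posG a2 (clG a2 (X.uniq a2 pa2 na2) _ ma2 (zaa a2)),
        Fa a1 pa1 na1 ma1, Fa a2 pa2 na2 ma2, fun h => Fc c1 pc1 nc1 (mc1 h),
        fun h => Fc c2 pc2 nc2 (mc2 h), fun k h hk h1 => ?_⟩
    refine posF k hk (clF k hk _ h.2.2 ?_)
    rw [X.FFj h.1]; omega
  · have hY' : ∀ s ∈ Y, ∃ c, Peak m c ∧ s = yy m j c := by
      intro s hs
      rcases hY s hs with ⟨a, pa, na, rfl⟩ | ⟨c, pc, _, rfl⟩
      · exact absurd ⟨a, pa, na, hs⟩ hO
      · exact ⟨c, pc, rfl⟩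
    have hnj : ∀ c, yy m j c ∈ Y → c ≠ j := by
      rintro c hc rfl
      obtain ⟨t, ht, h⟩ := clJ _ hc (ycc c)
      obtain ⟨d, _, rfl⟩ := hY' t ht
      have := yle d; omega
    refine slice X.t2 X.hm X.em winm (top_path j (X.hm.bd j).1) (le_top X.hm le_rfl)
      (fun c => Peak m c ∧ yy m j c ∈ Y) (fun c hc => ⟨hc.1, X.yl c⟩) ?_ ?_
    · obtain ⟨s, hs⟩ := hne
      obtain ⟨c, pc, rfl⟩ := hY' s hs
      exact ⟨c, pc, hs⟩
    · rintro c ⟨pc, mc⟩
      obtain ⟨t, ht, h⟩ := clF c (nle c pc (hnj c mc)) _ mc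
        (by rw [X.FFy pc (hnj c mc)]; have := ycc c; omega)
      obtain ⟨d, pd, rfl⟩ := hY' t ht
      rw [X.FFy pd (hnj d ht)] at h
      exact ⟨d, ⟨pd, ht⟩, by simp only [yy] at h; omega⟩

theorem Ctx.noTrade (X : Ctx m n j) {b : ℕ} (pb : Peak m b) (hb : n b < m b)
    {ι : Type} [Fintype ι] [Nonempty ι] (x y : ι → ℕ → ℤ) (hy : ∀ i, IsPath (y i))
    (wx : ∀ i, Win m n (x i)) (ly : ∀ i, ¬ Win m n (y i))
    (hs : ∀ k, ∑ i, x i k = ∑ i, y i k) : False := by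
  have cls : ∀ i, ∃ s : ℕ → ℤ, (∀ k, y i k ≤ s k) ∧ ((∃ a, Peak n a ∧ a ≠ j ∧ s = zz n a) ∨
      ∃ c, Peak m c ∧ OK n j (yy m j c) ∧ s = yy m j c) := by
    intro i
    have h := ly i
    simp only [Win, not_or, not_forall, not_le] at h
    obtain ⟨⟨k, hk⟩, ⟨l, hl⟩⟩ := h
    by_cases h1 : ∃ a, Peak n a ∧ a ≠ j ∧ y i a < n a
    · obtain ⟨a, pa, na, h2⟩ := h1
      exact ⟨zz n a, le_top (hy i) (by omega), Or.inl ⟨a, pa, na, rfl⟩⟩
    · push Not at h1
      obtain ⟨a, pa, h2⟩ := fail_peak X.hn X.en (hy i) hl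
      obtain ⟨c, pc, h3⟩ := fail_peak X.hm X.em (hy i) hk
      have h4 : a = j := by
        by_contra h5
        have := h1 a pa h5; omega
      subst h4
      have h6 : ∀ k, y i k ≤ yy m a c k := fun k =>
        le_min (le_top (hy i) (by have := X.hj; omega) k) (le_top (hy i) (by omega) k)
      exact ⟨yy m a c, h6, Or.inr ⟨c, pc, fun d pd nd => le_trans (h1 d pd nd) (h6 d), rfl⟩⟩
  choose Y hY1 hY2 using cls
  have hle : ∀ k, ∑ i, x i k ≤ ∑ i, Y i k := fun k => by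
    rw [hs k]; exact Finset.sum_le_sum fun i _ => hY1 i k
  have lin : ∀ k (v : ℤ), (∀ i, v ≤ x i k) → ∀ s ∈ Set.range Y, s k < v →
      ∃ t ∈ Set.range Y, v < t k := by
    rintro k v hv _ ⟨i, rfl⟩ h
    have h1 : 0 ≤ ∑ i, (Y i k - v) := by
      have h2 : ∑ _i : ι, v ≤ ∑ i, x i k := Finset.sum_le_sum fun i _ => hv i
      rw [Finset.sum_sub_distrib]; have := hle k; omega
    obtain ⟨i', h2⟩ := exists_pos _ h1 (i := i) (by omega)
    exact ⟨Y i', ⟨i', rfl⟩, by omega⟩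
  refine closed X pb hb (Set.range Y) (Set.range_nonempty Y) ?_ ?_ ?_ ?_
  · rintro _ ⟨i, rfl⟩; exact hY2 i
  · intro k hk
    refine lin k (n k) fun i => ?_
    rcases wx i with h | h <;> have := h k <;> omega
  · refine lin j (m j) fun i => ?_
    have := X.hj
    rcases wx i with h | h <;> have := h j <;> omega
  · rintro k hk _ ⟨i, rfl⟩ h
    have h0 : ∀ z : ι → ℕ → ℤ, ∑ i, FF m n j k (z i) =
        ∑ i, z i k - ∑ _i : ι, m k + (m k - n k) * (∑ i, z i j - ∑ _i : ι, m j) := by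
      intro z
      simp only [FF, Finset.sum_add_distrib, Finset.sum_sub_distrib, ← Finset.mul_sum]
    have h1 : 0 ≤ ∑ i, FF m n j k (x i) := by
      refine Finset.sum_nonneg fun i _ => ?_
      have := X.hj
      simp only [FF]
      rcases wx i with h | h
      · have := h k; have := h j; nlinarith
      · have := h k; have := h j; nlinarith
    have h2 : 0 ≤ ∑ i, FF m n j k (Y i) := by
      rw [h0] at h1 ⊢
      have := hle k; have := hle j; nlinarith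
    obtain ⟨i', h3⟩ := exists_pos _ h2 h
    exact ⟨Y i', ⟨i', rfl⟩, h3⟩

end Pool.Agent.P.MP_c009d0_co
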