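import Mathlib.Logic.Basic

/-! A propositional refutation, written out clause by clause. -/

namespace Pool.Agent.P.MP_c009d0_co

set_option maxRecDepth 100000 in
theorem prop_core (p0 p1 p2 p3 p4 p5 p6 p7 p8 p9 p10 p11 p12 p13 p14 p15 p16 p17 p18 p19 p20 p21 p22 p23 p24 p25 p26 p27 p28 p29 p30 p31 p32 p33 p34 p35 p36 p37 p38 p39 p40 p41 p42 p43 p44 p45 p46 p47 p48 p49 p50 p51 p52 p53 p54 p55 p56 p57 p58 p59 p60 p61 p62 p63 p64 p65 p66 p67 p68 p69 p70 p71 p72 p73 p74 p75 p76 p77 p78 p79 p80 p81 p82 p83 p84 p85 p86 p87 p88 p89 p90 p91 p92 p93 p94 p95 p96 p97 p98 p99 p100 p101 p102 p103 p104 p105 p106 p107 p108 p109 p110 p111 p112 p113 p114 p115 p116 p117 p118 p119 p120 p121 p122 p123 p124 p125 p126 p127 p128 p129 p130 p131 p132 p133 p134 p135 p136 p137 p138 p139 p140 p141 p142 p143 p144 p145 p146 p147 p148 p149 p150 p151 p152 p153 p154 p155 p156 p157 p158 p159 p160 p161 p162 p163 p164 p165 p166 p167 p168 p169 p170 p171 p172 p173 p174 p175 p176 p177 p178 p179 p180 p181 p182 p183 p184 p185 p186 p187 p188 p189 p190 p191 p192 p193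 p194 p195 p196 p197 p198 p199 p200 p201 p202 p203 p204 p205 p206 p207 p208 p209 p210 p211 p212 p213 p214 p215 p216 p217 p218 p219 p220 p221 p222 p223 p224 p225 p226 p227 p228 p229 p230 p231 p232 p233 p234 p235 p236 p237 p238 p239 p240 p241 p242 p243 p244 p245 p246 p247 p248 p249 p250 p251 p252 p253 p254 p255 p256 p257 p258 p259 p260 p261 p262 p263 p264 p265 p266 p267 p268 p269 p270 p271 p272 p273 p274 p275 p276 p277 p278 p279 p280 p281 p282 p283 p284 p285 p286 p287 p288 p289 p290 p291 p292 p293 p294 p295 p296 p297 p298 p299 p300 p301 p302 p303 p304 p305 p306 p307 p308 p309 p310 p311 p312 p313 p314 p315 p316 p317 p318 p319 p320 p321 p322 p323 p324 p325 p326 p327 p328 p329 p330 p331 p332 p333 p334 p335 p336 p337 p338 p339 p340 p341 p342 p343 p344 p345 p346 p347 p348 p349 p350 p351 p352 p353 p354 p355 p356 p357 p358 p359 p360 p361 p362 p363 p364 p365 p366 p367 p368 p369 p370 p371 p372 p373 p374 p375 p376 p377 p378 p379 p380 p381 p382 p383 p384 p385 p386 p387 p388 p389 p390 p391 p392 p393 p394 p395 p396 p397 p398 p399 p400 p401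 p402 p403 p404 p405 p406 p407 p408 p409 p410 p411 p412 p413 p414 p415 p416 p417 p418 p419 p420 p421 p422 p423 p424 p425 p426 p427 p428 p429 p430 p431 p432 p433 p434 p435 p436 p437 p438 p439 p440 p441 p442 p443 p444 p445 p446 p447 p448 p449 p450 p451 p452 : Prop)
    (c594 : ¬p16 → p13 → False)
    (c595 : ¬p14 → p414 → False)
    (c596 : ¬p65 → p14 → False)
    (c597 : p415 → ¬p17 → False)
    (c600 : ¬p219 → p20 → False)
    (c601 : p19 → ¬p220 → False)
    (c602 : ¬p24 → p21 → False)
    (c606 : p25 → ¬p23 → False)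
    (c608 : ¬p226 → p26 → False)
    (c609 : ¬p225 → p27 → False)
    (c610 : ¬p32 → p29 → False)
    (c617 : p46 → ¬p43 → False)
    (c619 : ¬p48 → p45 → False)
    (c623 : p60 → ¬p57 → False)
    (c631 : ¬p72 → p203 → False)
    (c633 : ¬p245 → p69 → False)
    (c634 : p204 → ¬p70 → False)
    (c636 : p73 → ¬p246 → False)
    (c637 : ¬p74 → p77 → False)
    (c638 : p231 → ¬p78 → False)
    (c640 : p232 → ¬p76 → False)
    (c641 : ¬p130 → p76 → False)
    (c643 : ¬p278 → p79 → False)
    (c644 : p80 → ¬p81 → False)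
    (c645 : ¬p279 → p81 → False)
    (c646 : ¬p82 → p85 → False)
    (c647 : ¬p86 → p235 → False)
    (c649 : p236 → ¬p84 → False)
    (c652 : ¬p299 → p87 → False)
    (c653 : ¬p300 → p88 → False)
    (c654 : ¬p89 → p92 → False)
    (c655 : ¬p93 → p417 → False)
    (c656 : ¬p90 → p93 → False)
    (c660 : ¬p328 → p94 → False)
    (c662 : ¬p329 → p96 → False)
    (c664 : p99 → ¬p354 → False)
    (c666 : p102 → ¬p100 → False)
    (c669 : ¬p376 → p104 → False)
    (c671 : p111 → ¬p108 → False)
    (c672 : p264 → ¬p112 → False)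
    (c674 : ¬p110 → p265 → False)
    (c678 : ¬p283 → p113 → False)
    (c679 : p117 → ¬p114 → False)
    (c680 : p268 → ¬p118 → False)
    (c682 : ¬p116 → p269 → False)
    (c685 : ¬p303 → p119 → False)
    (c688 : p124 → ¬p121 → False)
    (c690 : p125 → ¬p122 → False)
    (c694 : p126 → ¬p333 → False)
    (c695 : ¬p334 → p127 → False)
    (c696 : ¬p358 → p129 → False)
    (c699 : p289 → ¬p135 → False)
    (c701 : ¬p308 → p132 → False)
    (c702 : p290 → ¬p133 → False)
    (c704 : ¬p309 → p136 → False)
    (c707 : ¬p139 → p142 → False)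
    (c708 : ¬p143 → p398 → False)
    (c709 : ¬p140 → p143 → False)
    (c710 : ¬p338 → p140 → False)
    (c713 : ¬p339 → p144 → False)
    (c715 : p149 → ¬p146 → False)
    (c716 : p401 → ¬p150 → False)
    (c717 : p150 → ¬p147 → False)
    (c719 : p402 → ¬p148 → False)
    (c720 : ¬p151 → p148 → False)
    (c723 : ¬p153 → p156 → False)
    (c724 : p404 → ¬p157 → False)
    (c725 : ¬p154 → p157 → False)
    (c726 : ¬p385 → p154 → False)
    (c728 : p155 → ¬p158 → False)
    (c729 : p158 → ¬p386 → False)
    (c735 : ¬p342 → p165 → False)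
    (c738 : ¬p343 → p169 → False)
    (c748 : ¬p389 → p175 → False)
    (c749 : p412 → ¬p176 → False)
    (c750 : p176 → ¬p179 → False)
    (c751 : ¬p390 → p179 → False)
    (c763 : p197 → ¬p213 → False)
    (c764 : ¬p214 → p198 → False)
    (c765 : ¬p256 → p199 → False)
    (c766 : ¬p257 → p200 → False)
    (c769 : p241 → ¬p321 → False)
    (c770 : p346 → ¬p323 → False)
    (c771 : ¬p347 → p324 → False)
    (c772 : ¬p348 → p325 → False)
    (c773 : ¬p351 → p368 → False)
    (c774 : p393 → ¬p371 → False)
    (c775 : ¬p394 → p372 → False)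
    (c776 : ¬p395 → p373 → False)
    (c792 : p63 → ¬p187 → p65 → ¬p190 → p12 → False)
    (c794 : ¬p303 → ¬p203 → p87 → False)
    (c808 : ¬p16 → p82 → p36 → False)
    (c814 : ¬p20 → p225 → p72 → False)
    (c829 : ¬p446 → p444 → p12 → p3 → False)
    (c847 : p57 → p373 → ¬p61 → p63 → p12 → False)
    (c863 : p150 → ¬p172 → ¬p289 → False)
    (c865 : ¬p286 → p34 → p12 → p3 → False)
    (c870 : ¬p123 → p116 → ¬p136 → p339 → False)
    (c872 : p114 → ¬p85 → p71 → False)
    (c875 : ¬p339 → p34 → p48 → False)
    (c879 : ¬p337 → ¬p48 → p2 → False)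
    (c881 : ¬p82 → p114 → p66 → False)
    (c895 : ¬p72 → ¬p225 → p219 → False)
    (c909 : p265 → ¬p123 → p339 → False)
    (c912 : ¬p219 → p225 → p69 → False)
    (c950 : ¬p226 → p220 → ¬p72 → p66 → False)
    (c966 : ¬p59 → p441 → p451 → ¬p452 → p446 → p12 → p3 → False)
    (c970 : ¬p72 → ¬p282 → p278 → False)
    (c972 : p232 → ¬p265 → ¬p107 → p66 → False)
    (c976 : ¬p206 → p249 → ¬p72 → False)
    (c983 : ¬p380 → p376 → ¬p72 → False)
    (c1003 : ¬p357 → ¬p72 → p152 → p278 → False)
    (c1005 : ¬p329 → ¬p327 → p201 → False)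
    (c1009 : ¬p325 → ¬p127 → p429 → ¬p430 → p426 → False)
    (c1011 : ¬p429 → p427 → p12 → p3 → False)
    (c1013 : ¬p426 → ¬p72 → p424 → p66 → p6 → False)
    (c1017 : p274 → ¬p430 → p426 → ¬p123 → p429 → False)
    (c1019 : p427 → ¬p430 → p424 → p8 → False)
    (c1021 : p109 → p289 → ¬p85 → ¬p84 → p67 → False)
    (c1023 : ¬p71 → p289 → p74 → p110 → ¬p84 → ¬p85 → p67 → False)
    (c1025 : ¬p430 → ¬p48 → p424 → p429 → p12 → p3 → False)
    (c1033 : p43 → p428 → p424 → ¬p47 → ¬p430 → p12 → p3 → False)
    (c1035 : p428 → ¬p44 → p424 → ¬p430 → p8 → False)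
    (c1039 : ¬p327 → ¬p48 → ¬p126 → p425 → ¬p430 → p429 → p12 → p3 → False)
    (c1041 : ¬p72 → ¬p333 → p328 → False)
    (c1043 : p274 → ¬p430 → ¬p84 → p425 → ¬p408 → ¬p85 → ¬p142 → p110 → p289 → ¬p71 → p429 → p67 → False)
    (c1045 : ¬p143 → p289 → p342 → False)
    (c1048 : p274 → ¬p430 → ¬p265 → ¬p144 → p425 → ¬p121 → p429 → False)
    (c1050 : p84 → ¬p265 → ¬p136 → ¬p107 → p66 → False)
    (c1054 : ¬p430 → ¬p27 → ¬p47 → p425 → p428 → p12 → False)
    (c1056 : p427 → ¬p27 → ¬p47 → ¬p424 → ¬p430 → p425 → p12 → False)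
    (c1062 : p274 → ¬p430 → ¬p342 → ¬p85 → p425 → ¬p84 → ¬p408 → ¬p71 → p429 → p67 → False)
    (c1064 : p274 → ¬p430 → ¬p121 → ¬p71 → p425 → ¬p84 → ¬p343 → p429 → p67 → False)
    (c1068 : ¬p71 → p265 → ¬p232 → p67 → False)
    (c1076 : ¬p62 → ¬p449 → p389 → p451 → False)
    (c1080 : p232 → ¬p84 → p309 → False)
    (c1085 : ¬p278 → p282 → p69 → False)
    (c1089 : ¬p309 → p34 → ¬p41 → False)
    (c1091 : p34 → ¬p41 → ¬p136 → False)
    (c1095 : ¬p303 → ¬p72 → p299 → False)
    (c1099 : ¬p299 → p278 → p137 → False)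
    (c1114 : ¬p62 → ¬p384 → p12 → p3 → False)
    (c1119 : ¬p384 → ¬p447 → ¬p58 → p448 → False)
    (c1126 : ¬p384 → ¬p444 → ¬p58 → p445 → False)
    (c1128 : p447 → p441 → p444 → ¬p452 → p11 → False)
    (c1139 : ¬p307 → p286 → ¬p136 → False)
    (c1141 : p155 → ¬p412 → ¬p136 → False)
    (c1143 : p176 → ¬p386 → p309 → False)
    (c1145 : p176 → ¬p158 → p309 → False)
    (c1153 : ¬p376 → p159 → p278 → False)
    (c1156 : ¬p324 → p47 → ¬p194 → False)
    (c1162 : ¬p325 → ¬p430 → ¬p126 → p425 → p429 → False)
    (c1171 : p418 → ¬p408 → ¬p136 → ¬p232 → False)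
    (c1188 : ¬p48 → p123 → ¬p420 → False)
    (c1192 : ¬p71 → p123 → ¬p300 → ¬p408 → p87 → ¬p235 → p67 → False)
    (c1196 : ¬p71 → p123 → ¬p339 → ¬p232 → p67 → False)
    (c1199 : p141 → ¬p408 → ¬p136 → False)
    (c1204 : ¬p230 → p239 → p6 → False)
    (c1208 : p122 → ¬p342 → ¬p235 → p67 → False)
    (c1210 : ¬p343 → p339 → ¬p136 → False)
    (c1215 : ¬p304 → ¬p72 → p300 → p66 → False)
    (c1217 : ¬p298 → ¬p300 → p6 → False)
    (c1219 : ¬p218 → ¬p26 → ¬p72 → p66 → p6 → False)
    (c1244 : ¬p71 → p25 → ¬p230 → p67 → p12 → p3 → False)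
    (c1259 : p268 → ¬p235 → p67 → False)
    (c1266 : ¬p176 → p62 → p34 → ¬p136 → False)
    (c1272 : ¬p298 → p34 → ¬p138 → ¬p192 → p12 → p3 → False)
    (c1275 : ¬p71 → p269 → ¬p236 → p67 → False)
    (c1277 : ¬p277 → p34 → ¬p192 → p12 → p3 → False)
    (c1280 : p231 → ¬p235 → p135 → False)
    (c1285 : ¬p71 → p283 → ¬p279 → p69 → False)
    (c1289 : ¬p263 → ¬p107 → p230 → p66 → False)
    (c1299 : p112 → ¬p235 → p135 → p67 → False)
    (c1303 : p273 → ¬p33 → p219 → ¬p72 → p135 → ¬p235 → p67 → ¬p4 → False)
    (c1313 : ¬p328 → p49 → p225 → p69 → False)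
    (c1324 : ¬p377 → p381 → ¬p71 → p69 → False)
    (c1342 : ¬p175 → p157 → ¬p289 → False)
    (c1356 : p232 → p34 → ¬p415 → False)
    (c1366 : ¬p329 → ¬p121 → ¬p71 → p94 → False)
    (c1372 : ¬p156 → ¬p412 → ¬p309 → p154 → False)
    (c1376 : p273 → ¬p274 → ¬p16 → p66 → False)
    (c1380 : p274 → ¬p71 → ¬p418 → p96 → p425 → ¬p430 → ¬p328 → p429 → p67 → False)
    (c1383 : ¬p16 → p21 → p66 → False)
    (c1397 : p294 → ¬p33 → ¬p192 → False)
    (c1403 : p451 → ¬p61 → ¬p20 → p57 → ¬p452 → p442 → p446 → p12 → False)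
    (c1405 : ¬p154 → p389 → p289 → False)
    (c1412 : ¬p441 → ¬p384 → ¬p20 → p442 → ¬p58 → p12 → False)
    (c1414 : p442 → p449 → p289 → ¬p20 → p444 → ¬p58 → ¬p452 → ¬p33 → p12 → p11 → False)
    (c1416 : p441 → ¬p58 → ¬p33 → p289 → p444 → ¬p452 → p449 → p11 → False)
    (c1418 : p441 → ¬p58 → ¬p33 → p449 → ¬p452 → p444 → p132 → p11 → False)
    (c1420 : p441 → ¬p58 → ¬p33 → p384 → p449 → ¬p452 → p445 → p132 → False)
    (c1428 : p389 → ¬p58 → ¬p33 → p132 → False)
    (c1430 : p295 → ¬p307 → ¬p135 → p131 → ¬p192 → p2 → False)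
    (c1432 : p295 → ¬p412 → ¬p135 → p59 → p131 → ¬p192 → False)
    (c1444 : p232 → ¬p236 → p136 → False)
    (c1449 : p295 → p232 → ¬p418 → ¬p139 → p425 → ¬p430 → ¬p79 → p429 → p69 → False)
    (c1455 : p407 → ¬p398 → p136 → p131 → False)
    (c1457 : p295 → ¬p79 → ¬p398 → p425 → ¬p430 → p142 → p429 → p69 → False)
    (c1459 : p295 → ¬p79 → ¬p338 → p425 → ¬p430 → ¬p399 → p429 → p69 → False)
    (c1461 : p295 → ¬p79 → ¬p430 → ¬p143 → p425 → ¬p408 → p429 → ¬p133 → p69 → False)
    (c1463 : p295 → ¬p407 → ¬p134 → ¬p144 → p425 → ¬p430 → ¬p79 → p429 → ¬p133 → p69 → False)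
    (c1473 : ¬p342 → p140 → ¬p289 → False)
    (c1481 : ¬p338 → p342 → p132 → False)
    (c1483 : p274 → ¬p430 → ¬p342 → ¬p135 → ¬p74 → p425 → ¬p408 → ¬p232 → ¬p71 → p429 → ¬p133 → p67 → False)
    (c1485 : p274 → ¬p343 → ¬p74 → ¬p135 → ¬p430 → p425 → ¬p407 → ¬p232 → ¬p71 → p429 → ¬p133 → p67 → False)
    (c1487 : p420 → ¬p307 → ¬p71 → ¬p232 → ¬p133 → p67 → p12 → p3 → False)
    (c1494 : ¬p274 → p76 → p34 → ¬p19 → ¬p107 → p69 → p66 → p12 → False)
    (c1496 : ¬p334 → ¬p72 → p329 → p66 → False)
    (c1498 : p168 → ¬p398 → p135 → False)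
    (c1503 : ¬p74 → p235 → ¬p232 → ¬p289 → False)
    (c1506 : p412 → ¬p155 → p309 → False)
    (c1511 : ¬p334 → p76 → p94 → p339 → ¬p417 → ¬p72 → p66 → False)
    (c1515 : ¬p334 → ¬p72 → p183 → p300 → p66 → False)
    (c1517 : p167 → ¬p417 → p235 → p339 → ¬p133 → False)
    (c1519 : ¬p82 → p74 → p131 → False)
    (c1521 : p264 → ¬p235 → p136 → p67 → p131 → False)
    (c1523 : ¬p33 → p136 → p14 → ¬p235 → p131 → False)
    (c1536 : p166 → ¬p144 → p309 → False)
    (c1538 : p241 → ¬p274 → ¬p107 → p69 → p66 → False)
    (c1546 : ¬p179 → p386 → ¬p136 → False)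
    (c1568 : ¬p404 → p175 → p289 → False)
    (c1576 : p315 → ¬p20 → ¬p143 → p289 → ¬p87 → p328 → p325 → ¬p408 → ¬p136 → p34 → p12 → False)
    (c1578 : p316 → ¬p408 → p289 → ¬p143 → ¬p87 → p328 → p325 → False)
    (c1584 : ¬p328 → p145 → p278 → False)
    (c1588 : ¬p71 → p226 → ¬p220 → p69 → False)
    (c1594 : p274 → ¬p71 → ¬p19 → ¬p72 → p67 → ¬p190 → p12 → False)
    (c1596 : p34 → p300 → ¬p19 → ¬p138 → ¬p192 → p12 → False)
    (c1612 : p231 → ¬p264 → ¬p107 → False)
    (c1615 : ¬p20 → ¬p213 → p12 → False)
    (c1617 : ¬p20 → ¬p197 → p12 → False)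
    (c1623 : p316 → p449 → p443 → ¬p88 → p289 → ¬p155 → ¬p156 → p309 → ¬p452 → p446 → False)
    (c1633 : p102 → ¬p60 → ¬p16 → False)
    (c1636 : ¬p451 → p447 → p12 → p3 → False)
    (c1640 : ¬p443 → p441 → p201 → False)
    (c1642 : p316 → ¬p157 → p451 → ¬p88 → p153 → p309 → p443 → p34 → ¬p452 → p446 → False)
    (c1644 : ¬p71 → ¬p45 → ¬p19 → ¬p430 → p426 → p429 → p69 → p12 → False)
    (c1647 : ¬p230 → ¬p33 → p14 → p201 → p206 → False)
    (c1649 : ¬p33 → ¬p231 → p14 → False)
    (c1651 : p449 → ¬p60 → ¬p33 → p289 → ¬p451 → False)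
    (c1653 : p316 → ¬p177 → ¬p88 → ¬p158 → p449 → p309 → p443 → ¬p452 → p446 → False)
    (c1656 : p316 → p76 → ¬p241 → p309 → p82 → ¬p161 → False)
    (c1662 : p316 → ¬p398 → p289 → ¬p87 → p142 → p309 → p425 → ¬p430 → p429 → p69 → False)
    (c1665 : p315 → ¬p33 → p278 → p289 → ¬p87 → ¬p192 → False)
    (c1669 : p34 → ¬p85 → ¬p415 → p83 → ¬p136 → False)
    (c1671 : ¬p214 → p86 → p210 → ¬p415 → False)
    (c1673 : p315 → ¬p32 → ¬p316 → ¬p136 → p289 → False)
    (c1678 : p315 → p17 → ¬p316 → p235 → p300 → ¬p20 → ¬p136 → ¬p76 → p12 → False)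
    (c1682 : ¬p74 → p82 → ¬p135 → p136 → False)
    (c1694 : ¬p142 → ¬p85 → p92 → ¬p133 → p132 → False)
    (c1696 : ¬p331 → p126 → p206 → ¬p93 → p83 → ¬p135 → p69 → False)
    (c1698 : ¬p48 → p91 → ¬p415 → False)
    (c1700 : p124 → ¬p92 → p66 → False)
    (c1702 : ¬p214 → p90 → ¬p92 → ¬p325 → ¬p415 → ¬p181 → ¬p72 → False)
    (c1704 : ¬p71 → ¬p135 → p17 → p82 → ¬p144 → p206 → p136 → ¬p86 → p426 → ¬p430 → p429 → p69 → False)
    (c1706 : p167 → p144 → ¬p93 → p83 → ¬p133 → False)
    (c1709 : p76 → p34 → ¬p415 → False)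
    (c1711 : p236 → ¬p232 → ¬p133 → False)
    (c1714 : p315 → ¬p20 → p299 → ¬p163 → p132 → ¬p192 → p12 → False)
    (c1721 : p316 → ¬p408 → ¬p71 → ¬p88 → ¬p121 → p425 → ¬p430 → p429 → p69 → False)
    (c1724 : ¬p135 → p235 → ¬p107 → ¬p125 → p338 → False)
    (c1726 : ¬p135 → p235 → ¬p231 → False)
    (c1728 : ¬p329 → p334 → ¬p71 → p69 → False)
    (c1730 : ¬p339 → p343 → p136 → False)
    (c1732 : p295 → ¬p71 → ¬p88 → ¬p398 → p142 → ¬p135 → p136 → p426 → ¬p430 → p429 → p137 → p69 → False)
    (c1736 : p295 → ¬p71 → ¬p88 → ¬p135 → p167 → ¬p407 → p426 → ¬p430 → p429 → p137 → ¬p133 → p69 → False)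
    (c1740 : ¬p342 → ¬p135 → p338 → False)
    (c1742 : p295 → ¬p135 → ¬p88 → ¬p452 → p450 → p136 → p443 → ¬p155 → p446 → p137 → False)
    (c1745 : p415 → p295 → ¬p158 → p451 → ¬p123 → ¬p88 → ¬p135 → p136 → p443 → ¬p107 → p426 → ¬p452 → ¬p430 → p429 → p446 → p137 → p69 → p66 → False)
    (c1749 : ¬p153 → p174 → ¬p133 → p132 → False)
    (c1751 : p415 → p141 → p451 → ¬p412 → p295 → ¬p123 → ¬p88 → ¬p135 → p443 → ¬p107 → ¬p452 → p446 → p137 → ¬p133 → p66 → False)
    (c1753 : p231 → ¬p103 → p389 → p132 → False)
    (c1757 : ¬p381 → p189 → ¬p72 → p300 → ¬p163 → ¬p133 → p132 → p66 → False)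
    (c1759 : ¬p373 → p415 → p451 → ¬p105 → ¬p101 → p443 → ¬p452 → p446 → False)
    (c1761 : p415 → p451 → ¬p372 → p93 → p389 → ¬p105 → ¬p101 → ¬p342 → ¬p20 → p443 → ¬p452 → p446 → p12 → False)
    (c1763 : ¬p385 → p389 → p132 → False)
    (c1765 : p415 → p451 → ¬p101 → p180 → ¬p399 → p295 → ¬p88 → ¬p135 → p136 → p443 → ¬p452 → p446 → p137 → False)
    (c1767 : ¬p105 → ¬p153 → ¬p399 → p96 → ¬p125 → p389 → ¬p372 → p231 → p121 → ¬p194 → ¬p20 → ¬p107 → p132 → p66 → p12 → False)
    (c1769 : ¬p105 → ¬p373 → ¬p124 → p122 → ¬p399 → p155 → ¬p241 → ¬p71 → p67 → False)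
    (c1771 : ¬p105 → p155 → ¬p399 → p325 → ¬p373 → p329 → False)
    (c1773 : p415 → ¬p372 → p93 → ¬p105 → p389 → p373 → ¬p338 → ¬p241 → ¬p20 → p132 → p12 → False)
    (c1775 : p295 → ¬p135 → ¬p88 → ¬p412 → p449 → ¬p389 → p443 → ¬p452 → p446 → p137 → ¬p133 → False)
    (c1777 : ¬p451 → ¬p60 → ¬p33 → p449 → p132 → False)
    (c1780 : p295 → p451 → ¬p71 → p28 → ¬p412 → ¬p135 → p443 → ¬p88 → ¬p452 → p446 → p137 → ¬p133 → p69 → ¬p4 → False)
    (c1782 : p412 → p385 → p93 → ¬p105 → ¬p372 → ¬p415 → ¬p399 → ¬p338 → p329 → ¬p194 → ¬p16 → p136 → False)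
    (c1784 : ¬p372 → p176 → p93 → p385 → ¬p105 → ¬p415 → ¬p399 → ¬p338 → p329 → ¬p194 → ¬p16 → p136 → False)
    (c1790 : p316 → ¬p295 → p136 → ¬p163 → p132 → False)
    (c1792 : ¬p154 → p389 → p135 → False)
    (c1796 : ¬p93 → p342 → p235 → False)
    (c1801 : ¬p71 → p92 → ¬p124 → False)
    (c1803 : ¬p339 → ¬p167 → p309 → p165 → False)
    (c1812 : p295 → ¬p71 → ¬p339 → ¬p80 → p426 → ¬p430 → p429 → p69 → False)
    (c1816 : ¬p279 → p300 → ¬p138 → False)
    (c1822 : p143 → ¬p289 → p235 → ¬p417 → False)
    (c1836 : ¬p263 → p25 → p12 → p3 → False)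
    (c1838 : p121 → p183 → ¬p246 → p300 → ¬p181 → False)
    (c1840 : ¬p127 → p183 → ¬p246 → p300 → False)
    (c1843 : ¬p183 → p329 → ¬p88 → False)
    (c1845 : ¬p230 → p17 → p12 → p3 → False)
    (c1848 : ¬p127 → p183 → ¬p73 → p300 → False)
    (c1850 : p122 → ¬p124 → ¬p265 → ¬p339 → False)
    (c1856 : ¬p339 → p123 → ¬p265 → False)
    (c1858 : p282 → ¬p79 → p72 → False)
    (c1868 : ¬p334 → ¬p246 → p329 → False)
    (c1876 : ¬p135 → p269 → ¬p265 → p131 → False)
    (c1887 : p282 → ¬p126 → ¬p80 → ¬p339 → p143 → p329 → False)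
    (c1898 : ¬p218 → ¬p19 → p201 → False)
    (c1910 : p231 → ¬p235 → p132 → False)
    (c1915 : p121 → ¬p246 → p329 → ¬p181 → False)
    (c1917 : p282 → ¬p108 → ¬p279 → p246 → False)
    (c1926 : p47 → ¬p398 → p30 → False)
    (c1932 : p220 → ¬p26 → ¬p73 → False)
    (c1942 : p61 → ¬p404 → ¬p44 → p143 → False)
    (c1947 : ¬p381 → p64 → p220 → ¬p70 → False)
    (c1949 : ¬p62 → p386 → ¬p19 → ¬p194 → p329 → ¬p339 → p12 → False)
    (c1955 : ¬p373 → p372 → ¬p60 → False)
    (c1962 : p57 → p451 → ¬p19 → ¬p61 → ¬p452 → p443 → p446 → p12 → False)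
    (c1991 : ¬p286 → p220 → ¬p76 → p239 → p218 → False)
    (c2012 : p178 → ¬p404 → p135 → False)
    (c2027 : p58 → ¬p404 → ¬p44 → p143 → False)
    (c2036 : p23 → ¬p19 → p246 → ¬p191 → p12 → False)
    (c2042 : ¬p203 → p18 → ¬p27 → False)
    (c2055 : p17 → ¬p420 → ¬p76 → p116 → ¬p133 → False)
    (c2075 : p213 → p106 → p203 → ¬p191 → False)
    (c2103 : p61 → ¬p404 → p30 → False)
    (c2128 : p265 → p15 → ¬p420 → ¬p76 → False)
    (c2130 : p15 → ¬p30 → p29 → ¬p76 → False)
    (c2136 : ¬p256 → ¬p20 → p72 → p12 → False)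
    (c2140 : p200 → ¬p198 → ¬p246 → False)
    (c2143 : p265 → ¬p203 → p250 → ¬p217 → p67 → False)
    (c2145 : ¬p135 → p86 → p206 → ¬p217 → False)
    (c2147 : ¬p246 → p250 → p83 → ¬p85 → ¬p217 → ¬p133 → False)
    (c2150 : p231 → p206 → ¬p190 → False)
    (c2153 : p199 → p22 → ¬p191 → False)
    (c2155 : ¬p230 → p217 → p201 → False)
    (c2159 : ¬p414 → ¬p199 → p72 → p217 → False)
    (c2165 : ¬p230 → p319 → ¬p217 → False)
    (c2167 : ¬p222 → p75 → p206 → False)
    (c2173 : ¬p430 → ¬p45 → ¬p26 → p426 → p429 → p12 → False)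
    (c2175 : ¬p44 → p143 → ¬p414 → p75 → False)
    (c2177 : ¬p85 → ¬p414 → p72 → p75 → ¬p265 → p22 → ¬p246 → ¬p133 → p132 → False)
    (c2187 : ¬p328 → p333 → p72 → False)
    (c2197 : ¬p324 → ¬p414 → p75 → ¬p217 → p140 → ¬p126 → ¬p203 → False)
    (c2200 : ¬p333 → ¬p203 → p94 → False)
    (c2206 : ¬p422 → ¬p414 → p72 → p22 → p91 → ¬p246 → False)
    (c2208 : p107 → ¬p414 → p22 → False)
    (c2211 : ¬p331 → ¬p414 → p94 → p222 → ¬p44 → False)
    (c2213 : ¬p140 → ¬p85 → p89 → p141 → ¬p133 → p132 → False)
    (c2215 : p333 → ¬p94 → p72 → False)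
    (c2217 : ¬p327 → ¬p424 → p72 → p425 → ¬p94 → False)
    (c2231 : p265 → ¬p269 → p136 → False)
    (c2241 : p253 → ¬p246 → p75 → ¬p85 → ¬p217 → p132 → False)
    (c2245 : p241 → ¬p91 → ¬p417 → p425 → ¬p430 → p72 → p429 → False)
    (c2247 : ¬p127 → ¬p246 → p329 → False)
    (c2252 : ¬p20 → p240 → ¬p190 → p12 → False)
    (c2255 : ¬p93 → ¬p48 → p72 → p217 → ¬p430 → p425 → p429 → False)
    (c2257 : ¬p203 → p417 → ¬p126 → p329 → ¬p91 → False)
    (c2260 : p232 → ¬p265 → ¬p91 → p123 → False)
    (c2262 : ¬p20 → p75 → p29 → ¬p218 → ¬p190 → p7 → False)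
    (c2264 : p232 → p207 → ¬p190 → False)
    (c2274 : ¬p274 → p17 → p217 → ¬p417 → ¬p246 → p122 → p72 → False)
    (c2282 : p293 → ¬p218 → ¬p31 → ¬p192 → ¬p4 → False)
    (c2286 : ¬p218 → p217 → ¬p25 → ¬p207 → ¬p68 → p7 → ¬p4 → False)
    (c2288 : ¬p207 → p217 → ¬p265 → ¬p68 → False)
    (c2290 : ¬p218 → ¬p31 → p286 → ¬p4 → False)
    (c2300 : p232 → ¬p265 → ¬p68 → False)
    (c2302 : p241 → ¬p422 → ¬p93 → p425 → ¬p430 → p72 → p429 → ¬p68 → False)
    (c2306 : ¬p414 → p240 → ¬p217 → False)
    (c2308 : p197 → p14 → ¬p217 → False)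
    (c2310 : p76 → ¬p217 → p207 → False)
    (c2312 : ¬p85 → p134 → p74 → False)
    (c2318 : p232 → ¬p25 → ¬p218 → ¬p68 → p7 → ¬p4 → False)
    (c2323 : p17 → ¬p31 → ¬p232 → False)
    (c2325 : p76 → p250 → ¬p73 → ¬p190 → False)
    (c2339 : ¬p304 → p300 → ¬p73 → False)
    (c2343 : ¬p120 → p300 → ¬p73 → False)
    (c2350 : ¬p283 → p279 → ¬p73 → False)
    (c2358 : p264 → ¬p118 → p132 → False)
    (c2375 : ¬p203 → ¬p117 → p235 → p246 → ¬p136 → ¬p76 → False)
    (c2383 : p123 → ¬p71 → p89 → ¬p93 → p67 → False)
    (c2385 : p293 → ¬p286 → ¬p192 → False)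
    (c2387 : ¬p277 → p286 → ¬p192 → False)
    (c2392 : ¬p337 → ¬p93 → p89 → p230 → False)
    (c2394 : p197 → p14 → ¬p190 → False)
    (c2396 : ¬p257 → ¬p71 → ¬p19 → p69 → p12 → False)
    (c2398 : ¬p256 → ¬p414 → p217 → p69 → False)
    (c2404 : ¬p414 → p217 → ¬p213 → False)
    (c2406 : ¬p451 → p232 → p136 → ¬p19 → p450 → ¬p190 → p12 → False)
    (c2408 : ¬p156 → p177 → p131 → False)
    (c2419 : ¬p177 → ¬p158 → ¬p134 → p157 → False)
    (c2421 : p100 → p386 → p232 → p143 → ¬p93 → ¬p404 → False)
    (c2427 : ¬p390 → p386 → ¬p133 → False)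
    (c2431 : ¬p389 → p385 → ¬p134 → ¬p133 → False)
    (c2451 : ¬p307 → p286 → ¬p133 → False)
    (c2455 : ¬p385 → p445 → p441 → p450 → p143 → ¬p412 → ¬p93 → p14 → ¬p452 → p11 → False)
    (c2457 : ¬p385 → p445 → p449 → p143 → p441 → ¬p93 → p14 → ¬p452 → p132 → p11 → False)
    (c2459 : ¬p414 → p240 → ¬p190 → False)
    (c2463 : ¬p442 → p385 → p384 → p441 → p278 → ¬p192 → False)
    (c2465 : p441 → ¬p442 → p449 → p445 → ¬p154 → p13 → p220 → ¬p452 → p132 → p11 → ¬p4 → False)
    (c2467 : ¬p384 → ¬p155 → p286 → False)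
    (c2469 : ¬p82 → ¬p167 → p89 → False)
    (c2487 : ¬p105 → ¬p179 → p450 → p445 → ¬p372 → ¬p452 → p443 → False)
    (c2518 : p168 → ¬p143 → p132 → False)
    (c2523 : ¬p375 → ¬p376 → ¬p441 → p442 → False)
    (c2543 : ¬p203 → ¬p282 → p77 → p279 → False)
    (c2547 : p264 → ¬p268 → p132 → False)
    (c2553 : p109 → ¬p260 → p203 → ¬p231 → p217 → False)
    (c2555 : ¬p279 → p113 → p246 → False)
    (c2557 : ¬p260 → p217 → p246 → ¬p76 → p110 → False)
    (c2560 : p265 → p217 → p246 → ¬p76 → ¬p191 → False)
    (c2578 : ¬p157 → p445 → ¬p79 → ¬p134 → p294 → p153 → p450 → ¬p452 → p442 → p132 → False)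
    (c2580 : ¬p372 → p445 → ¬p134 → ¬p158 → p450 → p442 → ¬p452 → ¬p104 → p132 → False)
    (c2591 : ¬p277 → ¬p294 → ¬p278 → p414 → ¬p190 → p7 → False)
    (c2597 : ¬p286 → p141 → p8 → False)
    (c2607 : ¬p294 → p315 → ¬p163 → p132 → False)
    (c2618 : ¬p93 → ¬p430 → p414 → p217 → p425 → p428 → p69 → False)
    (c2628 : p427 → ¬p430 → ¬p93 → p425 → p217 → p337 → p69 → False)
    (c2632 : ¬p59 → p450 → ¬p31 → ¬p134 → ¬p19 → ¬p452 → p443 → p446 → p132 → p12 → False)
    (c2634 : ¬p283 → ¬p72 → p279 → p66 → False)
    (c2642 : p323 → p427 → ¬p430 → p425 → ¬p94 → p69 → False)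
    (c2644 : ¬p328 → p427 → p217 → p425 → ¬p430 → p230 → ¬p418 → p96 → p69 → False)
    (c2648 : p231 → p30 → ¬p414 → False)
    (c2671 : p121 → p91 → ¬p44 → ¬p414 → p66 → False)
    (c2679 : p76 → p166 → ¬p91 → p309 → False)
    (c2689 : ¬p107 → ¬p268 → p235 → False)
    (c2691 : ¬p307 → p76 → ¬p84 → p7 → False)
    (c2697 : p41 → p309 → ¬p19 → p130 → ¬p190 → p12 → False)
    (c2701 : ¬p75 → p86 → ¬p289 → False)
    (c2714 : p273 → ¬p72 → ¬p414 → p67 → ¬p190 → False)
    (c2722 : p315 → ¬p414 → p83 → ¬p161 → ¬p190 → False)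
    (c2737 : p51 → ¬p128 → p14 → ¬p19 → ¬p71 → ¬p190 → p12 → False)
    (c2743 : p321 → ¬p19 → ¬p190 → p12 → False)
    (c2745 : p439 → p51 → ¬p19 → ¬p54 → p232 → p433 → p435 → ¬p440 → ¬p190 → p12 → False)
    (c2747 : p439 → p51 → ¬p19 → p435 → ¬p54 → p286 → p431 → p232 → ¬p440 → ¬p190 → p12 → False)
    (c2749 : ¬p433 → p232 → p286 → p431 → ¬p190 → False)
    (c2755 : p51 → p435 → ¬p19 → ¬p54 → p431 → p286 → p436 → p232 → ¬p440 → ¬p190 → p12 → False)
    (c2757 : p51 → ¬p435 → p232 → p434 → p286 → ¬p19 → ¬p190 → p12 → False)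
    (c2759 : p51 → ¬p54 → ¬p414 → p232 → p435 → p286 → ¬p19 → p432 → p436 → ¬p440 → p12 → False)
    (c2761 : p51 → p437 → ¬p54 → ¬p19 → p435 → p433 → ¬p440 → p12 → False)
    (c2768 : ¬p55 → p362 → ¬p19 → p232 → ¬p190 → p12 → False)
    (c2770 : ¬p55 → ¬p361 → p2 → False)
    (c2772 : p54 → ¬p401 → p14 → ¬p78 → False)
    (c2776 : p437 → p435 → ¬p414 → p217 → ¬p52 → ¬p440 → p432 → False)
    (c2778 : p435 → p437 → p431 → ¬p52 → ¬p440 → p9 → False)
    (c2780 : p439 → p435 → p83 → p431 → p149 → p361 → ¬p52 → ¬p289 → ¬p414 → ¬p440 → False)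
    (c2782 : p438 → p435 → ¬p150 → p361 → p431 → p30 → ¬p440 → False)
    (c2786 : p436 → ¬p438 → p435 → p361 → p431 → p30 → ¬p440 → False)
    (c2788 : p436 → p435 → p431 → p361 → ¬p52 → ¬p440 → False)
    (c2790 : p436 → p435 → p431 → ¬p52 → ¬p440 → p9 → False)
    (c2792 : ¬p361 → ¬p52 → ¬p414 → p83 → p286 → ¬p289 → p149 → False)
    (c2794 : p438 → p435 → p135 → p14 → ¬p150 → ¬p86 → ¬p440 → p431 → p9 → False)
    (c2796 : ¬p361 → ¬p402 → p86 → ¬p79 → p293 → ¬p289 → ¬p190 → False)
    (c2798 : p438 → p435 → p135 → p14 → ¬p235 → p431 → ¬p440 → ¬p147 → p9 → False)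
    (c2800 : ¬p431 → ¬p361 → p217 → ¬p235 → p135 → ¬p147 → p432 → False)
    (c2802 : ¬p361 → ¬p86 → p217 → p135 → ¬p150 → ¬p431 → p432 → False)
    (c2804 : p438 → ¬p150 → p14 → p217 → ¬p86 → p135 → ¬p440 → p432 → p435 → False)
    (c2806 : p171 → ¬p401 → ¬p309 → p362 → p135 → False)
    (c2808 : p316 → p171 → ¬p401 → p362 → ¬p87 → p83 → ¬p19 → p232 → p135 → ¬p190 → p12 → False)
    (c2810 : p401 → ¬p52 → p83 → ¬p289 → ¬p414 → False)
    (c2812 : p439 → ¬p362 → p217 → ¬p86 → p432 → ¬p401 → p14 → ¬p440 → p135 → p435 → False)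
    (c2814 : p436 → ¬p362 → p217 → ¬p86 → p432 → ¬p401 → p286 → p14 → ¬p440 → p135 → p435 → False)
    (c2816 : p435 → ¬p150 → ¬p86 → p361 → p436 → p432 → p14 → ¬p440 → p135 → p217 → False)
    (c2820 : p316 → p300 → ¬p19 → ¬p193 → p12 → False)
    (c2842 : p436 → p434 → p431 → ¬p440 → p9 → False)
    (c2848 : p434 → p438 → p431 → ¬p147 → ¬p440 → p9 → False)
    (c2852 : p437 → p434 → p431 → ¬p435 → ¬p440 → p9 → False)
    (c2854 : ¬p361 → ¬p148 → p286 → False)
    (c2880 : ¬p40 → p30 → ¬p289 → False)
    (c2886 : ¬p309 → ¬p78 → p74 → p300 → ¬p162 → p235 → ¬p203 → False)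
    (c2889 : ¬p203 → p300 → p235 → ¬p162 → ¬p136 → ¬p76 → False)
    (c2892 : p122 → p17 → ¬p420 → ¬p417 → ¬p73 → p72 → False)
    (c2902 : p241 → ¬p91 → p325 → p329 → False)
    (c2904 : p274 → ¬p422 → p127 → ¬p333 → p425 → ¬p430 → p429 → False)
    (c2906 : ¬p329 → ¬p121 → p333 → p246 → False)
    (c2911 : ¬p44 → p93 → ¬p414 → False)
    (c2913 : ¬p431 → ¬p414 → p90 → ¬p79 → ¬p398 → p432 → p294 → ¬p147 → ¬p361 → False)
    (c2915 : p438 → ¬p436 → ¬p147 → ¬p361 → False)
    (c2917 : ¬p431 → ¬p79 → p293 → ¬p402 → ¬p147 → p432 → ¬p361 → False)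
    (c2919 : p186 → p390 → ¬p134 → ¬p339 → p132 → False)
    (c2923 : p185 → p157 → ¬p398 → False)
    (c2929 : ¬p450 → ¬p104 → p189 → p449 → p278 → p131 → False)
    (c2937 : ¬p449 → p447 → ¬p135 → p442 → p294 → p445 → ¬p79 → ¬p452 → p11 → False)
    (c2939 : ¬p449 → p447 → ¬p135 → p384 → p385 → False)
    (c2941 : ¬p449 → p447 → ¬p79 → ¬p135 → ¬p405 → p384 → p442 → p293 → p444 → ¬p452 → False)
    (c2945 : ¬p449 → p447 → ¬p79 → ¬p135 → p442 → p444 → p293 → ¬p412 → ¬p452 → p131 → p11 → False)
    (c2947 : p447 → p444 → p371 → ¬p104 → p442 → ¬p452 → p11 → False)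
    (c2952 : ¬p384 → ¬p447 → ¬p154 → p449 → p132 → False)
    (c2957 : p444 → ¬p412 → ¬p79 → p442 → p449 → p293 → ¬p154 → ¬p452 → p131 → False)
    (c2959 : p444 → ¬p104 → p442 → p371 → p449 → ¬p154 → ¬p452 → p132 → False)
    (c2961 : ¬p154 → p445 → ¬p79 → p449 → p294 → p442 → ¬p452 → p132 → False)
    (c2971 : p442 → p445 → ¬p134 → ¬p79 → p294 → p450 → ¬p386 → ¬p404 → ¬p452 → p132 → False)
    (c2973 : ¬p343 → p339 → ¬p135 → p131 → False)
    (c2976 : ¬p422 → p232 → p141 → ¬p107 → ¬p70 → p69 → False)
    (c2989 : p444 → p371 → ¬p158 → p450 → ¬p104 → p442 → ¬p134 → ¬p452 → p132 → False)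
    (c2991 : ¬p157 → p442 → ¬p79 → ¬p134 → p153 → p444 → p293 → p450 → ¬p452 → p132 → False)
    (c2995 : ¬p404 → p450 → ¬p134 → ¬p386 → ¬p79 → p442 → p293 → p444 → ¬p452 → p132 → False)
    (c3011 : ¬p87 → p315 → p135 → ¬p398 → p347 → p328 → False)
    (c3015 : p422 → p73 → ¬p418 → ¬p72 → p67 → False)
    (c3018 : ¬p324 → p428 → ¬p126 → p425 → ¬p430 → False)
    (c3021 : ¬p323 → ¬p79 → ¬p339 → ¬p398 → p333 → p293 → p69 → False)
    (c3025 : ¬p165 → p143 → ¬p289 → False)
    (c3035 : p354 → ¬p152 → ¬p79 → False)
    (c3039 : ¬p99 → p351 → ¬p431 → p432 → ¬p361 → False)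
    (c3045 : ¬p414 → p75 → p37 → p135 → False)
    (c3056 : ¬p414 → ¬p260 → p106 → p222 → p203 → False)
    (c3058 : ¬p414 → p22 → p222 → p203 → ¬p191 → False)
    (c3060 : ¬p414 → p320 → ¬p217 → False)
    (c3063 : ¬p85 → ¬p414 → ¬p73 → ¬p265 → p75 → p72 → p22 → p131 → False)
    (c3077 : p269 → ¬p136 → ¬p265 → False)
    (c3082 : p231 → p295 → ¬p203 → p279 → ¬p241 → ¬p162 → p137 → False)
    (c3084 : p333 → ¬p338 → ¬p95 → ¬p118 → p123 → p246 → p132 → False)
    (c3086 : p282 → ¬p81 → ¬p118 → p246 → p265 → p132 → False)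
    (c3088 : p282 → p130 → p203 → ¬p78 → ¬p80 → False)
    (c3090 : ¬p338 → p90 → ¬p231 → False)
    (c3093 : p295 → ¬p274 → ¬p80 → p246 → p265 → False)
    (c3101 : p115 → ¬p225 → ¬p420 → p219 → ¬p235 → p17 → ¬p73 → False)
    (c3103 : p115 → p34 → ¬p420 → ¬p136 → ¬p117 → False)
    (c3105 : ¬p325 → ¬p124 → ¬p96 → p122 → ¬p420 → p17 → ¬p190 → False)
    (c3107 : ¬p331 → ¬p163 → p249 → ¬p81 → p300 → p115 → ¬p125 → p329 → p121 → ¬p73 → ¬p133 → False)
    (c3109 : ¬p139 → p121 → ¬p88 → p279 → ¬p117 → p137 → False)
    (c3115 : p115 → p17 → ¬p135 → ¬p231 → ¬p420 → p203 → ¬p73 → False)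
    (c3117 : p17 → p198 → ¬p190 → False)
    (c3119 : p118 → p17 → ¬p420 → ¬p289 → p203 → ¬p73 → ¬p231 → False)
    (c3131 : p78 → ¬p217 → p206 → False)
    (c3133 : ¬p246 → p250 → p81 → ¬p192 → False)
    (c3138 : p289 → ¬p235 → p75 → False)
    (c3141 : ¬p40 → ¬p217 → p14 → p210 → False)
    (c3155 : ¬p303 → p333 → ¬p142 → ¬p95 → p300 → ¬p136 → p289 → False)
    (c3160 : p333 → ¬p143 → ¬p119 → p139 → ¬p323 → p314 → p309 → p289 → False)
    (c3167 : ¬p414 → p235 → p37 → False)
    (c3170 : ¬p414 → p78 → p30 → False)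
    (c3173 : p315 → ¬p37 → ¬p193 → False)
    (c3175 : ¬p300 → p220 → ¬p42 → False)
    (c3177 : ¬p40 → ¬p235 → p14 → False)
    (c3179 : p52 → ¬p147 → p30 → False)
    (c3188 : p265 → ¬p81 → ¬p112 → p282 → p246 → False)
    (c3192 : ¬p309 → ¬p203 → p235 → p300 → ¬p162 → ¬p232 → False)
    (c3201 : ¬p294 → p315 → ¬p88 → p289 → ¬p35 → p309 → p220 → False)
    (c3215 : p128 → ¬p99 → p56 → p220 → ¬p70 → p69 → False)
    (c3217 : ¬p98 → ¬p361 → p91 → p8 → False)
    (c3221 : p357 → ¬p354 → p69 → False)
    (c3228 : p444 → p153 → p289 → p314 → p449 → p309 → ¬p157 → ¬p88 → ¬p452 → p443 → False)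
    (c3234 : p448 → p314 → ¬p88 → ¬p58 → ¬p158 → p309 → p444 → ¬p452 → p443 → False)
    (c3238 : ¬p177 → ¬p158 → p309 → p314 → p444 → p449 → ¬p88 → ¬p452 → p443 → False)
    (c3240 : p445 → ¬p177 → p309 → p315 → ¬p158 → p449 → ¬p88 → ¬p452 → p443 → False)
    (c3243 : ¬p177 → ¬p158 → p315 → p448 → p309 → p445 → ¬p31 → ¬p88 → ¬p452 → p220 → p443 → ¬p4 → False)
    (c3254 : ¬p449 → p448 → p315 → p309 → ¬p31 → ¬p88 → p220 → ¬p4 → False)
    (c3264 : ¬p157 → p445 → p289 → p315 → p449 → p309 → p153 → ¬p88 → ¬p452 → p443 → False)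
    (c3266 : p58 → ¬p154 → ¬p38 → p289 → p315 → ¬p88 → p220 → ¬p4 → False)
    (c3272 : ¬p155 → ¬p177 → ¬p88 → p309 → p315 → p445 → p286 → p447 → ¬p452 → p443 → False)
    (c3274 : p447 → p314 → ¬p88 → p309 → ¬p155 → p286 → p444 → ¬p452 → p443 → False)
    (c3276 : p57 → p444 → ¬p445 → p2 → False)
    (c3278 : ¬p384 → ¬p101 → p230 → False)
    (c3280 : p314 → ¬p286 → ¬p88 → p309 → p201 → False)
    (c3286 : ¬p157 → p445 → p135 → p309 → p315 → p449 → p153 → ¬p88 → ¬p452 → p443 → False)
    (c3288 : p57 → ¬p153 → p135 → ¬p38 → p315 → ¬p136 → ¬p88 → p220 → ¬p4 → False)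
    (c3292 : p444 → p293 → ¬p80 → p135 → p449 → ¬p155 → ¬p156 → ¬p452 → p443 → False)
    (c3294 : ¬p78 → ¬p289 → p235 → False)
    (c3296 : p444 → ¬p309 → ¬p81 → p449 → p174 → p293 → ¬p178 → ¬p452 → p443 → False)
    (c3298 : p444 → p448 → p153 → ¬p178 → ¬p445 → ¬p81 → p293 → p384 → ¬p289 → ¬p452 → p443 → False)
    (c3300 : ¬p449 → p448 → p315 → ¬p38 → ¬p88 → p220 → ¬p4 → False)
    (c3302 : ¬p178 → p315 → ¬p88 → p445 → p449 → p174 → ¬p452 → p443 → False)
    (c3304 : ¬p372 → ¬p175 → p445 → ¬p188 → p449 → p153 → ¬p81 → ¬p452 → p443 → False)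
    (c3307 : p447 → p293 → ¬p81 → p315 → ¬p178 → p445 → ¬p155 → ¬p38 → ¬p88 → ¬p452 → p220 → p443 → ¬p4 → False)
    (c3309 : p444 → p293 → ¬p81 → ¬p178 → p447 → p153 → ¬p309 → ¬p38 → ¬p289 → ¬p452 → p220 → p443 → ¬p4 → False)
    (c3314 : ¬p449 → p448 → ¬p289 → p30 → False)
    (c3319 : p445 → ¬p58 → ¬p81 → ¬p372 → ¬p160 → p448 → ¬p452 → p443 → False)
    (c3321 : ¬p337 → ¬p91 → p230 → False)
    (c3324 : ¬p328 → p121 → p50 → p220 → ¬p70 → p69 → False)
    (c3332 : p294 → ¬p309 → ¬p315 → ¬p81 → ¬p289 → p300 → False)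
    (c3334 : p295 → ¬p294 → p29 → False)
    (c3340 : ¬p62 → p390 → p300 → ¬p19 → ¬p193 → p12 → False)
    (c3344 : p372 → p294 → ¬p81 → p64 → ¬p386 → ¬p404 → p220 → False)
    (c3347 : p447 → p293 → ¬p81 → ¬p58 → p445 → ¬p158 → ¬p452 → p443 → False)
    (c3349 : p445 → ¬p405 → ¬p81 → p294 → p384 → p447 → ¬p385 → ¬p452 → p443 → False)
    (c3351 : ¬p105 → p447 → p445 → ¬p372 → p384 → ¬p452 → p443 → False)
    (c3353 : ¬p105 → ¬p154 → ¬p372 → p445 → p449 → ¬p452 → p443 → p132 → False)
    (c3355 : ¬p102 → ¬p405 → ¬p81 → p294 → p445 → p449 → ¬p76 → p231 → ¬p452 → p443 → p132 → False)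
    (c3357 : ¬p385 → p445 → p294 → ¬p405 → p449 → ¬p81 → ¬p452 → p443 → p132 → False)
    (c3362 : ¬p105 → ¬p154 → p444 → p449 → p371 → ¬p452 → p443 → p132 → False)
    (c3364 : ¬p156 → ¬p155 → ¬p81 → p293 → p444 → p449 → ¬p452 → p443 → p132 → False)
    (c3366 : p444 → p450 → ¬p81 → ¬p158 → p293 → p136 → ¬p452 → p443 → False)
    (c3369 : p444 → ¬p405 → ¬p81 → p449 → p293 → ¬p385 → ¬p452 → p443 → p132 → False)
    (c3372 : p447 → p293 → ¬p81 → p444 → p384 → ¬p405 → ¬p452 → p443 → False)
    (c3374 : ¬p384 → ¬p412 → ¬p81 → p293 → p201 → ¬p133 → False)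
    (c3396 : ¬p328 → ¬p418 → p96 → p427 → p239 → p425 → ¬p430 → p69 → False)
    (c3405 : p427 → ¬p430 → ¬p91 → p239 → p426 → p73 → False)
    (c3407 : ¬p324 → p428 → ¬p96 → ¬p430 → p426 → p73 → False)
    (c3425 : p428 → ¬p92 → p240 → ¬p91 → ¬p430 → p426 → p73 → False)
    (c3427 : p428 → ¬p93 → p240 → p425 → ¬p430 → p69 → False)
    (c3436 : ¬p329 → p220 → p50 → False)
    (c3439 : p121 → ¬p89 → ¬p70 → p69 → False)
    (c3451 : p444 → ¬p386 → p293 → p442 → ¬p404 → ¬p79 → p449 → ¬p452 → p132 → False)
    (c3456 : ¬p449 → p447 → ¬p289 → p157 → ¬p386 → p286 → False)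
    (c3471 : p427 → ¬p338 → ¬p76 → p239 → ¬p399 → ¬p231 → p425 → ¬p430 → p69 → False)
    (c3473 : p399 → ¬p408 → ¬p133 → False)
    (c3484 : p427 → ¬p74 → ¬p232 → ¬p399 → p239 → ¬p338 → p425 → ¬p430 → p69 → False)
    (c3487 : p427 → p293 → ¬p338 → ¬p399 → ¬p79 → p425 → ¬p430 → p69 → False)
    (c3490 : p294 → ¬p338 → ¬p399 → p182 → p324 → False)
    (c3497 : p447 → ¬p450 → p286 → ¬p133 → False)
    (c3499 : p448 → ¬p404 → p294 → p445 → ¬p79 → p442 → ¬p58 → ¬p452 → False)
    (c3510 : p293 → ¬p79 → p83 → ¬p289 → ¬p239 → p232 → False)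
    (c3513 : p365 → ¬p147 → p135 → False)
    (c3515 : ¬p410 → p148 → ¬p309 → False)
    (c3519 : ¬p173 → p362 → ¬p309 → False)
    (c3527 : p272 → p73 → ¬p239 → ¬p72 → p67 → False)
    (c3539 : p437 → p361 → p434 → p432 → ¬p401 → p294 → ¬p440 → ¬p79 → False)
    (c3546 : p439 → p435 → ¬p401 → p432 → ¬p362 → p294 → ¬p440 → ¬p79 → False)
    (c3555 : p436 → p435 → ¬p401 → p432 → p361 → p294 → ¬p440 → ¬p79 → False)
    (c3561 : p438 → p435 → p432 → ¬p150 → p294 → ¬p440 → ¬p79 → False)
    (c3563 : p434 → ¬p435 → ¬p398 → p328 → p324 → p147 → ¬p148 → p293 → ¬p79 → False)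
    (c3565 : p438 → ¬p150 → ¬p148 → p434 → p432 → ¬p440 → p293 → ¬p79 → False)
    (c3567 : p436 → ¬p150 → ¬p148 → p434 → p432 → ¬p440 → p286 → p293 → ¬p79 → False)
    (c3574 : p17 → ¬p41 → ¬p84 → False)
    (c3606 : ¬p385 → p444 → ¬p405 → p441 → p449 → p136 → p286 → ¬p452 → p131 → False)
    (c3612 : p232 → p93 → ¬p239 → ¬p398 → p293 → ¬p79 → False)
    (c3617 : p100 → ¬p156 → ¬p74 → False)
    (c3619 : ¬p79 → ¬p398 → p294 → p94 → p324 → False)
    (c3625 : ¬p294 → ¬p278 → p240 → ¬p232 → p81 → False)
    (c3628 : p289 → ¬p85 → p278 → ¬p232 → p240 → ¬p294 → ¬p136 → False)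
    (c3633 : ¬p94 → p170 → p87 → False)
    (c3638 : p51 → p436 → ¬p437 → p2 → False)
    (c3644 : p435 → p432 → ¬p86 → ¬p401 → p437 → p414 → p294 → p135 → ¬p440 → ¬p79 → False)
    (c3646 : p354 → p431 → ¬p432 → p10 → False)
    (c3648 : p435 → p437 → ¬p401 → p432 → ¬p217 → p294 → p14 → ¬p440 → ¬p79 → False)
    (c3651 : p436 → p435 → ¬p147 → p432 → p294 → ¬p440 → ¬p79 → p9 → False)
    (c3657 : p97 → ¬p147 → ¬p92 → ¬p361 → p432 → ¬p431 → p143 → ¬p339 → p293 → ¬p79 → False)
    (c3660 : p171 → p434 → ¬p435 → ¬p84 → p90 → ¬p240 → p239 → ¬p398 → p135 → False)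
    (c3667 : ¬p323 → p293 → ¬p142 → p328 → ¬p141 → ¬p79 → False)
    (c3673 : ¬p286 → p324 → p239 → ¬p44 → p50 → ¬p232 → ¬p339 → p220 → False)
    (c3681 : ¬p323 → ¬p142 → p328 → ¬p418 → ¬p75 → p239 → p76 → False)
    (c3684 : ¬p286 → p91 → p337 → ¬p232 → False)
    (c3691 : ¬p339 → ¬p398 → p324 → p240 → ¬p231 → p220 → p50 → ¬p76 → False)
    (c3700 : ¬p319 → p130 → p250 → ¬p73 → p5 → False)
    (c3752 : ¬p77 → ¬p217 → p75 → p250 → ¬p73 → False)
    (c0 : ¬p2 → False)
    (c1 : ¬p3 → False)
    (c2 : p4 → False)
    (c3 : ¬p5 → False)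
    (c4 : ¬p6 → False)
    (c5 : ¬p7 → False)
    (c7 : ¬p8 → False)
    (c9 : ¬p9 → False)
    (c10 : ¬p10 → False)
    (c11 : ¬p11 → False)
    (c12 : ¬p12 → False)
    (c13 : ¬p13 → p14 → False)
    (c14 : ¬p13 → ¬p15 → False)
    (c15 : p1 → ¬p16 → ¬p17 → False)
    (c16 : ¬p13 → ¬p19 → False)
    (c17 : ¬p16 → p20 → False)
    (c18 : ¬p21 → p22 → False)
    (c19 : ¬p21 → ¬p23 → False)
    (c20 : p1 → ¬p24 → ¬p25 → False)
    (c21 : ¬p24 → p27 → False)
    (c22 : ¬p24 → ¬p28 → False)
    (c23 : ¬p29 → p30 → False)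
    (c24 : ¬p32 → p33 → False)
    (c25 : p1 → ¬p32 → ¬p34 → False)
    (c27 : ¬p36 → p37 → False)
    (c28 : ¬p39 → p40 → False)
    (c29 : p1 → ¬p39 → ¬p41 → False)
    (c32 : p43 → p45 → False)
    (c33 : p1 → p46 → p48 → False)
    (c34 : p43 → ¬p49 → False)
    (c36 : p53 → ¬p54 → False)
    (c37 : p1 → p53 → p55 → False)
    (c39 : p57 → ¬p58 → False)
    (c40 : p57 → p59 → False)
    (c41 : p60 → ¬p61 → False)
    (c42 : p1 → p60 → p62 → False)
    (c43 : p57 → ¬p63 → False)
    (c46 : p16 → p17 → False)
    (c47 : p1 → p13 → ¬p14 → False)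
    (c48 : p16 → ¬p20 → False)
    (c49 : p13 → ¬p18 → False)
    (c50 : p13 → p19 → False)
    (c51 : p66 → ¬p67 → False)
    (c52 : p66 → p68 → False)
    (c53 : p66 → ¬p69 → False)
    (c54 : p66 → p70 → False)
    (c55 : p71 → ¬p72 → False)
    (c56 : p71 → p73 → False)
    (c57 : p74 → ¬p75 → False)
    (c58 : p74 → p76 → False)
    (c59 : p77 → ¬p78 → False)
    (c60 : p74 → ¬p79 → False)
    (c61 : p74 → p80 → False)
    (c62 : p77 → p81 → False)
    (c63 : p82 → ¬p83 → False)
    (c64 : p82 → p84 → False)
    (c65 : p85 → ¬p86 → False)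
    (c66 : p82 → ¬p87 → False)
    (c67 : p85 → p88 → False)
    (c68 : p89 → ¬p90 → False)
    (c69 : p89 → p91 → False)
    (c70 : p92 → ¬p93 → False)
    (c71 : p89 → ¬p94 → False)
    (c72 : p89 → p95 → False)
    (c73 : p92 → p96 → False)
    (c74 : p97 → p98 → False)
    (c76 : p100 → p101 → False)
    (c78 : p100 → ¬p104 → False)
    (c79 : p102 → p105 → False)
    (c80 : p24 → ¬p106 → False)
    (c81 : p24 → p25 → False)
    (c82 : p1 → p21 → ¬p22 → False)
    (c83 : p24 → ¬p27 → False)
    (c84 : p21 → p26 → False)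
    (c85 : ¬p71 → p107 → False)
    (c87 : ¬p71 → p72 → False)
    (c88 : ¬p71 → ¬p73 → False)
    (c89 : p108 → ¬p109 → False)
    (c90 : p108 → p110 → False)
    (c91 : p111 → ¬p112 → False)
    (c94 : p114 → ¬p115 → False)
    (c95 : p114 → p116 → False)
    (c96 : p117 → ¬p118 → False)
    (c97 : p114 → ¬p119 → False)
    (c99 : p117 → p120 → False)
    (c100 : p121 → ¬p122 → False)
    (c101 : p121 → p123 → False)
    (c102 : p124 → ¬p125 → False)
    (c103 : p121 → ¬p126 → False)
    (c104 : p124 → p127 → False)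
    (c107 : p1 → p29 → ¬p30 → False)
    (c108 : p29 → p31 → False)
    (c109 : p32 → p35 → False)
    (c110 : ¬p77 → p78 → False)
    (c111 : ¬p77 → ¬p130 → False)
    (c112 : ¬p74 → ¬p76 → False)
    (c114 : ¬p77 → ¬p81 → False)
    (c115 : ¬p74 → p79 → False)
    (c116 : ¬p111 → p112 → False)
    (c118 : ¬p108 → ¬p110 → False)
    (c120 : ¬p111 → ¬p113 → False)
    (c122 : p131 → ¬p132 → False)
    (c123 : p131 → p133 → False)
    (c124 : p134 → ¬p135 → False)
    (c125 : p134 → p136 → False)
    (c126 : p131 → ¬p137 → False)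
    (c127 : p131 → p138 → False)
    (c128 : p139 → ¬p140 → False)
    (c129 : p142 → ¬p143 → False)
    (c130 : p142 → p144 → False)
    (c131 : p139 → ¬p145 → False)
    (c132 : p146 → ¬p147 → False)
    (c133 : p146 → p148 → False)
    (c135 : p149 → p151 → False)
    (c136 : p146 → ¬p152 → False)
    (c137 : p153 → ¬p154 → False)
    (c138 : p153 → p155 → False)
    (c139 : p156 → ¬p157 → False)
    (c140 : p156 → p158 → False)
    (c141 : p153 → ¬p159 → False)
    (c142 : p153 → p160 → False)
    (c143 : p39 → p41 → False)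
    (c144 : p1 → p36 → ¬p37 → False)
    (c145 : p36 → p38 → False)
    (c147 : p39 → p42 → False)
    (c149 : ¬p85 → p86 → False)
    (c151 : ¬p82 → ¬p84 → False)
    (c152 : ¬p85 → p161 → False)
    (c153 : ¬p85 → ¬p88 → False)
    (c154 : ¬p82 → p87 → False)
    (c155 : ¬p117 → p118 → False)
    (c157 : ¬p114 → ¬p116 → False)
    (c158 : ¬p117 → p162 → False)
    (c160 : ¬p114 → p119 → False)
    (c161 : ¬p134 → p135 → False)
    (c162 : ¬p134 → ¬p136 → False)
    (c163 : ¬p134 → p163 → False)
    (c165 : p164 → ¬p165 → False)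
    (c167 : p167 → ¬p168 → False)
    (c168 : p164 → ¬p170 → False)
    (c169 : p171 → p173 → False)
    (c172 : p174 → ¬p175 → False)
    (c174 : p177 → ¬p178 → False)
    (c175 : p177 → p179 → False)
    (c178 : ¬p46 → p47 → False)
    (c179 : ¬p46 → ¬p48 → False)
    (c180 : p1 → ¬p43 → p44 → False)
    (c181 : ¬p46 → ¬p50 → False)
    (c182 : ¬p92 → p93 → False)
    (c183 : ¬p92 → ¬p180 → False)
    (c184 : ¬p89 → ¬p91 → False)
    (c186 : ¬p92 → ¬p96 → False)
    (c187 : ¬p89 → p94 → False)
    (c188 : ¬p124 → p125 → False)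
    (c190 : ¬p121 → ¬p123 → False)
    (c191 : ¬p124 → p181 → False)
    (c192 : ¬p124 → ¬p127 → False)
    (c193 : ¬p121 → p126 → False)
    (c194 : ¬p142 → p143 → False)
    (c195 : ¬p142 → ¬p144 → False)
    (c196 : ¬p139 → p140 → False)
    (c197 : ¬p139 → ¬p141 → False)
    (c199 : ¬p142 → ¬p182 → False)
    (c200 : ¬p167 → ¬p169 → False)
    (c201 : ¬p164 → p165 → False)
    (c202 : ¬p164 → ¬p166 → False)
    (c203 : ¬p167 → ¬p183 → False)
    (c205 : ¬p184 → ¬p186 → False)
    (c208 : ¬p53 → p54 → False)
    (c209 : p1 → ¬p51 → p52 → False)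
    (c210 : ¬p53 → ¬p56 → False)
    (c213 : ¬p97 → p99 → False)
    (c214 : ¬p128 → ¬p129 → False)
    (c215 : ¬p149 → p150 → False)
    (c217 : ¬p146 → p147 → False)
    (c218 : ¬p146 → ¬p148 → False)
    (c221 : ¬p171 → p172 → False)
    (c224 : ¬p60 → p61 → False)
    (c225 : p1 → ¬p57 → p58 → False)
    (c226 : ¬p57 → ¬p59 → False)
    (c228 : ¬p60 → ¬p64 → False)
    (c229 : ¬p102 → p103 → False)
    (c230 : ¬p102 → p187 → False)
    (c232 : ¬p100 → p104 → False)
    (c236 : ¬p156 → p157 → False)
    (c237 : ¬p156 → ¬p158 → False)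
    (c238 : ¬p153 → p154 → False)
    (c239 : ¬p153 → ¬p155 → False)
    (c240 : ¬p156 → p188 → False)
    (c241 : ¬p156 → ¬p189 → False)
    (c242 : ¬p177 → p178 → False)
    (c244 : ¬p174 → p175 → False)
    (c245 : ¬p174 → ¬p176 → False)
    (c249 : p184 → ¬p185 → False)
    (c250 : ¬p13 → p16 → False)
    (c251 : ¬p21 → p24 → False)
    (c252 : ¬p29 → p32 → False)
    (c253 : ¬p36 → p39 → False)
    (c254 : p190 → False)
    (c255 : p191 → False)
    (c256 : p192 → False)
    (c257 : p193 → False)
    (c258 : p194 → p46 → False)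
    (c259 : p194 → ¬p43 → False)
    (c260 : p195 → ¬p51 → False)
    (c261 : p196 → p60 → False)
    (c262 : p196 → ¬p57 → False)
    (c263 : ¬p66 → False)
    (c264 : ¬p131 → False)
    (c265 : p202 → False)
    (c266 : p205 → ¬p201 → False)
    (c267 : p205 → ¬p203 → ¬p204 → False)
    (c268 : ¬p205 → p201 → p203 → False)
    (c269 : p208 → ¬p201 → False)
    (c270 : ¬p208 → p201 → ¬p197 → ¬p206 → False)
    (c271 : ¬p208 → p201 → ¬p197 → ¬p207 → False)
    (c272 : ¬p208 → p201 → ¬p198 → ¬p206 → False)
    (c273 : ¬p208 → p201 → ¬p198 → ¬p207 → False)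
    (c274 : p209 → ¬p0 → False)
    (c275 : p209 → ¬p208 → False)
    (c276 : p211 → ¬p201 → False)
    (c277 : p211 → p197 → p198 → False)
    (c278 : ¬p211 → p201 → ¬p197 → ¬p210 → False)
    (c279 : ¬p211 → p201 → ¬p198 → ¬p210 → False)
    (c281 : p212 → ¬p0 → False)
    (c282 : p212 → ¬p211 → False)
    (c283 : p215 → ¬p201 → False)
    (c284 : p215 → p213 → p214 → False)
    (c285 : p216 → ¬p1 → False)
    (c286 : p216 → ¬p215 → False)
    (c287 : ¬p202 → ¬p205 → ¬p209 → ¬p212 → ¬p216 → False)
    (c288 : p221 → ¬p218 → False)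
    (c289 : p221 → p219 → p220 → False)
    (c290 : ¬p221 → p218 → ¬p219 → False)
    (c291 : ¬p221 → p218 → ¬p220 → False)
    (c292 : p224 → ¬p202 → p217 → False)
    (c293 : p224 → ¬p202 → ¬p221 → False)
    (c294 : p224 → ¬p202 → p222 → ¬p223 → False)
    (c295 : p227 → ¬p218 → False)
    (c296 : p227 → p225 → p226 → False)
    (c297 : ¬p227 → p218 → ¬p225 → False)
    (c298 : ¬p227 → p218 → ¬p226 → False)
    (c299 : p229 → ¬p205 → p217 → False)
    (c300 : p229 → ¬p205 → ¬p227 → False)
    (c301 : p229 → ¬p205 → p66 → ¬p71 → p222 → ¬p228 → False)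
    (c302 : p233 → ¬p230 → False)
    (c303 : p233 → ¬p14 → ¬p17 → False)
    (c304 : p233 → ¬p231 → ¬p232 → False)
    (c305 : ¬p233 → p230 → p14 → p232 → False)
    (c306 : p234 → ¬p0 → False)
    (c307 : p234 → ¬p233 → False)
    (c308 : p237 → ¬p230 → False)
    (c309 : p237 → ¬p14 → ¬p17 → False)
    (c310 : p237 → ¬p235 → ¬p236 → False)
    (c311 : ¬p237 → p230 → p14 → p235 → False)
    (c312 : ¬p237 → p230 → p14 → p236 → False)
    (c313 : ¬p237 → p230 → p17 → p235 → False)
    (c314 : ¬p237 → p230 → p17 → p236 → False)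
    (c315 : p238 → ¬p0 → False)
    (c316 : p238 → ¬p237 → False)
    (c317 : p242 → ¬p239 → False)
    (c318 : p242 → ¬p240 → ¬p241 → False)
    (c319 : p243 → ¬p1 → False)
    (c320 : p243 → ¬p242 → False)
    (c321 : ¬p221 → ¬p224 → ¬p229 → ¬p234 → ¬p238 → ¬p243 → False)
    (c322 : p247 → ¬p244 → False)
    (c323 : p247 → p245 → p246 → False)
    (c324 : ¬p247 → p244 → ¬p246 → False)
    (c325 : p248 → False)
    (c326 : p251 → ¬p244 → False)
    (c328 : ¬p251 → p244 → ¬p199 → ¬p249 → False)
    (c329 : ¬p251 → p244 → ¬p199 → ¬p250 → False)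
    (c330 : ¬p251 → p244 → ¬p200 → ¬p249 → False)
    (c331 : ¬p251 → p244 → ¬p200 → ¬p250 → False)
    (c332 : p252 → ¬p0 → False)
    (c333 : p252 → ¬p251 → False)
    (c334 : p254 → ¬p244 → False)
    (c335 : p254 → p199 → p200 → False)
    (c337 : ¬p254 → p244 → ¬p200 → ¬p253 → False)
    (c338 : p255 → ¬p0 → False)
    (c339 : p255 → ¬p254 → False)
    (c340 : p258 → ¬p244 → False)
    (c341 : p258 → p256 → p257 → False)
    (c342 : p259 → ¬p1 → False)
    (c343 : p259 → ¬p258 → False)
    (c344 : ¬p247 → ¬p248 → ¬p252 → ¬p255 → ¬p259 → False)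
    (c345 : p261 → ¬p247 → p260 → False)
    (c346 : p261 → ¬p247 → ¬p221 → False)
    (c347 : p262 → ¬p248 → ¬p227 → False)
    (c349 : p266 → ¬p22 → ¬p25 → False)
    (c350 : p266 → ¬p264 → ¬p265 → False)
    (c351 : ¬p266 → p263 → p22 → p264 → False)
    (c352 : ¬p266 → p263 → p22 → p265 → False)
    (c353 : ¬p266 → p263 → p25 → p264 → False)
    (c354 : ¬p266 → p263 → p25 → p265 → False)
    (c355 : p267 → ¬p0 → False)
    (c356 : p267 → ¬p266 → False)
    (c357 : p270 → ¬p263 → False)
    (c358 : p270 → ¬p22 → ¬p25 → False)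
    (c359 : p270 → ¬p268 → ¬p269 → False)
    (c360 : ¬p270 → p263 → p22 → p268 → False)
    (c361 : ¬p270 → p263 → p25 → p268 → False)
    (c362 : p271 → ¬p0 → False)
    (c363 : p271 → ¬p270 → False)
    (c364 : p275 → ¬p272 → False)
    (c365 : p275 → ¬p273 → ¬p274 → False)
    (c366 : p276 → ¬p1 → False)
    (c367 : p276 → ¬p275 → False)
    (c368 : ¬p227 → ¬p261 → ¬p262 → ¬p267 → ¬p271 → ¬p276 → False)
    (c369 : p280 → ¬p277 → False)
    (c370 : p280 → p278 → p279 → False)
    (c372 : p281 → ¬p280 → ¬p221 → False)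
    (c373 : p284 → ¬p277 → False)
    (c374 : p284 → p282 → p283 → False)
    (c375 : ¬p284 → p277 → ¬p282 → False)
    (c376 : ¬p284 → p277 → ¬p283 → False)
    (c378 : p285 → ¬p284 → ¬p227 → False)
    (c379 : p287 → False)
    (c380 : p288 → ¬p287 → False)
    (c381 : p291 → ¬p286 → False)
    (c382 : p291 → ¬p30 → ¬p34 → False)
    (c383 : p291 → ¬p289 → ¬p290 → False)
    (c384 : ¬p291 → p286 → p30 → p289 → False)
    (c385 : ¬p291 → p286 → p34 → p289 → False)
    (c387 : p292 → ¬p291 → False)
    (c388 : p296 → ¬p293 → False)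
    (c389 : p296 → ¬p294 → ¬p295 → False)
    (c391 : p297 → ¬p1 → False)
    (c392 : p297 → ¬p296 → False)
    (c393 : p0 → ¬p281 → ¬p285 → ¬p288 → ¬p292 → ¬p297 → False)
    (c394 : p301 → p299 → p300 → False)
    (c395 : ¬p301 → p298 → ¬p299 → False)
    (c396 : ¬p301 → p298 → ¬p300 → False)
    (c397 : p302 → ¬p301 → ¬p221 → False)
    (c398 : p305 → p303 → p304 → False)
    (c399 : p306 → ¬p305 → ¬p227 → False)
    (c402 : p310 → p308 → p309 → False)
    (c403 : ¬p310 → p307 → p37 → ¬p309 → False)
    (c404 : ¬p310 → p307 → p41 → ¬p309 → False)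
    (c405 : p311 → ¬p310 → False)
    (c406 : p312 → False)
    (c407 : p313 → ¬p312 → False)
    (c408 : p317 → ¬p314 → False)
    (c409 : p317 → ¬p315 → ¬p316 → False)
    (c411 : p318 → ¬p1 → False)
    (c412 : p318 → ¬p317 → False)
    (c413 : p0 → ¬p302 → ¬p306 → ¬p311 → ¬p313 → ¬p318 → False)
    (c414 : p322 → ¬p319 → False)
    (c415 : p322 → ¬p320 → ¬p321 → False)
    (c416 : p1 → ¬p190 → ¬p322 → ¬p224 → ¬p229 → ¬p234 → ¬p238 → ¬p243 → False)
    (c417 : p326 → ¬p323 → False)
    (c418 : p326 → p324 → p325 → False)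
    (c419 : ¬p326 → p323 → ¬p324 → False)
    (c420 : ¬p326 → p323 → ¬p325 → False)
    (c421 : p330 → ¬p327 → False)
    (c422 : p330 → p328 → p329 → False)
    (c423 : ¬p330 → p327 → ¬p328 → False)
    (c424 : ¬p330 → p327 → ¬p329 → False)
    (c425 : p332 → ¬p330 → ¬p221 → False)
    (c426 : p332 → ¬p330 → ¬p92 → p89 → p331 → ¬p223 → False)
    (c427 : p335 → ¬p327 → False)
    (c428 : p335 → p333 → p334 → False)
    (c429 : ¬p335 → p327 → ¬p333 → False)
    (c431 : p336 → ¬p335 → ¬p227 → False)
    (c432 : p336 → ¬p335 → ¬p124 → p121 → p331 → ¬p228 → False)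
    (c433 : p340 → ¬p337 → False)
    (c434 : p340 → p44 → p48 → False)
    (c435 : p340 → p338 → p339 → False)
    (c436 : ¬p340 → p337 → ¬p44 → ¬p339 → False)
    (c437 : ¬p340 → p337 → ¬p48 → ¬p338 → False)
    (c438 : ¬p340 → p337 → ¬p48 → ¬p339 → False)
    (c439 : p341 → ¬p0 → False)
    (c440 : p341 → ¬p340 → False)
    (c441 : p344 → ¬p337 → False)
    (c443 : p344 → p342 → p343 → False)
    (c444 : ¬p344 → p337 → ¬p44 → ¬p342 → False)
    (c446 : ¬p344 → p337 → ¬p48 → ¬p342 → False)
    (c447 : ¬p344 → p337 → ¬p48 → ¬p343 → False)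
    (c448 : p345 → ¬p0 → False)
    (c449 : p345 → ¬p344 → False)
    (c450 : p349 → ¬p346 → False)
    (c451 : p349 → p347 → p348 → False)
    (c452 : p350 → ¬p349 → False)
    (c453 : p1 → ¬p194 → ¬p326 → ¬p332 → ¬p336 → ¬p341 → ¬p345 → ¬p350 → False)
    (c454 : p352 → ¬p351 → False)
    (c456 : ¬p355 → p353 → ¬p354 → False)
    (c457 : p356 → ¬p355 → ¬p221 → False)
    (c458 : p359 → ¬p353 → False)
    (c459 : p359 → p357 → p358 → False)
    (c460 : p360 → ¬p359 → ¬p227 → False)
    (c461 : p363 → ¬p361 → False)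
    (c464 : ¬p363 → p361 → ¬p52 → ¬p362 → False)
    (c465 : ¬p363 → p361 → ¬p55 → ¬p362 → False)
    (c466 : p364 → ¬p363 → False)
    (c467 : p366 → ¬p361 → False)
    (c468 : ¬p366 → p361 → ¬p52 → ¬p365 → False)
    (c469 : p367 → ¬p366 → False)
    (c470 : p369 → ¬p368 → False)
    (c471 : p370 → ¬p369 → False)
    (c472 : p1 → ¬p195 → ¬p352 → ¬p356 → ¬p360 → ¬p364 → ¬p367 → ¬p370 → False)
    (c473 : p374 → ¬p371 → False)
    (c474 : p374 → p372 → p373 → False)
    (c477 : p378 → p376 → p377 → False)
    (c478 : ¬p378 → p375 → ¬p376 → False)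
    (c480 : p379 → ¬p378 → ¬p221 → False)
    (c481 : p382 → ¬p375 → False)
    (c482 : p382 → p380 → p381 → False)
    (c483 : p383 → ¬p382 → ¬p227 → False)
    (c484 : p387 → ¬p384 → False)
    (c486 : p387 → p385 → p386 → False)
    (c487 : ¬p387 → p384 → ¬p58 → ¬p385 → False)
    (c488 : ¬p387 → p384 → ¬p58 → ¬p386 → False)
    (c490 : ¬p387 → p384 → ¬p62 → ¬p386 → False)
    (c491 : p388 → ¬p387 → False)
    (c492 : p391 → ¬p384 → False)
    (c494 : p391 → p389 → p390 → False)
    (c495 : ¬p391 → p384 → ¬p58 → ¬p389 → False)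
    (c497 : ¬p391 → p384 → ¬p62 → ¬p389 → False)
    (c498 : p392 → ¬p391 → False)
    (c499 : p396 → ¬p393 → False)
    (c500 : p396 → p394 → p395 → False)
    (c501 : p397 → ¬p396 → False)
    (c502 : p1 → ¬p196 → ¬p374 → ¬p379 → ¬p383 → ¬p388 → ¬p392 → ¬p397 → False)
    (c503 : p247 → p205 → False)
    (c504 : p310 → p291 → False)
    (c505 : ¬p400 → p286 → p30 → p398 → False)
    (c506 : ¬p400 → p286 → p30 → p399 → False)
    (c507 : ¬p400 → p286 → p34 → p398 → False)
    (c508 : ¬p400 → p286 → p34 → p399 → False)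
    (c509 : p340 → p400 → False)
    (c510 : ¬p403 → p286 → p30 → p401 → False)
    (c511 : ¬p403 → p286 → p30 → p402 → False)
    (c512 : p363 → p403 → False)
    (c513 : ¬p406 → p286 → p30 → p404 → False)
    (c514 : ¬p406 → p286 → p30 → p405 → False)
    (c515 : ¬p406 → p286 → p34 → p404 → False)
    (c517 : p387 → p406 → False)
    (c518 : ¬p409 → p307 → p37 → p407 → False)
    (c519 : ¬p409 → p307 → p37 → p408 → False)
    (c520 : ¬p409 → p307 → p41 → p407 → False)
    (c521 : ¬p409 → p307 → p41 → p408 → False)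
    (c522 : p344 → p409 → False)
    (c524 : ¬p411 → p307 → p37 → p410 → False)
    (c525 : p366 → p411 → False)
    (c528 : ¬p413 → p307 → p37 → p412 → False)
    (c530 : ¬p413 → p307 → p41 → p412 → False)
    (c531 : p391 → p413 → False)
    (c532 : ¬p416 → p230 → p414 → False)
    (c533 : ¬p416 → p230 → p415 → False)
    (c534 : p1 → p221 → p416 → False)
    (c535 : p301 → p237 → False)
    (c536 : ¬p419 → p230 → p14 → p417 → False)
    (c537 : ¬p419 → p230 → p14 → p418 → False)
    (c538 : ¬p419 → p230 → p17 → p417 → False)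
    (c539 : ¬p419 → p230 → p17 → p418 → False)
    (c540 : p330 → p419 → False)
    (c541 : p355 → p403 → p233 → False)
    (c542 : p378 → p413 → p237 → False)
    (c543 : p208 → p221 → False)
    (c544 : p205 → p251 → p221 → False)
    (c545 : p211 → p221 → False)
    (c546 : p1 → p215 → p223 → False)
    (c548 : ¬p421 → p263 → p420 → False)
    (c549 : p1 → p227 → p421 → False)
    (c550 : p284 → p266 → False)
    (c552 : ¬p423 → p263 → p22 → p422 → False)
    (c554 : ¬p423 → p263 → p25 → p422 → False)
    (c555 : p335 → p423 → False)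
    (c556 : p284 → p310 → p270 → False)
    (c557 : p205 → p301 → p270 → False)
    (c558 : p251 → p227 → False)
    (c559 : p247 → p208 → p227 → False)
    (c560 : p254 → p227 → False)
    (c561 : p1 → p258 → p228 → False)
    (c562 : ¬p424 → ¬p425 → False)
    (c563 : ¬p424 → ¬p426 → False)
    (c564 : ¬p427 → ¬p428 → False)
    (c565 : ¬p427 → ¬p429 → False)
    (c566 : p1 → p430 → False)
    (c567 : ¬p431 → ¬p432 → False)
    (c568 : ¬p431 → ¬p433 → False)
    (c569 : ¬p434 → ¬p435 → False)
    (c570 : ¬p436 → ¬p437 → ¬p438 → False)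
    (c571 : ¬p436 → ¬p437 → ¬p439 → False)
    (c572 : p1 → p440 → False)
    (c573 : ¬p441 → ¬p442 → False)
    (c574 : ¬p441 → ¬p443 → False)
    (c575 : ¬p444 → ¬p445 → False)
    (c576 : ¬p444 → ¬p446 → False)
    (c577 : ¬p447 → ¬p448 → ¬p449 → False)
    (c578 : ¬p447 → ¬p448 → ¬p450 → False)
    (c579 : ¬p447 → ¬p451 → ¬p449 → False)
    (c580 : ¬p447 → ¬p451 → ¬p450 → False)
    (c581 : p1 → p452 → False) : False :=
  have c785 : ¬p0 → ¬p216 → ¬p259 → False := fun n0 n1 n2 =>
    have u0 : ¬p248 := fun h => c325 h; have u1 : ¬p202 := fun h => c265 h; have u2 : ¬p209 := fun h => c274 h n0; have u3 : ¬p212 := fun h => c281 h n0; have u4 : ¬p252 := fun h => c332 h n0; have u5 : ¬p255 := fun h => c338 h n0; have u6 : p205 := Classical.byContradiction fun h => c287 u1 h u2 u3 n1; have u7 : p247 := Classical.byContradiction fun h => c344 h u0 u4 u5 n2; c503 u7 u6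
  have c799 : p68 → False := fun n0 =>
    have u0 : p66 := Classical.byContradiction fun h => c263 h; c52 u0 n0
  have c803 : p310 → p284 → ¬p276 → ¬p227 → ¬p261 → False := fun n0 n1 n2 n3 n4 =>
    have u0 : ¬p248 := fun h => c325 h; have u1 : ¬p262 := fun h => c347 h u0 n3; have u2 : ¬p266 := fun h => c550 n1 h; have u3 : ¬p270 := fun h => c556 n1 n0 h; have u4 : ¬p267 := fun h => c356 h u2; have u5 : ¬p271 := fun h => c363 h u3; c368 n3 n4 u1 u4 u5 n2
  have c804 : p288 → False := fun n0 =>
    have u0 : ¬p287 := fun h => c379 h; c380 n0 u0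
  have c805 : p313 → False := fun n0 =>
    have u0 : ¬p312 := fun h => c406 h; c407 n0 u0
  have c823 : ¬p67 → False := fun n0 =>
    have u0 : p66 := Classical.byContradiction fun h => c263 h; c51 u0 n0
  have c830 : ¬p446 → False := fun n0 =>
    have u0 : p12 := Classical.byContradiction fun h => c12 h; have u1 : p3 := Classical.byContradiction fun h => c1 h; have u2 : p444 := Classical.byContradiction fun h => c576 h n0; c829 n0 u2 u0 u1
  have c867 : ¬p244 → ¬p259 → ¬p247 → False := fun n0 n1 n2 =>
    have u0 : ¬p248 := fun h => c325 h; have u1 : ¬p251 := fun h => c326 h n0; have u2 : ¬p254 := fun h => c334 h n0; have u3 : ¬p252 := fun h => c333 h u1; have u4 : ¬p255 := fun h => c339 h u2; c344 n2 u0 u3 u4 n1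
  have c885 : ¬p305 → ¬p218 → ¬p301 → p0 → ¬p318 → ¬p311 → False := fun n0 n1 n2 n3 n4 n5 =>
    have u0 : ¬p313 := fun h => c805 h; have u1 : ¬p221 := fun h => c288 h n1; have u2 : ¬p227 := fun h => c295 h n1; have u3 : ¬p302 := fun h => c397 h n2 u1; have u4 : ¬p306 := fun h => c399 h n0 u2; c413 n3 u3 u4 n5 u0 n4
  have c886 : ¬p205 → p221 → ¬p216 → False := fun n0 n1 n2 =>
    have u0 : ¬p202 := fun h => c265 h; have u1 : ¬p208 := fun h => c543 h n1; have u2 : ¬p211 := fun h => c545 h n1; have u3 : ¬p209 := fun h => c275 h u1; have u4 : ¬p212 := fun h => c282 h u2; c287 u0 n0 u3 u4 n2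
  have c887 : ¬p305 → ¬p205 → ¬p1 → ¬p247 → ¬p301 → ¬p311 → False := fun n0 n1 n2 n3 n4 n5 =>
    have u0 : ¬p248 := fun h => c325 h; have u1 : ¬p313 := fun h => c805 h; have u2 : ¬p216 := fun h => c285 h n2; have u3 : ¬p259 := fun h => c342 h n2; have u4 : ¬p318 := fun h => c411 h n2; have u5 : p0 := Classical.byContradiction fun h => c785 h u2 u3; have u6 : ¬p221 := fun h => c886 n1 h u2; have u7 : ¬p302 := fun h => c397 h n4 u6; have u8 : p306 := Classical.byContradiction fun h => c413 u5 u7 h n5 u1 u4; have u9 : p227 := Classical.byContradiction fun h => c399 u8 n0 h; have u10 : ¬p251 := fun h => c558 h u9; have u11 : ¬p254 := fun h => c560 h u9; have u12 : ¬p252 := fun h => c333 h u10; have u13 : ¬p255 := fun h => c339 h u11; c344 n3 u0 u12 u13 u3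
  have c889 : ¬p137 → False := fun n0 =>
    have u0 : p131 := Classical.byContradiction fun h => c264 h; c126 u0 n0
  have c902 : p138 → False := fun n0 =>
    have u0 : p131 := Classical.byContradiction fun h => c264 h; c127 u0 n0
  have c907 : ¬p69 → False := fun n0 =>
    have u0 : p66 := Classical.byContradiction fun h => c263 h; c53 u0 n0
  have c932 : ¬p206 → p215 → ¬p208 → False := fun n0 n1 n2 =>
    have u0 : p201 := Classical.byContradiction fun h => c283 n1 h; have u1 : p197 := Classical.byContradiction fun h => c270 n2 u0 h n0; have u2 : p198 := Classical.byContradiction fun h => c272 n2 u0 h n0; have u3 : p213 := Classical.byContradiction fun h => c763 u1 h; have u4 : p214 := Classical.byContradiction fun h => c764 h u2; c284 n1 u3 u4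
  have c937 : p70 → False := fun n0 =>
    have u0 : p66 := Classical.byContradiction fun h => c263 h; c54 u0 n0
  have c938 : p204 → False := fun n0 =>
    have u0 : ¬p70 := fun h => c937 h; c634 n0 u0
  have c978 : ¬p249 → p258 → ¬p251 → False := fun n0 n1 n2 =>
    have u0 : p244 := Classical.byContradiction fun h => c340 n1 h; have u1 : p200 := Classical.byContradiction fun h => c330 n2 u0 h n0; have u2 : p199 := Classical.byContradiction fun h => c328 n2 u0 h n0; have u3 : p257 := Classical.byContradiction fun h => c766 h u1; have u4 : p256 := Classical.byContradiction fun h => c765 h u2; c341 n1 u4 u3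
  have c997 : ¬p388 → p372 → ¬p196 → ¬p379 → ¬p392 → ¬p383 → p373 → p1 → False := fun n0 n1 n2 n3 n4 n5 n6 n7 =>
    have u0 : p394 := Classical.byContradiction fun h => c775 h n1; have u1 : p395 := Classical.byContradiction fun h => c776 h n6; have u2 : ¬p374 := fun h => c474 h n1 n6; have u3 : ¬p396 := fun h => c500 h u0 u1; have u4 : p397 := Classical.byContradiction fun h => c502 n7 n2 u2 n3 n5 n0 n4 h; c501 u4 u3
  have c1000 : ¬p388 → p373 → ¬p196 → p376 → p1 → ¬p221 → ¬p392 → ¬p227 → p381 → p377 → p372 → ¬p72 → False := fun n0 n1 n2 n3 n4 n5 n6 n7 n8 n9 n10 n11 =>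
    have u0 : p380 := Classical.byContradiction fun h => c983 h n3 n11; have u1 : ¬p378 := fun h => c477 h n3 n9; have u2 : ¬p382 := fun h => c482 h u0 n8; have u3 : ¬p379 := fun h => c480 h u1 n5; have u4 : ¬p383 := fun h => c483 h u2 n7; c997 n0 n10 n2 u3 n6 u4 n1 n4
  have c1006 : ¬p329 → ¬p330 → p201 → False := fun n0 n1 n2 =>
    have u0 : ¬p327 := fun h => c424 n1 h n0; c1005 n0 u0 n2
  have c1012 : ¬p429 → False := fun n0 =>
    have u0 : p12 := Classical.byContradiction fun h => c12 h; have u1 : p3 := Classical.byContradiction fun h => c1 h; have u2 : p427 := Classical.byContradiction fun h => c565 h n0; c1011 n0 u2 u0 u1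
  have c1014 : ¬p426 → ¬p72 → False := fun n0 n1 =>
    have u0 : p66 := Classical.byContradiction fun h => c263 h; have u1 : p6 := Classical.byContradiction fun h => c4 h; have u2 : p424 := Classical.byContradiction fun h => c563 h n0; c1013 n0 n1 u2 u0 u1
  have c1026 : ¬p430 → ¬p48 → p424 → False := fun n0 n1 n2 =>
    have u0 : p429 := Classical.byContradiction fun h => c1012 h; have u1 : p12 := Classical.byContradiction fun h => c12 h; have u2 : p3 := Classical.byContradiction fun h => c1 h; c1025 n0 n1 n2 u0 u1 u2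
  have c1034 : p43 → p428 → p424 → ¬p47 → ¬p430 → False := fun n0 n1 n2 n3 n4 =>
    have u0 : p12 := Classical.byContradiction fun h => c12 h; have u1 : p3 := Classical.byContradiction fun h => c1 h; c1033 n0 n1 n2 n3 n4 u0 u1
  have c1036 : p1 → p424 → False := fun n0 n1 =>
    have u0 : p8 := Classical.byContradiction fun h => c7 h; have u1 : ¬p430 := fun h => c566 n0 h; have u2 : ¬p427 := fun h => c1019 h u1 n1 u0; have u3 : p428 := Classical.byContradiction fun h => c564 u2 h; have u4 : p48 := Classical.byContradiction fun h => c1026 u1 h n1; have u5 : ¬p46 := fun h => c33 n0 h u4; have u6 : ¬p47 := fun h => c178 u5 h; have u7 : ¬p43 := fun h => c1034 h u3 n1 u6 u1; have u8 : ¬p44 := fun h => c180 n0 u7 h; c1035 u3 u8 n1 u1 u0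
  have c1044 : p274 → ¬p430 → ¬p84 → p425 → ¬p408 → ¬p85 → ¬p142 → p110 → p289 → ¬p71 → False := fun n0 n1 n2 n3 n4 n5 n6 n7 n8 n9 =>
    have u0 : p429 := Classical.byContradiction fun h => c1012 h; have u1 : p67 := Classical.byContradiction fun h => c823 h; c1043 n0 n1 n2 n3 n4 n5 n6 n7 n8 n9 u0 u1
  have c1046 : ¬p143 → p289 → p342 → False := fun n0 n1 n2 =>
    c1045 n0 n1 n2
  have c1047 : p274 → p1 → p289 → ¬p85 → ¬p84 → p425 → p307 → ¬p142 → p110 → ¬p48 → ¬p71 → False := fun n0 n1 n2 n3 n4 n5 n6 n7 n8 n9 n10 =>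
    have u0 : p2 := Classical.byContradiction fun h => c0 h; have u1 : ¬p430 := fun h => c566 n1 h; have u2 : p337 := Classical.byContradiction fun h => c879 h n9 u0; have u3 : ¬p143 := fun h => c194 n7 h; have u4 : p408 := Classical.byContradiction fun h => c1044 n0 u1 n4 n5 h n3 n7 n8 n2 n10; have u5 : ¬p342 := fun h => c1046 u3 n2 h; have u6 : p344 := Classical.byContradiction fun h => c446 h u2 n9 u5; have u7 : ¬p409 := fun h => c522 u6 h; have u8 : ¬p41 := fun h => c521 u7 n6 h u4; have u9 : ¬p37 := fun h => c519 u7 n6 h u4; have u10 : p39 := Classical.byContradiction fun h => c29 n1 h u8; have u11 : ¬p36 := fun h => c144 n1 h u9; c253 u11 u10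
  have c1053 : ¬p72 → ¬p234 → ¬p1 → p226 → ¬p238 → ¬p205 → False := fun n0 n1 n2 n3 n4 n5 =>
    have u0 : ¬p202 := fun h => c265 h; have u1 : ¬p216 := fun h => c285 h n2; have u2 : ¬p243 := fun h => c319 h n2; have u3 : ¬p221 := fun h => c886 n5 h u1; have u4 : ¬p224 := fun h => c293 h u0 u3; have u5 : p229 := Classical.byContradiction fun h => c321 u3 u4 h n1 n4 u2; have u6 : p227 := Classical.byContradiction fun h => c300 u5 n5 h; have u7 : p218 := Classical.byContradiction fun h => c295 u6 h; have u8 : ¬p225 := fun h => c296 u6 h n3; have u9 : p219 := Classical.byContradiction fun h => c290 u3 u7 h; c895 n0 u8 u9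
  have c1058 : ¬p430 → ¬p27 → ¬p47 → p425 → False := fun n0 n1 n2 n3 =>
    have u0 : p12 := Classical.byContradiction fun h => c12 h; have u1 : p8 := Classical.byContradiction fun h => c7 h; have u2 : ¬p428 := fun h => c1054 n0 n1 n2 n3 h u0; have u3 : p427 := Classical.byContradiction fun h => c564 h u2; have u4 : ¬p424 := fun h => c1019 u3 n0 h u1; c1056 u3 n1 n2 u4 n0 n3 u0
  have c1061 : p408 → ¬p409 → p1 → p307 → False := fun n0 n1 n2 n3 =>
    have u0 : ¬p41 := fun h => c521 n1 n3 h n0; have u1 : ¬p37 := fun h => c519 n1 n3 h n0; have u2 : p39 := Classical.byContradiction fun h => c29 n2 h u0; have u3 : ¬p36 := fun h => c144 n2 h u1; c253 u3 u2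
  have c1063 : ¬p71 → ¬p342 → ¬p48 → ¬p430 → ¬p84 → p1 → ¬p85 → p307 → p425 → p274 → False := fun n0 n1 n2 n3 n4 n5 n6 n7 n8 n9 =>
    have u0 : p429 := Classical.byContradiction fun h => c1012 h; have u1 : p67 := Classical.byContradiction fun h => c823 h; have u2 : p2 := Classical.byContradiction fun h => c0 h; have u3 : p337 := Classical.byContradiction fun h => c879 h n2 u2; have u4 : p344 := Classical.byContradiction fun h => c446 h u3 n2 n1; have u5 : ¬p409 := fun h => c522 u4 h; have u6 : ¬p408 := fun h => c1061 h u5 n5 n7; c1062 n9 n3 n1 n6 n8 n4 u6 n0 u0 u1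
  have c1082 : ¬p309 → p1 → p289 → ¬p30 → p307 → ¬p39 → False := fun n0 n1 n2 n3 n4 n5 =>
    have u0 : p12 := Classical.byContradiction fun h => c12 h; have u1 : p3 := Classical.byContradiction fun h => c1 h; have u2 : p41 := Classical.byContradiction fun h => c29 n1 n5 h; have u3 : ¬p29 := fun h => c107 n1 h n3; have u4 : p310 := Classical.byContradiction fun h => c404 h n4 u2 n0; have u5 : ¬p32 := fun h => c252 u3 h; have u6 : ¬p291 := fun h => c504 u4 h; have u7 : p34 := Classical.byContradiction fun h => c25 n1 u5 h; have u8 : ¬p286 := fun h => c385 u6 h u7 n2; c865 u8 u7 u0 u1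
  have c1086 : p280 → ¬p284 → p279 → False := fun n0 n1 n2 =>
    have u0 : p69 := Classical.byContradiction fun h => c907 h; have u1 : p277 := Classical.byContradiction fun h => c369 n0 h; have u2 : ¬p278 := fun h => c370 n0 h n2; have u3 : p282 := Classical.byContradiction fun h => c375 n1 u1 h; c1085 u2 u3 u0
  have c1088 : ¬p72 → p227 → ¬p221 → p226 → False := fun n0 n1 n2 n3 =>
    have u0 : p218 := Classical.byContradiction fun h => c295 n1 h; have u1 : ¬p225 := fun h => c296 n1 h n3; have u2 : p219 := Classical.byContradiction fun h => c290 n2 u0 h; c895 n0 u1 u2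
  have c1090 : ¬p309 → p34 → ¬p310 → p307 → False := fun n0 n1 n2 n3 =>
    have u0 : ¬p41 := fun h => c404 n2 n3 h n0; c1089 n0 n1 u0
  have c1096 : ¬p205 → p304 → ¬p1 → ¬p247 → p300 → p299 → ¬p311 → ¬p72 → False := fun n0 n1 n2 n3 n4 n5 n6 n7 =>
    have u0 : ¬p301 := fun h => c394 h n5 n4; have u1 : p305 := Classical.byContradiction fun h => c887 h n0 n2 n3 u0 n6; have u2 : ¬p303 := fun h => c398 u1 h n1; c1095 u2 n7 n5
  have c1120 : ¬p384 → ¬p447 → ¬p58 → ¬p449 → False := fun n0 n1 n2 n3 =>
    have u0 : p448 := Classical.byContradiction fun h => c577 n1 h n3; c1119 n0 n1 n2 u0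
  have c1127 : ¬p384 → ¬p444 → ¬p58 → False := fun n0 n1 n2 =>
    have u0 : p445 := Classical.byContradiction fun h => c575 n1 h; c1126 n0 n1 n2 u0
  have c1132 : ¬p384 → ¬p449 → ¬p452 → p441 → ¬p58 → False := fun n0 n1 n2 n3 n4 =>
    have u0 : p11 := Classical.byContradiction fun h => c11 h; have u1 : p447 := Classical.byContradiction fun h => c1120 n0 h n4 n1; have u2 : p444 := Classical.byContradiction fun h => c1127 n0 h n4; c1128 u1 n3 u2 n2 u0
  have c1155 : p1 → ¬p341 → ¬p345 → ¬p332 → p325 → p324 → ¬p194 → ¬p336 → False := fun n0 n1 n2 n3 n4 n5 n6 n7 =>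
    have u0 : p348 := Classical.byContradiction fun h => c772 h n4; have u1 : p347 := Classical.byContradiction fun h => c771 h n5; have u2 : ¬p326 := fun h => c418 h n5 n4; have u3 : ¬p349 := fun h => c451 h u1 u0; have u4 : p350 := Classical.byContradiction fun h => c453 n0 n6 u2 n3 n7 n1 n2 h; c452 u4 u3
  have c1168 : ¬p0 → ¬p332 → p324 → ¬p336 → p1 → ¬p194 → p325 → False := fun n0 n1 n2 n3 n4 n5 n6 =>
    have u0 : ¬p341 := fun h => c439 h n0; have u1 : ¬p345 := fun h => c448 h n0; c1155 n4 u0 u1 n1 n6 n2 n5 n3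
  have c1173 : ¬p336 → p1 → ¬p342 → ¬p344 → ¬p350 → ¬p332 → ¬p326 → ¬p194 → False := fun n0 n1 n2 n3 n4 n5 n6 n7 =>
    have u0 : ¬p345 := fun h => c449 h n3; have u1 : p341 := Classical.byContradiction fun h => c453 n1 n7 n6 n5 n0 h u0 n4; have u2 : p340 := Classical.byContradiction fun h => c440 u1 h; have u3 : p337 := Classical.byContradiction fun h => c433 u2 h; have u4 : p44 := Classical.byContradiction fun h => c444 n3 u3 h n2; have u5 : p48 := Classical.byContradiction fun h => c446 n3 u3 h n2; c434 u2 u4 u5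
  have c1198 : ¬p350 → p1 → p289 → ¬p344 → ¬p326 → p339 → ¬p336 → ¬p332 → ¬p194 → False := fun n0 n1 n2 n3 n4 n5 n6 n7 n8 =>
    have u0 : ¬p345 := fun h => c449 h n3; have u1 : p342 := Classical.byContradiction fun h => c1173 n6 n1 h n3 n0 n7 n4 n8; have u2 : p341 := Classical.byContradiction fun h => c453 n1 n8 n4 n7 n6 h u0 n0; have u3 : p143 := Classical.byContradiction fun h => c1045 h n2 u1; have u4 : p340 := Classical.byContradiction fun h => c440 u2 h; have u5 : p140 := Classical.byContradiction fun h => c709 h u3; have u6 : ¬p338 := fun h => c435 u4 h n5; c710 u6 u5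
  have c1201 : p1 → p230 → p235 → ¬p237 → False := fun n0 n1 n2 n3 =>
    have u0 : ¬p17 := fun h => c313 n3 n1 h n2; have u1 : ¬p14 := fun h => c311 n3 n1 h n2; have u2 : p16 := Classical.byContradiction fun h => c15 n0 h u0; have u3 : ¬p13 := fun h => c47 n0 h u1; c250 u3 u2
  have c1205 : ¬p230 → ¬p229 → ¬p221 → ¬p238 → False := fun n0 n1 n2 n3 =>
    have u0 : p6 := Classical.byContradiction fun h => c4 h; have u1 : ¬p202 := fun h => c265 h; have u2 : ¬p224 := fun h => c293 h u1 n2; have u3 : ¬p233 := fun h => c302 h n0; have u4 : ¬p234 := fun h => c307 h u3; have u5 : p243 := Classical.byContradiction fun h => c321 n2 u2 n1 u4 n3 h; have u6 : p242 := Classical.byContradiction fun h => c320 u5 h; have u7 : p239 := Classical.byContradiction fun h => c317 u6 h; c1204 n0 u7 u0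
  have c1211 : ¬p336 → p1 → p339 → p342 → p289 → ¬p326 → ¬p350 → ¬p136 → ¬p332 → ¬p194 → False := fun n0 n1 n2 n3 n4 n5 n6 n7 n8 n9 =>
    have u0 : p344 := Classical.byContradiction fun h => c1198 n6 n1 n4 h n5 n2 n0 n8 n9; have u1 : ¬p343 := fun h => c443 u0 n3 h; c1210 u1 n2 n7
  have c1223 : ¬p72 → ¬p311 → ¬p318 → ¬p301 → p0 → ¬p305 → ¬p221 → p226 → False := fun n0 n1 n2 n3 n4 n5 n6 n7 =>
    have u0 : ¬p313 := fun h => c805 h; have u1 : ¬p227 := fun h => c1088 n0 h n6 n7; have u2 : ¬p302 := fun h => c397 h n3 n6; have u3 : ¬p306 := fun h => c399 h n5 u1; c413 n4 u2 u3 n1 u0 n2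
  have c1224 : ¬p206 → ¬p205 → p221 → False := fun n0 n1 n2 =>
    have u0 : ¬p208 := fun h => c543 h n2; have u1 : p216 := Classical.byContradiction fun h => c886 n1 n2 h; have u2 : ¬p215 := fun h => c932 n0 h u0; c286 u1 u2
  have c1238 : ¬p300 → ¬p301 → False := fun n0 n1 =>
    have u0 : p6 := Classical.byContradiction fun h => c4 h; have u1 : p298 := Classical.byContradiction fun h => c1217 h n0 u0; c396 n1 u1 n0
  have c1241 : ¬p0 → ¬p276 → ¬p227 → ¬p261 → False := fun n0 n1 n2 n3 =>
    have u0 : ¬p248 := fun h => c325 h; have u1 : ¬p262 := fun h => c347 h u0 n2; have u2 : ¬p267 := fun h => c355 h n0; have u3 : ¬p271 := fun h => c362 h n0; c368 n2 n3 u1 u2 u3 n1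
  have c1267 : ¬p449 → ¬p176 → p34 → ¬p136 → p451 → False := fun n0 n1 n2 n3 n4 =>
    have u0 : p174 := Classical.byContradiction fun h => c245 h n1; have u1 : p175 := Classical.byContradiction fun h => c172 u0 h; have u2 : p389 := Classical.byContradiction fun h => c748 h u1; have u3 : p62 := Classical.byContradiction fun h => c1076 h n0 u2 n4; c1266 n1 u3 n2 n3
  have c1270 : ¬p72 → p235 → ¬p221 → ¬p237 → p226 → ¬p1 → ¬p205 → ¬p229 → False := fun n0 n1 n2 n3 n4 n5 n6 n7 =>
    have u0 : ¬p238 := fun h => c316 h n3; have u1 : p234 := Classical.byContradiction fun h => c1053 n0 h n5 n4 u0 n6; have u2 : p230 := Classical.byContradiction fun h => c1205 h n7 n2 u0; have u3 : p233 := Classical.byContradiction fun h => c307 u1 h; have u4 : ¬p17 := fun h => c313 n3 u2 h n1; have u5 : ¬p14 := fun h => c311 n3 u2 h n1; c303 u3 u5 u4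
  have c1271 : ¬p72 → ¬p311 → p235 → ¬p1 → ¬p247 → ¬p205 → ¬p229 → ¬p221 → p226 → False := fun n0 n1 n2 n3 n4 n5 n6 n7 n8 =>
    have u0 : p66 := Classical.byContradiction fun h => c263 h; have u1 : p86 := Classical.byContradiction fun h => c647 h n2; have u2 : p85 := Classical.byContradiction fun h => c149 h u1; have u3 : p82 := Classical.byContradiction fun h => c646 h u2; have u4 : p87 := Classical.byContradiction fun h => c66 u3 h; have u5 : p299 := Classical.byContradiction fun h => c652 h u4; have u6 : p237 := Classical.byContradiction fun h => c1270 n0 n2 n7 h n8 n3 n5 n6; have u7 : ¬p301 := fun h => c535 h u6; have u8 : p300 := Classical.byContradiction fun h => c1238 h u7; have u9 : p304 := Classical.byContradiction fun h => c1215 h n0 u8 u0; c1096 n5 u9 n3 n4 u8 u5 n1 n0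
  have c1283 : ¬p226 → ¬p72 → ¬p221 → False := fun n0 n1 n2 =>
    have u0 : p66 := Classical.byContradiction fun h => c263 h; have u1 : p6 := Classical.byContradiction fun h => c4 h; have u2 : ¬p26 := fun h => c608 n0 h; have u3 : ¬p220 := fun h => c950 n0 h n1 u0; have u4 : p218 := Classical.byContradiction fun h => c1219 h u2 n1 u0 u1; c291 n2 u4 u3
  have c1291 : ¬p132 → False := fun n0 =>
    have u0 : p131 := Classical.byContradiction fun h => c264 h; c122 u0 n0
  have c1292 : ¬p308 → False := fun n0 =>
    have u0 : p132 := Classical.byContradiction fun h => c1291 h; c701 n0 u0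
  have c1294 : p265 → p1 → ¬p266 → p263 → False := fun n0 n1 n2 n3 =>
    have u0 : ¬p25 := fun h => c354 n2 n3 h n0; have u1 : ¬p22 := fun h => c352 n2 n3 h n0; have u2 : p24 := Classical.byContradiction fun h => c20 n1 h u0; have u3 : ¬p21 := fun h => c82 n1 h u1; c251 u3 u2
  have c1317 : ¬p206 → ¬p205 → ¬p208 → ¬p216 → False := fun n0 n1 n2 n3 =>
    have u0 : ¬p202 := fun h => c265 h; have u1 : ¬p209 := fun h => c275 h n2; have u2 : p212 := Classical.byContradiction fun h => c287 u0 n1 u1 h n3; have u3 : p211 := Classical.byContradiction fun h => c282 u2 h; have u4 : p201 := Classical.byContradiction fun h => c276 u3 h; have u5 : p198 := Classical.byContradiction fun h => c272 n2 u4 h n0; have u6 : p197 := Classical.byContradiction fun h => c270 n2 u4 h n0; c277 u3 u6 u5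
  have c1377 : p275 → ¬p274 → ¬p16 → False := fun n0 n1 n2 =>
    have u0 : p66 := Classical.byContradiction fun h => c263 h; have u1 : p273 := Classical.byContradiction fun h => c365 n0 h n1; c1376 u1 n1 n2 u0
  have c1378 : ¬p329 → ¬p121 → ¬p71 → False := fun n0 n1 n2 =>
    have u0 : ¬p96 := fun h => c662 n0 h; have u1 : ¬p94 := fun h => c1366 n0 n1 n2 h; have u2 : p92 := Classical.byContradiction fun h => c186 h u0; have u3 : ¬p89 := fun h => c71 h u1; c654 u3 u2
  have c1379 : ¬p0 → ¬p72 → p324 → ¬p221 → ¬p227 → p1 → p334 → ¬p194 → p328 → p325 → p329 → False := fun n0 n1 n2 n3 n4 n5 n6 n7 n8 n9 n10 =>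
    have u0 : p333 := Classical.byContradiction fun h => c1041 n1 h n8; have u1 : ¬p330 := fun h => c422 h n8 n10; have u2 : ¬p335 := fun h => c428 h u0 n6; have u3 : ¬p332 := fun h => c425 h u1 n3; have u4 : ¬p336 := fun h => c431 h u2 n4; c1168 n0 u3 n2 u4 n5 n7 n9
  have c1381 : p274 → ¬p71 → ¬p418 → p96 → p425 → ¬p430 → ¬p328 → False := fun n0 n1 n2 n3 n4 n5 n6 =>
    have u0 : p429 := Classical.byContradiction fun h => c1012 h; have u1 : p67 := Classical.byContradiction fun h => c823 h; c1380 n0 n1 n2 n3 n4 n5 n6 u0 u1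
  have c1382 : ¬p0 → p334 → ¬p72 → p17 → p1 → ¬p221 → ¬p194 → p324 → p230 → p325 → p425 → ¬p227 → p329 → p274 → False := fun n0 n1 n2 n3 n4 n5 n6 n7 n8 n9 n10 n11 n12 n13 =>
    have u0 : ¬p71 := fun h => c55 h n2; have u1 : ¬p430 := fun h => c566 n4 h; have u2 : ¬p328 := fun h => c1379 n0 n2 n7 n5 n11 n4 n1 n6 h n9 n12; have u3 : ¬p94 := fun h => c660 u2 h; have u4 : ¬p89 := fun h => c71 h u3; have u5 : ¬p92 := fun h => c654 u4 h; have u6 : p96 := Classical.byContradiction fun h => c186 u5 h; have u7 : p418 := Classical.byContradiction fun h => c1381 n13 u0 h u6 n10 u1 u2; have u8 : p419 := Classical.byContradiction fun h => c539 h n8 n3 u7; have u9 : ¬p330 := fun h => c540 h u8; have u10 : ¬p327 := fun h => c423 u9 h u2; have u11 : ¬p332 := fun h => c425 h u9 n5; have u12 : ¬p335 := fun h => c427 h u10; have u13 : p336 := Classical.byContradiction fun h => c1168 n0 u11 n7 h n4 n6 n9; c431 u13 u12 n11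
  have c1385 : p327 → ¬p328 → ¬p430 → p425 → ¬p71 → p17 → p230 → p274 → False := fun n0 n1 n2 n3 n4 n5 n6 n7 =>
    have u0 : p429 := Classical.byContradiction fun h => c1012 h; have u1 : p67 := Classical.byContradiction fun h => c823 h; have u2 : ¬p94 := fun h => c660 n1 h; have u3 : p330 := Classical.byContradiction fun h => c423 h n0 n1; have u4 : ¬p89 := fun h => c71 h u2; have u5 : ¬p419 := fun h => c540 u3 h; have u6 : ¬p92 := fun h => c654 u4 h; have u7 : ¬p418 := fun h => c539 u5 n6 n5 h; have u8 : p96 := Classical.byContradiction fun h => c186 u6 h; c1380 n7 n4 u7 u8 n3 n2 n1 u0 u1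
  have c1390 : ¬p0 → ¬p261 → ¬p72 → p1 → ¬p194 → p17 → ¬p221 → p230 → p425 → p324 → ¬p227 → False := fun n0 n1 n2 n3 n4 n5 n6 n7 n8 n9 n10 =>
    have u0 : p429 := Classical.byContradiction fun h => c1012 h; have u1 : ¬p71 := fun h => c55 h n2; have u2 : p426 := Classical.byContradiction fun h => c1014 h n2; have u3 : ¬p16 := fun h => c46 h n5; have u4 : ¬p430 := fun h => c566 n3 h; have u5 : p276 := Classical.byContradiction fun h => c1241 n0 h n10 n1; have u6 : p275 := Classical.byContradiction fun h => c367 u5 h; have u7 : p274 := Classical.byContradiction fun h => c1377 u6 h u3; have u8 : p123 := Classical.byContradiction fun h => c1017 u7 u4 u2 h u0; have u9 : ¬p121 := fun h => c101 h u8; have u10 : ¬p126 := fun h => c193 u9 h; have u11 : ¬p124 := fun h => c688 h u9; have u12 : p329 := Classical.byContradiction fun h => c1378 h u9 u1; have u13 : p325 := Classical.byContradiction fun h => c1162 h u4 u10 n8 u0; have u14 : p127 := Classical.byContradiction fun h => c192 u11 h; have u15 : ¬p334 := fun h => c1382 n0 h n2 n5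 n3 n6 n4 n9 n7 u13 n8 n10 u12 u7; c695 u15 u14
  have c1406 : ¬p154 → p389 → p289 → False := fun n0 n1 n2 =>
    c1405 n0 n1 n2
  have c1407 : ¬p62 → ¬p389 → ¬p391 → False := fun n0 n1 n2 =>
    have u0 : p12 := Classical.byContradiction fun h => c12 h; have u1 : p3 := Classical.byContradiction fun h => c1 h; have u2 : p384 := Classical.byContradiction fun h => c1114 n0 h u0 u1; c497 n2 u2 n0 n1
  have c1413 : ¬p441 → ¬p384 → ¬p20 → p442 → ¬p58 → False := fun n0 n1 n2 n3 n4 =>
    have u0 : p12 := Classical.byContradiction fun h => c12 h; c1412 n0 n1 n2 n3 n4 u0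
  have c1415 : ¬p389 → ¬p391 → ¬p20 → ¬p452 → ¬p33 → p289 → p451 → p1 → p442 → ¬p61 → False := fun n0 n1 n2 n3 n4 n5 n6 n7 n8 n9 =>
    have u0 : p12 := Classical.byContradiction fun h => c12 h; have u1 : p11 := Classical.byContradiction fun h => c11 h; have u2 : p446 := Classical.byContradiction fun h => c830 h; have u3 : ¬p57 := fun h => c1403 n6 n9 n2 h n3 n8 u2 u0; have u4 : ¬p58 := fun h => c225 n7 u3 h; have u5 : ¬p384 := fun h => c495 n1 h u4 n0; have u6 : p444 := Classical.byContradiction fun h => c1127 u5 h u4; have u7 : p441 := Classical.byContradiction fun h => c1413 h u5 n2 n8 u4; have u8 : p449 := Classical.byContradiction fun h => c1132 u5 h n3 u7 u4; c1414 n8 u8 n5 n2 u6 u4 n3 n4 u0 u1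
  have c1417 : p155 → p451 → ¬p33 → p1 → ¬p20 → ¬p452 → p289 → ¬p154 → p34 → False := fun n0 n1 n2 n3 n4 n5 n6 n7 n8 =>
    have u0 : p11 := Classical.byContradiction fun h => c11 h; have u1 : p446 := Classical.byContradiction fun h => c830 h; have u2 : p12 := Classical.byContradiction fun h => c12 h; have u3 : p3 := Classical.byContradiction fun h => c1 h; have u4 : p286 := Classical.byContradiction fun h => c865 h n8 u2 u3; have u5 : p135 := Classical.byContradiction fun h => c699 n6 h; have u6 : p134 := Classical.byContradiction fun h => c161 h u5; have u7 : ¬p136 := fun h => c125 u6 h; have u8 : p41 := Classical.byContradiction fun h => c1091 n8 h u7; have u9 : p307 := Classical.byContradiction fun h => c1139 h u4 u7; have u10 : p412 := Classical.byContradiction fun h => c1141 n0 h u7; have u11 : p413 := Classical.byContradiction fun h => c530 h u9 u8 u10; have u12 : ¬p391 := fun h => c531 h u11; have u13 : ¬p389 := fun h => c1406 n7 h n6; have u14 : p62 := Classical.byContradiction fun h => c1407 h u13 u12; have u15 : ¬p60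 := fun h => c42 n3 h u14; have u16 : ¬p61 := fun h => c224 u15 h; have u17 : ¬p442 := fun h => c1415 u13 u12 n4 n5 n2 n6 n1 n3 h u16; have u18 : p441 := Classical.byContradiction fun h => c573 h u17; have u19 : p59 := Classical.byContradiction fun h => c966 h u18 n1 n5 u1 u2 u3; have u20 : ¬p57 := fun h => c40 h u19; have u21 : ¬p58 := fun h => c225 n3 u20 h; have u22 : ¬p384 := fun h => c495 u12 h u21 u13; have u23 : p444 := Classical.byContradiction fun h => c1127 u22 h u21; have u24 : p449 := Classical.byContradiction fun h => c1132 u22 h n5 u18 u21; c1416 u18 u21 n2 n6 u23 n5 u24 u0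
  have c1419 : p441 → ¬p58 → ¬p33 → p449 → ¬p452 → p444 → False := fun n0 n1 n2 n3 n4 n5 =>
    have u0 : p132 := Classical.byContradiction fun h => c1291 h; have u1 : p11 := Classical.byContradiction fun h => c11 h; c1418 n0 n1 n2 n3 n4 n5 u0 u1
  have c1421 : p441 → ¬p58 → ¬p33 → ¬p452 → p449 → False := fun n0 n1 n2 n3 n4 =>
    have u0 : p132 := Classical.byContradiction fun h => c1291 h; have u1 : ¬p444 := fun h => c1419 n0 n1 n2 n4 n3 h; have u2 : p445 := Classical.byContradiction fun h => c575 u1 h; have u3 : p384 := Classical.byContradiction fun h => c1127 h u1 n1; c1420 n0 n1 n2 u3 n4 n3 u2 u0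
  have c1422 : p412 → ¬p413 → p34 → ¬p136 → False := fun n0 n1 n2 n3 =>
    have u0 : p12 := Classical.byContradiction fun h => c12 h; have u1 : p3 := Classical.byContradiction fun h => c1 h; have u2 : p286 := Classical.byContradiction fun h => c865 h n2 u0 u1; have u3 : p41 := Classical.byContradiction fun h => c1091 n2 h n3; have u4 : p307 := Classical.byContradiction fun h => c1139 h u2 n3; c530 n1 u4 u3 n0
  have c1423 : p412 → ¬p413 → p307 → p1 → False := fun n0 n1 n2 n3 =>
    have u0 : ¬p41 := fun h => c530 n1 n2 h n0; have u1 : ¬p37 := fun h => c528 n1 n2 h n0; have u2 : p39 := Classical.byContradiction fun h => c29 n3 h u0; have u3 : ¬p36 := fun h => c144 n3 h u1; c253 u3 u2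
  have c1429 : p389 → ¬p58 → ¬p33 → False := fun n0 n1 n2 =>
    have u0 : p132 := Classical.byContradiction fun h => c1291 h; c1428 n0 n1 n2 u0
  have c1431 : p412 → ¬p413 → p295 → p1 → p34 → False := fun n0 n1 n2 n3 n4 =>
    have u0 : p131 := Classical.byContradiction fun h => c264 h; have u1 : ¬p192 := fun h => c256 h; have u2 : p2 := Classical.byContradiction fun h => c0 h; have u3 : p136 := Classical.byContradiction fun h => c1422 n0 n1 n4 h; have u4 : ¬p307 := fun h => c1423 n0 n1 h n3; have u5 : ¬p134 := fun h => c125 h u3; have u6 : ¬p135 := fun h => c161 u5 h; c1430 n2 u4 u6 u0 u1 u2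
  have c1433 : p441 → p451 → p34 → p1 → p295 → ¬p33 → ¬p452 → p155 → False := fun n0 n1 n2 n3 n4 n5 n6 n7 =>
    have u0 : p131 := Classical.byContradiction fun h => c264 h; have u1 : ¬p192 := fun h => c256 h; have u2 : p446 := Classical.byContradiction fun h => c830 h; have u3 : p12 := Classical.byContradiction fun h => c12 h; have u4 : p3 := Classical.byContradiction fun h => c1 h; have u5 : p59 := Classical.byContradiction fun h => c966 h n0 n1 n6 u2 u3 u4; have u6 : ¬p57 := fun h => c40 h u5; have u7 : ¬p58 := fun h => c225 n3 u6 h; have u8 : ¬p449 := fun h => c1421 n0 u7 n5 n6 h; have u9 : p384 := Classical.byContradiction fun h => c1132 h u8 n6 n0 u7; have u10 : ¬p389 := fun h => c1429 h u7 n5; have u11 : p391 := Classical.byContradiction fun h => c495 h u9 u7 u10; have u12 : ¬p413 := fun h => c531 u11 h; have u13 : ¬p412 := fun h => c1431 h u12 n4 n3 n2; have u14 : p136 := Classical.byContradiction fun h => c1141 n7 u13 h; have u15 : ¬p134 := fun h => c125 h u14; have u16 : ¬p135 := fun h => c161 u15 h; c1432 n4 u13 u16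 u5 u0 u1
  have c1434 : p155 → ¬p58 → ¬p20 → p1 → p34 → ¬p441 → p295 → ¬p33 → False := fun n0 n1 n2 n3 n4 n5 n6 n7 =>
    have u0 : p131 := Classical.byContradiction fun h => c264 h; have u1 : ¬p192 := fun h => c256 h; have u2 : p12 := Classical.byContradiction fun h => c12 h; have u3 : p132 := Classical.byContradiction fun h => c1291 h; have u4 : p442 := Classical.byContradiction fun h => c573 n5 h; have u5 : ¬p57 := fun h => c39 h n1; have u6 : ¬p389 := fun h => c1428 h n1 n7 u3; have u7 : p384 := Classical.byContradiction fun h => c1412 n5 h n2 u4 n1 u2; have u8 : p59 := Classical.byContradiction fun h => c226 u5 h; have u9 : p391 := Classical.byContradiction fun h => c495 h u7 n1 u6; have u10 : ¬p413 := fun h => c531 u9 h; have u11 : ¬p412 := fun h => c1431 h u10 n6 n3 n4; have u12 : p136 := Classical.byContradiction fun h => c1141 n0 u11 h; have u13 : p135 := Classical.byContradiction fun h => c1432 n6 u11 h u8 u0 u1; have u14 : ¬p134 := fun h => c125 h u12; c161 u14 u13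
  have c1436 : p133 → False := fun n0 =>
    have u0 : p131 := Classical.byContradiction fun h => c264 h; c123 u0 n0
  have c1458 : p295 → ¬p79 → ¬p398 → p425 → ¬p430 → p142 → False := fun n0 n1 n2 n3 n4 n5 =>
    have u0 : p429 := Classical.byContradiction fun h => c1012 h; have u1 : p69 := Classical.byContradiction fun h => c907 h; c1457 n0 n1 n2 n3 n4 n5 u0 u1
  have c1460 : p295 → p34 → p425 → ¬p430 → ¬p79 → p340 → False := fun n0 n1 n2 n3 n4 n5 =>
    have u0 : p429 := Classical.byContradiction fun h => c1012 h; have u1 : p69 := Classical.byContradiction fun h => c907 h; have u2 : p12 := Classical.byContradiction fun h => c12 h; have u3 : p3 := Classical.byContradiction fun h => c1 h; have u4 : p286 := Classical.byContradiction fun h => c865 h n1 u2 u3; have u5 : ¬p400 := fun h => c509 n5 h; have u6 : ¬p399 := fun h => c508 u5 u4 n1 h; have u7 : ¬p398 := fun h => c507 u5 u4 n1 h; have u8 : ¬p142 := fun h => c1458 n0 n4 u7 n2 n3 h; have u9 : p144 := Classical.byContradiction fun h => c195 u8 h; have u10 : p339 := Classical.byContradiction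 fun h => c713 h u9; have u11 : ¬p338 := fun h => c435 n5 h u10; c1459 n0 n4 u11 n2 n3 u6 u0 u1
  have c1462 : p295 → ¬p79 → ¬p430 → ¬p143 → p425 → ¬p408 → False := fun n0 n1 n2 n3 n4 n5 =>
    have u0 : p429 := Classical.byContradiction fun h => c1012 h; have u1 : ¬p133 := fun h => c1436 h; have u2 : p69 := Classical.byContradiction fun h => c907 h; c1461 n0 n1 n2 n3 n4 n5 u0 u1 u2
  have c1464 : p295 → ¬p407 → ¬p134 → ¬p144 → p425 → ¬p430 → ¬p79 → False := fun n0 n1 n2 n3 n4 n5 n6 =>
    have u0 : p429 := Classical.byContradiction fun h => c1012 h; have u1 : ¬p133 := fun h => c1436 h; have u2 : p69 := Classical.byContradiction fun h => c907 h; c1463 n0 n1 n2 n3 n4 n5 n6 u0 u1 u2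
  have c1465 : p295 → ¬p79 → ¬p134 → ¬p409 → p1 → p425 → False := fun n0 n1 n2 n3 n4 n5 =>
    have u0 : p131 := Classical.byContradiction fun h => c264 h; have u1 : ¬p192 := fun h => c256 h; have u2 : p2 := Classical.byContradiction fun h => c0 h; have u3 : ¬p430 := fun h => c566 n4 h; have u4 : ¬p135 := fun h => c161 n2 h; have u5 : p307 := Classical.byContradiction fun h => c1430 n0 h u4 u0 u1 u2; have u6 : ¬p408 := fun h => c1061 h n3 n4 u5; have u7 : p143 := Classical.byContradiction fun h => c1462 n0 n1 u3 h n5 u6; have u8 : p142 := Classical.byContradiction fun h => c194 h u7; have u9 : ¬p144 := fun h => c130 u8 h; have u10 : p407 := Classical.byContradiction fun h => c1464 n0 h n2 u9 n5 u3 n1; have u11 : ¬p41 := fun h => c520 n3 u5 h u10; have u12 : ¬p37 := fun h => c518 n3 u5 h u10; have u13 : p39 := Classical.byContradiction fun h => c29 n4 h u11; have u14 : ¬p36 := fun h => c144 n4 h u12; c253 u14 u13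
  have c1467 : p290 → False := fun n0 =>
    have u0 : ¬p133 := fun h => c1436 h; c702 n0 u0
  have c1469 : p274 → ¬p72 → ¬p345 → p1 → ¬p16 → ¬p221 → ¬p227 → ¬p341 → p329 → p425 → p334 → ¬p126 → False := fun n0 n1 n2 n3 n4 n5 n6 n7 n8 n9 n10 n11 =>
    have u0 : p429 := Classical.byContradiction fun h => c1012 h; have u1 : p12 := Classical.byContradiction fun h => c12 h; have u2 : p3 := Classical.byContradiction fun h => c1 h; have u3 : p67 := Classical.byContradiction fun h => c823 h; have u4 : p66 := Classical.byContradiction fun h => c263 h; have u5 : ¬p71 := fun h => c55 h n1; have u6 : ¬p430 := fun h => c566 n3 h; have u7 : p325 := Classical.byContradiction fun h => c1162 h u6 n11 n9 u0; have u8 : p348 := Classical.byContradiction fun h => c772 h u7; have u9 : p17 := Classical.byContradiction fun h => c15 n3 n4 h; have u10 : ¬p21 := fun h => c1383 n4 h u4; have u11 : ¬p24 := fun h => c251 u10 h; have u12 : ¬p27 := fun h => c21 u11 h; have u13 : p25 := Classical.byContradiction fun h => c20 n3 u11 h; have u14 : p47 := Classical.byContradiction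 fun h => c1058 u6 u12 h n9; have u15 : p230 := Classical.byContradiction fun h => c1244 u5 u13 h u3 u1 u2; have u16 : p46 := Classical.byContradiction fun h => c178 h u14; have u17 : ¬p194 := fun h => c258 h u16; have u18 : ¬p48 := fun h => c33 n3 u16 h; have u19 : p324 := Classical.byContradiction fun h => c1156 h u14 u17; have u20 : p327 := Classical.byContradiction fun h => c1039 h u18 n11 n9 u6 u0 u1 u2; have u21 : p347 := Classical.byContradiction fun h => c771 h u19; have u22 : ¬p326 := fun h => c418 h u19 u7; have u23 : p328 := Classical.byContradiction fun h => c1385 u20 h u6 n9 u5 u9 u15 n0; have u24 : ¬p349 := fun h => c451 h u21 u8; have u25 : p333 := Classical.byContradiction fun h => c1041 n1 h u23; have u26 : ¬p330 := fun h => c422 h u23 n8; have u27 : ¬p350 := fun h => c452 h u24; have u28 : ¬p335 := fun h => c428 h u25 n10; have u29 : ¬p332 := fun h => c425 h u26 n5; have u30 : ¬p336 := fun h => c431 h u28 n6; c453 n3 u17 u22 u29 u30 n7 n2 u27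
  have c1474 : p344 → ¬p289 → ¬p136 → p343 → p1 → p307 → False := fun n0 n1 n2 n3 n4 n5 =>
    have u0 : ¬p409 := fun h => c522 n0 h; have u1 : ¬p342 := fun h => c443 n0 h n3; have u2 : ¬p408 := fun h => c1061 h u0 n4 n5; have u3 : ¬p141 := fun h => c1199 h u2 n2; have u4 : p139 := Classical.byContradiction fun h => c197 h u3; have u5 : p140 := Classical.byContradiction fun h => c128 u4 h; c1473 u1 u5 n1
  have c1479 : p220 → ¬p227 → p221 → False := fun n0 n1 n2 =>
    have u0 : p69 := Classical.byContradiction fun h => c907 h; have u1 : p218 := Classical.byContradiction fun h => c288 n2 h; have u2 : ¬p219 := fun h => c289 n2 h n0; have u3 : p225 := Classical.byContradiction fun h => c297 n1 u1 h; c912 u2 u3 u0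
  have c1482 : p274 → ¬p72 → ¬p344 → p1 → ¬p16 → p339 → ¬p227 → ¬p221 → p329 → p425 → p334 → ¬p126 → ¬p48 → False := fun n0 n1 n2 n3 n4 n5 n6 n7 n8 n9 n10 n11 n12 =>
    have u0 : p132 := Classical.byContradiction fun h => c1291 h; have u1 : p2 := Classical.byContradiction fun h => c0 h; have u2 : p337 := Classical.byContradiction fun h => c879 h n12 u1; have u3 : ¬p345 := fun h => c449 h n2; have u4 : p342 := Classical.byContradiction fun h => c446 n2 u2 n12 h; have u5 : p341 := Classical.byContradiction fun h => c1469 n0 n1 u3 n3 n4 n7 n6 h n8 n9 n10 n11; have u6 : p340 := Classical.byContradiction fun h => c440 u5 h; have u7 : ¬p338 := fun h => c435 u6 h n5; c1481 u7 u4 u0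
  have c1489 : p310 → ¬p221 → ¬p276 → ¬p227 → p279 → ¬p261 → ¬p297 → p0 → False := fun n0 n1 n2 n3 n4 n5 n6 n7 =>
    have u0 : ¬p288 := fun h => c804 h; have u1 : ¬p291 := fun h => c504 n0 h; have u2 : ¬p284 := fun h => c803 n0 h n2 n3 n5; have u3 : ¬p292 := fun h => c387 h u1; have u4 : ¬p285 := fun h => c378 h u2 n3; have u5 : ¬p280 := fun h => c1086 h u2 n4; have u6 : p281 := Classical.byContradiction fun h => c393 n7 h u4 u0 u3 n6; c372 u6 u5 n1
  have c1499 : ¬p343 → ¬p48 → ¬p136 → p34 → p135 → False := fun n0 n1 n2 n3 n4 =>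
    have u0 : p12 := Classical.byContradiction fun h => c12 h; have u1 : p3 := Classical.byContradiction fun h => c1 h; have u2 : p2 := Classical.byContradiction fun h => c0 h; have u3 : p286 := Classical.byContradiction fun h => c865 h n3 u0 u1; have u4 : p337 := Classical.byContradiction fun h => c879 h n1 u2; have u5 : ¬p169 := fun h => c738 n0 h; have u6 : ¬p339 := fun h => c1210 n0 h n2; have u7 : p167 := Classical.byContradiction fun h => c200 h u5; have u8 : p340 := Classical.byContradiction fun h => c438 h u4 n1 u6; have u9 : p168 := Classical.byContradiction fun h => c167 u7 h; have u10 : ¬p400 := fun h => c509 u8 h; have u11 : ¬p398 := fun h => c507 u10 u3 n3 h; c1498 u9 u11 n4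
  have c1502 : ¬p235 → ¬p269 → ¬p276 → ¬p265 → p135 → ¬p261 → ¬p227 → False := fun n0 n1 n2 n3 n4 n5 n6 =>
    have u0 : p67 := Classical.byContradiction fun h => c823 h; have u1 : ¬p248 := fun h => c325 h; have u2 : ¬p262 := fun h => c347 h u1 n6; have u3 : ¬p268 := fun h => c1259 h n0 u0; have u4 : ¬p112 := fun h => c1299 h n0 n4 u0; have u5 : ¬p270 := fun h => c359 h u3 n1; have u6 : ¬p264 := fun h => c672 h u4; have u7 : ¬p271 := fun h => c363 h u5; have u8 : ¬p266 := fun h => c350 h u6 n3; have u9 : p267 := Classical.byContradiction fun h => c368 n6 n5 u2 h u7 n2; c356 u9 u8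
  have c1513 : ¬p201 → ¬p205 → False := fun n0 n1 =>
    have u0 : ¬p202 := fun h => c265 h; have u1 : ¬p208 := fun h => c269 h n0; have u2 : ¬p211 := fun h => c276 h n0; have u3 : ¬p215 := fun h => c283 h n0; have u4 : ¬p209 := fun h => c275 h u1; have u5 : ¬p212 := fun h => c282 h u2; have u6 : ¬p216 := fun h => c286 h u3; c287 u0 n1 u4 u5 u6
  have c1514 : ¬p334 → p1 → p94 → p76 → p339 → ¬p419 → ¬p72 → ¬p274 → p34 → False := fun n0 n1 n2 n3 n4 n5 n6 n7 n8 =>
    have u0 : p67 := Classical.byContradiction fun h => c823 h; have u1 : p12 := Classical.byContradiction fun h => c12 h; have u2 : p3 := Classical.byContradiction fun h => c1 h; have u3 : p66 := Classical.byContradiction fun h => c263 h; have u4 : p69 := Classical.byContradiction fun h => c907 h; have u5 : ¬p71 := fun h => c55 h n6; have u6 : ¬p107 := fun h => c85 u5 h; have u7 : p19 := Classical.byContradiction fun h => c1494 n7 n3 n8 h u6 u4 u3 u1; have u8 : p417 := Classical.byContradiction fun h => c1511 n0 n3 n2 n4 h n6 u3; have u9 : ¬p13 := fun h => c50 h u7;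 have u10 : ¬p16 := fun h => c250 u9 h; have u11 : ¬p21 := fun h => c1383 u10 h u3; have u12 : p17 := Classical.byContradiction fun h => c15 n1 u10 h; have u13 : ¬p24 := fun h => c251 u11 h; have u14 : ¬p230 := fun h => c538 n5 h u12 u8; have u15 : p25 := Classical.byContradiction fun h => c20 n1 u13 h; c1244 u5 u15 u14 u0 u1 u2
  have c1518 : ¬p334 → ¬p72 → p339 → p230 → ¬p417 → p1 → p235 → False := fun n0 n1 n2 n3 n4 n5 n6 =>
    have u0 : ¬p133 := fun h => c1436 h; have u1 : p66 := Classical.byContradiction fun h => c263 h; have u2 : p237 := Classical.byContradiction fun h => c1201 n5 n3 n6 h; have u3 : ¬p301 := fun h => c535 h u2; have u4 : p300 := Classical.byContradiction fun h => c1238 h u3; have u5 : ¬p183 := fun h => c1515 n0 n1 h u4 u1; have u6 : p167 := Classical.byContradiction fun h => c203 h u5; c1517 u6 n4 n6 n2 u0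
  have c1522 : ¬p334 → ¬p419 → ¬p261 → ¬p227 → ¬p16 → ¬p269 → p136 → ¬p265 → ¬p72 → p1 → p339 → ¬p274 → False := fun n0 n1 n2 n3 n4 n5 n6 n7 n8 n9 n10 n11 =>
    have u0 : p67 := Classical.byContradiction fun h => c823 h; have u1 : p131 := Classical.byContradiction fun h => c264 h; have u2 : p12 := Classical.byContradiction fun h => c12 h; have u3 : p3 := Classical.byContradiction fun h => c1 h; have u4 : p66 := Classical.byContradiction fun h => c263 h; have u5 : ¬p248 := fun h => c325 h; have u6 : ¬p71 := fun h => c55 h n8; have u7 : ¬p262 := fun h => c347 h u5 n3; have u8 : ¬p21 := fun h => c1383 n4 h u4; have u9 : ¬p275 := fun h => c1377 h n11 n4; have u10 : p17 := Classical.byContradiction fun h => c15 n9 n4 h; have u11 : ¬p24 := fun h => c251 u8 h; have u12 : ¬p276 := fun h => c367 h u9; have u13 : p25 := Classical.byContradiction fun h => c20 n9 u11 h; have u14 : p230 := Classical.byContradiction fun h => c1244 u6 u13 h u0 u2 u3; have u15 : ¬p417 := fun h => c538 n1 u14 u10 h; have u16 : ¬p235 := fun h => c1518 n0 n8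 n10 u14 u15 n9 h; have u17 : ¬p268 := fun h => c1259 h u16 u0; have u18 : ¬p270 := fun h => c359 h u17 n5; have u19 : ¬p271 := fun h => c363 h u18; have u20 : p267 := Classical.byContradiction fun h => c368 n3 n2 u7 h u19 u12; have u21 : p266 := Classical.byContradiction fun h => c356 u20 h; have u22 : p264 := Classical.byContradiction fun h => c350 u21 h n7; c1521 u22 u16 n6 u0 u1
  have c1525 : ¬p230 → ¬p229 → ¬p221 → False := fun n0 n1 n2 =>
    have u0 : ¬p237 := fun h => c308 h n0; have u1 : p238 := Classical.byContradiction fun h => c1205 n0 n1 n2 h; c316 u1 u0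
  have c1526 : ¬p419 → ¬p334 → ¬p72 → p136 → p1 → p230 → p339 → ¬p33 → ¬p265 → ¬p227 → ¬p261 → ¬p269 → ¬p274 → False := fun n0 n1 n2 n3 n4 n5 n6 n7 n8 n9 n10 n11 n12 =>
    have u0 : p131 := Classical.byContradiction fun h => c264 h; have u1 : p16 := Classical.byContradiction fun h => c1522 n1 n0 n10 n9 h n11 n3 n8 n2 n4 n6 n12; have u2 : p13 := Classical.byContradiction fun h => c250 h u1; have u3 : p14 := Classical.byContradiction fun h => c47 n4 u2 h; have u4 : p235 := Classical.byContradiction fun h => c1523 n7 n3 u3 h u0; have u5 : ¬p417 := fun h => c536 n0 n5 u3 h; c1518 n1 n2 n6 n5 u5 n4 u4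
  have c1527 : ¬p419 → ¬p72 → p235 → p230 → p339 → p1 → ¬p334 → False := fun n0 n1 n2 n3 n4 n5 n6 =>
    have u0 : p237 := Classical.byContradiction fun h => c1201 n5 n3 n2 h; have u1 : p417 := Classical.byContradiction fun h => c1518 n6 n1 n4 n3 h n5 n2; have u2 : ¬p17 := fun h => c538 n0 n3 h u1; have u3 : ¬p14 := fun h => c536 n0 n3 h u1; c309 u0 u3 u2
  have c1528 : ¬p334 → ¬p72 → ¬p33 → ¬p274 → ¬p261 → p339 → p230 → ¬p227 → p1 → p34 → p201 → False := fun n0 n1 n2 n3 n4 n5 n6 n7 n8 n9 n10 =>
    have u0 : p67 := Classical.byContradiction fun h => c823 h; have u1 : ¬p4 := fun h => c2 h; have u2 : p131 := Classical.byContradiction fun h => c264 h; have u3 : p66 := Classical.byContradiction fun h => c263 h; have u4 : ¬p71 := fun h => c55 h n1; have u5 : ¬p329 := fun h => c1496 n0 n1 h u3; have u6 : ¬p96 := fun h => c662 u5 h; have u7 : p121 := Classical.byContradiction fun h => c1378 u5 h u4; have u8 : p330 := Classical.byContradiction fun h => c1006 u5 h n10; have u9 : p92 := Classical.byContradiction fun h => c186 h u6; have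 u10 : ¬p123 := fun h => c101 u7 h; have u11 : ¬p419 := fun h => c540 u8 h; have u12 : p89 := Classical.byContradiction fun h => c654 h u9; have u13 : ¬p265 := fun h => c909 h u10 n5; have u14 : p94 := Classical.byContradiction fun h => c71 u12 h; have u15 : ¬p76 := fun h => c1514 n0 n8 u14 h n5 u11 n1 n3 n9; have u16 : p74 := Classical.byContradiction fun h => c112 h u15; have u17 : p82 := Classical.byContradiction fun h => c1519 h u16 u2; have u18 : ¬p84 := fun h => c64 u17 h; have u19 : ¬p236 := fun h => c649 h u18; have u20 : ¬p269 := fun h => c1275 u4 h u19 u0; have u21 : ¬p136 := fun h => c1526 u11 n0 n1 h n8 n6 n5 n2 u13 n7 n4 u20 n3; have u22 : p134 := Classical.byContradiction fun h => c162 h u21; have u23 : p135 := Classical.byContradiction fun h => c124 u22 h; have u24 : ¬p235 := fun h => c1527 u11 n1 h n6 n5 n8 n0; have u25 : p276 := Classical.byContradiction fun h => c1502 u24 u20 h u13 u23 n4 n7; have u26 : p275 := Classical.byContradiction fun h => c367 u25 h; have u27 : p16 := Classical.byContradiction fun h =>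 c1377 u26 n3 h; have u28 : p273 := Classical.byContradiction fun h => c365 u26 h n3; have u29 : p20 := Classical.byContradiction fun h => c48 u27 h; have u30 : ¬p219 := fun h => c1303 u28 n2 h n1 u23 u24 u0 u1; c600 u30 u29
  have c1529 : ¬p33 → ¬p136 → p16 → ¬p235 → ¬p227 → ¬p261 → ¬p274 → p135 → ¬p72 → p34 → False := fun n0 n1 n2 n3 n4 n5 n6 n7 n8 n9 =>
    have u0 : p67 := Classical.byContradiction fun h => c823 h; have u1 : p66 := Classical.byContradiction fun h => c263 h; have u2 : ¬p4 := fun h => c2 h; have u3 : ¬p71 := fun h => c55 h n8; have u4 : ¬p107 := fun h => c85 u3 h; have u5 : ¬p17 := fun h => c46 n2 h; have u6 : p20 := Classical.byContradiction fun h => c48 n2 h; have u7 : ¬p415 := fun h => c597 h u5; have u8 : p219 := Classical.byContradiction fun h => c600 h u6; have u9 : ¬p232 := fun h => c1356 h n9 u7; have u10 : ¬p273 := fun h => c1303 h n0 u8 n8 n7 n3 u0 u2; have u11 : ¬p265 := fun h => c1068 u3 h u9 u0; have u12 : ¬p275 := fun h => c365 h u10 n6; have u13 : ¬p84 := fun h => c1050 h u11 n1 u4 u1; have u14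 : ¬p276 := fun h => c367 h u12; have u15 : ¬p236 := fun h => c649 h u13; have u16 : p269 := Classical.byContradiction fun h => c1502 n3 h u14 u11 n7 n5 n4; c1275 u3 u16 u15 u0
  have c1530 : ¬p71 → ¬p265 → ¬p276 → p135 → ¬p261 → ¬p235 → ¬p227 → ¬p136 → False := fun n0 n1 n2 n3 n4 n5 n6 n7 =>
    have u0 : p67 := Classical.byContradiction fun h => c823 h; have u1 : p66 := Classical.byContradiction fun h => c263 h; have u2 : ¬p107 := fun h => c85 n0 h; have u3 : ¬p84 := fun h => c1050 h n1 n7 u2 u1; have u4 : p269 := Classical.byContradiction fun h => c1502 n5 h n2 n1 n3 n4 n6; have u5 : ¬p236 := fun h => c649 h u3; c1275 n0 u4 u5 u0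
  have c1533 : ¬p336 → ¬p48 → ¬p344 → p324 → ¬p332 → p1 → p339 → p325 → ¬p194 → False := fun n0 n1 n2 n3 n4 n5 n6 n7 n8 =>
    have u0 : p132 := Classical.byContradiction fun h => c1291 h; have u1 : p2 := Classical.byContradiction fun h => c0 h; have u2 : p337 := Classical.byContradiction fun h => c879 h n1 u1; have u3 : ¬p345 := fun h => c449 h n2; have u4 : p342 := Classical.byContradiction fun h => c446 n2 u2 n1 h; have u5 : p341 := Classical.byContradiction fun h => c1155 n5 h u3 n4 n7 n3 n8 n0; have u6 : p338 := Classical.byContradiction fun h => c1481 h u4 u0; have u7 : p340 := Classical.byContradiction fun h => c440 u5 h; c435 u7 u6 n6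
  have c1577 : p315 → ¬p20 → ¬p143 → p289 → ¬p87 → p328 → p325 → ¬p408 → ¬p136 → p34 → False := fun n0 n1 n2 n3 n4 n5 n6 n7 n8 n9 =>
    have u0 : p12 := Classical.byContradiction fun h => c12 h; c1576 n0 n1 n2 n3 n4 n5 n6 n7 n8 n9 u0
  have c1579 : ¬p305 → ¬p87 → ¬p20 → p34 → ¬p136 → ¬p330 → ¬p221 → p0 → p325 → ¬p301 → ¬p72 → p226 → p1 → ¬p30 → p339 → p324 → ¬p194 → ¬p48 → ¬p227 → p334 → p327 → False := fun n0 n1 n2 n3 n4 n5 n6 n7 n8 n9 n10 n11 n12 n13 n14 n15 n16 n17 n18 n19 n20 =>
    have u0 : p12 := Classical.byContradiction fun h => c12 h; have u1 : p3 := Classical.byContradiction fun h => c1 h; have u2 : p286 := Classical.byContradiction fun h => c865 h n3 u0 u1; have u3 : p41 := Classical.byContradiction fun h => c1091 n3 h n4; have u4 : p307 := Classical.byContradiction fun h => c1139 h u2 n4; have u5 : p343 := Classical.byContradiction fun h => c1210 h n14 n4; have u6 : ¬p39 := fun h => c143 h u3; have u7 : ¬p332 := fun h => c425 h n5 n6; have u8 : p328 := Classical.byContradiction fun h => c423 n5 n20 h; have u9 :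 p333 := Classical.byContradiction fun h => c1041 n10 h u8; have u10 : ¬p335 := fun h => c428 h u9 n19; have u11 : ¬p336 := fun h => c431 h u10 n18; have u12 : p344 := Classical.byContradiction fun h => c1533 u11 n17 h n15 u7 n12 n14 n8 n16; have u13 : ¬p409 := fun h => c522 u12 h; have u14 : p289 := Classical.byContradiction fun h => c1474 u12 h n4 u5 n12 u4; have u15 : ¬p342 := fun h => c443 u12 h u5; have u16 : ¬p408 := fun h => c521 u13 u4 u3 h; have u17 : p291 := Classical.byContradiction fun h => c385 h u2 n3 u14; have u18 : p309 := Classical.byContradiction fun h => c1082 h n12 u14 n13 u4 u6; have u19 : ¬p165 := fun h => c735 u15 h; have u20 : ¬p310 := fun h => c504 h u17; have u21 : ¬p164 := fun h => c165 h u19; have u22 : ¬p311 := fun h => c405 h u20; have u23 : p166 := Classical.byContradiction fun h => c202 u21 h; have u24 : p318 := Classical.byContradiction fun h => c1223 n10 u22 h n9 n7 n0 n6 n11; have u25 : p144 := Classical.byContradiction fun h => c1536 u23 h u18; have u26 : p317 := Classical.byContradiction fun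 h => c412 u24 h; have u27 : ¬p142 := fun h => c130 h u25; have u28 : ¬p143 := fun h => c194 u27 h; have u29 : ¬p315 := fun h => c1577 h n2 u28 u14 n1 u8 n8 u16 n4 n3; have u30 : p316 := Classical.byContradiction fun h => c409 u26 u29 h; c1578 u30 u16 u14 u28 n1 u8 n8
  have c1585 : ¬p328 → p145 → p278 → False := fun n0 n1 n2 =>
    c1584 n0 n1 n2
  have c1586 : p330 → ¬p48 → ¬p136 → ¬p294 → p0 → p232 → p1 → p329 → p307 → ¬p281 → p425 → ¬p79 → p278 → p17 → p230 → ¬p285 → False := fun n0 n1 n2 n3 n4 n5 n6 n7 n8 n9 n10 n11 n12 n13 n14 n15 =>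
    have u0 : ¬p290 := fun h => c1467 h; have u1 : ¬p288 := fun h => c804 h; have u2 : p429 := Classical.byContradiction fun h => c1012 h; have u3 : p69 := Classical.byContradiction fun h => c907 h; have u4 : p2 := Classical.byContradiction fun h => c0 h; have u5 : ¬p430 := fun h => c566 n6 h; have u6 : p337 := Classical.byContradiction fun h => c879 h n1 u4; have u7 : ¬p419 := fun h => c540 n0 h; have u8 : ¬p328 := fun h => c422 n0 h n7; have u9 : ¬p418 := fun h => c539 u7 n14 n13 h; have u10 : ¬p145 := fun h => c1585 u8 h n12; have u11 : ¬p139 := fun h => c131 h u10; have u12 : ¬p140 := fun h => c196 u11 h; have u13 : p141 := Classical.byContradiction fun h => c197 u11 h; have u14 : ¬p295 := fun h => c1449 h n5 u9 u11 n10 u5 n11 u2 u3; have u15 : ¬p143 := fun h => c709 u12 h; have u16 : p408 := Classical.byContradiction fun h => c1199 u13 h n2; have u17 : ¬p296 := fun h => c389 h n3 u14; have u18 : p409 := Classical.byContradiction fun h => c1061 u16 h n6 n8; have u19 : ¬p297 := fun h => c392 h u17; have u20 : ¬p344 := fun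 h => c522 h u18; have u21 : p292 := Classical.byContradiction fun h => c393 n4 n9 n15 u1 h u19; have u22 : p342 := Classical.byContradiction fun h => c446 u20 u6 n1 h; have u23 : p291 := Classical.byContradiction fun h => c387 u21 h; have u24 : ¬p289 := fun h => c1045 u15 h u22; c383 u23 u24 u0
  have c1587 : ¬p72 → p339 → p34 → p1 → ¬p235 → ¬p30 → ¬p136 → p279 → p230 → p307 → ¬p39 → p425 → ¬p261 → ¬p274 → p263 → ¬p227 → p135 → p334 → ¬p33 → False := fun n0 n1 n2 n3 n4 n5 n6 n7 n8 n9 n10 n11 n12 n13 n14 n15 n16 n17 n18 =>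
    have u0 : p66 := Classical.byContradiction fun h => c263 h; have u1 : p137 := Classical.byContradiction fun h => c889 h; have u2 : p429 := Classical.byContradiction fun h => c1012 h; have u3 : p12 := Classical.byContradiction fun h => c12 h; have u4 : p3 := Classical.byContradiction fun h => c1 h; have u5 : p69 := Classical.byContradiction fun h => c907 h; have u6 : p67 := Classical.byContradiction fun h => c823 h; have u7 : ¬p192 := fun h => c256 h; have u8 : ¬p430 := fun h => c566 n3 h; have u9 : p277 := Classical.byContradiction fun h => c1277 h n2 u7 u3 u4; have u10 : ¬p294 := fun h => c1397 h n18 u7; have u11 : ¬p71 := fun h => c55 h n0; have u12 : p343 := Classical.byContradiction fun h => c1210 h n1 n6; have u13 : ¬p16 := fun h => c1529 n18 n6 h n4 n15 n12 n13 n16 n0 n2; have u14 : ¬p20 := fun h => c17 u13 h; have u15 : ¬p13 := fun h => c594 u13 h; have u16 : ¬p21 := fun h => c1383 u13 h u0; have u17 : ¬p275 := fun h => c1377 h n13 u13; have u18 : p17 := Classical.byContradiction fun h => c15 n3 u13 h; have u19 :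 p19 := Classical.byContradiction fun h => c16 u15 h; have u20 : ¬p24 := fun h => c251 u16 h; have u21 : ¬p276 := fun h => c367 h u17; have u22 : p220 := Classical.byContradiction fun h => c601 u19 h; have u23 : ¬p27 := fun h => c21 u20 h; have u24 : p0 := Classical.byContradiction fun h => c1241 h u21 n15 n12; have u25 : p265 := Classical.byContradiction fun h => c1530 u11 h u21 n16 n12 n4 n15 n6; have u26 : p226 := Classical.byContradiction fun h => c950 h u22 n0 u0; have u27 : ¬p221 := fun h => c1479 u22 n15 h; have u28 : p47 := Classical.byContradiction fun h => c1058 u8 u23 h n11; have u29 : p232 := Classical.byContradiction fun h => c1068 u11 u25 h u6; have u30 : p266 := Classical.byContradiction fun h => c1294 u25 n3 h n14; have u31 : p123 := Classical.byContradiction fun h => c909 u25 h n1; have u32 : p46 := Classical.byContradiction fun h => c178 h u28; have u33 : p76 := Classical.byContradiction fun h => c640 u29 h; have u34 : ¬p284 := fun h => c550 h u30; have u35 : ¬p121 := fun h => c101 h u31; have u36 : ¬p194 :=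 fun h => c258 h u32; have u37 : ¬p48 := fun h => c33 n3 u32 h; have u38 : ¬p74 := fun h => c58 h u33; have u39 : ¬p285 := fun h => c378 h u34 n15; have u40 : p282 := Classical.byContradiction fun h => c375 u34 u9 h; have u41 : ¬p280 := fun h => c1086 h u34 n7; have u42 : ¬p126 := fun h => c193 u35 h; have u43 : p329 := Classical.byContradiction fun h => c1378 h u35 u11; have u44 : p324 := Classical.byContradiction fun h => c1156 h u28 u36; have u45 : ¬p79 := fun h => c115 u38 h; have u46 : p278 := Classical.byContradiction fun h => c1085 h u40 u5; have u47 : ¬p281 := fun h => c372 h u41 u27; have u48 : p325 := Classical.byContradiction fun h => c1162 h u8 u42 n11 u2; have u49 : p327 := Classical.byContradiction fun h => c1039 h u37 u42 n11 u8 u2 u3 u4; have u50 : p299 := Classical.byContradiction fun h => c1099 h u46 u1; have u51 : p303 := Classical.byContradiction fun h => c1095 h n0 u50; have u52 : ¬p330 := fun h => c1586 h u37 n6 u10 u24 u29 n3 u43 n9 u47 n11 u45 u46 u18 n8 u39; have u53 : ¬p332 := fun h => c425 h u52 u27;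 have u54 : p328 := Classical.byContradiction fun h => c423 u52 u49 h; have u55 : p333 := Classical.byContradiction fun h => c1041 n0 h u54; have u56 : ¬p335 := fun h => c428 h u55 n17; have u57 : ¬p336 := fun h => c431 h u56 n15; have u58 : p344 := Classical.byContradiction fun h => c1533 u57 u37 h u44 u53 n3 n1 u48 u36; have u59 : p289 := Classical.byContradiction fun h => c1474 u58 h n6 u12 n3 n9; have u60 : p309 := Classical.byContradiction fun h => c1082 h n3 u59 n5 n9 n10; have u61 : p84 := Classical.byContradiction fun h => c1080 u29 h u60; have u62 : ¬p82 := fun h => c64 h u61; have u63 : ¬p87 := fun h => c154 u62 h; have u64 : ¬p85 := fun h => c646 u62 h; have u65 : p88 := Classical.byContradiction fun h => c153 u64 h; have u66 : p300 := Classical.byContradiction fun h => c653 h u65; have u67 : p304 := Classical.byContradiction fun h => c1215 h n0 u66 u0; have u68 : ¬p301 := fun h => c394 h u50 u66; have u69 : ¬p305 := fun h => c398 h u51 u67; c1579 u69 u63 u14 n2 n6 u52 u27 u24 u48 u68 n0 u26 n3 n5 n1 u44 u36 u37 n15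 n17 u49
  have c1589 : ¬p71 → ¬p227 → p221 → False := fun n0 n1 n2 =>
    have u0 : p69 := Classical.byContradiction fun h => c907 h; have u1 : p218 := Classical.byContradiction fun h => c288 n2 h; have u2 : ¬p220 := fun h => c1479 h n1 n2; have u3 : p226 := Classical.byContradiction fun h => c298 n1 u1 h; c1588 n0 u3 u2 u0
  have c1592 : ¬p48 → ¬p342 → ¬p344 → False := fun n0 n1 n2 =>
    have u0 : p2 := Classical.byContradiction fun h => c0 h; have u1 : p337 := Classical.byContradiction fun h => c879 h n0 u0; c446 n2 u1 n0 n1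
  have c1593 : p289 → ¬p85 → p74 → ¬p71 → ¬p84 → False := fun n0 n1 n2 n3 n4 =>
    have u0 : p67 := Classical.byContradiction fun h => c823 h; have u1 : ¬p110 := fun h => c1023 n3 n0 n2 h n4 n1 u0; have u2 : ¬p109 := fun h => c1021 h n0 n1 n4 u0; have u3 : p108 := Classical.byContradiction fun h => c118 h u1; c89 u3 u2
  have c1614 : ¬p207 → p215 → ¬p208 → p201 → False := fun n0 n1 n2 n3 =>
    have u0 : p198 := Classical.byContradiction fun h => c273 n2 n3 h n0; have u1 : p197 := Classical.byContradiction fun h => c271 n2 n3 h n0; have u2 : p214 := Classical.byContradiction fun h => c764 h u0; have u3 : p213 := Classical.byContradiction fun h => c763 u1 h; c284 n1 u3 u2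
  have c1635 : ¬p62 → p155 → p289 → p307 → p1 → ¬p136 → False := fun n0 n1 n2 n3 n4 n5 =>
    have u0 : ¬p153 := fun h => c138 h n1; have u1 : p412 := Classical.byContradiction fun h => c1141 n1 h n5; have u2 : ¬p154 := fun h => c238 u0 h; have u3 : p413 := Classical.byContradiction fun h => c1423 u1 h n3 n4; have u4 : ¬p389 := fun h => c1405 u2 h n2; have u5 : ¬p391 := fun h => c531 h u3; c1407 n0 u4 u5
  have c1637 : ¬p449 → ¬p451 → False := fun n0 n1 =>
    have u0 : p12 := Classical.byContradiction fun h => c12 h; have u1 : p3 := Classical.byContradiction fun h => c1 h; have u2 : p447 := Classical.byContradiction fun h => c579 h n1 n0; c1636 n1 u2 u0 u1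
  have c1641 : ¬p443 → p201 → False := fun n0 n1 =>
    have u0 : p441 := Classical.byContradiction fun h => c574 h n0; c1640 n0 u0 n1
  have c1643 : p316 → ¬p156 → p289 → p34 → p443 → p309 → ¬p452 → ¬p88 → ¬p155 → False := fun n0 n1 n2 n3 n4 n5 n6 n7 n8 =>
    have u0 : p446 := Classical.byContradiction fun h => c830 h; have u1 : ¬p157 := fun h => c236 n1 h; have u2 : p153 := Classical.byContradiction fun h => c239 h n8; have u3 : ¬p449 := fun h => c1623 n0 h n4 n7 n2 n8 n1 n5 n6 u0; have u4 : p451 := Classical.byContradiction fun h => c1637 u3 h; c1642 n0 u1 u4 n7 u2 n5 n4 n3 n6 u0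
  have c1646 : ¬p71 → ¬p238 → ¬p227 → ¬p205 → ¬p230 → False := fun n0 n1 n2 n3 n4 =>
    have u0 : ¬p229 := fun h => c300 h n3 n2; have u1 : ¬p221 := fun h => c1589 n0 n2 h; c1205 n4 u0 u1 n1
  have c1648 : ¬p72 → ¬p33 → ¬p230 → ¬p238 → ¬p205 → p225 → p14 → False := fun n0 n1 n2 n3 n4 n5 n6 =>
    have u0 : ¬p71 := fun h => c55 h n0; have u1 : p201 := Classical.byContradiction fun h => c1513 h n4; have u2 : p227 := Classical.byContradiction fun h => c1646 u0 n3 h n4 n2; have u3 : ¬p226 := fun h => c296 u2 n5 h; have u4 : p221 := Classical.byContradiction fun h => c1283 u3 n0 h; have u5 : p206 := Classical.byContradiction fun h => c1224 h n4 u4; c1647 n2 n1 n6 u1 u5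
  have c1650 : ¬p33 → p135 → p20 → ¬p72 → p1 → ¬p205 → p34 → False := fun n0 n1 n2 n3 n4 n5 n6 =>
    have u0 : ¬p138 := fun h => c902 h; have u1 : ¬p192 := fun h => c256 h; have u2 : p12 := Classical.byContradiction fun h => c12 h; have u3 : p16 := Classical.byContradiction fun h => c17 h n2; have u4 : p219 := Classical.byContradiction fun h => c600 h n2; have u5 : p13 := Classical.byContradiction fun h => c250 h u3; have u6 : p225 := Classical.byContradiction fun h => c895 n3 h u4; have u7 : ¬p19 := fun h => c50 u5 h; have u8 : p14 := Classical.byContradiction fun h => c47 n4 u5 h; have u9 : ¬p300 := fun h => c1596 n6 h u7 u0 u1 u2; have u10 : p301 := Classical.byContradiction fun h => c1238 u9 h; have u11 : ¬p237 := fun h => c535 u10 h; have u12 : ¬p238 := fun h => c316 h u11; have u13 : p230 := Classical.byContradiction fun h => c1648 n3 n0 h u12 n5 u6 u8; have u14 : ¬p235 := fun h => c1201 n4 u13 h u11; have u15 : ¬p231 := fun h => c1280 h u14 n1; c1649 n0 u15 u8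
  have c1652 : p155 → p1 → p34 → p289 → ¬p20 → p307 → ¬p33 → ¬p136 → False := fun n0 n1 n2 n3 n4 n5 n6 n7 =>
    have u0 : ¬p452 := fun h => c581 n1 h; have u1 : ¬p153 := fun h => c138 h n0; have u2 : p62 := Classical.byContradiction fun h => c1635 h n0 n3 n5 n1 n7; have u3 : ¬p154 := fun h => c238 u1 h; have u4 : ¬p60 := fun h => c42 n1 h u2; have u5 : ¬p451 := fun h => c1417 n0 h n6 n1 n4 u0 n3 u3 n2; have u6 : p449 := Classical.byContradiction fun h => c1637 h u5; c1651 u6 u4 n6 n3 u5
  have c1654 : p316 → ¬p177 → ¬p88 → ¬p158 → p449 → p309 → p443 → ¬p452 → False := fun n0 n1 n2 n3 n4 n5 n6 n7 =>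
    have u0 : p446 := Classical.byContradiction fun h => c830 h; c1653 n0 n1 n2 n3 n4 n5 n6 n7 u0
  have c1655 : p316 → ¬p452 → ¬p88 → p289 → p34 → p443 → p309 → ¬p136 → ¬p155 → False := fun n0 n1 n2 n3 n4 n5 n6 n7 n8 =>
    have u0 : p12 := Classical.byContradiction fun h => c12 h; have u1 : p3 := Classical.byContradiction fun h => c1 h; have u2 : p286 := Classical.byContradiction fun h => c865 h n4 u0 u1; have u3 : p156 := Classical.byContradiction fun h => c1643 n0 h n3 n4 n5 n6 n1 n2 n8; have u4 : ¬p158 := fun h => c140 u3 h; have u5 : ¬p176 := fun h => c1145 h u4 n6; have u6 : p174 := Classical.byContradiction fun h => c245 h u5; have u7 : ¬p62 := fun h => c1266 u5 h n4 n7; have u8 : p175 := Classical.byContradiction fun h => c172 u6 h; have u9 : p384 := Classical.byContradiction fun h => c1114 u7 h u0 u1; have u10 : p404 := Classical.byContradiction fun h => c1568 h u8 n3; have u11 : p406 := Classical.byContradiction fun h => c515 h u2 n4 u10; have u12 : ¬p387 := fun h => c517 h u11; have u13 : p386 := Classical.byContradiction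 fun h => c490 u12 u9 u7 h; have u14 : p179 := Classical.byContradiction fun h => c1546 h u13 n7; have u15 : ¬p177 := fun h => c175 h u14; have u16 : ¬p449 := fun h => c1654 n0 u15 n2 u4 h n6 n5 n1; have u17 : ¬p451 := fun h => c1267 u16 u5 n4 n7 h; c1637 u16 u17
  have c1661 : p316 → ¬p71 → p425 → ¬p48 → p1 → p82 → p289 → p307 → p426 → ¬p85 → p309 → False := fun n0 n1 n2 n3 n4 n5 n6 n7 n8 n9 n10 =>
    have u0 : p429 := Classical.byContradiction fun h => c1012 h; have u1 : p69 := Classical.byContradiction fun h => c907 h; have u2 : p66 := Classical.byContradiction fun h => c263 h; have u3 : p67 := Classical.byContradiction fun h => c823 h; have u4 : ¬p430 := fun h => c566 n4 h; have u5 : ¬p107 := fun h => c85 n1 h; have u6 : ¬p161 := fun h => c152 n9 h; have u7 : ¬p84 := fun h => c64 n5 h; have u8 : ¬p232 := fun h => c1080 h u7 n10; have u9 : ¬p109 := fun h => c1021 h n6 n9 u7 u3; have u10 : ¬p74 := fun h => c1593 n6 n9 h n1 u7; have u11 : ¬p265 := fun h => c1068 n1 h u8 u3; have u12 : ¬p108 := fun h => c89 h u9; have u13 :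 p76 := Classical.byContradiction fun h => c112 u10 h; have u14 : p110 := Classical.byContradiction fun h => c118 u12 h; have u15 : p241 := Classical.byContradiction fun h => c1656 n0 u13 h n10 n5 u6; have u16 : p274 := Classical.byContradiction fun h => c1538 u15 h u5 u1 u2; have u17 : p123 := Classical.byContradiction fun h => c1017 u16 u4 n8 h u0; have u18 : p142 := Classical.byContradiction fun h => c1047 u16 n4 n6 n9 u7 n2 n7 h u14 n3 n1; have u19 : ¬p121 := fun h => c101 h u17; have u20 : ¬p144 := fun h => c130 u18 h; c1048 u16 u4 u11 u20 n2 u19 u0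
  have c1663 : p316 → ¬p339 → p289 → ¬p87 → p309 → p425 → ¬p430 → p34 → ¬p48 → False := fun n0 n1 n2 n3 n4 n5 n6 n7 n8 =>
    have u0 : p429 := Classical.byContradiction fun h => c1012 h; have u1 : p69 := Classical.byContradiction fun h => c907 h; have u2 : p12 := Classical.byContradiction fun h => c12 h; have u3 : p3 := Classical.byContradiction fun h => c1 h; have u4 : p2 := Classical.byContradiction fun h => c0 h; have u5 : p286 := Classical.byContradiction fun h => c865 h n7 u2 u3; have u6 : p337 := Classical.byContradiction fun h => c879 h n8 u4; have u7 : ¬p144 := fun h => c713 n1 h; have u8 : p340 := Classical.byContradiction fun h => c438 h u6 n8 n1; have u9 : p142 := Classical.byContradiction fun h => c195 h u7; have u10 : ¬p400 := fun h => c509 u8 h; have u11 : ¬p398 := fun h => c507 u10 u5 n7 h; c1662 n0 u11 n2 n3 u9 n4 n5 n6 u0 u1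
  have c1664 : p316 → ¬p72 → p34 → p324 → p289 → ¬p136 → p1 → ¬p30 → ¬p20 → p226 → ¬p48 → p307 → ¬p294 → p425 → p17 → p230 → ¬p194 → p309 → ¬p247 → p426 → p443 → ¬p155 → False := fun n0 n1 n2 n3 n4 n5 n6 n7 n8 n9 n10 n11 n12 n13 n14 n15 n16 n17 n18 n19 n20 n21 =>
    have u0 : p66 := Classical.byContradiction fun h => c263 h; have u1 : p429 := Classical.byContradiction fun h => c1012 h; have u2 : p12 := Classical.byContradiction fun h => c12 h; have u3 : p3 := Classical.byContradiction fun h => c1 h; have u4 : p137 := Classical.byContradiction fun h => c889 h; have u5 : p69 := Classical.byContradiction fun h => c907 h; have u6 : p67 := Classical.byContradiction fun h => c823 h; have u7 : p131 := Classical.byContradiction fun h => c264 h; have u8 : ¬p192 := fun h => c256 h; have u9 : ¬p430 := fun h => c566 n6 h; have u10 : ¬p452 := fun h => c581 n6 h; have u11 : p277 := Classical.byContradiction fun h => c1277 h n2 u8 u2 u3; have u12 : ¬p71 := fun h => c55 h n1; have u13 : ¬p107 := fun h => c85 u12 h; have u14 : p135 := Classical.byContradiction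 fun h => c699 n4 h; have u15 : p263 := Classical.byContradiction fun h => c1289 h u13 n15 u0; have u16 : p88 := Classical.byContradiction fun h => c1655 n0 u10 h n4 n2 n20 n17 n5 n21; have u17 : ¬p85 := fun h => c67 h u16; have u18 : p300 := Classical.byContradiction fun h => c653 h u16; have u19 : ¬p86 := fun h => c149 u17 h; have u20 : p304 := Classical.byContradiction fun h => c1215 h n1 u18 u0; have u21 : ¬p235 := fun h => c647 u19 h; have u22 : ¬p112 := fun h => c1299 h u21 u14 u6; have u23 : ¬p111 := fun h => c91 h u22; have u24 : p113 := Classical.byContradiction fun h => c120 u23 h; have u25 : p283 := Classical.byContradiction fun h => c678 h u24; have u26 : p279 := Classical.byContradiction fun h => c1285 u12 u25 h u5; have u27 : ¬p82 := fun h => c1661 n0 u12 n13 n10 n6 h n4 n11 n19 u17 n17; have u28 : p84 := Classical.byContradiction fun h => c151 u27 h; have u29 : ¬p87 := fun h => c154 u27 h; have u30 : ¬p74 := fun h => c1519 u27 h u7; have u31 : p265 := Classical.byContradiction fun h => c1050 u28 h n5 u13 u0; have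 u32 : ¬p79 := fun h => c115 u30 h; have u33 : p232 := Classical.byContradiction fun h => c1068 u12 u31 h u6; have u34 : p266 := Classical.byContradiction fun h => c1294 u31 n6 h u15; have u35 : p415 := Classical.byContradiction fun h => c1356 u33 n2 h; have u36 : ¬p284 := fun h => c550 h u34; have u37 : p416 := Classical.byContradiction fun h => c533 h n15 u35; have u38 : p282 := Classical.byContradiction fun h => c375 u36 u11 h; have u39 : ¬p280 := fun h => c1086 h u36 u26; have u40 : ¬p221 := fun h => c534 n6 h u37; have u41 : p278 := Classical.byContradiction fun h => c1085 h u38 u5; have u42 : ¬p261 := fun h => c346 h n18 u40; have u43 : ¬p227 := fun h => c1088 n1 h u40 n9; have u44 : ¬p281 := fun h => c372 h u39 u40; have u45 : p0 := Classical.byContradiction fun h => c1390 h u42 n1 n6 n16 n14 u40 n15 n13 n3 u43; have u46 : p299 := Classical.byContradiction fun h => c1099 h u41 u4; have u47 : ¬p285 := fun h => c378 h u36 u43; have u48 : p303 := Classical.byContradiction fun h => c1095 h n1 u46; have u49 : ¬p301 := fun h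 => c394 h u46 u18; have u50 : ¬p305 := fun h => c398 h u48 u20; have u51 : p339 := Classical.byContradiction fun h => c1663 n0 h n4 u29 n17 n13 u9 n2 n10; have u52 : p123 := Classical.byContradiction fun h => c909 u31 h u51; have u53 : ¬p121 := fun h => c101 h u52; have u54 : ¬p126 := fun h => c193 u53 h; have u55 : p329 := Classical.byContradiction fun h => c1378 h u53 u12; have u56 : p325 := Classical.byContradiction fun h => c1162 h u9 u54 n13 u1; have u57 : p327 := Classical.byContradiction fun h => c1039 h n10 u54 n13 u9 u1 u2 u3; have u58 : p334 := Classical.byContradiction fun h => c1496 h n1 u55 u0; have u59 : ¬p330 := fun h => c1586 h n10 n5 n12 u45 u33 n6 u55 n11 u44 n13 u32 u41 n14 n15 u47; c1579 u50 u29 n8 n2 n5 u59 u40 u45 u56 u49 n1 n9 n6 n7 u51 n3 n16 n10 u43 u58 u57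
  have c1666 : ¬p33 → p300 → ¬p72 → ¬p311 → ¬p316 → p289 → p226 → ¬p87 → p324 → p1 → ¬p194 → p17 → p230 → p425 → ¬p247 → p34 → ¬p136 → False := fun n0 n1 n2 n3 n4 n5 n6 n7 n8 n9 n10 n11 n12 n13 n14 n15 n16 =>
    have u0 : ¬p192 := fun h => c256 h; have u1 : p137 := Classical.byContradiction fun h => c889 h; have u2 : p69 := Classical.byContradiction fun h => c907 h; have u3 : p67 := Classical.byContradiction fun h => c823 h; have u4 : p66 := Classical.byContradiction fun h => c263 h; have u5 : p12 := Classical.byContradiction fun h => c12 h; have u6 : p3 := Classical.byContradiction fun h => c1 h; have u7 : p277 := Classical.byContradiction fun h => c1277 h n15 u0 u5 u6; have u8 : ¬p71 := fun h => c55 h n2; have u9 : ¬p107 := fun h => c85 u8 h; have u10 : p263 := Classical.byContradiction fun h => c1289 h u9 n12 u4; have u11 : p304 := Classical.byContradiction fun h => c1215 h n2 n1 u4; have u12 : ¬p82 := fun h => c66 h n7; have u13 : p84 := Classical.byContradiction fun h => c151 u12 h; have u14 : p265 := Classical.byContradiction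 fun h => c1050 u13 h n16 u9 u4; have u15 : p232 := Classical.byContradiction fun h => c1068 u8 u14 h u3; have u16 : p266 := Classical.byContradiction fun h => c1294 u14 n9 h u10; have u17 : p415 := Classical.byContradiction fun h => c1356 u15 n15 h; have u18 : ¬p284 := fun h => c550 h u16; have u19 : p416 := Classical.byContradiction fun h => c533 h n12 u17; have u20 : p282 := Classical.byContradiction fun h => c375 u18 u7 h; have u21 : ¬p221 := fun h => c534 n9 h u19; have u22 : p278 := Classical.byContradiction fun h => c1085 h u20 u2; have u23 : ¬p261 := fun h => c346 h n14 u21; have u24 : ¬p227 := fun h => c1088 n2 h u21 n6; have u25 : p0 := Classical.byContradiction fun h => c1390 h u23 n2 n9 n10 n11 u21 n12 n13 n8 u24; have u26 : p299 := Classical.byContradiction fun h => c1099 h u22 u1; have u27 : p303 := Classical.byContradiction fun h => c1095 h n2 u26; have u28 : ¬p301 := fun h => c394 h u26 n1; have u29 : ¬p305 := fun h => c398 h u27 u11; have u30 : p318 := Classical.byContradiction fun h => c1223 n2 n3 h u28 u25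 u29 u21 n6; have u31 : p317 := Classical.byContradiction fun h => c412 u30 h; have u32 : p315 := Classical.byContradiction fun h => c409 u31 h n4; c1665 u32 n0 u22 n5 n7 u0
  have c1667 : p274 → p1 → p289 → p425 → ¬p85 → ¬p265 → ¬p84 → p307 → p110 → ¬p48 → ¬p71 → p426 → False := fun n0 n1 n2 n3 n4 n5 n6 n7 n8 n9 n10 n11 =>
    have u0 : p429 := Classical.byContradiction fun h => c1012 h; have u1 : ¬p430 := fun h => c566 n1 h; have u2 : p123 := Classical.byContradiction fun h => c1017 n0 u1 n11 h u0; have u3 : p142 := Classical.byContradiction fun h => c1047 n0 n1 n2 n4 n6 n3 n7 h n8 n9 n10; have u4 : ¬p121 := fun h => c101 h u2; have u5 : ¬p144 := fun h => c130 u3 h; c1048 n0 u1 n5 u5 n3 u4 u0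
  have c1668 : ¬p71 → ¬p276 → p135 → ¬p265 → ¬p235 → ¬p227 → ¬p247 → ¬p136 → False := fun n0 n1 n2 n3 n4 n5 n6 n7 =>
    have u0 : ¬p221 := fun h => c1589 n0 n5 h; have u1 : p261 := Classical.byContradiction fun h => c1530 n0 n3 n1 n2 h n4 n5 n7; c346 u1 n6 u0
  have c1670 : p34 → p88 → p289 → ¬p72 → p1 → ¬p136 → p226 → ¬p247 → ¬p16 → p425 → p230 → p307 → ¬p48 → p426 → p309 → ¬p33 → ¬p316 → ¬p311 → p324 → ¬p194 → False := fun n0 n1 n2 n3 n4 n5 n6 n7 n8 n9 n10 n11 n12 n13 n14 n15 n16 n17 n18 n19 =>
    have u0 : p67 := Classical.byContradiction fun h => c823 h; have u1 : ¬p71 := fun h => c55 h n3; have u2 : p135 := Classical.byContradiction fun h => c699 n2 h; have u3 : p17 := Classical.byContradiction fun h => c15 n4 n8 h; have u4 : ¬p85 := fun h => c67 h n1; have u5 : p300 := Classical.byContradiction fun h => c653 h n1; have u6 : ¬p86 := fun h => c149 u4 h; have u7 : ¬p235 := fun h => c647 u6 h; have u8 : p87 := Classical.byContradiction fun h => c1666 n15 u5 n3 n17 n16 n2 n6 h n18 n4 n19 u3 n10 n9 n7 n0 n5; have u9 : p82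 := Classical.byContradiction fun h => c154 h u8; have u10 : p83 := Classical.byContradiction fun h => c63 u9 h; have u11 : ¬p84 := fun h => c64 u9 h; have u12 : ¬p232 := fun h => c1080 h u11 n14; have u13 : ¬p109 := fun h => c1021 h n2 u4 u11 u0; have u14 : ¬p265 := fun h => c1068 u1 h u12 u0; have u15 : ¬p108 := fun h => c89 h u13; have u16 : p110 := Classical.byContradiction fun h => c118 u15 h; have u17 : ¬p274 := fun h => c1667 h n4 n2 n9 u4 u14 u11 n11 u16 n12 u1 n13; have u18 : ¬p275 := fun h => c1377 h u17 n8; have u19 : ¬p276 := fun h => c367 h u18; have u20 : p227 := Classical.byContradiction fun h => c1668 u1 u19 u2 u14 u7 h n7 n5; have u21 : p221 := Classical.byContradiction fun h => c1088 n3 u20 h n6; have u22 : ¬p416 := fun h => c534 n4 u21 h; have u23 : ¬p415 := fun h => c533 u22 n10 h; c1669 n0 u4 u23 u10 n5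
  have c1672 : p213 → p86 → p221 → ¬p205 → p230 → p1 → False := fun n0 n1 n2 n3 n4 n5 =>
    have u0 : p201 := Classical.byContradiction fun h => c1513 h n3; have u1 : ¬p416 := fun h => c534 n5 n2 h; have u2 : ¬p211 := fun h => c545 h n2; have u3 : p216 := Classical.byContradiction fun h => c886 n3 n2 h; have u4 : ¬p415 := fun h => c533 u1 n4 h; have u5 : p215 := Classical.byContradiction fun h => c286 u3 h; have u6 : ¬p214 := fun h => c284 u5 n0 h; have u7 : ¬p198 := fun h => c764 u6 h; have u8 : p210 := Classical.byContradiction fun h => c279 u2 u0 u7 h; c1671 u6 n1 u8 u4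
  have c1674 : p315 → ¬p32 → ¬p316 → ¬p136 → p289 → False := fun n0 n1 n2 n3 n4 =>
    c1673 n0 n1 n2 n3 n4
  have c1675 : ¬p72 → ¬p311 → ¬p318 → p303 → p0 → ¬p301 → ¬p221 → p226 → False := fun n0 n1 n2 n3 n4 n5 n6 n7 =>
    have u0 : p66 := Classical.byContradiction fun h => c263 h; have u1 : p300 := Classical.byContradiction fun h => c1238 h n5; have u2 : p305 := Classical.byContradiction fun h => c1223 n0 n1 n2 n5 n4 h n6 n7; have u3 : p304 := Classical.byContradiction fun h => c1215 h n0 u1 u0; c398 u2 n3 u3
  have c1676 : p1 → ¬p311 → ¬p32 → p289 → p426 → ¬p72 → ¬p247 → p425 → p309 → p34 → ¬p30 → p443 → False := fun n0 n1 n2 n3 n4 n5 n6 n7 n8 n9 n10 n11 =>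
    have u0 : p66 := Classical.byContradiction fun h => c263 h; have u1 : p67 := Classical.byContradiction fun h => c823 h; have u2 : p429 := Classical.byContradiction fun h => c1012 h; have u3 : p12 := Classical.byContradiction fun h => c12 h; have u4 : p3 := Classical.byContradiction fun h => c1 h; have u5 : ¬p204 := fun h => c938 h; have u6 : ¬p192 := fun h => c256 h; have u7 : ¬p430 := fun h => c566 n0 h; have u8 : p286 := Classical.byContradiction fun h => c865 h n9 u3 u4; have u9 : ¬p33 := fun h => c24 n2 h; have u10 : ¬p294 := fun h => c1397 h u9 u6; have u11 : ¬p71 := fun h => c55 h n5; have u12 : ¬p203 := fun h => c631 n5 h; have u13 : ¬p205 := fun h => c267 h u12 u5; have u14 : p135 := Classical.byContradiction fun h => c699 n3 h; have u15 : p134 := Classical.byContradiction fun h => c161 h u14; have u16 : ¬p136 := fun h => c125 u15 h; have u17 : p307 := Classical.byContradiction fun h => c1139 h u8 u16; have u18 : ¬p20 := fun h => c1650 u9 u14 h n5 n0 u13 n9; have u19 : ¬p16 := fun h => c48 h u18; have u20 : p213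 := Classical.byContradiction fun h => c1615 u18 h u3; have u21 : ¬p13 := fun h => c594 u19 h; have u22 : ¬p21 := fun h => c1383 u19 h u0; have u23 : p17 := Classical.byContradiction fun h => c15 n0 u19 h; have u24 : p19 := Classical.byContradiction fun h => c16 u21 h; have u25 : ¬p24 := fun h => c251 u22 h; have u26 : p220 := Classical.byContradiction fun h => c601 u24 h; have u27 : ¬p27 := fun h => c21 u25 h; have u28 : p25 := Classical.byContradiction fun h => c20 n0 u25 h; have u29 : p226 := Classical.byContradiction fun h => c950 h u26 n5 u0; have u30 : p47 := Classical.byContradiction fun h => c1058 u7 u27 h n7; have u31 : p230 := Classical.byContradiction fun h => c1244 u11 u28 h u1 u3 u4; have u32 : p46 := Classical.byContradiction fun h => c178 h u30; have u33 : ¬p194 := fun h => c258 h u32; have u34 : ¬p48 := fun h => c33 n0 u32 h; have u35 : p324 := Classical.byContradiction fun h => c1156 h u30 u33; have u36 : ¬p155 := fun h => c1652 h n0 n9 n3 u18 u17 u9 u16; have u37 : ¬p316 := fun h => c1664 h n5 n9 u35 n3 u16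 n0 n10 u18 u29 u34 u17 u10 n7 u23 u31 u33 n8 n6 n4 n11 u36; have u38 : ¬p88 := fun h => c1670 n9 h n3 n5 n0 u16 u29 n6 u19 n7 u31 u17 u34 n4 n8 u9 u37 n1 u35 u33; have u39 : p85 := Classical.byContradiction fun h => c153 h u38; have u40 : p86 := Classical.byContradiction fun h => c65 u39 h; have u41 : p82 := Classical.byContradiction fun h => c646 h u39; have u42 : ¬p84 := fun h => c64 u41 h; have u43 : p87 := Classical.byContradiction fun h => c66 u41 h; have u44 : ¬p232 := fun h => c1080 h u42 n8; have u45 : p299 := Classical.byContradiction fun h => c652 h u43; have u46 : p303 := Classical.byContradiction fun h => c794 h u12 u43; have u47 : ¬p265 := fun h => c1068 u11 h u44 u1; have u48 : ¬p221 := fun h => c1672 u20 u40 h u13 u31 n0; have u49 : ¬p261 := fun h => c346 h n6 u48; have u50 : ¬p227 := fun h => c1088 n5 h u48 u29; have u51 : p0 := Classical.byContradiction fun h => c1390 h u49 n5 n0 u33 u23 u48 u31 n7 u35 u50; have u52 : ¬p315 := fun h => c1674 h n2 u37 u16 n3; have u53 : ¬p317 := fun h => c409 h u52 u37; have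 u54 : ¬p318 := fun h => c412 h u53; have u55 : p301 := Classical.byContradiction fun h => c1675 n5 n1 u54 u46 u51 h u48 u29; have u56 : ¬p237 := fun h => c535 u55 h; have u57 : ¬p300 := fun h => c394 u55 u45 h; have u58 : ¬p235 := fun h => c313 u56 u31 u23 h; have u59 : p276 := Classical.byContradiction fun h => c1668 u11 h u14 u47 u58 u50 n6 u16; have u60 : p275 := Classical.byContradiction fun h => c367 u59 h; have u61 : p274 := Classical.byContradiction fun h => c1377 u60 h u19; have u62 : p123 := Classical.byContradiction fun h => c1017 u61 u7 n4 h u2; have u63 : ¬p121 := fun h => c101 h u62; have u64 : p339 := Classical.byContradiction fun h => c1196 u11 u62 h u44 u1; have u65 : p408 := Classical.byContradiction fun h => c1192 u11 u62 u57 h u43 u58 u1; have u66 : ¬p126 := fun h => c193 u63 h; have u67 : p329 := Classical.byContradiction fun h => c1378 h u63 u11; have u68 : p409 := Classical.byContradiction fun h => c1061 u65 h n0 u17; have u69 : p334 := Classical.byContradiction fun h => c1496 h n5 u67 u0; have u70 : ¬p344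 := fun h => c522 h u68; c1482 u61 n5 u70 n0 u19 u64 u50 u48 u67 n7 u69 u66 u34
  have c1677 : p274 → ¬p72 → ¬p48 → p1 → ¬p232 → ¬p16 → ¬p227 → p425 → ¬p221 → ¬p344 → p426 → False := fun n0 n1 n2 n3 n4 n5 n6 n7 n8 n9 n10 =>
    have u0 : p66 := Classical.byContradiction fun h => c263 h; have u1 : p67 := Classical.byContradiction fun h => c823 h; have u2 : p429 := Classical.byContradiction fun h => c1012 h; have u3 : ¬p430 := fun h => c566 n3 h; have u4 : ¬p71 := fun h => c55 h n1; have u5 : p123 := Classical.byContradiction fun h => c1017 n0 u3 n10 h u2; have u6 : ¬p121 := fun h => c101 h u5; have u7 : p339 := Classical.byContradiction fun h => c1196 u4 u5 h n4 u1; have u8 : ¬p126 := fun h => c193 u6 h; have u9 : p329 := Classical.byContradiction fun h => c1378 h u6 u4; have u10 : ¬p334 := fun h => c1482 n0 n1 n9 n3 n5 u7 n6 n8 u9 n7 h u8 n2; c1496 u10 n1 u9 u0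
  have c1679 : ¬p72 → ¬p316 → ¬p221 → ¬p20 → ¬p311 → ¬p289 → p0 → ¬p136 → p226 → p82 → p1 → p230 → ¬p261 → p135 → ¬p344 → p425 → ¬p48 → p426 → p309 → False := fun n0 n1 n2 n3 n4 n5 n6 n7 n8 n9 n10 n11 n12 n13 n14 n15 n16 n17 n18 =>
    have u0 : p12 := Classical.byContradiction fun h => c12 h; have u1 : p67 := Classical.byContradiction fun h => c823 h; have u2 : ¬p71 := fun h => c55 h n0; have u3 : ¬p203 := fun h => c631 n0 h; have u4 : ¬p16 := fun h => c48 h n3; have u5 : p17 := Classical.byContradiction fun h => c15 n10 u4 h; have u6 : ¬p227 := fun h => c1088 n0 h n2 n8; have u7 : ¬p84 := fun h => c64 n9 h; have u8 : p87 := Classical.byContradiction fun h => c66 n9 h; have u9 : ¬p232 := fun h => c1080 h u7 n18; have u10 : p303 := Classical.byContradiction fun h => c794 h u3 u8; have u11 : ¬p265 := fun h => c1068 u2 h u9 u1; have u12 : ¬p274 := fun h => c1677 h n0 n16 n10 u9 u4 u6 n15 n2 n14 n17; have u13 : ¬p275 := fun h => c1377 h u12 u4; have u14 : ¬p276 := fun h => c367 h u13; have u15 : p235 := Classical.byContradiction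 fun h => c1530 u2 u11 u14 n13 n12 h u6 n7; have u16 : p237 := Classical.byContradiction fun h => c1201 n10 n11 u15 h; have u17 : p74 := Classical.byContradiction fun h => c1503 h u15 u9 n5; have u18 : ¬p301 := fun h => c535 h u16; have u19 : ¬p76 := fun h => c58 u17 h; have u20 : p300 := Classical.byContradiction fun h => c1238 h u18; have u21 : p318 := Classical.byContradiction fun h => c1675 n0 n4 h u10 n6 u18 n2 n8; have u22 : p317 := Classical.byContradiction fun h => c412 u21 h; have u23 : p315 := Classical.byContradiction fun h => c409 u22 h n1; c1678 u23 u5 n1 u15 u20 n3 n7 u19 u0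
  have c1680 : ¬p72 → ¬p316 → p34 → ¬p311 → ¬p136 → ¬p20 → p1 → ¬p30 → p226 → ¬p194 → ¬p48 → p307 → ¬p294 → p425 → p17 → p230 → ¬p292 → p324 → ¬p221 → ¬p289 → p135 → ¬p344 → p426 → p309 → ¬p247 → False := fun n0 n1 n2 n3 n4 n5 n6 n7 n8 n9 n10 n11 n12 n13 n14 n15 n16 n17 n18 n19 n20 n21 n22 n23 n24 =>
    have u0 : p66 := Classical.byContradiction fun h => c263 h; have u1 : p429 := Classical.byContradiction fun h => c1012 h; have u2 : p12 := Classical.byContradiction fun h => c12 h; have u3 : p3 := Classical.byContradiction fun h => c1 h; have u4 : ¬p288 := fun h => c804 h; have u5 : p137 := Classical.byContradiction fun h => c889 h; have u6 : p69 := Classical.byContradiction fun h => c907 h; have u7 : p67 := Classical.byContradiction fun h => c823 h; have u8 : p131 := Classical.byContradiction fun h => c264 h; have u9 : p2 := Classical.byContradiction fun h => c0 h; have u10 : ¬p192 := fun h => c256 h; have u11 : ¬p430 := fun h => c566 n6 h; have u12 : p277 := Classical.byContradiction fun h => c1277 h n2 u10 u2 u3; have u13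 : ¬p71 := fun h => c55 h n0; have u14 : ¬p107 := fun h => c85 u13 h; have u15 : p263 := Classical.byContradiction fun h => c1289 h u14 n15 u0; have u16 : p337 := Classical.byContradiction fun h => c879 h n10 u9; have u17 : ¬p261 := fun h => c346 h n24 n18; have u18 : ¬p227 := fun h => c1088 n0 h n18 n8; have u19 : p0 := Classical.byContradiction fun h => c1390 h u17 n0 n6 n9 n14 n18 n15 n13 n17 u18; have u20 : ¬p82 := fun h => c1679 n0 n1 n18 n5 n3 n19 u19 n4 n8 h n6 n15 u17 n20 n21 n13 n10 n22 n23; have u21 : p84 := Classical.byContradiction fun h => c151 u20 h; have u22 : ¬p87 := fun h => c154 u20 h; have u23 : ¬p85 := fun h => c646 u20 h; have u24 : ¬p74 := fun h => c1519 u20 h u8; have u25 : p265 := Classical.byContradiction fun h => c1050 u21 h n4 u14 u0; have u26 : p88 := Classical.byContradiction fun h => c153 u23 h; have u27 : ¬p79 := fun h => c115 u24 h; have u28 : ¬p77 := fun h => c637 u24 h; have u29 : p232 := Classical.byContradiction fun h => c1068 u13 u25 h u7; have u30 : p266 := Classical.byContradiction fun h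 => c1294 u25 n6 h u15; have u31 : p300 := Classical.byContradiction fun h => c653 h u26; have u32 : p81 := Classical.byContradiction fun h => c114 u28 h; have u33 : ¬p284 := fun h => c550 h u30; have u34 : p304 := Classical.byContradiction fun h => c1215 h n0 u31 u0; have u35 : p279 := Classical.byContradiction fun h => c645 h u32; have u36 : p282 := Classical.byContradiction fun h => c375 u33 u12 h; have u37 : ¬p280 := fun h => c1086 h u33 u35; have u38 : ¬p285 := fun h => c378 h u33 u18; have u39 : p278 := Classical.byContradiction fun h => c1085 h u36 u6; have u40 : ¬p281 := fun h => c372 h u37 n18; have u41 : p299 := Classical.byContradiction fun h => c1099 h u39 u5; have u42 : p297 := Classical.byContradiction fun h => c393 u19 u40 u38 u4 n16 h; have u43 : p303 := Classical.byContradiction fun h => c1095 h n0 u41; have u44 : ¬p301 := fun h => c394 h u41 u31; have u45 : p296 := Classical.byContradiction fun h => c392 u42 h; have u46 : ¬p305 := fun h => c398 h u43 u34; have u47 : p295 := Classical.byContradiction fun h =>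 c389 u45 n12 h; have u48 : ¬p340 := fun h => c1460 u47 n2 n13 u11 u27 h; have u49 : p339 := Classical.byContradiction fun h => c438 u48 u16 n10 h; have u50 : p123 := Classical.byContradiction fun h => c909 u25 h u49; have u51 : ¬p121 := fun h => c101 h u50; have u52 : ¬p126 := fun h => c193 u51 h; have u53 : p329 := Classical.byContradiction fun h => c1378 h u51 u13; have u54 : p325 := Classical.byContradiction fun h => c1162 h u11 u52 n13 u1; have u55 : p327 := Classical.byContradiction fun h => c1039 h n10 u52 n13 u11 u1 u2 u3; have u56 : p334 := Classical.byContradiction fun h => c1496 h n0 u53 u0; have u57 : ¬p330 := fun h => c1586 h n10 n4 n12 u19 u29 n6 u53 n11 u40 n13 u27 u39 n14 n15 u38; c1579 u46 u22 n5 n2 n4 u57 n18 u19 u54 u44 n0 n8 n6 n7 u49 n17 n9 n10 u18 u56 u55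
  have c1681 : ¬p72 → ¬p316 → ¬p30 → p1 → ¬p205 → ¬p136 → p425 → ¬p311 → p34 → ¬p292 → ¬p289 → p426 → p309 → ¬p247 → ¬p33 → False := fun n0 n1 n2 n3 n4 n5 n6 n7 n8 n9 n10 n11 n12 n13 n14 =>
    have u0 : p66 := Classical.byContradiction fun h => c263 h; have u1 : p67 := Classical.byContradiction fun h => c823 h; have u2 : p12 := Classical.byContradiction fun h => c12 h; have u3 : p3 := Classical.byContradiction fun h => c1 h; have u4 : ¬p192 := fun h => c256 h; have u5 : ¬p430 := fun h => c566 n3 h; have u6 : p286 := Classical.byContradiction fun h => c865 h n8 u2 u3; have u7 : ¬p294 := fun h => c1397 h n14 u4; have u8 : ¬p71 := fun h => c55 h n0; have u9 : ¬p107 := fun h => c85 u8 h; have u10 : p134 := Classical.byContradiction fun h => c162 h n5; have u11 : p307 := Classical.byContradiction fun h => c1139 h u6 n5; have u12 : p135 := Classical.byContradiction fun h => c124 u10 h; have u13 : ¬p20 := fun h => c1650 n14 u12 h n0 n3 n4 n8; have u14 : ¬p16 := fun h => c48 h u13; have u15 : p213 := Classical.byContradiction fun h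 => c1615 u13 h u2; have u16 : ¬p13 := fun h => c594 u14 h; have u17 : ¬p21 := fun h => c1383 u14 h u0; have u18 : p17 := Classical.byContradiction fun h => c15 n3 u14 h; have u19 : p19 := Classical.byContradiction fun h => c16 u16 h; have u20 : ¬p24 := fun h => c251 u17 h; have u21 : p220 := Classical.byContradiction fun h => c601 u19 h; have u22 : ¬p27 := fun h => c21 u20 h; have u23 : p25 := Classical.byContradiction fun h => c20 n3 u20 h; have u24 : p226 := Classical.byContradiction fun h => c950 h u21 n0 u0; have u25 : p47 := Classical.byContradiction fun h => c1058 u5 u22 h n6; have u26 : p230 := Classical.byContradiction fun h => c1244 u8 u23 h u1 u2 u3; have u27 : p46 := Classical.byContradiction fun h => c178 h u25; have u28 : ¬p194 := fun h => c258 h u27; have u29 : ¬p48 := fun h => c33 n3 u27 h; have u30 : p324 := Classical.byContradiction fun h => c1156 h u25 u28; have u31 : p343 := Classical.byContradiction fun h => c1499 h u29 n5 n8 u12; have u32 : ¬p344 := fun h => c1474 h n10 n5 u31 n3 u11; have u33 : p221 :=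 Classical.byContradiction fun h => c1680 n0 n1 n8 n7 n5 u13 n3 n2 u24 u28 u29 u11 u7 n6 u18 u26 n9 u30 h n10 u12 u32 n11 n12 n13; have u34 : ¬p416 := fun h => c534 n3 u33 h; have u35 : ¬p86 := fun h => c1672 u15 h u33 n4 u26 n3; have u36 : ¬p415 := fun h => c533 u34 u26 h; have u37 : ¬p85 := fun h => c65 h u35; have u38 : ¬p232 := fun h => c1356 h n8 u36; have u39 : ¬p83 := fun h => c1669 n8 u37 u36 h n5; have u40 : ¬p265 := fun h => c1068 u8 h u38 u1; have u41 : ¬p82 := fun h => c63 h u39; have u42 : ¬p84 := fun h => c1050 h u40 n5 u9 u0; c151 u41 u42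
  have c1699 : ¬p48 → p91 → ¬p415 → False := fun n0 n1 n2 =>
    c1698 n0 n1 n2
  have c1701 : p124 → ¬p92 → False := fun n0 n1 =>
    have u0 : p66 := Classical.byContradiction fun h => c263 h; c1700 n0 n1 u0
  have c1703 : p121 → ¬p72 → ¬p48 → ¬p214 → ¬p344 → p324 → ¬p92 → p1 → p339 → ¬p194 → ¬p335 → ¬p330 → ¬p228 → p89 → ¬p415 → ¬p223 → p83 → p206 → ¬p135 → False := fun n0 n1 n2 n3 n4 n5 n6 n7 n8 n9 n10 n11 n12 n13 n14 n15 n16 n17 n18 =>
    have u0 : p69 := Classical.byContradiction fun h => c907 h; have u1 : p126 := Classical.byContradiction fun h => c103 n0 h; have u2 : p90 := Classical.byContradiction fun h => c68 n13 h; have u3 : ¬p93 := fun h => c182 n6 h; have u4 : p331 := Classical.byContradiction fun h => c1696 h u1 n17 u3 n16 n18 u0; have u5 : ¬p332 := fun h => c426 h n11 n6 n13 u4 n15; have u6 : ¬p124 := fun h => c1701 h n6; have u7 : ¬p181 := fun h => c191 u6 h; have u8 : ¬p336 := fun h => c432 h n10 u6 n0 u4 n12; have u9 : ¬p325 := fun h => c1533 u8 n2 n4 n5 u5 n7 n8 h n9; c1702 n3 u2 n6 u9 n14 u7 n1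
  have c1705 : ¬p71 → ¬p135 → p17 → p82 → ¬p144 → p206 → p136 → ¬p86 → p426 → ¬p430 → False := fun n0 n1 n2 n3 n4 n5 n6 n7 n8 n9 =>
    have u0 : p429 := Classical.byContradiction fun h => c1012 h; have u1 : p69 := Classical.byContradiction fun h => c907 h; c1704 n0 n1 n2 n3 n4 n5 n6 n7 n8 n9 u0 u1
  have c1707 : ¬p72 → p136 → ¬p48 → p82 → p1 → p221 → ¬p135 → p426 → ¬p228 → ¬p205 → p425 → p215 → False := fun n0 n1 n2 n3 n4 n5 n6 n7 n8 n9 n10 n11 =>
    have u0 : ¬p133 := fun h => c1436 h; have u1 : p66 := Classical.byContradiction fun h => c263 h; have u2 : p132 := Classical.byContradiction fun h => c1291 h; have u3 : p67 := Classical.byContradiction fun h => c823 h; have u4 : p12 := Classical.byContradiction fun h => c12 h; have u5 : p3 := Classical.byContradiction fun h => c1 h; have u6 : p429 := Classical.byContradiction fun h => c1012 h; have u7 : p69 := Classical.byContradiction fun h => c907 h; have u8 : ¬p430 := fun h => c566 n4 h; have u9 : ¬p71 := fun h => c55 h n0; have u10 : ¬p107 := fun h => c85 u9 h; have u11 :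 ¬p416 := fun h => c534 n4 n5 h; have u12 : p206 := Classical.byContradiction fun h => c1224 h n9 n5; have u13 : p227 := Classical.byContradiction fun h => c1589 u9 h n5; have u14 : ¬p421 := fun h => c549 n4 u13 h; have u15 : ¬p223 := fun h => c546 n4 n11 h; have u16 : p83 := Classical.byContradiction fun h => c63 n3 h; have u17 : p46 := Classical.byContradiction fun h => c179 h n2; have u18 : ¬p45 := fun h => c619 n2 h; have u19 : ¬p194 := fun h => c258 h u17; have u20 : p19 := Classical.byContradiction fun h => c1644 u9 u18 h u8 n7 u6 u7 u4; have u21 : ¬p13 := fun h => c50 h u20; have u22 : p220 := Classical.byContradiction fun h => c601 u20 h; have u23 : ¬p16 := fun h => c250 u21 h; have u24 : p226 := Classical.byContradiction fun h => c950 h u22 n0 u1; have u25 : ¬p20 := fun h => c17 u23 h; have u26 : ¬p21 := fun h => c1383 u23 h u1; have u27 : p17 := Classical.byContradiction fun h => c15 n4 u23 h; have u28 : ¬p225 := fun h => c296 u13 h u24; have u29 : p213 := Classical.byContradiction fun h => c1615 u25 h u4; have u30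 : ¬p24 := fun h => c251 u26 h; have u31 : ¬p27 := fun h => c609 u28 h; have u32 : ¬p214 := fun h => c284 n11 u29 h; have u33 : p25 := Classical.byContradiction fun h => c20 n4 u30 h; have u34 : p47 := Classical.byContradiction fun h => c1058 u8 u31 h n10; have u35 : p230 := Classical.byContradiction fun h => c1244 u9 u33 h u3 u4 u5; have u36 : p324 := Classical.byContradiction fun h => c1156 h u34 u19; have u37 : p263 := Classical.byContradiction fun h => c1289 h u10 u35 u1; have u38 : ¬p415 := fun h => c533 u11 u35 h; have u39 : ¬p86 := fun h => c1672 u29 h n5 n9 u35 n4; have u40 : ¬p420 := fun h => c548 u14 u37 h; have u41 : ¬p85 := fun h => c65 h u39; have u42 : ¬p235 := fun h => c647 u39 h; have u43 : ¬p123 := fun h => c1188 n2 h u40; have u44 : p121 := Classical.byContradiction fun h => c190 h u43; have u45 : p122 := Classical.byContradiction fun h => c100 u44 h; have u46 : p126 := Classical.byContradiction fun h => c103 u44 h; have u47 : p342 := Classical.byContradiction fun h => c1208 u45 h u42 u3; have u48 : p333 :=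 Classical.byContradiction fun h => c694 u46 h; have u49 : ¬p91 := fun h => c1699 n2 h u38; have u50 : p89 := Classical.byContradiction fun h => c184 h u49; have u51 : p94 := Classical.byContradiction fun h => c71 u50 h; have u52 : p328 := Classical.byContradiction fun h => c660 h u51; have u53 : p144 := Classical.byContradiction fun h => c1705 u9 n6 u27 n3 h u12 n1 u39 n7 u8; have u54 : ¬p142 := fun h => c130 h u53; have u55 : p339 := Classical.byContradiction fun h => c713 h u53; have u56 : ¬p92 := fun h => c1694 u54 u41 h u0 u2; have u57 : ¬p93 := fun h => c182 u56 h; have u58 : p96 := Classical.byContradiction fun h => c186 u56 h; have u59 : p329 := Classical.byContradiction fun h => c662 h u58; have u60 : p334 := Classical.byContradiction fun h => c1496 h n0 u59 u1; have u61 : ¬p330 := fun h => c422 h u52 u59; have u62 : ¬p335 := fun h => c428 h u48 u60; have u63 : p344 := Classical.byContradiction fun h => c1703 u44 n0 n2 u32 h u36 u56 n4 u55 u19 u62 u61 n8 u50 u38 u15 u16 u12 n6; have u64 : ¬p343 := fun h => c443 u63 u47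 h; have u65 : ¬p169 := fun h => c738 u64 h; have u66 : p167 := Classical.byContradiction fun h => c200 h u65; c1706 u66 u53 u57 u16 u0
  have c1708 : ¬p33 → p34 → p221 → p201 → p1 → p27 → p206 → p136 → False := fun n0 n1 n2 n3 n4 n5 n6 n7 =>
    have u0 : p131 := Classical.byContradiction fun h => c264 h; have u1 : ¬p138 := fun h => c902 h; have u2 : ¬p192 := fun h => c256 h; have u3 : p12 := Classical.byContradiction fun h => c12 h; have u4 : p66 := Classical.byContradiction fun h => c263 h; have u5 : p69 := Classical.byContradiction fun h => c907 h; have u6 : p24 := Classical.byContradiction fun h => c21 h n5; have u7 : p225 := Classical.byContradiction fun h => c609 h n5; have u8 : p21 := Classical.byContradiction fun h => c251 h u6; have u9 : p219 := Classical.byContradiction fun h => c912 h u7 u5; have u10 : p16 := Classical.byContradiction fun h => c1383 h u8 u4; have u11 : ¬p220 := fun h => c289 n2 u9 h; have u12 : p13 := Classical.byContradiction fun h => c250 h u10; have u13 : ¬p19 := fun h => c601 h u11; have u14 :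 p14 := Classical.byContradiction fun h => c47 n4 u12 h; have u15 : ¬p300 := fun h => c1596 n1 h u13 u1 u2 u3; have u16 : p235 := Classical.byContradiction fun h => c1523 n0 n7 u14 h u0; have u17 : p230 := Classical.byContradiction fun h => c1647 h n0 u14 n3 n6; have u18 : p301 := Classical.byContradiction fun h => c1238 u15 h; have u19 : p237 := Classical.byContradiction fun h => c1201 n4 u17 u16 h; c535 u18 u19
  have c1710 : ¬p33 → ¬p72 → ¬p135 → p34 → p1 → p136 → p426 → ¬p205 → p425 → p221 → ¬p247 → False := fun n0 n1 n2 n3 n4 n5 n6 n7 n8 n9 n10 =>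
    have u0 : p131 := Classical.byContradiction fun h => c264 h; have u1 : p67 := Classical.byContradiction fun h => c823 h; have u2 : p12 := Classical.byContradiction fun h => c12 h; have u3 : p3 := Classical.byContradiction fun h => c1 h; have u4 : ¬p248 := fun h => c325 h; have u5 : ¬p430 := fun h => c566 n4 h; have u6 : ¬p71 := fun h => c55 h n1; have u7 : p201 := Classical.byContradiction fun h => c1513 h n7; have u8 : ¬p416 := fun h => c534 n4 n9 h; have u9 : p216 := Classical.byContradiction fun h => c886 n7 n9 h; have u10 : p206 := Classical.byContradiction fun h => c1224 h n7 n9; have u11 : p227 := Classical.byContradiction fun h => c1589 u6 h n9; have u12 : p215 := Classical.byContradiction fun h => c286 u9 h; have u13 : ¬p251 := fun h => c558 h u11; have u14 : ¬p254 := fun h => c560 h u11; have u15 : ¬p252 := fun h => c333 h u13; have u16 : ¬p255 := fun h => c339 h u14; have u17 : p259 := Classical.byContradiction fun h => c344 n10 u4 u15 u16 h; have u18 : p258 := Classical.byContradiction fun h => c343 u17 h; have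 u19 : ¬p228 := fun h => c561 n4 u18 h; have u20 : ¬p27 := fun h => c1708 n0 n3 n9 u7 n4 h u10 n5; have u21 : ¬p24 := fun h => c83 h u20; have u22 : p47 := Classical.byContradiction fun h => c1058 u5 u20 h n8; have u23 : p25 := Classical.byContradiction fun h => c20 n4 u21 h; have u24 : p46 := Classical.byContradiction fun h => c178 h u22; have u25 : p230 := Classical.byContradiction fun h => c1244 u6 u23 h u1 u2 u3; have u26 : ¬p48 := fun h => c33 n4 u24 h; have u27 : ¬p415 := fun h => c533 u8 u25 h; have u28 : ¬p82 := fun h => c1707 n1 n5 u26 h n4 n9 n2 n6 u19 n7 n8 u12; have u29 : ¬p74 := fun h => c1519 u28 h u0; have u30 : p76 := Classical.byContradiction fun h => c112 u29 h; c1709 u30 n3 u27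
  have c1712 : ¬p71 → ¬p276 → ¬p264 → ¬p265 → ¬p268 → ¬p261 → ¬p227 → False := fun n0 n1 n2 n3 n4 n5 n6 =>
    have u0 : ¬p133 := fun h => c1436 h; have u1 : p67 := Classical.byContradiction fun h => c823 h; have u2 : p66 := Classical.byContradiction fun h => c263 h; have u3 : ¬p248 := fun h => c325 h; have u4 : ¬p107 := fun h => c85 n0 h; have u5 : ¬p262 := fun h => c347 h u3 n6; have u6 : ¬p232 := fun h => c972 h n3 u4 u2; have u7 : ¬p266 := fun h => c350 h n2 n3; have u8 : ¬p267 := fun h => c356 h u7; have u9 : p271 := Classical.byContradiction fun h => c368 n6 n5 u5 u8 h n1; have u10 : p270 := Classical.byContradiction fun h => c363 u9 h; have u11 : p269 := Classical.byContradiction fun h => c359 u10 n4 h; have u12 : p236 := Classical.byContradiction fun h => c1275 n0 u11 h u1; c1711 u12 u6 u0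
  have c1713 : ¬p294 → ¬p71 → p34 → ¬p261 → ¬p221 → p425 → ¬p268 → ¬p123 → ¬p227 → p0 → ¬p48 → p1 → p263 → ¬p292 → ¬p79 → p279 → ¬p264 → ¬p16 → p426 → False := fun n0 n1 n2 n3 n4 n5 n6 n7 n8 n9 n10 n11 n12 n13 n14 n15 n16 n17 n18 =>
    have u0 : ¬p288 := fun h => c804 h; have u1 : p429 := Classical.byContradiction fun h => c1012 h; have u2 : p2 := Classical.byContradiction fun h => c0 h; have u3 : ¬p430 := fun h => c566 n11 h; have u4 : p337 := Classical.byContradiction fun h => c879 h n10 u2; have u5 : ¬p274 := fun h => c1017 h u3 n18 n7 u1; have u6 : ¬p275 := fun h => c1377 h u5 n17; have u7 : ¬p276 := fun h => c367 h u6; have u8 : p265 := Classical.byContradiction fun h => c1712 n1 u7 n16 h n6 n3 n8; have u9 : p266 := Classical.byContradiction fun h => c1294 u8 n11 h n12; have u10 : ¬p339 := fun h => c909 u8 n7 h; have u11 : ¬p284 := fun h => c550 h u9; have u12 : p340 := Classical.byContradiction fun h => c438 h u4 n10 u10; have u13 : ¬p280 := fun h => c1086 h u11 n15; have u14 : ¬p285 := fun h => c378 h u11 n8; have u15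 : ¬p295 := fun h => c1460 h n2 n5 u3 n14 u12; have u16 : ¬p281 := fun h => c372 h u13 n4; have u17 : ¬p296 := fun h => c389 h n0 u15; have u18 : p297 := Classical.byContradiction fun h => c393 n9 u16 u14 u0 n13 h; c392 u18 u17
  have c1715 : ¬p72 → p298 → ¬p20 → ¬p163 → ¬p316 → ¬p221 → p0 → ¬p311 → ¬p301 → False := fun n0 n1 n2 n3 n4 n5 n6 n7 n8 =>
    have u0 : p132 := Classical.byContradiction fun h => c1291 h; have u1 : ¬p192 := fun h => c256 h; have u2 : p12 := Classical.byContradiction fun h => c12 h; have u3 : p226 := Classical.byContradiction fun h => c1283 h n0 n5; have u4 : p299 := Classical.byContradiction fun h => c395 n8 n1 h; have u5 : p303 := Classical.byContradiction fun h => c1095 h n0 u4; have u6 : p318 := Classical.byContradiction fun h => c1675 n0 n7 h u5 n6 n8 n5 u3; have u7 : p317 := Classical.byContradiction fun h => c412 u6 h; have u8 : p315 := Classical.byContradiction fun h => c409 u7 h n4; c1714 u8 n2 u4 n3 u0 u1 u2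
  have c1716 : ¬p72 → ¬p316 → p34 → p425 → p1 → ¬p221 → ¬p82 → ¬p135 → p426 → ¬p261 → ¬p227 → ¬p163 → p230 → p136 → ¬p292 → ¬p311 → ¬p294 → p263 → False := fun n0 n1 n2 n3 n4 n5 n6 n7 n8 n9 n10 n11 n12 n13 n14 n15 n16 n17 =>
    have u0 : p429 := Classical.byContradiction fun h => c1012 h; have u1 : ¬p133 := fun h => c1436 h; have u2 : p67 := Classical.byContradiction fun h => c823 h; have u3 : p131 := Classical.byContradiction fun h => c264 h; have u4 : p12 := Classical.byContradiction fun h => c12 h; have u5 : p3 := Classical.byContradiction fun h => c1 h; have u6 : p66 := Classical.byContradiction fun h => c263 h; have u7 : ¬p138 := fun h => c902 h; have u8 : ¬p192 := fun h => c256 h; have u9 : ¬p430 := fun h => c566 n4 h; have u10 : p298 := Classical.byContradiction fun h => c1272 h n2 u7 u8 u4 u5; have u11 : ¬p71 := fun h => c55 h n0; have u12 : ¬p85 := fun h => c646 n6 h; have u13 : ¬p74 := fun h => c1519 n6 h u3; have u14 : ¬p86 := fun h => c149 u12 h; have u15 : p76 := Classical.byContradiction fun h => c112 u13 h; have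 u16 : ¬p79 := fun h => c115 u13 h; have u17 : ¬p77 := fun h => c637 u13 h; have u18 : ¬p235 := fun h => c647 u14 h; have u19 : p415 := Classical.byContradiction fun h => c1709 u15 n2 h; have u20 : p81 := Classical.byContradiction fun h => c114 u17 h; have u21 : ¬p268 := fun h => c1259 h u18 u2; have u22 : ¬p264 := fun h => c1521 h u18 n13 u2 u3; have u23 : p17 := Classical.byContradiction fun h => c597 u19 h; have u24 : p279 := Classical.byContradiction fun h => c645 h u20; have u25 : ¬p16 := fun h => c46 h u23; have u26 : ¬p20 := fun h => c17 u25 h; have u27 : ¬p21 := fun h => c1383 u25 h u6; have u28 : ¬p24 := fun h => c251 u27 h; have u29 : ¬p27 := fun h => c21 u28 h; have u30 : p47 := Classical.byContradiction fun h => c1058 u9 u29 h n3; have u31 : p46 := Classical.byContradiction fun h => c178 h u30; have u32 : ¬p194 := fun h => c258 h u31; have u33 : ¬p48 := fun h => c33 n4 u31 h; have u34 : p324 := Classical.byContradiction fun h => c1156 h u30 u32; have u35 : p0 := Classical.byContradiction fun h => c1390 h n9 n0 n4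 u32 u23 n5 n12 n3 u34 n10; have u36 : p123 := Classical.byContradiction fun h => c1713 n16 u11 n2 n9 n5 n3 u21 h n10 u35 u33 n4 n17 n14 u16 u24 u22 u25 n8; have u37 : ¬p121 := fun h => c101 h u36; have u38 : p420 := Classical.byContradiction fun h => c1188 u33 u36 h; have u39 : p301 := Classical.byContradiction fun h => c1715 n0 u10 u26 n11 n1 n5 u35 n15 h; have u40 : ¬p237 := fun h => c535 u39 h; have u41 : ¬p236 := fun h => c314 u40 n12 u23 h; have u42 : ¬p232 := fun h => c1444 h u41 n13; have u43 : ¬p265 := fun h => c1068 u11 h u42 u2; have u44 : p307 := Classical.byContradiction fun h => c1487 u38 h u11 u42 u1 u2 u4 u5; have u45 : p276 := Classical.byContradiction fun h => c1712 u11 h u22 u43 u21 n9 n10; have u46 : p275 := Classical.byContradiction fun h => c367 u45 h; have u47 : p274 := Classical.byContradiction fun h => c1377 u46 h u25; have u48 : p344 := Classical.byContradiction fun h => c1677 u47 n0 u33 n4 u42 u25 n10 n3 n5 h n8; have u49 : p144 := Classical.byContradiction fun h => c1048 u47 u9 u43 h n3 u37 u0; have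 u50 : ¬p409 := fun h => c522 u48 h; have u51 : ¬p142 := fun h => c130 h u49; have u52 : ¬p408 := fun h => c1061 h u50 n4 u44; have u53 : ¬p143 := fun h => c194 u51 h; have u54 : p342 := Classical.byContradiction fun h => c1483 u47 u9 h n7 u13 n3 u52 u42 u11 u0 u1 u2; have u55 : ¬p398 := fun h => c708 u53 h; have u56 : ¬p343 := fun h => c443 u48 u54 h; have u57 : ¬p407 := fun h => c1455 h u55 n13 u3; c1485 u47 u56 u13 n7 u9 n3 u57 u42 u11 u0 u1 u2
  have c1717 : ¬p72 → ¬p316 → ¬p48 → ¬p232 → ¬p221 → p1 → p425 → p426 → ¬p261 → p303 → p230 → p136 → ¬p311 → p87 → ¬p163 → False := fun n0 n1 n2 n3 n4 n5 n6 n7 n8 n9 n10 n11 n12 n13 n14 =>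
    have u0 : ¬p133 := fun h => c1436 h; have u1 : p67 := Classical.byContradiction fun h => c823 h; have u2 : p12 := Classical.byContradiction fun h => c12 h; have u3 : p3 := Classical.byContradiction fun h => c1 h; have u4 : p429 := Classical.byContradiction fun h => c1012 h; have u5 : p131 := Classical.byContradiction fun h => c264 h; have u6 : p132 := Classical.byContradiction fun h => c1291 h; have u7 : ¬p192 := fun h => c256 h; have u8 : p66 := Classical.byContradiction fun h => c263 h; have u9 : p69 := Classical.byContradiction fun h => c907 h; have u10 : ¬p430 := fun h => c566 n5 h; have u11 : ¬p71 := fun h => c55 h n0; have u12 : p226 := Classical.byContradiction fun h => c1283 h n0 n4; have u13 : ¬p227 := fun h => c1088 n0 h n4 u12; have u14 : p299 := Classical.byContradiction fun h => c652 h n13; have u15 : ¬p265 := fun h => c1068 u11 h n3 u1; have u16 : p46 := Classical.byContradiction fun h => c179 h n2; have u17 : ¬p45 := fun h => c619 n2 h; have u18 : ¬p194 := fun h => c258 h u16; have u19 : p19 := Classical.byContradiction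 fun h => c1644 u11 u17 h u10 n7 u4 u9 u2; have u20 : ¬p13 := fun h => c50 h u19; have u21 : ¬p16 := fun h => c250 u20 h; have u22 : ¬p20 := fun h => c17 u21 h; have u23 : ¬p21 := fun h => c1383 u21 h u8; have u24 : p17 := Classical.byContradiction fun h => c15 n5 u21 h; have u25 : ¬p315 := fun h => c1714 h u22 u14 n14 u6 u7 u2; have u26 : ¬p24 := fun h => c251 u23 h; have u27 : ¬p317 := fun h => c409 h u25 n1; have u28 : ¬p27 := fun h => c21 u26 h; have u29 : ¬p318 := fun h => c412 h u27; have u30 : p47 := Classical.byContradiction fun h => c1058 u10 u28 h n6; have u31 : p324 := Classical.byContradiction fun h => c1156 h u30 u18; have u32 : p0 := Classical.byContradiction fun h => c1390 h n8 n0 n5 u18 u24 n4 n10 n6 u31 u13; have u33 : p301 := Classical.byContradiction fun h => c1675 n0 n12 u29 n9 u32 h n4 u12; have u34 : ¬p237 := fun h => c535 u33 h; have u35 : ¬p300 := fun h => c394 u33 u14 h; have u36 : ¬p235 := fun h => c313 u34 n10 u24 h; have u37 : ¬p268 := fun h => c1259 h u36 u1; have u38 : ¬p264 := fun h => c1521 h u36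 n11 u1 u5; have u39 : p276 := Classical.byContradiction fun h => c1712 u11 h u38 u15 u37 n8 u13; have u40 : p275 := Classical.byContradiction fun h => c367 u39 h; have u41 : p274 := Classical.byContradiction fun h => c1377 u40 h u21; have u42 : p123 := Classical.byContradiction fun h => c1017 u41 u10 n7 h u4; have u43 : p344 := Classical.byContradiction fun h => c1677 u41 n0 n2 n5 n3 u21 u13 n6 n4 h n7; have u44 : p420 := Classical.byContradiction fun h => c1188 n2 u42 h; have u45 : p408 := Classical.byContradiction fun h => c1192 u11 u42 u35 h n13 u36 u1; have u46 : ¬p409 := fun h => c522 u43 h; have u47 : p307 := Classical.byContradiction fun h => c1487 u44 h u11 n3 u0 u1 u2 u3; c1061 u45 u46 n5 u47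
  have c1718 : ¬p72 → ¬p33 → p34 → ¬p316 → p425 → ¬p311 → p426 → p1 → p309 → ¬p292 → ¬p107 → ¬p247 → ¬p30 → ¬p289 → False := fun n0 n1 n2 n3 n4 n5 n6 n7 n8 n9 n10 n11 n12 n13 =>
    have u0 : p131 := Classical.byContradiction fun h => c264 h; have u1 : ¬p138 := fun h => c902 h; have u2 : ¬p192 := fun h => c256 h; have u3 : p12 := Classical.byContradiction fun h => c12 h; have u4 : p66 := Classical.byContradiction fun h => c263 h; have u5 : ¬p204 := fun h => c938 h; have u6 : ¬p430 := fun h => c566 n7 h; have u7 : ¬p294 := fun h => c1397 h n1 u2; have u8 : ¬p203 := fun h => c631 n0 h; have u9 : ¬p205 := fun h => c267 h u8 u5; have u10 : p136 := Classical.byContradiction fun h => c1681 n0 n3 n12 n7 u9 h n4 n5 n2 n9 n13 n6 n8 n11 n1; have u11 : ¬p134 := fun h => c125 h u10; have u12 : ¬p135 := fun h => c161 u11 h; have u13 : ¬p163 := fun h => c163 u11 h; have u14 : ¬p221 := fun h => c1710 n1 n0 u12 n2 n7 u10 n6 u9 n4 h n11; have u15 : ¬p261 := fun h => c346 h n11 u14; have u16 : p226 := Classical.byContradiction fun h => c1283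 h n0 u14; have u17 : ¬p227 := fun h => c1088 n0 h u14 u16; have u18 : ¬p229 := fun h => c300 h u9 u17; have u19 : p230 := Classical.byContradiction fun h => c1525 h u18 u14; have u20 : p263 := Classical.byContradiction fun h => c1289 h n10 u19 u4; have u21 : p82 := Classical.byContradiction fun h => c1716 n0 n3 n2 n4 n7 u14 h u12 n6 u15 u17 u13 u19 u10 n9 n5 u7 u20; have u22 : ¬p84 := fun h => c64 u21 h; have u23 : p87 := Classical.byContradiction fun h => c66 u21 h; have u24 : ¬p232 := fun h => c1080 h u22 n8; have u25 : p303 := Classical.byContradiction fun h => c794 h u8 u23; have u26 : p48 := Classical.byContradiction fun h => c1717 n0 n3 h u24 u14 n7 n4 n6 u15 u25 u19 u10 n5 u23 u13; have u27 : ¬p46 := fun h => c33 n7 h u26; have u28 : ¬p47 := fun h => c178 u27 h; have u29 : p27 := Classical.byContradiction fun h => c1058 u6 h u28 n4; have u30 : p24 := Classical.byContradiction fun h => c21 h u29; have u31 : p21 := Classical.byContradiction fun h => c251 h u30; have u32 : p16 := Classical.byContradiction fun h => c1383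 h u31 u4; have u33 : p13 := Classical.byContradiction fun h => c250 h u32; have u34 : ¬p19 := fun h => c50 u33 h; have u35 : p14 := Classical.byContradiction fun h => c47 n7 u33 h; have u36 : ¬p300 := fun h => c1596 n2 h u34 u1 u2 u3; have u37 : p235 := Classical.byContradiction fun h => c1523 n1 u10 u35 h u0; have u38 : p301 := Classical.byContradiction fun h => c1238 u36 h; have u39 : p237 := Classical.byContradiction fun h => c1201 n7 u19 u37 h; c535 u38 u39
  have c1719 : ¬p33 → p230 → p136 → p13 → p34 → p1 → False := fun n0 n1 n2 n3 n4 n5 =>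
    have u0 : p131 := Classical.byContradiction fun h => c264 h; have u1 : ¬p138 := fun h => c902 h; have u2 : ¬p192 := fun h => c256 h; have u3 : p12 := Classical.byContradiction fun h => c12 h; have u4 : ¬p19 := fun h => c50 n3 h; have u5 : p14 := Classical.byContradiction fun h => c47 n5 n3 h; have u6 : ¬p300 := fun h => c1596 n4 h u4 u1 u2 u3; have u7 : p235 := Classical.byContradiction fun h => c1523 n0 n2 u5 h u0; have u8 : p301 := Classical.byContradiction fun h => c1238 u6 h; have u9 : p237 := Classical.byContradiction fun h => c1201 n5 n1 u7 h; c535 u8 u9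
  have c1720 : p301 → ¬p72 → p136 → p1 → ¬p16 → ¬p221 → p87 → ¬p227 → p425 → ¬p48 → p426 → ¬p261 → ¬p232 → p230 → False := fun n0 n1 n2 n3 n4 n5 n6 n7 n8 n9 n10 n11 n12 n13 =>
    have u0 : ¬p133 := fun h => c1436 h; have u1 : p67 := Classical.byContradiction fun h => c823 h; have u2 : p12 := Classical.byContradiction fun h => c12 h; have u3 : p3 := Classical.byContradiction fun h => c1 h; have u4 : p429 := Classical.byContradiction fun h => c1012 h; have u5 : p131 := Classical.byContradiction fun h => c264 h; have u6 : ¬p430 := fun h => c566 n3 h; have u7 : ¬p71 := fun h => c55 h n1; have u8 : p17 := Classical.byContradiction fun h => c15 n3 n4 h; have u9 : p299 := Classical.byContradiction fun h => c652 h n6; have u10 : ¬p265 := fun h => c1068 u7 h n12 u1; have u11 : ¬p237 := fun h => c535 n0 h; have u12 : ¬p300 := fun h => c394 n0 u9 h; have u13 : ¬p235 := fun h => c313 u11 n13 u8 h; have u14 : ¬p268 := fun h => c1259 h u13 u1; have u15 : ¬p264 := fun h => c1521 h u13 n2 u1 u5; have u16 : p276 := Classical.byContradiction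 fun h => c1712 u7 h u15 u10 u14 n11 n7; have u17 : p275 := Classical.byContradiction fun h => c367 u16 h; have u18 : p274 := Classical.byContradiction fun h => c1377 u17 h n4; have u19 : p123 := Classical.byContradiction fun h => c1017 u18 u6 n10 h u4; have u20 : p344 := Classical.byContradiction fun h => c1677 u18 n1 n9 n3 n12 n4 n7 n8 n5 h n10; have u21 : p420 := Classical.byContradiction fun h => c1188 n9 u19 h; have u22 : p408 := Classical.byContradiction fun h => c1192 u7 u19 u12 h n6 u13 u1; have u23 : ¬p409 := fun h => c522 u20 h; have u24 : p307 := Classical.byContradiction fun h => c1487 u21 h u7 n12 u0 u1 u2 u3; c1061 u22 u23 n3 u24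
  have c1722 : p316 → ¬p72 → ¬p48 → ¬p84 → p425 → p1 → ¬p232 → ¬p221 → ¬p16 → ¬p227 → p274 → p426 → False := fun n0 n1 n2 n3 n4 n5 n6 n7 n8 n9 n10 n11 =>
    have u0 : p429 := Classical.byContradiction fun h => c1012 h; have u1 : p69 := Classical.byContradiction fun h => c907 h; have u2 : ¬p133 := fun h => c1436 h; have u3 : p67 := Classical.byContradiction fun h => c823 h; have u4 : p12 := Classical.byContradiction fun h => c12 h; have u5 : p3 := Classical.byContradiction fun h => c1 h; have u6 : ¬p430 := fun h => c566 n5 h; have u7 : ¬p71 := fun h => c55 h n1; have u8 : p123 := Classical.byContradiction fun h => c1017 n10 u6 n11 h u0; have u9 : p344 := Classical.byContradiction fun h => c1677 n10 n1 n2 n5 n6 n8 n9 n4 n7 h n11; have u10 : ¬p121 := fun h => c101 h u8; have u11 : p420 := Classical.byContradiction fun h => c1188 n2 u8 h; have u12 : ¬p409 := fun h => c522 u9 h; have u13 : p343 := Classical.byContradiction fun h => c1064 n10 u6 u10 u7 n4 n3 h u0 u3; have u14 : p307 := Classical.byContradiction fun h => c1487 u11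 h u7 n6 u2 u3 u4 u5; have u15 : ¬p408 := fun h => c1061 h u12 n5 u14; have u16 : ¬p342 := fun h => c443 u9 h u13; have u17 : p85 := Classical.byContradiction fun h => c1063 u7 u16 n2 u6 n3 n5 h u14 n4 n10; have u18 : ¬p88 := fun h => c67 u17 h; c1721 n0 u15 u7 u18 u10 n4 u6 u0 u1
  have c1723 : ¬p71 → p136 → ¬p276 → ¬p265 → ¬p227 → ¬p261 → ¬p235 → False := fun n0 n1 n2 n3 n4 n5 n6 =>
    have u0 : p67 := Classical.byContradiction fun h => c823 h; have u1 : p131 := Classical.byContradiction fun h => c264 h; have u2 : ¬p268 := fun h => c1259 h n6 u0; have u3 : ¬p264 := fun h => c1521 h n6 n1 u0 u1; c1712 n0 n2 u3 n3 u2 n5 n4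
  have c1725 : ¬p71 → p235 → ¬p48 → ¬p232 → p1 → p123 → ¬p135 → ¬p88 → p316 → p425 → False := fun n0 n1 n2 n3 n4 n5 n6 n7 n8 n9 =>
    have u0 : p132 := Classical.byContradiction fun h => c1291 h; have u1 : ¬p133 := fun h => c1436 h; have u2 : p67 := Classical.byContradiction fun h => c823 h; have u3 : p12 := Classical.byContradiction fun h => c12 h; have u4 : p3 := Classical.byContradiction fun h => c1 h; have u5 : p429 := Classical.byContradiction fun h => c1012 h; have u6 : p69 := Classical.byContradiction fun h => c907 h; have u7 : ¬p430 := fun h => c566 n4 h; have u8 : ¬p107 := fun h => c85 n0 h; have u9 : ¬p121 := fun h => c101 h n5; have u10 : p420 := Classical.byContradiction fun h => c1188 n2 n5 h; have u11 : ¬p124 := fun h => c688 h u9; have u12 : p408 := Classical.byContradiction fun h => c1721 n8 h n0 n7 u9 n9 u7 u5 u6; have u13 : p307 := Classical.byContradiction fun h => c1487 u10 h n0 n3 u1 u2 u3 u4; have u14 : ¬p125 := fun h => c188 u11 h; have u15 : p409 := Classical.byContradiction fun h => c1061 u12 h n4 u13;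 have u16 : ¬p344 := fun h => c522 h u15; have u17 : p342 := Classical.byContradiction fun h => c1592 n2 h u16; have u18 : p338 := Classical.byContradiction fun h => c1481 h u17 u0; c1724 n6 n1 u8 u14 u18
  have c1727 : ¬p135 → p235 → ¬p231 → False := fun n0 n1 n2 =>
    c1726 n0 n1 n2
  have c1729 : ¬p72 → ¬p344 → ¬p33 → ¬p48 → p324 → ¬p221 → p1 → p328 → ¬p194 → ¬p227 → p333 → p339 → ¬p261 → p325 → p230 → ¬p274 → p34 → p201 → False := fun n0 n1 n2 n3 n4 n5 n6 n7 n8 n9 n10 n11 n12 n13 n14 n15 n16 n17 =>
    have u0 : p69 := Classical.byContradiction fun h => c907 h; have u1 : ¬p71 := fun h => c55 h n0; have u2 : p334 := Classical.byContradiction fun h => c1528 h n0 n2 n15 n12 n11 n14 n9 n6 n16 n17; have u3 : ¬p335 := fun h => c428 h n10 u2; have u4 : ¬p336 := fun h => c431 h u3 n9; have u5 : p332 := Classical.byContradiction fun h => c1533 u4 n3 n1 n4 h n6 n11 n13 n8; have u6 : p330 := Classical.byContradiction fun h => c425 u5 h n5; have u7 : ¬p329 := fun h => c422 u6 n7 h; c1728 u7 u2 u1 u0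
  have c1731 : ¬p72 → p136 → p235 → ¬p48 → ¬p221 → p1 → ¬p194 → ¬p227 → p324 → p333 → ¬p261 → ¬p33 → p230 → ¬p274 → p34 → p201 → p426 → ¬p344 → ¬p135 → ¬p107 → False := fun n0 n1 n2 n3 n4 n5 n6 n7 n8 n9 n10 n11 n12 n13 n14 n15 n16 n17 n18 n19 =>
    have u0 : p429 := Classical.byContradiction fun h => c1012 h; have u1 : p66 := Classical.byContradiction fun h => c263 h; have u2 : p132 := Classical.byContradiction fun h => c1291 h; have u3 : p2 := Classical.byContradiction fun h => c0 h; have u4 : ¬p430 := fun h => c566 n5 h; have u5 : p337 := Classical.byContradiction fun h => c879 h n3 u3; have u6 : p343 := Classical.byContradiction fun h => c447 n17 u5 n3 h; have u7 : p342 := Classical.byContradiction fun h => c1592 n3 h n17; have u8 : p338 := Classical.byContradiction fun h => c1481 h u7 u2; have u9 : p125 := Classical.byContradiction fun h => c1724 n18 n2 n19 h u8; have u10 : p124 := Classical.byContradiction fun h => c188 h u9; have u11 : ¬p127 := fun h => c104 u10 h; have u12 : p92 := Classical.byContradiction fun h =>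 c1700 u10 h u1; have u13 : p325 := Classical.byContradiction fun h => c1009 h u11 u0 u4 n16; have u14 : p89 := Classical.byContradiction fun h => c654 h u12; have u15 : p94 := Classical.byContradiction fun h => c71 u14 h; have u16 : p328 := Classical.byContradiction fun h => c660 h u15; have u17 : ¬p339 := fun h => c1729 n0 n17 n11 n3 n8 n4 n5 u16 n6 n7 n9 h n10 u13 n12 n13 n14 n15; c1730 u17 u6 n1
  have c1733 : p295 → ¬p71 → ¬p88 → ¬p135 → ¬p339 → p136 → p426 → ¬p430 → p34 → ¬p48 → False := fun n0 n1 n2 n3 n4 n5 n6 n7 n8 n9 =>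
    have u0 : p429 := Classical.byContradiction fun h => c1012 h; have u1 : p137 := Classical.byContradiction fun h => c889 h; have u2 : p69 := Classical.byContradiction fun h => c907 h; have u3 : p12 := Classical.byContradiction fun h => c12 h; have u4 : p3 := Classical.byContradiction fun h => c1 h; have u5 : p2 := Classical.byContradiction fun h => c0 h; have u6 : p286 := Classical.byContradiction fun h => c865 h n8 u3 u4; have u7 : p337 := Classical.byContradiction fun h => c879 h n9 u5; have u8 : ¬p144 := fun h => c713 n4 h; have u9 : p340 := Classical.byContradiction fun h => c438 h u7 n9 n4; have u10 : p142 := Classical.byContradiction fun h => c195 h u8; have u11 : ¬p400 := fun h => c509 u9 h; have u12 : ¬p398 := fun h => c507 u11 u6 n8 h; c1732 n0 n1 n2 u12 u10 n3 n5 n6 n7 u0 u1 u2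
  have c1737 : p295 → ¬p71 → ¬p88 → ¬p135 → p167 → ¬p407 → p426 → ¬p430 → False := fun n0 n1 n2 n3 n4 n5 n6 n7 =>
    have u0 : p429 := Classical.byContradiction fun h => c1012 h; have u1 : p137 := Classical.byContradiction fun h => c889 h; have u2 : ¬p133 := fun h => c1436 h; have u3 : p69 := Classical.byContradiction fun h => c907 h; c1736 n0 n1 n2 n3 n4 n5 n6 n7 u0 u1 u2 u3
  have c1741 : ¬p342 → ¬p135 → p338 → False := fun n0 n1 n2 =>
    c1740 n0 n1 n2
  have c1743 : p295 → ¬p135 → ¬p88 → ¬p452 → p450 → p136 → p443 → ¬p155 → False := fun n0 n1 n2 n3 n4 n5 n6 n7 =>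
    have u0 : p446 := Classical.byContradiction fun h => c830 h; have u1 : p137 := Classical.byContradiction fun h => c889 h; c1742 n0 n1 n2 n3 n4 n5 n6 n7 u0 u1
  have c1744 : ¬p451 → ¬p450 → False := fun n0 n1 =>
    have u0 : p12 := Classical.byContradiction fun h => c12 h; have u1 : p3 := Classical.byContradiction fun h => c1 h; have u2 : ¬p447 := fun h => c1636 n0 h u0 u1; c580 u2 n0 n1
  have c1746 : p415 → ¬p123 → p295 → ¬p135 → ¬p155 → ¬p88 → p136 → p443 → ¬p107 → p426 → ¬p452 → ¬p430 → p316 → p309 → p34 → False := fun n0 n1 n2 n3 n4 n5 n6 n7 n8 n9 n10 n11 n12 n13 n14 =>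
    have u0 : p429 := Classical.byContradiction fun h => c1012 h; have u1 : p446 := Classical.byContradiction fun h => c830 h; have u2 : p137 := Classical.byContradiction fun h => c889 h; have u3 : p69 := Classical.byContradiction fun h => c907 h; have u4 : p66 := Classical.byContradiction fun h => c263 h; have u5 : p153 := Classical.byContradiction fun h => c239 h n4; have u6 : ¬p450 := fun h => c1743 n2 n3 n5 n10 h n6 n7 n4; have u7 : p451 := Classical.byContradiction fun h => c1744 h u6; have u8 : p157 := Classical.byContradiction fun h => c1642 n12 h u7 n5 u5 n13 n7 n14 n10 u1; have u9 : p156 := Classical.byContradiction fun h => c236 h u8; have u10 : ¬p158 := fun h => c140 u9 h; c1745 n0 n2 u10 u7 n1 n5 n3 n6 n7 n8 n9 n10 n11 u0 u1 u2 u3 u4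
  have c1750 : ¬p153 → p174 → False := fun n0 n1 =>
    have u0 : ¬p133 := fun h => c1436 h; have u1 : p132 := Classical.byContradiction fun h => c1291 h; c1749 n0 n1 u0 u1
  have c1758 : ¬p381 → p189 → ¬p72 → p300 → ¬p163 → False := fun n0 n1 n2 n3 n4 =>
    have u0 : ¬p133 := fun h => c1436 h; have u1 : p132 := Classical.byContradiction fun h => c1291 h; have u2 : p66 := Classical.byContradiction fun h => c263 h; c1757 n0 n1 n2 n3 n4 u0 u1 u2
  have c1760 : ¬p373 → p415 → p451 → ¬p105 → ¬p101 → p443 → ¬p452 → False := fun n0 n1 n2 n3 n4 n5 n6 =>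
    have u0 : p446 := Classical.byContradiction fun h => c830 h; c1759 n0 n1 n2 n3 n4 n5 n6 u0
  have c1764 : ¬p385 → p389 → False := fun n0 n1 =>
    have u0 : p132 := Classical.byContradiction fun h => c1291 h; c1763 n0 n1 u0
  have c1766 : p415 → p295 → p451 → ¬p399 → ¬p135 → ¬p88 → p136 → p443 → ¬p342 → ¬p20 → p1 → p386 → ¬p227 → p381 → ¬p72 → p231 → ¬p221 → p237 → p34 → p155 → ¬p33 → p141 → ¬p123 → ¬p107 → False := fun n0 n1 n2 n3 n4 n5 n6 n7 n8 n9 n10 n11 n12 n13 n14 n15 n16 n17 n18 n19 n20 n21 n22 n23 =>
    have u0 : p446 := Classical.byContradiction fun h => c830 h; have u1 : p137 := Classical.byContradiction fun h => c889 h; have u2 : p12 := Classical.byContradiction fun h => c12 h; have u3 : p132 := Classical.byContradiction fun h => c1291 h; have u4 : ¬p133 := fun h => c1436 h; have u5 : p66 := Classical.byContradiction fun h => c263 h; have u6 : p131 := Classical.byContradiction fun h => c264 h; have u7 : ¬p192 := fun h => c256 h; have u8 : p2 := Classical.byContradiction fun h => c0 h; have u9 : ¬p452 := fun h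 => c581 n10 h; have u10 : p307 := Classical.byContradiction fun h => c1430 n1 h n4 u6 u7 u8; have u11 : ¬p441 := fun h => c1433 h n2 n18 n10 n1 n20 u9 n19; have u12 : p412 := Classical.byContradiction fun h => c1751 n0 n21 n2 h n1 n22 n5 n4 n7 n23 u9 u0 u1 u4 u5; have u13 : p442 := Classical.byContradiction fun h => c573 u11 h; have u14 : p58 := Classical.byContradiction fun h => c1434 n19 h n9 n10 n18 u11 n1 n20; have u15 : p413 := Classical.byContradiction fun h => c1423 u12 h u10 n10; have u16 : p57 := Classical.byContradiction fun h => c225 n10 h u14; have u17 : ¬p391 := fun h => c531 h u15; have u18 : ¬p378 := fun h => c542 h u15 n17; have u19 : p61 := Classical.byContradiction fun h => c1403 n2 h n9 u16 u9 u13 u0 u2; have u20 : ¬p392 := fun h => c498 h u17; have u21 : ¬p379 := fun h => c480 h u18 n16; have u22 : p60 := Classical.byContradiction fun h => c224 h u19; have u23 : ¬p196 := fun h => c261 h u22; have u24 : ¬p62 := fun h => c42 n10 u22 h; have u25 : p389 := Classical.byContradiction fun h => c1407 u24 h u17; have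 u26 : p103 := Classical.byContradiction fun h => c1753 n15 h u25 u3; have u27 : p102 := Classical.byContradiction fun h => c229 h u26; have u28 : ¬p105 := fun h => c79 u27 h; have u29 : p100 := Classical.byContradiction fun h => c666 u27 h; have u30 : ¬p101 := fun h => c76 u29 h; have u31 : p104 := Classical.byContradiction fun h => c78 u29 h; have u32 : p376 := Classical.byContradiction fun h => c669 h u31; have u33 : p380 := Classical.byContradiction fun h => c983 h u32 n14; have u34 : ¬p382 := fun h => c482 h u33 n13; have u35 : ¬p383 := fun h => c483 h u34 n12; have u36 : p373 := Classical.byContradiction fun h => c1760 h n0 n2 u28 u30 n7 u9; have u37 : p385 := Classical.byContradiction fun h => c1764 h u25; have u38 : ¬p387 := fun h => c486 h u37 n11; have u39 : ¬p388 := fun h => c491 h u38; have u40 : ¬p372 := fun h => c997 u39 h u23 u21 u20 u35 u36 n10; have u41 : ¬p93 := fun h => c1761 n0 n2 u40 h u25 u28 u30 n8 n9 n7 u9 u0 u2; have u42 : ¬p92 := fun h => c70 h u41; have u43 : p180 := Classical.byContradiction fun h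 => c183 u42 h; c1765 n0 n2 u30 u43 n3 n1 n5 n4 n6 n7 u9 u0 u1
  have c1768 : ¬p105 → ¬p153 → ¬p399 → p96 → ¬p125 → p389 → ¬p372 → p231 → p121 → ¬p194 → ¬p20 → ¬p107 → False := fun n0 n1 n2 n3 n4 n5 n6 n7 n8 n9 n10 n11 =>
    have u0 : p132 := Classical.byContradiction fun h => c1291 h; have u1 : p66 := Classical.byContradiction fun h => c263 h; have u2 : p12 := Classical.byContradiction fun h => c12 h; c1767 n0 n1 n2 n3 n4 n5 n6 n7 n8 n9 n10 n11 u0 u1 u2
  have c1770 : ¬p105 → p155 → ¬p241 → ¬p392 → ¬p92 → ¬p221 → ¬p196 → p381 → p1 → ¬p227 → ¬p399 → ¬p388 → p376 → ¬p72 → p389 → p231 → p121 → ¬p194 → ¬p20 → False := fun n0 n1 n2 n3 n4 n5 n6 n7 n8 n9 n10 n11 n12 n13 n14 n15 n16 n17 n18 =>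
    have u0 : p67 := Classical.byContradiction fun h => c823 h; have u1 : p66 := Classical.byContradiction fun h => c263 h; have u2 : p69 := Classical.byContradiction fun h => c907 h; have u3 : ¬p71 := fun h => c55 h n13; have u4 : ¬p107 := fun h => c85 u3 h; have u5 : p122 := Classical.byContradiction fun h => c100 n16 h; have u6 : ¬p153 := fun h => c138 h n1; have u7 : p377 := Classical.byContradiction fun h => c1324 h n7 u3 u2; have u8 : p96 := Classical.byContradiction fun h => c186 n4 h; have u9 : ¬p124 := fun h => c1700 h n4 u1; have u10 : ¬p125 := fun h => c188 u9 h; have u11 : p372 := Classical.byContradiction fun h => c1768 n0 u6 n10 u8 u10 n14 h n15 n16 n17 n18 u4; have u12 : ¬p373 := fun h => c1000 n11 h n6 n12 n8 n5 n3 n9 n7 u7 u11 n13; c1769 n0 u12 u9 u5 n10 n1 n2 u3 u0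
  have c1772 : ¬p105 → ¬p373 → p122 → ¬p399 → p155 → p426 → ¬p430 → p329 → ¬p241 → ¬p71 → False := fun n0 n1 n2 n3 n4 n5 n6 n7 n8 n9 =>
    have u0 : p429 := Classical.byContradiction fun h => c1012 h; have u1 : p67 := Classical.byContradiction fun h => c823 h; have u2 : p124 := Classical.byContradiction fun h => c1769 n0 n1 h n2 n3 n4 n8 n9 u1; have u3 : ¬p127 := fun h => c104 u2 h; have u4 : p325 := Classical.byContradiction fun h => c1009 h u3 u0 n6 n5; c1771 n0 n4 n3 u4 n1 n7
  have c1774 : p415 → ¬p338 → p389 → ¬p241 → ¬p221 → p381 → p1 → ¬p227 → ¬p72 → p155 → ¬p399 → p329 → p426 → p231 → p121 → ¬p194 → ¬p16 → p386 → p390 → False := fun n0 n1 n2 n3 n4 n5 n6 n7 n8 n9 n10 n11 n12 n13 n14 n15 n16 n17 n18 =>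
    have u0 : p132 := Classical.byContradiction fun h => c1291 h; have u1 : p12 := Classical.byContradiction fun h => c12 h; have u2 : p69 := Classical.byContradiction fun h => c907 h; have u3 : ¬p430 := fun h => c566 n6 h; have u4 : ¬p71 := fun h => c55 h n8; have u5 : ¬p20 := fun h => c17 n16 h; have u6 : p122 := Classical.byContradiction fun h => c100 n14 h; have u7 : p377 := Classical.byContradiction fun h => c1324 h n5 u4 u2; have u8 : ¬p391 := fun h => c494 h n2 n18; have u9 : p103 := Classical.byContradiction fun h => c1753 n13 h n2 u0; have u10 : p385 := Classical.byContradiction fun h => c1763 h n2 u0; have u11 : ¬p392 := fun h => c498 h u8; have u12 : p102 := Classical.byContradiction fun h => c229 h u9; have u13 : ¬p387 := fun h => c486 h u10 n17; have u14 : ¬p105 := fun h => c79 u12 h; have u15 : p100 := Classical.byContradiction fun h => c666 u12 h; have u16 : p60 := Classical.byContradiction fun h => c1633 u12 h n16; have u17 : ¬p388 := fun h => c491 h u13; have u18 : p104 := Classical.byContradiction fun h =>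 c78 u15 h; have u19 : ¬p196 := fun h => c261 h u16; have u20 : p376 := Classical.byContradiction fun h => c669 h u18; have u21 : p92 := Classical.byContradiction fun h => c1770 u14 n9 n3 u11 h n4 u19 n5 n6 n7 n10 u17 u20 n8 n2 n13 n14 n15 u5; have u22 : p93 := Classical.byContradiction fun h => c70 u21 h; have u23 : p373 := Classical.byContradiction fun h => c1772 u14 h u6 n10 n9 n12 u3 n11 n3 u4; have u24 : ¬p372 := fun h => c1000 u17 u23 u19 u20 n6 n4 u11 n7 n5 u7 h n8; c1773 n0 u24 u22 u14 n2 u23 n1 n3 u5 u0 u1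
  have c1776 : p295 → ¬p135 → ¬p88 → ¬p412 → p449 → ¬p389 → p443 → ¬p452 → False := fun n0 n1 n2 n3 n4 n5 n6 n7 =>
    have u0 : p446 := Classical.byContradiction fun h => c830 h; have u1 : p137 := Classical.byContradiction fun h => c889 h; have u2 : ¬p133 := fun h => c1436 h; c1775 n0 n1 n2 n3 n4 n5 n6 n7 u0 u1 u2
  have c1778 : p415 → p1 → ¬p88 → ¬p72 → p295 → ¬p135 → p443 → ¬p33 → ¬p221 → ¬p227 → ¬p241 → ¬p399 → p329 → p426 → p231 → ¬p194 → ¬p16 → p136 → ¬p342 → p237 → p34 → p141 → ¬p123 → ¬p107 → p300 → ¬p163 → p316 → p309 → False := fun n0 n1 n2 n3 n4 n5 n6 n7 n8 n9 n10 n11 n12 n13 n14 n15 n16 n17 n18 n19 n20 n21 n22 n23 n24 n25 n26 n27 =>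
    have u0 : p132 := Classical.byContradiction fun h => c1291 h; have u1 : p131 := Classical.byContradiction fun h => c264 h; have u2 : ¬p192 := fun h => c256 h; have u3 : p2 := Classical.byContradiction fun h => c0 h; have u4 : ¬p430 := fun h => c566 n1 h; have u5 : ¬p452 := fun h => c581 n1 h; have u6 : ¬p20 := fun h => c17 n16 h; have u7 : p121 := Classical.byContradiction fun h => c190 h n22; have u8 : p307 := Classical.byContradiction fun h => c1430 n4 h n5 u1 u2 u3; have u9 : ¬p338 := fun h => c1741 n18 n5 h; have u10 : p155 := Classical.byContradiction fun h => c1746 n0 n22 n4 n5 h n2 n17 n6 n23 n13 u5 u4 n26 n27 n20; have u11 : ¬p153 := fun h => c138 h u10; have u12 : p158 := Classical.byContradiction fun h => c728 u10 h; have u13 : ¬p156 := fun h => c723 u11 h; have u14 : p386 := Classical.byContradiction fun h => c729 u12 h; have u15 : p189 := Classical.byContradiction fun h => c241 u13 h; have u16 : ¬p174 := fun h => c1750 u11 h; have u17 : p176 := Classical.byContradiction fun h => c245 u16 h; have u18 : p179 :=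 Classical.byContradiction fun h => c750 u17 h; have u19 : p390 := Classical.byContradiction fun h => c751 h u18; have u20 : p381 := Classical.byContradiction fun h => c1758 h u15 n3 n24 n25; have u21 : ¬p451 := fun h => c1766 n0 n4 h n11 n5 n2 n17 n6 n18 u6 n1 u14 n9 u20 n3 n14 n8 n19 n20 u10 n7 n21 n22 n23; have u22 : p449 := Classical.byContradiction fun h => c1637 h u21; have u23 : ¬p389 := fun h => c1774 n0 u9 h n10 n8 u20 n1 n9 n3 u10 n11 n12 n13 n14 u7 n15 n16 u14 u19; have u24 : p412 := Classical.byContradiction fun h => c1776 n4 n5 n2 h u22 u23 n6 u5; have u25 : p413 := Classical.byContradiction fun h => c1423 u24 h u8 n1; have u26 : ¬p391 := fun h => c531 h u25; have u27 : p62 := Classical.byContradiction fun h => c1407 h u23 u26; have u28 : ¬p60 := fun h => c42 n1 h u27; c1777 u21 u28 n7 u22 u0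
  have c1779 : p295 → ¬p451 → ¬p135 → p1 → ¬p88 → ¬p389 → p443 → ¬p33 → False := fun n0 n1 n2 n3 n4 n5 n6 n7 =>
    have u0 : p446 := Classical.byContradiction fun h => c830 h; have u1 : p137 := Classical.byContradiction fun h => c889 h; have u2 : ¬p133 := fun h => c1436 h; have u3 : p132 := Classical.byContradiction fun h => c1291 h; have u4 : p131 := Classical.byContradiction fun h => c264 h; have u5 : ¬p192 := fun h => c256 h; have u6 : p2 := Classical.byContradiction fun h => c0 h; have u7 : ¬p452 := fun h => c581 n3 h; have u8 : p307 := Classical.byContradiction fun h => c1430 n0 h n2 u4 u5 u6; have u9 : p449 := Classical.byContradiction fun h => c1637 h n1; have u10 : p60 := Classical.byContradiction fun h => c1777 n1 h n7 u9 u3; have u11 : p412 := Classical.byContradiction fun h => c1775 n0 n2 n4 h u9 n5 n6 u7 u0 u1 u2; have u12 : ¬p62 := fun h => c42 n3 u10 h; have u13 : p413 := Classical.byContradiction fun h => c1423 u11 h u8 n3; have u14 : p391 := Classical.byContradiction fun h => c1407 u12 n5 h; c531 u14 u13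
  have c1781 : ¬p389 → ¬p71 → ¬p88 → ¬p135 → p28 → p443 → p295 → p1 → p34 → ¬p20 → ¬p33 → p316 → p309 → ¬p289 → False := fun n0 n1 n2 n3 n4 n5 n6 n7 n8 n9 n10 n11 n12 n13 =>
    have u0 : p446 := Classical.byContradiction fun h => c830 h; have u1 : p137 := Classical.byContradiction fun h => c889 h; have u2 : ¬p133 := fun h => c1436 h; have u3 : p69 := Classical.byContradiction fun h => c907 h; have u4 : ¬p4 := fun h => c2 h; have u5 : p12 := Classical.byContradiction fun h => c12 h; have u6 : ¬p452 := fun h => c581 n7 h; have u7 : ¬p175 := fun h => c748 n0 h; have u8 : ¬p157 := fun h => c1342 u7 h n13; have u9 : p451 := Classical.byContradiction fun h => c1779 n6 h n3 n7 n2 n0 n5 n10; have u10 : ¬p153 := fun h => c1642 n11 u8 u9 n2 h n12 n5 n8 u6 u0; have u11 : p155 := Classical.byContradiction fun h => c239 u10 h; have u12 : ¬p441 := fun h => c1433 h u9 n8 n7 n6 n10 u6 u11; have u13 : p442 := Classical.byContradiction fun h => c573 u12 h; have u14 : p58 := Classical.byContradiction fun h => c1434 u11 h n9 n7 n8 u12 n6 n10;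 have u15 : p57 := Classical.byContradiction fun h => c225 n7 h u14; have u16 : p61 := Classical.byContradiction fun h => c1403 u9 h n9 u15 u6 u13 u0 u5; have u17 : p60 := Classical.byContradiction fun h => c224 h u16; have u18 : ¬p62 := fun h => c42 n7 u17 h; have u19 : p391 := Classical.byContradiction fun h => c1407 u18 n0 h; have u20 : ¬p413 := fun h => c531 u19 h; have u21 : ¬p412 := fun h => c1431 h u20 n6 n7 n8; c1780 n6 u9 n1 n4 u21 n3 n5 n2 u6 u0 u1 u2 u3 u4
  have c1783 : ¬p105 → p412 → ¬p415 → ¬p399 → ¬p338 → p329 → ¬p194 → ¬p16 → p136 → ¬p221 → p1 → ¬p227 → ¬p196 → p376 → ¬p72 → ¬p241 → p389 → p231 → p121 → p300 → ¬p163 → p426 → p309 → p307 → False := fun n0 n1 n2 n3 n4 n5 n6 n7 n8 n9 n10 n11 n12 n13 n14 n15 n16 n17 n18 n19 n20 n21 n22 n23 =>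
    have u0 : p69 := Classical.byContradiction fun h => c907 h; have u1 : ¬p133 := fun h => c1436 h; have u2 : p132 := Classical.byContradiction fun h => c1291 h; have u3 : p66 := Classical.byContradiction fun h => c263 h; have u4 : ¬p430 := fun h => c566 n10 h; have u5 : ¬p71 := fun h => c55 h n14; have u6 : ¬p20 := fun h => c17 n7 h; have u7 : p122 := Classical.byContradiction fun h => c100 n18 h; have u8 : p385 := Classical.byContradiction fun h => c1763 h n16 u2; have u9 : p176 := Classical.byContradiction fun h => c749 n1 h; have u10 : p413 := Classical.byContradiction fun h => c1423 n1 h n23 n10; have u11 : p155 := Classical.byContradiction fun h => c1506 n1 h n22; have u12 : p386 := Classical.byContradiction fun h => c1143 u9 h n22; have u13 : p158 := Classical.byContradiction fun h => c1145 u9 h n22; have u14 : ¬p391 := fun h => c531 h u10; have u15 : p373 := Classical.byContradiction fun h => c1772 n0 h u7 n3 u11 n21 u4 n5 n15 u5; have u16 : ¬p387 := fun h => c486 h u8 u12; have u17 : ¬p156 := fun h => c140 h u13; have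 u18 : ¬p392 := fun h => c498 h u14; have u19 : ¬p388 := fun h => c491 h u16; have u20 : p189 := Classical.byContradiction fun h => c241 u17 h; have u21 : p381 := Classical.byContradiction fun h => c1757 h u20 n14 n19 n20 u1 u2 u3; have u22 : p377 := Classical.byContradiction fun h => c1324 h u21 u5 u0; have u23 : p92 := Classical.byContradiction fun h => c1770 n0 u11 n15 u18 h n9 n12 u21 n10 n11 n3 u19 n13 n14 n16 n17 n18 n6 u6; have u24 : ¬p372 := fun h => c1000 u19 u15 n12 n13 n10 n9 u18 n11 u21 u22 h n14; have u25 : p93 := Classical.byContradiction fun h => c70 u23 h; c1782 n1 u8 u25 n0 u24 n2 n3 n4 n5 n6 n7 n8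
  have c1785 : p34 → ¬p72 → p136 → ¬p16 → ¬p194 → p1 → p82 → ¬p221 → ¬p163 → p426 → ¬p135 → p28 → p309 → ¬p227 → ¬p33 → p316 → ¬p289 → ¬p48 → ¬p261 → p230 → p201 → p324 → ¬p292 → p0 → p25 → p425 → False := fun n0 n1 n2 n3 n4 n5 n6 n7 n8 n9 n10 n11 n12 n13 n14 n15 n16 n17 n18 n19 n20 n21 n22 n23 n24 n25 =>
    have u0 : p69 := Classical.byContradiction fun h => c907 h; have u1 : ¬p133 := fun h => c1436 h; have u2 : p132 := Classical.byContradiction fun h => c1291 h; have u3 : p66 := Classical.byContradiction fun h => c263 h; have u4 : p446 := Classical.byContradiction fun h => c830 h; have u5 : p137 := Classical.byContradiction fun h => c889 h; have u6 : ¬p4 := fun h => c2 h; have u7 : p131 := Classical.byContradiction fun h => c264 h; have u8 : ¬p192 := fun h => c256 h; have u9 : p2 := Classical.byContradiction fun h => c0 h; have u10 : ¬p288 := fun h => c804 h; have u11 : p67 := Classical.byContradiction fun h => c823 h; have u12 : p12 := Classical.byContradiction fun h => c12 h; have u13 : p3 := Classical.byContradiction fun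 h => c1 h; have u14 : ¬p430 := fun h => c566 n5 h; have u15 : ¬p452 := fun h => c581 n5 h; have u16 : p286 := Classical.byContradiction fun h => c865 h n0 u12 u13; have u17 : p277 := Classical.byContradiction fun h => c1277 h n0 u8 u12 u13; have u18 : ¬p294 := fun h => c1397 h n14 u8; have u19 : ¬p71 := fun h => c55 h n1; have u20 : ¬p107 := fun h => c85 u19 h; have u21 : p443 := Classical.byContradiction fun h => c1641 h n20; have u22 : p263 := Classical.byContradiction fun h => c1289 h u20 n19 u3; have u23 : ¬p20 := fun h => c17 n3 h; have u24 : p337 := Classical.byContradiction fun h => c879 h n17 u9; have u25 : ¬p84 := fun h => c64 n6 h; have u26 : p87 := Classical.byContradiction fun h => c66 n6 h; have u27 : p74 := Classical.byContradiction fun h => c1682 h n6 n10 n2; have u28 : ¬p36 := fun h => c808 n3 n6 h; have u29 : ¬p232 := fun h => c1080 h u25 n12; have u30 : p79 := Classical.byContradiction fun h => c60 u27 h; have u31 : ¬p39 := fun h => c253 u28 h; have u32 : ¬p265 := fun h => c1068 u19 h u29 u11; have u33 : p278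 := Classical.byContradiction fun h => c643 h u30; have u34 : p41 := Classical.byContradiction fun h => c29 n5 u31 h; have u35 : ¬p301 := fun h => c1720 h n1 n2 n5 n3 n7 u26 n13 n25 n17 n9 n18 u29 n19; have u36 : p300 := Classical.byContradiction fun h => c1238 h u35; have u37 : ¬p274 := fun h => c1722 n15 n1 n17 u25 n25 n5 u29 n7 n3 n13 h n9; have u38 : ¬p241 := fun h => c1538 h u37 u20 u0 u3; have u39 : ¬p275 := fun h => c1377 h u37 n3; have u40 : ¬p276 := fun h => c367 h u39; have u41 : p235 := Classical.byContradiction fun h => c1723 u19 n2 u40 u32 n13 n18 h; have u42 : p86 := Classical.byContradiction fun h => c647 h u41; have u43 : p237 := Classical.byContradiction fun h => c1201 n5 n19 u41 h; have u44 : p85 := Classical.byContradiction fun h => c149 h u42; have u45 : ¬p88 := fun h => c67 u44 h; have u46 : ¬p123 := fun h => c1725 u19 u41 n17 u29 n5 h n10 u45 n15 n25; have u47 : p121 := Classical.byContradiction fun h => c190 h u46; have u48 : p122 := Classical.byContradiction fun h => c100 u47 h; have u49 : p126 := Classical.byContradiction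 fun h => c103 u47 h; have u50 : p333 := Classical.byContradiction fun h => c694 u49 h; have u51 : p231 := Classical.byContradiction fun h => c1727 n10 u41 h; have u52 : p264 := Classical.byContradiction fun h => c1612 u51 h u20; have u53 : p266 := Classical.byContradiction fun h => c353 h u22 n24 u52; have u54 : ¬p284 := fun h => c550 h u53; have u55 : p283 := Classical.byContradiction fun h => c376 u54 u17 h; have u56 : ¬p285 := fun h => c378 h u54 n13; have u57 : p279 := Classical.byContradiction fun h => c1285 u19 u55 h u0; have u58 : ¬p280 := fun h => c370 h u33 u57; have u59 : ¬p281 := fun h => c372 h u58 n7; have u60 : p297 := Classical.byContradiction fun h => c393 n23 u59 u56 u10 n22 h; have u61 : p296 := Classical.byContradiction fun h => c392 u60 h; have u62 : p295 := Classical.byContradiction fun h => c389 u61 u18 h; have u63 : p307 := Classical.byContradiction fun h => c1430 u62 h n10 u7 u8 u9; have u64 : p344 := Classical.byContradiction fun h => c1731 n1 n2 u41 n17 n7 n5 n4 n13 n21 u50 n18 n14 n19 u37 n0 n20 n9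 h n10 u20; have u65 : ¬p409 := fun h => c522 u64 h; have u66 : ¬p407 := fun h => c520 u65 u63 u34 h; have u67 : p339 := Classical.byContradiction fun h => c1733 u62 u19 u45 n10 h n2 n9 u14 n0 n17; have u68 : p334 := Classical.byContradiction fun h => c1528 h n1 n14 u37 n18 u67 n19 n13 n5 n0 n20; have u69 : p329 := Classical.byContradiction fun h => c1728 h u68 u19 u0; have u70 : ¬p167 := fun h => c1737 u62 u19 u45 n10 h u66 n9 u14; have u71 : p169 := Classical.byContradiction fun h => c200 u70 h; have u72 : p343 := Classical.byContradiction fun h => c738 h u71; have u73 : ¬p342 := fun h => c443 u64 h u72; have u74 : ¬p140 := fun h => c1473 u73 h n16; have u75 : ¬p139 := fun h => c128 h u74; have u76 : p141 := Classical.byContradiction fun h => c197 u75 h; have u77 : ¬p338 := fun h => c1741 u73 n10 h; have u78 : p340 := Classical.byContradiction fun h => c437 h u24 n17 u77; have u79 : ¬p400 := fun h => c509 u78 h; have u80 : ¬p399 := fun h => c508 u79 u16 n0 h; have u81 : ¬p415 := fun h => c1778 h n5 u45 n1 u62 n10 u21 n14 n7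 n13 u38 u80 u69 n9 u51 n4 n3 n2 u73 u43 n0 u76 u46 u20 u36 n8 n15 n12; have u82 : p389 := Classical.byContradiction fun h => c1781 h u19 u45 n10 n11 u21 u62 n5 n0 u23 n14 n15 n12 n16; have u83 : p103 := Classical.byContradiction fun h => c1753 u51 h u82 u2; have u84 : p385 := Classical.byContradiction fun h => c1763 h u82 u2; have u85 : p102 := Classical.byContradiction fun h => c229 h u83; have u86 : ¬p105 := fun h => c79 u85 h; have u87 : p100 := Classical.byContradiction fun h => c666 u85 h; have u88 : p60 := Classical.byContradiction fun h => c1633 u85 h n3; have u89 : p104 := Classical.byContradiction fun h => c78 u87 h; have u90 : ¬p196 := fun h => c261 h u88; have u91 : p376 := Classical.byContradiction fun h => c669 h u89; have u92 : ¬p412 := fun h => c1783 u86 h u81 u80 u77 u69 n4 n3 n2 n7 n5 n13 u90 u91 n1 u38 u82 u51 u47 u36 n8 n9 n12 u63; have u93 : ¬p451 := fun h => c1780 u62 h u19 n11 u92 n10 u21 u45 u15 u4 u5 u1 u0 u6; have u94 : p450 := Classical.byContradiction fun h => c1744 u93 h; have u95 : p155 := Classical.byContradiction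 fun h => c1742 u62 n10 u45 u15 u94 n2 u21 h u4 u5; have u96 : ¬p153 := fun h => c138 h u95; have u97 : p158 := Classical.byContradiction fun h => c728 u95 h; have u98 : p373 := Classical.byContradiction fun h => c1772 u86 h u48 u80 u95 n9 u14 u69 u38 u19; have u99 : ¬p156 := fun h => c723 u96 h; have u100 : ¬p174 := fun h => c1749 u96 h u1 u2; have u101 : p386 := Classical.byContradiction fun h => c729 u97 h; have u102 : p189 := Classical.byContradiction fun h => c241 u99 h; have u103 : p176 := Classical.byContradiction fun h => c245 u100 h; have u104 : ¬p387 := fun h => c486 h u84 u101; have u105 : p381 := Classical.byContradiction fun h => c1757 h u102 n1 u36 n8 u1 u2 u3; have u106 : p179 := Classical.byContradiction fun h => c750 u103 h; have u107 : ¬p388 := fun h => c491 h u104; have u108 : p377 := Classical.byContradiction fun h => c1324 h u105 u19 u0; have u109 : p390 := Classical.byContradiction fun h => c751 h u106; have u110 : ¬p391 := fun h => c494 h u82 u109; have u111 : ¬p392 := fun h => c498 h u110; have u112 :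 p92 := Classical.byContradiction fun h => c1770 u86 u95 u38 u111 h n7 u90 u105 n5 n13 u80 u107 u91 n1 u82 u51 u47 n4 u23; have u113 : ¬p372 := fun h => c1000 u107 u98 u90 u91 n5 n7 u111 n13 u105 u108 h n1; have u114 : p93 := Classical.byContradiction fun h => c70 u112 h; c1784 u113 u103 u114 u84 u86 u81 u80 u77 u69 n4 n3 n2
  have c1788 : ¬p72 → ¬p344 → ¬p33 → p324 → ¬p48 → p1 → p328 → ¬p194 → ¬p227 → ¬p221 → p339 → ¬p261 → p325 → p230 → ¬p274 → p34 → p201 → False := fun n0 n1 n2 n3 n4 n5 n6 n7 n8 n9 n10 n11 n12 n13 n14 n15 n16 =>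
    have u0 : p333 := Classical.byContradiction fun h => c1041 n0 h n6; c1729 n0 n1 n2 n4 n3 n9 n5 n6 n7 n8 u0 n10 n11 n12 n13 n14 n15 n16
  have c1789 : ¬p33 → ¬p72 → p136 → p230 → p425 → p324 → p1 → ¬p221 → ¬p194 → ¬p227 → p34 → ¬p79 → ¬p261 → ¬p48 → p201 → p263 → ¬p235 → p295 → ¬p16 → p329 → ¬p126 → False := fun n0 n1 n2 n3 n4 n5 n6 n7 n8 n9 n10 n11 n12 n13 n14 n15 n16 n17 n18 n19 n20 =>
    have u0 : p429 := Classical.byContradiction fun h => c1012 h; have u1 : p69 := Classical.byContradiction fun h => c907 h; have u2 : p67 := Classical.byContradiction fun h => c823 h; have u3 : p12 := Classical.byContradiction fun h => c12 h; have u4 : p3 := Classical.byContradiction fun h => c1 h; have u5 : ¬p192 := fun h => c256 h; have u6 : p66 := Classical.byContradiction fun h => c263 h; have u7 : p2 := Classical.byContradiction fun h => c0 h; have u8 : ¬p430 := fun h => c566 n6 h; have u9 : p277 := Classical.byContradiction fun h => c1277 h n10 u5 u3 u4; have u10 : ¬p71 := fun h => c55 h n1; have u11 : ¬p134 := fun h => c125 h n2;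 have u12 : p17 := Classical.byContradiction fun h => c15 n6 n18 h; have u13 : p337 := Classical.byContradiction fun h => c879 h n13 u7; have u14 : p325 := Classical.byContradiction fun h => c1162 h u8 n20 n4 u0; have u15 : p327 := Classical.byContradiction fun h => c1039 h n13 n20 n4 u8 u0 u3 u4; have u16 : p334 := Classical.byContradiction fun h => c1496 h n1 n19 u6; have u17 : p409 := Classical.byContradiction fun h => c1465 n17 n11 u11 h n6 n4; have u18 : ¬p340 := fun h => c1460 n17 n10 n4 u8 n11 h; have u19 : ¬p344 := fun h => c522 h u17; have u20 : p339 := Classical.byContradiction fun h => c438 u18 u13 n13 h; have u21 : ¬p274 := fun h => c1482 h n1 u19 n6 n18 u20 n9 n7 n19 n4 u16 n20 n13; have u22 : ¬p275 := fun h => c1377 h u21 n18; have u23 : ¬p276 := fun h => c367 h u22; have u24 : p265 := Classical.byContradiction fun h => c1723 u10 n2 u23 h n9 n12 n16; have u25 : p232 := Classical.byContradiction fun h => c1068 u10 u24 h u2; have u26 : p266 := Classical.byContradiction fun h => c1294 u24 n6 h n15; have u27 : ¬p284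 := fun h => c550 h u26; have u28 : p282 := Classical.byContradiction fun h => c375 u27 u9 h; have u29 : p278 := Classical.byContradiction fun h => c1085 h u28 u1; have u30 : ¬p328 := fun h => c1788 n1 u19 n0 n5 n13 n6 h n8 n9 n7 u20 n12 u14 n3 u21 n10 n14; have u31 : p330 := Classical.byContradiction fun h => c423 h u15 u30; have u32 : ¬p145 := fun h => c1584 u30 h u29; have u33 : ¬p419 := fun h => c540 u31 h; have u34 : ¬p139 := fun h => c131 h u32; have u35 : ¬p418 := fun h => c539 u33 n3 u12 h; c1449 n17 u25 u35 u34 n4 u8 n11 u0 u1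
  have c1791 : ¬p72 → ¬p33 → p34 → p136 → p1 → p425 → p316 → ¬p292 → p426 → p309 → ¬p289 → ¬p205 → ¬p247 → False := fun n0 n1 n2 n3 n4 n5 n6 n7 n8 n9 n10 n11 n12 =>
    have u0 : p132 := Classical.byContradiction fun h => c1291 h; have u1 : p67 := Classical.byContradiction fun h => c823 h; have u2 : p131 := Classical.byContradiction fun h => c264 h; have u3 : p66 := Classical.byContradiction fun h => c263 h; have u4 : ¬p192 := fun h => c256 h; have u5 : ¬p430 := fun h => c566 n4 h; have u6 : ¬p294 := fun h => c1397 h n1 u4; have u7 : ¬p71 := fun h => c55 h n0; have u8 : ¬p107 := fun h => c85 u7 h; have u9 : p201 := Classical.byContradiction fun h => c1513 h n11; have u10 : ¬p134 := fun h => c125 h n3; have u11 : ¬p135 := fun h => c161 u10 h; have u12 : ¬p163 := fun h => c163 u10 h; have u13 : ¬p221 := fun h => c1710 n1 n0 u11 n2 n4 n3 n8 n11 n5 h n12; have u14 : ¬p261 := fun h => c346 h n12 u13; have u15 : p226 := Classical.byContradiction fun h => c1283 h n0 u13; have u16 : ¬p227 := fun h => c1088 n0 h u13 u15; have u17 : ¬p229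 := fun h => c300 h n11 u16; have u18 : p230 := Classical.byContradiction fun h => c1525 h u17 u13; have u19 : p263 := Classical.byContradiction fun h => c1289 h u8 u18 u3; have u20 : ¬p13 := fun h => c1719 n1 u18 n3 h n2 n4; have u21 : ¬p16 := fun h => c250 u20 h; have u22 : ¬p21 := fun h => c1383 u21 h u3; have u23 : p17 := Classical.byContradiction fun h => c15 n4 u21 h; have u24 : ¬p24 := fun h => c251 u22 h; have u25 : ¬p27 := fun h => c21 u24 h; have u26 : p28 := Classical.byContradiction fun h => c22 u24 h; have u27 : p25 := Classical.byContradiction fun h => c20 n4 u24 h; have u28 : p47 := Classical.byContradiction fun h => c1058 u5 u25 h n5; have u29 : p46 := Classical.byContradiction fun h => c178 h u28; have u30 : ¬p194 := fun h => c258 h u29; have u31 : ¬p48 := fun h => c33 n4 u29 h; have u32 : p324 := Classical.byContradiction fun h => c1156 h u28 u30; have u33 : p0 := Classical.byContradiction fun h => c1390 h u14 n0 n4 u30 u23 u13 u18 n5 u32 u16; have u34 : ¬p82 := fun h => c1785 n2 n0 n3 u21 u30 n4 h u13 u12 n8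 u11 u26 n9 u16 n1 n6 n10 u31 u14 u18 u9 u32 n7 u33 u27 n5; have u35 : ¬p85 := fun h => c646 u34 h; have u36 : ¬p74 := fun h => c1519 u34 h u2; have u37 : ¬p86 := fun h => c149 u35 h; have u38 : ¬p79 := fun h => c115 u36 h; have u39 : ¬p77 := fun h => c637 u36 h; have u40 : ¬p235 := fun h => c647 u37 h; have u41 : p81 := Classical.byContradiction fun h => c114 u39 h; have u42 : ¬p268 := fun h => c1259 h u40 u1; have u43 : ¬p264 := fun h => c1521 h u40 n3 u1 u2; have u44 : p279 := Classical.byContradiction fun h => c645 h u41; have u45 : p123 := Classical.byContradiction fun h => c1713 u6 u7 n2 u14 u13 n5 u42 h u16 u33 u31 n4 u19 n7 u38 u44 u43 u21 n8; have u46 : ¬p121 := fun h => c101 h u45; have u47 : ¬p126 := fun h => c193 u46 h; have u48 : p329 := Classical.byContradiction fun h => c1378 h u46 u7; have u49 : ¬p295 := fun h => c1789 n1 n0 n3 u18 n5 u32 n4 u13 u30 u16 n2 u38 u14 u31 u9 u19 u40 h u21 u48 u47; c1790 n6 u49 n3 u12 u0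
  have c1794 : ¬p284 → ¬p221 → ¬p297 → ¬p292 → ¬p227 → p0 → p279 → False := fun n0 n1 n2 n3 n4 n5 n6 =>
    have u0 : ¬p288 := fun h => c804 h; have u1 : ¬p285 := fun h => c378 h n0 n4; have u2 : ¬p280 := fun h => c1086 h n0 n6; have u3 : p281 := Classical.byContradiction fun h => c393 n5 h u1 u0 n3 n2; c372 u3 u2 n1
  have c1795 : ¬p72 → ¬p48 → p1 → ¬p221 → p135 → ¬p292 → p425 → ¬p227 → ¬p297 → p426 → ¬p344 → ¬p261 → ¬p136 → p263 → ¬p235 → ¬p16 → p0 → False := fun n0 n1 n2 n3 n4 n5 n6 n7 n8 n9 n10 n11 n12 n13 n14 n15 n16 =>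
    have u0 : p66 := Classical.byContradiction fun h => c263 h; have u1 : p69 := Classical.byContradiction fun h => c907 h; have u2 : p67 := Classical.byContradiction fun h => c823 h; have u3 : ¬p71 := fun h => c55 h n0; have u4 : ¬p107 := fun h => c85 u3 h; have u5 : ¬p112 := fun h => c1299 h n14 n4 u2; have u6 : ¬p111 := fun h => c91 h u5; have u7 : p113 := Classical.byContradiction fun h => c120 u6 h; have u8 : p283 := Classical.byContradiction fun h => c678 h u7; have u9 : p279 := Classical.byContradiction fun h => c1285 u3 u8 h u1; have u10 : p284 := Classical.byContradiction fun h => c1794 h n3 n8 n5 n7 n16 u9; have u11 : ¬p266 := fun h => c550 u10 h; have u12 : ¬p265 := fun h => c1294 h n2 u11 n13; have u13 : ¬p232 := fun h => c972 h u12 u4 u0; have u14 : p276 := Classical.byContradiction fun h => c1530 u3 u12 h n4 n11 n14 n7 n12; have u15 : ¬p274 := fun h => c1677 h n0 n1 n2 u13 n15 n7 n6 n3 n10 n9; have u16 : p275 := Classical.byContradiction fun h => c367 u14 h; c1377 u16 u15 n15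
  have c1804 : ¬p339 → p34 → p309 → p135 → ¬p48 → False := fun n0 n1 n2 n3 n4 =>
    have u0 : p12 := Classical.byContradiction fun h => c12 h; have u1 : p3 := Classical.byContradiction fun h => c1 h; have u2 : p2 := Classical.byContradiction fun h => c0 h; have u3 : p286 := Classical.byContradiction fun h => c865 h n1 u0 u1; have u4 : p337 := Classical.byContradiction fun h => c879 h n4 u2; have u5 : ¬p144 := fun h => c713 n0 h; have u6 : p340 := Classical.byContradiction fun h => c438 h u4 n4 n0; have u7 : ¬p166 := fun h => c1536 h u5 n2; have u8 : ¬p400 := fun h => c509 u6 h; have u9 : p164 := Classical.byContradiction fun h => c202 h u7; have u10 : ¬p398 := fun h => c507 u8 u3 n1 h; have u11 : p165 := Classical.byContradiction fun h => c165 u9 h; have u12 : ¬p168 := fun h => c1498 h u10 n3; have u13 : ¬p167 := fun h => c167 h u12; c1803 n0 u13 n2 u11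
  have c1805 : p316 → ¬p72 → ¬p33 → ¬p48 → p1 → ¬p227 → ¬p194 → p324 → ¬p221 → p309 → ¬p261 → ¬p344 → p230 → p34 → p201 → p426 → p425 → p339 → ¬p16 → p235 → False := fun n0 n1 n2 n3 n4 n5 n6 n7 n8 n9 n10 n11 n12 n13 n14 n15 n16 n17 n18 n19 =>
    have u0 : p429 := Classical.byContradiction fun h => c1012 h; have u1 : ¬p430 := fun h => c566 n4 h; have u2 : ¬p71 := fun h => c55 h n1; have u3 : p342 := Classical.byContradiction fun h => c1592 n3 h n11; have u4 : p86 := Classical.byContradiction fun h => c647 h n19; have u5 : p93 := Classical.byContradiction fun h => c1796 h u3 n19; have u6 : p85 := Classical.byContradiction fun h => c149 h u4; have u7 : p92 := Classical.byContradiction fun h => c182 h u5; have u8 : p82 := Classical.byContradiction fun h => c646 h u6; have u9 : p89 := Classical.byContradiction fun h => c654 h u7; have u10 : p124 := Classical.byContradiction fun h => c1801 u2 u7 h; have u11 : ¬p84 := fun h => c64 u8 h; have u12 : p94 := Classical.byContradiction fun h => c71 u9 h; have u13 : ¬p127 := fun h => c104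 u10 h; have u14 : ¬p232 := fun h => c1080 h u11 n9; have u15 : ¬p274 := fun h => c1722 n0 n1 n3 u11 n16 n4 u14 n8 n18 n5 h n15; have u16 : p328 := Classical.byContradiction fun h => c660 h u12; have u17 : p325 := Classical.byContradiction fun h => c1009 h u13 u0 u1 n15; c1788 n1 n11 n2 n7 n3 n4 u16 n6 n5 n8 n17 n10 u17 n12 u15 n13 n14
  have c1806 : ¬p72 → ¬p33 → p339 → p1 → p34 → p230 → ¬p227 → ¬p261 → ¬p235 → p201 → ¬p30 → ¬p136 → p307 → ¬p39 → p425 → p279 → p263 → p135 → ¬p274 → False := fun n0 n1 n2 n3 n4 n5 n6 n7 n8 n9 n10 n11 n12 n13 n14 n15 n16 n17 n18 =>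
    have u0 : ¬p334 := fun h => c1587 n0 n2 n4 n3 n8 n10 n11 n15 n5 n12 n13 n14 n7 n18 n16 n6 n17 h n1; c1528 u0 n0 n1 n18 n7 n2 n5 n6 n3 n4 n9
  have c1807 : ¬p72 → ¬p33 → p34 → p1 → p309 → p425 → p426 → ¬p16 → p230 → p316 → p201 → ¬p30 → ¬p136 → p307 → ¬p39 → p263 → p135 → p324 → ¬p344 → ¬p194 → ¬p48 → ¬p221 → ¬p341 → p226 → ¬p247 → False := fun n0 n1 n2 n3 n4 n5 n6 n7 n8 n9 n10 n11 n12 n13 n14 n15 n16 n17 n18 n19 n20 n21 n22 n23 n24 =>
    have u0 : p66 := Classical.byContradiction fun h => c263 h; have u1 : p429 := Classical.byContradiction fun h => c1012 h; have u2 : p69 := Classical.byContradiction fun h => c907 h; have u3 : p67 := Classical.byContradiction fun h => c823 h; have u4 : ¬p430 := fun h => c566 n3 h; have u5 : ¬p71 := fun h => c55 h n0; have u6 : ¬p345 := fun h => c449 h n18; have u7 : p339 := Classical.byContradiction fun h => c1804 h n2 n4 n16 n20; have u8 : ¬p261 := fun h => c346 h n24 n21; have u9 : ¬p227 := fun h => c1088 n0 h n21 n23; have u10 : ¬p235 := fun h => c1805 n9 n0 n1 n20 n3 u9 n19 n17 n21 n4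 u8 n18 n8 n2 n10 n6 n5 u7 n7 h; have u11 : ¬p112 := fun h => c1299 h u10 n16 u3; have u12 : ¬p111 := fun h => c91 h u11; have u13 : p113 := Classical.byContradiction fun h => c120 u12 h; have u14 : p283 := Classical.byContradiction fun h => c678 h u13; have u15 : p279 := Classical.byContradiction fun h => c1285 u5 u14 h u2; have u16 : p274 := Classical.byContradiction fun h => c1806 n0 n1 u7 n3 n2 n8 u9 u8 u10 n10 n11 n12 n13 n14 n5 u15 n15 n16 h; have u17 : p123 := Classical.byContradiction fun h => c1017 u16 u4 n6 h u1; have u18 : ¬p121 := fun h => c101 h u17; have u19 : ¬p126 := fun h => c193 u18 h; have u20 : p329 := Classical.byContradiction fun h => c1378 h u18 u5; have u21 : p334 := Classical.byContradiction fun h => c1496 h n0 u20 u0; c1469 u16 n0 u6 n3 n7 n21 u9 n22 u20 n5 u21 u19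
  have c1808 : ¬p72 → ¬p32 → p309 → p34 → ¬p205 → p1 → p426 → p425 → ¬p247 → ¬p30 → False := fun n0 n1 n2 n3 n4 n5 n6 n7 n8 n9 =>
    have u0 : p131 := Classical.byContradiction fun h => c264 h; have u1 : p132 := Classical.byContradiction fun h => c1291 h; have u2 : p66 := Classical.byContradiction fun h => c263 h; have u3 : p67 := Classical.byContradiction fun h => c823 h; have u4 : p12 := Classical.byContradiction fun h => c12 h; have u5 : p3 := Classical.byContradiction fun h => c1 h; have u6 : ¬p290 := fun h => c1467 h; have u7 : p308 := Classical.byContradiction fun h => c1292 h; have u8 : ¬p430 := fun h => c566 n5 h; have u9 : p286 := Classical.byContradiction fun h => c865 h n3 u4 u5; have u10 : ¬p33 := fun h => c24 n1 h; have u11 : ¬p71 := fun h => c55 h n0; have u12 : ¬p107 := fun h => c85 u11 h; have u13 : p201 := Classical.byContradiction fun h => c1513 h n4; have u14 : p443 := Classical.byContradiction fun h => c1641 h u13; have u15 : ¬p310 := fun h => c402 h u7 n2; have u16 : ¬p311 := fun h => c405 h u15; have u17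 : ¬p289 := fun h => c1676 n5 u16 n1 h n6 n0 n8 n7 n2 n3 n9 u14; have u18 : ¬p291 := fun h => c383 h u17 u6; have u19 : ¬p292 := fun h => c387 h u18; have u20 : p316 := Classical.byContradiction fun h => c1718 n0 u10 n3 h n7 u16 n6 n5 n2 u19 u12 n8 n9 u17; have u21 : ¬p136 := fun h => c1791 n0 u10 n3 h n5 n7 u20 u19 n6 n2 u17 n4 n8; have u22 : p134 := Classical.byContradiction fun h => c162 h u21; have u23 : p41 := Classical.byContradiction fun h => c1091 n3 h u21; have u24 : p307 := Classical.byContradiction fun h => c1139 h u9 u21; have u25 : p135 := Classical.byContradiction fun h => c124 u22 h; have u26 : ¬p39 := fun h => c143 h u23; have u27 : ¬p20 := fun h => c1650 u10 u25 h n0 n5 n4 n3; have u28 : ¬p16 := fun h => c48 h u27; have u29 : p213 := Classical.byContradiction fun h => c1615 u27 h u4; have u30 : ¬p13 := fun h => c594 u28 h; have u31 : ¬p21 := fun h => c1383 u28 h u2; have u32 : p19 := Classical.byContradiction fun h => c16 u30 h; have u33 : ¬p24 := fun h => c251 u31 h; have u34 : p220 := Classical.byContradiction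 fun h => c601 u32 h; have u35 : ¬p27 := fun h => c21 u33 h; have u36 : p25 := Classical.byContradiction fun h => c20 n5 u33 h; have u37 : p226 := Classical.byContradiction fun h => c950 h u34 n0 u2; have u38 : p47 := Classical.byContradiction fun h => c1058 u8 u35 h n7; have u39 : p230 := Classical.byContradiction fun h => c1244 u11 u36 h u3 u4 u5; have u40 : p46 := Classical.byContradiction fun h => c178 h u38; have u41 : p263 := Classical.byContradiction fun h => c1289 h u12 u39 u2; have u42 : ¬p194 := fun h => c258 h u40; have u43 : ¬p48 := fun h => c33 n5 u40 h; have u44 : p324 := Classical.byContradiction fun h => c1156 h u38 u42; have u45 : p343 := Classical.byContradiction fun h => c1499 h u43 u21 n3 u25; have u46 : ¬p344 := fun h => c1474 h u17 u21 u45 n5 u24; have u47 : p342 := Classical.byContradiction fun h => c1592 u43 h u46; have u48 : p338 := Classical.byContradiction fun h => c1481 h u47 u1; have u49 : p339 := Classical.byContradiction fun h => c1804 h n3 n2 u25 u43; have u50 : ¬p340 := fun h => c435 h u48 u49;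 have u51 : ¬p341 := fun h => c440 h u50; have u52 : p221 := Classical.byContradiction fun h => c1807 n0 u10 n3 n5 n2 n7 n6 u28 u39 u20 u13 n9 u21 u24 u26 u41 u25 u44 u46 u42 u43 h u51 u37 n8; have u53 : ¬p416 := fun h => c534 n5 u52 h; have u54 : ¬p86 := fun h => c1672 u29 h u52 n4 u39 n5; have u55 : ¬p415 := fun h => c533 u53 u39 h; have u56 : ¬p85 := fun h => c65 h u54; have u57 : ¬p76 := fun h => c1709 h n3 u55; have u58 : ¬p83 := fun h => c1669 n3 u56 u55 h u21; have u59 : p74 := Classical.byContradiction fun h => c112 h u57; have u60 : ¬p82 := fun h => c63 h u58; c1519 u60 u59 u0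
  have c1809 : p34 → ¬p136 → p221 → p230 → ¬p205 → p213 → p1 → False := fun n0 n1 n2 n3 n4 n5 n6 =>
    have u0 : p131 := Classical.byContradiction fun h => c264 h; have u1 : ¬p416 := fun h => c534 n6 n2 h; have u2 : ¬p86 := fun h => c1672 n5 h n2 n4 n3 n6; have u3 : ¬p415 := fun h => c533 u1 n3 h; have u4 : ¬p85 := fun h => c65 h u2; have u5 : ¬p76 := fun h => c1709 h n0 u3; have u6 : ¬p83 := fun h => c1669 n0 u4 u3 h n1; have u7 : p74 := Classical.byContradiction fun h => c112 h u5; have u8 : ¬p82 := fun h => c63 h u6; c1519 u8 u7 u0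
  have c1810 : p274 → ¬p72 → ¬p345 → p1 → ¬p16 → ¬p227 → ¬p221 → ¬p341 → p425 → p426 → False := fun n0 n1 n2 n3 n4 n5 n6 n7 n8 n9 =>
    have u0 : p66 := Classical.byContradiction fun h => c263 h; have u1 : p429 := Classical.byContradiction fun h => c1012 h; have u2 : ¬p430 := fun h => c566 n3 h; have u3 : ¬p71 := fun h => c55 h n1; have u4 : p123 := Classical.byContradiction fun h => c1017 n0 u2 n9 h u1; have u5 : ¬p121 := fun h => c101 h u4; have u6 : ¬p126 := fun h => c193 u5 h; have u7 : p329 := Classical.byContradiction fun h => c1378 h u5 u3; have u8 : p334 := Classical.byContradiction fun h => c1496 h n1 u7 u0; c1469 n0 n1 n2 n3 n4 n6 n5 n7 u7 n8 u8 u6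
  have c1811 : ¬p72 → ¬p344 → ¬p33 → p324 → p1 → ¬p194 → ¬p227 → ¬p221 → ¬p48 → ¬p261 → p339 → p230 → p34 → p201 → p426 → ¬p30 → ¬p136 → p307 → ¬p39 → p425 → p263 → p135 → p310 → ¬p16 → False := fun n0 n1 n2 n3 n4 n5 n6 n7 n8 n9 n10 n11 n12 n13 n14 n15 n16 n17 n18 n19 n20 n21 n22 n23 =>
    have u0 : p429 := Classical.byContradiction fun h => c1012 h; have u1 : p69 := Classical.byContradiction fun h => c907 h; have u2 : ¬p192 := fun h => c256 h; have u3 : p12 := Classical.byContradiction fun h => c12 h; have u4 : p3 := Classical.byContradiction fun h => c1 h; have u5 : p132 := Classical.byContradiction fun h => c1291 h; have u6 : ¬p430 := fun h => c566 n4 h; have u7 : p277 := Classical.byContradiction fun h => c1277 h n12 u2 u3 u4; have u8 : ¬p71 := fun h => c55 h n0; have u9 : ¬p345 := fun h => c449 h n1; have u10 : p342 := Classical.byContradiction fun h => c1592 n8 h n1; have u11 : p338 := Classical.byContradiction fun h => c1481 h u10 u5; have u12 : ¬p340 := fun h => c435 h u11 n10; have u13 : ¬p341 := fun h => c440 h u12;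 have u14 : ¬p274 := fun h => c1810 h n0 u9 n4 n23 n6 n7 u13 n19 n14; have u15 : ¬p275 := fun h => c1377 h u14 n23; have u16 : ¬p276 := fun h => c367 h u15; have u17 : ¬p284 := fun h => c803 n22 h u16 n6 n9; have u18 : p283 := Classical.byContradiction fun h => c376 u17 u7 h; have u19 : p279 := Classical.byContradiction fun h => c1285 u8 u18 h u1; have u20 : p235 := Classical.byContradiction fun h => c1806 n0 n2 n10 n4 n12 n11 n6 n9 h n13 n15 n16 n17 n18 n19 u19 n20 n21 u14; have u21 : p93 := Classical.byContradiction fun h => c1796 h u10 u20; have u22 : p92 := Classical.byContradiction fun h => c182 h u21; have u23 : p89 := Classical.byContradiction fun h => c654 h u22; have u24 : p124 := Classical.byContradiction fun h => c1801 u8 u22 h; have u25 : p94 := Classical.byContradiction fun h => c71 u23 h; have u26 : ¬p127 := fun h => c104 u24 h; have u27 : p328 := Classical.byContradiction fun h => c660 h u25; have u28 : p325 := Classical.byContradiction fun h => c1009 h u26 u0 u6 n14; c1788 n0 n1 n2 n3 n8 n4 u27 n5 n6 n7 n10 n9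 u28 n11 u14 n12 n13
  have c1813 : p295 → ¬p71 → p34 → p426 → ¬p430 → p425 → p340 → ¬p339 → False := fun n0 n1 n2 n3 n4 n5 n6 n7 =>
    have u0 : p429 := Classical.byContradiction fun h => c1012 h; have u1 : p69 := Classical.byContradiction fun h => c907 h; have u2 : p79 := Classical.byContradiction fun h => c1460 n0 n2 n5 n4 h n6; have u3 : p74 := Classical.byContradiction fun h => c115 h u2; have u4 : ¬p80 := fun h => c61 u3 h; c1812 n0 n1 n7 u4 n3 n4 u0 u1
  have c1814 : ¬p245 → False := fun n0 =>
    have u0 : p69 := Classical.byContradiction fun h => c907 h; c633 n0 u0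
  have c1815 : ¬p72 → ¬p32 → p34 → p1 → p426 → p425 → ¬p30 → False := fun n0 n1 n2 n3 n4 n5 n6 =>
    have u0 : p69 := Classical.byContradiction fun h => c907 h; have u1 : p429 := Classical.byContradiction fun h => c1012 h; have u2 : p2 := Classical.byContradiction fun h => c0 h; have u3 : p66 := Classical.byContradiction fun h => c263 h; have u4 : p67 := Classical.byContradiction fun h => c823 h; have u5 : p12 := Classical.byContradiction fun h => c12 h; have u6 : p3 := Classical.byContradiction fun h => c1 h; have u7 : p245 := Classical.byContradiction fun h => c1814 h; have u8 : ¬p204 := fun h => c938 h; have u9 : ¬p192 := fun h => c256 h; have u10 : ¬p430 := fun h => c566 n3 h; have u11 : p286 := Classical.byContradiction fun h => c865 h n2 u5 u6; have u12 : p277 := Classical.byContradiction fun h => c1277 h n2 u9 u5 u6; have u13 : ¬p33 := fun h => c24 n1 h; have u14 : ¬p294 := fun h => c1397 h u13 u9; have u15 : ¬p71 := fun h => c55 h n0; have u16 : ¬p203 := fun h => c631 n0 h; have u17 : ¬p107 := fun h => c85 u15 h; have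 u18 : p73 := Classical.byContradiction fun h => c88 u15 h; have u19 : ¬p205 := fun h => c267 h u16 u8; have u20 : p246 := Classical.byContradiction fun h => c636 u18 h; have u21 : ¬p247 := fun h => c323 h u7 u20; have u22 : p201 := Classical.byContradiction fun h => c1513 h u19; have u23 : ¬p309 := fun h => c1808 n0 n1 h n2 u19 n3 n4 n5 u21 n6; have u24 : ¬p136 := fun h => c704 u23 h; have u25 : p41 := Classical.byContradiction fun h => c1089 u23 n2 h; have u26 : p134 := Classical.byContradiction fun h => c162 h u24; have u27 : p307 := Classical.byContradiction fun h => c1139 h u11 u24; have u28 : ¬p39 := fun h => c143 h u25; have u29 : p135 := Classical.byContradiction fun h => c124 u26 h; have u30 : p310 := Classical.byContradiction fun h => c404 h u27 u25 u23; have u31 : ¬p289 := fun h => c1082 u23 n3 h n6 u27 u28; have u32 : ¬p20 := fun h => c1650 u13 u29 h n0 n3 u19 n2; have u33 : ¬p291 := fun h => c504 u30 h; have u34 : ¬p16 := fun h => c48 h u32; have u35 : p213 := Classical.byContradiction fun h => c1615 u32 h u5; have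 u36 : ¬p292 := fun h => c387 h u33; have u37 : ¬p13 := fun h => c594 u34 h; have u38 : ¬p21 := fun h => c1383 u34 h u3; have u39 : p17 := Classical.byContradiction fun h => c15 n3 u34 h; have u40 : p19 := Classical.byContradiction fun h => c16 u37 h; have u41 : ¬p24 := fun h => c251 u38 h; have u42 : p220 := Classical.byContradiction fun h => c601 u40 h; have u43 : ¬p27 := fun h => c21 u41 h; have u44 : p25 := Classical.byContradiction fun h => c20 n3 u41 h; have u45 : p226 := Classical.byContradiction fun h => c950 h u42 n0 u3; have u46 : p47 := Classical.byContradiction fun h => c1058 u10 u43 h n5; have u47 : p230 := Classical.byContradiction fun h => c1244 u15 u44 h u4 u5 u6; have u48 : p46 := Classical.byContradiction fun h => c178 h u46; have u49 : p263 := Classical.byContradiction fun h => c1289 h u17 u47 u3; have u50 : ¬p194 := fun h => c258 h u48; have u51 : ¬p48 := fun h => c33 n3 u48 h; have u52 : p324 := Classical.byContradiction fun h => c1156 h u46 u50; have u53 : p337 := Classical.byContradiction fun h => c879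 h u51 u2; have u54 : p343 := Classical.byContradiction fun h => c1499 h u51 u24 n2 u29; have u55 : ¬p344 := fun h => c1474 h u31 u24 u54 n3 u27; have u56 : p342 := Classical.byContradiction fun h => c1592 u51 h u55; have u57 : ¬p221 := fun h => c1809 n2 u24 h u47 u19 u35 n3; have u58 : ¬p261 := fun h => c346 h u21 u57; have u59 : ¬p227 := fun h => c1088 n0 h u57 u45; have u60 : p0 := Classical.byContradiction fun h => c1390 h u58 n0 n3 u50 u39 u57 u47 n5 u52 u59; have u61 : ¬p339 := fun h => c1811 n0 u55 u13 u52 n3 u50 u59 u57 u51 u58 h u47 n2 u22 n4 n6 u24 u27 u28 n5 u49 u29 u30 u34; have u62 : p340 := Classical.byContradiction fun h => c438 h u53 u51 u61; have u63 : ¬p295 := fun h => c1813 h u15 n2 n4 u10 n5 u62 u61; have u64 : ¬p296 := fun h => c389 h u14 u63; have u65 : ¬p297 := fun h => c392 h u64; have u66 : p235 := Classical.byContradiction fun h => c1795 n0 u51 n3 u57 u29 u36 n5 u59 u65 n4 u55 u58 u24 u49 h u34 u60; have u67 : p93 := Classical.byContradiction fun h => c1796 h u56 u66; have u68 : p92 := Classical.byContradiction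 fun h => c182 h u67; have u69 : p124 := Classical.byContradiction fun h => c1801 u15 u68 h; have u70 : p121 := Classical.byContradiction fun h => c688 u69 h; have u71 : ¬p123 := fun h => c101 u70 h; have u72 : ¬p274 := fun h => c1017 h u10 n4 u71 u1; have u73 : ¬p275 := fun h => c1377 h u72 u34; have u74 : ¬p276 := fun h => c367 h u73; have u75 : ¬p284 := fun h => c803 u30 h u74 u59 u58; have u76 : ¬p279 := fun h => c1489 u30 u57 u74 u59 h u58 u65 u60; have u77 : p283 := Classical.byContradiction fun h => c376 u75 u12 h; c1285 u15 u77 u76 u0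
  have c1826 : ¬p201 → False := fun n0 =>
    have u0 : ¬p205 := fun h => c266 h n0; c1513 n0 u0
  have c1831 : p310 → ¬p221 → ¬p276 → p279 → ¬p297 → ¬p227 → ¬p261 → False := fun n0 n1 n2 n3 n4 n5 n6 =>
    have u0 : p0 := Classical.byContradiction fun h => c1241 h n2 n5 n6; c1489 n0 n1 n2 n5 n3 n6 n4 u0
  have c1842 : p121 → p183 → ¬p246 → p300 → False := fun n0 n1 n2 n3 =>
    have u0 : p181 := Classical.byContradiction fun h => c1838 n0 n1 n2 n3 h; have u1 : p127 := Classical.byContradiction fun h => c1840 h n1 n2 n3; have u2 : p124 := Classical.byContradiction fun h => c191 h u0; c104 u2 u1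
  have c1853 : ¬p339 → p34 → p289 → False := fun n0 n1 n2 =>
    have u0 : p12 := Classical.byContradiction fun h => c12 h; have u1 : p3 := Classical.byContradiction fun h => c1 h; have u2 : p286 := Classical.byContradiction fun h => c865 h n1 u0 u1; have u3 : ¬p48 := fun h => c875 n0 n1 h; have u4 : p135 := Classical.byContradiction fun h => c699 n2 h; have u5 : p291 := Classical.byContradiction fun h => c385 h u2 n1 n2; have u6 : p134 := Classical.byContradiction fun h => c161 h u4; have u7 : ¬p309 := fun h => c1804 n0 n1 h u4 u3; have u8 : ¬p310 := fun h => c504 h u5; have u9 : ¬p136 := fun h => c125 u6 h; have u10 : ¬p307 := fun h => c1090 u7 n1 u8 h; c1139 u10 u2 u9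
  have c1900 : ¬p419 → p17 → p417 → False := fun n0 n1 n2 =>
    have u0 : p12 := Classical.byContradiction fun h => c12 h; have u1 : p3 := Classical.byContradiction fun h => c1 h; have u2 : p230 := Classical.byContradiction fun h => c1845 h n1 u0 u1; c538 n0 u2 n1 n2
  have c1903 : ¬p244 → ¬p247 → False := fun n0 n1 =>
    have u0 : ¬p258 := fun h => c340 h n0; have u1 : p259 := Classical.byContradiction fun h => c867 n0 h n1; c343 u1 u0
  have c1908 : ¬p246 → ¬p247 → False := fun n0 n1 =>
    have u0 : p244 := Classical.byContradiction fun h => c1903 h n1; c324 n1 u0 n0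
  have c1919 : p264 → ¬p235 → False := fun n0 n1 =>
    have u0 : p67 := Classical.byContradiction fun h => c823 h; have u1 : p131 := Classical.byContradiction fun h => c264 h; have u2 : p112 := Classical.byContradiction fun h => c672 n0 h; have u3 : ¬p136 := fun h => c1521 n0 n1 h u0 u1; have u4 : ¬p135 := fun h => c1299 u2 n1 h u0; have u5 : p134 := Classical.byContradiction fun h => c162 h u3; c124 u5 u4
  have c1920 : p266 → ¬p221 → p246 → ¬p297 → p0 → ¬p264 → ¬p227 → p277 → ¬p292 → False := fun n0 n1 n2 n3 n4 n5 n6 n7 n8 =>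
    have u0 : ¬p284 := fun h => c550 h n0; have u1 : p265 := Classical.byContradiction fun h => c350 n0 n5 h; have u2 : p282 := Classical.byContradiction fun h => c375 u0 n7 h; have u3 : ¬p279 := fun h => c1794 u0 n1 n3 n8 n6 n4 h; have u4 : p110 := Classical.byContradiction fun h => c674 h u1; have u5 : p108 := Classical.byContradiction fun h => c1917 u2 h u3 n2; c90 u5 u4
  have c1930 : ¬p400 → p398 → p286 → p1 → False := fun n0 n1 n2 n3 =>
    have u0 : ¬p34 := fun h => c507 n0 n2 h n1; have u1 : ¬p30 := fun h => c505 n0 n2 h n1; have u2 : p32 := Classical.byContradiction fun h => c25 n3 h u0; have u3 : ¬p29 := fun h => c107 n3 h u1; c252 u3 u2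
  have c1950 : p60 → ¬p44 → ¬p19 → p329 → p143 → p286 → p30 → ¬p194 → ¬p339 → p1 → False := fun n0 n1 n2 n3 n4 n5 n6 n7 n8 n9 =>
    have u0 : p12 := Classical.byContradiction fun h => c12 h; have u1 : p3 := Classical.byContradiction fun h => c1 h; have u2 : p61 := Classical.byContradiction fun h => c41 n0 h; have u3 : ¬p62 := fun h => c42 n9 n0 h; have u4 : p404 := Classical.byContradiction fun h => c1942 u2 h n1 n4; have u5 : p384 := Classical.byContradiction fun h => c1114 u3 h u0 u1; have u6 : p406 := Classical.byContradiction fun h => c513 h n5 n6 u4; have u7 : ¬p387 := fun h => c517 h u6; have u8 : p386 := Classical.byContradiction fun h => c490 u7 u5 u3 h; c1949 u3 u8 n2 n7 n3 n8 u0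
  have c1959 : p57 → p373 → ¬p61 → False := fun n0 n1 n2 =>
    have u0 : p12 := Classical.byContradiction fun h => c12 h; have u1 : p63 := Classical.byContradiction fun h => c43 n0 h; c847 n0 n1 n2 u1 u0
  have c1963 : ¬p443 → False := fun n0 =>
    have u0 : p201 := Classical.byContradiction fun h => c1826 h; c1641 n0 u0
  have c1990 : p404 → p451 → p1 → p384 → ¬p19 → ¬p194 → p329 → p30 → ¬p339 → p286 → p143 → ¬p44 → ¬p386 → False := fun n0 n1 n2 n3 n4 n5 n6 n7 n8 n9 n10 n11 n12 =>
    have u0 : p443 := Classical.byContradiction fun h => c1963 h; have u1 : p446 := Classical.byContradiction fun h => c830 h; have u2 : p12 := Classical.byContradiction fun h => c12 h; have u3 : ¬p452 := fun h => c581 n2 h; have u4 : ¬p60 := fun h => c1950 h n11 n4 n6 n10 n9 n7 n5 n8 n2; have u5 : p406 := Classical.byContradiction fun h => c513 h n9 n7 n0; have u6 : ¬p61 := fun h => c224 u4 h; have u7 : ¬p387 := fun h => c517 h u5; have u8 : ¬p57 := fun h => c1962 h n1 n4 u6 u3 u0 u1 u2; have u9 : p58 := Classical.byContradiction fun h => c488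 u7 n3 h n12; c225 n2 u8 u9
  have c2016 : ¬p27 → ¬p398 → p29 → p1 → False := fun n0 n1 n2 n3 =>
    have u0 : ¬p430 := fun h => c566 n3 h; have u1 : ¬p424 := fun h => c1036 n3 h; have u2 : p30 := Classical.byContradiction fun h => c107 n3 n2 h; have u3 : p425 := Classical.byContradiction fun h => c562 u1 h; have u4 : ¬p47 := fun h => c1926 h n1 u2; c1058 u0 n0 u4 u3
  have c2040 : p220 → ¬p19 → p205 → False := fun n0 n1 n2 =>
    have u0 : ¬p191 := fun h => c255 h; have u1 : p12 := Classical.byContradiction fun h => c12 h; have u2 : ¬p204 := fun h => c938 h; have u3 : p203 := Classical.byContradiction fun h => c267 n2 h u2; have u4 : ¬p247 := fun h => c503 h n2; have u5 : p72 := Classical.byContradiction fun h => c631 h u3; have u6 : p246 := Classical.byContradiction fun h => c1908 h u4; have u7 : p71 := Classical.byContradiction fun h => c87 h u5; have u8 : ¬p23 := fun h => c2036 h n1 u6 u0 u1; have u9 : ¬p73 := fun h => c56 u7 h; have u10 : p21 := Classical.byContradiction fun h => c19 h u8; have u11 : p26 := Classical.byContradiction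 fun h => c1932 n0 h u9; c84 u10 u11
  have c2041 : ¬p226 → p220 → False := fun n0 n1 =>
    have u0 : p66 := Classical.byContradiction fun h => c263 h; have u1 : ¬p26 := fun h => c608 n0 h; have u2 : p72 := Classical.byContradiction fun h => c950 n0 n1 h u0; have u3 : p73 := Classical.byContradiction fun h => c1932 n1 u1 h; have u4 : p71 := Classical.byContradiction fun h => c87 h u2; c56 u4 u3
  have c2048 : ¬p27 → p220 → p13 → False := fun n0 n1 n2 =>
    have u0 : p201 := Classical.byContradiction fun h => c1826 h; have u1 : p18 := Classical.byContradiction fun h => c49 n2 h; have u2 : ¬p19 := fun h => c50 n2 h; have u3 : p203 := Classical.byContradiction fun h => c2042 h u1 n0; have u4 : ¬p205 := fun h => c2040 n1 u2 h; c268 u4 u0 u3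
  have c2093 : p270 → p263 → ¬p268 → ¬p25 → ¬p135 → ¬p266 → False := fun n0 n1 n2 n3 n4 n5 =>
    have u0 : p131 := Classical.byContradiction fun h => c264 h; have u1 : p22 := Classical.byContradiction fun h => c358 n0 h n3; have u2 : p269 := Classical.byContradiction fun h => c359 n0 n2 h; have u3 : ¬p265 := fun h => c352 n5 n1 u1 h; c1876 n4 u2 u3 u0
  have c2096 : p263 → ¬p135 → ¬p276 → ¬p227 → ¬p25 → ¬p266 → ¬p268 → ¬p261 → False := fun n0 n1 n2 n3 n4 n5 n6 n7 =>
    have u0 : ¬p248 := fun h => c325 h; have u1 : ¬p262 := fun h => c347 h u0 n3; have u2 : ¬p267 := fun h => c356 h n5; have u3 : ¬p270 := fun h => c2093 h n0 n6 n4 n1 n5; have u4 : p271 := Classical.byContradiction fun h => c368 n3 n7 u1 u2 h n2; c363 u4 u3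
  have c2117 : ¬p206 → ¬p19 → p203 → p246 → False := fun n0 n1 n2 n3 =>
    have u0 : ¬p191 := fun h => c255 h; have u1 : p201 := Classical.byContradiction fun h => c1826 h; have u2 : p12 := Classical.byContradiction fun h => c12 h; have u3 : p205 := Classical.byContradiction fun h => c268 h u1 n2; have u4 : p218 := Classical.byContradiction fun h => c1898 h n1 u1; have u5 : ¬p220 := fun h => c2040 h n1 u3; have u6 : ¬p23 := fun h => c2036 h n1 n3 u0 u2; have u7 : p221 := Classical.byContradiction fun h => c291 h u4 u5; have u8 : p21 := Classical.byContradiction fun h => c19 h u6; have u9 : ¬p208 := fun h => c543 h u7; have u10 : p24 := Classical.byContradiction fun h => c602 h u8; have u11 : p197 := Classical.byContradiction fun h => c270 u9 u1 h n0; have u12 : p106 := Classical.byContradiction fun h => c80 u10 h; have u13 : p213 := Classical.byContradiction fun h => c763 u11 h; c2075 u13 u12 n2 u0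
  have c2120 : ¬p22 → ¬p261 → ¬p25 → ¬p227 → ¬p276 → False := fun n0 n1 n2 n3 n4 =>
    have u0 : ¬p248 := fun h => c325 h; have u1 : ¬p262 := fun h => c347 h u0 n3; have u2 : ¬p266 := fun h => c349 h n0 n2; have u3 : ¬p270 := fun h => c358 h n0 n2; have u4 : ¬p267 := fun h => c356 h u2; have u5 : ¬p271 := fun h => c363 h u3; c368 n3 n1 u1 u4 u5 n4
  have c2121 : ¬p135 → ¬p261 → ¬p266 → ¬p227 → ¬p276 → p25 → ¬p268 → False := fun n0 n1 n2 n3 n4 n5 n6 =>
    have u0 : p131 := Classical.byContradiction fun h => c264 h; have u1 : ¬p248 := fun h => c325 h; have u2 : p12 := Classical.byContradiction fun h => c12 h; have u3 : p3 := Classical.byContradiction fun h => c1 h; have u4 : ¬p262 := fun h => c347 h u1 n3; have u5 : p263 := Classical.byContradiction fun h => c1836 h n5 u2 u3; have u6 : ¬p267 := fun h => c356 h n2; have u7 : ¬p265 := fun h => c354 n2 u5 n5 h; have u8 : p271 := Classical.byContradiction fun h => c368 n3 n1 u4 u6 h n4; have u9 : ¬p269 := fun h => c1876 n0 h u7 u0; have u10 : p270 := Classical.byContradiction fun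 h => c363 u8 h; c359 u10 n6 u9
  have c2146 : ¬p135 → p86 → p206 → ¬p217 → False := fun n0 n1 n2 n3 =>
    c2145 n0 n1 n2 n3
  have c2148 : ¬p246 → p250 → p83 → ¬p135 → p206 → ¬p217 → False := fun n0 n1 n2 n3 n4 n5 =>
    have u0 : ¬p133 := fun h => c1436 h; have u1 : ¬p86 := fun h => c2146 n3 h n4 n5; have u2 : ¬p85 := fun h => c65 h u1; c2147 n0 n1 n2 u2 n5 u0
  have c2149 : ¬p229 → ¬p221 → ¬p243 → ¬p232 → ¬p231 → ¬p135 → False := fun n0 n1 n2 n3 n4 n5 =>
    have u0 : ¬p202 := fun h => c265 h; have u1 : ¬p133 := fun h => c1436 h; have u2 : ¬p236 := fun h => c1711 h n3 u1; have u3 : ¬p224 := fun h => c293 h u0 n1; have u4 : ¬p235 := fun h => c1726 n5 h n4; have u5 : ¬p233 := fun h => c304 h n4 n3; have u6 : ¬p237 := fun h => c310 h u4 u2; have u7 : ¬p234 := fun h => c307 h u5; have u8 : ¬p238 := fun h => c316 h u6; c321 n1 u3 n0 u7 u8 n2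
  have c2151 : p231 → p206 → False := fun n0 n1 =>
    have u0 : ¬p190 := fun h => c254 h; c2150 n0 n1 u0
  have c2152 : ¬p205 → p83 → ¬p1 → ¬p232 → p206 → ¬p135 → p244 → ¬p209 → ¬p246 → p227 → False := fun n0 n1 n2 n3 n4 n5 n6 n7 n8 n9 =>
    have u0 : p12 := Classical.byContradiction fun h => c12 h; have u1 : ¬p202 := fun h => c265 h; have u2 : ¬p231 := fun h => c2151 h n4; have u3 : p218 := Classical.byContradiction fun h => c295 n9 h; have u4 : ¬p251 := fun h => c558 h n9; have u5 : ¬p216 := fun h => c285 h n2; have u6 : ¬p243 := fun h => c319 h n2; have u7 : ¬p221 := fun h => c886 n0 h u5; have u8 : p212 := Classical.byContradiction fun h => c287 u1 n0 n7 h u5; have u9 : p220 := Classical.byContradiction fun h => c291 u7 u3 h; have u10 : p229 := Classical.byContradiction fun h => c2149 h u7 u6 n3 u2 n5; have u11 : p211 := Classical.byContradiction fun h => c282 u8 h; have u12 : p226 := Classical.byContradiction fun h => c2041 h u9; have u13 : ¬p217 := fun h => c299 u10 n0 h; have u14 : ¬p225 := fun h => c296 n9 h u12; have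 u15 : ¬p250 := fun h => c2148 n8 h n1 n5 n4 u13; have u16 : ¬p27 := fun h => c609 u14 h; have u17 : p200 := Classical.byContradiction fun h => c331 u4 n6 h u15; have u18 : ¬p13 := fun h => c2048 u16 u9 h; have u19 : p198 := Classical.byContradiction fun h => c2140 u17 h n8; have u20 : ¬p16 := fun h => c250 u18 h; have u21 : ¬p197 := fun h => c277 u11 h u19; have u22 : ¬p20 := fun h => c17 u20 h; c1617 u22 u21 u0
  have c2160 : ¬p416 → ¬p199 → p72 → p217 → False := fun n0 n1 n2 n3 =>
    have u0 : p201 := Classical.byContradiction fun h => c1826 h; have u1 : p230 := Classical.byContradiction fun h => c2155 h n3 u0; have u2 : ¬p414 := fun h => c532 n0 u1 h; c2159 u2 n1 n2 n3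
  have c2169 : ¬p229 → ¬p205 → ¬p234 → ¬p230 → ¬p238 → p222 → ¬p243 → ¬p322 → False := fun n0 n1 n2 n3 n4 n5 n6 n7 =>
    have u0 : ¬p202 := fun h => c265 h; have u1 : ¬p190 := fun h => c254 h; have u2 : p221 := Classical.byContradiction fun h => c1525 n3 n0 h; have u3 : p216 := Classical.byContradiction fun h => c886 n1 u2 h; have u4 : p1 := Classical.byContradiction fun h => c285 u3 h; have u5 : p215 := Classical.byContradiction fun h => c286 u3 h; have u6 : p224 := Classical.byContradiction fun h => c416 u4 u1 n7 h n0 n2 n4 n6; have u7 : ¬p223 := fun h => c546 u4 u5 h; c294 u6 u0 n5 u7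
  have c2170 : ¬p230 → ¬p238 → ¬p246 → ¬p135 → ¬p232 → p206 → ¬p217 → p222 → ¬p234 → p83 → False := fun n0 n1 n2 n3 n4 n5 n6 n7 n8 n9 =>
    have u0 : ¬p191 := fun h => c255 h; have u1 : p12 := Classical.byContradiction fun h => c12 h; have u2 : p3 := Classical.byContradiction fun h => c1 h; have u3 : p6 := Classical.byContradiction fun h => c4 h; have u4 : p201 := Classical.byContradiction fun h => c1826 h; have u5 : p247 := Classical.byContradiction fun h => c1908 n2 h; have u6 : p244 := Classical.byContradiction fun h => c322 u5 h; have u7 : ¬p205 := fun h => c503 u5 h; have u8 : ¬p203 := fun h => c268 u7 u4 h; have u9 : ¬p250 := fun h => c2148 n2 h n9 n3 n5 n6; have u10 : ¬p239 := fun h => c1204 n0 h u3; have u11 : ¬p17 := fun h => c1845 n0 h u1 u2; have u12 : ¬p319 := fun h => c2165 n0 h n6; have u13 : ¬p242 := fun h => c317 h u10; have u14 : ¬p322 := fun h => c414 h u12; have u15 : ¬p243 := fun h => c320 h u13; have u16 : p229 := Classical.byContradiction fun h => c2169 h u7 n8 n0 n1 n7 u15 u14; have u17 : p227 := Classical.byContradiction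 fun h => c300 u16 u7 h; have u18 : ¬p251 := fun h => c558 h u17; have u19 : ¬p208 := fun h => c559 u5 h u17; have u20 : p199 := Classical.byContradiction fun h => c329 u18 u6 h u9; have u21 : ¬p209 := fun h => c275 h u19; have u22 : ¬p22 := fun h => c2153 u20 h u0; have u23 : p1 := Classical.byContradiction fun h => c2152 u7 n9 h n4 n5 n3 u6 u21 n2 u17; have u24 : ¬p21 := fun h => c82 u23 h u22; have u25 : p16 := Classical.byContradiction fun h => c15 u23 h u11; have u26 : ¬p24 := fun h => c251 u24 h; have u27 : p13 := Classical.byContradiction fun h => c250 h u25; have u28 : ¬p27 := fun h => c21 u26 h; have u29 : p18 := Classical.byContradiction fun h => c49 u27 h; c2042 u8 u29 u28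
  have c2171 : p1 → p116 → p227 → ¬p203 → ¬p250 → ¬p76 → p244 → False := fun n0 n1 n2 n3 n4 n5 n6 =>
    have u0 : ¬p133 := fun h => c1436 h; have u1 : p12 := Classical.byContradiction fun h => c12 h; have u2 : p3 := Classical.byContradiction fun h => c1 h; have u3 : ¬p191 := fun h => c255 h; have u4 : ¬p251 := fun h => c558 h n2; have u5 : ¬p421 := fun h => c549 n0 n2 h; have u6 : p199 := Classical.byContradiction fun h => c329 u4 n6 h n4; have u7 : ¬p22 := fun h => c2153 u6 h u3; have u8 : ¬p21 := fun h => c82 n0 h u7; have u9 : ¬p24 := fun h => c251 u8 h; have u10 : ¬p27 := fun h => c21 u9 h; have u11 : p25 := Classical.byContradiction fun h => c20 n0 u9 h; have u12 : ¬p18 := fun h => c2042 n3 h u10; have u13 : p263 := Classical.byContradiction fun h => c1836 h u11 u1 u2; have u14 : ¬p13 := fun h => c49 h u12; have u15 : ¬p420 := fun h => c548 u5 u13 h; have u16 : ¬p16 := fun h => c250 u14 h; have u17 : ¬p17 := fun h => c2055 h u15 n5 n1 u0; c15 n0 u16 u17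
  have c2219 : ¬p423 → p91 → p72 → p22 → ¬p414 → p230 → ¬p246 → False := fun n0 n1 n2 n3 n4 n5 n6 =>
    have u0 : p66 := Classical.byContradiction fun h => c263 h; have u1 : ¬p107 := fun h => c2208 h n4 n3; have u2 : p422 := Classical.byContradiction fun h => c2206 h n4 n2 n3 n1 n6; have u3 : p263 := Classical.byContradiction fun h => c1289 h u1 n5 u0; c552 n0 u3 n3 u2
  have c2220 : ¬p324 → p47 → False := fun n0 n1 =>
    have u0 : p46 := Classical.byContradiction fun h => c178 h n1; have u1 : p194 := Classical.byContradiction fun h => c1156 n0 n1 h; c258 u1 u0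
  have c2221 : ¬p221 → ¬p220 → False := fun n0 n1 =>
    have u0 : p201 := Classical.byContradiction fun h => c1826 h; have u1 : ¬p19 := fun h => c601 h n1; have u2 : ¬p218 := fun h => c291 n0 h n1; c1898 u2 u1 u0
  have c2224 : ¬p140 → ¬p85 → p89 → False := fun n0 n1 n2 =>
    have u0 : ¬p133 := fun h => c1436 h; have u1 : p132 := Classical.byContradiction fun h => c1291 h; have u2 : ¬p139 := fun h => c128 h n0; have u3 : ¬p141 := fun h => c2213 n0 n1 n2 h u0 u1; c197 u2 u3
  have c2251 : p1 → p217 → p72 → ¬p203 → p13 → ¬p73 → False := fun n0 n1 n2 n3 n4 n5 =>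
    have u0 : ¬p191 := fun h => c255 h; have u1 : p201 := Classical.byContradiction fun h => c1826 h; have u2 : p18 := Classical.byContradiction fun h => c49 n4 h; have u3 : ¬p19 := fun h => c50 n4 h; have u4 : p27 := Classical.byContradiction fun h => c2042 n3 u2 h; have u5 : p218 := Classical.byContradiction fun h => c1898 h u3 u1; have u6 : p24 := Classical.byContradiction fun h => c21 h u4; have u7 : p21 := Classical.byContradiction fun h => c251 h u6; have u8 : ¬p26 := fun h => c84 u7 h; have u9 : p22 := Classical.byContradiction fun h => c82 n0 u7 h; have u10 : ¬p220 := fun h => c1932 h u8 n5; have u11 : ¬p199 := fun h => c2153 h u9 u0; have u12 : p221 := Classical.byContradiction fun h => c291 h u5 u10; have u13 : p416 := Classical.byContradiction fun h => c2160 h u11 n2 n1; c534 n0 u12 u13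
  have c2259 : ¬p246 → p417 → ¬p91 → ¬p203 → p17 → False := fun n0 n1 n2 n3 n4 =>
    have u0 : p201 := Classical.byContradiction fun h => c1826 h; have u1 : p419 := Classical.byContradiction fun h => c1900 h n4 n1; have u2 : ¬p330 := fun h => c540 h u1; have u3 : p329 := Classical.byContradiction fun h => c1006 h u2 u0; have u4 : p127 := Classical.byContradiction fun h => c2247 h n0 u3; have u5 : p126 := Classical.byContradiction fun h => c2257 n3 n1 h u3 n2; have u6 : ¬p124 := fun h => c104 h u4; have u7 : p121 := Classical.byContradiction fun h => c193 h u5; have u8 : ¬p181 := fun h => c191 u6 h; c1915 u7 n0 u3 u8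
  have c2266 : ¬p207 → p197 → ¬p208 → ¬p205 → ¬p216 → False := fun n0 n1 n2 n3 n4 =>
    have u0 : ¬p202 := fun h => c265 h; have u1 : p201 := Classical.byContradiction fun h => c1826 h; have u2 : ¬p209 := fun h => c275 h n2; have u3 : p198 := Classical.byContradiction fun h => c273 n2 u1 h n0; have u4 : p212 := Classical.byContradiction fun h => c287 u0 n3 u2 h n4; have u5 : ¬p211 := fun h => c277 h n1 u3; c282 u4 u5
  have c2267 : p265 → p25 → ¬p266 → False := fun n0 n1 n2 =>
    have u0 : p12 := Classical.byContradiction fun h => c12 h; have u1 : p3 := Classical.byContradiction fun h => c1 h; have u2 : p263 := Classical.byContradiction fun h => c1836 h n1 u0 u1; c354 n2 u2 n1 n0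
  have c2275 : ¬p123 → ¬p246 → p217 → ¬p417 → p122 → p72 → p1 → ¬p73 → ¬p203 → False := fun n0 n1 n2 n3 n4 n5 n6 n7 n8 =>
    have u0 : p429 := Classical.byContradiction fun h => c1012 h; have u1 : ¬p430 := fun h => c566 n6 h; have u2 : ¬p424 := fun h => c1036 n6 h; have u3 : ¬p13 := fun h => c2251 n6 n2 n5 n8 h n7; have u4 : p426 := Classical.byContradiction fun h => c563 u2 h; have u5 : ¬p16 := fun h => c250 u3 h; have u6 : ¬p274 := fun h => c1017 h u1 u4 n0 u0; have u7 : p17 := Classical.byContradiction fun h => c15 n6 u5 h; c2274 u6 u7 n2 n3 n1 n4 n5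
  have c2281 : ¬p123 → ¬p246 → p217 → ¬p417 → p1 → p72 → ¬p73 → ¬p203 → False := fun n0 n1 n2 n3 n4 n5 n6 n7 =>
    have u0 : p121 := Classical.byContradiction fun h => c190 h n0; have u1 : ¬p122 := fun h => c2275 n0 n1 n2 n3 h n5 n4 n6 n7; c100 u0 u1
  have c2285 : p1 → ¬p93 → ¬p73 → ¬p203 → p217 → p72 → False := fun n0 n1 n2 n3 n4 n5 =>
    have u0 : p429 := Classical.byContradiction fun h => c1012 h; have u1 : ¬p430 := fun h => c566 n0 h; have u2 : ¬p424 := fun h => c1036 n0 h; have u3 : ¬p13 := fun h => c2251 n0 n4 n5 n3 h n2; have u4 : p425 := Classical.byContradiction fun h => c562 u2 h; have u5 : ¬p16 := fun h => c250 u3 h; have u6 : p48 := Classical.byContradiction fun h => c2255 n1 h n5 n4 u1 u4 u0; have u7 : ¬p20 := fun h => c17 u5 h; have u8 : ¬p46 := fun h => c33 n0 h u6; have u9 : ¬p225 := fun h => c814 u7 h n5; have u10 : ¬p47 := fun h => c178 u8 h; have u11 : ¬p27 := fun h => c609 u9 h; c1058 u1 u11 u10 u4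
  have c2291 : p232 → p217 → ¬p225 → p279 → ¬p216 → p247 → p0 → p72 → ¬p297 → p197 → False := fun n0 n1 n2 n3 n4 n5 n6 n7 n8 n9 =>
    have u0 : ¬p4 := fun h => c2 h; have u1 : ¬p192 := fun h => c256 h; have u2 : p12 := Classical.byContradiction fun h => c12 h; have u3 : p3 := Classical.byContradiction fun h => c1 h; have u4 : ¬p68 := fun h => c799 h; have u5 : p7 := Classical.byContradiction fun h => c5 h; have u6 : ¬p190 := fun h => c254 h; have u7 : ¬p205 := fun h => c503 n5 h; have u8 : ¬p221 := fun h => c886 u7 h n4; have u9 : p76 := Classical.byContradiction fun h => c640 n0 h; have u10 : ¬p207 := fun h => c2264 n0 h u6; have u11 : ¬p74 := fun h => c58 h u9; have u12 : p265 := Classical.byContradiction fun h => c2288 u10 n1 h u4; have u13 : p208 := Classical.byContradiction fun h => c2266 u10 n9 h u7 n4; have u14 : ¬p79 := fun h => c115 u11 h; have u15 : ¬p227 := fun h => c559 n5 u13 h; have u16 : ¬p282 := fun h => c1858 h u14 n7; have u17 : ¬p218 := fun h => c297 u15 h n2; have u18 : p25 := Classical.byContradiction fun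 h => c2286 u17 n1 h u10 u4 u5 u0; have u19 : p266 := Classical.byContradiction fun h => c2267 u12 u18 h; have u20 : ¬p284 := fun h => c550 h u19; have u21 : ¬p277 := fun h => c375 u20 h u16; have u22 : p292 := Classical.byContradiction fun h => c1794 u20 u8 n8 h u15 n6 n3; have u23 : ¬p34 := fun h => c1277 u21 h u1 u2 u3; have u24 : p291 := Classical.byContradiction fun h => c387 u22 h; have u25 : p286 := Classical.byContradiction fun h => c381 u24 h; have u26 : p30 := Classical.byContradiction fun h => c382 u24 h u23; have u27 : p29 := Classical.byContradiction fun h => c23 h u26; have u28 : ¬p31 := fun h => c108 u27 h; c2290 u17 u28 u25 u0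
  have c2292 : p247 → p217 → ¬p1 → ¬p235 → p279 → ¬p73 → p72 → False := fun n0 n1 n2 n3 n4 n5 n6 =>
    have u0 : ¬p133 := fun h => c1436 h; have u1 : p12 := Classical.byContradiction fun h => c12 h; have u2 : ¬p202 := fun h => c265 h; have u3 : p132 := Classical.byContradiction fun h => c1291 h; have u4 : ¬p231 := fun h => c1910 h n3 u3; have u5 : ¬p205 := fun h => c503 n0 h; have u6 : ¬p224 := fun h => c292 h u2 n1; have u7 : ¬p229 := fun h => c299 h u5 n1; have u8 : ¬p216 := fun h => c285 h n2; have u9 : ¬p243 := fun h => c319 h n2; have u10 : ¬p259 := fun h => c342 h n2; have u11 : ¬p297 := fun h => c391 h n2; have u12 : ¬p221 := fun h => c886 u5 h u8; have u13 : p0 := Classical.byContradiction fun h => c785 h u8 u10; have u14 : p220 := Classical.byContradiction fun h => c2221 u12 h; have u15 : p26 := Classical.byContradiction fun h => c1932 u14 h n5; have u16 : ¬p21 := fun h => c84 h u15; have u17 : ¬p24 := fun h => c251 u16 h; have u18 : ¬p27 := fun h => c21 u17 h; have u19 : ¬p13 := fun h => c2048 u18 u14 h; have u20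 : ¬p16 := fun h => c250 u19 h; have u21 : ¬p20 := fun h => c17 u20 h; have u22 : p197 := Classical.byContradiction fun h => c1617 u21 h u1; have u23 : ¬p225 := fun h => c814 u21 h n6; have u24 : ¬p232 := fun h => c2291 h n1 u23 n4 u8 n0 u13 n6 u11 u22; have u25 : ¬p236 := fun h => c1711 h u24 u0; have u26 : ¬p233 := fun h => c304 h u4 u24; have u27 : ¬p237 := fun h => c310 h n3 u25; have u28 : ¬p234 := fun h => c307 h u26; have u29 : ¬p238 := fun h => c316 h u27; c321 u12 u6 u7 u28 u29 u9
  have c2293 : ¬p229 → ¬p221 → ¬p243 → ¬p235 → ¬p224 → ¬p232 → False := fun n0 n1 n2 n3 n4 n5 =>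
    have u0 : ¬p133 := fun h => c1436 h; have u1 : p132 := Classical.byContradiction fun h => c1291 h; have u2 : ¬p231 := fun h => c1910 h n3 u1; have u3 : ¬p236 := fun h => c1711 h n5 u0; have u4 : ¬p233 := fun h => c304 h u2 n5; have u5 : ¬p237 := fun h => c310 h n3 u3; have u6 : ¬p234 := fun h => c307 h u4; have u7 : ¬p238 := fun h => c316 h u5; c321 n1 n4 n0 u6 u7 n2
  have c2294 : ¬p246 → ¬p417 → p72 → p279 → ¬p235 → ¬p73 → p217 → False := fun n0 n1 n2 n3 n4 n5 n6 =>
    have u0 : ¬p4 := fun h => c2 h; have u1 : ¬p192 := fun h => c256 h; have u2 : p12 := Classical.byContradiction fun h => c12 h; have u3 : p3 := Classical.byContradiction fun h => c1 h; have u4 : p429 := Classical.byContradiction fun h => c1012 h; have u5 : ¬p190 := fun h => c254 h; have u6 : p66 := Classical.byContradiction fun h => c263 h; have u7 : ¬p202 := fun h => c265 h; have u8 : p201 := Classical.byContradiction fun h => c1826 h; have u9 : p247 := Classical.byContradiction fun h => c1908 n0 h; have u10 : ¬p205 := fun h => c503 u9 h; have u11 : ¬p203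 := fun h => c268 u10 u8 h; have u12 : ¬p224 := fun h => c292 h u7 n6; have u13 : ¬p229 := fun h => c299 h u10 n6; have u14 : p1 := Classical.byContradiction fun h => c2292 u9 n6 h n4 n3 n5 n2; have u15 : ¬p430 := fun h => c566 u14 h; have u16 : ¬p424 := fun h => c1036 u14 h; have u17 : ¬p13 := fun h => c2251 u14 n6 n2 u11 h n5; have u18 : p123 := Classical.byContradiction fun h => c2281 h n0 n6 n1 u14 n2 n5 u11; have u19 : p93 := Classical.byContradiction fun h => c2285 u14 h n5 u11 n6 n2; have u20 : p425 := Classical.byContradiction fun h => c562 u16 h; have u21 : p19 := Classical.byContradiction fun h => c16 u17 h; have u22 : ¬p16 := fun h => c250 u17 h; have u23 : p92 := Classical.byContradiction fun h => c182 h u19; have u24 : p220 := Classical.byContradiction fun h => c601 u21 h; have u25 : ¬p20 := fun h => c17 u22 h; have u26 : ¬p21 := fun h => c1383 u22 h u6; have u27 : p89 := Classical.byContradiction fun h => c654 h u23; have u28 : ¬p225 := fun h => c814 u25 h n2; have u29 : ¬p240 := fun h => c2252 u25 h u5 u2; have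 u30 : ¬p24 := fun h => c251 u26 h; have u31 : ¬p91 := fun h => c69 u27 h; have u32 : ¬p27 := fun h => c609 u28 h; have u33 : p25 := Classical.byContradiction fun h => c20 u14 u30 h; have u34 : ¬p241 := fun h => c2245 h u31 n1 u20 u15 n2 u4; have u35 : p47 := Classical.byContradiction fun h => c1058 u15 u32 h u20; have u36 : p263 := Classical.byContradiction fun h => c1836 h u33 u2 u3; have u37 : ¬p242 := fun h => c318 h u29 u34; have u38 : p46 := Classical.byContradiction fun h => c178 h u35; have u39 : ¬p243 := fun h => c320 h u37; have u40 : ¬p48 := fun h => c33 u14 u38 h; have u41 : p420 := Classical.byContradiction fun h => c1188 u40 u18 h; have u42 : p421 := Classical.byContradiction fun h => c548 h u36 u41; have u43 : ¬p227 := fun h => c549 u14 h u42; have u44 : ¬p218 := fun h => c297 u43 h u28; have u45 : ¬p221 := fun h => c1479 u24 u43 h; have u46 : p232 := Classical.byContradiction fun h => c2293 u13 u45 u39 n4 u12 h; have u47 : p76 := Classical.byContradiction fun h => c640 u46 h; have u48 : p265 := Classical.byContradiction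 fun h => c2260 u46 h u31 u18; have u49 : ¬p74 := fun h => c58 h u47; have u50 : p266 := Classical.byContradiction fun h => c1294 u48 u14 h u36; have u51 : ¬p79 := fun h => c115 u49 h; have u52 : ¬p284 := fun h => c550 h u50; have u53 : ¬p282 := fun h => c1858 h u51 n2; have u54 : ¬p277 := fun h => c375 u52 h u53; have u55 : ¬p34 := fun h => c1277 u54 h u1 u2 u3; have u56 : p32 := Classical.byContradiction fun h => c25 u14 h u55; have u57 : p29 := Classical.byContradiction fun h => c252 h u56; have u58 : ¬p31 := fun h => c108 u57 h; have u59 : ¬p293 := fun h => c2282 h u44 u58 u1 u0; have u60 : ¬p286 := fun h => c2290 u44 u58 h u0; have u61 : ¬p296 := fun h => c388 h u59; have u62 : ¬p291 := fun h => c381 h u60; have u63 : ¬p297 := fun h => c392 h u61; have u64 : ¬p292 := fun h => c387 h u62; have u65 : ¬p0 := fun h => c1794 u52 u45 u63 u64 u43 h n3; have u66 : ¬p234 := fun h => c306 h u65; have u67 : ¬p238 := fun h => c315 h u65; c321 u45 u12 u13 u66 u67 u39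
  have c2295 : ¬p0 → ¬p243 → ¬p221 → ¬p229 → False := fun n0 n1 n2 n3 =>
    have u0 : ¬p202 := fun h => c265 h; have u1 : ¬p224 := fun h => c293 h u0 n2; have u2 : ¬p234 := fun h => c306 h n0; have u3 : ¬p238 := fun h => c315 h n0; c321 n2 u1 n3 u2 u3 n1
  have c2296 : p1 → ¬p282 → ¬p218 → ¬p284 → ¬p221 → p0 → p279 → False := fun n0 n1 n2 n3 n4 n5 n6 =>
    have u0 : ¬p4 := fun h => c2 h; have u1 : ¬p192 := fun h => c256 h; have u2 : p12 := Classical.byContradiction fun h => c12 h; have u3 : p3 := Classical.byContradiction fun h => c1 h; have u4 : ¬p227 := fun h => c295 h n2; have u5 : ¬p277 := fun h => c375 n3 h n1; have u6 : ¬p34 := fun h => c1277 u5 h u1 u2 u3; have u7 : p32 := Classical.byContradiction fun h => c25 n0 h u6; have u8 : p29 := Classical.byContradiction fun h => c252 h u7; have u9 : ¬p31 := fun h => c108 u8 h; have u10 : ¬p293 := fun h => c2282 h n2 u9 u1 u0; have u11 : ¬p286 := fun h => c2290 n2 u9 h u0; have u12 : ¬p296 := fun h => c388 h u10; have u13 : ¬p291 := fun h => c381 h u11; have u14 : ¬p297 := fun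 h => c392 h u12; have u15 : ¬p292 := fun h => c387 h u13; c1794 n3 n4 u14 u15 u4 n5 n6
  have c2299 : ¬p207 → p197 → ¬p208 → ¬p205 → False := fun n0 n1 n2 n3 =>
    have u0 : p201 := Classical.byContradiction fun h => c1826 h; have u1 : ¬p215 := fun h => c1614 n0 h n2 u0; have u2 : p216 := Classical.byContradiction fun h => c2266 n0 n1 n2 n3 h; c286 u2 u1
  have c2301 : p232 → ¬p265 → False := fun n0 n1 =>
    have u0 : ¬p68 := fun h => c799 h; c2300 n0 n1 u0
  have c2303 : ¬p207 → p1 → p265 → p72 → p247 → ¬p417 → ¬p282 → ¬p221 → p279 → ¬p73 → False := fun n0 n1 n2 n3 n4 n5 n6 n7 n8 n9 =>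
    have u0 : p429 := Classical.byContradiction fun h => c1012 h; have u1 : ¬p68 := fun h => c799 h; have u2 : ¬p190 := fun h => c254 h; have u3 : p12 := Classical.byContradiction fun h => c12 h; have u4 : p3 := Classical.byContradiction fun h => c1 h; have u5 : ¬p205 := fun h => c503 n4 h; have u6 : ¬p430 := fun h => c566 n1 h; have u7 : ¬p424 := fun h => c1036 n1 h; have u8 : p425 := Classical.byContradiction fun h => c562 u7 h; have u9 : p220 := Classical.byContradiction fun h => c2221 n7 h; have u10 : p26 := Classical.byContradiction fun h => c1932 u9 h n9; have u11 : ¬p21 := fun h => c84 h u10; have u12 : ¬p24 := fun h => c251 u11 h; have u13 : ¬p27 := fun h => c21 u12 h; have u14 : p25 := Classical.byContradiction fun h => c20 n1 u12 h; have u15 : ¬p13 := fun h => c2048 u13 u9 h; have u16 : p263 := Classical.byContradiction fun h => c1836 h u14 u3 u4; have u17 : p266 := Classical.byContradiction fun h => c2267 n2 u14 h; have u18 : ¬p16 := fun h => c250 u15 h; have u19 : ¬p284 := fun h => c550 h u17; have u20 : ¬p20 :=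 fun h => c17 u18 h; have u21 : p197 := Classical.byContradiction fun h => c1617 u20 h u3; have u22 : ¬p225 := fun h => c814 u20 h n3; have u23 : ¬p240 := fun h => c2252 u20 h u2 u3; have u24 : p208 := Classical.byContradiction fun h => c2299 n0 u21 h u5; have u25 : ¬p227 := fun h => c559 n4 u24 h; have u26 : ¬p229 := fun h => c300 h u5 u25; have u27 : ¬p218 := fun h => c297 u25 h u22; have u28 : ¬p0 := fun h => c2296 n1 n6 u27 u19 n7 h n8; have u29 : p243 := Classical.byContradiction fun h => c2295 u28 h n7 u26; have u30 : p242 := Classical.byContradiction fun h => c320 u29 h; have u31 : p241 := Classical.byContradiction fun h => c318 u30 u23 h; have u32 : p91 := Classical.byContradiction fun h => c2245 u31 h n5 u8 u6 n3 u0; have u33 : ¬p89 := fun h => c69 h u32; have u34 : ¬p94 := fun h => c187 u33 h; have u35 : ¬p92 := fun h => c654 u33 h; have u36 : ¬p333 := fun h => c2215 h u34 n3; have u37 : p327 := Classical.byContradiction fun h => c2217 h u7 n3 u8 u34; have u38 : ¬p93 := fun h => c182 u35 h; have u39 : p335 := Classical.byContradiction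 fun h => c429 h u37 u36; have u40 : ¬p423 := fun h => c555 u39 h; have u41 : ¬p422 := fun h => c554 u40 u16 u14 h; c2302 u31 u41 u38 u8 u6 n3 u0 u1
  have c2304 : p232 → ¬p417 → p72 → p279 → p247 → p1 → ¬p73 → False := fun n0 n1 n2 n3 n4 n5 n6 =>
    have u0 : p201 := Classical.byContradiction fun h => c1826 h; have u1 : ¬p190 := fun h => c254 h; have u2 : ¬p205 := fun h => c503 n4 h; have u3 : p76 := Classical.byContradiction fun h => c640 n0 h; have u4 : ¬p207 := fun h => c2264 n0 h u1; have u5 : ¬p74 := fun h => c58 h u3; have u6 : ¬p79 := fun h => c115 u5 h; have u7 : ¬p282 := fun h => c1858 h u6 n2; have u8 : p265 := Classical.byContradiction fun h => c2301 n0 h; have u9 : p221 := Classical.byContradiction fun h => c2303 u4 n5 u8 n2 n4 n1 u7 h n3 n6; have u10 : ¬p208 := fun h => c543 h u9; have u11 : p197 := Classical.byContradiction fun h => c271 u10 u0 h u4; c2299 u4 u11 u10 u2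
  have c2305 : p1 → p91 → p72 → ¬p246 → ¬p415 → ¬p414 → p230 → False := fun n0 n1 n2 n3 n4 n5 n6 =>
    have u0 : ¬p430 := fun h => c566 n0 h; have u1 : ¬p424 := fun h => c1036 n0 h; have u2 : p425 := Classical.byContradiction fun h => c562 u1 h; have u3 : ¬p89 := fun h => c69 h n1; have u4 : p48 := Classical.byContradiction fun h => c1698 h n1 n4; have u5 : ¬p94 := fun h => c187 u3 h; have u6 : ¬p46 := fun h => c33 n0 h u4; have u7 : ¬p333 := fun h => c2215 h u5 n2; have u8 : p327 := Classical.byContradiction fun h => c2217 h u1 n2 u2 u5; have u9 : ¬p47 := fun h => c178 u6 h; have u10 : p335 := Classical.byContradiction fun h => c429 h u8 u7; have u11 : p27 := Classical.byContradiction fun h => c1058 u0 h u9 u2; have u12 : ¬p423 := fun h => c555 u10 h; have u13 : p24 := Classical.byContradiction fun h => c21 h u11; have u14 : ¬p22 := fun h => c2219 u12 n1 n2 h n5 n6 n3; have u15 : p21 := Classical.byContradiction fun h => c251 h u13; c82 n0 u15 u14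
  have c2307 : p242 → ¬p417 → p72 → p425 → ¬p416 → p1 → ¬p246 → ¬p217 → False := fun n0 n1 n2 n3 n4 n5 n6 n7 =>
    have u0 : p429 := Classical.byContradiction fun h => c1012 h; have u1 : p6 := Classical.byContradiction fun h => c4 h; have u2 : ¬p430 := fun h => c566 n5 h; have u3 : p239 := Classical.byContradiction fun h => c317 n0 h; have u4 : p230 := Classical.byContradiction fun h => c1204 h u3 u1; have u5 : ¬p414 := fun h => c532 n4 u4 h; have u6 : ¬p415 := fun h => c533 n4 u4 h; have u7 : ¬p91 := fun h => c2305 n5 h n2 n6 u6 u5 u4; have u8 : ¬p241 := fun h => c2245 h u7 n1 n3 u2 n2 u0; have u9 : p240 := Classical.byContradiction fun h => c318 n0 h u8; c2306 u5 u9 n7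
  have c2311 : p76 → ¬p217 → p207 → False := fun n0 n1 n2 =>
    c2310 n0 n1 n2
  have c2313 : ¬p246 → ¬p417 → p221 → ¬p85 → p1 → ¬p238 → p72 → p426 → p425 → ¬p217 → ¬p205 → p116 → p244 → ¬p234 → False := fun n0 n1 n2 n3 n4 n5 n6 n7 n8 n9 n10 n11 n12 n13 =>
    have u0 : p429 := Classical.byContradiction fun h => c1012 h; have u1 : ¬p133 := fun h => c1436 h; have u2 : p132 := Classical.byContradiction fun h => c1291 h; have u3 : p12 := Classical.byContradiction fun h => c12 h; have u4 : ¬p190 := fun h => c254 h; have u5 : ¬p202 := fun h => c265 h; have u6 : p131 := Classical.byContradiction fun h => c264 h; have u7 : p201 := Classical.byContradiction fun h => c1826 h; have u8 : ¬p203 := fun h => c268 n10 u7 h; have u9 : ¬p430 := fun h => c566 n4 h; have u10 : ¬p208 := fun h => c543 h n2; have u11 : p206 := Classical.byContradiction fun h => c1224 h n10 n2; have u12 : p216 := Classical.byContradiction fun h => c886 n10 n2 h; have u13 : ¬p416 := fun h => c534 n4 n2 h; have u14 : p215 := Classical.byContradiction fun h => c286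 u12 h; have u15 : ¬p223 := fun h => c546 n4 u14 h; have u16 : p207 := Classical.byContradiction fun h => c1614 h u14 u10 u7; have u17 : ¬p242 := fun h => c2307 h n1 n6 n8 u13 n4 n0 n9; have u18 : ¬p243 := fun h => c320 h u17; have u19 : ¬p76 := fun h => c2311 h n9 u16; have u20 : p74 := Classical.byContradiction fun h => c112 h u19; have u21 : p75 := Classical.byContradiction fun h => c57 u20 h; have u22 : p82 := Classical.byContradiction fun h => c1519 h u20 u6; have u23 : p222 := Classical.byContradiction fun h => c2167 h u21 u11; have u24 : p83 := Classical.byContradiction fun h => c63 u22 h; have u25 : ¬p224 := fun h => c294 h u5 u23 u15; have u26 : ¬p250 := fun h => c2147 n0 h u24 n3 n9 u1; have u27 : ¬p227 := fun h => c2171 n4 n11 h u8 u26 u19 n12; have u28 : ¬p229 := fun h => c300 h n10 u27; have u29 : ¬p220 := fun h => c1479 h u27 n2; have u30 : p322 := Classical.byContradiction fun h => c416 n4 u4 h u25 u28 n13 n5 u18; have u31 : ¬p19 := fun h => c601 h u29; have u32 : p319 := Classical.byContradiction fun h => c414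 u30 h; have u33 : p13 := Classical.byContradiction fun h => c16 h u31; have u34 : p230 := Classical.byContradiction fun h => c2165 h u32 n9; have u35 : p18 := Classical.byContradiction fun h => c49 u33 h; have u36 : ¬p414 := fun h => c532 u13 u34 h; have u37 : ¬p415 := fun h => c533 u13 u34 h; have u38 : ¬p91 := fun h => c2305 n4 h n6 n0 u37 u36 u34; have u39 : p27 := Classical.byContradiction fun h => c2042 u8 u35 h; have u40 : p89 := Classical.byContradiction fun h => c184 h u38; have u41 : p24 := Classical.byContradiction fun h => c21 h u39; have u42 : p94 := Classical.byContradiction fun h => c71 u40 h; have u43 : p140 := Classical.byContradiction fun h => c2224 h n3 u40; have u44 : p21 := Classical.byContradiction fun h => c251 h u41; have u45 : p328 := Classical.byContradiction fun h => c660 h u42; have u46 : p333 := Classical.byContradiction fun h => c2200 h u8 u42; have u47 : p338 := Classical.byContradiction fun h => c710 h u43; have u48 : ¬p26 := fun h => c84 u44 h; have u49 : p22 := Classical.byContradiction fun h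 => c82 n4 u44 h; have u50 : p45 := Classical.byContradiction fun h => c2173 u9 h u48 n7 u0 u3; have u51 : p265 := Classical.byContradiction fun h => c2177 n3 u36 n6 u21 h u49 n0 u1 u2; have u52 : ¬p43 := fun h => c32 h u50; have u53 : ¬p194 := fun h => c259 h u52; have u54 : ¬p44 := fun h => c180 n4 u52 h; have u55 : ¬p143 := fun h => c2175 u54 h u36 u21; have u56 : p331 := Classical.byContradiction fun h => c2211 h u36 u42 u23 u54; have u57 : ¬p142 := fun h => c129 h u55; have u58 : p144 := Classical.byContradiction fun h => c195 u57 h; have u59 : ¬p92 := fun h => c1694 u57 n3 h u1 u2; have u60 : p339 := Classical.byContradiction fun h => c713 h u58; have u61 : ¬p93 := fun h => c182 u59 h; have u62 : p96 := Classical.byContradiction fun h => c186 u59 h; have u63 : p123 := Classical.byContradiction fun h => c909 u51 h u60; have u64 : ¬p340 := fun h => c435 h u47 u60; have u65 : ¬p167 := fun h => c1706 h u58 u61 u24 u1; have u66 : p329 := Classical.byContradiction fun h => c662 h u62; have u67 : ¬p121 := fun h => c101 h u63;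 have u68 : ¬p341 := fun h => c440 h u64; have u69 : p169 := Classical.byContradiction fun h => c200 u65 h; have u70 : p334 := Classical.byContradiction fun h => c1868 h n0 u66; have u71 : ¬p330 := fun h => c422 h u45 u66; have u72 : ¬p126 := fun h => c193 u67 h; have u73 : p343 := Classical.byContradiction fun h => c738 h u69; have u74 : ¬p335 := fun h => c428 h u46 u70; have u75 : ¬p332 := fun h => c426 h u71 u59 u40 u56 u15; have u76 : p325 := Classical.byContradiction fun h => c1162 h u9 u72 n8 u0; have u77 : p324 := Classical.byContradiction fun h => c2197 h u36 u21 n9 u43 u72 u8; have u78 : ¬p336 := fun h => c431 h u74 u27; have u79 : p345 := Classical.byContradiction fun h => c1155 n4 u68 h u75 u76 u77 u53 u78; have u80 : p344 := Classical.byContradiction fun h => c449 u79 h; have u81 : ¬p342 := fun h => c443 u80 h u73; have u82 : p135 := Classical.byContradiction fun h => c1740 u81 h u47; have u83 : p134 := Classical.byContradiction fun h => c161 h u82; c2312 n3 u83 u20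
  have c2314 : p263 → p227 → p116 → ¬p217 → p17 → p197 → p1 → p247 → False := fun n0 n1 n2 n3 n4 n5 n6 n7 =>
    have u0 : ¬p133 := fun h => c1436 h; have u1 : ¬p205 := fun h => c503 n7 h; have u2 : ¬p208 := fun h => c559 n7 h n1; have u3 : ¬p421 := fun h => c549 n6 n1 h; have u4 : p207 := Classical.byContradiction fun h => c2299 h n5 u2 u1; have u5 : ¬p420 := fun h => c548 u3 n0 h; have u6 : ¬p76 := fun h => c2310 h n3 u4; c2055 n4 u5 u6 n2 u0
  have c2315 : ¬p246 → ¬p417 → ¬p85 → p116 → ¬p73 → p72 → ¬p235 → p1 → p279 → False := fun n0 n1 n2 n3 n4 n5 n6 n7 n8 =>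
    have u0 : p429 := Classical.byContradiction fun h => c1012 h; have u1 : ¬p68 := fun h => c799 h; have u2 : p12 := Classical.byContradiction fun h => c12 h; have u3 : p3 := Classical.byContradiction fun h => c1 h; have u4 : ¬p202 := fun h => c265 h; have u5 : ¬p133 := fun h => c1436 h; have u6 : p132 := Classical.byContradiction fun h => c1291 h; have u7 : ¬p231 := fun h => c1910 h n6 u6; have u8 : p247 := Classical.byContradiction fun h => c1908 n0 h; have u9 : p244 := Classical.byContradiction fun h => c322 u8 h; have u10 : ¬p205 := fun h => c503 u8 h; have u11 : ¬p217 := fun h => c2294 n0 n1 n5 n8 n6 n4 h; have u12 : ¬p430 := fun h => c566 n7 h; have u13 : ¬p424 := fun h => c1036 n7 h; have u14 : p425 := Classical.byContradiction fun h => c562 u13 h; have u15 : p426 := Classical.byContradiction fun h => c563 u13 h; have u16 : ¬p232 := fun h => c2304 h n1 n5 n8 u8 n7 n4; have u17 : ¬p236 := fun h => c1711 h u16 u5; have u18 : ¬p233 := fun h => c304 h u7 u16; have u19 : ¬p237 := fun h => c310 h n6 u17; have u20 : ¬p234 :=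 fun h => c307 h u18; have u21 : ¬p238 := fun h => c316 h u19; have u22 : ¬p221 := fun h => c2313 n0 n1 h n2 n7 u21 n5 u15 u14 u11 u10 n3 u9 u20; have u23 : ¬p224 := fun h => c293 h u4 u22; have u24 : p220 := Classical.byContradiction fun h => c2221 u22 h; have u25 : p26 := Classical.byContradiction fun h => c1932 u24 h n4; have u26 : ¬p21 := fun h => c84 h u25; have u27 : ¬p24 := fun h => c251 u26 h; have u28 : ¬p27 := fun h => c21 u27 h; have u29 : p25 := Classical.byContradiction fun h => c20 n7 u27 h; have u30 : ¬p13 := fun h => c2048 u28 u24 h; have u31 : p263 := Classical.byContradiction fun h => c1836 h u29 u2 u3; have u32 : ¬p14 := fun h => c13 u30 h; have u33 : ¬p16 := fun h => c250 u30 h; have u34 : ¬p414 := fun h => c595 u32 h; have u35 : ¬p20 := fun h => c17 u33 h; have u36 : p17 := Classical.byContradiction fun h => c15 n7 u33 h; have u37 : ¬p240 := fun h => c2306 u34 h u11; have u38 : p197 := Classical.byContradiction fun h => c1617 u35 h u2; have u39 : ¬p227 := fun h => c2314 u31 h n3 u11 u36 u38 n7 u8; have u40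 : ¬p229 := fun h => c300 h u10 u39; have u41 : p243 := Classical.byContradiction fun h => c2293 u40 u22 h n6 u23 u16; have u42 : p242 := Classical.byContradiction fun h => c320 u41 h; have u43 : p241 := Classical.byContradiction fun h => c318 u42 u37 h; have u44 : p91 := Classical.byContradiction fun h => c2245 u43 h n1 u14 u12 n5 u0; have u45 : ¬p89 := fun h => c69 h u44; have u46 : ¬p94 := fun h => c187 u45 h; have u47 : ¬p92 := fun h => c654 u45 h; have u48 : ¬p333 := fun h => c2215 h u46 n5; have u49 : p327 := Classical.byContradiction fun h => c2217 h u13 n5 u14 u46; have u50 : ¬p93 := fun h => c182 u47 h; have u51 : p335 := Classical.byContradiction fun h => c429 h u49 u48; have u52 : p422 := Classical.byContradiction fun h => c2302 u43 h u50 u14 u12 n5 u0 u1; have u53 : ¬p423 := fun h => c555 u51 h; c554 u53 u31 u29 u52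
  have c2316 : p227 → ¬p85 → ¬p216 → ¬p217 → ¬p246 → p197 → False := fun n0 n1 n2 n3 n4 n5 =>
    have u0 : p132 := Classical.byContradiction fun h => c1291 h; have u1 : ¬p202 := fun h => c265 h; have u2 : p247 := Classical.byContradiction fun h => c1908 n4 h; have u3 : p244 := Classical.byContradiction fun h => c322 u2 h; have u4 : ¬p205 := fun h => c503 u2 h; have u5 : ¬p254 := fun h => c560 h n0; have u6 : ¬p208 := fun h => c559 u2 h n0; have u7 : ¬p209 := fun h => c275 h u6; have u8 : p207 := Classical.byContradiction fun h => c2299 h n5 u6 u4; have u9 : p212 := Classical.byContradiction fun h => c287 u1 u4 u7 h n2; have u10 : ¬p76 := fun h => c2310 h n3 u8; have u11 : p211 := Classical.byContradiction fun h => c282 u9 h; have u12 : p74 := Classical.byContradiction fun h => c112 h u10; have u13 : ¬p198 := fun h => c277 u11 n5 h; have u14 : p75 := Classical.byContradiction fun h => c57 u12 h; have u15 : ¬p200 := fun h => c2140 h u13 n4; have u16 : ¬p253 := fun h => c2241 h n4 u14 n1 n3 u0; c337 u5 u3 u15 u16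
  have c2317 : ¬p284 → ¬p218 → ¬p282 → ¬p297 → p0 → ¬p221 → ¬p227 → p279 → False := fun n0 n1 n2 n3 n4 n5 n6 n7 =>
    have u0 : ¬p4 := fun h => c2 h; have u1 : ¬p192 := fun h => c256 h; have u2 : p12 := Classical.byContradiction fun h => c12 h; have u3 : p3 := Classical.byContradiction fun h => c1 h; have u4 : ¬p277 := fun h => c375 n0 h n2; have u5 : p292 := Classical.byContradiction fun h => c1794 n0 n5 n3 h n6 n4 n7; have u6 : ¬p34 := fun h => c1277 u4 h u1 u2 u3; have u7 : p291 := Classical.byContradiction fun h => c387 u5 h; have u8 : p286 := Classical.byContradiction fun h => c381 u7 h; have u9 : p30 := Classical.byContradiction fun h => c382 u7 h u6; have u10 : p31 := Classical.byContradiction fun h => c2290 n1 h u8 u0; have u11 : p29 := Classical.byContradiction fun h => c23 h u9; c108 u11 u10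
  have c2319 : ¬p246 → ¬p417 → ¬p85 → p279 → p116 → ¬p205 → p72 → ¬p73 → ¬p235 → False := fun n0 n1 n2 n3 n4 n5 n6 n7 n8 =>
    have u0 : ¬p68 := fun h => c799 h; have u1 : p7 := Classical.byContradiction fun h => c5 h; have u2 : ¬p4 := fun h => c2 h; have u3 : p12 := Classical.byContradiction fun h => c12 h; have u4 : ¬p202 := fun h => c265 h; have u5 : ¬p217 := fun h => c2294 n0 n1 n6 n3 n8 n7 h; have u6 : ¬p1 := fun h => c2315 n0 n1 n2 n4 n7 n6 n8 h n3; have u7 : ¬p216 := fun h => c285 h u6; have u8 : ¬p243 := fun h => c319 h u6; have u9 : ¬p259 := fun h => c342 h u6; have u10 : ¬p297 := fun h => c391 h u6; have u11 : ¬p221 := fun h => c886 n5 h u7; have u12 : p0 := Classical.byContradiction fun h => c785 h u7 u9; have u13 : ¬p224 := fun h => c293 h u4 u11; have u14 : p220 := Classical.byContradiction fun h => c2221 u11 h; have u15 : p26 := Classical.byContradiction fun h => c1932 u14 h n7; have u16 : ¬p21 := fun h => c84 h u15; have u17 : ¬p24 := fun h => c251 u16 h; have u18 : ¬p27 := fun h => c21 u17 h; have u19 : ¬p13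 := fun h => c2048 u18 u14 h; have u20 : ¬p16 := fun h => c250 u19 h; have u21 : ¬p20 := fun h => c17 u20 h; have u22 : p197 := Classical.byContradiction fun h => c1617 u21 h u3; have u23 : ¬p225 := fun h => c814 u21 h n6; have u24 : ¬p227 := fun h => c2316 h n2 u7 u5 n0 u22; have u25 : ¬p229 := fun h => c300 h n5 u24; have u26 : ¬p218 := fun h => c297 u24 h u23; have u27 : p232 := Classical.byContradiction fun h => c2293 u25 u11 u8 n8 u13 h; have u28 : p76 := Classical.byContradiction fun h => c640 u27 h; have u29 : p265 := Classical.byContradiction fun h => c2300 u27 h u0; have u30 : ¬p74 := fun h => c58 h u28; have u31 : ¬p79 := fun h => c115 u30 h; have u32 : ¬p282 := fun h => c1858 h u31 n6; have u33 : p284 := Classical.byContradiction fun h => c2317 h u26 u32 u10 u12 u11 u24 n3; have u34 : ¬p266 := fun h => c550 u33 h; have u35 : ¬p25 := fun h => c2267 u29 h u34; c2318 u27 u35 u26 u0 u1 u2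
  have c2320 : ¬p246 → ¬p85 → ¬p1 → ¬p17 → ¬p205 → ¬p217 → ¬p73 → False := fun n0 n1 n2 n3 n4 n5 n6 =>
    have u0 : p12 := Classical.byContradiction fun h => c12 h; have u1 : ¬p202 := fun h => c265 h; have u2 : ¬p216 := fun h => c285 h n2; have u3 : ¬p243 := fun h => c319 h n2; have u4 : ¬p221 := fun h => c886 n4 h u2; have u5 : ¬p224 := fun h => c293 h u1 u4; have u6 : p220 := Classical.byContradiction fun h => c2221 u4 h; have u7 : p26 := Classical.byContradiction fun h => c1932 u6 h n6; have u8 : ¬p21 := fun h => c84 h u7; have u9 : ¬p24 := fun h => c251 u8 h; have u10 : ¬p27 := fun h => c21 u9 h; have u11 : ¬p13 := fun h => c2048 u10 u6 h; have u12 : ¬p14 := fun h => c13 u11 h; have u13 : ¬p16 := fun h => c250 u11 h; have u14 : ¬p237 := fun h => c309 h u12 n3; have u15 : ¬p233 := fun h => c303 h u12 n3; have u16 : ¬p20 := fun h => c17 u13 h; have u17 : ¬p238 := fun h => c316 h u14; have u18 : ¬p234 := fun h => c307 h u15; have u19 : p197 := Classical.byContradiction fun h => c1617 u16 h u0; have u20 : p229 := Classical.byContradiction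 fun h => c321 u4 u5 h u18 u17 u3; have u21 : ¬p227 := fun h => c2316 h n1 u2 n5 n0 u19; c300 u20 n4 u21
  have c2321 : ¬p246 → p143 → ¬p85 → ¬p217 → ¬p235 → ¬p205 → ¬p73 → ¬p17 → False := fun n0 n1 n2 n3 n4 n5 n6 n7 =>
    have u0 : p131 := Classical.byContradiction fun h => c264 h; have u1 : ¬p133 := fun h => c1436 h; have u2 : ¬p190 := fun h => c254 h; have u3 : p201 := Classical.byContradiction fun h => c1826 h; have u4 : p429 := Classical.byContradiction fun h => c1012 h; have u5 : p12 := Classical.byContradiction fun h => c12 h; have u6 : p132 := Classical.byContradiction fun h => c1291 h; have u7 : ¬p231 := fun h => c1910 h n4 u6; have u8 : ¬p203 := fun h => c268 n5 u3 h; have u9 : p1 := Classical.byContradiction fun h => c2320 n0 n2 h n7 n5 n3 n6; have u10 : ¬p430 := fun h => c566 u9 h; have u11 : ¬p424 := fun h => c1036 u9 h; have u12 : p16 := Classical.byContradiction fun h => c15 u9 h n7; have u13 : p426 := Classical.byContradiction fun h => c563 u11 h; have u14 : p13 := Classical.byContradiction fun h => c250 h u12;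 have u15 : p18 := Classical.byContradiction fun h => c49 u14 h; have u16 : ¬p19 := fun h => c50 u14 h; have u17 : p14 := Classical.byContradiction fun h => c47 u9 u14 h; have u18 : p27 := Classical.byContradiction fun h => c2042 u8 u15 h; have u19 : p218 := Classical.byContradiction fun h => c1898 h u16 u3; have u20 : ¬p197 := fun h => c2308 h u17 n3; have u21 : p24 := Classical.byContradiction fun h => c21 h u18; have u22 : p21 := Classical.byContradiction fun h => c251 h u21; have u23 : ¬p26 := fun h => c84 u22 h; have u24 : ¬p220 := fun h => c1932 h u23 n6; have u25 : p45 := Classical.byContradiction fun h => c2173 u10 h u23 u13 u4 u5; have u26 : p221 := Classical.byContradiction fun h => c291 h u19 u24; have u27 : ¬p43 := fun h => c32 h u25; have u28 : ¬p208 := fun h => c543 h u26; have u29 : p206 := Classical.byContradiction fun h => c1224 h n5 u26; have u30 : ¬p416 := fun h => c534 u9 u26 h; have u31 : ¬p44 := fun h => c180 u9 u27 h; have u32 : p207 := Classical.byContradiction fun h => c271 u28 u3 u20 h; have u33 : ¬p232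 := fun h => c2264 h u32 u2; have u34 : ¬p76 := fun h => c2310 h n3 u32; have u35 : ¬p236 := fun h => c1711 h u33 u1; have u36 : ¬p233 := fun h => c304 h u7 u33; have u37 : p74 := Classical.byContradiction fun h => c112 h u34; have u38 : ¬p237 := fun h => c310 h n4 u35; have u39 : ¬p234 := fun h => c307 h u36; have u40 : p75 := Classical.byContradiction fun h => c57 u37 h; have u41 : p82 := Classical.byContradiction fun h => c1519 h u37 u0; have u42 : ¬p134 := fun h => c2312 n2 h u37; have u43 : ¬p238 := fun h => c316 h u38; have u44 : p222 := Classical.byContradiction fun h => c2167 h u40 u29; have u45 : p414 := Classical.byContradiction fun h => c2175 u31 n1 h u40; have u46 : p83 := Classical.byContradiction fun h => c63 u41 h; have u47 : ¬p135 := fun h => c161 u42 h; have u48 : ¬p230 := fun h => c532 u30 h u45; c2170 u48 u43 n0 u47 u33 u29 n3 u44 u39 u46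
  have c2322 : ¬p246 → p116 → ¬p73 → ¬p85 → p72 → p279 → ¬p235 → False := fun n0 n1 n2 n3 n4 n5 n6 =>
    have u0 : ¬p133 := fun h => c1436 h; have u1 : p132 := Classical.byContradiction fun h => c1291 h; have u2 : p201 := Classical.byContradiction fun h => c1826 h; have u3 : p247 := Classical.byContradiction fun h => c1908 n0 h; have u4 : ¬p205 := fun h => c503 u3 h; have u5 : ¬p203 := fun h => c268 u4 u2 h; have u6 : p417 := Classical.byContradiction fun h => c2319 n0 h n3 n5 n1 u4 n4 n2 n6; have u7 : p93 := Classical.byContradiction fun h => c655 h u6; have u8 : p92 := Classical.byContradiction fun h => c182 h u7; have u9 : p89 := Classical.byContradiction fun h => c654 h u8; have u10 : p142 := Classical.byContradiction fun h => c1694 h n3 u8 u0 u1; have u11 : ¬p91 := fun h => c69 u9 h; have u12 : p143 := Classical.byContradiction fun h => c129 u10 h; have u13 : ¬p17 := fun h => c2259 n0 u6 u11 u5 h; have u14 : p217 := Classical.byContradiction fun h => c2321 n0 u12 n3 h n6 u4 n2 u13; have u15 : p1 := Classical.byContradiction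 fun h => c2292 u3 u14 h n6 n5 n2 n4; have u16 : ¬p13 := fun h => c2251 u15 u14 n4 u5 h n2; have u17 : p16 := Classical.byContradiction fun h => c15 u15 h u13; c250 u16 u17
  have c2324 : ¬p205 → p197 → p221 → p116 → p263 → p230 → p1 → p17 → p220 → False := fun n0 n1 n2 n3 n4 n5 n6 n7 n8 =>
    have u0 : ¬p133 := fun h => c1436 h; have u1 : ¬p190 := fun h => c254 h; have u2 : ¬p208 := fun h => c543 h n2; have u3 : ¬p416 := fun h => c534 n6 n2 h; have u4 : p227 := Classical.byContradiction fun h => c1479 n8 h n2; have u5 : p207 := Classical.byContradiction fun h => c2299 h n1 u2 n0; have u6 : ¬p415 := fun h => c533 u3 n5 h; have u7 : ¬p421 := fun h => c549 n6 u4 h; have u8 : ¬p232 := fun h => c2264 h u5 u1; have u9 : ¬p420 := fun h => c548 u7 n4 h; have u10 : p76 := Classical.byContradiction fun h => c2055 n7 u9 h n3 u0; have u11 : ¬p34 := fun h => c1709 u10 h u6; have u12 : p32 := Classical.byContradiction fun h => c25 n6 h u11; have u13 : p29 := Classical.byContradiction fun h => c252 h u12; have u14 : ¬p31 := fun h => c108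 u13 h; c2323 n7 u14 u8
  have c2326 : p227 → p116 → ¬p73 → ¬p247 → p256 → p263 → p17 → p1 → False := fun n0 n1 n2 n3 n4 n5 n6 n7 =>
    have u0 : ¬p190 := fun h => c254 h; have u1 : ¬p133 := fun h => c1436 h; have u2 : ¬p248 := fun h => c325 h; have u3 : p244 := Classical.byContradiction fun h => c1903 h n3; have u4 : ¬p251 := fun h => c558 h n0; have u5 : ¬p254 := fun h => c560 h n0; have u6 : ¬p421 := fun h => c549 n7 n0 h; have u7 : ¬p252 := fun h => c333 h u4; have u8 : ¬p255 := fun h => c339 h u5; have u9 : ¬p420 := fun h => c548 u6 n5 h; have u10 : p259 := Classical.byContradiction fun h => c344 n3 u2 u7 u8 h; have u11 : p76 := Classical.byContradiction fun h => c2055 n6 u9 h n1 u1; have u12 : p258 := Classical.byContradiction fun h => c343 u10 h; have u13 : ¬p257 := fun h => c341 u12 n4 h; have u14 : ¬p200 := fun h => c766 u13 h; have u15 : p250 := Classical.byContradiction fun h => c331 u4 u3 u14 h; c2325 u11 u15 n2 u0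
  have c2335 : p232 → p1 → p72 → p0 → ¬p221 → ¬p218 → p263 → False := fun n0 n1 n2 n3 n4 n5 n6 =>
    have u0 : ¬p68 := fun h => c799 h; have u1 : p76 := Classical.byContradiction fun h => c640 n0 h; have u2 : p265 := Classical.byContradiction fun h => c2300 n0 h u0; have u3 : ¬p74 := fun h => c58 h u1; have u4 : p266 := Classical.byContradiction fun h => c1294 u2 n1 h n6; have u5 : ¬p79 := fun h => c115 u3 h; have u6 : ¬p77 := fun h => c637 u3 h; have u7 : ¬p284 := fun h => c550 h u4; have u8 : ¬p282 := fun h => c1858 h u5 n2; have u9 : p81 := Classical.byContradiction fun h => c114 u6 h; have u10 : ¬p279 := fun h => c2296 n1 u8 n5 u7 n4 n3 h; c645 u10 u9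
  have c2344 : p270 → ¬p269 → p205 → ¬p73 → False := fun n0 n1 n2 n3 =>
    have u0 : ¬p301 := fun h => c557 n2 h n0; have u1 : p268 := Classical.byContradiction fun h => c359 n0 h n1; have u2 : p300 := Classical.byContradiction fun h => c1238 h u0; have u3 : p118 := Classical.byContradiction fun h => c680 u1 h; have u4 : p117 := Classical.byContradiction fun h => c155 h u3; have u5 : ¬p120 := fun h => c99 u4 h; c2343 u5 u2 n3
  have c2347 : p1 → p344 → ¬p136 → p286 → ¬p289 → p339 → False := fun n0 n1 n2 n3 n4 n5 =>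
    have u0 : p343 := Classical.byContradiction fun h => c1210 h n5 n2; have u1 : p307 := Classical.byContradiction fun h => c1139 h n3 n2; c1474 n1 n4 n2 u0 n0 u1
  have c2359 : p264 → p1 → ¬p73 → p230 → False := fun n0 n1 n2 n3 =>
    have u0 : p132 := Classical.byContradiction fun h => c1291 h; have u1 : p235 := Classical.byContradiction fun h => c1919 n0 h; have u2 : p237 := Classical.byContradiction fun h => c1201 n1 n3 u1 h; have u3 : ¬p301 := fun h => c535 h u2; have u4 : p300 := Classical.byContradiction fun h => c1238 h u3; have u5 : p120 := Classical.byContradiction fun h => c2343 h u4 n2; have u6 : ¬p117 := fun h => c99 h u5; have u7 : ¬p118 := fun h => c155 u6 h; c2358 n0 u7 u0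
  have c2374 : ¬p203 → p417 → ¬p126 → ¬p91 → p17 → False := fun n0 n1 n2 n3 n4 =>
    have u0 : p201 := Classical.byContradiction fun h => c1826 h; have u1 : p419 := Classical.byContradiction fun h => c1900 h n4 n1; have u2 : ¬p329 := fun h => c2257 n0 n1 n2 h n3; have u3 : ¬p330 := fun h => c540 h u1; c1006 u2 u3 u0
  have c2377 : p268 → p1 → ¬p73 → p230 → False := fun n0 n1 n2 n3 =>
    have u0 : p67 := Classical.byContradiction fun h => c823 h; have u1 : p118 := Classical.byContradiction fun h => c680 n0 h; have u2 : p235 := Classical.byContradiction fun h => c1259 n0 h u0; have u3 : p117 := Classical.byContradiction fun h => c155 h u1; have u4 : p237 := Classical.byContradiction fun h => c1201 n1 n3 u2 h; have u5 : ¬p120 := fun h => c99 u3 h; have u6 : ¬p301 := fun h => c535 h u4; have u7 : ¬p300 := fun h => c2343 u5 h n2; c1238 u7 u6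
  have c2384 : p123 → ¬p71 → p89 → False := fun n0 n1 n2 =>
    have u0 : p67 := Classical.byContradiction fun h => c823 h; have u1 : ¬p121 := fun h => c101 h n0; have u2 : ¬p124 := fun h => c688 h u1; have u3 : ¬p92 := fun h => c1801 n1 h u2; have u4 : ¬p93 := fun h => c182 u3 h; c2383 n0 n1 n2 u4 u0
  have c2389 : ¬p284 → ¬p286 → p0 → ¬p227 → p279 → ¬p221 → False := fun n0 n1 n2 n3 n4 n5 =>
    have u0 : ¬p192 := fun h => c256 h; have u1 : ¬p291 := fun h => c381 h n1; have u2 : ¬p293 := fun h => c2385 h n1 u0; have u3 : ¬p292 := fun h => c387 h u1; have u4 : ¬p296 := fun h => c388 h u2; have u5 : p297 := Classical.byContradiction fun h => c1794 n0 n5 h u3 n3 n2 n4; c392 u5 u4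
  have c2407 : ¬p451 → p232 → p136 → ¬p19 → False := fun n0 n1 n2 n3 =>
    have u0 : ¬p190 := fun h => c254 h; have u1 : p12 := Classical.byContradiction fun h => c12 h; have u2 : p450 := Classical.byContradiction fun h => c1744 n0 h; c2406 n0 n1 n2 n3 u2 u0 u1
  have c2410 : ¬p388 → p372 → ¬p196 → ¬p379 → ¬p392 → ¬p383 → p1 → ¬p60 → False := fun n0 n1 n2 n3 n4 n5 n6 n7 =>
    have u0 : p373 := Classical.byContradiction fun h => c1955 h n1 n7; c997 n0 n1 n2 n3 n4 n5 u0 n6
  have c2428 : p386 → p372 → ¬p196 → p389 → ¬p379 → p373 → p385 → p1 → ¬p383 → False := fun n0 n1 n2 n3 n4 n5 n6 n7 n8 =>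
    have u0 : ¬p133 := fun h => c1436 h; have u1 : ¬p387 := fun h => c486 h n6 n0; have u2 : ¬p388 := fun h => c491 h u1; have u3 : p392 := Classical.byContradiction fun h => c997 u2 n1 n2 n4 h n8 n5 n7; have u4 : p391 := Classical.byContradiction fun h => c498 u3 h; have u5 : ¬p390 := fun h => c494 u4 n3 h; c2427 u5 n0 u0
  have c2432 : p386 → p373 → ¬p196 → p385 → ¬p379 → ¬p134 → ¬p383 → p1 → p372 → False := fun n0 n1 n2 n3 n4 n5 n6 n7 n8 =>
    have u0 : ¬p133 := fun h => c1436 h; have u1 : ¬p389 := fun h => c2428 n0 n8 n2 h n4 n1 n3 n7 n6; c2431 u1 n3 n5 u0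
  have c2452 : ¬p307 → p286 → False := fun n0 n1 =>
    have u0 : ¬p133 := fun h => c1436 h; c2451 n0 n1 u0
  have c2456 : ¬p385 → p445 → p441 → p450 → p143 → ¬p412 → ¬p93 → p14 → ¬p452 → False := fun n0 n1 n2 n3 n4 n5 n6 n7 n8 =>
    have u0 : p11 := Classical.byContradiction fun h => c11 h; c2455 n0 n1 n2 n3 n4 n5 n6 n7 n8 u0
  have c2458 : ¬p385 → p445 → p450 → ¬p44 → ¬p93 → p441 → p14 → p1 → p143 → p307 → False := fun n0 n1 n2 n3 n4 n5 n6 n7 n8 n9 =>
    have u0 : p132 := Classical.byContradiction fun h => c1291 h; have u1 : p11 := Classical.byContradiction fun h => c11 h; have u2 : ¬p452 := fun h => c581 n7 h; have u3 : ¬p154 := fun h => c726 n0 h; have u4 : ¬p389 := fun h => c1763 n0 h u0; have u5 : ¬p157 := fun h => c725 u3 h; have u6 : ¬p404 := fun h => c724 h u5; have u7 : ¬p58 := fun h => c2027 h u6 n3 n8; have u8 : p412 := Classical.byContradiction fun h => c2456 n0 n1 n5 n2 n8 h n4 n6 u2; have u9 : p413 := Classical.byContradiction fun h => c1423 u8 h n9 n7; have u10 : ¬p391 := fun h => c531 h u9; have u11 : ¬p384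 := fun h => c495 u10 h u7 u4; have u12 : p449 := Classical.byContradiction fun h => c1132 u11 h u2 n5 u7; c2457 n0 n1 u12 n8 n5 n4 n6 u2 u0 u1
  have c2464 : ¬p442 → p385 → p278 → p384 → False := fun n0 n1 n2 n3 =>
    have u0 : ¬p192 := fun h => c256 h; have u1 : p441 := Classical.byContradiction fun h => c573 h n0; c2463 n0 n1 n3 u1 n2 u0
  have c2466 : ¬p384 → p445 → ¬p442 → p13 → p220 → ¬p452 → ¬p154 → ¬p44 → p143 → False := fun n0 n1 n2 n3 n4 n5 n6 n7 n8 =>
    have u0 : p132 := Classical.byContradiction fun h => c1291 h; have u1 : p11 := Classical.byContradiction fun h => c11 h; have u2 : ¬p4 := fun h => c2 h; have u3 : p441 := Classical.byContradiction fun h => c573 h n2; have u4 : ¬p157 := fun h => c725 n6 h; have u5 : ¬p404 := fun h => c724 h u4; have u6 : ¬p58 := fun h => c2027 h u5 n7 n8; have u7 : p449 := Classical.byContradiction fun h => c1132 n0 h n5 u3 u6; c2465 u3 n2 u7 n1 n6 n3 n4 n5 u0 u1 u2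
  have c2468 : ¬p442 → p445 → p13 → p143 → p220 → ¬p44 → p450 → p278 → ¬p93 → p1 → p286 → False := fun n0 n1 n2 n3 n4 n5 n6 n7 n8 n9 n10 =>
    have u0 : ¬p452 := fun h => c581 n9 h; have u1 : p14 := Classical.byContradiction fun h => c47 n9 n2 h; have u2 : p307 := Classical.byContradiction fun h => c2452 h n10; have u3 : p441 := Classical.byContradiction fun h => c573 h n0; have u4 : p385 := Classical.byContradiction fun h => c2458 h n1 n6 n5 n8 u3 u1 n9 n3 u2; have u5 : ¬p384 := fun h => c2464 n0 u4 n7 h; have u6 : p154 := Classical.byContradiction fun h => c2466 u5 n1 n0 n2 n4 u0 h n5 n3; have u7 : p153 := Classical.byContradiction fun h => c238 h u6; have u8 : ¬p155 := fun h => c138 u7 h; c2467 u5 u8 n10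
  have c2472 : p168 → p116 → p134 → p30 → ¬p44 → p337 → ¬p123 → p286 → False := fun n0 n1 n2 n3 n4 n5 n6 n7 =>
    have u0 : p135 := Classical.byContradiction fun h => c124 n2 h; have u1 : ¬p136 := fun h => c125 n2 h; have u2 : p398 := Classical.byContradiction fun h => c1498 n0 h u0; have u3 : ¬p339 := fun h => c870 n6 n1 u1 h; have u4 : p400 := Classical.byContradiction fun h => c505 h n7 n3 u2; have u5 : p340 := Classical.byContradiction fun h => c436 h n5 n4 u3; c509 u5 u4
  have c2498 : ¬p177 → ¬p158 → ¬p134 → False := fun n0 n1 n2 =>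
    have u0 : p156 := Classical.byContradiction fun h => c237 h n1; have u1 : ¬p157 := fun h => c2419 n0 n1 n2 h; c139 u0 u1
  have c2510 : ¬p387 → p372 → p384 → p1 → ¬p221 → ¬p58 → ¬p227 → p376 → p389 → ¬p71 → False := fun n0 n1 n2 n3 n4 n5 n6 n7 n8 n9 =>
    have u0 : p69 := Classical.byContradiction fun h => c907 h; have u1 : ¬p70 := fun h => c937 h; have u2 : ¬p133 := fun h => c1436 h; have u3 : p220 := Classical.byContradiction fun h => c2221 n4 h; have u4 : ¬p72 := fun h => c87 n9 h; have u5 : ¬p388 := fun h => c491 h n0; have u6 : ¬p57 := fun h => c39 h n5; have u7 : p386 := Classical.byContradiction fun h => c488 n0 n2 n5 h; have u8 : ¬p196 := fun h => c262 h u6; have u9 : ¬p60 := fun h => c623 h u6; have u10 : p390 := Classical.byContradiction fun h => c2427 h u7 u2; have u11 : p64 := Classical.byContradiction fun h => c228 u9 h; have u12 : p373 := Classical.byContradiction fun h => c1955 h n1 u9; have u13 : ¬p391 := fun h => c494 h n8 u10; have u14 : p381 := Classical.byContradiction fun h => c1947 h u11 u3 u1; have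 u15 : ¬p392 := fun h => c498 h u13; have u16 : p377 := Classical.byContradiction fun h => c1324 h u14 n9 u0; c1000 u5 u12 u8 n7 n3 n4 u15 n6 u14 u16 n1 u4
  have c2515 : ¬p221 → ¬p135 → ¬p276 → p13 → ¬p297 → p279 → ¬p268 → ¬p292 → p0 → p230 → False := fun n0 n1 n2 n3 n4 n5 n6 n7 n8 n9 =>
    have u0 : p66 := Classical.byContradiction fun h => c263 h; have u1 : p245 := Classical.byContradiction fun h => c1814 h; have u2 : p220 := Classical.byContradiction fun h => c2221 n0 h; have u3 : p226 := Classical.byContradiction fun h => c2041 h u2; have u4 : p27 := Classical.byContradiction fun h => c2048 h u2 n3; have u5 : p24 := Classical.byContradiction fun h => c21 h u4; have u6 : p225 := Classical.byContradiction fun h => c609 h u4; have u7 : ¬p25 := fun h => c81 u5 h; have u8 : p21 := Classical.byContradiction fun h => c251 h u5; have u9 : ¬p227 := fun h => c296 h u6 u3; have u10 : ¬p26 := fun h => c84 u8 h; have u11 : p284 := Classical.byContradiction fun h => c1794 h n0 n4 n7 u9 n8 n5; have u12 : p73 := Classical.byContradiction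 fun h => c1932 u2 u10 h; have u13 : ¬p266 := fun h => c550 u11 h; have u14 : ¬p71 := fun h => c56 h u12; have u15 : p246 := Classical.byContradiction fun h => c636 u12 h; have u16 : ¬p107 := fun h => c85 u14 h; have u17 : ¬p247 := fun h => c323 h u1 u15; have u18 : p263 := Classical.byContradiction fun h => c1289 h u16 n9 u0; have u19 : ¬p261 := fun h => c346 h u17 n0; c2096 u18 n1 n2 u9 u7 u13 n6 u19
  have c2531 : ¬p72 → ¬p398 → p47 → p1 → p425 → p426 → ¬p27 → False := fun n0 n1 n2 n3 n4 n5 n6 =>
    have u0 : ¬p29 := fun h => c2016 n6 n1 h n3; have u1 : ¬p30 := fun h => c1926 n2 n1 h; have u2 : ¬p32 := fun h => c252 u0 h; have u3 : p34 := Classical.byContradiction fun h => c25 n3 u2 h; c1815 n0 u2 u3 n3 n5 n4 u1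
  have c2532 : ¬p284 → ¬p282 → ¬p221 → ¬p227 → p0 → p279 → False := fun n0 n1 n2 n3 n4 n5 =>
    have u0 : ¬p192 := fun h => c256 h; have u1 : p286 := Classical.byContradiction fun h => c2389 n0 h n4 n3 n5 n2; have u2 : ¬p277 := fun h => c375 n0 h n1; c2387 u2 u1 u0
  have c2536 : ¬p93 → p425 → p72 → p217 → ¬p414 → p1 → False := fun n0 n1 n2 n3 n4 n5 =>
    have u0 : ¬p191 := fun h => c255 h; have u1 : p429 := Classical.byContradiction fun h => c1012 h; have u2 : ¬p430 := fun h => c566 n5 h; have u3 : p199 := Classical.byContradiction fun h => c2159 n4 h n2 n3; have u4 : p48 := Classical.byContradiction fun h => c2255 n0 h n2 n3 u2 n1 u1; have u5 : ¬p22 := fun h => c2153 u3 h u0; have u6 : ¬p46 := fun h => c33 n5 h u4; have u7 : ¬p21 := fun h => c82 n5 h u5; have u8 : ¬p47 := fun h => c178 u6 h; have u9 : ¬p24 := fun h => c251 u7 h; have u10 : p27 := Classical.byContradiction fun h => c1058 u2 h u8 n1; c21 u9 u10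
  have c2541 : p227 → ¬p247 → ¬p259 → False := fun n0 n1 n2 =>
    have u0 : ¬p248 := fun h => c325 h; have u1 : ¬p251 := fun h => c558 h n0; have u2 : ¬p254 := fun h => c560 h n0; have u3 : ¬p252 := fun h => c333 h u1; have u4 : ¬p255 := fun h => c339 h u2; c344 n1 u0 u3 u4 n2
  have c2558 : ¬p260 → p217 → p203 → ¬p76 → ¬p231 → p246 → False := fun n0 n1 n2 n3 n4 n5 =>
    have u0 : ¬p109 := fun h => c2553 h n0 n2 n4 n1; have u1 : ¬p108 := fun h => c89 h u0; have u2 : p110 := Classical.byContradiction fun h => c118 u1 h; c2557 n0 n1 n5 n3 u2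
  have c2559 : ¬p135 → ¬p261 → ¬p276 → ¬p227 → ¬p25 → ¬p266 → ¬p268 → False := fun n0 n1 n2 n3 n4 n5 n6 =>
    have u0 : ¬p248 := fun h => c325 h; have u1 : ¬p262 := fun h => c347 h u0 n3; have u2 : ¬p267 := fun h => c356 h n5; have u3 : ¬p263 := fun h => c2096 h n0 n2 n3 n4 n5 n6 n1; have u4 : p271 := Classical.byContradiction fun h => c368 n3 n1 u1 u2 h n2; have u5 : ¬p270 := fun h => c357 h u3; c363 u4 u5
  have c2562 : ¬p93 → p425 → p221 → ¬p227 → p217 → p1 → False := fun n0 n1 n2 n3 n4 n5 =>
    have u0 : p201 := Classical.byContradiction fun h => c1826 h; have u1 : p230 := Classical.byContradiction fun h => c2155 h n4 u0; have u2 : ¬p416 := fun h => c534 n5 n2 h; have u3 : p71 := Classical.byContradiction fun h => c1589 h n3 n2; have u4 : ¬p414 := fun h => c532 u2 u1 h; have u5 : p72 := Classical.byContradiction fun h => c55 u3 h; c2536 n0 n1 u5 n4 u4 n5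
  have c2581 : ¬p104 → p445 → ¬p79 → ¬p134 → p154 → ¬p452 → p442 → p296 → p386 → p59 → p1 → ¬p221 → ¬p58 → ¬p227 → ¬p71 → p278 → p286 → p309 → p450 → False := fun n0 n1 n2 n3 n4 n5 n6 n7 n8 n9 n10 n11 n12 n13 n14 n15 n16 n17 n18 =>
    have u0 : p132 := Classical.byContradiction fun h => c1291 h; have u1 : p131 := Classical.byContradiction fun h => c264 h; have u2 : ¬p192 := fun h => c256 h; have u3 : ¬p133 := fun h => c1436 h; have u4 : ¬p135 := fun h => c161 n3 h; have u5 : p153 := Classical.byContradiction fun h => c238 h n4; have u6 : p385 := Classical.byContradiction fun h => c726 h n4; have u7 : ¬p155 := fun h => c138 u5 h; have u8 : p159 := Classical.byContradiction fun h => c141 u5 h; have u9 : p389 := Classical.byContradiction fun h => c2431 h u6 n3 u3; have u10 : ¬p387 := fun h => c486 h u6 n8; have u11 : ¬p412 := fun h => c1506 h u7 n17; have u12 : p384 := Classical.byContradiction fun h => c2467 h u7 n16; have u13 : p376 := Classical.byContradiction fun h => c1153 h u8 n15; have u14 : ¬p372 := fun h => c2510 u10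 h u12 n10 n11 n12 n13 u13 u9 n14; have u15 : ¬p295 := fun h => c1432 h u11 u4 n9 u1 u2; have u16 : p294 := Classical.byContradiction fun h => c389 n7 h u15; have u17 : p157 := Classical.byContradiction fun h => c2578 h n1 n2 n3 u16 u5 n18 n5 n6 u0; have u18 : p156 := Classical.byContradiction fun h => c236 h u17; have u19 : ¬p158 := fun h => c140 u18 h; c2580 u14 n1 n3 u19 n18 n6 n5 n0 u0
  have c2592 : ¬p294 → ¬p278 → ¬p284 → p414 → False := fun n0 n1 n2 n3 =>
    have u0 : ¬p190 := fun h => c254 h; have u1 : p7 := Classical.byContradiction fun h => c5 h; have u2 : p69 := Classical.byContradiction fun h => c907 h; have u3 : ¬p282 := fun h => c1085 n1 h u2; have u4 : ¬p277 := fun h => c375 n2 h u3; c2591 u4 n0 n1 n3 u0 u1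
  have c2643 : p323 → p427 → ¬p430 → p425 → ¬p94 → False := fun n0 n1 n2 n3 n4 =>
    have u0 : p69 := Classical.byContradiction fun h => c907 h; c2642 n0 n1 n2 n3 n4 u0
  have c2645 : p335 → p427 → ¬p430 → p425 → p217 → p96 → ¬p72 → p14 → p334 → False := fun n0 n1 n2 n3 n4 n5 n6 n7 n8 =>
    have u0 : p69 := Classical.byContradiction fun h => c907 h; have u1 : p201 := Classical.byContradiction fun h => c1826 h; have u2 : p230 := Classical.byContradiction fun h => c2155 h n4 u1; have u3 : p327 := Classical.byContradiction fun h => c427 n0 h; have u4 : ¬p333 := fun h => c428 n0 h n8; have u5 : ¬p328 := fun h => c1041 n6 u4 h; have u6 : p330 := Classical.byContradiction fun h => c423 h u3 u5; have u7 : ¬p419 := fun h => c540 u6 h; have u8 : ¬p418 := fun h => c537 u7 u2 n7 h; c2644 u5 n1 n4 n3 n2 u2 u8 n5 u0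
  have c2646 : p96 → p1 → p414 → ¬p227 → p217 → ¬p72 → p425 → p334 → ¬p93 → p426 → False := fun n0 n1 n2 n3 n4 n5 n6 n7 n8 n9 =>
    have u0 : p69 := Classical.byContradiction fun h => c907 h; have u1 : p429 := Classical.byContradiction fun h => c1012 h; have u2 : p12 := Classical.byContradiction fun h => c12 h; have u3 : p201 := Classical.byContradiction fun h => c1826 h; have u4 : p329 := Classical.byContradiction fun h => c662 h n0; have u5 : p230 := Classical.byContradiction fun h => c2155 h n4 u3; have u6 : ¬p430 := fun h => c566 n1 h; have u7 : ¬p221 := fun h => c2562 n8 n6 h n3 n4 n1; have u8 : ¬p71 := fun h => c55 h n5; have u9 : p14 := Classical.byContradiction fun h => c595 h n2; have u10 : ¬p428 := fun h => c2618 n8 u6 n2 n4 n6 h u0; have u11 : p13 := Classical.byContradiction fun h => c13 h u9; have u12 : p427 := Classical.byContradiction fun h => c564 h u10; have u13 : ¬p19 := fun h => c50 u11 h; have u14 : ¬p337 := fun h => c2628 u12 u6 n8 n6 n4 h u0; have u15 : p45 := Classical.byContradiction fun h => c1644 u8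 h u13 u6 n9 u1 u0 u2; have u16 : ¬p340 := fun h => c433 h u14; have u17 : ¬p344 := fun h => c441 h u14; have u18 : ¬p89 := fun h => c2392 u14 n8 h u5; have u19 : ¬p43 := fun h => c32 h u15; have u20 : ¬p341 := fun h => c440 h u16; have u21 : ¬p345 := fun h => c449 h u17; have u22 : ¬p94 := fun h => c187 u18 h; have u23 : ¬p194 := fun h => c259 h u19; have u24 : ¬p323 := fun h => c2643 h u12 u6 n6 u22; have u25 : ¬p326 := fun h => c417 h u24; have u26 : ¬p346 := fun h => c770 h u24; have u27 : ¬p349 := fun h => c450 h u26; have u28 : ¬p350 := fun h => c452 h u27; have u29 : ¬p335 := fun h => c2645 h u12 u6 n6 n4 n0 n5 u9 n7; have u30 : ¬p336 := fun h => c431 h u29 n3; have u31 : p332 := Classical.byContradiction fun h => c453 n1 u23 u25 h u30 u20 u21 u28; have u32 : p330 := Classical.byContradiction fun h => c425 u31 h u7; have u33 : ¬p419 := fun h => c540 u32 h; have u34 : ¬p328 := fun h => c422 u32 h u4; have u35 : ¬p418 := fun h => c537 u33 u5 u9 h; c2644 u34 u12 n4 n6 u6 u5 u35 n0 u0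
  have c2650 : ¬p72 → ¬p29 → p425 → p426 → p1 → False := fun n0 n1 n2 n3 n4 =>
    have u0 : ¬p30 := fun h => c23 n1 h; have u1 : ¬p32 := fun h => c252 n1 h; have u2 : p34 := Classical.byContradiction fun h => c25 n4 u1 h; c1815 n0 u1 u2 n4 n3 n2 u0
  have c2665 : p1 → ¬p341 → ¬p345 → ¬p332 → ¬p323 → ¬p336 → ¬p194 → False := fun n0 n1 n2 n3 n4 n5 n6 =>
    have u0 : ¬p326 := fun h => c417 h n4; have u1 : ¬p346 := fun h => c770 h n4; have u2 : p350 := Classical.byContradiction fun h => c453 n0 n6 u0 n3 n5 n1 n2 h; have u3 : ¬p349 := fun h => c450 h u1; c452 u2 u3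
  have c2666 : p1 → ¬p341 → ¬p345 → ¬p332 → ¬p326 → ¬p194 → ¬p336 → False := fun n0 n1 n2 n3 n4 n5 n6 =>
    have u0 : p323 := Classical.byContradiction fun h => c2665 n0 n1 n2 n3 h n6 n5; have u1 : p324 := Classical.byContradiction fun h => c419 n4 u0 h; have u2 : p325 := Classical.byContradiction fun h => c420 n4 u0 h; c1155 n0 n1 n2 n3 u2 u1 n5 n6
  have c2685 : ¬p309 → p1 → p289 → p30 → p286 → False := fun n0 n1 n2 n3 n4 =>
    have u0 : ¬p133 := fun h => c1436 h; have u1 : p307 := Classical.byContradiction fun h => c2451 h n4 u0; have u2 : p291 := Classical.byContradiction fun h => c384 h n4 n3 n2; have u3 : ¬p310 := fun h => c504 h u2; have u4 : ¬p41 := fun h => c404 u3 u1 h n0; have u5 : ¬p37 := fun h => c403 u3 u1 h n0; have u6 : p39 := Classical.byContradiction fun h => c29 n1 h u4; have u7 : ¬p36 := fun h => c144 n1 h u5; c253 u7 u6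
  have c2688 : ¬p309 → p1 → ¬p310 → p307 → False := fun n0 n1 n2 n3 =>
    have u0 : ¬p41 := fun h => c404 n2 n3 h n0; have u1 : ¬p37 := fun h => c403 n2 n3 h n0; have u2 : p39 := Classical.byContradiction fun h => c29 n1 h u0; have u3 : ¬p36 := fun h => c144 n1 h u1; c253 u3 u2
  have c2746 : p439 → p51 → ¬p19 → ¬p54 → p232 → p433 → p435 → ¬p440 → False := fun n0 n1 n2 n3 n4 n5 n6 n7 =>
    have u0 : ¬p190 := fun h => c254 h; have u1 : p12 := Classical.byContradiction fun h => c12 h; c2745 n0 n1 n2 n3 n4 n5 n6 n7 u0 u1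
  have c2748 : p439 → p51 → ¬p54 → ¬p19 → p232 → p286 → p435 → ¬p440 → False := fun n0 n1 n2 n3 n4 n5 n6 n7 =>
    have u0 : ¬p190 := fun h => c254 h; have u1 : p12 := Classical.byContradiction fun h => c12 h; have u2 : ¬p433 := fun h => c2746 n0 n1 n3 n2 n4 h n6 n7; have u3 : p431 := Classical.byContradiction fun h => c568 h u2; c2747 n0 n1 n3 n6 n2 n5 u3 n4 n7 u0 u1
  have c2750 : ¬p433 → p232 → p286 → False := fun n0 n1 n2 =>
    have u0 : ¬p190 := fun h => c254 h; have u1 : p431 := Classical.byContradiction fun h => c568 h n0; c2749 n0 n1 n2 u1 u0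
  have c2758 : p51 → ¬p435 → p232 → p286 → ¬p19 → False := fun n0 n1 n2 n3 n4 =>
    have u0 : ¬p190 := fun h => c254 h; have u1 : p12 := Classical.byContradiction fun h => c12 h; have u2 : p434 := Classical.byContradiction fun h => c569 h n1; c2757 n0 n1 n2 u2 n3 n4 u0 u1
  have c2762 : p51 → p437 → ¬p54 → ¬p19 → p435 → p433 → ¬p440 → False := fun n0 n1 n2 n3 n4 n5 n6 =>
    have u0 : p12 := Classical.byContradiction fun h => c12 h; c2761 n0 n1 n2 n3 n4 n5 n6 u0
  have c2763 : p51 → ¬p54 → ¬p19 → ¬p414 → p286 → p232 → ¬p440 → False := fun n0 n1 n2 n3 n4 n5 n6 =>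
    have u0 : p12 := Classical.byContradiction fun h => c12 h; have u1 : ¬p190 := fun h => c254 h; have u2 : p433 := Classical.byContradiction fun h => c2750 h n5 n4; have u3 : p435 := Classical.byContradiction fun h => c2758 n0 h n5 n4 n2; have u4 : ¬p439 := fun h => c2748 h n0 n1 n2 n5 n4 u3 n6; have u5 : ¬p437 := fun h => c2762 n0 h n1 n2 u3 u2 n6; have u6 : p436 := Classical.byContradiction fun h => c571 h u5 u4; have u7 : ¬p431 := fun h => c2755 n0 u3 n2 n1 h n4 u6 n5 n6 u1 u0; have u8 : ¬p432 := fun h => c2759 n0 n1 n3 n5 u3 n4 n2 h u6 n6 u0; c567 u7 u8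
  have c2769 : ¬p55 → p362 → ¬p19 → p232 → False := fun n0 n1 n2 n3 =>
    have u0 : ¬p190 := fun h => c254 h; have u1 : p12 := Classical.byContradiction fun h => c12 h; c2768 n0 n1 n2 n3 u0 u1
  have c2771 : ¬p55 → ¬p361 → False := fun n0 n1 =>
    have u0 : p2 := Classical.byContradiction fun h => c0 h; c2770 n0 n1 u0
  have c2773 : p54 → p232 → p1 → p286 → p30 → ¬p19 → ¬p78 → p14 → False := fun n0 n1 n2 n3 n4 n5 n6 n7 =>
    have u0 : p53 := Classical.byContradiction fun h => c208 h n0; have u1 : ¬p55 := fun h => c37 n2 u0 h; have u2 : ¬p362 := fun h => c2769 u1 h n5 n1; have u3 : p361 := Classical.byContradiction fun h => c2771 u1 h; have u4 : p363 := Classical.byContradiction fun h => c465 h u3 u1 u2; have u5 : ¬p403 := fun h => c512 u4 h; have u6 : ¬p401 := fun h => c510 u5 n3 n4 h; c2772 n0 u6 n7 n6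
  have c2777 : p437 → p435 → ¬p414 → p217 → ¬p52 → ¬p440 → p432 → False := fun n0 n1 n2 n3 n4 n5 n6 =>
    c2776 n0 n1 n2 n3 n4 n5 n6
  have c2779 : p437 → p435 → ¬p414 → ¬p440 → p217 → ¬p52 → False := fun n0 n1 n2 n3 n4 n5 =>
    have u0 : p9 := Classical.byContradiction fun h => c9 h; have u1 : ¬p432 := fun h => c2777 n0 n1 n2 n4 n5 n3 h; have u2 : p431 := Classical.byContradiction fun h => c567 h u1; c2778 n1 n0 u2 n5 n3 u0
  have c2787 : ¬p438 → p435 → ¬p437 → p361 → p30 → ¬p440 → p431 → False := fun n0 n1 n2 n3 n4 n5 n6 =>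
    have u0 : p436 := Classical.byContradiction fun h => c570 h n2 n0; c2786 u0 n0 n1 n3 n6 n4 n5
  have c2789 : p435 → ¬p437 → p83 → ¬p52 → ¬p440 → p361 → p431 → ¬p289 → ¬p414 → p30 → False := fun n0 n1 n2 n3 n4 n5 n6 n7 n8 n9 =>
    have u0 : p438 := Classical.byContradiction fun h => c2787 h n0 n1 n5 n9 n4 n6; have u1 : p150 := Classical.byContradiction fun h => c2782 u0 n0 h n5 n6 n9 n4; have u2 : p149 := Classical.byContradiction fun h => c215 h u1; have u3 : ¬p439 := fun h => c2780 h n0 n2 n6 u2 n5 n3 n7 n8 n4; have u4 : p436 := Classical.byContradiction fun h => c571 h n1 u3; c2788 u4 n0 n6 n5 n3 n4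
  have c2791 : p436 → p435 → p431 → ¬p52 → ¬p440 → False := fun n0 n1 n2 n3 n4 =>
    have u0 : p9 := Classical.byContradiction fun h => c9 h; c2790 n0 n1 n2 n3 n4 u0
  have c2793 : ¬p361 → ¬p52 → ¬p414 → p83 → p286 → ¬p289 → p149 → False := fun n0 n1 n2 n3 n4 n5 n6 =>
    c2792 n0 n1 n2 n3 n4 n5 n6
  have c2795 : p438 → p435 → p135 → p14 → ¬p150 → ¬p86 → ¬p440 → p431 → False := fun n0 n1 n2 n3 n4 n5 n6 n7 =>
    have u0 : p9 := Classical.byContradiction fun h => c9 h; c2794 n0 n1 n2 n3 n4 n5 n6 n7 u0
  have c2797 : ¬p361 → ¬p402 → p86 → ¬p79 → p293 → ¬p289 → False := fun n0 n1 n2 n3 n4 n5 =>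
    have u0 : ¬p190 := fun h => c254 h; c2796 n0 n1 n2 n3 n4 n5 u0
  have c2799 : p435 → ¬p414 → p14 → p135 → ¬p440 → ¬p235 → p293 → ¬p79 → ¬p289 → p83 → p431 → p286 → ¬p437 → ¬p52 → p30 → False := fun n0 n1 n2 n3 n4 n5 n6 n7 n8 n9 n10 n11 n12 n13 n14 =>
    have u0 : p9 := Classical.byContradiction fun h => c9 h; have u1 : ¬p361 := fun h => c2789 n0 n12 n9 n13 n4 h n10 n8 n1 n14; have u2 : ¬p436 := fun h => c2791 h n0 n10 n13 n4; have u3 : p438 := Classical.byContradiction fun h => c570 u2 n12 h; have u4 : ¬p149 := fun h => c2793 u1 n13 n1 n9 n11 n8 h; have u5 : ¬p150 := fun h => c215 u4 h; have u6 : p86 := Classical.byContradiction fun h => c2795 u3 n0 n3 n2 u5 h n4 n10; have u7 : p402 := Classical.byContradiction fun h => c2797 u1 h u6 n7 n6 n8; have u8 : p148 := Classical.byContradiction fun h => c719 u7 h; have u9 : ¬p146 := fun h => c133 h u8; have u10 : ¬p147 := fun h => c217 u9 h; c2798 u3 n0 n3 n2 n5 n10 n4 u10 u0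
  have c2801 : ¬p431 → ¬p361 → p217 → ¬p235 → p135 → ¬p147 → False := fun n0 n1 n2 n3 n4 n5 =>
    have u0 : p432 := Classical.byContradiction fun h => c567 n0 h; c2800 n0 n1 n2 n3 n4 n5 u0
  have c2803 : ¬p361 → ¬p79 → ¬p414 → p217 → p135 → p293 → ¬p289 → ¬p235 → p83 → ¬p52 → p286 → ¬p431 → False := fun n0 n1 n2 n3 n4 n5 n6 n7 n8 n9 n10 n11 =>
    have u0 : ¬p190 := fun h => c254 h; have u1 : p432 := Classical.byContradiction fun h => c567 n11 h; have u2 : ¬p149 := fun h => c2792 n0 n9 n2 n8 n10 n6 h; have u3 : ¬p150 := fun h => c215 u2 h; have u4 : p147 := Classical.byContradiction fun h => c2801 n11 n0 n3 n7 n4 h; have u5 : p146 := Classical.byContradiction fun h => c217 h u4; have u6 : ¬p148 := fun h => c133 u5 h; have u7 : ¬p402 := fun h => c719 h u6; have u8 : ¬p86 := fun h => c2796 n0 u7 h n1 n5 n6 u0; c2802 n0 u8 n3 n4 u3 n11 u1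
  have c2807 : p171 → ¬p401 → ¬p309 → p362 → p135 → False := fun n0 n1 n2 n3 n4 =>
    c2806 n0 n1 n2 n3 n4
  have c2809 : p171 → p232 → ¬p19 → ¬p315 → p362 → ¬p401 → p135 → p83 → ¬p301 → p0 → p303 → ¬p72 → ¬p221 → p226 → False := fun n0 n1 n2 n3 n4 n5 n6 n7 n8 n9 n10 n11 n12 n13 =>
    have u0 : ¬p190 := fun h => c254 h; have u1 : p12 := Classical.byContradiction fun h => c12 h; have u2 : p308 := Classical.byContradiction fun h => c1292 h; have u3 : p309 := Classical.byContradiction fun h => c2807 n0 n5 h n4 n6; have u4 : ¬p310 := fun h => c402 h u2 u3; have u5 : p84 := Classical.byContradiction fun h => c1080 n1 h u3; have u6 : ¬p311 := fun h => c405 h u4; have u7 : ¬p82 := fun h => c64 h u5; have u8 : p318 := Classical.byContradiction fun h => c1675 n11 u6 h n10 n9 n8 n12 n13; have u9 : ¬p87 := fun h => c154 u7 h; have u10 : p317 := Classical.byContradiction fun h => c412 u8 h; have u11 : p316 := Classical.byContradiction fun h => c409 u10 n3 h; c2808 u11 n0 n5 n4 u9 n7 n2 n1 n6 u0 u1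
  have c2811 : p401 → ¬p52 → p83 → ¬p289 → ¬p414 → False := fun n0 n1 n2 n3 n4 =>
    c2810 n0 n1 n2 n3 n4
  have c2813 : p439 → ¬p362 → p217 → ¬p86 → p432 → ¬p401 → p14 → ¬p440 → p135 → p435 → False := fun n0 n1 n2 n3 n4 n5 n6 n7 n8 n9 =>
    c2812 n0 n1 n2 n3 n4 n5 n6 n7 n8 n9
  have c2815 : p435 → ¬p86 → p217 → ¬p362 → ¬p401 → p286 → p14 → ¬p440 → p135 → p432 → ¬p437 → False := fun n0 n1 n2 n3 n4 n5 n6 n7 n8 n9 n10 =>
    have u0 : ¬p439 := fun h => c2813 h n3 n2 n1 n9 n4 n6 n7 n8 n0; have u1 : p436 := Classical.byContradiction fun h => c571 h n10 u0; c2814 u1 n3 n2 n1 n9 n4 n5 n6 n7 n8 n0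
  have c2817 : ¬p437 → ¬p86 → p217 → p135 → p14 → ¬p440 → p361 → p435 → p432 → ¬p289 → ¬p401 → p83 → ¬p19 → p232 → p0 → ¬p72 → ¬p221 → p226 → p286 → p299 → ¬p414 → False := fun n0 n1 n2 n3 n4 n5 n6 n7 n8 n9 n10 n11 n12 n13 n14 n15 n16 n17 n18 n19 n20 =>
    have u0 : ¬p190 := fun h => c254 h; have u1 : p303 := Classical.byContradiction fun h => c1095 h n15 n19; have u2 : ¬p85 := fun h => c65 h n1; have u3 : ¬p161 := fun h => c152 u2 h; have u4 : p88 := Classical.byContradiction fun h => c153 u2 h; have u5 : ¬p315 := fun h => c2722 h n20 n11 u3 u0; have u6 : p300 := Classical.byContradiction fun h => c653 h u4; have u7 : ¬p301 := fun h => c394 h n19 u6; have u8 : p362 := Classical.byContradiction fun h => c2815 n7 n1 n2 h n10 n18 n4 n5 n3 n8 n0; have u9 : ¬p171 := fun h => c2809 h n13 n12 u5 u8 n10 n3 n11 u7 n14 u1 n15 n16 n17; have u10 : ¬p172 := fun h => c221 u9 h; have u11 : ¬p150 := fun h => c863 h u10 n9; have u12 : ¬p438 := fun h => c2804 h u11 n4 n2 n1 n3 n5 n8 n7; have u13 : p436 := Classical.byContradiction fun h =>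 c570 h n0 u12; c2816 n7 u11 n1 n6 u13 n8 n4 n5 n3 n2
  have c2826 : ¬p153 → ¬p58 → ¬p136 → p307 → p1 → p384 → p135 → False := fun n0 n1 n2 n3 n4 n5 n6 =>
    have u0 : ¬p154 := fun h => c238 n0 h; have u1 : p155 := Classical.byContradiction fun h => c239 n0 h; have u2 : ¬p389 := fun h => c1792 u0 h n6; have u3 : p412 := Classical.byContradiction fun h => c1141 u1 h n2; have u4 : p391 := Classical.byContradiction fun h => c495 h n5 n1 u2; have u5 : p413 := Classical.byContradiction fun h => c1423 u3 h n3 n4; c531 u4 u5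
  have c2829 : p435 → ¬p440 → p14 → p135 → p217 → p83 → ¬p289 → ¬p86 → ¬p19 → p232 → p0 → ¬p72 → ¬p221 → p226 → p286 → p299 → ¬p414 → p293 → ¬p79 → ¬p235 → ¬p52 → p30 → False := fun n0 n1 n2 n3 n4 n5 n6 n7 n8 n9 n10 n11 n12 n13 n14 n15 n16 n17 n18 n19 n20 n21 =>
    have u0 : ¬p401 := fun h => c2811 h n20 n5 n6 n16; have u1 : ¬p437 := fun h => c2779 h n0 n16 n1 n4 n20; have u2 : ¬p431 := fun h => c2799 n0 n16 n2 n3 n1 n19 n17 n18 n6 n5 h n14 u1 n20 n21; have u3 : p432 := Classical.byContradiction fun h => c567 u2 h; have u4 : p361 := Classical.byContradiction fun h => c2803 h n18 n16 n4 n3 n17 n6 n19 n5 n20 n14 u2; c2817 u1 n7 n4 n3 n2 n1 u4 n0 u3 n6 u0 n5 n8 n9 n10 n11 n12 n13 n14 n15 n16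
  have c2857 : ¬p205 → p217 → ¬p216 → ¬p232 → ¬p235 → ¬p243 → False := fun n0 n1 n2 n3 n4 n5 =>
    have u0 : ¬p202 := fun h => c265 h; have u1 : ¬p224 := fun h => c292 h u0 n1; have u2 : ¬p229 := fun h => c299 h n0 n1; have u3 : ¬p221 := fun h => c886 n0 h n2; c2293 u2 u3 n5 n4 u1 n3
  have c2858 : p213 → ¬p19 → p205 → False := fun n0 n1 n2 =>
    have u0 : ¬p191 := fun h => c255 h; have u1 : p12 := Classical.byContradiction fun h => c12 h; have u2 : ¬p204 := fun h => c938 h; have u3 : p203 := Classical.byContradiction fun h => c267 n2 h u2; have u4 : ¬p247 := fun h => c503 h n2; have u5 : ¬p106 := fun h => c2075 n0 h u3 u0; have u6 : p246 := Classical.byContradiction fun h => c1908 h u4; have u7 : ¬p24 := fun h => c80 h u5; have u8 : ¬p23 := fun h => c2036 h n1 u6 u0 u1; have u9 : ¬p21 := fun h => c602 u7 h; c19 u9 u8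
  have c2887 : ¬p221 → p74 → p72 → ¬p227 → ¬p203 → p284 → ¬p318 → ¬p243 → p303 → ¬p229 → ¬p224 → ¬p232 → p235 → p279 → False := fun n0 n1 n2 n3 n4 n5 n6 n7 n8 n9 n10 n11 n12 n13 =>
    have u0 : p308 := Classical.byContradiction fun h => c1292 h; have u1 : p220 := Classical.byContradiction fun h => c2221 n0 h; have u2 : p0 := Classical.byContradiction fun h => c2295 h n7 n0 n9; have u3 : p71 := Classical.byContradiction fun h => c87 h n2; have u4 : ¬p73 := fun h => c56 u3 h; have u5 : p26 := Classical.byContradiction fun h => c1932 u1 h u4; have u6 : p283 := Classical.byContradiction fun h => c2350 h n13 u4; have u7 : ¬p21 := fun h => c84 h u5; have u8 : ¬p282 := fun h => c374 n5 h u6; have u9 : ¬p24 := fun h => c251 u7 h; have u10 : ¬p77 := fun h => c2543 n4 u8 h n13; have u11 : ¬p27 := fun h => c21 u9 h; have u12 : ¬p78 := fun h => c110 u10 h; have u13 : ¬p13 := fun h => c2048 u11 u1 h; have u14 : ¬p231 := fun h => c638 h u12; have u15 : ¬p16 := fun h => c250 u13 h; have u16 : ¬p233 := fun h => c304 h u14 n11; have u17 : ¬p20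 := fun h => c17 u15 h; have u18 : ¬p234 := fun h => c307 h u16; have u19 : ¬p225 := fun h => c814 u17 h n2; have u20 : p238 := Classical.byContradiction fun h => c321 n0 n10 n9 u18 h n7; have u21 : ¬p218 := fun h => c297 n3 h u19; have u22 : p237 := Classical.byContradiction fun h => c316 u20 h; have u23 : ¬p301 := fun h => c535 h u22; have u24 : p300 := Classical.byContradiction fun h => c1238 h u23; have u25 : p120 := Classical.byContradiction fun h => c2343 h u24 u4; have u26 : p304 := Classical.byContradiction fun h => c2339 h u24 u4; have u27 : ¬p117 := fun h => c99 h u25; have u28 : ¬p305 := fun h => c398 h n8 u26; have u29 : ¬p162 := fun h => c158 u27 h; have u30 : p311 := Classical.byContradiction fun h => c885 u28 u21 u23 u2 n6 h; have u31 : p310 := Classical.byContradiction fun h => c405 u30 h; have u32 : ¬p309 := fun h => c402 u31 u0 h; c2886 u32 u12 n1 u24 u29 n12 n4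
  have c2894 : ¬p435 → p431 → ¬p440 → ¬p147 → False := fun n0 n1 n2 n3 =>
    have u0 : p9 := Classical.byContradiction fun h => c9 h; have u1 : p434 := Classical.byContradiction fun h => c569 h n0; have u2 : ¬p436 := fun h => c2842 h u1 n1 n2 u0; have u3 : ¬p437 := fun h => c2852 h u1 n1 n0 n2 u0; have u4 : ¬p438 := fun h => c2848 u1 h n1 n3 n2 u0; c570 u2 u3 u4
  have c2899 : p17 → p417 → ¬p203 → ¬p126 → False := fun n0 n1 n2 n3 =>
    have u0 : p93 := Classical.byContradiction fun h => c655 h n1; have u1 : p91 := Classical.byContradiction fun h => c2374 n2 n1 n3 h n0; have u2 : p92 := Classical.byContradiction fun h => c182 h u0; have u3 : ¬p89 := fun h => c69 h u1; c654 u3 u2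
  have c2900 : p327 → ¬p430 → p72 → ¬p203 → p425 → ¬p0 → p25 → p17 → ¬p240 → ¬p221 → ¬p126 → ¬p227 → False := fun n0 n1 n2 n3 n4 n5 n6 n7 n8 n9 n10 n11 =>
    have u0 : p429 := Classical.byContradiction fun h => c1012 h; have u1 : ¬p68 := fun h => c799 h; have u2 : ¬p204 := fun h => c938 h; have u3 : p12 := Classical.byContradiction fun h => c12 h; have u4 : p3 := Classical.byContradiction fun h => c1 h; have u5 : p263 := Classical.byContradiction fun h => c1836 h n6 u3 u4; have u6 : ¬p205 := fun h => c267 h n3 u2; have u7 : ¬p229 := fun h => c300 h u6 n11; have u8 : p243 := Classical.byContradiction fun h => c2295 n5 h n9 u7; have u9 : p242 := Classical.byContradiction fun h => c320 u8 h; have u10 : p241 := Classical.byContradiction fun h => c318 u9 n8 h; have u11 : ¬p417 := fun h => c2899 n7 h n3 n10; have u12 : p91 := Classical.byContradiction fun h => c2245 u10 h u11 n4 n1 n2 u0; have u13 : ¬p89 := fun h => c69 h u12; have u14 : ¬p94 := fun h => c187 u13 h; have u15 : ¬p92 := fun h => c654 u13 h; have u16 : ¬p333 := fun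 h => c2215 h u14 n2; have u17 : ¬p93 := fun h => c182 u15 h; have u18 : p335 := Classical.byContradiction fun h => c429 h n0 u16; have u19 : p422 := Classical.byContradiction fun h => c2302 u10 h u17 n4 n1 n2 u0 u1; have u20 : ¬p423 := fun h => c555 u18 h; c554 u20 u5 n6 u19
  have c2901 : p241 → ¬p89 → p72 → p425 → ¬p430 → p25 → p327 → False := fun n0 n1 n2 n3 n4 n5 n6 =>
    have u0 : p429 := Classical.byContradiction fun h => c1012 h; have u1 : ¬p68 := fun h => c799 h; have u2 : p12 := Classical.byContradiction fun h => c12 h; have u3 : p3 := Classical.byContradiction fun h => c1 h; have u4 : p263 := Classical.byContradiction fun h => c1836 h n5 u2 u3; have u5 : ¬p94 := fun h => c187 n1 h; have u6 : ¬p92 := fun h => c654 n1 h; have u7 : ¬p333 := fun h => c2215 h u5 n2; have u8 : ¬p93 := fun h => c182 u6 h; have u9 : p335 := Classical.byContradiction fun h => c429 h n6 u7; have u10 : p422 := Classical.byContradiction fun h => c2302 n0 h u8 n3 n4 n2 u0 u1; have u11 : ¬p423 := fun h => c555 u9 h; c554 u11 u4 n5 u10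
  have c2903 : p241 → p327 → p72 → p425 → ¬p430 → p17 → p25 → p325 → False := fun n0 n1 n2 n3 n4 n5 n6 n7 =>
    have u0 : p201 := Classical.byContradiction fun h => c1826 h; have u1 : p429 := Classical.byContradiction fun h => c1012 h; have u2 : p89 := Classical.byContradiction fun h => c2901 n0 h n2 n3 n4 n6 n1; have u3 : ¬p91 := fun h => c69 u2 h; have u4 : p417 := Classical.byContradiction fun h => c2245 n0 u3 h n3 n4 n2 u1; have u5 : p419 := Classical.byContradiction fun h => c1900 h n5 u4; have u6 : ¬p330 := fun h => c540 h u5; have u7 : p329 := Classical.byContradiction fun h => c1006 h u6 u0; c2902 n0 u3 n7 u7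
  have c2905 : p274 → p335 → p127 → p425 → ¬p430 → p25 → False := fun n0 n1 n2 n3 n4 n5 =>
    have u0 : p429 := Classical.byContradiction fun h => c1012 h; have u1 : p12 := Classical.byContradiction fun h => c12 h; have u2 : p3 := Classical.byContradiction fun h => c1 h; have u3 : p263 := Classical.byContradiction fun h => c1836 h n5 u1 u2; have u4 : p334 := Classical.byContradiction fun h => c695 h n2; have u5 : ¬p423 := fun h => c555 n1 h; have u6 : ¬p333 := fun h => c428 n1 h u4; have u7 : ¬p422 := fun h => c554 u5 u3 n5 h; c2904 n0 u7 n2 u6 n3 n4 u0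
  have c2938 : p447 → ¬p449 → ¬p79 → ¬p135 → p143 → p294 → p13 → p450 → p220 → ¬p44 → p445 → p278 → ¬p93 → p1 → p286 → False := fun n0 n1 n2 n3 n4 n5 n6 n7 n8 n9 n10 n11 n12 n13 n14 =>
    have u0 : p11 := Classical.byContradiction fun h => c11 h; have u1 : ¬p452 := fun h => c581 n13 h; have u2 : p442 := Classical.byContradiction fun h => c2468 h n10 n6 n4 n8 n9 n7 n11 n12 n13 n14; c2937 n1 n0 n3 u2 n5 n10 n2 u1 u0
  have c2940 : ¬p449 → p447 → ¬p135 → p384 → p385 → False := fun n0 n1 n2 n3 n4 =>
    c2939 n0 n1 n2 n3 n4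
  have c2942 : ¬p449 → p447 → ¬p79 → ¬p135 → p442 → p384 → p293 → p444 → ¬p452 → p286 → p30 → ¬p58 → False := fun n0 n1 n2 n3 n4 n5 n6 n7 n8 n9 n10 n11 =>
    have u0 : ¬p385 := fun h => c2940 n0 n1 n3 n5 h; have u1 : p387 := Classical.byContradiction fun h => c487 h n5 n11 u0; have u2 : ¬p406 := fun h => c517 u1 h; have u3 : ¬p405 := fun h => c514 u2 n9 n10 h; c2941 n0 n1 n2 n3 u3 n5 n4 n6 n7 n8
  have c2946 : ¬p449 → p447 → ¬p79 → ¬p135 → p442 → p444 → p293 → ¬p412 → ¬p452 → False := fun n0 n1 n2 n3 n4 n5 n6 n7 n8 =>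
    have u0 : p131 := Classical.byContradiction fun h => c264 h; have u1 : p11 := Classical.byContradiction fun h => c11 h; c2945 n0 n1 n2 n3 n4 n5 n6 n7 n8 u0 u1
  have c2948 : p447 → p444 → p371 → ¬p104 → p442 → ¬p452 → False := fun n0 n1 n2 n3 n4 n5 =>
    have u0 : p11 := Classical.byContradiction fun h => c11 h; c2947 n0 n1 n2 n3 n4 n5 u0
  have c2949 : ¬p449 → ¬p448 → p237 → ¬p227 → p143 → p1 → ¬p196 → ¬p221 → ¬p104 → ¬p135 → p293 → ¬p79 → p286 → p30 → ¬p58 → p294 → p13 → p450 → ¬p44 → p381 → p278 → ¬p93 → ¬p72 → False := fun n0 n1 n2 n3 n4 n5 n6 n7 n8 n9 n10 n11 n12 n13 n14 n15 n16 n17 n18 n19 n20 n21 n22 =>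
    have u0 : p11 := Classical.byContradiction fun h => c11 h; have u1 : ¬p133 := fun h => c1436 h; have u2 : p220 := Classical.byContradiction fun h => c2221 n7 h; have u3 : ¬p452 := fun h => c581 n5 h; have u4 : p307 := Classical.byContradiction fun h => c2451 h n12 u1; have u5 : p447 := Classical.byContradiction fun h => c577 h n1 n0; have u6 : ¬p445 := fun h => c2938 u5 n0 n11 n9 n4 n15 n16 n17 u2 n18 h n20 n21 n5 n12; have u7 : p444 := Classical.byContradiction fun h => c575 h u6; have u8 : ¬p441 := fun h => c1128 u5 h u7 u3 u0; have u9 : p442 := Classical.byContradiction fun h => c573 u8 h; have u10 : ¬p384 := fun h => c2942 n0 u5 n11 n9 u9 h n10 u7 u3 n12 n13 n14; have u11 : ¬p387 := fun h => c484 h u10; have u12 : ¬p391 := fun h => c492 h u10; have u13 : ¬p388 := fun h => c491 h u11; have u14 : ¬p392 := fun h => c498 h u12; have u15 : p412 := Classical.byContradiction fun h => c2946 n0 u5 n11 n9 u9 u7 n10 h u3; have u16 : p413 := Classical.byContradiction fun h => c1423 u15 h u4 n5; have u17 : ¬p378 := fun h => c542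 h u16 n2; have u18 : ¬p379 := fun h => c480 h u17 n7; have u19 : ¬p371 := fun h => c2948 u5 u7 h n8 u9 u3; have u20 : ¬p374 := fun h => c473 h u19; have u21 : ¬p393 := fun h => c774 h u19; have u22 : ¬p396 := fun h => c499 h u21; have u23 : ¬p397 := fun h => c501 h u22; have u24 : p383 := Classical.byContradiction fun h => c502 n5 n6 u20 u18 h u13 u14 u23; have u25 : p382 := Classical.byContradiction fun h => c483 u24 h n3; have u26 : p375 := Classical.byContradiction fun h => c481 u25 h; have u27 : ¬p380 := fun h => c482 u25 h n19; have u28 : p376 := Classical.byContradiction fun h => c478 u17 u26 h; c983 u27 u28 n22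
  have c2950 : p382 → ¬p378 → ¬p72 → p381 → False := fun n0 n1 n2 n3 =>
    have u0 : p375 := Classical.byContradiction fun h => c481 n0 h; have u1 : ¬p380 := fun h => c482 n0 h n3; have u2 : p376 := Classical.byContradiction fun h => c478 n1 u0 h; c983 u1 u2 n2
  have c2951 : ¬p388 → ¬p371 → ¬p196 → p1 → ¬p383 → ¬p379 → ¬p392 → False := fun n0 n1 n2 n3 n4 n5 n6 =>
    have u0 : ¬p374 := fun h => c473 h n1; have u1 : ¬p393 := fun h => c774 h n1; have u2 : p397 := Classical.byContradiction fun h => c502 n3 n2 u0 n5 n4 n0 n6 h; have u3 : ¬p396 := fun h => c499 h u1; c501 u2 u3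
  have c2954 : ¬p388 → ¬p371 → p1 → ¬p196 → p381 → p376 → ¬p227 → ¬p221 → ¬p392 → p377 → ¬p72 → False := fun n0 n1 n2 n3 n4 n5 n6 n7 n8 n9 n10 =>
    have u0 : p380 := Classical.byContradiction fun h => c983 h n5 n10; have u1 : ¬p378 := fun h => c477 h n5 n9; have u2 : ¬p382 := fun h => c482 h u0 n4; have u3 : ¬p379 := fun h => c480 h u1 n7; have u4 : ¬p383 := fun h => c483 h u2 n6; c2951 n0 n1 n3 n2 u4 u3 n8
  have c2974 : ¬p332 → ¬p326 → ¬p135 → p339 → p342 → ¬p336 → ¬p194 → p1 → False := fun n0 n1 n2 n3 n4 n5 n6 n7 =>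
    have u0 : p131 := Classical.byContradiction fun h => c264 h; have u1 : p132 := Classical.byContradiction fun h => c1291 h; have u2 : p338 := Classical.byContradiction fun h => c1481 h n4 u1; have u3 : ¬p340 := fun h => c435 h u2 n3; have u4 : ¬p341 := fun h => c440 h u3; have u5 : p345 := Classical.byContradiction fun h => c2666 n7 u4 h n0 n1 n6 n5; have u6 : p344 := Classical.byContradiction fun h => c449 u5 h; have u7 : ¬p343 := fun h => c443 u6 n4 h; c2973 u7 n3 n2 u0
  have c2992 : p371 → p442 → ¬p134 → p450 → p444 → p293 → ¬p79 → ¬p452 → ¬p104 → p449 → False := fun n0 n1 n2 n3 n4 n5 n6 n7 n8 n9 =>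
    have u0 : p132 := Classical.byContradiction fun h => c1291 h; have u1 : p154 := Classical.byContradiction fun h => c2959 n4 n8 n1 n0 n9 h n7 u0; have u2 : p158 := Classical.byContradiction fun h => c2989 n4 n0 h n3 n8 n1 n2 n7 u0; have u3 : p153 := Classical.byContradiction fun h => c238 h u1; have u4 : ¬p156 := fun h => c140 h u2; have u5 : ¬p157 := fun h => c236 u4 h; c2991 u5 n1 n6 n2 u3 n4 n5 n3 n7 u0
  have c2993 : ¬p371 → p386 → ¬p227 → p1 → p385 → p377 → ¬p221 → ¬p196 → p376 → ¬p72 → p381 → ¬p134 → False := fun n0 n1 n2 n3 n4 n5 n6 n7 n8 n9 n10 n11 =>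
    have u0 : ¬p133 := fun h => c1436 h; have u1 : p390 := Classical.byContradiction fun h => c2427 h n1 u0; have u2 : p389 := Classical.byContradiction fun h => c2431 h n4 n11 u0; have u3 : ¬p387 := fun h => c486 h n4 n1; have u4 : ¬p391 := fun h => c494 h u2 u1; have u5 : ¬p388 := fun h => c491 h u3; have u6 : ¬p392 := fun h => c498 h u4; c2954 u5 n0 n3 n7 n10 n8 n2 n6 u6 n5 n9
  have c3013 : ¬p339 → ¬p167 → p309 → False := fun n0 n1 n2 =>
    have u0 : ¬p144 := fun h => c713 n0 h; have u1 : ¬p165 := fun h => c1803 n0 n1 n2 h; have u2 : ¬p166 := fun h => c1536 h u0 n2; have u3 : ¬p164 := fun h => c165 h u1; c202 u3 u2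
  have c3016 : p327 → ¬p328 → ¬p72 → p232 → ¬p107 → p14 → p230 → p278 → p73 → False := fun n0 n1 n2 n3 n4 n5 n6 n7 n8 =>
    have u0 : p67 := Classical.byContradiction fun h => c823 h; have u1 : ¬p70 := fun h => c937 h; have u2 : p69 := Classical.byContradiction fun h => c907 h; have u3 : p330 := Classical.byContradiction fun h => c423 h n0 n1; have u4 : ¬p145 := fun h => c1584 n1 h n7; have u5 : ¬p419 := fun h => c540 u3 h; have u6 : ¬p139 := fun h => c131 h u4; have u7 : ¬p418 := fun h => c537 u5 n6 n5 h; have u8 : p141 := Classical.byContradiction fun h => c197 u6 h; have u9 : p422 := Classical.byContradiction fun h => c2976 h n3 u8 n4 u1 u2; c3015 u9 n8 u7 n2 u0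
  have c3019 : ¬p336 → p1 → ¬p126 → p425 → ¬p345 → ¬p341 → ¬p332 → ¬p94 → ¬p194 → False := fun n0 n1 n2 n3 n4 n5 n6 n7 n8 =>
    have u0 : p69 := Classical.byContradiction fun h => c907 h; have u1 : p429 := Classical.byContradiction fun h => c1012 h; have u2 : ¬p430 := fun h => c566 n1 h; have u3 : p325 := Classical.byContradiction fun h => c1162 h u2 n2 n3 u1; have u4 : ¬p324 := fun h => c1155 n1 n5 n4 n6 u3 h n8 n0; have u5 : p323 := Classical.byContradiction fun h => c2665 n1 n5 n4 n6 h n0 n8; have u6 : ¬p427 := fun h => c2642 u5 h u2 n3 n7 u0; have u7 : p428 := Classical.byContradiction fun h => c564 u6 h; c3018 u4 u7 n2 n3 u2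
  have c3020 : p1 → ¬p340 → ¬p136 → p286 → ¬p44 → ¬p289 → p425 → ¬p336 → ¬p126 → ¬p94 → ¬p332 → ¬p194 → False := fun n0 n1 n2 n3 n4 n5 n6 n7 n8 n9 n10 n11 =>
    have u0 : ¬p341 := fun h => c440 h n1; have u1 : p345 := Classical.byContradiction fun h => c3019 n7 n0 n8 n6 h u0 n10 n9 n11; have u2 : p344 := Classical.byContradiction fun h => c449 u1 h; have u3 : p337 := Classical.byContradiction fun h => c441 u2 h; have u4 : ¬p339 := fun h => c2347 n0 u2 n2 n3 n5 h; c436 n1 u3 n4 u4
  have c3036 : p359 → p358 → ¬p79 → ¬p72 → p278 → ¬p355 → False := fun n0 n1 n2 n3 n4 n5 =>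
    have u0 : p353 := Classical.byContradiction fun h => c458 n0 h; have u1 : ¬p357 := fun h => c459 n0 h n1; have u2 : p354 := Classical.byContradiction fun h => c456 n5 u0 h; have u3 : ¬p152 := fun h => c1003 u1 n3 h n4; c3035 u2 u3 n2
  have c3038 : ¬p351 → ¬p360 → p1 → ¬p367 → ¬p364 → ¬p195 → ¬p356 → False := fun n0 n1 n2 n3 n4 n5 n6 =>
    have u0 : ¬p352 := fun h => c454 h n0; have u1 : ¬p368 := fun h => c773 n0 h; have u2 : p370 := Classical.byContradiction fun h => c472 n2 n5 u0 n6 n1 n4 n3 h; have u3 : ¬p369 := fun h => c470 h u1; c471 u2 u3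
  have c3057 : ¬p414 → ¬p260 → p106 → p222 → p203 → False := fun n0 n1 n2 n3 n4 =>
    c3056 n0 n1 n2 n3 n4
  have c3059 : ¬p414 → ¬p217 → ¬p1 → p221 → False := fun n0 n1 n2 n3 =>
    have u0 : ¬p191 := fun h => c255 h; have u1 : p201 := Classical.byContradiction fun h => c1826 h; have u2 : p12 := Classical.byContradiction fun h => c12 h; have u3 : ¬p204 := fun h => c938 h; have u4 : ¬p208 := fun h => c543 h n3; have u5 : ¬p216 := fun h => c285 h n2; have u6 : ¬p259 := fun h => c342 h n2; have u7 : ¬p276 := fun h => c366 h n2; have u8 : p205 := Classical.byContradiction fun h => c886 h n3 u5; have u9 : p203 := Classical.byContradiction fun h => c267 u8 h u3; have u10 : ¬p247 := fun h => c503 h u8; have u11 : p246 := Classical.byContradiction fun h => c1908 h u10; have u12 : ¬p227 := fun h => c2541 h u10 u6; have u13 : ¬p220 := fun h => c1479 h u12 n3; have u14 : ¬p19 := fun h => c601 h u13; have u15 : ¬p213 := fun h => c2858 h u14 u8; have u16 : p206 := Classical.byContradiction fun h => c2117 h u14 u9 u11; have u17 : ¬p23 :=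 fun h => c2036 h u14 u11 u0 u2; have u18 : ¬p197 := fun h => c763 h u15; have u19 : p21 := Classical.byContradiction fun h => c19 h u17; have u20 : ¬p25 := fun h => c606 h u17; have u21 : p207 := Classical.byContradiction fun h => c271 u4 u1 u18 h; have u22 : p24 := Classical.byContradiction fun h => c602 h u19; have u23 : ¬p76 := fun h => c2310 h n1 u21; have u24 : p106 := Classical.byContradiction fun h => c80 u22 h; have u25 : p74 := Classical.byContradiction fun h => c112 h u23; have u26 : p75 := Classical.byContradiction fun h => c57 u25 h; have u27 : p222 := Classical.byContradiction fun h => c2167 h u26 u16; have u28 : p260 := Classical.byContradiction fun h => c3057 n0 h u24 u27 u9; have u29 : ¬p261 := fun h => c345 h u10 u28; have u30 : p22 := Classical.byContradiction fun h => c2120 h u29 u20 u12 u7; c3058 n0 u30 u27 u9 u0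
  have c3061 : ¬p414 → p320 → ¬p217 → False := fun n0 n1 n2 =>
    c3060 n0 n1 n2
  have c3062 : ¬p414 → ¬p217 → p221 → ¬p227 → ¬p289 → False := fun n0 n1 n2 n3 n4 =>
    have u0 : ¬p202 := fun h => c265 h; have u1 : ¬p190 := fun h => c254 h; have u2 : ¬p204 := fun h => c938 h; have u3 : ¬p191 := fun h => c255 h; have u4 : p12 := Classical.byContradiction fun h => c12 h; have u5 : ¬p138 := fun h => c902 h; have u6 : ¬p133 := fun h => c1436 h; have u7 : p201 := Classical.byContradiction fun h => c1826 h; have u8 : ¬p240 := fun h => c2459 n0 h u1; have u9 : ¬p208 := fun h => c543 h n2; have u10 : p1 := Classical.byContradiction fun h => c3059 n0 n1 h n2; have u11 : ¬p320 := fun h => c3061 n0 h n1; have u12 : ¬p220 := fun h => c1479 h n3 n2; have u13 : p71 := Classical.byContradiction fun h => c1589 h n3 n2; have u14 : ¬p19 := fun h => c601 h u12; have u15 : p72 := Classical.byContradiction fun h => c55 u13 h; have u16 : ¬p73 := fun h => c56 u13 h; have u17 : p13 := Classical.byContradiction fun h => c16 h u14; have u18 : ¬p321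 := fun h => c2743 h u14 u1 u4; have u19 : p14 := Classical.byContradiction fun h => c47 u10 u17 h; have u20 : ¬p241 := fun h => c769 h u18; have u21 : ¬p322 := fun h => c415 h u11 u18; have u22 : ¬p197 := fun h => c2394 h u19 u1; have u23 : ¬p242 := fun h => c318 h u8 u20; have u24 : p207 := Classical.byContradiction fun h => c271 u9 u7 u22 h; have u25 : p206 := Classical.byContradiction fun h => c270 u9 u7 u22 h; have u26 : ¬p243 := fun h => c320 h u23; have u27 : ¬p232 := fun h => c2264 h u24 u1; have u28 : ¬p76 := fun h => c2310 h n1 u24; have u29 : ¬p231 := fun h => c2150 h u25 u1; have u30 : ¬p236 := fun h => c1711 h u27 u6; have u31 : ¬p233 := fun h => c304 h u29 u27; have u32 : p74 := Classical.byContradiction fun h => c112 h u28; have u33 : p33 := Classical.byContradiction fun h => c1649 h u29 u19; have u34 : ¬p234 := fun h => c307 h u31; have u35 : p75 := Classical.byContradiction fun h => c57 u32 h; have u36 : p32 := Classical.byContradiction fun h => c24 h u33; have u37 : p222 := Classical.byContradiction fun h =>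 c2167 h u35 u25; have u38 : p29 := Classical.byContradiction fun h => c252 h u36; have u39 : p30 := Classical.byContradiction fun h => c107 u10 u38 h; have u40 : p40 := Classical.byContradiction fun h => c2880 h u39 n4; have u41 : p39 := Classical.byContradiction fun h => c28 h u40; have u42 : p36 := Classical.byContradiction fun h => c253 h u41; have u43 : p37 := Classical.byContradiction fun h => c144 u10 u42 h; have u44 : ¬p135 := fun h => c3045 n0 u35 u43 h; have u45 : ¬p235 := fun h => c1726 u44 h u29; have u46 : ¬p86 := fun h => c2145 u44 h u25 n1; have u47 : ¬p237 := fun h => c310 h u45 u30; have u48 : ¬p85 := fun h => c65 h u46; have u49 : ¬p238 := fun h => c316 h u47; have u50 : p88 := Classical.byContradiction fun h => c153 u48 h; have u51 : ¬p114 := fun h => c872 h u48 u13; have u52 : p300 := Classical.byContradiction fun h => c653 h u50; have u53 : p116 := Classical.byContradiction fun h => c157 u51 h; have u54 : p279 := Classical.byContradiction fun h => c1816 h u52 u5; have u55 : p246 := Classical.byContradiction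 fun h => c2322 h u53 u16 u48 u15 u54 u45; have u56 : ¬p23 := fun h => c2036 h u14 u55 u3 u4; have u57 : p21 := Classical.byContradiction fun h => c19 h u56; have u58 : p22 := Classical.byContradiction fun h => c82 u10 u57 h; have u59 : ¬p203 := fun h => c3058 n0 u58 u37 h u3; have u60 : ¬p205 := fun h => c267 h u59 u2; have u61 : p216 := Classical.byContradiction fun h => c886 u60 n2 h; have u62 : ¬p229 := fun h => c300 h u60 n3; have u63 : p215 := Classical.byContradiction fun h => c286 u61 h; have u64 : p224 := Classical.byContradiction fun h => c416 u10 u1 u21 h u62 u34 u49 u26; have u65 : ¬p223 := fun h => c546 u10 u63 h; c294 u64 u0 u37 u65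
  have c3064 : ¬p414 → ¬p217 → p72 → p13 → ¬p251 → p1 → ¬p289 → ¬p208 → False := fun n0 n1 n2 n3 n4 n5 n6 n7 =>
    have u0 : p131 := Classical.byContradiction fun h => c264 h; have u1 : p67 := Classical.byContradiction fun h => c823 h; have u2 : ¬p191 := fun h => c255 h; have u3 : p12 := Classical.byContradiction fun h => c12 h; have u4 : p245 := Classical.byContradiction fun h => c1814 h; have u5 : ¬p138 := fun h => c902 h; have u6 : ¬p190 := fun h => c254 h; have u7 : p201 := Classical.byContradiction fun h => c1826 h; have u8 : p71 := Classical.byContradiction fun h => c87 h n2; have u9 : ¬p73 := fun h => c56 u8 h; have u10 : ¬p19 := fun h => c50 n3 h; have u11 : p14 := Classical.byContradiction fun h => c47 n5 n3 h; have u12 : ¬p197 := fun h => c2394 h u11 u6; have u13 : p207 := Classical.byContradiction fun h => c271 n7 u7 u12 h; have u14 : p206 := Classical.byContradiction fun h => c270 n7 u7 u12 h; have u15 : ¬p76 := fun h => c2310 h n1 u13; have u16 : ¬p231 := fun h => c2150 h u14 u6; have u17 : p74 := Classical.byContradiction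 fun h => c112 h u15; have u18 : p33 := Classical.byContradiction fun h => c1649 h u16 u11; have u19 : p75 := Classical.byContradiction fun h => c57 u17 h; have u20 : p32 := Classical.byContradiction fun h => c24 h u18; have u21 : p222 := Classical.byContradiction fun h => c2167 h u19 u14; have u22 : p29 := Classical.byContradiction fun h => c252 h u20; have u23 : p30 := Classical.byContradiction fun h => c107 n5 u22 h; have u24 : p40 := Classical.byContradiction fun h => c2880 h u23 n6; have u25 : p39 := Classical.byContradiction fun h => c28 h u24; have u26 : p36 := Classical.byContradiction fun h => c253 h u25; have u27 : p37 := Classical.byContradiction fun h => c144 n5 u26 h; have u28 : ¬p135 := fun h => c3045 n0 u19 u27 h; have u29 : ¬p235 := fun h => c1726 u28 h u16; have u30 : ¬p86 := fun h => c2145 u28 h u14 n1; have u31 : ¬p85 := fun h => c65 h u30; have u32 : p88 := Classical.byContradiction fun h => c153 u31 h; have u33 : ¬p114 := fun h => c872 h u31 u8; have u34 : p300 := Classical.byContradiction fun h => c653 h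 u32; have u35 : p116 := Classical.byContradiction fun h => c157 u33 h; have u36 : p279 := Classical.byContradiction fun h => c1816 h u34 u5; have u37 : p246 := Classical.byContradiction fun h => c2322 h u35 u9 u31 n2 u36 u29; have u38 : ¬p247 := fun h => c323 h u4 u37; have u39 : ¬p23 := fun h => c2036 h u10 u37 u2 u3; have u40 : p244 := Classical.byContradiction fun h => c1903 h u38; have u41 : p21 := Classical.byContradiction fun h => c19 h u39; have u42 : p22 := Classical.byContradiction fun h => c82 n5 u41 h; have u43 : ¬p199 := fun h => c2153 h u42 u2; have u44 : ¬p203 := fun h => c3058 n0 u42 u21 h u2; have u45 : p250 := Classical.byContradiction fun h => c329 n4 u40 u43 h; have u46 : ¬p265 := fun h => c2143 h u44 u45 n1 u1; c3063 u31 n0 u9 u46 u19 n2 u42 u0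
  have c3067 : ¬p71 → p37 → ¬p31 → p221 → ¬p414 → p206 → ¬p205 → p1 → ¬p231 → p258 → False := fun n0 n1 n2 n3 n4 n5 n6 n7 n8 n9 =>
    have u0 : ¬p190 := fun h => c254 h; have u1 : ¬p202 := fun h => c265 h; have u2 : p66 := Classical.byContradiction fun h => c263 h; have u3 : p69 := Classical.byContradiction fun h => c907 h; have u4 : p12 := Classical.byContradiction fun h => c12 h; have u5 : ¬p133 := fun h => c1436 h; have u6 : p201 := Classical.byContradiction fun h => c1826 h; have u7 : ¬p240 := fun h => c2459 n4 h u0; have u8 : ¬p228 := fun h => c561 n7 n9 h; have u9 : ¬p208 := fun h => c543 h n3; have u10 : p216 := Classical.byContradiction fun h => c886 n6 n3 h; have u11 : p215 := Classical.byContradiction fun h => c286 u10 h; have u12 : ¬p223 := fun h => c546 n7 u11 h; have u13 : p207 := Classical.byContradiction fun h => c1614 h u11 u9 u6; have u14 : ¬p232 := fun h => c2264 h u13 u0; have u15 : ¬p236 := fun h => c1711 h u14 u5; have u16 : ¬p233 := fun h => c304 h n8 u14; have u17 : ¬p17 := fun h => c2323 h n2 u14; have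 u18 : ¬p234 := fun h => c307 h u16; have u19 : p16 := Classical.byContradiction fun h => c15 n7 h u17; have u20 : p13 := Classical.byContradiction fun h => c250 h u19; have u21 : ¬p19 := fun h => c50 u20 h; have u22 : ¬p321 := fun h => c2743 h u21 u0 u4; have u23 : p257 := Classical.byContradiction fun h => c2396 h n0 u21 u3 u4; have u24 : ¬p241 := fun h => c769 h u22; have u25 : ¬p256 := fun h => c341 n9 h u23; have u26 : ¬p242 := fun h => c318 h u7 u24; have u27 : ¬p217 := fun h => c2398 u25 n4 h u3; have u28 : ¬p243 := fun h => c320 h u26; have u29 : ¬p320 := fun h => c3060 n4 h u27; have u30 : ¬p76 := fun h => c2310 h u27 u13; have u31 : ¬p322 := fun h => c415 h u29 u22; have u32 : p74 := Classical.byContradiction fun h => c112 h u30; have u33 : p75 := Classical.byContradiction fun h => c57 u32 h; have u34 : p222 := Classical.byContradiction fun h => c2167 h u33 n5; have u35 : ¬p135 := fun h => c3045 n4 u33 n1 h; have u36 : ¬p229 := fun h => c301 h n6 u2 n0 u34 u8; have u37 : ¬p224 := fun h => c294 h u1 u34 u12; have u38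 : ¬p235 := fun h => c1726 u35 h n8; have u39 : p238 := Classical.byContradiction fun h => c416 n7 u0 u31 u37 u36 u18 h u28; have u40 : ¬p237 := fun h => c310 h u38 u15; c316 u39 u40
  have c3068 : ¬p72 → p37 → ¬p231 → ¬p414 → ¬p205 → ¬p31 → p1 → p227 → ¬p247 → False := fun n0 n1 n2 n3 n4 n5 n6 n7 n8 =>
    have u0 : ¬p71 := fun h => c55 h n0; have u1 : ¬p251 := fun h => c558 h n7; have u2 : p259 := Classical.byContradiction fun h => c2541 n7 n8 h; have u3 : p258 := Classical.byContradiction fun h => c343 u2 h; have u4 : p249 := Classical.byContradiction fun h => c978 h u3 u1; have u5 : p206 := Classical.byContradiction fun h => c976 h u4 n0; have u6 : ¬p221 := fun h => c3067 u0 n1 n5 h n3 u5 n4 n6 n2 u3; have u7 : p226 := Classical.byContradiction fun h => c1283 h n0 u6; c1088 n0 n7 u6 u7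
  have c3069 : ¬p99 → p358 → p1 → ¬p364 → ¬p431 → ¬p79 → p278 → ¬p72 → ¬p195 → p432 → ¬p221 → p233 → p286 → p30 → ¬p361 → ¬p227 → ¬p367 → p293 → ¬p147 → False := fun n0 n1 n2 n3 n4 n5 n6 n7 n8 n9 n10 n11 n12 n13 n14 n15 n16 n17 n18 =>
    have u0 : p402 := Classical.byContradiction fun h => c2917 n4 n5 n17 h n18 n9 n14; have u1 : ¬p351 := fun h => c3039 n0 h n4 n9 n14; have u2 : p403 := Classical.byContradiction fun h => c511 h n12 n13 u0; have u3 : ¬p355 := fun h => c541 h u2 n11; have u4 : ¬p356 := fun h => c457 h u3 n10; have u5 : ¬p359 := fun h => c3036 h n1 n5 n7 n6 u3; have u6 : p360 := Classical.byContradiction fun h => c3038 u1 h n2 n16 n3 n8 u4; c460 u6 u5 n15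
  have c3070 : p435 → p431 → ¬p361 → ¬p52 → ¬p147 → ¬p440 → False := fun n0 n1 n2 n3 n4 n5 =>
    have u0 : p9 := Classical.byContradiction fun h => c9 h; have u1 : ¬p437 := fun h => c2778 n0 h n1 n3 n5 u0; have u2 : ¬p436 := fun h => c2790 h n0 n1 n3 n5 u0; have u3 : p438 := Classical.byContradiction fun h => c570 u2 u1 h; c2915 u3 u2 n4 n2
  have c3073 : p1 → ¬p218 → p72 → ¬p227 → p232 → ¬p194 → ¬p221 → p425 → p25 → ¬p48 → p426 → ¬p16 → p324 → ¬p289 → False := fun n0 n1 n2 n3 n4 n5 n6 n7 n8 n9 n10 n11 n12 n13 =>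
    have u0 : p429 := Classical.byContradiction fun h => c1012 h; have u1 : p12 := Classical.byContradiction fun h => c12 h; have u2 : p3 := Classical.byContradiction fun h => c1 h; have u3 : p245 := Classical.byContradiction fun h => c1814 h; have u4 : ¬p190 := fun h => c254 h; have u5 : p7 := Classical.byContradiction fun h => c5 h; have u6 : ¬p192 := fun h => c256 h; have u7 : ¬p68 := fun h => c799 h; have u8 : ¬p430 := fun h => c566 n0 h; have u9 : p71 := Classical.byContradiction fun h => c87 h n2; have u10 : ¬p73 := fun h => c56 u9 h; have u11 : p263 := Classical.byContradiction fun h => c1836 h n8 u1 u2; have u12 : ¬p20 := fun h => c17 n11 h; have u13 : p76 := Classical.byContradiction fun h => c640 n4 h; have u14 : p265 := Classical.byContradiction fun h => c2300 n4 h u7; have u15 : ¬p0 := fun h => c2335 n4 n0 n2 h n6 n1 u11; have u16 : ¬p74 := fun h => c58 h u13; have u17 : p266 := Classical.byContradiction fun h => c1294 u14 n0 h u11; have u18 : ¬p341 := fun h => c439 h u15; have u19 : ¬p345 := fun h => c448 h u15;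 have u20 : ¬p79 := fun h => c115 u16 h; have u21 : ¬p77 := fun h => c637 u16 h; have u22 : ¬p284 := fun h => c550 h u17; have u23 : ¬p282 := fun h => c1858 h u20 n2; have u24 : p81 := Classical.byContradiction fun h => c114 u21 h; have u25 : ¬p277 := fun h => c375 u22 h u23; have u26 : p279 := Classical.byContradiction fun h => c645 h u24; have u27 : ¬p34 := fun h => c1277 u25 h u6 u1 u2; have u28 : p32 := Classical.byContradiction fun h => c25 n0 h u27; have u29 : p29 := Classical.byContradiction fun h => c252 h u28; have u30 : ¬p75 := fun h => c2262 u12 h u29 n1 u4 u5; have u31 : ¬p86 := fun h => c2701 u30 h n13; have u32 : ¬p85 := fun h => c65 h u31; have u33 : ¬p235 := fun h => c647 u31 h; have u34 : ¬p114 := fun h => c872 h u32 u9; have u35 : p116 := Classical.byContradiction fun h => c157 u34 h; have u36 : p246 := Classical.byContradiction fun h => c2322 h u35 u10 u32 n2 u26 u33; have u37 : ¬p247 := fun h => c323 h u3 u36; have u38 : ¬p261 := fun h => c346 h u37 n6; have u39 : p276 := Classical.byContradiction fun h =>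 c1241 u15 h n3 u38; have u40 : p275 := Classical.byContradiction fun h => c367 u39 h; have u41 : p274 := Classical.byContradiction fun h => c1377 u40 h n11; have u42 : p123 := Classical.byContradiction fun h => c1017 u41 u8 n10 h u0; have u43 : ¬p121 := fun h => c101 h u42; have u44 : ¬p126 := fun h => c193 u43 h; have u45 : ¬p124 := fun h => c688 h u43; have u46 : p325 := Classical.byContradiction fun h => c1162 h u8 u44 n7 u0; have u47 : p327 := Classical.byContradiction fun h => c1039 h n9 u44 n7 u8 u0 u1 u2; have u48 : p127 := Classical.byContradiction fun h => c192 u45 h; have u49 : ¬p335 := fun h => c2905 u41 h u48 n7 u8 n8; have u50 : ¬p336 := fun h => c431 h u49 n3; have u51 : p333 := Classical.byContradiction fun h => c429 u49 u47 h; have u52 : p332 := Classical.byContradiction fun h => c1155 n0 u18 u19 h u46 n12 n5 u50; have u53 : p328 := Classical.byContradiction fun h => c2187 h u51 n2; have u54 : p329 := Classical.byContradiction fun h => c2906 h u43 u51 u36; have u55 : p330 := Classical.byContradiction fun h =>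 c425 u52 h n6; c422 u55 u53 u54
  have c3075 : ¬p430 → ¬p135 → ¬p265 → ¬p48 → p425 → p25 → ¬p261 → p426 → ¬p16 → ¬p74 → ¬p266 → p72 → ¬p268 → ¬p227 → False := fun n0 n1 n2 n3 n4 n5 n6 n7 n8 n9 n10 n11 n12 n13 =>
    have u0 : p132 := Classical.byContradiction fun h => c1291 h; have u1 : p429 := Classical.byContradiction fun h => c1012 h; have u2 : p12 := Classical.byContradiction fun h => c12 h; have u3 : p3 := Classical.byContradiction fun h => c1 h; have u4 : ¬p134 := fun h => c124 h n1; have u5 : p276 := Classical.byContradiction fun h => c2121 n1 n6 n10 n13 h n5 n12; have u6 : p136 := Classical.byContradiction fun h => c162 u4 h; have u7 : p275 := Classical.byContradiction fun h => c367 u5 h; have u8 : ¬p82 := fun h => c1682 n9 h n1 u6; have u9 : p274 := Classical.byContradiction fun h => c1377 u7 h n8; have u10 : p123 := Classical.byContradiction fun h => c1017 u9 n0 n7 h u1; have u11 : ¬p121 := fun h => c101 h u10; have u12 : ¬p126 := fun h => c193 u11 h; have u13 : ¬p124 := fun h => c688 h u11; have u14 : p144 := Classical.byContradiction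 fun h => c1048 u9 n0 n2 h n4 u11 u1; have u15 : p327 := Classical.byContradiction fun h => c1039 h n3 u12 n4 n0 u1 u2 u3; have u16 : p127 := Classical.byContradiction fun h => c192 u13 h; have u17 : ¬p142 := fun h => c130 h u14; have u18 : ¬p335 := fun h => c2905 u9 h u16 n4 n0 n5; have u19 : ¬p143 := fun h => c194 u17 h; have u20 : p333 := Classical.byContradiction fun h => c429 u18 u15 h; have u21 : ¬p168 := fun h => c2518 h u19 u0; have u22 : p94 := Classical.byContradiction fun h => c2215 u20 h n11; have u23 : ¬p167 := fun h => c167 h u21; have u24 : p89 := Classical.byContradiction fun h => c187 h u22; c2469 u8 u23 u24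
  have c3076 : ¬p221 → ¬p265 → p72 → ¬p345 → p1 → p246 → ¬p194 → ¬p227 → p425 → p25 → p324 → ¬p48 → p338 → p274 → p426 → False := fun n0 n1 n2 n3 n4 n5 n6 n7 n8 n9 n10 n11 n12 n13 n14 =>
    have u0 : p429 := Classical.byContradiction fun h => c1012 h; have u1 : p12 := Classical.byContradiction fun h => c12 h; have u2 : p3 := Classical.byContradiction fun h => c1 h; have u3 : ¬p430 := fun h => c566 n4 h; have u4 : p347 := Classical.byContradiction fun h => c771 h n10; have u5 : p123 := Classical.byContradiction fun h => c1017 n13 u3 n14 h u0; have u6 : ¬p121 := fun h => c101 h u5; have u7 : p339 := Classical.byContradiction fun h => c1856 h u5 n1; have u8 : ¬p126 := fun h => c193 u6 h; have u9 : ¬p124 := fun h => c688 h u6; have u10 : ¬p340 := fun h => c435 h n12 u7; have u11 : p325 := Classical.byContradiction fun h => c1162 h u3 u8 n8 u0; have u12 : p327 := Classical.byContradiction fun h => c1039 h n11 u8 n8 u3 u0 u1 u2; have u13 : p127 := Classical.byContradiction fun h => c192 u9 h; have u14 : ¬p341 := fun h => c440 h u10;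 have u15 : p348 := Classical.byContradiction fun h => c772 h u11; have u16 : ¬p326 := fun h => c418 h n10 u11; have u17 : ¬p335 := fun h => c2905 n13 h u13 n8 u3 n9; have u18 : ¬p349 := fun h => c451 h u4 u15; have u19 : ¬p336 := fun h => c431 h u17 n7; have u20 : p333 := Classical.byContradiction fun h => c429 u17 u12 h; have u21 : ¬p350 := fun h => c452 h u18; have u22 : p332 := Classical.byContradiction fun h => c453 n4 n6 u16 h u19 u14 n3 u21; have u23 : p328 := Classical.byContradiction fun h => c2187 h u20 n2; have u24 : p329 := Classical.byContradiction fun h => c2906 h u6 u20 n5; have u25 : p330 := Classical.byContradiction fun h => c425 u22 h n0; c422 u25 u23 u24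
  have c3078 : p1 → ¬p265 → p72 → ¬p221 → p246 → ¬p227 → ¬p16 → ¬p289 → ¬p194 → p425 → p25 → p324 → ¬p48 → p426 → ¬p74 → p307 → p34 → ¬p235 → ¬p266 → ¬p268 → False := fun n0 n1 n2 n3 n4 n5 n6 n7 n8 n9 n10 n11 n12 n13 n14 n15 n16 n17 n18 n19 =>
    have u0 : p66 := Classical.byContradiction fun h => c263 h; have u1 : p132 := Classical.byContradiction fun h => c1291 h; have u2 : p245 := Classical.byContradiction fun h => c1814 h; have u3 : ¬p430 := fun h => c566 n0 h; have u4 : ¬p247 := fun h => c323 h u2 n4; have u5 : ¬p261 := fun h => c346 h u4 n3; have u6 : p135 := Classical.byContradiction fun h => c3075 u3 h n1 n12 n9 n10 u5 n13 n6 n14 n18 n2 n19 n5; have u7 : p134 := Classical.byContradiction fun h => c161 h u6; have u8 : ¬p136 := fun h => c125 u7 h; have u9 : p343 := Classical.byContradiction fun h => c1499 h n12 u8 n16 u6; have u10 : ¬p344 := fun h => c1474 h n7 u8 u9 n0 n15; have u11 : ¬p345 := fun h => c449 h u10; have u12 : p342 := Classical.byContradiction fun h => c1592 n12 h u10; have u13 : p338 := Classical.byContradiction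 fun h => c1481 h u12 u1; have u14 : ¬p274 := fun h => c3076 n3 n1 n2 u11 n0 n4 n8 n5 n9 n10 n11 n12 u13 h n13; have u15 : ¬p273 := fun h => c1376 h u14 n6 u0; have u16 : ¬p275 := fun h => c365 h u15 u14; have u17 : ¬p276 := fun h => c367 h u16; have u18 : p269 := Classical.byContradiction fun h => c1502 n17 h u17 n1 u6 u5 n5; c3077 u18 u8 n1
  have c3079 : p241 → ¬p126 → p72 → p425 → p17 → p25 → ¬p430 → ¬p48 → False := fun n0 n1 n2 n3 n4 n5 n6 n7 =>
    have u0 : p429 := Classical.byContradiction fun h => c1012 h; have u1 : p12 := Classical.byContradiction fun h => c12 h; have u2 : p3 := Classical.byContradiction fun h => c1 h; have u3 : p325 := Classical.byContradiction fun h => c1162 h n6 n1 n3 u0; have u4 : p327 := Classical.byContradiction fun h => c1039 h n7 n1 n3 n6 u0 u1 u2; c2903 n0 u4 n2 n3 n6 n4 n5 u3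
  have c3080 : ¬p74 → p324 → p72 → p307 → ¬p240 → ¬p227 → ¬p221 → p425 → ¬p16 → p1 → ¬p289 → p25 → p426 → ¬p48 → ¬p194 → p34 → ¬p268 → ¬p232 → False := fun n0 n1 n2 n3 n4 n5 n6 n7 n8 n9 n10 n11 n12 n13 n14 n15 n16 n17 =>
    have u0 : p429 := Classical.byContradiction fun h => c1012 h; have u1 : p201 := Classical.byContradiction fun h => c1826 h; have u2 : p132 := Classical.byContradiction fun h => c1291 h; have u3 : ¬p202 := fun h => c265 h; have u4 : p12 := Classical.byContradiction fun h => c12 h; have u5 : p3 := Classical.byContradiction fun h => c1 h; have u6 : ¬p192 := fun h => c256 h; have u7 : ¬p133 := fun h => c1436 h; have u8 : ¬p430 := fun h => c566 n9 h; have u9 : ¬p224 := fun h => c293 h u3 n6; have u10 : p263 := Classical.byContradiction fun h => c1836 h n11 u4 u5; have u11 : p17 := Classical.byContradiction fun h => c15 n9 n8 h; have u12 : ¬p236 := fun h => c1711 h n17 u7; have u13 : p277 := Classical.byContradiction fun h => c1277 h n15 u6 u4 u5; have u14 : ¬p79 := fun h => c115 n0 h; have u15 : ¬p235 := fun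 h => c1503 n0 h n17 n10; have u16 : ¬p282 := fun h => c1858 h u14 n2; have u17 : ¬p231 := fun h => c1910 h u15 u2; have u18 : ¬p237 := fun h => c310 h u15 u12; have u19 : p284 := Classical.byContradiction fun h => c375 h u13 u16; have u20 : ¬p233 := fun h => c304 h u17 n17; have u21 : ¬p238 := fun h => c316 h u18; have u22 : ¬p266 := fun h => c550 u19 h; have u23 : ¬p234 := fun h => c307 h u20; have u24 : ¬p265 := fun h => c1294 h n9 u22 u10; have u25 : ¬p246 := fun h => c3078 n9 u24 n2 n6 h n5 n8 n10 n14 n7 n11 n1 n13 n12 n0 n3 n15 u15 u22 n16; have u26 : p247 := Classical.byContradiction fun h => c1908 u25 h; have u27 : ¬p205 := fun h => c503 u26 h; have u28 : ¬p203 := fun h => c268 u27 u1 h; have u29 : ¬p229 := fun h => c300 h u27 n5; have u30 : p243 := Classical.byContradiction fun h => c321 n6 u9 u29 u23 u21 h; have u31 : p242 := Classical.byContradiction fun h => c320 u30 h; have u32 : p241 := Classical.byContradiction fun h => c318 u31 n4 h; have u33 : p126 := Classical.byContradiction fun h => c3079 u32 h n2 n7 u11 n11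 u8 n13; have u34 : p333 := Classical.byContradiction fun h => c694 u33 h; have u35 : p94 := Classical.byContradiction fun h => c2215 u34 h n2; have u36 : p89 := Classical.byContradiction fun h => c187 h u35; have u37 : ¬p91 := fun h => c69 u36 h; have u38 : p417 := Classical.byContradiction fun h => c2245 u32 u37 h n7 u8 n2 u0; c2259 u25 u38 u37 u28 u11
  have c3081 : p126 → ¬p229 → ¬p246 → ¬p221 → p1 → ¬p289 → ¬p232 → ¬p240 → p425 → p72 → p17 → ¬p203 → False := fun n0 n1 n2 n3 n4 n5 n6 n7 n8 n9 n10 n11 =>
    have u0 : p132 := Classical.byContradiction fun h => c1291 h; have u1 : p429 := Classical.byContradiction fun h => c1012 h; have u2 : p12 := Classical.byContradiction fun h => c12 h; have u3 : p3 := Classical.byContradiction fun h => c1 h; have u4 : ¬p202 := fun h => c265 h; have u5 : ¬p430 := fun h => c566 n4 h; have u6 : ¬p224 := fun h => c293 h u4 n3; have u7 : p230 := Classical.byContradiction fun h => c1845 h n10 u2 u3; have u8 : p121 := Classical.byContradiction fun h => c193 h n0; have u9 : p333 := Classical.byContradiction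 fun h => c694 n0 h; have u10 : p94 := Classical.byContradiction fun h => c2215 u9 h n9; have u11 : p89 := Classical.byContradiction fun h => c187 h u10; have u12 : ¬p91 := fun h => c69 u11 h; have u13 : ¬p417 := fun h => c2259 n2 h u12 n11 n10; have u14 : ¬p241 := fun h => c2245 h u12 u13 n8 u5 n9 u1; have u15 : ¬p242 := fun h => c318 h n7 u14; have u16 : ¬p243 := fun h => c320 h u15; have u17 : p235 := Classical.byContradiction fun h => c2293 n1 n3 u16 h u6 n6; have u18 : p237 := Classical.byContradiction fun h => c1201 n4 u7 u17 h; have u19 : ¬p143 := fun h => c1822 h n5 u17 u13; have u20 : ¬p301 := fun h => c535 h u18; have u21 : ¬p168 := fun h => c2518 h u19 u0; have u22 : p300 := Classical.byContradiction fun h => c1238 h u20; have u23 : ¬p167 := fun h => c167 h u21; have u24 : ¬p183 := fun h => c1842 u8 h n2 u22; c203 u23 u24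
  have c3083 : p1 → ¬p76 → ¬p218 → ¬p289 → ¬p73 → ¬p246 → ¬p221 → ¬p232 → ¬p240 → p425 → p17 → p25 → p72 → ¬p48 → ¬p227 → ¬p294 → p87 → False := fun n0 n1 n2 n3 n4 n5 n6 n7 n8 n9 n10 n11 n12 n13 n14 n15 n16 =>
    have u0 : p137 := Classical.byContradiction fun h => c889 h; have u1 : p132 := Classical.byContradiction fun h => c1291 h; have u2 : p308 := Classical.byContradiction fun h => c1292 h; have u3 : ¬p138 := fun h => c902 h; have u4 : p429 := Classical.byContradiction fun h => c1012 h; have u5 : p12 := Classical.byContradiction fun h => c12 h; have u6 : p3 := Classical.byContradiction fun h => c1 h; have u7 : p201 := Classical.byContradiction fun h => c1826 h; have u8 : ¬p202 := fun h => c265 h; have u9 : ¬p430 := fun h => c566 n0 h; have u10 : ¬p224 := fun h => c293 h u8 n6; have u11 : p230 := Classical.byContradiction fun h => c1845 h n10 u5 u6; have u12 : p247 := Classical.byContradiction fun h => c1908 n5 h; have u13 : ¬p205 := fun h => c503 u12 h; have u14 : ¬p203 := fun h => c268 u13 u7 h; have u15 : ¬p229 := fun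 h => c300 h u13 n14; have u16 : p303 := Classical.byContradiction fun h => c794 h u14 n16; have u17 : ¬p126 := fun h => c3081 h u15 n5 n6 n0 n3 n7 n8 n9 n12 n10 u14; have u18 : p327 := Classical.byContradiction fun h => c1039 h n13 u17 n9 u9 u4 u5 u6; have u19 : p0 := Classical.byContradiction fun h => c2900 u18 u9 n12 u14 n9 h n11 n10 n8 n6 u17 n14; have u20 : ¬p241 := fun h => c3079 h u17 n12 n9 n10 n11 u9 n13; have u21 : ¬p242 := fun h => c318 h n8 u20; have u22 : ¬p243 := fun h => c320 h u21; have u23 : p235 := Classical.byContradiction fun h => c2293 u15 n6 u22 h u10 n7; have u24 : p237 := Classical.byContradiction fun h => c1201 n0 u11 u23 h; have u25 : ¬p301 := fun h => c535 h u24; have u26 : p300 := Classical.byContradiction fun h => c1238 h u25; have u27 : p279 := Classical.byContradiction fun h => c1816 h u26 u3; have u28 : p120 := Classical.byContradiction fun h => c2343 h u26 n4; have u29 : p304 := Classical.byContradiction fun h => c2339 h u26 n4; have u30 : ¬p117 := fun h => c99 h u28; have u31 : ¬p305 := fun h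 => c398 h u16 u29; have u32 : ¬p162 := fun h => c158 u30 h; have u33 : p136 := Classical.byContradiction fun h => c2889 u14 u26 u23 u32 h n1; have u34 : ¬p134 := fun h => c125 h u33; have u35 : p309 := Classical.byContradiction fun h => c704 h u33; have u36 : ¬p135 := fun h => c161 u34 h; have u37 : ¬p163 := fun h => c163 u34 h; have u38 : ¬p310 := fun h => c402 h u2 u35; have u39 : p231 := Classical.byContradiction fun h => c1726 u36 u23 h; have u40 : ¬p315 := fun h => c2607 n15 h u37 u1; have u41 : ¬p311 := fun h => c405 h u38; have u42 : p318 := Classical.byContradiction fun h => c885 u31 n2 u25 u19 h u41; have u43 : p317 := Classical.byContradiction fun h => c412 u42 h; have u44 : p316 := Classical.byContradiction fun h => c409 u43 u40 h; have u45 : p295 := Classical.byContradiction fun h => c1790 u44 h u33 u37 u1; c3082 u39 u45 u14 u27 u20 u32 u0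
  have c3085 : ¬p326 → p1 → p72 → ¬p135 → p246 → ¬p194 → ¬p121 → ¬p221 → ¬p118 → ¬p265 → p327 → ¬p227 → p127 → p425 → p25 → ¬p16 → ¬p261 → ¬p268 → ¬p264 → False := fun n0 n1 n2 n3 n4 n5 n6 n7 n8 n9 n10 n11 n12 n13 n14 n15 n16 n17 n18 =>
    have u0 : p132 := Classical.byContradiction fun h => c1291 h; have u1 : ¬p430 := fun h => c566 n1 h; have u2 : p123 := Classical.byContradiction fun h => c190 n6 h; have u3 : ¬p266 := fun h => c350 h n18 n9; have u4 : p339 := Classical.byContradiction fun h => c1856 h u2 n9; have u5 : p276 := Classical.byContradiction fun h => c2121 n3 n16 u3 n11 h n14 n17; have u6 : p275 := Classical.byContradiction fun h => c367 u5 h; have u7 : p274 := Classical.byContradiction fun h => c1377 u6 h n15; have u8 : ¬p335 := fun h => c2905 u7 h n12 n13 u1 n14; have u9 : ¬p336 := fun h => c431 h u8 n11; have u10 : p333 := Classical.byContradiction fun h => c429 u8 n10 h; have u11 : p94 := Classical.byContradiction fun h => c2215 u10 h n2; have u12 : p328 := Classical.byContradiction fun h => c2187 h u10 n2;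 have u13 : p329 := Classical.byContradiction fun h => c2906 h n6 u10 n4; have u14 : p89 := Classical.byContradiction fun h => c187 h u11; have u15 : ¬p330 := fun h => c422 h u12 u13; have u16 : ¬p95 := fun h => c72 u14 h; have u17 : ¬p332 := fun h => c425 h u15 n7; have u18 : ¬p342 := fun h => c2974 u17 n0 n3 u4 h u9 n5 n1; have u19 : ¬p338 := fun h => c1740 u18 n3 h; c3084 u10 u19 u16 n8 u2 n4 u0
  have c3087 : p1 → ¬p121 → p235 → p72 → p246 → ¬p135 → ¬p194 → ¬p221 → p277 → ¬p326 → p327 → ¬p227 → p127 → p425 → p25 → ¬p16 → ¬p261 → ¬p73 → p230 → False := fun n0 n1 n2 n3 n4 n5 n6 n7 n8 n9 n10 n11 n12 n13 n14 n15 n16 n17 n18 =>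
    have u0 : p132 := Classical.byContradiction fun h => c1291 h; have u1 : p12 := Classical.byContradiction fun h => c12 h; have u2 : p3 := Classical.byContradiction fun h => c1 h; have u3 : p263 := Classical.byContradiction fun h => c1836 h n14 u1 u2; have u4 : ¬p264 := fun h => c2359 h n0 n17 n18; have u5 : ¬p268 := fun h => c2377 h n0 n17 n18; have u6 : p237 := Classical.byContradiction fun h => c1201 n0 n18 n2 h; have u7 : p231 := Classical.byContradiction fun h => c1726 n5 n2 h; have u8 : ¬p301 := fun h => c535 h u6; have u9 : p78 := Classical.byContradiction fun h => c638 u7 h; have u10 : p300 := Classical.byContradiction fun h => c1238 h u8; have u11 : p77 := Classical.byContradiction fun h => c110 h u9; have u12 : p120 := Classical.byContradiction fun h => c2343 h u10 n17; have u13 : ¬p81 := fun h => c62 u11 h; have u14 : ¬p117 := fun h => c99 h u12; have u15 : ¬p118 := fun h => c155 u14 h; have u16 : p265 := Classical.byContradiction fun h => c3085 n9 n0 n3 n5 n4 n6 n1 n7 u15 h n10 n11 n12 n13 n14 n15 n16 u5 u4; have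 u17 : p266 := Classical.byContradiction fun h => c1294 u16 n0 h u3; have u18 : ¬p284 := fun h => c550 h u17; have u19 : p282 := Classical.byContradiction fun h => c375 u18 n8 h; c3086 u19 u13 u15 n4 u16 u0
  have c3089 : p265 → p1 → p203 → p246 → p277 → p136 → ¬p80 → p263 → False := fun n0 n1 n2 n3 n4 n5 n6 n7 =>
    have u0 : p132 := Classical.byContradiction fun h => c1291 h; have u1 : p266 := Classical.byContradiction fun h => c1294 n0 n1 h n7; have u2 : p269 := Classical.byContradiction fun h => c2231 n0 h n5; have u3 : ¬p284 := fun h => c550 h u1; have u4 : p116 := Classical.byContradiction fun h => c682 h u2; have u5 : p282 := Classical.byContradiction fun h => c375 u3 n4 h; have u6 : ¬p114 := fun h => c95 h u4; have u7 : ¬p117 := fun h => c679 h u6; have u8 : ¬p118 := fun h => c155 u7 h; have u9 : p81 := Classical.byContradiction fun h => c3086 u5 h u8 n3 n0 u0; have u10 : ¬p77 := fun h => c62 h u9; have u11 : ¬p78 := fun h => c110 u10 h; have u12 : p130 := Classical.byContradiction fun h => c111 u10 h; c3088 u5 u12 n2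 u11 n6
  have c3091 : p1 → ¬p121 → p72 → ¬p221 → ¬p135 → ¬p194 → p246 → ¬p326 → p327 → ¬p227 → p127 → p425 → p25 → ¬p16 → ¬p261 → ¬p80 → p277 → ¬p232 → ¬p243 → ¬p73 → p230 → False := fun n0 n1 n2 n3 n4 n5 n6 n7 n8 n9 n10 n11 n12 n13 n14 n15 n16 n17 n18 n19 n20 =>
    have u0 : ¬p204 := fun h => c938 h; have u1 : p132 := Classical.byContradiction fun h => c1291 h; have u2 : p12 := Classical.byContradiction fun h => c12 h; have u3 : p3 := Classical.byContradiction fun h => c1 h; have u4 : ¬p202 := fun h => c265 h; have u5 : ¬p430 := fun h => c566 n0 h; have u6 : ¬p224 := fun h => c293 h u4 n3; have u7 : p263 := Classical.byContradiction fun h => c1836 h n12 u2 u3; have u8 : ¬p264 := fun h => c2359 h n0 n19 n20; have u9 : ¬p268 := fun h => c2377 h n0 n19 n20; have u10 : p123 := Classical.byContradiction fun h => c190 n1 h; have u11 : ¬p134 := fun h => c124 h n4; have u12 : p136 := Classical.byContradiction fun h => c162 u11 h; have u13 : ¬p235 := fun h => c3087 n0 n1 h n2 n6 n4 n5 n3 n16 n7 n8 n9 n10 n11 n12 n13 n14 n19 n20; have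 u14 : ¬p231 := fun h => c1910 h u13 u1; have u15 : p229 := Classical.byContradiction fun h => c2293 h n3 n18 u13 u6 n17; have u16 : p205 := Classical.byContradiction fun h => c300 u15 h n9; have u17 : p203 := Classical.byContradiction fun h => c267 u16 h u0; have u18 : ¬p265 := fun h => c3089 h n0 u17 n6 n16 u12 n15 u7; have u19 : ¬p266 := fun h => c350 h u8 u18; have u20 : p339 := Classical.byContradiction fun h => c1856 h u10 u18; have u21 : p276 := Classical.byContradiction fun h => c2121 n4 n14 u19 n9 h n12 u9; have u22 : p275 := Classical.byContradiction fun h => c367 u21 h; have u23 : p274 := Classical.byContradiction fun h => c1377 u22 h n13; have u24 : ¬p335 := fun h => c2905 u23 h n10 n11 u5 n12; have u25 : ¬p336 := fun h => c431 h u24 n9; have u26 : p333 := Classical.byContradiction fun h => c429 u24 n8 h; have u27 : p94 := Classical.byContradiction fun h => c2215 u26 h n2; have u28 : p328 := Classical.byContradiction fun h => c2187 h u26 n2; have u29 : p329 := Classical.byContradiction fun h => c2906 h n1 u26 n6;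 have u30 : p89 := Classical.byContradiction fun h => c187 h u27; have u31 : ¬p330 := fun h => c422 h u28 u29; have u32 : p90 := Classical.byContradiction fun h => c68 u30 h; have u33 : ¬p332 := fun h => c425 h u31 n3; have u34 : ¬p342 := fun h => c2974 u33 n7 n4 u20 h u25 n5 n0; have u35 : ¬p338 := fun h => c1740 u34 n4 h; c3090 u35 u32 u14
  have c3092 : p1 → ¬p345 → ¬p16 → ¬p227 → ¬p265 → ¬p221 → p72 → ¬p268 → p246 → ¬p194 → p425 → p25 → p324 → ¬p48 → ¬p261 → p338 → p426 → ¬p136 → ¬p264 → False := fun n0 n1 n2 n3 n4 n5 n6 n7 n8 n9 n10 n11 n12 n13 n14 n15 n16 n17 n18 =>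
    have u0 : p66 := Classical.byContradiction fun h => c263 h; have u1 : ¬p248 := fun h => c325 h; have u2 : ¬p262 := fun h => c347 h u1 n3; have u3 : ¬p266 := fun h => c350 h n18 n4; have u4 : ¬p269 := fun h => c3077 h n17 n4; have u5 : ¬p274 := fun h => c3076 n5 n4 n6 n1 n0 n8 n9 n3 n10 n11 n12 n13 n15 h n16; have u6 : ¬p267 := fun h => c356 h u3; have u7 : ¬p270 := fun h => c359 h n7 u4; have u8 : ¬p273 := fun h => c1376 h u5 n2 u0; have u9 : ¬p275 := fun h => c365 h u8 u5; have u10 : ¬p271 := fun h => c363 h u7; have u11 : ¬p276 := fun h => c367 h u9; c368 n3 n14 u2 u6 u10 u11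
  have c3096 : ¬p335 → ¬p48 → p72 → p246 → p339 → ¬p344 → p324 → ¬p121 → p1 → ¬p221 → p325 → ¬p194 → p327 → ¬p227 → False := fun n0 n1 n2 n3 n4 n5 n6 n7 n8 n9 n10 n11 n12 n13 =>
    have u0 : ¬p336 := fun h => c431 h n0 n13; have u1 : p333 := Classical.byContradiction fun h => c429 n0 n12 h; have u2 : p332 := Classical.byContradiction fun h => c1533 u0 n1 n5 n6 h n8 n4 n10 n11; have u3 : p328 := Classical.byContradiction fun h => c2187 h u1 n2; have u4 : p329 := Classical.byContradiction fun h => c2906 h n7 u1 n3; have u5 : p330 := Classical.byContradiction fun h => c425 u2 h n9; c422 u5 u3 u4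
  have c3097 : ¬p294 → ¬p221 → ¬p292 → p246 → ¬p80 → ¬p227 → p277 → p265 → ¬p261 → p266 → ¬p274 → ¬p264 → ¬p16 → False := fun n0 n1 n2 n3 n4 n5 n6 n7 n8 n9 n10 n11 n12 =>
    have u0 : p66 := Classical.byContradiction fun h => c263 h; have u1 : ¬p273 := fun h => c1376 h n10 n12 u0; have u2 : ¬p275 := fun h => c365 h u1 n10; have u3 : ¬p295 := fun h => c3093 h n10 n4 n3 n7; have u4 : ¬p276 := fun h => c367 h u2; have u5 : ¬p296 := fun h => c389 h n0 u3; have u6 : p0 := Classical.byContradiction fun h => c1241 h u4 n5 n8; have u7 : ¬p297 := fun h => c392 h u5; c1920 n9 n1 n3 u7 u6 n11 n5 n6 n2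
  have c3098 : p324 → p1 → p72 → ¬p289 → ¬p292 → p246 → ¬p48 → ¬p221 → ¬p194 → ¬p227 → p425 → p25 → ¬p80 → ¬p261 → ¬p294 → ¬p16 → p426 → ¬p126 → p307 → p34 → ¬p232 → ¬p73 → ¬p240 → False := fun n0 n1 n2 n3 n4 n5 n6 n7 n8 n9 n10 n11 n12 n13 n14 n15 n16 n17 n18 n19 n20 n21 n22 =>
    have u0 : p132 := Classical.byContradiction fun h => c1291 h; have u1 : p429 := Classical.byContradiction fun h => c1012 h; have u2 : p12 := Classical.byContradiction fun h => c12 h; have u3 : p3 := Classical.byContradiction fun h => c1 h; have u4 : ¬p192 := fun h => c256 h; have u5 : ¬p430 := fun h => c566 n1 h; have u6 : p263 := Classical.byContradiction fun h => c1836 h n11 u2 u3; have u7 : p17 := Classical.byContradiction fun h => c15 n1 n15 h; have u8 : p230 := Classical.byContradiction fun h => c1845 h u7 u2 u3; have u9 : ¬p264 := fun h => c2359 h n1 n21 u8; have u10 : ¬p268 := fun h => c2377 h n1 n21 u8; have u11 : p277 := Classical.byContradiction fun h => c1277 h n19 u4 u2 u3; have u12 : ¬p121 := fun h => c103 h n17; have u13 : p325 := Classical.byContradiction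 fun h => c1162 h u5 n17 n10 u1; have u14 : p327 := Classical.byContradiction fun h => c1039 h n6 n17 n10 u5 u1 u2 u3; have u15 : ¬p241 := fun h => c3079 h n17 n2 n10 u7 n11 u5 n6; have u16 : ¬p124 := fun h => c688 h u12; have u17 : ¬p326 := fun h => c418 h n0 u13; have u18 : ¬p242 := fun h => c318 h n22 u15; have u19 : p127 := Classical.byContradiction fun h => c192 u16 h; have u20 : ¬p243 := fun h => c320 h u18; have u21 : p135 := Classical.byContradiction fun h => c3091 n1 u12 n2 n7 h n8 n5 u17 u14 n9 u19 n10 n11 n15 n13 n12 u11 n20 u20 n21 u8; have u22 : p134 := Classical.byContradiction fun h => c161 h u21; have u23 : ¬p136 := fun h => c125 u22 h; have u24 : p343 := Classical.byContradiction fun h => c1499 h n6 u23 n19 u21; have u25 : ¬p344 := fun h => c1474 h n3 u23 u24 n1 n18; have u26 : ¬p345 := fun h => c449 h u25; have u27 : p342 := Classical.byContradiction fun h => c1592 n6 h u25; have u28 : p338 := Classical.byContradiction fun h => c1481 h u27 u0; have u29 : p265 := Classical.byContradiction fun h => c3092 n1 u26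 n15 n9 h n7 n2 u10 n5 n8 n10 n11 n0 n6 n13 u28 n16 u23 u9; have u30 : p266 := Classical.byContradiction fun h => c1294 u29 n1 h u6; have u31 : ¬p284 := fun h => c550 h u30; have u32 : p282 := Classical.byContradiction fun h => c375 u31 u11 h; have u33 : p274 := Classical.byContradiction fun h => c3097 n14 n7 n4 n5 n12 n9 u11 u29 n13 u30 h u9 n15; have u34 : ¬p335 := fun h => c2905 u33 h u19 n10 u5 n11; have u35 : p333 := Classical.byContradiction fun h => c429 u34 u14 h; have u36 : ¬p339 := fun h => c3096 u34 n6 n2 n5 h u25 n0 u12 n1 n7 u13 n8 u14 n9; have u37 : p329 := Classical.byContradiction fun h => c2906 h u12 u35 n5; have u38 : ¬p144 := fun h => c713 u36 h; have u39 : ¬p143 := fun h => c1887 u32 n17 n12 u36 h u37; have u40 : p142 := Classical.byContradiction fun h => c195 h u38; c129 u40 u39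
  have c3099 : ¬p294 → ¬p221 → ¬p292 → ¬p80 → p246 → ¬p227 → p265 → ¬p261 → p277 → ¬p274 → ¬p264 → ¬p16 → p1 → p263 → False := fun n0 n1 n2 n3 n4 n5 n6 n7 n8 n9 n10 n11 n12 n13 =>
    have u0 : p266 := Classical.byContradiction fun h => c1294 n6 n12 h n13; c3097 n0 n1 n2 n4 n3 n5 n8 n6 n7 u0 n9 n10 n11
  have c3100 : p25 → ¬p292 → p72 → ¬p221 → ¬p227 → ¬p289 → p1 → ¬p16 → p426 → ¬p268 → ¬p48 → p324 → ¬p194 → p425 → ¬p264 → ¬p73 → ¬p240 → ¬p225 → False := fun n0 n1 n2 n3 n4 n5 n6 n7 n8 n9 n10 n11 n12 n13 n14 n15 n16 n17 =>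
    have u0 : p66 := Classical.byContradiction fun h => c263 h; have u1 : p429 := Classical.byContradiction fun h => c1012 h; have u2 : p245 := Classical.byContradiction fun h => c1814 h; have u3 : p131 := Classical.byContradiction fun h => c264 h; have u4 : ¬p133 := fun h => c1436 h; have u5 : ¬p192 := fun h => c256 h; have u6 : p12 := Classical.byContradiction fun h => c12 h; have u7 : p3 := Classical.byContradiction fun h => c1 h; have u8 : ¬p248 := fun h => c325 h; have u9 : ¬p430 := fun h => c566 n6 h; have u10 : p263 := Classical.byContradiction fun h => c1836 h n0 u6 u7; have u11 : p17 := Classical.byContradiction fun h => c15 n6 n7 h; have u12 : ¬p262 := fun h => c347 h u8 n4; have u13 : ¬p218 := fun h => c297 n4 h n17; have u14 : ¬p232 := fun h => c3073 n6 u13 n2 n4 h n12 n3 n13 n0 n10 n8 n7 n11 n5; have u15 : p31 := Classical.byContradiction fun h => c2323 u11 h u14; have u16 : ¬p29 := fun h => c108 h u15; have u17 : ¬p32 := fun h => c252 u16 h; have u18 : ¬p33 := fun h => c24 u17 h; have u19 : p34 := Classical.byContradiction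 fun h => c25 n6 u17 h; have u20 : ¬p294 := fun h => c1397 h u18 u5; have u21 : p286 := Classical.byContradiction fun h => c865 h u19 u6 u7; have u22 : p277 := Classical.byContradiction fun h => c1277 h u19 u5 u6 u7; have u23 : p307 := Classical.byContradiction fun h => c2451 h u21 u4; have u24 : p74 := Classical.byContradiction fun h => c3080 h n11 n2 u23 n16 n4 n3 n13 n7 n6 n5 n0 n8 n10 n12 u19 n9 u14; have u25 : ¬p76 := fun h => c58 u24 h; have u26 : ¬p80 := fun h => c61 u24 h; have u27 : p82 := Classical.byContradiction fun h => c1519 h u24 u3; have u28 : p87 := Classical.byContradiction fun h => c66 u27 h; have u29 : p246 := Classical.byContradiction fun h => c3083 n6 u25 u13 n5 n15 h n3 u14 n16 n13 u11 n0 n2 n10 n4 u20 u28; have u30 : ¬p247 := fun h => c323 h u2 u29; have u31 : ¬p261 := fun h => c346 h u30 n3; have u32 : p126 := Classical.byContradiction fun h => c3098 n11 n6 n2 n5 n1 u29 n10 n3 n12 n4 n13 n0 u26 u31 u20 n7 n8 h u23 u19 u14 n15 n16; have u33 : p121 := Classical.byContradiction fun h => c193 h u32; have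 u34 : ¬p123 := fun h => c101 u33 h; have u35 : ¬p274 := fun h => c1017 h u9 n8 u34 u1; have u36 : ¬p273 := fun h => c1376 h u35 n7 u0; have u37 : ¬p275 := fun h => c365 h u36 u35; have u38 : ¬p276 := fun h => c367 h u37; have u39 : ¬p265 := fun h => c3099 u20 n3 n1 u26 u29 n4 h u31 u22 u35 n14 n7 n6 u10; have u40 : ¬p266 := fun h => c350 h n14 u39; have u41 : ¬p267 := fun h => c356 h u40; have u42 : p135 := Classical.byContradiction fun h => c2121 h u31 u40 n4 u38 n0 n9; have u43 : p271 := Classical.byContradiction fun h => c368 n4 u31 u12 u41 h u38; have u44 : p134 := Classical.byContradiction fun h => c161 h u42; have u45 : p270 := Classical.byContradiction fun h => c363 u43 h; have u46 : ¬p136 := fun h => c125 u44 h; have u47 : p269 := Classical.byContradiction fun h => c359 u45 n9 h; c3077 u47 u46 u39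
  have c3102 : p115 → ¬p225 → ¬p420 → p219 → ¬p235 → p17 → ¬p73 → False := fun n0 n1 n2 n3 n4 n5 n6 =>
    c3101 n0 n1 n2 n3 n4 n5 n6
  have c3104 : p115 → p34 → ¬p420 → ¬p136 → ¬p117 → False := fun n0 n1 n2 n3 n4 =>
    c3103 n0 n1 n2 n3 n4
  have c3106 : ¬p325 → ¬p124 → ¬p96 → p122 → ¬p420 → p17 → False := fun n0 n1 n2 n3 n4 n5 =>
    have u0 : ¬p190 := fun h => c254 h; c3105 n0 n1 n2 n3 n4 n5 u0
  have c3108 : ¬p331 → ¬p163 → p249 → ¬p81 → p300 → p115 → ¬p125 → p329 → p121 → ¬p73 → False := fun n0 n1 n2 n3 n4 n5 n6 n7 n8 n9 =>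
    have u0 : ¬p133 := fun h => c1436 h; c3107 n0 n1 n2 n3 n4 n5 n6 n7 n8 n9 u0
  have c3110 : p324 → ¬p225 → ¬p247 → p219 → ¬p194 → p1 → ¬p289 → ¬p332 → ¬p96 → ¬p420 → p333 → p329 → p121 → p15 → ¬p16 → p71 → p256 → p227 → p263 → False := fun n0 n1 n2 n3 n4 n5 n6 n7 n8 n9 n10 n11 n12 n13 n14 n15 n16 n17 n18 =>
    have u0 : p137 := Classical.byContradiction fun h => c889 h; have u1 : ¬p138 := fun h => c902 h; have u2 : ¬p190 := fun h => c254 h; have u3 : p66 := Classical.byContradiction fun h => c263 h; have u4 : p12 := Classical.byContradiction fun h => c12 h; have u5 : p3 := Classical.byContradiction fun h => c1 h; have u6 : ¬p73 := fun h => c56 n15 h; have u7 : p17 := Classical.byContradiction fun h => c15 n5 n14 h; have u8 : p230 := Classical.byContradiction fun h => c1845 h u7 u4 u5; have u9 : ¬p251 := fun h => c558 h n17; have u10 : p122 := Classical.byContradiction fun h => c100 n12 h; have u11 : p244 := Classical.byContradiction fun h => c1903 h n2; have u12 : p259 := Classical.byContradiction fun h => c2541 n17 n2 h;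 have u13 : ¬p116 := fun h => c2326 n17 h u6 n2 n16 n18 u7 n5; have u14 : p258 := Classical.byContradiction fun h => c343 u12 h; have u15 : p114 := Classical.byContradiction fun h => c157 h u13; have u16 : ¬p228 := fun h => c561 n5 u14 h; have u17 : ¬p257 := fun h => c341 u14 n16 h; have u18 : p249 := Classical.byContradiction fun h => c978 h u14 u9; have u19 : p115 := Classical.byContradiction fun h => c94 u15 h; have u20 : p82 := Classical.byContradiction fun h => c881 h u15 u3; have u21 : p85 := Classical.byContradiction fun h => c872 u15 h n15; have u22 : ¬p200 := fun h => c766 u17 h; have u23 : ¬p36 := fun h => c808 n14 u20 h; have u24 : ¬p88 := fun h => c67 u21 h; have u25 : p250 := Classical.byContradiction fun h => c331 u9 u11 u22 h; have u26 : ¬p39 := fun h => c253 u23 h; have u27 : p183 := Classical.byContradiction fun h => c1843 h n11 u24; have u28 : ¬p76 := fun h => c2325 h u25 u6 u2; have u29 : ¬p40 := fun h => c28 u26 h; have u30 : ¬p265 := fun h => c2128 h n13 n9 u28; have u31 : ¬p30 := fun h => c2880 u29 h n6;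 have u32 : ¬p29 := fun h => c2130 n13 u31 h u28; have u33 : ¬p32 := fun h => c252 u32 h; have u34 : p34 := Classical.byContradiction fun h => c25 n5 u33 h; have u35 : p235 := Classical.byContradiction fun h => c3102 u19 n1 n9 n3 h u7 u6; have u36 : p237 := Classical.byContradiction fun h => c1201 n5 u8 u35 h; have u37 : ¬p301 := fun h => c535 h u36; have u38 : p300 := Classical.byContradiction fun h => c1238 h u37; have u39 : p279 := Classical.byContradiction fun h => c1816 h u38 u1; have u40 : p120 := Classical.byContradiction fun h => c2343 h u38 u6; have u41 : p127 := Classical.byContradiction fun h => c1848 h u27 u6 u38; have u42 : ¬p117 := fun h => c99 h u40; have u43 : ¬p124 := fun h => c104 h u41; have u44 : p334 := Classical.byContradiction fun h => c695 h u41; have u45 : ¬p125 := fun h => c188 u43 h; have u46 : p339 := Classical.byContradiction fun h => c1850 u10 u43 u30 h; have u47 : ¬p335 := fun h => c428 h n10 u44; have u48 : p136 := Classical.byContradiction fun h => c3104 u19 u34 n9 h u42; have u49 : ¬p134 := fun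 h => c125 h u48; have u50 : ¬p135 := fun h => c161 u49 h; have u51 : ¬p163 := fun h => c163 u49 h; have u52 : p231 := Classical.byContradiction fun h => c1726 u50 u35 h; have u53 : p78 := Classical.byContradiction fun h => c638 u52 h; have u54 : p77 := Classical.byContradiction fun h => c110 h u53; have u55 : ¬p81 := fun h => c62 u54 h; have u56 : p325 := Classical.byContradiction fun h => c3106 h u43 n8 u10 n9 u7; have u57 : ¬p326 := fun h => c418 h n0 u56; have u58 : p331 := Classical.byContradiction fun h => c3108 h u51 u18 u55 u38 u19 u45 n11 n12 u6; have u59 : ¬p336 := fun h => c432 h u47 u43 n12 u58 u16; have u60 : ¬p342 := fun h => c2974 n7 u57 u50 u46 h u59 n4 n5; have u61 : ¬p140 := fun h => c1473 u60 h n6; have u62 : ¬p139 := fun h => c128 h u61; c3109 u62 n12 u24 u39 u42 u0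
  have c3111 : p1 → ¬p292 → p72 → ¬p221 → ¬p289 → p426 → p425 → ¬p240 → False := fun n0 n1 n2 n3 n4 n5 n6 n7 =>
    have u0 : p201 := Classical.byContradiction fun h => c1826 h; have u1 : p245 := Classical.byContradiction fun h => c1814 h; have u2 : p12 := Classical.byContradiction fun h => c12 h; have u3 : p3 := Classical.byContradiction fun h => c1 h; have u4 : ¬p430 := fun h => c566 n0 h; have u5 : p71 := Classical.byContradiction fun h => c87 h n2; have u6 : ¬p73 := fun h => c56 u5 h; have u7 : p220 := Classical.byContradiction fun h => c2221 n3 h; have u8 : p26 := Classical.byContradiction fun h => c1932 u7 h u6; have u9 : ¬p21 := fun h => c84 h u8; have u10 : ¬p24 := fun h => c251 u9 h; have u11 : ¬p27 := fun h => c21 u10 h; have u12 : p25 := Classical.byContradiction fun h => c20 n0 u10 h; have u13 : ¬p13 := fun h => c2048 u11 u7 h; have u14 : p47 := Classical.byContradiction fun h => c1058 u4 u11 h n6; have u15 : p263 := Classical.byContradiction fun h => c1836 h u12 u2 u3; have u16 : p15 := Classical.byContradiction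 fun h => c14 u13 h; have u17 : ¬p16 := fun h => c250 u13 h; have u18 : p46 := Classical.byContradiction fun h => c178 h u14; have u19 : p324 := Classical.byContradiction fun h => c2220 h u14; have u20 : ¬p20 := fun h => c17 u17 h; have u21 : p17 := Classical.byContradiction fun h => c15 n0 u17 h; have u22 : ¬p194 := fun h => c258 h u18; have u23 : ¬p48 := fun h => c33 n0 u18 h; have u24 : p256 := Classical.byContradiction fun h => c2136 h u20 n2 u2; have u25 : ¬p225 := fun h => c814 u20 h n2; have u26 : p230 := Classical.byContradiction fun h => c1845 h u21 u2 u3; have u27 : ¬p264 := fun h => c2359 h n0 u6 u26; have u28 : ¬p268 := fun h => c2377 h n0 u6 u26; have u29 : p227 := Classical.byContradiction fun h => c3100 u12 n1 n2 n3 h n4 n0 u17 n5 u28 u23 u19 u22 n6 u27 u6 n7 u25; have u30 : p218 := Classical.byContradiction fun h => c295 u29 h; have u31 : ¬p421 := fun h => c549 n0 u29 h; have u32 : p219 := Classical.byContradiction fun h => c290 n3 u30 h; have u33 : ¬p420 := fun h => c548 u31 u15 h; have u34 : ¬p123 := fun h =>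 c1188 u23 h u33; have u35 : p121 := Classical.byContradiction fun h => c190 h u34; have u36 : p122 := Classical.byContradiction fun h => c100 u35 h; have u37 : p126 := Classical.byContradiction fun h => c103 u35 h; have u38 : p417 := Classical.byContradiction fun h => c2892 u36 u21 u33 h u6 n2; have u39 : p333 := Classical.byContradiction fun h => c694 u37 h; have u40 : p93 := Classical.byContradiction fun h => c655 h u38; have u41 : p419 := Classical.byContradiction fun h => c1900 h u21 u38; have u42 : p94 := Classical.byContradiction fun h => c2215 u39 h n2; have u43 : p92 := Classical.byContradiction fun h => c182 h u40; have u44 : ¬p330 := fun h => c540 h u41; have u45 : p89 := Classical.byContradiction fun h => c187 h u42; have u46 : ¬p96 := fun h => c73 u43 h; have u47 : p329 := Classical.byContradiction fun h => c1006 h u44 u0; have u48 : ¬p332 := fun h => c425 h u44 n3; have u49 : ¬p91 := fun h => c69 u45 h; have u50 : p247 := Classical.byContradiction fun h => c3110 u19 u25 h u32 u22 n0 n4 u48 u46 u33 u39 u47 u35 u16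 u17 u5 u24 u29 u15; have u51 : ¬p246 := fun h => c323 u50 u1 h; have u52 : ¬p205 := fun h => c503 u50 h; have u53 : p203 := Classical.byContradiction fun h => c2259 u51 u38 u49 h u21; c268 u52 u0 u53
  have c3112 : ¬p205 → ¬p16 → p221 → p71 → p1 → False := fun n0 n1 n2 n3 n4 =>
    have u0 : p12 := Classical.byContradiction fun h => c12 h; have u1 : p3 := Classical.byContradiction fun h => c1 h; have u2 : p66 := Classical.byContradiction fun h => c263 h; have u3 : ¬p20 := fun h => c17 n1 h; have u4 : ¬p13 := fun h => c594 n1 h; have u5 : ¬p21 := fun h => c1383 n1 h u2; have u6 : p17 := Classical.byContradiction fun h => c15 n4 n1 h; have u7 : p213 := Classical.byContradiction fun h => c1615 u3 h u0; have u8 : p197 := Classical.byContradiction fun h => c1617 u3 h u0; have u9 : p19 := Classical.byContradiction fun h => c16 u4 h; have u10 : ¬p24 := fun h => c251 u5 h; have u11 : p230 := Classical.byContradiction fun h => c1845 h u6 u0 u1; have u12 : ¬p86 := fun h => c1672 u7 h n2 n0 u11 n4; have u13 : p220 := Classical.byContradiction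 fun h => c601 u9 h; have u14 : p25 := Classical.byContradiction fun h => c20 n4 u10 h; have u15 : ¬p85 := fun h => c65 h u12; have u16 : p263 := Classical.byContradiction fun h => c1836 h u14 u0 u1; have u17 : ¬p114 := fun h => c872 h u15 n3; have u18 : ¬p116 := fun h => c2324 n0 u8 n2 h u16 u11 n4 u6 u13; c157 u17 u18
  have c3113 : p1 → ¬p205 → p72 → ¬p251 → ¬p414 → ¬p289 → p221 → False := fun n0 n1 n2 n3 n4 n5 n6 =>
    have u0 : p201 := Classical.byContradiction fun h => c1826 h; have u1 : p71 := Classical.byContradiction fun h => c87 h n2; have u2 : ¬p73 := fun h => c56 u1 h; have u3 : ¬p208 := fun h => c543 h n6; have u4 : ¬p203 := fun h => c268 n1 u0 h; have u5 : p16 := Classical.byContradiction fun h => c3112 n1 h n6 u1 n0; have u6 : p13 := Classical.byContradiction fun h => c250 h u5; have u7 : p217 := Classical.byContradiction fun h => c3064 n4 h n2 u6 n3 n0 n5 u3; c2251 n0 u7 n2 u4 u6 u2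
  have c3114 : ¬p414 → p13 → p72 → ¬p251 → p205 → p1 → ¬p289 → ¬p208 → False := fun n0 n1 n2 n3 n4 n5 n6 n7 =>
    have u0 : ¬p19 := fun h => c50 n1 h; have u1 : p217 := Classical.byContradiction fun h => c3064 n0 h n2 n1 n3 n5 n6 n7; have u2 : ¬p213 := fun h => c2858 h u0 n4; c2404 n0 u1 u2
  have c3118 : p17 → p198 → False := fun n0 n1 =>
    have u0 : ¬p190 := fun h => c254 h; c3117 n0 n1 u0
  have c3120 : p227 → ¬p289 → ¬p73 → p221 → p72 → p1 → ¬p414 → False := fun n0 n1 n2 n3 n4 n5 n6 =>
    have u0 : ¬p190 := fun h => c254 h; have u1 : p201 := Classical.byContradiction fun h => c1826 h; have u2 : p12 := Classical.byContradiction fun h => c12 h; have u3 : p3 := Classical.byContradiction fun h => c1 h; have u4 : p66 := Classical.byContradiction fun h => c263 h; have u5 : ¬p204 := fun h => c938 h; have u6 : ¬p208 := fun h => c543 h n3; have u7 : ¬p251 := fun h => c558 h n0; have u8 : ¬p421 := fun h => c549 n5 n0 h; have u9 : p205 := Classical.byContradiction fun h => c3113 n5 h n4 u7 n6 n1 n3; have u10 : p203 := Classical.byContradiction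 fun h => c267 u9 h u5; have u11 : ¬p247 := fun h => c503 h u9; have u12 : p244 := Classical.byContradiction fun h => c1903 h u11; have u13 : p259 := Classical.byContradiction fun h => c2541 n0 u11 h; have u14 : p258 := Classical.byContradiction fun h => c343 u13 h; have u15 : ¬p13 := fun h => c3114 n6 h n4 u7 u9 n5 n1 u6; have u16 : ¬p16 := fun h => c250 u15 h; have u17 : ¬p20 := fun h => c17 u16 h; have u18 : ¬p21 := fun h => c1383 u16 h u4; have u19 : p17 := Classical.byContradiction fun h => c15 n5 u16 h; have u20 : p256 := Classical.byContradiction fun h => c2136 h u17 n4 u2; have u21 : ¬p24 := fun h => c251 u18 h; have u22 : ¬p257 := fun h => c341 u14 u20 h; have u23 : p25 := Classical.byContradiction fun h => c20 n5 u21 h; have u24 : ¬p200 := fun h => c766 u22 h; have u25 : p263 := Classical.byContradiction fun h => c1836 h u23 u2 u3; have u26 : p250 := Classical.byContradiction fun h => c331 u7 u12 u24 h; have u27 : ¬p420 := fun h => c548 u8 u25 h; have u28 : ¬p116 := fun h => c2326 n0 h n2 u11 u20 u25 u19 n5; have u29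 : ¬p76 := fun h => c2325 h u26 n2 u0; have u30 : p114 := Classical.byContradiction fun h => c157 h u28; have u31 : ¬p232 := fun h => c640 h u29; have u32 : p115 := Classical.byContradiction fun h => c94 u30 h; have u33 : p31 := Classical.byContradiction fun h => c2323 u19 h u31; have u34 : ¬p29 := fun h => c108 h u33; have u35 : ¬p32 := fun h => c252 u34 h; have u36 : p34 := Classical.byContradiction fun h => c25 n5 u35 h; have u37 : ¬p198 := fun h => c3118 u19 h; have u38 : p206 := Classical.byContradiction fun h => c272 u6 u1 u37 h; have u39 : ¬p231 := fun h => c2150 h u38 u0; have u40 : p135 := Classical.byContradiction fun h => c3115 u32 u19 h u39 u27 u10 n2; have u41 : p134 := Classical.byContradiction fun h => c161 h u40; have u42 : ¬p136 := fun h => c125 u41 h; have u43 : p117 := Classical.byContradiction fun h => c3103 u32 u36 u27 u42 h; have u44 : p118 := Classical.byContradiction fun h => c96 u43 h; c3119 u44 u19 u27 n1 u10 n2 u39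
  have c3122 : ¬p414 → p221 → ¬p1 → False := fun n0 n1 n2 =>
    have u0 : ¬p216 := fun h => c285 h n2; have u1 : ¬p259 := fun h => c342 h n2; have u2 : p217 := Classical.byContradiction fun h => c3059 n0 h n2 n1; have u3 : p205 := Classical.byContradiction fun h => c886 h n1 u0; have u4 : p213 := Classical.byContradiction fun h => c2404 n0 u2 h; have u5 : ¬p247 := fun h => c503 h u3; have u6 : p19 := Classical.byContradiction fun h => c2858 u4 h u3; have u7 : ¬p227 := fun h => c2541 h u5 u1; have u8 : p220 := Classical.byContradiction fun h => c601 u6 h; c1479 u8 u7 n1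
  have c3123 : p25 → ¬p265 → ¬p270 → ¬p261 → ¬p276 → ¬p227 → False := fun n0 n1 n2 n3 n4 n5 =>
    have u0 : p132 := Classical.byContradiction fun h => c1291 h; have u1 : ¬p248 := fun h => c325 h; have u2 : p12 := Classical.byContradiction fun h => c12 h; have u3 : p3 := Classical.byContradiction fun h => c1 h; have u4 : ¬p262 := fun h => c347 h u1 n5; have u5 : p263 := Classical.byContradiction fun h => c1836 h n0 u2 u3; have u6 : ¬p271 := fun h => c363 h n2; have u7 : ¬p268 := fun h => c361 n2 u5 n0 h; have u8 : p267 := Classical.byContradiction fun h => c368 n5 n3 u4 h u6 n4; have u9 : ¬p264 := fun h => c2547 h u7 u0; have u10 : p266 := Classical.byContradiction fun h => c356 u8 h; c350 u10 u9 n1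
  have c3124 : p25 → ¬p265 → p205 → ¬p73 → ¬p276 → ¬p227 → ¬p261 → False := fun n0 n1 n2 n3 n4 n5 n6 =>
    have u0 : p131 := Classical.byContradiction fun h => c264 h; have u1 : p270 := Classical.byContradiction fun h => c3123 n0 n1 h n6 n4 n5; have u2 : p269 := Classical.byContradiction fun h => c2344 u1 h n2 n3; have u3 : p135 := Classical.byContradiction fun h => c1876 h u2 n1 u0; have u4 : p136 := Classical.byContradiction fun h => c3077 u2 h n1; have u5 : p134 := Classical.byContradiction fun h => c161 h u3; c125 u5 u4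
  have c3125 : ¬p221 → ¬p292 → p205 → ¬p227 → ¬p297 → ¬p73 → p0 → ¬p276 → ¬p22 → False := fun n0 n1 n2 n3 n4 n5 n6 n7 n8 =>
    have u0 : ¬p247 := fun h => c503 h n2; have u1 : p246 := Classical.byContradiction fun h => c1908 h u0; have u2 : ¬p261 := fun h => c346 h u0 n0; have u3 : p25 := Classical.byContradiction fun h => c2120 n8 u2 h n3 n7; have u4 : p265 := Classical.byContradiction fun h => c3124 u3 h n2 n5 n7 n3 u2; have u5 : p110 := Classical.byContradiction fun h => c674 h u4; have u6 : p266 := Classical.byContradiction fun h => c2267 u4 u3 h; have u7 : ¬p108 := fun h => c90 h u5; have u8 : ¬p284 := fun h => c550 h u6; have u9 : ¬p111 := fun h => c671 h u7; have u10 : ¬p279 := fun h => c1794 u8 n0 n4 n1 n3 n6 h; have u11 : p113 := Classical.byContradiction fun h => c120 u9 h; c2555 u10 u11 u1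
  have c3126 : ¬p229 → ¬p279 → ¬p243 → ¬p221 → ¬p14 → False := fun n0 n1 n2 n3 n4 =>
    have u0 : ¬p138 := fun h => c902 h; have u1 : ¬p202 := fun h => c265 h; have u2 : ¬p224 := fun h => c293 h u1 n3; have u3 : p230 := Classical.byContradiction fun h => c1525 h n0 n3; have u4 : ¬p81 := fun h => c645 n1 h; have u5 : ¬p300 := fun h => c1816 n1 h u0; have u6 : p77 := Classical.byContradiction fun h => c114 h u4; have u7 : p301 := Classical.byContradiction fun h => c1238 u5 h; have u8 : p74 := Classical.byContradiction fun h => c637 h u6; have u9 : ¬p237 := fun h => c535 u7 h; have u10 : ¬p76 := fun h => c58 u8 h; have u11 : ¬p238 := fun h => c316 h u9; have u12 : ¬p232 := fun h => c640 h u10; have u13 : p234 := Classical.byContradiction fun h => c321 n3 u2 n0 h u11 n2; have u14 : p235 := Classical.byContradiction fun h => c2293 n0 n3 n2 h u2 u12; have u15 : p233 := Classical.byContradiction fun h => c307 u13 h; have u16 : ¬p17 := fun h => c313 u9 u3 h u14; c303 u15 n4 u16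
  have c3127 : ¬p229 → ¬p221 → p72 → ¬p318 → ¬p227 → ¬p203 → ¬p289 → ¬p232 → p284 → p279 → ¬p243 → False := fun n0 n1 n2 n3 n4 n5 n6 n7 n8 n9 n10 =>
    have u0 : p131 := Classical.byContradiction fun h => c264 h; have u1 : ¬p202 := fun h => c265 h; have u2 : ¬p224 := fun h => c293 h u1 n1; have u3 : p235 := Classical.byContradiction fun h => c2293 n0 n1 n10 h u2 n7; have u4 : p74 := Classical.byContradiction fun h => c1503 h u3 n7 n6; have u5 : p82 := Classical.byContradiction fun h => c1519 h u4 u0; have u6 : ¬p303 := fun h => c2887 n1 u4 n2 n4 n5 n8 n3 n10 h n0 u2 n7 u3 n9; have u7 : p87 := Classical.byContradiction fun h => c66 u5 h; c794 u6 n5 u7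
  have c3128 : ¬p221 → ¬p292 → p72 → ¬p227 → ¬p289 → ¬p243 → ¬p318 → ¬p297 → p0 → ¬p276 → False := fun n0 n1 n2 n3 n4 n5 n6 n7 n8 n9 =>
    have u0 : ¬p68 := fun h => c799 h; have u1 : p7 := Classical.byContradiction fun h => c5 h; have u2 : ¬p4 := fun h => c2 h; have u3 : p201 := Classical.byContradiction fun h => c1826 h; have u4 : p220 := Classical.byContradiction fun h => c2221 n0 h; have u5 : p71 := Classical.byContradiction fun h => c87 h n2; have u6 : ¬p73 := fun h => c56 u5 h; have u7 : p26 := Classical.byContradiction fun h => c1932 u4 h u6; have u8 : ¬p21 := fun h => c84 h u7; have u9 : ¬p22 := fun h => c18 u8 h; have u10 : ¬p24 := fun h => c251 u8 h; have u11 : ¬p27 := fun h => c21 u10 h; have u12 : ¬p13 := fun h => c2048 u11 u4 h; have u13 : ¬p14 := fun h => c13 u12 h; have u14 : ¬p16 := fun h => c250 u12 h; have u15 : ¬p20 := fun h => c17 u14 h; have u16 : ¬p225 := fun h => c814 u15 h n2; have u17 : ¬p218 := fun h => c297 n3 h u16; have u18 : ¬p205 := fun h => c3125 n0 n1 h n3 n7 u6 n8 n9 u9; have u19 : ¬p203 :=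 fun h => c268 u18 u3 h; have u20 : ¬p229 := fun h => c300 h u18 n3; have u21 : p279 := Classical.byContradiction fun h => c3126 u20 h n5 n0 u13; have u22 : p284 := Classical.byContradiction fun h => c1794 h n0 n7 n1 n3 n8 u21; have u23 : ¬p266 := fun h => c550 u22 h; have u24 : p232 := Classical.byContradiction fun h => c3127 u20 n0 n2 n6 n3 u19 n4 h u22 u21 n5; have u25 : p265 := Classical.byContradiction fun h => c2300 u24 h u0; have u26 : p25 := Classical.byContradiction fun h => c2318 u24 h u17 u0 u1 u2; c2267 u25 u26 u23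
  have c3135 : p227 → ¬p136 → ¬p221 → p197 → ¬p1 → ¬p73 → False := fun n0 n1 n2 n3 n4 n5 =>
    have u0 : ¬p192 := fun h => c256 h; have u1 : ¬p190 := fun h => c254 h; have u2 : ¬p202 := fun h => c265 h; have u3 : p201 := Classical.byContradiction fun h => c1826 h; have u4 : p245 := Classical.byContradiction fun h => c1814 h; have u5 : ¬p251 := fun h => c558 h n0; have u6 : ¬p224 := fun h => c293 h u2 n2; have u7 : ¬p216 := fun h => c285 h n4; have u8 : ¬p243 := fun h => c319 h n4; have u9 : ¬p259 := fun h => c342 h n4; have u10 : p247 := Classical.byContradiction fun h => c2541 n0 h u9; have u11 : p244 := Classical.byContradiction fun h => c322 u10 h; have u12 : ¬p246 := fun h => c323 u10 u4 h; have u13 : ¬p205 := fun h => c503 u10 h; have u14 : ¬p208 := fun h => c559 u10 h n0; have u15 : ¬p203 := fun h => c268 u13 u3 h; have u16 : p207 := Classical.byContradiction fun h => c2299 h n3 u14 u13; have u17 : ¬p209 := fun h => c275 h u14; have u18 : p206 := Classical.byContradiction fun h => c1317 h u13 u14 u7; have u19 : ¬p232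 := fun h => c2264 h u16 u1; have u20 : p212 := Classical.byContradiction fun h => c287 u2 u13 u17 h u7; have u21 : ¬p231 := fun h => c2150 h u18 u1; have u22 : ¬p233 := fun h => c304 h u21 u19; have u23 : p211 := Classical.byContradiction fun h => c282 u20 h; have u24 : ¬p234 := fun h => c307 h u22; have u25 : ¬p198 := fun h => c277 u23 n3 h; have u26 : ¬p200 := fun h => c2140 h u25 u12; have u27 : p250 := Classical.byContradiction fun h => c331 u5 u11 u26 h; have u28 : ¬p76 := fun h => c2325 h u27 n5 u1; have u29 : ¬p81 := fun h => c3133 u12 u27 h u0; have u30 : p77 := Classical.byContradiction fun h => c114 h u29; have u31 : p78 := Classical.byContradiction fun h => c59 u30 h; have u32 : p217 := Classical.byContradiction fun h => c3131 u31 h u18; have u33 : p235 := Classical.byContradiction fun h => c2857 u13 u32 u7 u19 h u8; have u34 : ¬p229 := fun h => c299 h u13 u32; have u35 : p238 := Classical.byContradiction fun h => c321 n2 u6 u34 u24 h u8; have u36 : p237 := Classical.byContradiction fun h => c316 u35 h; have u37 :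 ¬p301 := fun h => c535 h u36; have u38 : p300 := Classical.byContradiction fun h => c1238 h u37; have u39 : p120 := Classical.byContradiction fun h => c2343 h u38 n5; have u40 : p162 := Classical.byContradiction fun h => c2889 u15 u38 u33 h n1 u28; have u41 : ¬p117 := fun h => c99 h u39; c158 u41 u40
  have c3136 : p1 → ¬p420 → ¬p73 → ¬p225 → ¬p136 → p219 → ¬p203 → p17 → p256 → p227 → p263 → p417 → ¬p91 → False := fun n0 n1 n2 n3 n4 n5 n6 n7 n8 n9 n10 n11 n12 =>
    have u0 : ¬p190 := fun h => c254 h; have u1 : p245 := Classical.byContradiction fun h => c1814 h; have u2 : p12 := Classical.byContradiction fun h => c12 h; have u3 : p3 := Classical.byContradiction fun h => c1 h; have u4 : ¬p251 := fun h => c558 h n9; have u5 : p230 := Classical.byContradiction fun h => c1845 h n7 u2 u3; have u6 : p246 := Classical.byContradiction fun h => c2259 h n11 n12 n6 n7; have u7 : ¬p247 := fun h => c323 h u1 u6; have u8 : p244 := Classical.byContradiction fun h => c1903 h u7; have u9 : p259 := Classical.byContradiction fun h => c2541 n9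 u7 h; have u10 : ¬p116 := fun h => c2326 n9 h n2 u7 n8 n10 n7 n0; have u11 : p258 := Classical.byContradiction fun h => c343 u9 h; have u12 : p114 := Classical.byContradiction fun h => c157 h u10; have u13 : ¬p257 := fun h => c341 u11 n8 h; have u14 : p115 := Classical.byContradiction fun h => c94 u12 h; have u15 : ¬p200 := fun h => c766 u13 h; have u16 : p235 := Classical.byContradiction fun h => c3101 u14 n3 n1 n5 h n7 n2; have u17 : p250 := Classical.byContradiction fun h => c331 u4 u8 u15 h; have u18 : p237 := Classical.byContradiction fun h => c1201 n0 u5 u16 h; have u19 : ¬p76 := fun h => c2325 h u17 n2 u0; have u20 : ¬p301 := fun h => c535 h u18; have u21 : p117 := Classical.byContradiction fun h => c2375 n6 h u16 u6 n4 u19; have u22 : p300 := Classical.byContradiction fun h => c1238 h u20; have u23 : ¬p120 := fun h => c99 u21 h; c2343 u23 u22 n2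
  have c3137 : p227 → ¬p136 → ¬p221 → False := fun n0 n1 n2 =>
    have u0 : ¬p190 := fun h => c254 h; have u1 : p201 := Classical.byContradiction fun h => c1826 h; have u2 : p12 := Classical.byContradiction fun h => c12 h; have u3 : p3 := Classical.byContradiction fun h => c1 h; have u4 : p218 := Classical.byContradiction fun h => c295 n0 h; have u5 : ¬p251 := fun h => c558 h n0; have u6 : p220 := Classical.byContradiction fun h => c2221 n2 h; have u7 : p219 := Classical.byContradiction fun h => c290 n2 u4 h; have u8 : p226 := Classical.byContradiction fun h => c2041 h u6; have u9 : ¬p225 := fun h => c296 n0 h u8; have u10 : p72 := Classical.byContradiction fun h => c1088 h n0 n2 u8; have u11 : ¬p27 := fun h => c609 u9 h; have u12 : p71 := Classical.byContradiction fun h => c87 h u10; have u13 : ¬p24 := fun h => c83 h u11; have u14 : ¬p13 := fun h => c2048 u11 u6 h; have u15 : ¬p73 := fun h => c56 u12 h; have u16 : ¬p16 := fun h => c250 u14 h; have u17 : ¬p20 := fun h => c17 u16 h; have u18 : p197 := Classical.byContradiction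 fun h => c1617 u17 h u2; have u19 : p256 := Classical.byContradiction fun h => c2136 h u17 u10 u2; have u20 : p1 := Classical.byContradiction fun h => c3135 n0 n1 n2 u18 h u15; have u21 : ¬p430 := fun h => c566 u20 h; have u22 : ¬p424 := fun h => c1036 u20 h; have u23 : p25 := Classical.byContradiction fun h => c20 u20 u13 h; have u24 : p17 := Classical.byContradiction fun h => c15 u20 u16 h; have u25 : ¬p421 := fun h => c549 u20 n0 h; have u26 : p425 := Classical.byContradiction fun h => c562 u22 h; have u27 : p263 := Classical.byContradiction fun h => c1836 h u23 u2 u3; have u28 : p230 := Classical.byContradiction fun h => c1845 h u24 u2 u3; have u29 : ¬p420 := fun h => c548 u25 u27 h; have u30 : p47 := Classical.byContradiction fun h => c1058 u21 u11 h u26; have u31 : p46 := Classical.byContradiction fun h => c178 h u30; have u32 : ¬p48 := fun h => c33 u20 u31 h; have u33 : ¬p123 := fun h => c1188 u32 h u29; have u34 : p121 := Classical.byContradiction fun h => c190 h u33; have u35 : p122 := Classical.byContradiction fun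 h => c100 u34 h; have u36 : p126 := Classical.byContradiction fun h => c103 u34 h; have u37 : p417 := Classical.byContradiction fun h => c2892 u35 u24 u29 h u15 u10; have u38 : p333 := Classical.byContradiction fun h => c694 u36 h; have u39 : p94 := Classical.byContradiction fun h => c2215 u38 h u10; have u40 : p89 := Classical.byContradiction fun h => c187 h u39; have u41 : ¬p91 := fun h => c69 u40 h; have u42 : p203 := Classical.byContradiction fun h => c3136 u20 u29 u15 u9 n1 u7 h u24 u19 n0 u27 u37 u41; have u43 : p205 := Classical.byContradiction fun h => c268 h u1 u42; have u44 : ¬p247 := fun h => c503 h u43; have u45 : p244 := Classical.byContradiction fun h => c1903 h u44; have u46 : p259 := Classical.byContradiction fun h => c2541 n0 u44 h; have u47 : ¬p116 := fun h => c2326 n0 h u15 u44 u19 u27 u24 u20; have u48 : p258 := Classical.byContradiction fun h => c343 u46 h; have u49 : p114 := Classical.byContradiction fun h => c157 h u47; have u50 : ¬p257 := fun h => c341 u48 u19 h; have u51 : p115 := Classical.byContradiction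 fun h => c94 u49 h; have u52 : ¬p200 := fun h => c766 u50 h; have u53 : p235 := Classical.byContradiction fun h => c3101 u51 u9 u29 u7 h u24 u15; have u54 : p250 := Classical.byContradiction fun h => c331 u5 u45 u52 h; have u55 : p237 := Classical.byContradiction fun h => c1201 u20 u28 u53 h; have u56 : ¬p76 := fun h => c2325 h u54 u15 u0; have u57 : ¬p301 := fun h => c535 h u55; have u58 : ¬p232 := fun h => c640 h u56; have u59 : p300 := Classical.byContradiction fun h => c1238 h u57; have u60 : p31 := Classical.byContradiction fun h => c2323 u24 h u58; have u61 : p120 := Classical.byContradiction fun h => c2343 h u59 u15; have u62 : ¬p29 := fun h => c108 h u60; have u63 : ¬p117 := fun h => c99 h u61; have u64 : ¬p32 := fun h => c252 u62 h; have u65 : ¬p34 := fun h => c3103 u51 h u29 n1 u63; c25 u20 u64 u65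
  have c3139 : p1 → ¬p208 → ¬p136 → ¬p73 → p25 → ¬p247 → p227 → p289 → p258 → p72 → False := fun n0 n1 n2 n3 n4 n5 n6 n7 n8 n9 =>
    have u0 : ¬p190 := fun h => c254 h; have u1 : p201 := Classical.byContradiction fun h => c1826 h; have u2 : p12 := Classical.byContradiction fun h => c12 h; have u3 : p3 := Classical.byContradiction fun h => c1 h; have u4 : ¬p191 := fun h => c255 h; have u5 : ¬p251 := fun h => c558 h n6; have u6 : ¬p421 := fun h => c549 n0 n6 h; have u7 : p244 := Classical.byContradiction fun h => c1903 h n5; have u8 : p246 := Classical.byContradiction fun h => c1908 h n5; have u9 : p23 := Classical.byContradiction fun h => c606 n4 h; have u10 : p263 := Classical.byContradiction fun h => c1836 h n4 u2 u3; have u11 : p19 := Classical.byContradiction fun h => c2036 u9 h u8 u4 u2; have u12 : ¬p420 := fun h => c548 u6 u10 h; have u13 : ¬p13 := fun h => c50 h u11; have u14 : ¬p16 := fun h => c250 u13 h; have u15 : ¬p20 := fun h => c17 u14 h; have u16 : p17 := Classical.byContradiction fun h => c15 n0 u14 h; have u17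 : p256 := Classical.byContradiction fun h => c2136 h u15 n9 u2; have u18 : p230 := Classical.byContradiction fun h => c1845 h u16 u2 u3; have u19 : ¬p198 := fun h => c3117 u16 h u0; have u20 : ¬p257 := fun h => c341 n8 u17 h; have u21 : ¬p116 := fun h => c2326 n6 h n3 n5 u17 u10 u16 n0; have u22 : p207 := Classical.byContradiction fun h => c273 n1 u1 u19 h; have u23 : ¬p200 := fun h => c766 u20 h; have u24 : p114 := Classical.byContradiction fun h => c157 h u21; have u25 : ¬p232 := fun h => c2264 h u22 u0; have u26 : p250 := Classical.byContradiction fun h => c331 u5 u7 u23 h; have u27 : p115 := Classical.byContradiction fun h => c94 u24 h; have u28 : p31 := Classical.byContradiction fun h => c2323 u16 h u25; have u29 : ¬p76 := fun h => c2325 h u26 n3 u0; have u30 : ¬p29 := fun h => c108 h u28; have u31 : p74 := Classical.byContradiction fun h => c112 h u29; have u32 : ¬p32 := fun h => c252 u30 h; have u33 : p75 := Classical.byContradiction fun h => c57 u31 h; have u34 : p34 := Classical.byContradiction fun h => c25 n0 u32 h;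 have u35 : p117 := Classical.byContradiction fun h => c3103 u27 u34 u12 n2 h; have u36 : ¬p120 := fun h => c99 u35 h; have u37 : ¬p300 := fun h => c2343 u36 h n3; have u38 : p301 := Classical.byContradiction fun h => c1238 u37 h; have u39 : ¬p237 := fun h => c535 u38 h; have u40 : ¬p235 := fun h => c313 u39 u18 u16 h; c3138 n7 u40 u33
  have c3140 : p1 → p205 → ¬p414 → p289 → ¬p208 → ¬p136 → ¬p73 → p227 → p72 → False := fun n0 n1 n2 n3 n4 n5 n6 n7 n8 =>
    have u0 : p201 := Classical.byContradiction fun h => c1826 h; have u1 : ¬p191 := fun h => c255 h; have u2 : ¬p204 := fun h => c938 h; have u3 : p203 := Classical.byContradiction fun h => c267 n1 h u2; have u4 : ¬p247 := fun h => c503 h n1; have u5 : p259 := Classical.byContradiction fun h => c2541 n7 u4 h; have u6 : p258 := Classical.byContradiction fun h => c343 u5 h; have u7 : ¬p25 := fun h => c3139 n0 n4 n5 n6 h u4 n7 n3 u6 n8; have u8 : p24 := Classical.byContradiction fun h => c20 n0 h u7; have u9 : p106 := Classical.byContradiction fun h => c80 u8 h; have u10 : p21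 := Classical.byContradiction fun h => c251 h u8; have u11 : ¬p213 := fun h => c2075 h u9 u3 u1; have u12 : p22 := Classical.byContradiction fun h => c82 n0 u10 h; have u13 : ¬p197 := fun h => c763 h u11; have u14 : ¬p217 := fun h => c2404 n2 h u11; have u15 : ¬p222 := fun h => c3058 n2 u12 h u3 u1; have u16 : p207 := Classical.byContradiction fun h => c271 n4 u0 u13 h; have u17 : p206 := Classical.byContradiction fun h => c270 n4 u0 u13 h; have u18 : ¬p76 := fun h => c2310 h u14 u16; have u19 : ¬p75 := fun h => c2167 u15 h u17; have u20 : p74 := Classical.byContradiction fun h => c112 h u18; c57 u20 u19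
  have c3142 : p227 → ¬p136 → ¬p73 → p289 → ¬p414 → False := fun n0 n1 n2 n3 n4 =>
    have u0 : p201 := Classical.byContradiction fun h => c1826 h; have u1 : ¬p190 := fun h => c254 h; have u2 : p135 := Classical.byContradiction fun h => c699 n3 h; have u3 : p221 := Classical.byContradiction fun h => c3137 n0 n1 h; have u4 : ¬p208 := fun h => c543 h u3; have u5 : ¬p211 := fun h => c545 h u3; have u6 : p1 := Classical.byContradiction fun h => c3122 n4 u3 h; have u7 : p71 := Classical.byContradiction fun h => c88 h n2; have u8 : p72 := Classical.byContradiction fun h => c55 u7 h; have u9 : ¬p205 := fun h => c3140 u6 h n4 n3 u4 n1 n2 n0 u8; have u10 : ¬p203 := fun h => c268 u9 u0 h; have u11 : p216 := Classical.byContradiction fun h => c886 u9 u3 h; have u12 : p16 := Classical.byContradiction fun h => c3112 u9 h u3 u7 u6; have u13 : p215 := Classical.byContradiction fun h => c286 u11 h; have u14 : p13 := Classical.byContradiction fun h => c250 h u12; have u15 : p207 := Classical.byContradiction fun h => c1614 h u13 u4 u0; have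 u16 : ¬p217 := fun h => c2251 u6 h u8 u10 u14 n2; have u17 : p14 := Classical.byContradiction fun h => c47 u6 u14 h; have u18 : ¬p76 := fun h => c2310 h u16 u15; have u19 : ¬p197 := fun h => c2394 h u17 u1; have u20 : p74 := Classical.byContradiction fun h => c112 h u18; have u21 : p210 := Classical.byContradiction fun h => c278 u5 u0 u19 h; have u22 : p75 := Classical.byContradiction fun h => c57 u20 h; have u23 : ¬p37 := fun h => c3045 n4 u22 h u2; have u24 : ¬p36 := fun h => c144 u6 h u23; have u25 : ¬p39 := fun h => c253 u24 h; have u26 : ¬p40 := fun h => c28 u25 h; c3141 u26 u16 u17 u21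
  have c3143 : p289 → ¬p414 → ¬p136 → p227 → False := fun n0 n1 n2 n3 =>
    have u0 : p69 := Classical.byContradiction fun h => c907 h; have u1 : p201 := Classical.byContradiction fun h => c1826 h; have u2 : ¬p190 := fun h => c254 h; have u3 : p12 := Classical.byContradiction fun h => c12 h; have u4 : ¬p204 := fun h => c938 h; have u5 : p245 := Classical.byContradiction fun h => c1814 h; have u6 : p221 := Classical.byContradiction fun h => c3137 n3 n2 h; have u7 : ¬p208 := fun h => c543 h u6; have u8 : ¬p211 := fun h => c545 h u6; have u9 : p1 := Classical.byContradiction fun h => c3122 n1 u6 h; have u10 : ¬p424 := fun h => c1036 u9 h; have u11 : p425 := Classical.byContradiction fun h => c562 u10 h; have u12 : p426 := Classical.byContradiction fun h => c563 u10 h; have u13 : p73 := Classical.byContradiction fun h => c3142 n3 n2 h n0 n1; have u14 : ¬p71 := fun h => c56 h u13; have u15 : p246 := Classical.byContradiction fun h => c636 u13 h; have u16 : ¬p72 := fun h => c87 u14 h; have u17 : ¬p247 := fun h => c323 h u5 u15; have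 u18 : ¬p203 := fun h => c631 u16 h; have u19 : p29 := Classical.byContradiction fun h => c2650 u16 h u11 u12 u9; have u20 : p259 := Classical.byContradiction fun h => c2541 n3 u17 h; have u21 : ¬p205 := fun h => c267 h u18 u4; have u22 : ¬p31 := fun h => c108 u19 h; have u23 : p30 := Classical.byContradiction fun h => c107 u9 u19 h; have u24 : p258 := Classical.byContradiction fun h => c343 u20 h; have u25 : p216 := Classical.byContradiction fun h => c886 u21 u6 h; have u26 : p206 := Classical.byContradiction fun h => c1224 h u21 u6; have u27 : ¬p231 := fun h => c2648 h u23 n1; have u28 : p215 := Classical.byContradiction fun h => c286 u25 h; have u29 : ¬p37 := fun h => c3067 u14 h u22 u6 n1 u26 u21 u9 u27 u24; have u30 : p207 := Classical.byContradiction fun h => c1614 h u28 u7 u1; have u31 : ¬p36 := fun h => c144 u9 h u29; have u32 : ¬p232 := fun h => c2264 h u30 u2; have u33 : ¬p39 := fun h => c253 u31 h; have u34 : ¬p17 := fun h => c2323 h u22 u32; have u35 : ¬p40 := fun h => c28 u33 h; have u36 : p16 := Classical.byContradiction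 fun h => c15 u9 h u34; have u37 : p13 := Classical.byContradiction fun h => c250 h u36; have u38 : ¬p19 := fun h => c50 u37 h; have u39 : p14 := Classical.byContradiction fun h => c47 u9 u37 h; have u40 : p257 := Classical.byContradiction fun h => c2396 h u14 u38 u0 u3; have u41 : ¬p197 := fun h => c2394 h u39 u2; have u42 : ¬p256 := fun h => c341 u24 h u40; have u43 : p210 := Classical.byContradiction fun h => c278 u8 u1 u41 h; have u44 : ¬p217 := fun h => c2398 u42 n1 h u0; c3141 u35 u44 u39 u43
  have c3144 : p1 → p135 → p14 → p207 → ¬p217 → p210 → ¬p414 → False := fun n0 n1 n2 n3 n4 n5 n6 =>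
    have u0 : ¬p76 := fun h => c2310 h n4 n3; have u1 : p40 := Classical.byContradiction fun h => c3141 h n4 n2 n5; have u2 : p74 := Classical.byContradiction fun h => c112 h u0; have u3 : p39 := Classical.byContradiction fun h => c28 h u1; have u4 : p75 := Classical.byContradiction fun h => c57 u2 h; have u5 : p36 := Classical.byContradiction fun h => c253 h u3; have u6 : ¬p37 := fun h => c3045 n6 u4 h n1; c144 n0 u5 u6
  have c3145 : ¬p414 → p135 → p221 → ¬p227 → p1 → False := fun n0 n1 n2 n3 n4 =>
    have u0 : p201 := Classical.byContradiction fun h => c1826 h; have u1 : ¬p190 := fun h => c254 h; have u2 : ¬p208 := fun h => c543 h n2; have u3 : ¬p211 := fun h => c545 h n2; have u4 : ¬p220 := fun h => c1479 h n3 n2; have u5 : p71 := Classical.byContradiction fun h => c1589 h n3 n2; have u6 : ¬p19 := fun h => c601 h u4; have u7 : p72 := Classical.byContradiction fun h => c55 u5 h; have u8 : ¬p73 := fun h => c56 u5 h; have u9 : p13 := Classical.byContradiction fun h => c16 h u6; have u10 : p14 := Classical.byContradiction fun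 h => c47 n4 u9 h; have u11 : ¬p197 := fun h => c2394 h u10 u1; have u12 : p207 := Classical.byContradiction fun h => c271 u2 u0 u11 h; have u13 : p210 := Classical.byContradiction fun h => c278 u3 u0 u11 h; have u14 : p217 := Classical.byContradiction fun h => c3144 n4 n1 u10 u12 h u13 n0; have u15 : p213 := Classical.byContradiction fun h => c2404 n0 u14 h; have u16 : p203 := Classical.byContradiction fun h => c2251 n4 u14 u7 h u9 u8; have u17 : ¬p205 := fun h => c2858 u15 u6 h; c268 u17 u0 u16
  have c3146 : p1 → ¬p203 → ¬p73 → ¬p136 → ¬p76 → p246 → p230 → p289 → False := fun n0 n1 n2 n3 n4 n5 n6 n7 =>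
    have u0 : p74 := Classical.byContradiction fun h => c112 h n4; have u1 : p75 := Classical.byContradiction fun h => c57 u0 h; have u2 : p235 := Classical.byContradiction fun h => c3138 n7 h u1; have u3 : p237 := Classical.byContradiction fun h => c1201 n0 n6 u2 h; have u4 : p117 := Classical.byContradiction fun h => c2375 n1 h u2 n5 n3 n4; have u5 : ¬p301 := fun h => c535 h u3; have u6 : ¬p120 := fun h => c99 u4 h; have u7 : p300 := Classical.byContradiction fun h => c1238 h u5; c2343 u6 u7 n2
  have c3147 : p76 → p289 → p425 → ¬p48 → p72 → ¬p282 → p25 → p426 → ¬p16 → ¬p227 → ¬p261 → ¬p268 → ¬p136 → p1 → ¬p29 → False := fun n0 n1 n2 n3 n4 n5 n6 n7 n8 n9 n10 n11 n12 n13 n14 =>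
    have u0 : p429 := Classical.byContradiction fun h => c1012 h; have u1 : p12 := Classical.byContradiction fun h => c12 h; have u2 : p3 := Classical.byContradiction fun h => c1 h; have u3 : ¬p133 := fun h => c1436 h; have u4 : ¬p192 := fun h => c256 h; have u5 : ¬p430 := fun h => c566 n13 h; have u6 : p263 := Classical.byContradiction fun h => c1836 h n6 u1 u2; have u7 : ¬p30 := fun h => c23 n14 h; have u8 : ¬p32 := fun h => c252 n14 h; have u9 : p34 := Classical.byContradiction fun h => c25 n13 u8 h; have u10 : p286 := Classical.byContradiction fun h => c865 h u9 u1 u2; have u11 : p277 := Classical.byContradiction fun h => c1277 h u9 u4 u1 u2; have u12 : p41 := Classical.byContradiction fun h => c1091 u9 h n12; have u13 : p307 := Classical.byContradiction fun h => c2451 h u10 u3; have u14 : p284 := Classical.byContradiction fun h => c375 h u11 n5; have u15 : ¬p39 := fun h => c143 h u12; have u16 : p309 := Classical.byContradiction fun h => c1082 h n13 n1 u7 u13 u15; have u17 : ¬p266 := fun h => c550 u14 h; have u18 : ¬p265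 := fun h => c1294 h n13 u17 u6; have u19 : ¬p269 := fun h => c3077 h n12 u18; have u20 : ¬p270 := fun h => c359 h n11 u19; have u21 : p276 := Classical.byContradiction fun h => c3123 n6 u18 u20 n10 h n9; have u22 : p275 := Classical.byContradiction fun h => c367 u21 h; have u23 : p274 := Classical.byContradiction fun h => c1377 u22 h n8; have u24 : p123 := Classical.byContradiction fun h => c1017 u23 u5 n7 h u0; have u25 : ¬p121 := fun h => c101 h u24; have u26 : ¬p126 := fun h => c193 u25 h; have u27 : ¬p124 := fun h => c688 h u25; have u28 : p144 := Classical.byContradiction fun h => c1048 u23 u5 u18 h n2 u25 u0; have u29 : p327 := Classical.byContradiction fun h => c1039 h n3 u26 n2 u5 u0 u1 u2; have u30 : p127 := Classical.byContradiction fun h => c192 u27 h; have u31 : ¬p142 := fun h => c130 h u28; have u32 : ¬p335 := fun h => c2905 u23 h u30 n2 u5 n6; have u33 : ¬p143 := fun h => c194 u31 h; have u34 : p333 := Classical.byContradiction fun h => c429 u32 u29 h; have u35 : ¬p342 := fun h => c1045 u33 n1 h; have u36 : p94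 := Classical.byContradiction fun h => c2215 u34 h n4; have u37 : ¬p165 := fun h => c735 u35 h; have u38 : p89 := Classical.byContradiction fun h => c187 h u36; have u39 : ¬p164 := fun h => c165 h u37; have u40 : ¬p91 := fun h => c69 u38 h; have u41 : p166 := Classical.byContradiction fun h => c202 u39 h; c2679 n0 u41 u40 u16
  have c3148 : ¬p229 → ¬p203 → p72 → p426 → ¬p48 → p25 → ¬p240 → ¬p16 → ¬p221 → p425 → ¬p227 → p1 → ¬p218 → p289 → ¬p136 → ¬p73 → ¬p247 → False := fun n0 n1 n2 n3 n4 n5 n6 n7 n8 n9 n10 n11 n12 n13 n14 n15 n16 =>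
    have u0 : p429 := Classical.byContradiction fun h => c1012 h; have u1 : p12 := Classical.byContradiction fun h => c12 h; have u2 : p3 := Classical.byContradiction fun h => c1 h; have u3 : ¬p430 := fun h => c566 n11 h; have u4 : p263 := Classical.byContradiction fun h => c1836 h n5 u1 u2; have u5 : p17 := Classical.byContradiction fun h => c15 n11 n7 h; have u6 : p230 := Classical.byContradiction fun h => c1845 h u5 u1 u2; have u7 : ¬p268 := fun h => c2377 h n11 n15 u6; have u8 : p246 := Classical.byContradiction fun h => c1908 h n16; have u9 : ¬p261 := fun h => c346 h n16 n8; have u10 : p76 := Classical.byContradiction fun h => c3146 n11 n1 n15 n14 h u8 u6 n13; have u11 : ¬p74 := fun h => c58 h u10; have u12 : ¬p79 := fun h => c115 u11 h; have u13 : ¬p282 := fun h => c1858 h u12 n2; have u14 : p29 := Classical.byContradiction fun h => c3147 u10 n13 n9 n4 n2 u13 n5 n3 n7 n10 u9 u7 n14 n11 h; have u15 : ¬p31 := fun h => c108 u14 h; have u16 : p232 := Classical.byContradiction fun h => c2323 u5 u15 h; have u17 : ¬p0 := fun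 h => c2335 u16 n11 n2 h n8 n12 u4; have u18 : p276 := Classical.byContradiction fun h => c1241 u17 h n10 u9; have u19 : p243 := Classical.byContradiction fun h => c2295 u17 h n8 n0; have u20 : p275 := Classical.byContradiction fun h => c367 u18 h; have u21 : p242 := Classical.byContradiction fun h => c320 u19 h; have u22 : p274 := Classical.byContradiction fun h => c1377 u20 h n7; have u23 : p241 := Classical.byContradiction fun h => c318 u21 n6 h; have u24 : p123 := Classical.byContradiction fun h => c1017 u22 u3 n3 h u0; have u25 : p126 := Classical.byContradiction fun h => c3079 u23 h n2 n9 u5 n5 u3 n4; have u26 : ¬p121 := fun h => c101 h u24; c193 u26 u25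
  have c3149 : p17 → p417 → ¬p246 → ¬p203 → False := fun n0 n1 n2 n3 =>
    have u0 : p93 := Classical.byContradiction fun h => c655 h n1; have u1 : p91 := Classical.byContradiction fun h => c2259 n2 n1 h n3 n0; have u2 : p92 := Classical.byContradiction fun h => c182 h u0; have u3 : ¬p89 := fun h => c69 h u1; c654 u3 u2
  have c3150 : ¬p203 → ¬p311 → p72 → ¬p227 → p17 → p25 → p309 → ¬p240 → ¬p221 → p425 → ¬p48 → p289 → ¬p136 → p235 → ¬p73 → ¬p32 → ¬p155 → ¬p246 → p1 → False := fun n0 n1 n2 n3 n4 n5 n6 n7 n8 n9 n10 n11 n12 n13 n14 n15 n16 n17 n18 =>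
    have u0 : ¬p313 := fun h => c805 h; have u1 : p429 := Classical.byContradiction fun h => c1012 h; have u2 : p12 := Classical.byContradiction fun h => c12 h; have u3 : p3 := Classical.byContradiction fun h => c1 h; have u4 : p443 := Classical.byContradiction fun h => c1963 h; have u5 : ¬p133 := fun h => c1436 h; have u6 : ¬p430 := fun h => c566 n18 h; have u7 : ¬p452 := fun h => c581 n18 h; have u8 : p230 := Classical.byContradiction fun h => c1845 h n4 u2 u3; have u9 : ¬p417 := fun h => c3149 n4 h n17 n0; have u10 : p34 := Classical.byContradiction fun h => c25 n18 n15 h; have u11 : p339 := Classical.byContradiction fun h => c1853 h u10 n11; have u12 : p86 := Classical.byContradiction fun h => c647 h n13; have u13 : p237 := Classical.byContradiction fun h => c1201 n18 u8 n13 h; have u14 : ¬p167 := fun h => c1517 h u9 n13 u11 u5; have u15 : p85 := Classical.byContradiction fun h => c149 h u12; have u16 : ¬p301 := fun h => c535 h u13; have u17 : p183 := Classical.byContradiction fun h => c203 u14 h; have u18 : ¬p88 := fun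 h => c67 u15 h; have u19 : p82 := Classical.byContradiction fun h => c646 h u15; have u20 : p300 := Classical.byContradiction fun h => c1238 h u16; have u21 : ¬p302 := fun h => c397 h u16 n8; have u22 : ¬p121 := fun h => c1842 h u17 n17 u20; have u23 : ¬p316 := fun h => c1655 h u7 u18 n11 u10 u4 n6 n12 n16; have u24 : p87 := Classical.byContradiction fun h => c66 u19 h; have u25 : p304 := Classical.byContradiction fun h => c2339 h u20 n14; have u26 : ¬p126 := fun h => c193 u22 h; have u27 : ¬p315 := fun h => c1673 h n15 u23 n12 n11; have u28 : p303 := Classical.byContradiction fun h => c794 h n0 u24; have u29 : ¬p305 := fun h => c398 h u28 u25; have u30 : p327 := Classical.byContradiction fun h => c1039 h n10 u26 n9 u6 u1 u2 u3; have u31 : ¬p317 := fun h => c409 h u27 u23; have u32 : ¬p306 := fun h => c399 h u29 n3; have u33 : p0 := Classical.byContradiction fun h => c2900 u30 u6 n2 n0 n9 h n5 n4 n7 n8 u26 n3; have u34 : ¬p318 := fun h => c412 h u31; c413 u33 u21 u32 n1 u0 u34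
  have c3151 : p241 → ¬p417 → p425 → p72 → ¬p430 → p17 → p25 → ¬p48 → False := fun n0 n1 n2 n3 n4 n5 n6 n7 =>
    have u0 : p429 := Classical.byContradiction fun h => c1012 h; have u1 : p126 := Classical.byContradiction fun h => c3079 n0 h n3 n2 n5 n6 n4 n7; have u2 : p91 := Classical.byContradiction fun h => c2245 n0 h n1 n2 n4 n3 u0; have u3 : p333 := Classical.byContradiction fun h => c694 u1 h; have u4 : ¬p89 := fun h => c69 h u2; have u5 : p94 := Classical.byContradiction fun h => c2215 u3 h n3; c187 u4 u5
  have c3152 : p289 → p425 → p72 → ¬p205 → p25 → ¬p221 → ¬p227 → ¬p48 → ¬p240 → ¬p136 → ¬p73 → p1 → ¬p218 → p426 → ¬p16 → False := fun n0 n1 n2 n3 n4 n5 n6 n7 n8 n9 n10 n11 n12 n13 n14 =>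
    have u0 : ¬p133 := fun h => c1436 h; have u1 : p12 := Classical.byContradiction fun h => c12 h; have u2 : p3 := Classical.byContradiction fun h => c1 h; have u3 : p245 := Classical.byContradiction fun h => c1814 h; have u4 : p201 := Classical.byContradiction fun h => c1826 h; have u5 : ¬p202 := fun h => c265 h; have u6 : ¬p430 := fun h => c566 n11 h; have u7 : ¬p224 := fun h => c293 h u5 n5; have u8 : p263 := Classical.byContradiction fun h => c1836 h n4 u1 u2; have u9 : ¬p20 := fun h => c17 n14 h; have u10 : p17 := Classical.byContradiction fun h => c15 n11 n14 h; have u11 : ¬p203 := fun h => c268 n3 u4 h; have u12 : ¬p229 := fun h => c300 h n3 n6; have u13 : p247 := Classical.byContradiction fun h => c3148 u12 u11 n2 n13 n7 n4 n8 n14 n5 n1 n6 n11 n12 n0 n9 n10 h; have u14 : ¬p246 := fun h => c323 u13 u3 h; have u15 : ¬p417 := fun h => c3149 u10 h u14 u11; have u16 : ¬p241 := fun h => c3151 h u15 n1 n2 u6 u10 n4 n7; have u17 : ¬p242 := fun h => c318 h n8 u16; have u18 : ¬p243 := fun h => c320 h u17; have u19 : p0 := Classical.byContradiction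 fun h => c2295 h u18 n5 u12; have u20 : ¬p232 := fun h => c2335 h n11 n2 u19 n5 n12 u8; have u21 : p31 := Classical.byContradiction fun h => c2323 u10 h u20; have u22 : p235 := Classical.byContradiction fun h => c2293 u12 n5 u18 h u7 u20; have u23 : ¬p29 := fun h => c108 h u21; have u24 : ¬p30 := fun h => c23 u23 h; have u25 : ¬p32 := fun h => c252 u23 h; have u26 : ¬p33 := fun h => c24 u25 h; have u27 : p34 := Classical.byContradiction fun h => c25 n11 u25 h; have u28 : p286 := Classical.byContradiction fun h => c865 h u27 u1 u2; have u29 : p291 := Classical.byContradiction fun h => c385 h u28 u27 n0; have u30 : p41 := Classical.byContradiction fun h => c1091 u27 h n9; have u31 : p307 := Classical.byContradiction fun h => c2451 h u28 u0; have u32 : ¬p310 := fun h => c504 h u29; have u33 : ¬p39 := fun h => c143 h u30; have u34 : p309 := Classical.byContradiction fun h => c1082 h n11 n0 u24 u31 u33; have u35 : ¬p155 := fun h => c1652 h n11 u27 n0 u9 u31 u26 n9; have u36 : ¬p311 := fun h => c405 h u32; c3150 u11 u36 n2 n6 u10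 n4 u34 n8 n5 n1 n7 n0 n9 u22 n10 u25 u35 u14 n11
  have c3153 : ¬p0 → p246 → p72 → ¬p221 → p1 → ¬p194 → p324 → ¬p227 → p425 → p25 → ¬p48 → p426 → ¬p16 → ¬p261 → False := fun n0 n1 n2 n3 n4 n5 n6 n7 n8 n9 n10 n11 n12 n13 =>
    have u0 : p429 := Classical.byContradiction fun h => c1012 h; have u1 : p12 := Classical.byContradiction fun h => c12 h; have u2 : p3 := Classical.byContradiction fun h => c1 h; have u3 : ¬p430 := fun h => c566 n4 h; have u4 : p276 := Classical.byContradiction fun h => c1241 n0 h n7 n13; have u5 : p275 := Classical.byContradiction fun h => c367 u4 h; have u6 : p274 := Classical.byContradiction fun h => c1377 u5 h n12; have u7 : p123 := Classical.byContradiction fun h => c1017 u6 u3 n11 h u0; have u8 : ¬p121 := fun h => c101 h u7; have u9 : ¬p126 := fun h => c193 u8 h; have u10 : ¬p124 := fun h => c688 h u8; have u11 : p325 := Classical.byContradiction fun h => c1162 h u3 u9 n8 u0; have u12 : p327 := Classical.byContradiction fun h => c1039 h n10 u9 n8 u3 u0 u1 u2; have u13 : p127 := Classical.byContradiction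 fun h => c192 u10 h; have u14 : ¬p335 := fun h => c2905 u6 h u13 n8 u3 n9; have u15 : p333 := Classical.byContradiction fun h => c429 u14 u12 h; have u16 : ¬p336 := fun h => c431 h u14 n7; have u17 : p328 := Classical.byContradiction fun h => c2187 h u15 n2; have u18 : p329 := Classical.byContradiction fun h => c2906 h u8 u15 n1; have u19 : p332 := Classical.byContradiction fun h => c1168 n0 h n6 u16 n4 n5 u11; have u20 : ¬p330 := fun h => c422 h u17 u18; c425 u19 u20 n3
  have c3154 : p76 → p289 → p425 → ¬p48 → p72 → p25 → p426 → ¬p16 → ¬p227 → ¬p261 → ¬p268 → ¬p136 → p1 → ¬p29 → False := fun n0 n1 n2 n3 n4 n5 n6 n7 n8 n9 n10 n11 n12 n13 =>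
    have u0 : ¬p74 := fun h => c58 h n0; have u1 : p282 := Classical.byContradiction fun h => c3147 n0 n1 n2 n3 n4 h n5 n6 n7 n8 n9 n10 n11 n12 n13; have u2 : ¬p79 := fun h => c115 u0 h; c1858 u1 u2 n4
  have c3156 : p289 → ¬p48 → p300 → ¬p136 → ¬p335 → p309 → p343 → p72 → p339 → p246 → ¬p303 → p324 → ¬p121 → p1 → ¬p221 → p325 → ¬p194 → p327 → ¬p227 → False := fun n0 n1 n2 n3 n4 n5 n6 n7 n8 n9 n10 n11 n12 n13 n14 n15 n16 n17 n18 =>
    have u0 : p333 := Classical.byContradiction fun h => c429 n4 n17 h; have u1 : p344 := Classical.byContradiction fun h => c3096 n4 n1 n7 n9 n8 h n11 n12 n13 n14 n15 n16 n17 n18; have u2 : p94 := Classical.byContradiction fun h => c2215 u0 h n7; have u3 : ¬p342 := fun h => c443 u1 h n6; have u4 : p89 := Classical.byContradiction fun h => c187 h u2; have u5 : ¬p165 := fun h => c735 u3 h; have u6 : ¬p95 := fun h => c72 u4 h; have u7 : ¬p164 := fun h => c165 h u5; have u8 : p166 := Classical.byContradiction fun h => c202 u7 h; have u9 : p144 := Classical.byContradiction fun h => c1536 u8 h n5; have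 u10 : ¬p142 := fun h => c130 h u9; c3155 n10 u0 u10 u6 n2 n3 n0
  have c3157 : p1 → p289 → ¬p73 → ¬p221 → ¬p227 → p425 → p426 → ¬p240 → False := fun n0 n1 n2 n3 n4 n5 n6 n7 =>
    have u0 : p132 := Classical.byContradiction fun h => c1291 h; have u1 : p66 := Classical.byContradiction fun h => c263 h; have u2 : p429 := Classical.byContradiction fun h => c1012 h; have u3 : p12 := Classical.byContradiction fun h => c12 h; have u4 : p3 := Classical.byContradiction fun h => c1 h; have u5 : ¬p138 := fun h => c902 h; have u6 : p443 := Classical.byContradiction fun h => c1963 h; have u7 : ¬p133 := fun h => c1436 h; have u8 : ¬p204 := fun h => c938 h; have u9 : p135 := Classical.byContradiction fun h => c699 n1 h; have u10 : p134 := Classical.byContradiction fun h => c161 h u9; have u11 : ¬p136 := fun h => c125 u10 h; have u12 : ¬p430 := fun h => c566 n0 h; have u13 : ¬p452 := fun h => c581 n0 h; have u14 : p220 := Classical.byContradiction fun h => c2221 n3 h; have u15 : p71 := Classical.byContradiction fun h => c88 h n2; have u16 :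 p26 := Classical.byContradiction fun h => c1932 u14 h n2; have u17 : p72 := Classical.byContradiction fun h => c55 u15 h; have u18 : ¬p21 := fun h => c84 h u16; have u19 : ¬p24 := fun h => c251 u18 h; have u20 : ¬p27 := fun h => c21 u19 h; have u21 : p25 := Classical.byContradiction fun h => c20 n0 u19 h; have u22 : p47 := Classical.byContradiction fun h => c1058 u12 u20 h n5; have u23 : ¬p13 := fun h => c2048 u20 u14 h; have u24 : p263 := Classical.byContradiction fun h => c1836 h u21 u3 u4; have u25 : p46 := Classical.byContradiction fun h => c178 h u22; have u26 : p324 := Classical.byContradiction fun h => c2220 h u22; have u27 : ¬p16 := fun h => c250 u23 h; have u28 : ¬p194 := fun h => c258 h u25; have u29 : ¬p48 := fun h => c33 n0 u25 h; have u30 : ¬p20 := fun h => c17 u27 h; have u31 : p17 := Classical.byContradiction fun h => c15 n0 u27 h; have u32 : ¬p225 := fun h => c814 u30 h u17; have u33 : p230 := Classical.byContradiction fun h => c1845 h u31 u3 u4; have u34 : ¬p218 := fun h => c297 n4 h u32; have u35 : ¬p268 :=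 fun h => c2377 h n0 n2 u33; have u36 : p205 := Classical.byContradiction fun h => c3152 n1 n5 u17 h u21 n3 n4 u29 n7 u11 n2 n0 u34 n6 u27; have u37 : p203 := Classical.byContradiction fun h => c267 u36 h u8; have u38 : ¬p247 := fun h => c503 h u36; have u39 : p246 := Classical.byContradiction fun h => c1908 h u38; have u40 : ¬p261 := fun h => c346 h u38 n3; have u41 : p0 := Classical.byContradiction fun h => c3153 h u39 u17 n3 n0 u28 u26 n4 n5 u21 u29 n6 u27 u40; have u42 : ¬p232 := fun h => c2335 h n0 u17 u41 n3 u34 u24; have u43 : p31 := Classical.byContradiction fun h => c2323 u31 h u42; have u44 : ¬p29 := fun h => c108 h u43; have u45 : ¬p30 := fun h => c23 u44 h; have u46 : ¬p32 := fun h => c252 u44 h; have u47 : ¬p33 := fun h => c24 u46 h; have u48 : p34 := Classical.byContradiction fun h => c25 n0 u46 h; have u49 : p286 := Classical.byContradiction fun h => c865 h u48 u3 u4; have u50 : p291 := Classical.byContradiction fun h => c385 h u49 u48 n1; have u51 : p339 := Classical.byContradiction fun h => c1853 h u48 n1; have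 u52 : p41 := Classical.byContradiction fun h => c1091 u48 h u11; have u53 : p343 := Classical.byContradiction fun h => c1499 h u29 u11 u48 u9; have u54 : p307 := Classical.byContradiction fun h => c2451 h u49 u7; have u55 : ¬p310 := fun h => c504 h u50; have u56 : ¬p39 := fun h => c143 h u52; have u57 : p309 := Classical.byContradiction fun h => c1082 h n0 n1 u45 u54 u56; have u58 : ¬p155 := fun h => c1652 h n0 u48 n1 u30 u54 u47 u11; have u59 : ¬p311 := fun h => c405 h u55; have u60 : ¬p76 := fun h => c3154 h n1 n5 u29 u17 u21 n6 u27 n4 u40 u35 u11 n0 u44; have u61 : p74 := Classical.byContradiction fun h => c112 h u60; have u62 : p75 := Classical.byContradiction fun h => c57 u61 h; have u63 : ¬p80 := fun h => c61 u61 h; have u64 : p85 := Classical.byContradiction fun h => c2312 h u10 u61; have u65 : p235 := Classical.byContradiction fun h => c3138 n1 h u62; have u66 : ¬p88 := fun h => c67 u64 h; have u67 : p237 := Classical.byContradiction fun h => c1201 n0 u33 u65 h; have u68 : ¬p316 := fun h => c1655 h u13 u66 n1 u48 u6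 u57 u11 u58; have u69 : ¬p301 := fun h => c535 h u67; have u70 : ¬p315 := fun h => c1673 h u46 u68 u11 n1; have u71 : p300 := Classical.byContradiction fun h => c1238 h u69; have u72 : ¬p317 := fun h => c409 h u70 u68; have u73 : p279 := Classical.byContradiction fun h => c1816 h u71 u5; have u74 : p120 := Classical.byContradiction fun h => c2343 h u71 n2; have u75 : p304 := Classical.byContradiction fun h => c2339 h u71 n2; have u76 : ¬p318 := fun h => c412 h u72; have u77 : ¬p117 := fun h => c99 h u74; have u78 : p305 := Classical.byContradiction fun h => c885 h u34 u69 u41 u76 u59; have u79 : ¬p118 := fun h => c155 u77 h; have u80 : ¬p303 := fun h => c398 u78 h u75; have u81 : ¬p119 := fun h => c685 u80 h; have u82 : ¬p114 := fun h => c97 h u81; have u83 : p116 := Classical.byContradiction fun h => c157 u82 h; have u84 : p123 := Classical.byContradiction fun h => c870 h u83 u11 u51; have u85 : ¬p121 := fun h => c101 h u84; have u86 : ¬p126 := fun h => c193 u85 h; have u87 : ¬p124 := fun h => c688 h u85; have u88 : p325 :=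 Classical.byContradiction fun h => c1162 h u12 u86 n5 u2; have u89 : p327 := Classical.byContradiction fun h => c1039 h u29 u86 n5 u12 u2 u3 u4; have u90 : p127 := Classical.byContradiction fun h => c192 u87 h; have u91 : p335 := Classical.byContradiction fun h => c3156 n1 u29 u71 u11 h u57 u53 u17 u51 u39 u80 u26 u85 n0 n3 u88 u28 u89 n4; have u92 : ¬p274 := fun h => c2905 h u91 u90 n5 u12 u21; have u93 : ¬p273 := fun h => c1376 h u92 u27 u1; have u94 : ¬p275 := fun h => c365 h u93 u92; have u95 : ¬p276 := fun h => c367 h u94; have u96 : p265 := Classical.byContradiction fun h => c3124 u21 h u36 n2 u95 n4 u40; have u97 : p266 := Classical.byContradiction fun h => c2267 u96 u21 h; have u98 : ¬p284 := fun h => c550 h u97; have u99 : p282 := Classical.byContradiction fun h => c2532 u98 h n3 n4 u41 u73; have u100 : p81 := Classical.byContradiction fun h => c3086 u99 h u79 u39 u96 u0; have u101 : ¬p77 := fun h => c62 h u100; have u102 : ¬p78 := fun h => c110 u101 h; have u103 : p130 := Classical.byContradiction fun h => c111 u101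 h; c3088 u99 u103 u37 u102 u63
  have c3158 : ¬p71 → p25 → p425 → ¬p221 → p289 → ¬p227 → p1 → ¬p136 → p30 → ¬p31 → ¬p261 → p230 → p426 → False := fun n0 n1 n2 n3 n4 n5 n6 n7 n8 n9 n10 n11 n12 =>
    have u0 : p66 := Classical.byContradiction fun h => c263 h; have u1 : p429 := Classical.byContradiction fun h => c1012 h; have u2 : p69 := Classical.byContradiction fun h => c907 h; have u3 : ¬p68 := fun h => c799 h; have u4 : p2 := Classical.byContradiction fun h => c0 h; have u5 : ¬p430 := fun h => c566 n6 h; have u6 : p220 := Classical.byContradiction fun h => c2221 n3 h; have u7 : ¬p72 := fun h => c87 n0 h; have u8 : ¬p24 := fun h => c81 h n1; have u9 : ¬p27 := fun h => c21 u8 h; have u10 : p47 := Classical.byContradiction fun h => c1058 u5 u9 h n2; have u11 : ¬p13 := fun h => c2048 u9 u6 h; have u12 : p398 := Classical.byContradiction fun h => c2531 u7 h u10 n6 n2 n12 u9; have u13 : p46 := Classical.byContradiction fun h => c178 h u10; have u14 : p324 := Classical.byContradiction fun h => c2220 h u10; have u15 : ¬p16 := fun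 h => c250 u11 h; have u16 : p143 := Classical.byContradiction fun h => c708 h u12; have u17 : ¬p194 := fun h => c258 h u13; have u18 : ¬p48 := fun h => c33 n6 u13 h; have u19 : p17 := Classical.byContradiction fun h => c15 n6 u15 h; have u20 : p142 := Classical.byContradiction fun h => c194 h u16; have u21 : p0 := Classical.byContradiction fun h => c1390 h n10 u7 n6 u17 u19 n3 n11 n2 u14 n5; have u22 : p337 := Classical.byContradiction fun h => c879 h u18 u4; have u23 : p232 := Classical.byContradiction fun h => c2323 u19 n9 h; have u24 : ¬p144 := fun h => c130 u20 h; have u25 : p139 := Classical.byContradiction fun h => c707 h u20; have u26 : p76 := Classical.byContradiction fun h => c640 u23 h; have u27 : p265 := Classical.byContradiction fun h => c2300 u23 h u3; have u28 : p145 := Classical.byContradiction fun h => c131 u25 h; have u29 : ¬p74 := fun h => c58 h u26; have u30 : p266 := Classical.byContradiction fun h => c2267 u27 n1 h; have u31 : ¬p77 := fun h => c637 u29 h; have u32 : ¬p284 := fun h => c550 h u30; have u33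 : p81 := Classical.byContradiction fun h => c114 u31 h; have u34 : p279 := Classical.byContradiction fun h => c645 h u33; have u35 : p286 := Classical.byContradiction fun h => c2389 u32 h u21 n5 u34 n3; have u36 : p282 := Classical.byContradiction fun h => c2532 u32 h n3 n5 u21 u34; have u37 : p309 := Classical.byContradiction fun h => c2685 h n6 n4 n8 u35; have u38 : p400 := Classical.byContradiction fun h => c505 h u35 n8 u12; have u39 : p278 := Classical.byContradiction fun h => c1085 h u36 u2; have u40 : ¬p166 := fun h => c1536 h u24 u37; have u41 : ¬p340 := fun h => c509 h u38; have u42 : p328 := Classical.byContradiction fun h => c1584 h u28 u39; have u43 : p164 := Classical.byContradiction fun h => c202 h u40; have u44 : p339 := Classical.byContradiction fun h => c438 u41 u22 u18 h; have u45 : p333 := Classical.byContradiction fun h => c1041 u7 h u42; have u46 : p165 := Classical.byContradiction fun h => c165 u43 h; have u47 : p343 := Classical.byContradiction fun h => c1210 h u44 n7; have u48 : p123 := Classical.byContradiction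 fun h => c909 u27 h u44; have u49 : p342 := Classical.byContradiction fun h => c735 h u46; have u50 : ¬p121 := fun h => c101 h u48; have u51 : ¬p344 := fun h => c443 h u49 u47; have u52 : ¬p126 := fun h => c193 u50 h; have u53 : p329 := Classical.byContradiction fun h => c1378 h u50 n0; have u54 : p325 := Classical.byContradiction fun h => c1162 h u5 u52 n2 u1; have u55 : p334 := Classical.byContradiction fun h => c1496 h u7 u53 u0; have u56 : ¬p330 := fun h => c422 h u42 u53; have u57 : ¬p335 := fun h => c428 h u45 u55; have u58 : ¬p332 := fun h => c425 h u56 n3; have u59 : ¬p336 := fun h => c431 h u57 n5; c1533 u59 u18 u51 u14 u58 n6 u44 u54 u17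
  have c3159 : ¬p87 → p324 → ¬p136 → p1 → p289 → p325 → ¬p194 → ¬p44 → p286 → p30 → p315 → ¬p332 → p328 → ¬p336 → False := fun n0 n1 n2 n3 n4 n5 n6 n7 n8 n9 n10 n11 n12 n13 =>
    have u0 : p135 := Classical.byContradiction fun h => c699 n4 h; have u1 : p309 := Classical.byContradiction fun h => c2685 h n3 n4 n9 n8; have u2 : p348 := Classical.byContradiction fun h => c772 h n5; have u3 : p347 := Classical.byContradiction fun h => c771 h n1; have u4 : ¬p326 := fun h => c418 h n1 n5; have u5 : p398 := Classical.byContradiction fun h => c3011 n0 n10 u0 h u3 n12; have u6 : ¬p349 := fun h => c451 h u3 u2; have u7 : p143 := Classical.byContradiction fun h => c708 h u5; have u8 : p400 := Classical.byContradiction fun h => c505 h n8 n9 u5; have u9 : ¬p350 := fun h => c452 h u6; have u10 : p142 := Classical.byContradiction fun h => c194 h u7; have u11 : ¬p340 := fun h => c509 h u8; have u12 : ¬p144 := fun h => c130 u10 h; have u13 : ¬p341 := fun h => c440 h u11; have u14 : ¬p166 := fun h => c1536 h u12 u1; have u15 : p345 := Classical.byContradiction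 fun h => c453 n3 n6 u4 n11 n13 u13 h u9; have u16 : p164 := Classical.byContradiction fun h => c202 h u14; have u17 : p344 := Classical.byContradiction fun h => c449 u15 h; have u18 : p165 := Classical.byContradiction fun h => c165 u16 h; have u19 : p337 := Classical.byContradiction fun h => c441 u17 h; have u20 : p342 := Classical.byContradiction fun h => c735 h u18; have u21 : p339 := Classical.byContradiction fun h => c436 u11 u19 n7 h; c1211 n13 n3 u21 u20 n4 u4 u9 n2 n11 n6
  have c3161 : ¬p350 → p289 → ¬p119 → ¬p323 → p314 → p309 → p333 → ¬p136 → p307 → p1 → ¬p332 → p339 → ¬p336 → ¬p194 → False := fun n0 n1 n2 n3 n4 n5 n6 n7 n8 n9 n10 n11 n12 n13 =>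
    have u0 : ¬p326 := fun h => c417 h n3; have u1 : ¬p342 := fun h => c1211 n12 n9 n11 h n1 u0 n0 n7 n10 n13; have u2 : p344 := Classical.byContradiction fun h => c1198 n0 n9 n1 h u0 n11 n12 n10 n13; have u3 : ¬p165 := fun h => c735 u1 h; have u4 : ¬p409 := fun h => c522 u2 h; have u5 : ¬p164 := fun h => c165 h u3; have u6 : ¬p408 := fun h => c1061 h u4 n9 n8; have u7 : p166 := Classical.byContradiction fun h => c202 u5 h; have u8 : ¬p141 := fun h => c1199 h u6 n7; have u9 : p144 := Classical.byContradiction fun h => c1536 u7 h n5; have u10 : p139 := Classical.byContradiction fun h => c197 h u8; have u11 : ¬p142 := fun h => c130 h u9; have u12 : ¬p143 := fun h => c194 u11 h; c3160 n6 u12 n2 u10 n3 n4 n5 n1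
  have c3162 : p1 → ¬p119 → p286 → p328 → ¬p44 → ¬p194 → p30 → p289 → ¬p94 → ¬p126 → p314 → ¬p136 → p333 → p425 → ¬p336 → p315 → ¬p87 → ¬p221 → p329 → False := fun n0 n1 n2 n3 n4 n5 n6 n7 n8 n9 n10 n11 n12 n13 n14 n15 n16 n17 n18 =>
    have u0 : p69 := Classical.byContradiction fun h => c907 h; have u1 : ¬p133 := fun h => c1436 h; have u2 : p429 := Classical.byContradiction fun h => c1012 h; have u3 : p135 := Classical.byContradiction fun h => c699 n7 h; have u4 : ¬p430 := fun h => c566 n0 h; have u5 : p307 := Classical.byContradiction fun h => c2451 h n2 u1; have u6 : p309 := Classical.byContradiction fun h => c2685 h n0 n7 n6 n2; have u7 : p325 := Classical.byContradiction fun h => c1162 h u4 n9 n13 u2; have u8 : ¬p330 := fun h => c422 h n3 n18; have u9 : ¬p332 := fun h => c425 h u8 n17; have u10 : ¬p324 := fun h => c3159 n16 h n11 n0 n7 u7 n5 n4 n2 n6 n15 u9 n3 n14; have u11 : ¬p428 := fun h => c3018 u10 h n9 n13 u4; have u12 : p427 := Classical.byContradiction fun h => c564 h u11; have u13 : ¬p323 := fun h => c2642 h u12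 u4 n13 n8 u0; have u14 : ¬p326 := fun h => c417 h u13; have u15 : ¬p346 := fun h => c770 h u13; have u16 : ¬p349 := fun h => c450 h u15; have u17 : ¬p350 := fun h => c452 h u16; have u18 : ¬p339 := fun h => c3161 u17 n7 n1 u13 n10 u6 n12 n11 u5 n0 u9 h n14 n5; have u19 : p167 := Classical.byContradiction fun h => c3013 u18 h u6; have u20 : p168 := Classical.byContradiction fun h => c167 u19 h; have u21 : p398 := Classical.byContradiction fun h => c1498 u20 h u3; have u22 : p400 := Classical.byContradiction fun h => c505 h n2 n6 u21; have u23 : ¬p340 := fun h => c509 h u22; have u24 : ¬p341 := fun h => c440 h u23; have u25 : ¬p337 := fun h => c436 u23 h n4 u18; have u26 : p345 := Classical.byContradiction fun h => c453 n0 n5 u14 u9 n14 u24 h u17; have u27 : ¬p344 := fun h => c441 h u25; c449 u26 u27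
  have c3163 : p232 → ¬p94 → p1 → p425 → ¬p126 → ¬p194 → ¬p44 → p289 → ¬p136 → ¬p221 → ¬p72 → p333 → ¬p107 → p14 → p230 → p278 → p73 → p286 → p30 → p314 → ¬p119 → p315 → ¬p87 → p329 → ¬p227 → False := fun n0 n1 n2 n3 n4 n5 n6 n7 n8 n9 n10 n11 n12 n13 n14 n15 n16 n17 n18 n19 n20 n21 n22 n23 n24 =>
    have u0 : ¬p133 := fun h => c1436 h; have u1 : p66 := Classical.byContradiction fun h => c263 h; have u2 : p334 := Classical.byContradiction fun h => c1496 h n10 n23 u1; have u3 : p307 := Classical.byContradiction fun h => c2451 h n17 u0; have u4 : ¬p335 := fun h => c428 h n11 u2; have u5 : ¬p336 := fun h => c431 h u4 n24; have u6 : ¬p328 := fun h => c3162 n2 n20 n17 h n6 n5 n18 n7 n1 n4 n19 n8 n11 n3 u5 n21 n22 n9 n23; have u7 : ¬p145 := fun h => c1584 u6 h n15; have u8 : ¬p327 := fun h => c3016 h u6 n10 n0 n12 n13 n14 n15 n16; have u9 : ¬p139 := fun h => c131 h u7; have u10 : ¬p330 := fun h => c421 h u8; have u11 : ¬p140 := fun h => c196 u9 h; have u12 : p141 := Classical.byContradiction fun h => c197 u9 h; have u13 : ¬p332 :=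 fun h => c425 h u10 n9; have u14 : ¬p143 := fun h => c709 u11 h; have u15 : p408 := Classical.byContradiction fun h => c1199 u12 h n8; have u16 : ¬p342 := fun h => c1045 u14 n7 h; have u17 : p409 := Classical.byContradiction fun h => c1061 u15 h n2 u3; have u18 : ¬p344 := fun h => c522 h u17; have u19 : ¬p345 := fun h => c449 h u18; have u20 : ¬p337 := fun h => c444 u18 h n6 u16; have u21 : p341 := Classical.byContradiction fun h => c3019 u5 n2 n4 n3 u19 h u13 n1 n5; have u22 : ¬p340 := fun h => c433 h u20; c440 u21 u22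
  have c3164 : p232 → ¬p121 → p1 → p314 → ¬p44 → ¬p194 → p289 → ¬p227 → ¬p221 → p425 → p14 → p230 → p278 → p73 → p286 → p30 → ¬p136 → ¬p119 → p315 → ¬p87 → p329 → False := fun n0 n1 n2 n3 n4 n5 n6 n7 n8 n9 n10 n11 n12 n13 n14 n15 n16 n17 n18 n19 n20 =>
    have u0 : ¬p133 := fun h => c1436 h; have u1 : ¬p71 := fun h => c56 h n13; have u2 : ¬p107 := fun h => c85 u1 h; have u3 : ¬p72 := fun h => c87 u1 h; have u4 : p307 := Classical.byContradiction fun h => c2451 h n14 u0; have u5 : p123 := Classical.byContradiction fun h => c190 n1 h; have u6 : ¬p126 := fun h => c193 n1 h; have u7 : ¬p89 := fun h => c2384 u5 u1 h; have u8 : ¬p94 := fun h => c187 u7 h; have u9 : ¬p333 := fun h => c3163 n0 u8 n2 n9 u6 n5 n4 n6 n16 n8 u3 h u2 n10 n11 n12 n13 n14 n15 n3 n17 n18 n19 n20 n7; have u10 : ¬p328 := fun h => c1041 u3 u9 h; have u11 : ¬p145 := fun h => c1584 u10 h n12; have u12 : ¬p327 := fun h => c3016 h u10 u3 n0 u2 n10 n11 n12 n13; have u13 : ¬p139 := fun h => c131 h u11; have u14 : ¬p330 := fun h => c421 h u12; have u15 : ¬p335 := fun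 h => c427 h u12; have u16 : ¬p140 := fun h => c196 u13 h; have u17 : p141 := Classical.byContradiction fun h => c197 u13 h; have u18 : ¬p332 := fun h => c425 h u14 n8; have u19 : ¬p336 := fun h => c431 h u15 n7; have u20 : ¬p143 := fun h => c709 u16 h; have u21 : p408 := Classical.byContradiction fun h => c1199 u17 h n16; have u22 : ¬p342 := fun h => c1045 u20 n6 h; have u23 : p409 := Classical.byContradiction fun h => c1061 u21 h n2 u4; have u24 : ¬p344 := fun h => c522 h u23; have u25 : ¬p345 := fun h => c449 h u24; have u26 : ¬p337 := fun h => c444 u24 h n4 u22; have u27 : p341 := Classical.byContradiction fun h => c3019 u19 n2 u6 n9 u25 h u18 u8 n5; have u28 : ¬p340 := fun h => c433 h u26; c440 u27 u28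
  have c3165 : p1 → p289 → ¬p414 → p134 → p30 → p230 → p279 → p232 → ¬p194 → ¬p221 → p425 → p14 → p73 → p329 → ¬p72 → p0 → p226 → ¬p19 → ¬p44 → p22 → p263 → False := fun n0 n1 n2 n3 n4 n5 n6 n7 n8 n9 n10 n11 n12 n13 n14 n15 n16 n17 n18 n19 n20 =>
    have u0 : p66 := Classical.byContradiction fun h => c263 h; have u1 : ¬p193 := fun h => c257 h; have u2 : p12 := Classical.byContradiction fun h => c12 h; have u3 : p137 := Classical.byContradiction fun h => c889 h; have u4 : p69 := Classical.byContradiction fun h => c907 h; have u5 : ¬p68 := fun h => c799 h; have u6 : ¬p136 := fun h => c125 n3 h; have u7 : ¬p227 := fun h => c3143 n1 n2 u6 h; have u8 : ¬p93 := fun h => c2911 n18 h n2; have u9 : p265 := Classical.byContradiction fun h => c2300 n7 h u5; have u10 : p266 := Classical.byContradiction fun h => c352 h n20 n19 u9; have u11 : ¬p284 := fun h => c550 h u10; have u12 : p286 := Classical.byContradiction fun h => c2389 u11 h n15 u7 n6 n9; have u13 : p282 := Classical.byContradiction fun h => c2532 u11 h n9 u7 n15 n6; have u14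 : p291 := Classical.byContradiction fun h => c384 h u12 n4 n1; have u15 : p309 := Classical.byContradiction fun h => c2685 h n0 n1 n4 u12; have u16 : p278 := Classical.byContradiction fun h => c1085 h u13 u4; have u17 : ¬p310 := fun h => c504 h u14; have u18 : p84 := Classical.byContradiction fun h => c1080 n7 h u15; have u19 : p299 := Classical.byContradiction fun h => c1099 h u16 u3; have u20 : ¬p311 := fun h => c405 h u17; have u21 : ¬p82 := fun h => c64 h u18; have u22 : p303 := Classical.byContradiction fun h => c1095 h n14 u19; have u23 : ¬p87 := fun h => c154 u21 h; have u24 : ¬p85 := fun h => c646 u21 h; have u25 : ¬p114 := fun h => c881 u21 h u0; have u26 : p88 := Classical.byContradiction fun h => c153 u24 h; have u27 : p116 := Classical.byContradiction fun h => c157 u25 h; have u28 : ¬p119 := fun h => c160 u25 h; have u29 : p300 := Classical.byContradiction fun h => c653 h u26; have u30 : ¬p301 := fun h => c394 h u19 u29; have u31 : ¬p316 := fun h => c2820 h u29 n17 u1 u2; have u32 : p318 := Classical.byContradiction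 fun h => c1675 n14 u20 h u22 n15 u30 n9 n16; have u33 : p317 := Classical.byContradiction fun h => c412 u32 h; have u34 : p314 := Classical.byContradiction fun h => c408 u33 h; have u35 : p315 := Classical.byContradiction fun h => c409 u33 h u31; have u36 : p121 := Classical.byContradiction fun h => c3164 n7 h n0 u34 n18 n8 n1 u7 n9 n10 n11 n5 u16 n12 u12 n4 u6 u28 u35 u23 n13; have u37 : ¬p123 := fun h => c101 u36 h; have u38 : ¬p91 := fun h => c2671 u36 h n18 n2 u0; have u39 : ¬p339 := fun h => c909 u9 u37 h; have u40 : p89 := Classical.byContradiction fun h => c184 h u38; have u41 : p167 := Classical.byContradiction fun h => c3013 u39 h u15; have u42 : p337 := Classical.byContradiction fun h => c2392 h u8 u40 n5; have u43 : p168 := Classical.byContradiction fun h => c167 u41 h; c2472 u43 u27 n3 n4 n18 u42 u37 u12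
  have c3168 : ¬p414 → p235 → p37 → False := fun n0 n1 n2 =>
    c3167 n0 n1 n2
  have c3169 : p1 → p289 → ¬p414 → ¬p221 → ¬p261 → ¬p19 → p30 → p76 → ¬p276 → ¬p229 → ¬p243 → p134 → ¬p194 → p425 → p14 → p73 → p329 → p226 → ¬p44 → p22 → False := fun n0 n1 n2 n3 n4 n5 n6 n7 n8 n9 n10 n11 n12 n13 n14 n15 n16 n17 n18 n19 =>
    have u0 : ¬p190 := fun h => c254 h; have u1 : p12 := Classical.byContradiction fun h => c12 h; have u2 : p7 := Classical.byContradiction fun h => c5 h; have u3 : p66 := Classical.byContradiction fun h => c263 h; have u4 : p67 := Classical.byContradiction fun h => c823 h; have u5 : ¬p202 := fun h => c265 h; have u6 : ¬p136 := fun h => c125 n11 h; have u7 : ¬p227 := fun h => c3143 n1 n2 u6 h; have u8 : ¬p224 := fun h => c293 h u5 n3; have u9 : ¬p71 := fun h => c56 h n15; have u10 : ¬p107 := fun h => c85 u9 h; have u11 : ¬p72 := fun h => c87 u9 h; have u12 : p230 := Classical.byContradiction fun h => c1525 h n9 n3; have u13 : p263 := Classical.byContradiction fun h => c1289 h u10 u12 u3; have u14 : p0 := Classical.byContradiction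 fun h => c1241 h n8 u7 n4; have u15 : ¬p74 := fun h => c58 h n7; have u16 : p130 := Classical.byContradiction fun h => c641 h n7; have u17 : ¬p77 := fun h => c637 u15 h; have u18 : p81 := Classical.byContradiction fun h => c114 u17 h; have u19 : p279 := Classical.byContradiction fun h => c645 h u18; have u20 : ¬p232 := fun h => c3165 n0 n1 n2 n11 n6 u12 u19 h n12 n3 n13 n14 n15 n16 u11 u14 n17 n5 n18 n19 u13; have u21 : ¬p265 := fun h => c1068 u9 h u20 u4; have u22 : p235 := Classical.byContradiction fun h => c2293 n9 n3 n10 h u8 u20; have u23 : ¬p84 := fun h => c1050 h u21 u6 u10 u3; have u24 : p307 := Classical.byContradiction fun h => c2691 h n7 u23 u2; have u25 : ¬p37 := fun h => c3168 n2 u22 h; have u26 : ¬p36 := fun h => c144 n0 h u25; have u27 : ¬p39 := fun h => c253 u26 h; have u28 : p41 := Classical.byContradiction fun h => c29 n0 u27 h; have u29 : ¬p309 := fun h => c2697 u28 h n5 u16 u0 u1; have u30 : ¬p286 := fun h => c2685 u29 n0 n1 n6 h; have u31 : p310 := Classical.byContradiction fun h => c2688 u29 n0 h u24; have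 u32 : p284 := Classical.byContradiction fun h => c2389 h u30 u14 u7 u19 n3; c803 u31 u32 n8 u7 n4
  have c3171 : p1 → p289 → ¬p414 → False := fun n0 n1 n2 =>
    have u0 : ¬p190 := fun h => c254 h; have u1 : p12 := Classical.byContradiction fun h => c12 h; have u2 : p66 := Classical.byContradiction fun h => c263 h; have u3 : ¬p138 := fun h => c902 h; have u4 : p67 := Classical.byContradiction fun h => c823 h; have u5 : p429 := Classical.byContradiction fun h => c1012 h; have u6 : ¬p204 := fun h => c938 h; have u7 : p245 := Classical.byContradiction fun h => c1814 h; have u8 : ¬p202 := fun h => c265 h; have u9 : ¬p240 := fun h => c2459 n2 h u0; have u10 : p135 := Classical.byContradiction fun h => c699 n1 h; have u11 : p134 := Classical.byContradiction fun h => c161 h u10; have u12 : ¬p136 := fun h => c125 u11 h; have u13 : ¬p227 := fun h => c3143 n1 n2 u12 h; have u14 : ¬p430 := fun h => c566 n0 h; have u15 : ¬p424 := fun h => c1036 n0 h; have u16 : p425 := Classical.byContradiction fun h => c562 u15 h; have u17 : p426 := Classical.byContradiction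 fun h => c563 u15 h; have u18 : ¬p221 := fun h => c3145 n2 u10 h u13 n0; have u19 : ¬p224 := fun h => c293 h u8 u18; have u20 : p220 := Classical.byContradiction fun h => c2221 u18 h; have u21 : p226 := Classical.byContradiction fun h => c2041 h u20; have u22 : p73 := Classical.byContradiction fun h => c3157 n0 n1 h u18 u13 u16 u17 u9; have u23 : ¬p71 := fun h => c56 h u22; have u24 : p246 := Classical.byContradiction fun h => c636 u22 h; have u25 : ¬p72 := fun h => c87 u23 h; have u26 : ¬p247 := fun h => c323 h u7 u24; have u27 : ¬p203 := fun h => c631 u25 h; have u28 : ¬p273 := fun h => c2714 h u25 n2 u4 u0; have u29 : p29 := Classical.byContradiction fun h => c2650 u25 h u16 u17 n0; have u30 : ¬p261 := fun h => c346 h u26 u18; have u31 : ¬p205 := fun h => c267 h u27 u6; have u32 : ¬p31 := fun h => c108 u29 h; have u33 : p30 := Classical.byContradiction fun h => c107 n0 u29 h; have u34 : ¬p229 := fun h => c300 h u31 u13; have u35 : p230 := Classical.byContradiction fun h => c1525 h u34 u18; have u36 : ¬p25 := fun h => c3158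 u23 h u16 u18 n1 u13 n0 u12 u33 u32 u30 u35 u17; have u37 : p24 := Classical.byContradiction fun h => c20 n0 h u36; have u38 : p21 := Classical.byContradiction fun h => c251 h u37; have u39 : ¬p26 := fun h => c84 u38 h; have u40 : p16 := Classical.byContradiction fun h => c1383 h u38 u2; have u41 : p22 := Classical.byContradiction fun h => c82 n0 u38 h; have u42 : p45 := Classical.byContradiction fun h => c2173 u14 h u39 u17 u5 u1; have u43 : p13 := Classical.byContradiction fun h => c250 h u40; have u44 : ¬p43 := fun h => c32 h u42; have u45 : ¬p19 := fun h => c50 u43 h; have u46 : p14 := Classical.byContradiction fun h => c47 n0 u43 h; have u47 : ¬p194 := fun h => c259 h u44; have u48 : ¬p44 := fun h => c180 n0 u44 h; have u49 : ¬p321 := fun h => c2743 h u45 u0 u1; have u50 : ¬p274 := fun h => c1594 h u23 u45 u25 u4 u0 u1; have u51 : ¬p93 := fun h => c2911 u48 h n2; have u52 : ¬p241 := fun h => c769 h u49; have u53 : ¬p275 := fun h => c365 h u28 u50; have u54 : ¬p92 := fun h => c70 h u51; have u55 : ¬p242 := fun h => c318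 h u9 u52; have u56 : ¬p276 := fun h => c367 h u53; have u57 : p96 := Classical.byContradiction fun h => c186 u54 h; have u58 : ¬p243 := fun h => c320 h u55; have u59 : p0 := Classical.byContradiction fun h => c1241 h u56 u13 u30; have u60 : p329 := Classical.byContradiction fun h => c662 h u57; have u61 : ¬p76 := fun h => c3169 n0 n1 n2 u18 u30 u45 u33 h u56 u34 u58 u11 u47 u16 u46 u22 u60 u21 u48 u41; have u62 : p74 := Classical.byContradiction fun h => c112 h u61; have u63 : ¬p232 := fun h => c640 h u61; have u64 : p75 := Classical.byContradiction fun h => c57 u62 h; have u65 : p79 := Classical.byContradiction fun h => c60 u62 h; have u66 : p235 := Classical.byContradiction fun h => c2293 u34 u18 u58 h u19 u63; have u67 : ¬p37 := fun h => c3045 n2 u64 h u10; have u68 : p278 := Classical.byContradiction fun h => c643 h u65; have u69 : p237 := Classical.byContradiction fun h => c1201 n0 u35 u66 h; have u70 : ¬p36 := fun h => c144 n0 h u67; have u71 : p282 := Classical.byContradiction fun h => c970 u25 h u68; have u72 : ¬p301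 := fun h => c535 h u69; have u73 : ¬p39 := fun h => c253 u70 h; have u74 : p300 := Classical.byContradiction fun h => c1238 h u72; have u75 : p41 := Classical.byContradiction fun h => c29 n0 u73 h; have u76 : p279 := Classical.byContradiction fun h => c1816 h u74 u3; have u77 : p283 := Classical.byContradiction fun h => c2634 h u25 u76 u2; have u78 : ¬p284 := fun h => c374 h u71 u77; have u79 : p286 := Classical.byContradiction fun h => c2389 u78 h u59 u13 u76 u18; have u80 : p309 := Classical.byContradiction fun h => c2685 h n0 n1 u33 u79; have u81 : ¬p130 := fun h => c2697 u75 u80 u45 h u0 u1; have u82 : p77 := Classical.byContradiction fun h => c111 h u81; have u83 : p78 := Classical.byContradiction fun h => c59 u82 h; c3170 n2 u83 u33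
  have c3172 : p265 → p263 → ¬p266 → ¬p276 → ¬p227 → ¬p261 → False := fun n0 n1 n2 n3 n4 n5 =>
    have u0 : ¬p25 := fun h => c2267 n0 h n2; have u1 : ¬p22 := fun h => c352 n2 n1 h n0; c2120 u1 n5 u0 n4 n3
  have c3182 : ¬p72 → ¬p247 → ¬p1 → ¬p221 → ¬p227 → p235 → ¬p205 → p226 → False := fun n0 n1 n2 n3 n4 n5 n6 n7 =>
    have u0 : ¬p138 := fun h => c902 h; have u1 : ¬p276 := fun h => c366 h n2; have u2 : ¬p297 := fun h => c391 h n2; have u3 : ¬p229 := fun h => c300 h n6 n4; have u4 : ¬p261 := fun h => c346 h n1 n3; have u5 : p237 := Classical.byContradiction fun h => c1270 n0 n5 n3 h n7 n2 n6 u3; have u6 : p311 := Classical.byContradiction fun h => c1271 n0 h n5 n2 n1 n6 u3 n3 n7; have u7 : ¬p301 := fun h => c535 h u5; have u8 : p310 := Classical.byContradiction fun h => c405 u6 h; have u9 : p300 := Classical.byContradiction fun h => c1238 h u7; have u10 : ¬p279 := fun h => c1831 u8 n3 u1 h u2 n4 u4; c1816 u10 u9 u0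
  have c3185 : p232 → ¬p266 → ¬p218 → False := fun n0 n1 n2 =>
    have u0 : ¬p68 := fun h => c799 h; have u1 : p7 := Classical.byContradiction fun h => c5 h; have u2 : ¬p4 := fun h => c2 h; have u3 : p265 := Classical.byContradiction fun h => c2300 n0 h u0; have u4 : p25 := Classical.byContradiction fun h => c2318 n0 h n2 u0 u1 u2; c2267 u3 u4 n1
  have c3186 : p289 → ¬p235 → ¬p73 → ¬p227 → ¬p22 → ¬p221 → ¬p243 → ¬p218 → p0 → p72 → ¬p276 → False := fun n0 n1 n2 n3 n4 n5 n6 n7 n8 n9 n10 =>
    have u0 : ¬p202 := fun h => c265 h; have u1 : ¬p224 := fun h => c293 h u0 n5; have u2 : ¬p75 := fun h => c3138 n0 n1 h; have u3 : ¬p74 := fun h => c57 h u2; have u4 : ¬p79 := fun h => c115 u3 h; have u5 : ¬p77 := fun h => c637 u3 h; have u6 : ¬p282 := fun h => c1858 h u4 n9; have u7 : p81 := Classical.byContradiction fun h => c114 u5 h; have u8 : p279 := Classical.byContradiction fun h => c645 h u7; have u9 : p284 := Classical.byContradiction fun h => c2532 h u6 n5 n3 n8 u8; have u10 : ¬p266 := fun h => c550 u9 h; have u11 : ¬p232 := fun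 h => c3185 h u10 n7; have u12 : p229 := Classical.byContradiction fun h => c2293 h n5 n6 n1 u1 u11; have u13 : p205 := Classical.byContradiction fun h => c300 u12 h n3; have u14 : ¬p247 := fun h => c503 h u13; have u15 : ¬p261 := fun h => c346 h u14 n5; have u16 : p25 := Classical.byContradiction fun h => c2120 n4 u15 h n3 n10; have u17 : p265 := Classical.byContradiction fun h => c3124 u16 h u13 n2 n10 n3 u15; c2267 u17 u16 u10
  have c3187 : p282 → ¬p77 → p203 → ¬p80 → False := fun n0 n1 n2 n3 =>
    have u0 : ¬p78 := fun h => c110 n1 h; have u1 : p130 := Classical.byContradiction fun h => c111 n1 h; c3088 n0 u1 n2 u0 n3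
  have c3189 : ¬p218 → p279 → p205 → ¬p297 → p0 → ¬p221 → ¬p227 → p72 → ¬p276 → ¬p73 → ¬p22 → False := fun n0 n1 n2 n3 n4 n5 n6 n7 n8 n9 n10 =>
    have u0 : ¬p204 := fun h => c938 h; have u1 : p203 := Classical.byContradiction fun h => c267 n2 h u0; have u2 : ¬p247 := fun h => c503 h n2; have u3 : p246 := Classical.byContradiction fun h => c1908 h u2; have u4 : ¬p261 := fun h => c346 h u2 n5; have u5 : p25 := Classical.byContradiction fun h => c2120 n10 u4 h n6 n8; have u6 : p265 := Classical.byContradiction fun h => c3124 u5 h n2 n9 n8 n6 u4; have u7 : p110 := Classical.byContradiction fun h => c674 h u6; have u8 : p266 := Classical.byContradiction fun h => c2267 u6 u5 h; have u9 : ¬p108 := fun h => c90 h u7; have u10 : ¬p284 := fun h => c550 h u8; have u11 : ¬p111 := fun h => c671 h u9; have u12 : p282 := Classical.byContradiction fun h => c2317 u10 n0 h n3 n4 n5 n6 n1; have u13 : ¬p112 := fun h => c116 u11 h; have u14 : p79 := Classical.byContradiction fun h => c1858 u12 h n7; have u15 : p74 := Classical.byContradiction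 fun h => c115 h u14; have u16 : ¬p80 := fun h => c61 u15 h; have u17 : p77 := Classical.byContradiction fun h => c3187 u12 h u1 u16; have u18 : ¬p81 := fun h => c62 u17 h; c3188 u6 u18 u13 u12 u3
  have c3191 : ¬p229 → ¬p221 → ¬p237 → ¬p14 → ¬p243 → p235 → False := fun n0 n1 n2 n3 n4 n5 =>
    have u0 : ¬p202 := fun h => c265 h; have u1 : ¬p224 := fun h => c293 h u0 n1; have u2 : p230 := Classical.byContradiction fun h => c1525 h n0 n1; have u3 : ¬p238 := fun h => c316 h n2; have u4 : ¬p17 := fun h => c313 n2 u2 h n5; have u5 : p234 := Classical.byContradiction fun h => c321 n1 u1 n0 h u3 n4; have u6 : ¬p233 := fun h => c303 h n3 u4; c307 u5 u6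
  have c3193 : ¬p218 → p279 → p87 → ¬p227 → p235 → ¬p221 → ¬p297 → ¬p318 → ¬p73 → ¬p14 → ¬p243 → p0 → p72 → ¬p276 → ¬p22 → False := fun n0 n1 n2 n3 n4 n5 n6 n7 n8 n9 n10 n11 n12 n13 n14 =>
    have u0 : p308 := Classical.byContradiction fun h => c1292 h; have u1 : p201 := Classical.byContradiction fun h => c1826 h; have u2 : ¬p205 := fun h => c3189 n0 n1 h n6 n11 n5 n3 n12 n13 n8 n14; have u3 : ¬p203 := fun h => c268 u2 u1 h; have u4 : ¬p229 := fun h => c300 h u2 n3; have u5 : p303 := Classical.byContradiction fun h => c794 h u3 n2; have u6 : p237 := Classical.byContradiction fun h => c3191 u4 n5 h n9 n10 n4; have u7 : ¬p301 := fun h => c535 h u6; have u8 : p300 := Classical.byContradiction fun h => c1238 h u7; have u9 : p304 := Classical.byContradiction fun h => c2339 h u8 n8; have u10 : p120 := Classical.byContradiction fun h => c2343 h u8 n8; have u11 : ¬p305 := fun h => c398 h u5 u9; have u12 : ¬p117 := fun h => c99 h u10; have u13 : p311 := Classical.byContradiction fun h => c885 u11 n0 u7 n11 n7 h; have u14 : ¬p162 :=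 fun h => c158 u12 h; have u15 : p310 := Classical.byContradiction fun h => c405 u13 h; have u16 : ¬p309 := fun h => c402 u15 u0 h; have u17 : ¬p291 := fun h => c504 u15 h; have u18 : ¬p292 := fun h => c387 h u17; have u19 : p284 := Classical.byContradiction fun h => c1794 h n5 n6 u18 n3 n11 n1; have u20 : ¬p266 := fun h => c550 u19 h; have u21 : ¬p232 := fun h => c3185 h u20 n0; c3192 u16 u3 n4 u8 u14 u21
  have c3195 : p1 → p265 → ¬p221 → ¬p227 → ¬p84 → p0 → p279 → p30 → p289 → p22 → p263 → ¬p71 → False := fun n0 n1 n2 n3 n4 n5 n6 n7 n8 n9 n10 n11 =>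
    have u0 : p67 := Classical.byContradiction fun h => c823 h; have u1 : p232 := Classical.byContradiction fun h => c1068 n11 n1 h u0; have u2 : p266 := Classical.byContradiction fun h => c352 h n10 n9 n1; have u3 : ¬p309 := fun h => c1080 u1 n4 h; have u4 : ¬p284 := fun h => c550 h u2; have u5 : ¬p286 := fun h => c2685 u3 n0 n8 n7 h; c2389 u4 u5 n5 n3 n6 n2
  have c3227 : ¬p386 → ¬p58 → p286 → p289 → p30 → p309 → p384 → False := fun n0 n1 n2 n3 n4 n5 n6 =>
    have u0 : ¬p176 := fun h => c1143 h n0 n5; have u1 : p387 := Classical.byContradiction fun h => c488 h n6 n1 n0; have u2 : p174 := Classical.byContradiction fun h => c245 h u0; have u3 : ¬p406 := fun h => c517 u1 h; have u4 : p175 := Classical.byContradiction fun h => c172 u2 h; have u5 : ¬p404 := fun h => c513 u3 n2 n4 h; c1568 u5 u4 n3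
  have c3242 : ¬p387 → ¬p179 → p445 → p65 → p1 → ¬p19 → p384 → ¬p136 → False := fun n0 n1 n2 n3 n4 n5 n6 n7 =>
    have u0 : p443 := Classical.byContradiction fun h => c1963 h; have u1 : p446 := Classical.byContradiction fun h => c830 h; have u2 : p12 := Classical.byContradiction fun h => c12 h; have u3 : ¬p190 := fun h => c254 h; have u4 : ¬p452 := fun h => c581 n4 h; have u5 : ¬p386 := fun h => c1546 n1 h n7; have u6 : p58 := Classical.byContradiction fun h => c488 n0 n6 h u5; have u7 : p62 := Classical.byContradiction fun h => c490 n0 n6 h u5; have u8 : p57 := Classical.byContradiction fun h => c225 n4 h u6; have u9 : ¬p60 := fun h => c42 n4 h u7; have u10 : p63 := Classical.byContradiction fun h => c43 u8 h; have u11 : ¬p61 := fun h => c224 u9 h; have u12 : p187 := Classical.byContradiction fun h => c792 u10 h n3 u3 u2; have u13 : ¬p451 := fun h => c1962 u8 h n5 u11 u4 u0 u1 u2; have u14 : ¬p373 := fun h => c1959 u8 h u11; have u15 : p102 := Classical.byContradiction fun h => c230 h u12; have u16 : p450 := Classical.byContradiction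 fun h => c1744 u13 h; have u17 : ¬p372 := fun h => c1955 u14 h u9; have u18 : ¬p105 := fun h => c79 u15 h; c2487 u18 n1 u16 n2 u17 u4 u0
  have c3244 : ¬p158 → p289 → ¬p31 → ¬p88 → p315 → p220 → ¬p447 → ¬p19 → p65 → p1 → p384 → ¬p136 → p286 → p30 → p445 → False := fun n0 n1 n2 n3 n4 n5 n6 n7 n8 n9 n10 n11 n12 n13 n14 =>
    have u0 : p443 := Classical.byContradiction fun h => c1963 h; have u1 : ¬p4 := fun h => c2 h; have u2 : ¬p452 := fun h => c581 n9 h; have u3 : p309 := Classical.byContradiction fun h => c2685 h n9 n1 n13 n12; have u4 : ¬p176 := fun h => c1145 h n0 u3; have u5 : p174 := Classical.byContradiction fun h => c245 h u4; have u6 : p175 := Classical.byContradiction fun h => c172 u5 h; have u7 : p404 := Classical.byContradiction fun h => c1568 h u6 n1; have u8 : p406 := Classical.byContradiction fun h => c513 h n12 n13 u7; have u9 : ¬p387 := fun h => c517 h u8; have u10 : p179 := Classical.byContradiction fun h => c3242 u9 h n14 n8 n9 n7 n10 n11; have u11 : ¬p177 := fun h => c175 h u10; have u12 : ¬p449 := fun h =>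 c3240 n14 u11 u3 n4 n0 h n3 u2 u0; have u13 : p448 := Classical.byContradiction fun h => c577 n6 h u12; c3243 u11 n0 n4 u13 u3 n14 n2 n3 u2 n5 u0 u1
  have c3251 : p447 → p444 → p371 → ¬p104 → ¬p452 → False := fun n0 n1 n2 n3 n4 =>
    have u0 : p11 := Classical.byContradiction fun h => c11 h; have u1 : ¬p441 := fun h => c1128 n0 h n1 n4 u0; have u2 : ¬p442 := fun h => c2947 n0 n1 n2 n3 h n4 u0; c573 u1 u2
  have c3253 : ¬p384 → ¬p447 → ¬p19 → p1 → p286 → False := fun n0 n1 n2 n3 n4 =>
    have u0 : p443 := Classical.byContradiction fun h => c1963 h; have u1 : p446 := Classical.byContradiction fun h => c830 h; have u2 : p12 := Classical.byContradiction fun h => c12 h; have u3 : p132 := Classical.byContradiction fun h => c1291 h; have u4 : p3 := Classical.byContradiction fun h => c1 h; have u5 : ¬p452 := fun h => c581 n3 h; have u6 : p62 := Classical.byContradiction fun h => c1114 h n0 u2 u4; have u7 : p155 := Classical.byContradiction fun h => c2467 n0 h n4; have u8 : ¬p60 := fun h => c42 n3 h u6; have u9 : ¬p153 := fun h =>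 c138 h u7; have u10 : ¬p61 := fun h => c224 u8 h; have u11 : ¬p154 := fun h => c238 u9 h; have u12 : ¬p449 := fun h => c2952 n0 n1 u11 h u3; have u13 : p451 := Classical.byContradiction fun h => c1637 u12 h; have u14 : p58 := Classical.byContradiction fun h => c1120 n0 n1 h u12; have u15 : ¬p57 := fun h => c1962 h u13 n2 u10 u5 u0 u1 u2; c225 n3 u15 u14
  have c3255 : ¬p449 → ¬p447 → p315 → ¬p31 → ¬p88 → p220 → p309 → False := fun n0 n1 n2 n3 n4 n5 n6 =>
    have u0 : ¬p4 := fun h => c2 h; have u1 : p448 := Classical.byContradiction fun h => c577 n1 h n0; c3254 n0 u1 n2 n6 n3 n4 n5 u0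
  have c3260 : ¬p384 → ¬p444 → ¬p19 → p1 → p451 → False := fun n0 n1 n2 n3 n4 =>
    have u0 : p443 := Classical.byContradiction fun h => c1963 h; have u1 : p446 := Classical.byContradiction fun h => c830 h; have u2 : p12 := Classical.byContradiction fun h => c12 h; have u3 : p3 := Classical.byContradiction fun h => c1 h; have u4 : ¬p452 := fun h => c581 n3 h; have u5 : p62 := Classical.byContradiction fun h => c1114 h n0 u2 u3; have u6 : p58 := Classical.byContradiction fun h => c1127 n0 n1 h; have u7 : ¬p60 := fun h => c42 n3 h u5; have u8 : p57 := Classical.byContradiction fun h => c225 n3 h u6; have u9 : ¬p61 := fun h => c224 u7 h; c1962 u8 n4 n2 u9 u4 u0 u1 u2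
  have c3269 : ¬p153 → p384 → p289 → p315 → ¬p88 → p220 → p307 → p1 → ¬p38 → ¬p136 → p135 → False := fun n0 n1 n2 n3 n4 n5 n6 n7 n8 n9 n10 =>
    have u0 : ¬p4 := fun h => c2 h; have u1 : ¬p154 := fun h => c238 n0 h; have u2 : p58 := Classical.byContradiction fun h => c2826 n0 h n9 n6 n7 n1 n10; c3266 u2 u1 n8 n2 n3 n4 n5 u0
  have c3270 : ¬p447 → p445 → p289 → p315 → p153 → ¬p88 → ¬p31 → p220 → ¬p19 → p65 → p1 → p384 → ¬p136 → p286 → p30 → False := fun n0 n1 n2 n3 n4 n5 n6 n7 n8 n9 n10 n11 n12 n13 n14 =>
    have u0 : p443 := Classical.byContradiction fun h => c1963 h; have u1 : ¬p452 := fun h => c581 n10 h; have u2 : p309 := Classical.byContradiction fun h => c2685 h n10 n2 n14 n13; have u3 : p449 := Classical.byContradiction fun h => c3255 h n0 n3 n6 n5 n7 u2; have u4 : p158 := Classical.byContradiction fun h => c3244 h n2 n6 n5 n3 n7 n0 n8 n9 n10 n11 n12 n13 n14 n1; have u5 : p157 := Classical.byContradiction fun h => c3264 h n1 n2 n3 u3 u2 n4 n5 u1 u0; have u6 : ¬p156 := fun h => c140 h u4; c236 u6 u5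
  have c3271 : p61 → p445 → ¬p136 → p309 → p315 → ¬p88 → ¬p19 → p65 → p1 → p384 → p451 → p286 → p30 → False := fun n0 n1 n2 n3 n4 n5 n6 n7 n8 n9 n10 n11 n12 =>
    have u0 : p443 := Classical.byContradiction fun h => c1963 h; have u1 : ¬p452 := fun h => c581 n8 h; have u2 : p60 := Classical.byContradiction fun h => c224 h n0; have u3 : p404 := Classical.byContradiction fun h => c2103 n0 h n12; have u4 : ¬p62 := fun h => c42 n8 u2 h; have u5 : p157 := Classical.byContradiction fun h => c724 u3 h; have u6 : p406 := Classical.byContradiction fun h => c513 h n11 n12 u3; have u7 : p156 := Classical.byContradiction fun h => c236 h u5; have u8 : ¬p387 := fun h => c517 h u6; have u9 : ¬p158 := fun h => c140 u7 h; have u10 : p179 := Classical.byContradiction fun h => c3242 u8 h n1 n7 n8 n6 n9 n2; have u11 : ¬p176 := fun h => c1145 h u9 n3; have u12 : ¬p177 := fun h => c175 h u10; have u13 : p174 := Classical.byContradiction fun h => c245 h u11; have u14 : ¬p449 := fun h => c3240 n1 u12 n3 n4 u9 h n5 u1 u0; have u15 : p175 := Classical.byContradiction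 fun h => c172 u13 h; have u16 : ¬p389 := fun h => c1076 u4 u14 h n10; c748 u16 u15
  have c3273 : p445 → p315 → ¬p88 → p286 → p153 → p30 → p384 → p289 → p1 → ¬p19 → p65 → ¬p136 → ¬p31 → p220 → False := fun n0 n1 n2 n3 n4 n5 n6 n7 n8 n9 n10 n11 n12 n13 =>
    have u0 : p443 := Classical.byContradiction fun h => c1963 h; have u1 : p446 := Classical.byContradiction fun h => c830 h; have u2 : p12 := Classical.byContradiction fun h => c12 h; have u3 : p3 := Classical.byContradiction fun h => c1 h; have u4 : ¬p452 := fun h => c581 n8 h; have u5 : p309 := Classical.byContradiction fun h => c2685 h n8 n7 n5 n3; have u6 : ¬p155 := fun h => c138 n4 h; have u7 : p447 := Classical.byContradiction fun h => c3270 h n0 n7 n1 n4 n2 n12 n13 n9 n10 n8 n6 n11 n3 n5; have u8 : p451 := Classical.byContradiction fun h => c1636 h u7 u2 u3; have u9 : ¬p61 := fun h => c3271 h n0 n11 u5 n1 n2 n9 n10 n8 n6 u8 n3 n5; have u10 : ¬p57 := fun h => c1962 h u8 n9 u9 u4 u0 u1 u2; have u11 : ¬p58 := fun h => c225 n8 u10 h; have u12 : p386 := Classical.byContradiction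 fun h => c3227 h u11 n3 n7 n5 u5 n6; have u13 : p179 := Classical.byContradiction fun h => c1546 h u12 n11; have u14 : ¬p177 := fun h => c175 h u13; c3272 u6 u14 n2 u5 n1 n0 n3 u7 u4 u0
  have c3275 : p447 → p314 → ¬p88 → p309 → ¬p155 → p286 → p444 → ¬p452 → False := fun n0 n1 n2 n3 n4 n5 n6 n7 =>
    have u0 : p443 := Classical.byContradiction fun h => c1963 h; c3274 n0 n1 n2 n3 n4 n5 n6 n7 u0
  have c3277 : p384 → p1 → ¬p88 → p289 → p286 → p30 → p314 → p315 → ¬p31 → p220 → ¬p136 → ¬p19 → p65 → ¬p38 → p135 → False := fun n0 n1 n2 n3 n4 n5 n6 n7 n8 n9 n10 n11 n12 n13 n14 =>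
    have u0 : p2 := Classical.byContradiction fun h => c0 h; have u1 : p443 := Classical.byContradiction fun h => c1963 h; have u2 : ¬p133 := fun h => c1436 h; have u3 : ¬p452 := fun h => c581 n1 h; have u4 : p307 := Classical.byContradiction fun h => c2451 h n4 u2; have u5 : p309 := Classical.byContradiction fun h => c2685 h n1 n3 n5 n4; have u6 : p153 := Classical.byContradiction fun h => c3269 h n0 n3 n7 n2 n9 u4 n1 n13 n10 n14; have u7 : ¬p155 := fun h => c138 u6 h; have u8 : ¬p445 := fun h => c3273 h n7 n2 n4 u6 n5 n0 n3 n1 n11 n12 n10 n8 n9; have u9 : p444 := Classical.byContradiction fun h => c575 h u8; have u10 : ¬p447 := fun h => c3275 h n6 n2 u5 u7 n4 u9 u3; have u11 : p449 := Classical.byContradiction fun h => c3255 h u10 n7 n8 n2 n9 u5; have u12 : p157 := Classical.byContradiction fun h => c3228 u9 u6 n3 n6 u11 u5 h n2 u3 u1; have u13 : p156 := Classical.byContradiction fun h => c236 h u12; have u14 : ¬p158 := fun h => c140 u13 h; have u15 : p177 := Classical.byContradiction fun h => c3238 h u14 u5 n6 u9 u11 n2 u3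 u1; have u16 : ¬p179 := fun h => c175 u15 h; have u17 : ¬p386 := fun h => c1546 u16 h n10; have u18 : p58 := Classical.byContradiction fun h => c3227 u17 h n4 n3 n5 u5 n0; have u19 : p57 := Classical.byContradiction fun h => c225 n1 h u18; c3276 u19 u9 u8 u0
  have c3279 : p1 → p237 → ¬p88 → ¬p227 → ¬p72 → ¬p221 → p0 → ¬p19 → p286 → p30 → p230 → p289 → ¬p31 → p65 → p135 → ¬p316 → ¬p306 → ¬p136 → ¬p302 → False := fun n0 n1 n2 n3 n4 n5 n6 n7 n8 n9 n10 n11 n12 n13 n14 n15 n16 n17 n18 =>
    have u0 : ¬p70 := fun h => c937 h; have u1 : p443 := Classical.byContradiction fun h => c1963 h; have u2 : p446 := Classical.byContradiction fun h => c830 h; have u3 : p12 := Classical.byContradiction fun h => c12 h; have u4 : p3 := Classical.byContradiction fun h => c1 h; have u5 : ¬p193 := fun h => c257 h; have u6 : ¬p313 := fun h => c805 h; have u7 : ¬p133 := fun h => c1436 h; have u8 : p220 := Classical.byContradiction fun h => c2221 n5 h; have u9 : ¬p452 := fun h => c581 n0 h; have u10 : p307 := Classical.byContradiction fun h => c2451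 h n8 u7; have u11 : p291 := Classical.byContradiction fun h => c384 h n8 n9 n11; have u12 : ¬p310 := fun h => c504 h u11; have u13 : ¬p311 := fun h => c405 h u12; have u14 : p318 := Classical.byContradiction fun h => c413 n6 n18 n16 u13 u6 h; have u15 : p317 := Classical.byContradiction fun h => c412 u14 h; have u16 : p314 := Classical.byContradiction fun h => c408 u15 h; have u17 : p315 := Classical.byContradiction fun h => c409 u15 h n15; have u18 : p37 := Classical.byContradiction fun h => c3173 u17 h u5; have u19 : p36 := Classical.byContradiction fun h => c27 h u18; have u20 : ¬p38 := fun h => c145 u19 h; have u21 : ¬p384 := fun h => c3277 h n0 n2 n11 n8 n9 u16 u17 n12 u8 n17 n7 n13 u20 n14; have u22 : ¬p387 := fun h => c484 h u21; have u23 : ¬p391 := fun h => c492 h u21; have u24 : p62 := Classical.byContradiction fun h => c1114 h u21 u3 u4; have u25 : p155 := Classical.byContradiction fun h => c2467 u21 h n8; have u26 : p447 := Classical.byContradiction fun h => c3253 u21 h n7 n0 n8; have u27 : ¬p388 := fun h => c491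 h u22; have u28 : ¬p392 := fun h => c498 h u23; have u29 : ¬p60 := fun h => c42 n0 h u24; have u30 : p412 := Classical.byContradiction fun h => c1141 u25 h n17; have u31 : p451 := Classical.byContradiction fun h => c1636 h u26 u3 u4; have u32 : ¬p61 := fun h => c224 u29 h; have u33 : p64 := Classical.byContradiction fun h => c228 u29 h; have u34 : p413 := Classical.byContradiction fun h => c1423 u30 h u10 n0; have u35 : p444 := Classical.byContradiction fun h => c3260 u21 h n7 n0 u31; have u36 : ¬p57 := fun h => c1962 h u31 n7 u32 u9 u1 u2 u3; have u37 : p381 := Classical.byContradiction fun h => c1947 h u33 u8 u0; have u38 : ¬p378 := fun h => c542 h u34 n1; have u39 : ¬p196 := fun h => c262 h u36; have u40 : ¬p379 := fun h => c480 h u38 n5; have u41 : ¬p382 := fun h => c2950 h u38 n4 u37; have u42 : ¬p383 := fun h => c483 h u41 n3; have u43 : p371 := Classical.byContradiction fun h => c2951 u27 h u39 n0 u42 u40 u28; have u44 : p104 := Classical.byContradiction fun h => c3251 u26 u35 u43 h u9; have u45 : p100 := Classical.byContradiction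 fun h => c232 h u44; have u46 : ¬p101 := fun h => c76 u45 h; c3278 u21 u46 n10
  have c3282 : ¬p384 → ¬p72 → p237 → ¬p136 → ¬p221 → p286 → p1 → ¬p19 → p230 → ¬p227 → False := fun n0 n1 n2 n3 n4 n5 n6 n7 n8 n9 =>
    have u0 : ¬p70 := fun h => c937 h; have u1 : p443 := Classical.byContradiction fun h => c1963 h; have u2 : p446 := Classical.byContradiction fun h => c830 h; have u3 : p12 := Classical.byContradiction fun h => c12 h; have u4 : p3 := Classical.byContradiction fun h => c1 h; have u5 : ¬p133 := fun h => c1436 h; have u6 : p220 := Classical.byContradiction fun h => c2221 n4 h; have u7 : ¬p452 := fun h => c581 n6 h; have u8 : p307 := Classical.byContradiction fun h => c2451 h n5 u5; have u9 : ¬p387 := fun h => c484 h n0; have u10 : ¬p391 := fun h => c492 h n0; have u11 : p62 := Classical.byContradiction fun h => c1114 h n0 u3 u4; have u12 : p155 := Classical.byContradiction fun h => c2467 n0 h n5; have u13 : p447 := Classical.byContradiction fun h => c3253 n0 h n7 n6 n5; have u14 : p101 := Classical.byContradiction fun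 h => c3278 n0 h n8; have u15 : ¬p388 := fun h => c491 h u9; have u16 : ¬p392 := fun h => c498 h u10; have u17 : ¬p60 := fun h => c42 n6 h u11; have u18 : p412 := Classical.byContradiction fun h => c1141 u12 h n3; have u19 : p451 := Classical.byContradiction fun h => c1636 h u13 u3 u4; have u20 : ¬p100 := fun h => c76 h u14; have u21 : ¬p61 := fun h => c224 u17 h; have u22 : p64 := Classical.byContradiction fun h => c228 u17 h; have u23 : p413 := Classical.byContradiction fun h => c1423 u18 h u8 n6; have u24 : p444 := Classical.byContradiction fun h => c3260 n0 h n7 n6 u19; have u25 : ¬p104 := fun h => c232 u20 h; have u26 : ¬p57 := fun h => c1962 h u19 n7 u21 u7 u1 u2 u3; have u27 : p381 := Classical.byContradiction fun h => c1947 h u22 u6 u0; have u28 : ¬p378 := fun h => c542 h u23 n2; have u29 : ¬p371 := fun h => c3251 u13 u24 h u25 u7; have u30 : ¬p196 := fun h => c262 h u26; have u31 : ¬p379 := fun h => c480 h u28 n4; have u32 : ¬p382 := fun h => c2950 h u28 n1 u27; have u33 : p383 := Classical.byContradiction fun h => c2951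 u15 u29 u30 n6 h u31 u16; c483 u33 u32 n9
  have c3283 : ¬p153 → p451 → p135 → p30 → p1 → p307 → ¬p19 → p384 → ¬p136 → False := fun n0 n1 n2 n3 n4 n5 n6 n7 n8 =>
    have u0 : p443 := Classical.byContradiction fun h => c1963 h; have u1 : p446 := Classical.byContradiction fun h => c830 h; have u2 : p12 := Classical.byContradiction fun h => c12 h; have u3 : ¬p452 := fun h => c581 n4 h; have u4 : ¬p154 := fun h => c238 n0 h; have u5 : p58 := Classical.byContradiction fun h => c2826 n0 h n8 n5 n4 n7 n2; have u6 : ¬p157 := fun h => c725 u4 h; have u7 : p57 := Classical.byContradiction fun h => c225 n4 h u5; have u8 : ¬p404 := fun h => c724 h u6; have u9 : p61 := Classical.byContradiction fun h => c1962 u7 n1 n6 h u3 u0 u1 u2; c2103 u9 u8 n3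
  have c3284 : p447 → p384 → p30 → p65 → p135 → p1 → ¬p19 → p315 → p309 → p286 → p314 → ¬p88 → ¬p136 → False := fun n0 n1 n2 n3 n4 n5 n6 n7 n8 n9 n10 n11 n12 =>
    have u0 : p443 := Classical.byContradiction fun h => c1963 h; have u1 : p12 := Classical.byContradiction fun h => c12 h; have u2 : p3 := Classical.byContradiction fun h => c1 h; have u3 : ¬p133 := fun h => c1436 h; have u4 : ¬p452 := fun h => c581 n5 h; have u5 : p307 := Classical.byContradiction fun h => c2451 h n9 u3; have u6 : p451 := Classical.byContradiction fun h => c1636 h n0 u1 u2; have u7 : p153 := Classical.byContradiction fun h => c3283 h u6 n4 n2 n5 u5 n6 n1 n12; have u8 : ¬p155 := fun h => c138 u7 h; have u9 : ¬p444 := fun h => c3274 n0 n10 n11 n8 u8 n9 h u4 u0; have u10 : p445 := Classical.byContradiction fun h => c575 u9 h; have u11 : p177 := Classical.byContradiction fun h => c3272 u8 h n11 n8 n7 u10 n9 n0 u4 u0; have u12 : p178 := Classical.byContradiction fun h => c174 u11 h; have u13 : ¬p179 := fun h => c175 u11 h; have u14 : p404 := Classical.byContradiction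 fun h => c2012 u12 h n4; have u15 : p387 := Classical.byContradiction fun h => c3242 h u13 u10 n3 n5 n6 n1 n12; have u16 : p406 := Classical.byContradiction fun h => c513 h n9 n2 u14; c517 u15 u16
  have c3285 : p177 → p445 → ¬p136 → p30 → p65 → p1 → p286 → p384 → ¬p19 → p135 → False := fun n0 n1 n2 n3 n4 n5 n6 n7 n8 n9 =>
    have u0 : p178 := Classical.byContradiction fun h => c174 n0 h; have u1 : ¬p179 := fun h => c175 n0 h; have u2 : p404 := Classical.byContradiction fun h => c2012 u0 h n9; have u3 : p387 := Classical.byContradiction fun h => c3242 h u1 n1 n4 n5 n8 n7 n2; have u4 : p406 := Classical.byContradiction fun h => c513 h n6 n3 u2; c517 u3 u4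
  have c3289 : ¬p153 → p315 → ¬p38 → p135 → ¬p136 → ¬p88 → p220 → p1 → p307 → p384 → False := fun n0 n1 n2 n3 n4 n5 n6 n7 n8 n9 =>
    have u0 : ¬p4 := fun h => c2 h; have u1 : p58 := Classical.byContradiction fun h => c2826 n0 h n4 n8 n7 n9 n3; have u2 : p57 := Classical.byContradiction fun h => c225 n7 h u1; c3288 u2 n0 n3 n2 n1 n4 n5 n6 u0
  have c3290 : p449 → p445 → ¬p88 → p309 → p315 → p135 → p153 → p30 → ¬p19 → p65 → p1 → p286 → p384 → ¬p136 → False := fun n0 n1 n2 n3 n4 n5 n6 n7 n8 n9 n10 n11 n12 n13 =>
    have u0 : p443 := Classical.byContradiction fun h => c1963 h; have u1 : ¬p452 := fun h => c581 n10 h; have u2 : ¬p177 := fun h => c3285 h n1 n13 n7 n9 n10 n11 n12 n8 n5; have u3 : p157 := Classical.byContradiction fun h => c3286 h n1 n5 n3 n4 n0 n6 n2 u1 u0; have u4 : p158 := Classical.byContradiction fun h => c3240 n1 u2 n3 n4 h n0 n2 u1 u0; have u5 : p156 := Classical.byContradiction fun h => c236 h u3; c140 u5 u4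
  have c3291 : p177 → ¬p58 → ¬p136 → p286 → p30 → p384 → p135 → False := fun n0 n1 n2 n3 n4 n5 n6 =>
    have u0 : p178 := Classical.byContradiction fun h => c174 n0 h; have u1 : ¬p179 := fun h => c175 n0 h; have u2 : p404 := Classical.byContradiction fun h => c2012 u0 h n6; have u3 : ¬p386 := fun h => c1546 u1 h n2; have u4 : p406 := Classical.byContradiction fun h => c513 h n3 n4 u2; have u5 : p387 := Classical.byContradiction fun h => c488 h n5 n1 u3; c517 u5 u4
  have c3293 : ¬p292 → p30 → p0 → ¬p38 → p235 → p135 → p309 → p1 → ¬p19 → p65 → p286 → ¬p31 → ¬p227 → ¬p136 → ¬p221 → p384 → p279 → ¬p72 → ¬p316 → ¬p88 → ¬p302 → ¬p306 → ¬p289 → ¬p84 → False := fun n0 n1 n2 n3 n4 n5 n6 n7 n8 n9 n10 n11 n12 n13 n14 n15 n16 n17 n18 n19 n20 n21 n22 n23 =>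
    have u0 : p443 := Classical.byContradiction fun h => c1963 h; have u1 : p2 := Classical.byContradiction fun h => c0 h; have u2 : ¬p313 := fun h => c805 h; have u3 : p308 := Classical.byContradiction fun h => c1292 h; have u4 : ¬p133 := fun h => c1436 h; have u5 : p66 := Classical.byContradiction fun h => c263 h; have u6 : p220 := Classical.byContradiction fun h => c2221 n14 h; have u7 : ¬p452 := fun h => c581 n7 h; have u8 : p283 := Classical.byContradiction fun h => c2634 h n17 n16 u5; have u9 : p307 := Classical.byContradiction fun h => c2451 h n10 u4; have u10 : ¬p310 := fun h => c402 h u3 n6; have u11 : ¬p232 := fun h => c1080 h n23 n6; have u12 : ¬p311 := fun h => c405 h u10; have u13 : p74 := Classical.byContradiction fun h => c1503 h n4 u11 n22; have u14 : p318 := Classical.byContradiction fun h => c413 n2 n20 n21 u12 u2 h; have u15 : p79 := Classical.byContradiction fun h => c60 u13 h; have u16 : ¬p80 := fun h => c61 u13 h; have u17 : p317 := Classical.byContradiction fun h => c412 u14 h; have u18 : p278 := Classical.byContradiction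 fun h => c643 h u15; have u19 : p314 := Classical.byContradiction fun h => c408 u17 h; have u20 : p315 := Classical.byContradiction fun h => c409 u17 h n18; have u21 : p282 := Classical.byContradiction fun h => c970 n17 h u18; have u22 : ¬p284 := fun h => c374 h u21 u8; have u23 : p297 := Classical.byContradiction fun h => c1794 u22 n14 h n0 n12 n2 n16; have u24 : p296 := Classical.byContradiction fun h => c392 u23 h; have u25 : p293 := Classical.byContradiction fun h => c388 u24 h; have u26 : ¬p447 := fun h => c3284 h n15 n1 n9 n5 n7 n8 u20 n6 n10 u19 n19 n13; have u27 : p449 := Classical.byContradiction fun h => c3255 h u26 u20 n11 n19 u6 n6; have u28 : p153 := Classical.byContradiction fun h => c3289 h u20 n3 n5 n13 n19 u6 n7 u9 n15; have u29 : ¬p155 := fun h => c138 u28 h; have u30 : ¬p445 := fun h => c3290 u27 h n19 n6 u20 n5 u28 n1 n8 n9 n7 n10 n15 n13; have u31 : p444 := Classical.byContradiction fun h => c575 h u30; have u32 : ¬p57 := fun h => c3276 h u31 u30 u1; have u33 : ¬p58 := fun h => c225 n7 u32 h; have u34 :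 ¬p177 := fun h => c3291 h u33 n13 n10 n1 n15 n5; have u35 : p158 := Classical.byContradiction fun h => c3238 u34 h n6 u19 u31 u27 n19 u7 u0; have u36 : ¬p156 := fun h => c140 h u35; c3292 u31 u25 u16 n5 u27 u29 u36 u7 u0
  have c3297 : p444 → ¬p309 → ¬p81 → ¬p155 → p293 → ¬p178 → ¬p452 → ¬p289 → p449 → p135 → False := fun n0 n1 n2 n3 n4 n5 n6 n7 n8 n9 =>
    have u0 : p443 := Classical.byContradiction fun h => c1963 h; have u1 : ¬p80 := fun h => c644 h n2; have u2 : p156 := Classical.byContradiction fun h => c3292 n0 n4 u1 n9 n8 n3 h n6 u0; have u3 : p157 := Classical.byContradiction fun h => c139 u2 h; have u4 : p175 := Classical.byContradiction fun h => c1342 h u3 n7; have u5 : p174 := Classical.byContradiction fun h => c244 h u4; c3296 n0 n1 n2 n8 u5 n4 n5 n6 u0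
  have c3299 : ¬p445 → p293 → ¬p81 → ¬p447 → p384 → ¬p289 → ¬p309 → p153 → p135 → p286 → p30 → ¬p136 → p1 → False := fun n0 n1 n2 n3 n4 n5 n6 n7 n8 n9 n10 n11 n12 =>
    have u0 : p443 := Classical.byContradiction fun h => c1963 h; have u1 : p2 := Classical.byContradiction fun h => c0 h; have u2 : ¬p452 := fun h => c581 n12 h; have u3 : ¬p155 := fun h => c138 n7 h; have u4 : p444 := Classical.byContradiction fun h => c575 h n0; have u5 : ¬p57 := fun h => c3276 h u4 n0 u1; have u6 : ¬p58 := fun h => c225 n12 u5 h; have u7 : ¬p177 := fun h => c3291 h u6 n11 n9 n10 n4 n8; have u8 : ¬p178 := fun h => c242 u7 h; have u9 : ¬p449 := fun h => c3297 u4 n6 n2 u3 n1 u8 u2 n5 h n8; have u10 : p448 := Classical.byContradiction fun h => c577 n3 h u9; c3298 u4 u10 n7 u8 n0 n2 n1 n4 n5 u2 u0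
  have c3301 : ¬p449 → ¬p447 → p315 → ¬p88 → p220 → ¬p38 → False := fun n0 n1 n2 n3 n4 n5 =>
    have u0 : ¬p4 := fun h => c2 h; have u1 : p448 := Classical.byContradiction fun h => c577 n1 h n0; c3300 n0 u1 n2 n5 n3 n4 u0
  have c3303 : ¬p178 → p315 → ¬p88 → p445 → p449 → p174 → ¬p452 → False := fun n0 n1 n2 n3 n4 n5 n6 =>
    have u0 : p443 := Classical.byContradiction fun h => c1963 h; c3302 n0 n1 n2 n3 n4 n5 n6 u0
  have c3305 : ¬p372 → ¬p175 → p445 → ¬p188 → p449 → p153 → ¬p81 → ¬p452 → False := fun n0 n1 n2 n3 n4 n5 n6 n7 =>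
    have u0 : p443 := Classical.byContradiction fun h => c1963 h; c3304 n0 n1 n2 n3 n4 n5 n6 n7 u0
  have c3306 : p380 → ¬p81 → p237 → ¬p227 → p1 → ¬p221 → p315 → p30 → p293 → ¬p289 → ¬p447 → ¬p88 → ¬p38 → ¬p19 → p65 → p286 → p384 → ¬p136 → ¬p309 → p135 → False := fun n0 n1 n2 n3 n4 n5 n6 n7 n8 n9 n10 n11 n12 n13 n14 n15 n16 n17 n18 n19 =>
    have u0 : ¬p70 := fun h => c937 h; have u1 : ¬p133 := fun h => c1436 h; have u2 : p220 := Classical.byContradiction fun h => c2221 n5 h; have u3 : ¬p452 := fun h => c581 n4 h; have u4 : p307 := Classical.byContradiction fun h => c2451 h n15 u1; have u5 : p153 := Classical.byContradiction fun h => c3289 h n6 n12 n19 n17 n11 u2 n4 u4 n16; have u6 : p154 := Classical.byContradiction fun h => c137 u5 h; have u7 : p385 := Classical.byContradiction fun h => c726 h u6; have u8 : p445 := Classical.byContradiction fun h => c3299 h n8 n1 n10 n16 n9 n18 u5 n19 n15 n7 n17 n4; have u9 : ¬p177 := fun h => c3285 h u8 n17 n7 n14 n4 n15 n16 n13 n19; have u10 : ¬p178 := fun h => c242 u9 h; have u11 : p449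 := Classical.byContradiction fun h => c3301 h n10 n6 n11 u2 n12; have u12 : ¬p174 := fun h => c3303 u10 n6 n11 u8 u11 h u3; have u13 : ¬p175 := fun h => c244 u12 h; have u14 : ¬p157 := fun h => c1342 u13 h n9; have u15 : ¬p156 := fun h => c139 h u14; have u16 : ¬p404 := fun h => c724 h u14; have u17 : p158 := Classical.byContradiction fun h => c237 u15 h; have u18 : ¬p188 := fun h => c240 u15 h; have u19 : p412 := Classical.byContradiction fun h => c1372 u15 h n18 u6; have u20 : ¬p61 := fun h => c2103 h u16 n7; have u21 : p386 := Classical.byContradiction fun h => c729 u17 h; have u22 : p413 := Classical.byContradiction fun h => c1423 u19 h u4 n4; have u23 : ¬p60 := fun h => c41 h u20; have u24 : ¬p387 := fun h => c486 h u7 u21; have u25 : ¬p391 := fun h => c531 h u22; have u26 : ¬p378 := fun h => c542 h u22 n2; have u27 : p64 := Classical.byContradiction fun h => c228 u23 h; have u28 : ¬p388 := fun h => c491 h u24; have u29 : ¬p392 := fun h => c498 h u25; have u30 : ¬p379 := fun h => c480 h u26 n5; have u31 : p381 := Classical.byContradiction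 fun h => c1947 h u27 u2 u0; have u32 : ¬p382 := fun h => c482 h n0 u31; have u33 : ¬p383 := fun h => c483 h u32 n3; have u34 : p372 := Classical.byContradiction fun h => c3305 h u13 u8 u18 u11 u5 n1 u3; have u35 : p373 := Classical.byContradiction fun h => c1955 h u34 u23; have u36 : p196 := Classical.byContradiction fun h => c2410 u28 u34 h u30 u29 u33 n4 u23; have u37 : ¬p57 := fun h => c1959 h u35 u20; c262 u36 u37
  have c3308 : p447 → p293 → ¬p81 → p315 → p445 → ¬p136 → ¬p38 → ¬p88 → p220 → p30 → ¬p19 → p65 → p1 → p286 → p384 → ¬p155 → p135 → False := fun n0 n1 n2 n3 n4 n5 n6 n7 n8 n9 n10 n11 n12 n13 n14 n15 n16 =>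
    have u0 : p443 := Classical.byContradiction fun h => c1963 h; have u1 : ¬p4 := fun h => c2 h; have u2 : ¬p452 := fun h => c581 n12 h; have u3 : ¬p177 := fun h => c3285 h n4 n5 n9 n11 n12 n13 n14 n10 n16; have u4 : ¬p178 := fun h => c242 u3 h; c3307 n0 n1 n2 n3 u4 n4 n15 n6 n7 u2 n8 u0 u1
  have c3310 : ¬p309 → p293 → ¬p81 → p315 → ¬p38 → ¬p289 → p384 → p286 → p30 → ¬p136 → p135 → p1 → ¬p88 → ¬p19 → p65 → ¬p227 → ¬p221 → p237 → ¬p72 → p278 → False := fun n0 n1 n2 n3 n4 n5 n6 n7 n8 n9 n10 n11 n12 n13 n14 n15 n16 n17 n18 n19 =>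
    have u0 : p443 := Classical.byContradiction fun h => c1963 h; have u1 : ¬p4 := fun h => c2 h; have u2 : p2 := Classical.byContradiction fun h => c0 h; have u3 : ¬p133 := fun h => c1436 h; have u4 : p220 := Classical.byContradiction fun h => c2221 n16 h; have u5 : ¬p452 := fun h => c581 n11 h; have u6 : p307 := Classical.byContradiction fun h => c2451 h n7 u3; have u7 : p153 := Classical.byContradiction fun h => c3289 h n3 n4 n10 n9 n12 u4 n11 u6 n6; have u8 : ¬p155 := fun h => c138 u7 h; have u9 : p159 := Classical.byContradiction fun h => c141 u7 h; have u10 : p376 := Classical.byContradiction fun h => c1153 h u9 n19; have u11 : p380 := Classical.byContradiction fun h => c983 h u10 n18; have u12 : p447 := Classical.byContradiction fun h => c3306 u11 n2 n17 n15 n11 n16 n3 n8 n1 n5 h n12 n4 n13 n14 n7 n6 n9 n0 n10; have u13 : ¬p445 := fun h => c3308 u12 n1 n2 n3 h n9 n4 n12 u4 n8 n13 n14 n11 n7 n6 u8 n10; have u14 : p444 := Classical.byContradiction fun h => c575 h u13; have u15 : ¬p57 := fun h => c3276 h u14 u13 u2; have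 u16 : ¬p58 := fun h => c225 n11 u15 h; have u17 : ¬p177 := fun h => c3291 h u16 n9 n7 n8 n6 n10; have u18 : ¬p178 := fun h => c242 u17 h; c3309 u14 n1 n2 u18 u12 u7 n0 n4 n5 u5 u4 u0 u1
  have c3315 : ¬p449 → ¬p447 → p30 → ¬p289 → False := fun n0 n1 n2 n3 =>
    have u0 : p448 := Classical.byContradiction fun h => c577 n1 h n0; c3314 n0 u0 n3 n2
  have c3325 : ¬p221 → p334 → ¬p345 → ¬p341 → p1 → ¬p326 → p50 → ¬p350 → p126 → ¬p194 → ¬p227 → p329 → False := fun n0 n1 n2 n3 n4 n5 n6 n7 n8 n9 n10 n11 =>
    have u0 : ¬p70 := fun h => c937 h; have u1 : p69 := Classical.byContradiction fun h => c907 h; have u2 : p220 := Classical.byContradiction fun h => c2221 n0 h; have u3 : p121 := Classical.byContradiction fun h => c193 h n8; have u4 : p333 := Classical.byContradiction fun h => c694 n8 h; have u5 : ¬p335 := fun h => c428 h u4 n1; have u6 : ¬p336 := fun h => c431 h u5 n10; have u7 : p332 := Classical.byContradiction fun h => c453 n4 n9 n5 h u6 n3 n2 n7; have u8 : p330 := Classical.byContradiction fun h => c425 u7 h n0; have u9 :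 ¬p328 := fun h => c422 u8 h n11; c3324 u9 u3 n6 u2 u0 u1
  have c3336 : ¬p309 → ¬p81 → p29 → p0 → p300 → p135 → p1 → ¬p88 → ¬p19 → p65 → ¬p227 → ¬p221 → p237 → ¬p72 → ¬p136 → p230 → ¬p306 → ¬p302 → ¬p203 → False := fun n0 n1 n2 n3 n4 n5 n6 n7 n8 n9 n10 n11 n12 n13 n14 n15 n16 n17 n18 =>
    have u0 : ¬p290 := fun h => c1467 h; have u1 : p69 := Classical.byContradiction fun h => c907 h; have u2 : ¬p138 := fun h => c902 h; have u3 : ¬p193 := fun h => c257 h; have u4 : p12 := Classical.byContradiction fun h => c12 h; have u5 : p66 := Classical.byContradiction fun h => c263 h; have u6 : p279 := Classical.byContradiction fun h => c1816 h n4 u2; have u7 : ¬p316 := fun h => c2820 h n4 n8 u3 u4; have u8 : ¬p31 := fun h => c108 n2 h; have u9 : p30 := Classical.byContradiction fun h => c107 n6 n2 h; have u10 : p283 := Classical.byContradiction fun h => c2634 h n13 u6 u5; have u11 : p77 := Classical.byContradiction fun h => c114 h n1; have u12 : p282 := Classical.byContradiction fun h => c2543 n18 h u11 u6; have u13 : p278 := Classical.byContradiction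 fun h => c1085 h u12 u1; have u14 : ¬p284 := fun h => c374 h u12 u10; have u15 : p286 := Classical.byContradiction fun h => c2389 u14 h n3 n10 u6 n11; have u16 : ¬p289 := fun h => c3279 n6 n12 n7 n10 n13 n11 n3 n8 u15 u9 n15 h u8 n9 n5 u7 n16 n14 n17; have u17 : p384 := Classical.byContradiction fun h => c3282 h n13 n12 n14 n11 u15 n6 n8 n15 n10; have u18 : ¬p291 := fun h => c383 h u16 u0; have u19 : p40 := Classical.byContradiction fun h => c2880 h u9 u16; have u20 : ¬p292 := fun h => c387 h u18; have u21 : p39 := Classical.byContradiction fun h => c28 h u19; have u22 : p297 := Classical.byContradiction fun h => c1794 u14 n11 h u20 n10 n3 u6; have u23 : p36 := Classical.byContradiction fun h => c253 h u21; have u24 : p296 := Classical.byContradiction fun h => c392 u22 h; have u25 : ¬p38 := fun h => c145 u23 h; have u26 : p293 := Classical.byContradiction fun h => c388 u24 h; have u27 : ¬p315 := fun h => c3310 n0 u26 n1 h u25 u16 u17 u15 u9 n14 n5 n6 n7 n8 n9 n10 n11 n12 n13 u13; have u28 : ¬p294 := fun h => c3332 h n0 u27 n1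 u16 n4; have u29 : p295 := Classical.byContradiction fun h => c389 u24 u28 h; c3334 u29 u28 n2
  have c3337 : p270 → p1 → p237 → ¬p72 → p0 → ¬p136 → ¬p227 → ¬p221 → ¬p309 → ¬p19 → ¬p84 → p230 → ¬p88 → p65 → p135 → ¬p306 → ¬p302 → p235 → p29 → p300 → ¬p203 → False := fun n0 n1 n2 n3 n4 n5 n6 n7 n8 n9 n10 n11 n12 n13 n14 n15 n16 n17 n18 n19 n20 =>
    have u0 : p7 := Classical.byContradiction fun h => c5 h; have u1 : p66 := Classical.byContradiction fun h => c263 h; have u2 : ¬p138 := fun h => c902 h; have u3 : ¬p193 := fun h => c257 h; have u4 : p12 := Classical.byContradiction fun h => c12 h; have u5 : p279 := Classical.byContradiction fun h => c1816 h n19 u2; have u6 : ¬p316 := fun h => c2820 h n19 n9 u3 u4; have u7 : ¬p31 := fun h => c108 n18 h; have u8 : p30 := Classical.byContradiction fun h => c107 n1 n18 h; have u9 : p283 := Classical.byContradiction fun h => c2634 h n3 u5 u1; have u10 : p81 := Classical.byContradiction fun h => c3336 n8 h n18 n4 n19 n14 n1 n12 n9 n13 n6 n7 n2 n3 n5 n11 n15 n16 n20; have u11 : ¬p77 :=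 fun h => c62 h u10; have u12 : ¬p78 := fun h => c110 u11 h; have u13 : p289 := Classical.byContradiction fun h => c3294 u12 h n17; have u14 : ¬p286 := fun h => c3279 n1 n2 n12 n6 n3 n7 n4 n9 h u8 n11 u13 u7 n13 n14 u6 n15 n5 n16; have u15 : p284 := Classical.byContradiction fun h => c2389 h u14 n4 n6 u5 n7; have u16 : ¬p282 := fun h => c374 u15 h u9; have u17 : ¬p310 := fun h => c556 u15 h n0; have u18 : ¬p278 := fun h => c970 n3 u16 h; have u19 : ¬p307 := fun h => c2688 n8 n1 u17 h; have u20 : ¬p79 := fun h => c643 u18 h; have u21 : ¬p76 := fun h => c2691 u19 h n10 u0; have u22 : ¬p74 := fun h => c60 h u20; c112 u22 u21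
  have c3338 : p1 → ¬p88 → p235 → ¬p19 → p65 → ¬p227 → p0 → ¬p221 → ¬p72 → ¬p306 → ¬p302 → ¬p136 → ¬p84 → p237 → p230 → p270 → p29 → p300 → ¬p203 → False := fun n0 n1 n2 n3 n4 n5 n6 n7 n8 n9 n10 n11 n12 n13 n14 n15 n16 n17 n18 =>
    have u0 : ¬p290 := fun h => c1467 h; have u1 : ¬p193 := fun h => c257 h; have u2 : p201 := Classical.byContradiction fun h => c1826 h; have u3 : ¬p313 := fun h => c805 h; have u4 : p308 := Classical.byContradiction fun h => c1292 h; have u5 : ¬p138 := fun h => c902 h; have u6 : p12 := Classical.byContradiction fun h => c12 h; have u7 : p279 := Classical.byContradiction fun h => c1816 h n17 u5; have u8 : ¬p316 := fun h => c2820 h n17 n3 u1 u6; have u9 : ¬p31 := fun h => c108 n16 h; have u10 : p30 := Classical.byContradiction fun h => c107 n0 n16 h; have u11 : p134 := Classical.byContradiction fun h => c162 h n11; have u12 : p135 := Classical.byContradiction fun h => c124 u11 h; have u13 : p309 := Classical.byContradiction fun h => c3337 n15 n0 n13 n8 n6 n11 n5 n7 h n3 n12 n14 n1 n4 u12 n9 n10 n2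 n16 n17 n18; have u14 : ¬p310 := fun h => c402 h u4 u13; have u15 : ¬p311 := fun h => c405 h u14; have u16 : p318 := Classical.byContradiction fun h => c413 n6 n10 n9 u15 u3 h; have u17 : p317 := Classical.byContradiction fun h => c412 u16 h; have u18 : p314 := Classical.byContradiction fun h => c408 u17 h; have u19 : p315 := Classical.byContradiction fun h => c409 u17 h u8; have u20 : p286 := Classical.byContradiction fun h => c3280 u18 h n1 u13 u2; have u21 : p37 := Classical.byContradiction fun h => c3173 u19 h u1; have u22 : ¬p289 := fun h => c3279 n0 n13 n1 n5 n8 n7 n6 n3 u20 u10 n14 h u9 n4 u12 u8 n9 n11 n10; have u23 : p384 := Classical.byContradiction fun h => c3282 h n8 n13 n11 n7 u20 n0 n3 n14 n5; have u24 : p36 := Classical.byContradiction fun h => c27 h u21; have u25 : ¬p291 := fun h => c383 h u22 u0; have u26 : ¬p38 := fun h => c145 u24 h; have u27 : ¬p292 := fun h => c387 h u25; c3293 u27 u10 n6 u26 n2 u12 u13 n0 n3 n4 u20 u9 n5 n11 n7 u23 u7 n8 u8 n1 n10 n9 u22 n12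
  have c3339 : ¬p177 → ¬p81 → p30 → p376 → ¬p221 → ¬p227 → p1 → ¬p71 → p384 → p315 → p445 → p449 → p385 → ¬p134 → ¬p88 → p153 → False := fun n0 n1 n2 n3 n4 n5 n6 n7 n8 n9 n10 n11 n12 n13 n14 n15 =>
    have u0 : p443 := Classical.byContradiction fun h => c1963 h; have u1 : ¬p133 := fun h => c1436 h; have u2 : ¬p452 := fun h => c581 n6 h; have u3 : p389 := Classical.byContradiction fun h => c2431 h n12 n13 u1; have u4 : ¬p178 := fun h => c242 n0 h; have u5 : p158 := Classical.byContradiction fun h => c2498 n0 h n13; have u6 : ¬p174 := fun h => c3302 u4 n9 n14 n10 n11 h u2 u0; have u7 : ¬p156 := fun h => c140 h u5; have u8 : p386 := Classical.byContradiction fun h => c729 u5 h; have u9 : ¬p175 := fun h => c244 u6 h; have u10 : ¬p157 := fun h => c236 u7 h; have u11 : ¬p188 := fun h => c240 u7 h; have u12 : ¬p387 := fun h => c486 h n12 u8; have u13 : p372 := Classical.byContradiction fun h => c3304 h u9 n10 u11 n11 n15 n1 u2 u0; have u14 : ¬p404 := fun h => c724 h u10; have u15 : p58 := Classical.byContradiction fun h => c2510 u12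 u13 n8 n6 n4 h n5 n3 u3 n7; have u16 : ¬p61 := fun h => c2103 h u14 n2; have u17 : p57 := Classical.byContradiction fun h => c225 n6 h u15; have u18 : ¬p60 := fun h => c41 h u16; have u19 : ¬p373 := fun h => c1959 u17 h u16; c1955 u19 u13 u18
  have c3341 : p61 → p384 → ¬p19 → p300 → p286 → p30 → p1 → False := fun n0 n1 n2 n3 n4 n5 n6 =>
    have u0 : ¬p193 := fun h => c257 h; have u1 : p12 := Classical.byContradiction fun h => c12 h; have u2 : ¬p133 := fun h => c1436 h; have u3 : p60 := Classical.byContradiction fun h => c224 h n0; have u4 : p404 := Classical.byContradiction fun h => c2103 n0 h n5; have u5 : ¬p62 := fun h => c42 n6 u3 h; have u6 : p406 := Classical.byContradiction fun h => c513 h n4 n5 u4; have u7 : ¬p387 := fun h => c517 h u6; have u8 : p386 := Classical.byContradiction fun h => c490 u7 n1 u5 h; have u9 : p390 := Classical.byContradiction fun h => c2427 h u8 u2; c3340 u5 u9 n3 n2 u0 u1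
  have c3342 : p57 → ¬p61 → ¬p134 → ¬p19 → ¬p452 → ¬p31 → False := fun n0 n1 n2 n3 n4 n5 =>
    have u0 : p443 := Classical.byContradiction fun h => c1963 h; have u1 : p446 := Classical.byContradiction fun h => c830 h; have u2 : p132 := Classical.byContradiction fun h => c1291 h; have u3 : p12 := Classical.byContradiction fun h => c12 h; have u4 : ¬p59 := fun h => c40 n0 h; have u5 : ¬p451 := fun h => c1962 n0 h n3 n1 n4 u0 u1 u3; have u6 : ¬p450 := fun h => c2632 u4 h n5 n2 n3 n4 u0 u1 u2 u3; c1744 u5 u6
  have c3343 : ¬p105 → ¬p372 → ¬p179 → p445 → ¬p447 → ¬p452 → ¬p58 → ¬p160 → ¬p81 → False := fun n0 n1 n2 n3 n4 n5 n6 n7 n8 =>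
    have u0 : p443 := Classical.byContradiction fun h => c1963 h; have u1 : ¬p448 := fun h => c3319 n3 n6 n8 n1 n7 h n5 u0; have u2 : ¬p450 := fun h => c2487 n0 n2 h n3 n1 n5 u0; c578 n4 u1 u2
  have c3345 : p372 → p294 → ¬p81 → p376 → p286 → p30 → p64 → p384 → p1 → ¬p221 → ¬p58 → ¬p227 → p389 → p385 → ¬p71 → False := fun n0 n1 n2 n3 n4 n5 n6 n7 n8 n9 n10 n11 n12 n13 n14 =>
    have u0 : p220 := Classical.byContradiction fun h => c2221 n9 h; have u1 : p387 := Classical.byContradiction fun h => c2510 h n0 n7 n8 n9 n10 n11 n3 n12 n14; have u2 : ¬p406 := fun h => c517 u1 h; have u3 : ¬p386 := fun h => c486 u1 n13 h; have u4 : ¬p404 := fun h => c513 u2 n4 n5 h; c3344 n0 n1 n2 n6 u3 u4 u0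
  have c3346 : p445 → ¬p372 → ¬p81 → ¬p221 → ¬p227 → p1 → ¬p71 → p30 → p384 → p315 → ¬p447 → p385 → p376 → ¬p88 → p153 → ¬p105 → ¬p134 → ¬p58 → ¬p289 → False := fun n0 n1 n2 n3 n4 n5 n6 n7 n8 n9 n10 n11 n12 n13 n14 n15 n16 n17 n18 =>
    have u0 : ¬p452 := fun h => c581 n5 h; have u1 : ¬p160 := fun h => c142 n14 h; have u2 : p449 := Classical.byContradiction fun h => c3315 h n10 n7 n18; have u3 : p179 := Classical.byContradiction fun h => c3343 n15 n1 h n0 n10 u0 n17 u1 n2; have u4 : p177 := Classical.byContradiction fun h => c3339 h n2 n7 n12 n3 n4 n5 n6 n8 n9 n0 u2 n11 n16 n13 n14; c175 u4 u3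
  have c3348 : p445 → p293 → ¬p81 → p315 → ¬p58 → p309 → p153 → p286 → ¬p88 → p384 → ¬p221 → ¬p227 → p1 → ¬p71 → p30 → ¬p134 → ¬p289 → p294 → p64 → p231 → p278 → False := fun n0 n1 n2 n3 n4 n5 n6 n7 n8 n9 n10 n11 n12 n13 n14 n15 n16 n17 n18 n19 n20 =>
    have u0 : p443 := Classical.byContradiction fun h => c1963 h; have u1 : p131 := Classical.byContradiction fun h => c264 h; have u2 : p132 := Classical.byContradiction fun h => c1291 h; have u3 : ¬p133 := fun h => c1436 h; have u4 : ¬p452 := fun h => c581 n12 h; have u5 : p154 := Classical.byContradiction fun h => c137 n6 h; have u6 : ¬p155 := fun h => c138 n6 h; have u7 : p159 := Classical.byContradiction fun h => c141 n6 h; have u8 : p385 := Classical.byContradiction fun h => c726 h u5; have u9 : p376 := Classical.byContradiction fun h => c1153 h u7 n20; have u10 : p389 := Classical.byContradiction fun h => c2431 h u8 n15 u3; have u11 : p103 := Classical.byContradiction fun h => c1753 n19 h u10 u2; have u12 : p102 := Classical.byContradiction fun h => c229 h u11; have u13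 : ¬p105 := fun h => c79 u12 h; have u14 : ¬p372 := fun h => c3345 h n17 n2 u9 n7 n14 n18 n9 n12 n10 n4 n11 u10 u8 n13; have u15 : p447 := Classical.byContradiction fun h => c3346 n0 u14 n2 n10 n11 n12 n13 n14 n9 n3 h u8 u9 n8 n6 u13 n15 n4 n16; have u16 : p177 := Classical.byContradiction fun h => c3272 u6 h n8 n5 n3 n0 n7 u15 u4 u0; have u17 : p156 := Classical.byContradiction fun h => c2408 h u16 u1; have u18 : ¬p158 := fun h => c140 u17 h; c3347 u15 n1 n2 n4 n0 u18 u4 u0
  have c3350 : p445 → p387 → ¬p81 → p384 → p294 → p447 → ¬p452 → p286 → p30 → p386 → False := fun n0 n1 n2 n3 n4 n5 n6 n7 n8 n9 =>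
    have u0 : p443 := Classical.byContradiction fun h => c1963 h; have u1 : ¬p406 := fun h => c517 n1 h; have u2 : ¬p385 := fun h => c486 n1 h n9; have u3 : ¬p405 := fun h => c514 u1 n7 n8 h; c3349 n0 u3 n2 n4 n3 n5 u2 n6 u0
  have c3352 : p231 → p294 → p447 → p1 → ¬p221 → p384 → ¬p227 → ¬p71 → ¬p58 → ¬p134 → p445 → ¬p81 → p286 → p30 → p386 → False := fun n0 n1 n2 n3 n4 n5 n6 n7 n8 n9 n10 n11 n12 n13 n14 =>
    have u0 : p443 := Classical.byContradiction fun h => c1963 h; have u1 : p132 := Classical.byContradiction fun h => c1291 h; have u2 : ¬p133 := fun h => c1436 h; have u3 : ¬p452 := fun h => c581 n3 h; have u4 : ¬p387 := fun h => c3350 n10 h n11 n5 n1 n2 u3 n12 n13 n14; have u5 : p385 := Classical.byContradiction fun h => c487 u4 n5 n8 h; have u6 : p389 := Classical.byContradiction fun h => c2431 h u5 n9 u2; have u7 : p103 := Classical.byContradiction fun h => c1753 n0 h u6 u1; have u8 : p102 := Classical.byContradiction fun h => c229 h u7; have u9 : ¬p105 := fun h => c79 u8 h; have u10 : p100 := Classical.byContradiction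 fun h => c666 u8 h; have u11 : p104 := Classical.byContradiction fun h => c78 u10 h; have u12 : p376 := Classical.byContradiction fun h => c669 h u11; have u13 : ¬p372 := fun h => c2510 u4 h n5 n3 n4 n8 n6 u12 u6 n7; c3351 u9 n2 n10 u13 n5 u3 u0
  have c3356 : ¬p102 → p294 → ¬p81 → p445 → p449 → ¬p76 → p231 → ¬p452 → p286 → p30 → p384 → ¬p58 → ¬p134 → False := fun n0 n1 n2 n3 n4 n5 n6 n7 n8 n9 n10 n11 n12 =>
    have u0 : p443 := Classical.byContradiction fun h => c1963 h; have u1 : p132 := Classical.byContradiction fun h => c1291 h; have u2 : ¬p133 := fun h => c1436 h; have u3 : ¬p103 := fun h => c229 n0 h; have u4 : ¬p389 := fun h => c1753 n6 u3 h u1; have u5 : ¬p385 := fun h => c2431 u4 h n12 u2; have u6 : p387 := Classical.byContradiction fun h => c487 h n10 n11 u5; have u7 : ¬p406 := fun h => c517 u6 h; have u8 : ¬p405 := fun h => c514 u7 n8 n9 h; c3355 n0 u8 n2 n1 n3 n4 n5 n6 n7 u0 u1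
  have c3358 : p445 → p293 → ¬p81 → p286 → p30 → p384 → p294 → ¬p58 → p1 → ¬p196 → ¬p227 → ¬p221 → p381 → ¬p60 → ¬p76 → ¬p134 → ¬p289 → ¬p71 → p231 → p309 → p315 → ¬p88 → p278 → False := fun n0 n1 n2 n3 n4 n5 n6 n7 n8 n9 n10 n11 n12 n13 n14 n15 n16 n17 n18 n19 n20 n21 n22 =>
    have u0 : p443 := Classical.byContradiction fun h => c1963 h; have u1 : p132 := Classical.byContradiction fun h => c1291 h; have u2 : p69 := Classical.byContradiction fun h => c907 h; have u3 : ¬p72 := fun h => c87 n17 h; have u4 : ¬p452 := fun h => c581 n8 h; have u5 : p64 := Classical.byContradiction fun h => c228 n13 h; have u6 : p377 := Classical.byContradiction fun h => c1324 h n12 n17 u2; have u7 : ¬p153 := fun h => c3348 n0 n1 n2 n20 n7 n19 h n3 n21 n5 n11 n10 n8 n17 n4 n15 n16 n6 u5 n18 n22; have u8 : ¬p154 := fun h => c238 u7 h; have u9 : p155 := Classical.byContradiction fun h => c239 u7 h; have u10 : p158 := Classical.byContradiction fun h => c728 u9 h; have u11 : p386 := Classical.byContradiction fun h => c729 u10 h; have u12 : ¬p447 := fun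 h => c3352 n18 n6 h n8 n11 n5 n10 n17 n7 n15 n0 n2 n3 n4 u11; have u13 : p449 := Classical.byContradiction fun h => c3315 h u12 n4 n16; have u14 : p102 := Classical.byContradiction fun h => c3356 h n6 n2 n0 u13 n14 n18 u4 n3 n4 n5 n7 n15; have u15 : ¬p105 := fun h => c79 u14 h; have u16 : p100 := Classical.byContradiction fun h => c666 u14 h; have u17 : p372 := Classical.byContradiction fun h => c3353 u15 u8 h n0 u13 u4 u0 u1; have u18 : p104 := Classical.byContradiction fun h => c78 u16 h; have u19 : p373 := Classical.byContradiction fun h => c1955 h u17 n13; have u20 : p376 := Classical.byContradiction fun h => c669 h u18; have u21 : p380 := Classical.byContradiction fun h => c983 h u20 u3; have u22 : ¬p378 := fun h => c477 h u20 u6; have u23 : ¬p382 := fun h => c482 h u21 n12; have u24 : ¬p379 := fun h => c480 h u22 n11; have u25 : ¬p383 := fun h => c483 h u23 n10; have u26 : ¬p385 := fun h => c2432 u11 u19 n9 h u24 n15 u25 n8 u17; have u27 : p387 := Classical.byContradiction fun h => c487 h n5 n7 u26; have u28 : ¬p406 :=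 fun h => c517 u27 h; have u29 : ¬p405 := fun h => c514 u28 n3 n4 h; c3357 u26 n0 n6 u29 u13 n2 u4 u0 u1
  have c3363 : ¬p105 → ¬p154 → p444 → p449 → p371 → ¬p452 → False := fun n0 n1 n2 n3 n4 n5 =>
    have u0 : p443 := Classical.byContradiction fun h => c1963 h; have u1 : p132 := Classical.byContradiction fun h => c1291 h; c3362 n0 n1 n2 n3 n4 n5 u0 u1
  have c3365 : ¬p156 → ¬p155 → ¬p81 → p293 → p444 → p449 → ¬p452 → False := fun n0 n1 n2 n3 n4 n5 n6 =>
    have u0 : p443 := Classical.byContradiction fun h => c1963 h; have u1 : p132 := Classical.byContradiction fun h => c1291 h; c3364 n0 n1 n2 n3 n4 n5 n6 u0 u1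
  have c3367 : ¬p447 → p293 → ¬p81 → p314 → p136 → ¬p452 → p371 → ¬p58 → ¬p88 → p444 → ¬p105 → p30 → ¬p289 → False := fun n0 n1 n2 n3 n4 n5 n6 n7 n8 n9 n10 n11 n12 =>
    have u0 : p443 := Classical.byContradiction fun h => c1963 h; have u1 : p309 := Classical.byContradiction fun h => c704 h n4; have u2 : p449 := Classical.byContradiction fun h => c3315 h n0 n11 n12; have u3 : p154 := Classical.byContradiction fun h => c3363 n10 h n9 u2 n6 n5; have u4 : p153 := Classical.byContradiction fun h => c238 h u3; have u5 : ¬p155 := fun h => c138 u4 h; have u6 : p156 := Classical.byContradiction fun h => c3365 h u5 n2 n1 n9 u2 n5; have u7 : ¬p158 := fun h => c140 u6 h; have u8 : ¬p448 := fun h => c3234 h n3 n8 n7 u7 u1 n9 n5 u0; have u9 : p450 := Classical.byContradiction fun h => c578 n0 u8 h; c3366 n9 u9 n2 u7 n1 n4 n5 u0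
  have c3368 : p444 → p314 → ¬p88 → p384 → p286 → ¬p387 → p293 → ¬p81 → p136 → ¬p58 → p30 → ¬p227 → p1 → p377 → ¬p221 → ¬p196 → ¬p72 → p381 → p231 → False := fun n0 n1 n2 n3 n4 n5 n6 n7 n8 n9 n10 n11 n12 n13 n14 n15 n16 n17 n18 =>
    have u0 : p443 := Classical.byContradiction fun h => c1963 h; have u1 : p132 := Classical.byContradiction fun h => c1291 h; have u2 : ¬p133 := fun h => c1436 h; have u3 : ¬p452 := fun h => c581 n12 h; have u4 : ¬p134 := fun h => c125 h n8; have u5 : p309 := Classical.byContradiction fun h => c704 h n8; have u6 : ¬p135 := fun h => c161 u4 h; have u7 : ¬p289 := fun h => c699 h u6; have u8 : p385 := Classical.byContradiction fun h => c487 n5 n3 n9 h; have u9 : p386 := Classical.byContradiction fun h => c488 n5 n3 n9 h; have u10 : p389 := Classical.byContradiction fun h => c2431 h u8 u4 u2; have u11 : p103 := Classical.byContradiction fun h => c1753 n18 h u10 u1; have u12 : p102 := Classical.byContradiction fun h => c229 h u11; have u13 : ¬p105 := fun h => c79 u12 h; have u14 : p100 := Classical.byContradiction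 fun h => c666 u12 h; have u15 : p104 := Classical.byContradiction fun h => c78 u14 h; have u16 : p376 := Classical.byContradiction fun h => c669 h u15; have u17 : p371 := Classical.byContradiction fun h => c2993 h u9 n11 n12 u8 n13 n14 n15 u16 n16 n17 u4; have u18 : p447 := Classical.byContradiction fun h => c3367 h n6 n7 n1 n8 u3 u17 n9 n2 n0 u13 n10 u7; have u19 : p155 := Classical.byContradiction fun h => c3274 u18 n1 n2 u5 h n4 n0 u3 u0; have u20 : p449 := Classical.byContradiction fun h => c2939 h u18 u6 n3 u8; have u21 : ¬p153 := fun h => c138 h u19; have u22 : p154 := Classical.byContradiction fun h => c3362 u13 h n0 u20 u17 u3 u0 u1; c238 u21 u22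
  have c3371 : p444 → p314 → ¬p88 → p286 → ¬p158 → ¬p452 → p293 → ¬p81 → p136 → ¬p58 → False := fun n0 n1 n2 n3 n4 n5 n6 n7 n8 n9 =>
    have u0 : p443 := Classical.byContradiction fun h => c1963 h; have u1 : p309 := Classical.byContradiction fun h => c704 h n8; have u2 : ¬p155 := fun h => c728 h n4; have u3 : ¬p448 := fun h => c3234 h n1 n2 n9 n4 u1 n0 n5 u0; have u4 : ¬p450 := fun h => c3366 n0 h n7 n4 n6 n8 n5 u0; have u5 : ¬p447 := fun h => c3274 h n1 n2 u1 u2 n3 n0 n5 u0; c578 u5 u3 u4
  have c3373 : p315 → ¬p81 → ¬p88 → ¬p31 → p293 → p384 → p314 → p286 → p136 → p30 → ¬p227 → p1 → ¬p221 → p231 → p294 → ¬p76 → ¬p289 → ¬p71 → p278 → ¬p19 → p300 → False := fun n0 n1 n2 n3 n4 n5 n6 n7 n8 n9 n10 n11 n12 n13 n14 n15 n16 n17 n18 n19 n20 =>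
    have u0 : p443 := Classical.byContradiction fun h => c1963 h; have u1 : p132 := Classical.byContradiction fun h => c1291 h; have u2 : p69 := Classical.byContradiction fun h => c907 h; have u3 : ¬p70 := fun h => c937 h; have u4 : p220 := Classical.byContradiction fun h => c2221 n12 h; have u5 : ¬p72 := fun h => c87 n17 h; have u6 : ¬p452 := fun h => c581 n11 h; have u7 : ¬p134 := fun h => c125 h n8; have u8 : p309 := Classical.byContradiction fun h => c704 h n8; have u9 : ¬p61 := fun h => c3341 h n5 n19 n20 n7 n9 n11; have u10 : ¬p60 := fun h => c41 h u9; have u11 : p64 := Classical.byContradiction fun h => c228 u10 h; have u12 : p381 := Classical.byContradiction fun h => c1947 h u11 u4 u3; have u13 : p377 := Classical.byContradiction fun h => c1324 h u12 n17 u2; have u14 : ¬p57 := fun h => c3342 h u9 u7 n19 u6 n3; have u15 : ¬p196 := fun h => c262 h u14; have u16 : ¬p58 := fun h => c225 n11 u14 h; have u17 : ¬p445 := fun h => c3358 h n4 n1 n7 n9 n5 n14 u16 n11 u15 n10 n12 u12 u10 n15 u7 n16 n17 n13 u8 n0 n2 n18; have u18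 : p444 := Classical.byContradiction fun h => c575 h u17; have u19 : p387 := Classical.byContradiction fun h => c3368 u18 n6 n2 n5 n7 h n4 n1 n8 u16 n9 n10 n11 u13 n12 u15 u5 u12 n13; have u20 : ¬p406 := fun h => c517 u19 h; have u21 : ¬p405 := fun h => c514 u20 n7 n9 h; have u22 : p158 := Classical.byContradiction fun h => c3371 u18 n6 n2 n7 h u6 n4 n1 n8 u16; have u23 : p386 := Classical.byContradiction fun h => c729 u22 h; have u24 : ¬p385 := fun h => c486 u19 h u23; have u25 : ¬p449 := fun h => c3369 u18 u21 n1 h n4 u24 u6 u0 u1; have u26 : p447 := Classical.byContradiction fun h => c3255 u25 h n0 n3 n2 u4 u8; c3372 u26 n4 n1 u18 n5 u21 u6 u0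
  have c3375 : p1 → p237 → ¬p88 → ¬p227 → ¬p221 → ¬p71 → ¬p19 → p230 → p0 → p300 → p22 → ¬p306 → ¬p302 → p235 → p82 → p65 → p270 → p29 → ¬p203 → False := fun n0 n1 n2 n3 n4 n5 n6 n7 n8 n9 n10 n11 n12 n13 n14 n15 n16 n17 n18 =>
    have u0 : p201 := Classical.byContradiction fun h => c1826 h; have u1 : ¬p133 := fun h => c1436 h; have u2 : p69 := Classical.byContradiction fun h => c907 h; have u3 : p11 := Classical.byContradiction fun h => c11 h; have u4 : ¬p70 := fun h => c937 h; have u5 : p443 := Classical.byContradiction fun h => c1963 h; have u6 : p446 := Classical.byContradiction fun h => c830 h; have u7 : p12 := Classical.byContradiction fun h => c12 h; have u8 : p3 := Classical.byContradiction fun h => c1 h; have u9 : p132 := Classical.byContradiction fun h => c1291 h; have u10 : ¬p313 := fun h => c805 h; have u11 : ¬p290 := fun h => c1467 h; have u12 : p308 := Classical.byContradiction fun h => c1292 h; have u13 : ¬p138 := fun h => c902 h; have u14 : ¬p193 := fun h => c257 h; have u15 : p66 := Classical.byContradiction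 fun h => c263 h; have u16 : p220 := Classical.byContradiction fun h => c2221 n4 h; have u17 : ¬p107 := fun h => c85 n5 h; have u18 : ¬p72 := fun h => c87 n5 h; have u19 : p263 := Classical.byContradiction fun h => c1289 h u17 n7 u15; have u20 : ¬p452 := fun h => c581 n0 h; have u21 : ¬p84 := fun h => c64 n14 h; have u22 : p279 := Classical.byContradiction fun h => c1816 h n9 u13; have u23 : ¬p316 := fun h => c2820 h n9 n6 u14 u7; have u24 : ¬p31 := fun h => c108 n17 h; have u25 : p30 := Classical.byContradiction fun h => c107 n0 n17 h; have u26 : p136 := Classical.byContradiction fun h => c3338 n0 n2 n13 n6 n15 n3 n8 n4 u18 n11 n12 h u21 n1 n7 n16 n17 n9 n18; have u27 : ¬p134 := fun h => c125 h u26; have u28 : p309 := Classical.byContradiction fun h => c704 h u26; have u29 : ¬p135 := fun h => c161 u27 h; have u30 : ¬p163 := fun h => c163 u27 h; have u31 : ¬p310 := fun h => c402 h u12 u28; have u32 : ¬p289 := fun h => c699 h u29; have u33 : p231 := Classical.byContradiction fun h => c1726 u29 n13 h; have u34 : p74 := Classical.byContradiction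 fun h => c1682 h n14 u29 u26; have u35 : ¬p311 := fun h => c405 h u31; have u36 : ¬p291 := fun h => c383 h u32 u11; have u37 : p78 := Classical.byContradiction fun h => c3294 h u32 n13; have u38 : p264 := Classical.byContradiction fun h => c1612 u33 h u17; have u39 : ¬p76 := fun h => c58 u34 h; have u40 : p79 := Classical.byContradiction fun h => c60 u34 h; have u41 : p318 := Classical.byContradiction fun h => c413 n8 n12 n11 u35 u10 h; have u42 : ¬p292 := fun h => c387 h u36; have u43 : p77 := Classical.byContradiction fun h => c110 h u37; have u44 : p266 := Classical.byContradiction fun h => c351 h u19 n10 u38; have u45 : p278 := Classical.byContradiction fun h => c643 h u40; have u46 : p317 := Classical.byContradiction fun h => c412 u41 h; have u47 : ¬p81 := fun h => c62 u43 h; have u48 : ¬p284 := fun h => c550 h u44; have u49 : p314 := Classical.byContradiction fun h => c408 u46 h; have u50 : p315 := Classical.byContradiction fun h => c409 u46 h u23; have u51 : p286 := Classical.byContradiction fun h => c2389 u48 h n8 n3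 u22 n4; have u52 : p297 := Classical.byContradiction fun h => c1794 u48 n4 h u42 n3 n8 u22; have u53 : p294 := Classical.byContradiction fun h => c2607 h u50 u30 u9; have u54 : p307 := Classical.byContradiction fun h => c2451 h u51 u1; have u55 : p296 := Classical.byContradiction fun h => c392 u52 h; have u56 : p293 := Classical.byContradiction fun h => c388 u55 h; have u57 : ¬p384 := fun h => c3373 u50 u47 n2 u24 u56 h u49 u51 u26 u25 n3 n0 n4 u33 u53 u39 u32 n5 u45 n6 n9; have u58 : ¬p387 := fun h => c484 h u57; have u59 : ¬p391 := fun h => c492 h u57; have u60 : p62 := Classical.byContradiction fun h => c1114 h u57 u7 u8; have u61 : p447 := Classical.byContradiction fun h => c3253 u57 h n6 n0 u51; have u62 : p101 := Classical.byContradiction fun h => c3278 u57 h n7; have u63 : ¬p388 := fun h => c491 h u58; have u64 : ¬p392 := fun h => c498 h u59; have u65 : ¬p60 := fun h => c42 n0 h u60; have u66 : p451 := Classical.byContradiction fun h => c1636 h u61 u7 u8; have u67 : ¬p100 := fun h => c76 h u62; have u68 : ¬p61 := fun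 h => c224 u65 h; have u69 : p64 := Classical.byContradiction fun h => c228 u65 h; have u70 : ¬p57 := fun h => c1962 h u66 n6 u68 u20 u5 u6 u7; have u71 : p444 := Classical.byContradiction fun h => c3260 u57 h n6 n0 u66; have u72 : ¬p104 := fun h => c232 u67 h; have u73 : p381 := Classical.byContradiction fun h => c1947 h u69 u16 u4; have u74 : ¬p196 := fun h => c262 h u70; have u75 : ¬p441 := fun h => c1128 u61 h u71 u20 u3; have u76 : ¬p371 := fun h => c3251 u61 u71 h u72 u20; have u77 : p377 := Classical.byContradiction fun h => c1324 h u73 n5 u2; have u78 : p442 := Classical.byContradiction fun h => c573 u75 h; have u79 : ¬p376 := fun h => c2954 u63 u76 n0 u74 u73 h n3 n4 u64 u77 u18; have u80 : p375 := Classical.byContradiction fun h => c2523 h u79 u75 u78; have u81 : p378 := Classical.byContradiction fun h => c478 h u80 u79; have u82 : ¬p413 := fun h => c542 u81 h n1; have u83 : ¬p412 := fun h => c1423 h u82 u54 n0; c3374 u57 u83 u47 u56 u0 u1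
  have c3400 : p1 → p309 → p135 → p286 → ¬p339 → p337 → ¬p44 → False := fun n0 n1 n2 n3 n4 n5 n6 =>
    have u0 : p167 := Classical.byContradiction fun h => c3013 n4 h n1; have u1 : p340 := Classical.byContradiction fun h => c436 h n5 n6 n4; have u2 : p168 := Classical.byContradiction fun h => c167 u0 h; have u3 : ¬p400 := fun h => c509 u1 h; have u4 : p398 := Classical.byContradiction fun h => c1498 u2 h n2; c1930 u3 u4 n3 n0
  have c3424 : p326 → p428 → p426 → ¬p430 → p92 → p73 → False := fun n0 n1 n2 n3 n4 n5 =>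
    have u0 : p429 := Classical.byContradiction fun h => c1012 h; have u1 : ¬p71 := fun h => c56 h n5; have u2 : ¬p96 := fun h => c73 n4 h; have u3 : p124 := Classical.byContradiction fun h => c1801 u1 n4 h; have u4 : p324 := Classical.byContradiction fun h => c3407 h n1 u2 n3 n2 n5; have u5 : ¬p127 := fun h => c104 u3 h; have u6 : ¬p325 := fun h => c418 n0 u4 h; c1009 u6 u5 u0 n3 n2
  have c3426 : p73 → p334 → ¬p345 → p426 → ¬p341 → p1 → p428 → ¬p194 → p240 → ¬p227 → ¬p221 → ¬p91 → p329 → ¬p203 → False := fun n0 n1 n2 n3 n4 n5 n6 n7 n8 n9 n10 n11 n12 n13 =>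
    have u0 : ¬p430 := fun h => c566 n5 h; have u1 : p89 := Classical.byContradiction fun h => c184 h n11; have u2 : p94 := Classical.byContradiction fun h => c71 u1 h; have u3 : p328 := Classical.byContradiction fun h => c660 h u2; have u4 : p333 := Classical.byContradiction fun h => c2200 h n13 u2; have u5 : ¬p330 := fun h => c422 h u3 n12; have u6 : ¬p335 := fun h => c428 h u4 n1; have u7 : ¬p332 := fun h => c425 h u5 n10; have u8 : ¬p336 := fun h => c431 h u6 n9; have u9 : p326 := Classical.byContradiction fun h => c2666 n5 n4 n2 u7 h n7 u8; have u10 : ¬p92 := fun h => c3424 u9 n6 n3 u0 h n0; c3425 n6 u10 n8 n11 u0 n3 n0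
  have c3428 : p73 → ¬p341 → p425 → ¬p345 → p426 → p1 → p334 → p428 → p240 → ¬p227 → ¬p221 → ¬p194 → p329 → ¬p203 → False := fun n0 n1 n2 n3 n4 n5 n6 n7 n8 n9 n10 n11 n12 n13 =>
    have u0 : p69 := Classical.byContradiction fun h => c907 h; have u1 : ¬p430 := fun h => c566 n5 h; have u2 : p91 := Classical.byContradiction fun h => c3426 n0 n6 n3 n4 n1 n5 n7 n11 n8 n9 n10 h n12 n13; have u3 : ¬p89 := fun h => c69 h u2; have u4 : ¬p92 := fun h => c654 u3 h; have u5 : ¬p93 := fun h => c182 u4 h; c3427 n7 u5 n8 n2 u1 u0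
  have c3429 : p1 → ¬p126 → p425 → ¬p345 → p328 → ¬p341 → ¬p94 → ¬p194 → ¬p227 → ¬p221 → p334 → p329 → ¬p72 → False := fun n0 n1 n2 n3 n4 n5 n6 n7 n8 n9 n10 n11 n12 =>
    have u0 : p333 := Classical.byContradiction fun h => c1041 n12 h n4; have u1 : ¬p330 := fun h => c422 h n4 n11; have u2 : ¬p335 := fun h => c428 h u0 n10; have u3 : ¬p332 := fun h => c425 h u1 n9; have u4 : ¬p336 := fun h => c431 h u2 n8; c3019 u4 n0 n1 n2 n3 n5 u3 n6 n7
  have c3435 : p1 → ¬p341 → ¬p227 → ¬p345 → p425 → p50 → p329 → ¬p221 → p14 → p230 → p240 → ¬p72 → ¬p194 → p73 → p239 → ¬p203 → False := fun n0 n1 n2 n3 n4 n5 n6 n7 n8 n9 n10 n11 n12 n13 n14 n15 =>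
    have u0 : p69 := Classical.byContradiction fun h => c907 h; have u1 : p66 := Classical.byContradiction fun h => c263 h; have u2 : p426 := Classical.byContradiction fun h => c1014 h n11; have u3 : ¬p430 := fun h => c566 n0 h; have u4 : p334 := Classical.byContradiction fun h => c1496 h n11 n6 u1; have u5 : ¬p428 := fun h => c3428 n13 n1 n4 n3 u2 n0 u4 h n10 n2 n7 n12 n6 n15; have u6 : p427 := Classical.byContradiction fun h => c564 h u5; have u7 : p91 := Classical.byContradiction fun h => c3405 u6 u3 h n14 u2 n13; have u8 : ¬p89 := fun h => c69 h u7; have u9 : ¬p94 := fun h => c187 u8 h; have u10 : ¬p92 := fun h => c654 u8 h; have u11 : ¬p323 := fun h => c2642 h u6 u3 n4 u9 u0; have u12 : p96 := Classical.byContradiction fun h => c186 u10 h; have u13 : ¬p326 := fun h => c417 h u11; have u14 : ¬p346 := fun h => c770 h u11; have u15 : ¬p349 := fun h => c450 h u14; have u16 : ¬p350 := fun h => c452 h u15; have u17 : ¬p126 := fun h => c3325 n7 u4 n3 n1 n0 u13 n5 u16 h n12 n2 n6; have u18 : ¬p328 := fun h => c3429 n0 u17 n4 n3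 h n1 u9 n12 n2 n7 u4 n6 n11; have u19 : p418 := Classical.byContradiction fun h => c3396 u18 h u12 u6 n14 n4 u3 u0; have u20 : p419 := Classical.byContradiction fun h => c537 h n9 n8 u19; have u21 : ¬p330 := fun h => c540 h u20; have u22 : ¬p332 := fun h => c425 h u21 n7; have u23 : ¬p327 := fun h => c423 u21 h u18; have u24 : p336 := Classical.byContradiction fun h => c3019 h n0 u17 n4 n3 n1 u22 u9 n12; have u25 : ¬p335 := fun h => c427 h u23; c431 u24 u25 n2
  have c3437 : ¬p221 → p22 → p235 → ¬p227 → p14 → ¬p19 → ¬p241 → ¬p26 → ¬p247 → False := fun n0 n1 n2 n3 n4 n5 n6 n7 n8 =>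
    have u0 : p66 := Classical.byContradiction fun h => c263 h; have u1 : p429 := Classical.byContradiction fun h => c1012 h; have u2 : p12 := Classical.byContradiction fun h => c12 h; have u3 : p201 := Classical.byContradiction fun h => c1826 h; have u4 : p65 := Classical.byContradiction fun h => c596 h n4; have u5 : p220 := Classical.byContradiction fun h => c2221 n0 h; have u6 : p226 := Classical.byContradiction fun h => c2041 h u5; have u7 : ¬p205 := fun h => c2040 u5 n5 h; have u8 : ¬p203 := fun h => c268 u7 u3 h; have u9 : ¬p229 := fun h => c300 h u7 n3; have u10 : p73 := Classical.byContradiction fun h => c1932 u5 n7 h; have u11 : p230 := Classical.byContradiction fun h => c1525 h u9 n0; have u12 : ¬p71 := fun h => c56 h u10; have u13 : ¬p107 := fun h => c85 u12 h; have u14 : ¬p72 := fun h => c87 u12 h; have u15 : p263 := Classical.byContradiction fun h => c1289 h u13 u11 u0; have u16 : p426 := Classical.byContradiction fun h => c1014 h u14; have u17 : p86 := Classical.byContradiction fun h => c647 h n2; have u18 : p1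 := Classical.byContradiction fun h => c3182 u14 n8 h n0 n3 n2 u7 u6; have u19 : p237 := Classical.byContradiction fun h => c311 h u11 n4 n2; have u20 : p268 := Classical.byContradiction fun h => c2689 u13 h n2; have u21 : p85 := Classical.byContradiction fun h => c149 h u17; have u22 : ¬p430 := fun h => c566 u18 h; have u23 : ¬p424 := fun h => c1036 u18 h; have u24 : ¬p301 := fun h => c535 h u19; have u25 : p270 := Classical.byContradiction fun h => c360 h u15 n1 u20; have u26 : ¬p88 := fun h => c67 u21 h; have u27 : p82 := Classical.byContradiction fun h => c646 h u21; have u28 : p45 := Classical.byContradiction fun h => c2173 u22 h n7 u16 u1 u2; have u29 : p425 := Classical.byContradiction fun h => c562 u23 h; have u30 : p300 := Classical.byContradiction fun h => c1238 h u24; have u31 : ¬p302 := fun h => c397 h u24 n0; have u32 : p87 := Classical.byContradiction fun h => c66 u27 h; have u33 : ¬p43 := fun h => c32 h u28; have u34 : p29 := Classical.byContradiction fun h => c2650 u14 h u29 u16 u18; have u35 : p304 := Classical.byContradiction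 fun h => c1215 h u14 u30 u0; have u36 : p303 := Classical.byContradiction fun h => c794 h u8 u32; have u37 : ¬p194 := fun h => c259 h u33; have u38 : ¬p46 := fun h => c617 h u33; have u39 : ¬p305 := fun h => c398 h u36 u35; have u40 : p50 := Classical.byContradiction fun h => c181 u38 h; have u41 : ¬p306 := fun h => c399 h u39 n3; have u42 : ¬p0 := fun h => c3375 u18 u19 u26 n3 n0 u12 n5 u11 h u30 n1 u41 u31 n2 u27 u4 u25 u34 u8; have u43 : ¬p341 := fun h => c439 h u42; have u44 : ¬p345 := fun h => c448 h u42; have u45 : p243 := Classical.byContradiction fun h => c2295 u42 h n0 u9; have u46 : p242 := Classical.byContradiction fun h => c320 u45 h; have u47 : p239 := Classical.byContradiction fun h => c317 u46 h; have u48 : p240 := Classical.byContradiction fun h => c318 u46 h n6; have u49 : ¬p329 := fun h => c3435 u18 u43 n3 u44 u29 u40 h n0 n4 u11 u48 u14 u37 u10 u47 u8; c3436 u49 u5 u40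
  have c3440 : p121 → ¬p89 → False := fun n0 n1 =>
    have u0 : ¬p70 := fun h => c937 h; have u1 : p69 := Classical.byContradiction fun h => c907 h; c3439 n0 n1 u0 u1
  have c3441 : p1 → ¬p341 → p278 → p425 → ¬p89 → p14 → ¬p227 → ¬p221 → ¬p72 → ¬p345 → ¬p107 → p232 → p230 → ¬p194 → p73 → p329 → False := fun n0 n1 n2 n3 n4 n5 n6 n7 n8 n9 n10 n11 n12 n13 n14 n15 =>
    have u0 : p66 := Classical.byContradiction fun h => c263 h; have u1 : p334 := Classical.byContradiction fun h => c1496 h n8 n15 u0; have u2 : ¬p94 := fun h => c187 n4 h; have u3 : ¬p121 := fun h => c3440 h n4; have u4 : ¬p126 := fun h => c193 u3 h; have u5 : ¬p328 := fun h => c3429 n0 u4 n3 n9 h n1 u2 n13 n6 n7 u1 n15 n8; have u6 : ¬p327 := fun h => c3016 h u5 n8 n11 n10 n5 n12 n2 n14; have u7 : ¬p330 := fun h => c421 h u6; have u8 : ¬p335 := fun h => c427 h u6; have u9 : ¬p332 := fun h => c425 h u7 n7; have u10 : ¬p336 := fun h => c431 h u8 n6; c3019 u10 n0 u4 n3 n9 n1 u9 u2 n13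
  have c3444 : p431 → ¬p147 → ¬p361 → ¬p52 → ¬p440 → False := fun n0 n1 n2 n3 n4 =>
    have u0 : p435 := Classical.byContradiction fun h => c2894 h n0 n4 n1; c3070 u0 n0 n2 n3 n1 n4
  have c3446 : ¬p449 → ¬p104 → ¬p227 → p143 → p1 → ¬p196 → ¬p221 → p237 → ¬p135 → p293 → ¬p79 → p286 → p30 → ¬p58 → p294 → p13 → p450 → ¬p44 → p381 → p278 → ¬p93 → ¬p72 → ¬p289 → False := fun n0 n1 n2 n3 n4 n5 n6 n7 n8 n9 n10 n11 n12 n13 n14 n15 n16 n17 n18 n19 n20 n21 n22 =>
    have u0 : ¬p448 := fun h => c3314 n0 h n22 n12; c2949 n0 u0 n7 n2 n3 n4 n5 n6 n1 n8 n9 n10 n11 n12 n13 n14 n15 n16 n17 n18 n19 n20 n21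
  have c3457 : ¬p449 → p157 → ¬p289 → ¬p386 → p286 → p30 → False := fun n0 n1 n2 n3 n4 n5 =>
    have u0 : p447 := Classical.byContradiction fun h => c3315 n0 h n5 n2; c3456 n0 u0 n2 n1 n3 n4
  have c3463 : ¬p16 → ¬p289 → p225 → p1 → ¬p227 → ¬p221 → p425 → ¬p71 → p286 → p29 → False := fun n0 n1 n2 n3 n4 n5 n6 n7 n8 n9 =>
    have u0 : p66 := Classical.byContradiction fun h => c263 h; have u1 : p429 := Classical.byContradiction fun h => c1012 h; have u2 : p69 := Classical.byContradiction fun h => c907 h; have u3 : p2 := Classical.byContradiction fun h => c0 h; have u4 : ¬p68 := fun h => c799 h; have u5 : ¬p430 := fun h => c566 n3 h; have u6 : ¬p72 := fun h => c87 n7 h; have u7 : ¬p31 := fun h => c108 n9 h; have u8 : p30 := Classical.byContradiction fun h => c107 n3 n9 h; have u9 : ¬p21 := fun h => c1383 n0 h u0; have u10 : p17 := Classical.byContradiction fun h => c15 n3 n0 h; have u11 : ¬p24 := fun h => c251 u9 h; have u12 : p232 := Classical.byContradiction fun h => c2323 u10 u7 h; have u13 : ¬p27 := fun h => c21 u11 h; have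 u14 : p265 := Classical.byContradiction fun h => c2300 u12 h u4; have u15 : p47 := Classical.byContradiction fun h => c1058 u5 u13 h n6; have u16 : p398 := Classical.byContradiction fun h => c2016 u13 h n9 n3; have u17 : p46 := Classical.byContradiction fun h => c178 h u15; have u18 : p324 := Classical.byContradiction fun h => c2220 h u15; have u19 : p143 := Classical.byContradiction fun h => c708 h u16; have u20 : p400 := Classical.byContradiction fun h => c505 h n8 u8 u16; have u21 : ¬p194 := fun h => c258 h u17; have u22 : p43 := Classical.byContradiction fun h => c617 u17 h; have u23 : ¬p48 := fun h => c33 n3 u17 h; have u24 : p140 := Classical.byContradiction fun h => c709 h u19; have u25 : ¬p340 := fun h => c509 h u20; have u26 : p49 := Classical.byContradiction fun h => c34 u22 h; have u27 : p337 := Classical.byContradiction fun h => c879 h u23 u3; have u28 : p342 := Classical.byContradiction fun h => c1473 h u24 n1; have u29 : ¬p341 := fun h => c440 h u25; have u30 : p328 := Classical.byContradiction fun h => c1313 h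 u26 n2 u2; have u31 : p339 := Classical.byContradiction fun h => c438 u25 u27 u23 h; have u32 : p333 := Classical.byContradiction fun h => c1041 u6 h u30; have u33 : p123 := Classical.byContradiction fun h => c909 u14 h u31; have u34 : ¬p121 := fun h => c101 h u33; have u35 : ¬p89 := fun h => c2384 u33 n7 h; have u36 : ¬p126 := fun h => c193 u34 h; have u37 : p329 := Classical.byContradiction fun h => c1378 h u34 n7; have u38 : ¬p94 := fun h => c187 u35 h; have u39 : p325 := Classical.byContradiction fun h => c1162 h u5 u36 n6 u1; have u40 : p334 := Classical.byContradiction fun h => c1496 h u6 u37 u0; have u41 : ¬p330 := fun h => c422 h u30 u37; have u42 : p345 := Classical.byContradiction fun h => c3429 n3 u36 n6 h u30 u29 u38 u21 n4 n5 u40 u37 u6; have u43 : ¬p326 := fun h => c418 h u18 u39; have u44 : ¬p335 := fun h => c428 h u32 u40; have u45 : ¬p332 := fun h => c425 h u41 n5; have u46 : p344 := Classical.byContradiction fun h => c449 u42 h; have u47 : ¬p336 := fun h => c431 h u44 n4; have u48 : p136 := Classical.byContradiction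 fun h => c2347 n3 u46 h n8 n1 u31; have u49 : p135 := Classical.byContradiction fun h => c2974 u45 u43 h u31 u28 u47 u21 n3; have u50 : ¬p134 := fun h => c125 h u48; c161 u50 u49
  have c3466 : ¬p404 → p385 → ¬p134 → ¬p79 → p0 → ¬p295 → ¬p452 → p278 → ¬p227 → ¬p292 → ¬p221 → p450 → p279 → ¬p386 → p384 → ¬p72 → False := fun n0 n1 n2 n3 n4 n5 n6 n7 n8 n9 n10 n11 n12 n13 n14 n15 =>
    have u0 : p132 := Classical.byContradiction fun h => c1291 h; have u1 : p66 := Classical.byContradiction fun h => c263 h; have u2 : p283 := Classical.byContradiction fun h => c2634 h n15 n12 u1; have u3 : p282 := Classical.byContradiction fun h => c970 n15 h n7; have u4 : p442 := Classical.byContradiction fun h => c2464 h n1 n7 n14; have u5 : ¬p284 := fun h => c374 h u3 u2; have u6 : p297 := Classical.byContradiction fun h => c1794 u5 n10 h n9 n8 n4 n12; have u7 : p296 := Classical.byContradiction fun h => c392 u6 h; have u8 : p293 := Classical.byContradiction fun h => c388 u7 h; have u9 : p294 := Classical.byContradiction fun h => c389 u7 h n5;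 have u10 : ¬p444 := fun h => c2995 n0 n11 n2 n13 n3 u4 u8 h n6 u0; have u11 : ¬p445 := fun h => c2971 u4 h n2 n3 u9 n11 n13 n0 n6 u0; c575 u10 u11
  have c3479 : p385 → p263 → ¬p243 → ¬p134 → ¬p79 → p277 → p22 → ¬p295 → ¬p452 → p450 → ¬p227 → ¬p292 → ¬p221 → ¬p386 → p279 → ¬p404 → p384 → ¬p72 → ¬p229 → ¬p235 → False := fun n0 n1 n2 n3 n4 n5 n6 n7 n8 n9 n10 n11 n12 n13 n14 n15 n16 n17 n18 n19 =>
    have u0 : p69 := Classical.byContradiction fun h => c907 h; have u1 : ¬p68 := fun h => c799 h; have u2 : ¬p202 := fun h => c265 h; have u3 : ¬p224 := fun h => c293 h u2 n12; have u4 : p0 := Classical.byContradiction fun h => c2295 h n2 n12 n18; have u5 : p232 := Classical.byContradiction fun h => c2293 n18 n12 n2 n19 u3 h; have u6 : ¬p278 := fun h => c3466 n15 n0 n3 n4 u4 n7 n8 h n10 n11 n12 n9 n14 n13 n16 n17; have u7 : p265 := Classical.byContradiction fun h => c2300 u5 h u1; have u8 : ¬p282 := fun h => c1085 u6 h u0; have u9 : p266 := Classical.byContradiction fun h => c352 h n1 n6 u7; have u10 : p284 := Classical.byContradiction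 fun h => c375 h n5 u8; c550 u10 u9
  have c3485 : p427 → ¬p74 → ¬p232 → ¬p399 → p239 → ¬p338 → p425 → ¬p430 → False := fun n0 n1 n2 n3 n4 n5 n6 n7 =>
    have u0 : p69 := Classical.byContradiction fun h => c907 h; c3484 n0 n1 n2 n3 n4 n5 n6 n7 u0
  have c3486 : ¬p74 → ¬p93 → p1 → p425 → p14 → ¬p194 → ¬p221 → p329 → ¬p72 → p50 → p73 → ¬p232 → p30 → p286 → ¬p227 → ¬p338 → p239 → ¬p241 → ¬p229 → ¬p235 → False := fun n0 n1 n2 n3 n4 n5 n6 n7 n8 n9 n10 n11 n12 n13 n14 n15 n16 n17 n18 n19 =>
    have u0 : ¬p133 := fun h => c1436 h; have u1 : p69 := Classical.byContradiction fun h => c907 h; have u2 : ¬p202 := fun h => c265 h; have u3 : ¬p430 := fun h => c566 n2 h; have u4 : ¬p224 := fun h => c293 h u2 n6; have u5 : p307 := Classical.byContradiction fun h => c2451 h n13 u0; have u6 : ¬p203 := fun h => c631 n8 h; have u7 : p230 := Classical.byContradiction fun h => c1525 h n18 n6; have u8 : p243 := Classical.byContradiction fun h => c2293 n18 n6 h n19 u4 n11; have u9 : p242 := Classical.byContradiction fun h => c320 u8 h; have u10 :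 p240 := Classical.byContradiction fun h => c318 u9 h n17; have u11 : ¬p428 := fun h => c3427 h n1 u10 n3 u3 u1; have u12 : p427 := Classical.byContradiction fun h => c564 h u11; have u13 : p399 := Classical.byContradiction fun h => c3485 u12 n0 n11 h n16 n15 n3 u3; have u14 : p400 := Classical.byContradiction fun h => c506 h n13 n12 u13; have u15 : p408 := Classical.byContradiction fun h => c3473 u13 h u0; have u16 : ¬p340 := fun h => c509 h u14; have u17 : p409 := Classical.byContradiction fun h => c1061 u15 h n2 u5; have u18 : ¬p341 := fun h => c440 h u16; have u19 : ¬p344 := fun h => c522 h u17; have u20 : p345 := Classical.byContradiction fun h => c3435 n2 u18 n14 h n3 n9 n7 n6 n4 u7 u10 n8 n5 n10 n16 u6; c449 u20 u19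
  have c3492 : p232 → p339 → p1 → p278 → p338 → ¬p227 → ¬p221 → p425 → p14 → p230 → ¬p194 → p329 → ¬p71 → ¬p345 → False := fun n0 n1 n2 n3 n4 n5 n6 n7 n8 n9 n10 n11 n12 n13 =>
    have u0 : ¬p68 := fun h => c799 h; have u1 : ¬p107 := fun h => c85 n12 h; have u2 : ¬p72 := fun h => c87 n12 h; have u3 : p73 := Classical.byContradiction fun h => c88 n12 h; have u4 : p265 := Classical.byContradiction fun h => c2300 n0 h u0; have u5 : ¬p340 := fun h => c435 h n4 n1; have u6 : p123 := Classical.byContradiction fun h => c909 u4 h n1; have u7 : ¬p341 := fun h => c440 h u5; have u8 : ¬p89 := fun h => c2384 u6 n12 h; c3441 n2 u7 n3 n7 u8 n8 n5 n6 u2 n13 u1 n0 n9 n10 u3 n11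
  have c3500 : p448 → ¬p386 → p296 → ¬p79 → ¬p295 → ¬p58 → ¬p452 → p442 → p449 → ¬p404 → False := fun n0 n1 n2 n3 n4 n5 n6 n7 n8 n9 =>
    have u0 : p132 := Classical.byContradiction fun h => c1291 h; have u1 : p293 := Classical.byContradiction fun h => c388 n2 h; have u2 : p294 := Classical.byContradiction fun h => c389 n2 h n4; have u3 : ¬p444 := fun h => c3451 h n1 u1 n7 n9 n3 n8 n6 u0; have u4 : p445 := Classical.byContradiction fun h => c575 u3 h; c3499 n0 n9 u2 u4 n3 n7 n5 n6
  have c3501 : ¬p0 → p329 → ¬p227 → p1 → p425 → p50 → p239 → ¬p221 → p14 → ¬p72 → ¬p194 → p73 → ¬p241 → ¬p229 → False := fun n0 n1 n2 n3 n4 n5 n6 n7 n8 n9 n10 n11 n12 n13 =>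
    have u0 : ¬p203 := fun h => c631 n9 h; have u1 : p230 := Classical.byContradiction fun h => c1525 h n13 n7; have u2 : ¬p341 := fun h => c439 h n0; have u3 : ¬p345 := fun h => c448 h n0; have u4 : p243 := Classical.byContradiction fun h => c2295 n0 h n7 n13; have u5 : ¬p240 := fun h => c3435 n3 u2 n2 u3 n4 n5 n1 n7 n8 u1 h n9 n10 n11 n6 u0; have u6 : p242 := Classical.byContradiction fun h => c320 u4 h; c318 u6 u5 n12
  have c3502 : p448 → ¬p404 → ¬p295 → p0 → ¬p79 → ¬p386 → ¬p58 → ¬p452 → p449 → p384 → p266 → p277 → ¬p292 → ¬p264 → ¬p221 → p246 → ¬p227 → p385 → False := fun n0 n1 n2 n3 n4 n5 n6 n7 n8 n9 n10 n11 n12 n13 n14 n15 n16 n17 =>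
    have u0 : p69 := Classical.byContradiction fun h => c907 h; have u1 : ¬p284 := fun h => c550 h n10; have u2 : p297 := Classical.byContradiction fun h => c1920 n10 n14 n15 h n3 n13 n16 n11 n12; have u3 : p282 := Classical.byContradiction fun h => c375 u1 n11 h; have u4 : p296 := Classical.byContradiction fun h => c392 u2 h; have u5 : p278 := Classical.byContradiction fun h => c1085 h u3 u0; have u6 : ¬p442 := fun h => c3500 n0 n5 u4 n4 n2 n6 n7 h n8 n1; c2464 u6 n17 u5 n9
  have c3505 : ¬p0 → p329 → p1 → p425 → ¬p227 → p50 → ¬p221 → p14 → ¬p72 → ¬p194 → p73 → ¬p241 → ¬p229 → False := fun n0 n1 n2 n3 n4 n5 n6 n7 n8 n9 n10 n11 n12 =>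
    have u0 : p243 := Classical.byContradiction fun h => c2295 n0 h n6 n12; have u1 : ¬p239 := fun h => c3501 n0 n1 n4 n2 n3 n5 h n6 n7 n8 n9 n10 n11 n12; have u2 : p242 := Classical.byContradiction fun h => c320 u0 h; c317 u2 u1
  have c3507 : ¬p450 → ¬p448 → p286 → False := fun n0 n1 n2 =>
    have u0 : ¬p133 := fun h => c1436 h; have u1 : ¬p447 := fun h => c3497 h n0 n2 u0; c578 u1 n1 n0
  have c3512 : ¬p361 → ¬p79 → p91 → p278 → ¬p221 → p233 → p286 → p30 → ¬p227 → p293 → p14 → ¬p19 → ¬p71 → p56 → p1 → False := fun n0 n1 n2 n3 n4 n5 n6 n7 n8 n9 n10 n11 n12 n13 n14 =>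
    have u0 : ¬p190 := fun h => c254 h; have u1 : p12 := Classical.byContradiction fun h => c12 h; have u2 : ¬p70 := fun h => c937 h; have u3 : p69 := Classical.byContradiction fun h => c907 h; have u4 : p8 := Classical.byContradiction fun h => c7 h; have u5 : ¬p440 := fun h => c572 n14 h; have u6 : p220 := Classical.byContradiction fun h => c2221 n4 h; have u7 : ¬p72 := fun h => c87 n12 h; have u8 : ¬p363 := fun h => c461 h n0; have u9 : ¬p366 := fun h => c467 h n0; have u10 : p148 := Classical.byContradiction fun h => c2854 n0 h n6; have u11 : p98 := Classical.byContradiction fun h => c3217 h n0 n2 u4; have u12 : ¬p364 := fun h => c466 h u8; have u13 : ¬p367 := fun h => c469 h u9; have u14 : ¬p146 := fun h => c133 h u10; have u15 : ¬p97 := fun h => c74 h u11; have u16 : ¬p147 := fun h => c217 u14 h; have u17 : ¬p99 := fun h => c213 u15 h; have u18 : ¬p52 := fun h => c3179 h u16 n7; have u19 : ¬p128 := fun h => c3215 h u17 n13 u6 u2 u3; have u20 : ¬p431 := fun h => c3444 h u16 n0 u18 u5; have u21 : p129 := Classical.byContradiction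 fun h => c214 u19 h; have u22 : ¬p51 := fun h => c2737 h u19 n10 n11 n12 u0 u1; have u23 : p432 := Classical.byContradiction fun h => c567 u20 h; have u24 : p358 := Classical.byContradiction fun h => c696 h u21; have u25 : ¬p195 := fun h => c260 h u22; c3069 u17 u24 n14 u12 u20 n1 n3 u7 u25 u23 n4 n5 n6 n7 n0 n8 u13 n9 u16
  have c3514 : p365 → ¬p147 → p135 → False := fun n0 n1 n2 =>
    c3513 n0 n1 n2
  have c3516 : p361 → ¬p147 → p307 → p37 → ¬p309 → p135 → p30 → False := fun n0 n1 n2 n3 n4 n5 n6 =>
    have u0 : ¬p146 := fun h => c132 h n1; have u1 : ¬p52 := fun h => c3179 h n1 n6; have u2 : p148 := Classical.byContradiction fun h => c218 u0 h; have u3 : ¬p365 := fun h => c3514 h n1 n5; have u4 : p366 := Classical.byContradiction fun h => c468 h n0 u1 u3; have u5 : ¬p411 := fun h => c525 u4 h; have u6 : ¬p410 := fun h => c524 u5 n2 n3 h; c3515 u6 u2 n4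
  have c3566 : p438 → ¬p150 → ¬p148 → p434 → p432 → ¬p440 → p293 → ¬p79 → False := fun n0 n1 n2 n3 n4 n5 n6 n7 =>
    c3565 n0 n1 n2 n3 n4 n5 n6 n7
  have c3568 : ¬p150 → p434 → ¬p148 → p432 → ¬p440 → p293 → ¬p79 → ¬p437 → False := fun n0 n1 n2 n3 n4 n5 n6 n7 =>
    have u0 : ¬p192 := fun h => c256 h; have u1 : p286 := Classical.byContradiction fun h => c2385 n5 h u0; have u2 : ¬p438 := fun h => c3566 h n0 n2 n1 n3 n4 n5 n6; have u3 : p436 := Classical.byContradiction fun h => c570 h n7 u2; c3567 u3 n0 n2 n1 n3 n4 u1 n5 n6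
  have c3571 : p265 → ¬p44 → ¬p91 → ¬p340 → ¬p71 → p230 → False := fun n0 n1 n2 n3 n4 n5 =>
    have u0 : p89 := Classical.byContradiction fun h => c184 h n2; have u1 : p337 := Classical.byContradiction fun h => c3321 h n2 n5; have u2 : ¬p123 := fun h => c2384 h n4 u0; have u3 : p339 := Classical.byContradiction fun h => c436 n3 u1 n1 h; c909 n0 u2 u3
  have c3572 : p1 → p398 → p265 → ¬p136 → ¬p44 → p425 → p286 → ¬p194 → ¬p289 → p230 → ¬p221 → p329 → ¬p72 → p278 → p30 → False := fun n0 n1 n2 n3 n4 n5 n6 n7 n8 n9 n10 n11 n12 n13 n14 =>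
    have u0 : ¬p70 := fun h => c937 h; have u1 : p69 := Classical.byContradiction fun h => c907 h; have u2 : p66 := Classical.byContradiction fun h => c263 h; have u3 : ¬p227 := fun h => c3137 h n3 n10; have u4 : ¬p71 := fun h => c55 h n12; have u5 : p334 := Classical.byContradiction fun h => c1496 h n12 n11 u2; have u6 : p143 := Classical.byContradiction fun h => c708 h n1; have u7 : p400 := Classical.byContradiction fun h => c505 h n6 n14 n1; have u8 : p142 := Classical.byContradiction fun h => c194 h u6; have u9 : ¬p340 := fun h => c509 h u7; have u10 : p139 := Classical.byContradiction fun h => c707 h u8; have u11 : p145 := Classical.byContradiction fun h => c131 u10 h; have u12 : p328 := Classical.byContradiction fun h => c1584 h u11 n13; have u13 : p333 := Classical.byContradiction fun h => c1041 n12 h u12; have u14 : ¬p330 := fun h => c422 h u12 n11; have u15 : ¬p335 := fun h => c428 h u13 u5; have u16 : ¬p332 := fun h => c425 h u14 n10; have u17 : ¬p336 := fun h => c431 h u15 u3; have u18 : p91 := Classical.byContradiction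 fun h => c3571 n2 n4 h u9 u4 n9; have u19 : ¬p89 := fun h => c69 h u18; have u20 : ¬p94 := fun h => c187 u19 h; have u21 : ¬p121 := fun h => c3439 h u19 u0 u1; have u22 : p126 := Classical.byContradiction fun h => c3020 n0 u9 n3 n6 n4 n8 n5 u17 h u20 u16 n7; c193 u21 u22
  have c3575 : ¬p309 → ¬p72 → ¬p1 → p0 → ¬p221 → p135 → ¬p247 → ¬p276 → p277 → p263 → p307 → p279 → ¬p205 → False := fun n0 n1 n2 n3 n4 n5 n6 n7 n8 n9 n10 n11 n12 =>
    have u0 : p137 := Classical.byContradiction fun h => c889 h; have u1 : p69 := Classical.byContradiction fun h => c907 h; have u2 : ¬p136 := fun h => c704 n0 h; have u3 : p220 := Classical.byContradiction fun h => c2221 n4 h; have u4 : ¬p227 := fun h => c3137 h u2 n4; have u5 : p226 := Classical.byContradiction fun h => c2041 h u3; have u6 : ¬p71 := fun h => c55 h n1; have u7 : ¬p261 := fun h => c346 h n6 n4; have u8 : ¬p297 := fun h => c391 h n2; have u9 : ¬p318 := fun h => c411 h n2; have u10 : ¬p235 := fun h => c3182 n1 n6 n2 n4 u4 h n12 u5; have u11 : ¬p310 := fun h => c1489 h n4 n7 u4 n11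 u7 u8 n3; have u12 : p265 := Classical.byContradiction fun h => c1530 u6 h n7 n5 u7 u10 u4 u2; have u13 : ¬p311 := fun h => c405 h u11; have u14 : ¬p41 := fun h => c404 u11 n10 h n0; have u15 : p266 := Classical.byContradiction fun h => c3172 u12 n9 h n7 u4 u7; have u16 : ¬p284 := fun h => c550 h u15; have u17 : p282 := Classical.byContradiction fun h => c375 u16 n8 h; have u18 : p278 := Classical.byContradiction fun h => c1085 h u17 u1; have u19 : p299 := Classical.byContradiction fun h => c1099 h u18 u0; have u20 : p303 := Classical.byContradiction fun h => c1095 h n1 u19; have u21 : p301 := Classical.byContradiction fun h => c1675 n1 u13 u9 u20 n3 h n4 u5; have u22 : ¬p237 := fun h => c535 u21 h; have u23 : ¬p300 := fun h => c394 u21 u19 h; have u24 : ¬p238 := fun h => c316 h u22; have u25 : ¬p88 := fun h => c653 u23 h; have u26 : p42 := Classical.byContradiction fun h => c3175 u23 u3 h; have u27 : p234 := Classical.byContradiction fun h => c1053 n1 h n2 u5 u24 n12; have u28 : p85 := Classical.byContradiction fun h => c153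 h u25; have u29 : ¬p39 := fun h => c147 h u26; have u30 : p233 := Classical.byContradiction fun h => c307 u27 h; have u31 : p82 := Classical.byContradiction fun h => c646 h u28; have u32 : ¬p40 := fun h => c28 u29 h; have u33 : ¬p84 := fun h => c64 u31 h; have u34 : ¬p14 := fun h => c3177 u32 u10 h; have u35 : p17 := Classical.byContradiction fun h => c303 u30 u34 h; c3574 u35 u14 u33
  have c3579 : ¬p221 → p279 → p72 → ¬p227 → p277 → ¬p297 → ¬p243 → ¬p318 → p0 → ¬p276 → p87 → ¬p79 → False := fun n0 n1 n2 n3 n4 n5 n6 n7 n8 n9 n10 n11 =>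
    have u0 : ¬p202 := fun h => c265 h; have u1 : ¬p224 := fun h => c293 h u0 n0; have u2 : p220 := Classical.byContradiction fun h => c2221 n0 h; have u3 : p71 := Classical.byContradiction fun h => c87 h n2; have u4 : ¬p282 := fun h => c1858 h n11 n2; have u5 : ¬p73 := fun h => c56 u3 h; have u6 : p284 := Classical.byContradiction fun h => c375 h n4 u4; have u7 : p26 := Classical.byContradiction fun h => c1932 u2 h u5; have u8 : ¬p266 := fun h => c550 u6 h; have u9 : ¬p21 := fun h => c84 h u7; have u10 : ¬p22 := fun h => c18 u9 h; have u11 : ¬p24 := fun h => c251 u9 h; have u12 : ¬p27 := fun h => c21 u11 h; have u13 : ¬p13 := fun h => c2048 u12 u2 h; have u14 : ¬p14 := fun h => c13 u13 h; have u15 : ¬p16 := fun h => c250 u13 h; have u16 : ¬p20 := fun h => c17 u15 h; have u17 : ¬p225 := fun h => c814 u16 h n2; have u18 : ¬p218 := fun h => c297 n3 h u17; have u19 : ¬p232 := fun h => c3185 h u8 u18; have u20 : ¬p205 := fun h => c3189 u18 n1 h n5 n8 n0 n3 n2 n9 u5 u10; have u21 : ¬p235 := fun h => c3193 u18 n1 n10 n3 h n0 n5 n7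 u5 u14 n6 n8 n2 n9 u10; have u22 : ¬p229 := fun h => c300 h u20 n3; c2293 u22 n0 n6 u21 u1 u19
  have c3580 : ¬p309 → ¬p72 → ¬p1 → ¬p221 → p0 → p135 → p277 → p307 → p279 → ¬p227 → False := fun n0 n1 n2 n3 n4 n5 n6 n7 n8 n9 =>
    have u0 : p66 := Classical.byContradiction fun h => c263 h; have u1 : p245 := Classical.byContradiction fun h => c1814 h; have u2 : ¬p204 := fun h => c938 h; have u3 : ¬p276 := fun h => c366 h n2; have u4 : ¬p71 := fun h => c55 h n1; have u5 : ¬p203 := fun h => c631 n1 h; have u6 : ¬p107 := fun h => c85 u4 h; have u7 : p73 := Classical.byContradiction fun h => c88 u4 h; have u8 : ¬p205 := fun h => c267 h u5 u2; have u9 : p246 := Classical.byContradiction fun h => c636 u7 h; have u10 : ¬p229 := fun h => c300 h u8 n9; have u11 : ¬p247 := fun h => c323 h u1 u9; have u12 : p230 := Classical.byContradiction fun h => c1525 h u10 n3; have u13 : ¬p263 := fun h => c3575 n0 n1 n2 n4 n3 n5 u11 u3 n6 h n7 n8 u8; c1289 u13 u6 u12 u0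
  have c3582 : ¬p79 → p279 → p72 → ¬p243 → ¬p297 → ¬p221 → p0 → ¬p276 → ¬p318 → ¬p227 → False := fun n0 n1 n2 n3 n4 n5 n6 n7 n8 n9 =>
    have u0 : ¬p202 := fun h => c265 h; have u1 : ¬p224 := fun h => c293 h u0 n5; have u2 : p220 := Classical.byContradiction fun h => c2221 n5 h; have u3 : p71 := Classical.byContradiction fun h => c87 h n2; have u4 : ¬p282 := fun h => c1858 h n0 n2; have u5 : ¬p73 := fun h => c56 u3 h; have u6 : p284 := Classical.byContradiction fun h => c2532 h u4 n5 n9 n6 n1; have u7 : p26 := Classical.byContradiction fun h => c1932 u2 h u5; have u8 : p277 := Classical.byContradiction fun h => c373 u6 h; have u9 : ¬p266 := fun h => c550 u6 h; have u10 : ¬p21 := fun h => c84 h u7; have u11 : ¬p87 := fun h => c3579 n5 n1 n2 n9 u8 n4 n3 n8 n6 n7 h n0; have u12 : ¬p22 := fun h => c18 u10 h; have u13 : ¬p24 := fun h => c251 u10 h; have u14 : ¬p82 := fun h => c66 h u11; have u15 : ¬p27 := fun h => c21 u13 h; have u16 : ¬p85 := fun h => c646 u14 h; have u17 : ¬p13 := fun h => c2048 u15 u2 h; have u18 : ¬p86 := fun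 h => c149 u16 h; have u19 : ¬p16 := fun h => c250 u17 h; have u20 : ¬p235 := fun h => c647 u18 h; have u21 : ¬p20 := fun h => c17 u19 h; have u22 : ¬p225 := fun h => c814 u21 h n2; have u23 : ¬p218 := fun h => c297 n9 h u22; have u24 : ¬p232 := fun h => c3185 h u9 u23; have u25 : ¬p205 := fun h => c3189 u23 n1 h n4 n6 n5 n9 n2 n7 u5 u12; have u26 : p229 := Classical.byContradiction fun h => c2293 h n5 n3 u20 u1 u24; c300 u26 u25 n9
  have c3583 : ¬p309 → ¬p221 → p279 → ¬p1 → p135 → p226 → ¬p243 → ¬p297 → ¬p79 → False := fun n0 n1 n2 n3 n4 n5 n6 n7 n8 =>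
    have u0 : ¬p133 := fun h => c1436 h; have u1 : ¬p192 := fun h => c256 h; have u2 : p66 := Classical.byContradiction fun h => c263 h; have u3 : p245 := Classical.byContradiction fun h => c1814 h; have u4 : ¬p204 := fun h => c938 h; have u5 : ¬p136 := fun h => c704 n0 h; have u6 : ¬p227 := fun h => c3137 h u5 n1; have u7 : ¬p216 := fun h => c285 h n3; have u8 : ¬p259 := fun h => c342 h n3; have u9 : ¬p276 := fun h => c366 h n3; have u10 : ¬p318 := fun h => c411 h n3; have u11 : p0 := Classical.byContradiction fun h => c785 h u7 u8; have u12 : ¬p72 := fun h => c3582 n8 n2 h n6 n7 n1 u11 u9 u10 u6; have u13 : ¬p71 := fun h => c55 h u12; have u14 : ¬p203 := fun h => c631 u12 h; have u15 : ¬p107 := fun h => c85 u13 h; have u16 : p73 := Classical.byContradiction fun h => c88 u13 h; have u17 : ¬p205 := fun h => c267 h u14 u4; have u18 : p246 := Classical.byContradiction fun h => c636 u16 h; have u19 : ¬p229 := fun h => c300 h u17 u6; have u20 : ¬p247 := fun h => c323 h u3 u18; have u21 : p230 := Classical.byContradiction fun h =>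 c1525 h u19 n1; have u22 : ¬p261 := fun h => c346 h u20 n1; have u23 : ¬p235 := fun h => c3182 u12 u20 n3 n1 u6 h u17 n5; have u24 : p263 := Classical.byContradiction fun h => c1289 h u15 u21 u2; have u25 : p265 := Classical.byContradiction fun h => c1530 u13 h u9 n4 u22 u23 u6 u5; have u26 : p266 := Classical.byContradiction fun h => c3172 u25 u24 h u9 u6 u22; have u27 : ¬p284 := fun h => c550 h u26; have u28 : p286 := Classical.byContradiction fun h => c2389 u27 h u11 u6 n2 n1; have u29 : p277 := Classical.byContradiction fun h => c2387 h u28 u1; have u30 : p307 := Classical.byContradiction fun h => c2451 h u28 u0; c3580 n0 u12 n3 n1 u11 n4 u29 u30 n2 u6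
  have c3586 : p76 → ¬p416 → ¬p208 → p414 → False := fun n0 n1 n2 n3 =>
    have u0 : p201 := Classical.byContradiction fun h => c1826 h; have u1 : ¬p190 := fun h => c254 h; have u2 : p14 := Classical.byContradiction fun h => c595 h n3; have u3 : ¬p230 := fun h => c532 n1 h n3; have u4 : ¬p197 := fun h => c2394 h u2 u1; have u5 : ¬p217 := fun h => c2155 u3 h u0; have u6 : p207 := Classical.byContradiction fun h => c271 n2 u0 u4 h; c2310 n0 u5 u6
  have c3590 : p76 → ¬p72 → p221 → False := fun n0 n1 n2 =>
    have u0 : p69 := Classical.byContradiction fun h => c907 h; have u1 : p12 := Classical.byContradiction fun h => c12 h; have u2 : ¬p190 := fun h => c254 h; have u3 : p201 := Classical.byContradiction fun h => c1826 h; have u4 : p245 := Classical.byContradiction fun h => c1814 h; have u5 : ¬p204 := fun h => c938 h; have u6 : ¬p208 := fun h => c543 h n2; have u7 : ¬p71 := fun h => c55 h n1; have u8 : ¬p203 := fun h => c631 n1 h; have u9 : p426 := Classical.byContradiction fun h => c1014 h n1; have u10 : p73 := Classical.byContradiction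 fun h => c88 u7 h; have u11 : p227 := Classical.byContradiction fun h => c1589 u7 h n2; have u12 : ¬p205 := fun h => c267 h u8 u5; have u13 : p246 := Classical.byContradiction fun h => c636 u10 h; have u14 : p216 := Classical.byContradiction fun h => c886 u12 n2 h; have u15 : ¬p247 := fun h => c323 h u4 u13; have u16 : p1 := Classical.byContradiction fun h => c285 u14 h; have u17 : p215 := Classical.byContradiction fun h => c286 u14 h; have u18 : p259 := Classical.byContradiction fun h => c2541 u11 u15 h; have u19 : ¬p424 := fun h => c1036 u16 h; have u20 : ¬p416 := fun h => c534 u16 n2 h; have u21 : p207 := Classical.byContradiction fun h => c1614 h u17 u6 u3; have u22 : p258 := Classical.byContradiction fun h => c343 u18 h; have u23 : p425 := Classical.byContradiction fun h => c562 u19 h; have u24 : ¬p414 := fun h => c3586 n0 u20 u6 h; have u25 : ¬p232 := fun h => c2264 h u21 u2; have u26 : p217 := Classical.byContradiction fun h => c2310 n0 h u21; have u27 : p29 := Classical.byContradiction fun h => c2650 n1 h u23 u9 u16;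 have u28 : p256 := Classical.byContradiction fun h => c2398 h u24 u26 u0; have u29 : ¬p31 := fun h => c108 u27 h; have u30 : ¬p257 := fun h => c341 u22 u28 h; have u31 : ¬p17 := fun h => c2323 h u29 u25; have u32 : p19 := Classical.byContradiction fun h => c2396 u30 u7 h u0 u1; have u33 : p16 := Classical.byContradiction fun h => c15 u16 h u31; have u34 : ¬p13 := fun h => c50 h u32; c250 u34 u33
  have c3595 : p232 → p398 → ¬p44 → p425 → p14 → p1 → ¬p194 → ¬p227 → ¬p221 → ¬p72 → ¬p135 → p230 → p278 → p329 → p286 → p30 → False := fun n0 n1 n2 n3 n4 n5 n6 n7 n8 n9 n10 n11 n12 n13 n14 n15 =>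
    have u0 : p131 := Classical.byContradiction fun h => c264 h; have u1 : ¬p68 := fun h => c799 h; have u2 : ¬p71 := fun h => c55 h n9; have u3 : ¬p107 := fun h => c85 u2 h; have u4 : p73 := Classical.byContradiction fun h => c88 u2 h; have u5 : ¬p289 := fun h => c699 h n10; have u6 : p265 := Classical.byContradiction fun h => c2300 n0 h u1; have u7 : p143 := Classical.byContradiction fun h => c708 h n1; have u8 : p400 := Classical.byContradiction fun h => c505 h n14 n15 n1; have u9 : p140 := Classical.byContradiction fun h => c709 h u7; have u10 : ¬p340 := fun h => c509 h u8; have u11 : p342 := Classical.byContradiction fun h => c1473 h u9 u5; have u12 : ¬p341 := fun h => c440 h u10; have u13 : p91 := Classical.byContradiction fun h => c3571 u6 n2 h u10 u2 n11; have u14 : ¬p89 := fun h => c69 h u13; have u15 : p345 := Classical.byContradiction fun h => c3441 n5 u12 n12 n3 u14 n4 n7 n8 n9 h u3 n0 n11 n6 u4 n13; have u16 : p344 := Classical.byContradiction fun h => c449 u15 h; have u17 : p337 := Classical.byContradiction fun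 h => c441 u16 h; have u18 : ¬p343 := fun h => c443 u16 u11 h; have u19 : p339 := Classical.byContradiction fun h => c436 u10 u17 n2 h; c2973 u18 u19 n10 u0
  have c3596 : ¬p79 → ¬p126 → p293 → p425 → ¬p135 → p294 → ¬p89 → p1 → p307 → ¬p44 → p14 → ¬p194 → ¬p227 → ¬p221 → ¬p72 → ¬p340 → ¬p107 → p232 → p230 → p278 → p73 → p329 → False := fun n0 n1 n2 n3 n4 n5 n6 n7 n8 n9 n10 n11 n12 n13 n14 n15 n16 n17 n18 n19 n20 n21 =>
    have u0 : p69 := Classical.byContradiction fun h => c907 h; have u1 : ¬p133 := fun h => c1436 h; have u2 : p131 := Classical.byContradiction fun h => c264 h; have u3 : ¬p430 := fun h => c566 n7 h; have u4 : ¬p289 := fun h => c699 h n4; have u5 : ¬p341 := fun h => c440 h n15; have u6 : p345 := Classical.byContradiction fun h => c3441 n7 u5 n19 n3 n6 n10 n12 n13 n14 h n16 n17 n18 n11 n20 n21; have u7 : p344 := Classical.byContradiction fun h => c449 u6 h; have u8 : p337 := Classical.byContradiction fun h => c441 u7 h; have u9 : ¬p409 := fun h => c522 u7 h; have u10 : p339 := Classical.byContradiction fun h =>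 c436 n15 u8 n9 h; have u11 : ¬p408 := fun h => c1061 h u9 n7 n8; have u12 : p343 := Classical.byContradiction fun h => c2973 h u10 n4 u2; have u13 : ¬p399 := fun h => c3473 h u11 u1; have u14 : ¬p342 := fun h => c443 u7 h u12; have u15 : ¬p165 := fun h => c735 u14 h; have u16 : ¬p338 := fun h => c1740 u14 n4 h; have u17 : ¬p143 := fun h => c3025 u15 h u4; have u18 : ¬p427 := fun h => c3487 h n2 u16 u13 n0 n3 u3 u0; have u19 : ¬p142 := fun h => c129 h u17; have u20 : p428 := Classical.byContradiction fun h => c564 u18 h; have u21 : p182 := Classical.byContradiction fun h => c199 u19 h; have u22 : p324 := Classical.byContradiction fun h => c3018 h u20 n1 n3 u3; c3490 n5 u16 u13 u21 u22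
  have c3597 : ¬p79 → ¬p126 → p294 → ¬p399 → p425 → ¬p430 → p293 → ¬p338 → False := fun n0 n1 n2 n3 n4 n5 n6 n7 =>
    have u0 : p69 := Classical.byContradiction fun h => c907 h; have u1 : ¬p140 := fun h => c710 n7 h; have u2 : ¬p427 := fun h => c3487 h n6 n7 n3 n0 n4 n5 u0; have u3 : ¬p139 := fun h => c128 h u1; have u4 : p428 := Classical.byContradiction fun h => c564 u2 h; have u5 : ¬p142 := fun h => c707 u3 h; have u6 : p324 := Classical.byContradiction fun h => c3018 h u4 n1 n4 n5; have u7 : p182 := Classical.byContradiction fun h => c199 u5 h; c3490 n2 n7 n3 u7 u6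
  have c3604 : ¬p404 → p59 → p294 → p296 → p309 → p1 → ¬p221 → ¬p58 → ¬p227 → p278 → p286 → p445 → ¬p79 → p143 → ¬p196 → p237 → ¬p135 → p30 → p13 → ¬p44 → p381 → p450 → ¬p72 → p232 → ¬p93 → False := fun n0 n1 n2 n3 n4 n5 n6 n7 n8 n9 n10 n11 n12 n13 n14 n15 n16 n17 n18 n19 n20 n21 n22 n23 n24 =>
    have u0 : p132 := Classical.byContradiction fun h => c1291 h; have u1 : p220 := Classical.byContradiction fun h => c2221 n6 h; have u2 : ¬p71 := fun h => c55 h n22; have u3 : ¬p452 := fun h => c581 n5 h; have u4 : ¬p134 := fun h => c124 h n16; have u5 : ¬p289 := fun h => c699 h n16; have u6 : p293 := Classical.byContradiction fun h => c388 n3 h; have u7 : p442 := Classical.byContradiction fun h => c2468 h n11 n18 n13 u1 n19 n21 n9 n24 n5 n10; have u8 : p386 := Classical.byContradiction fun h => c2971 u7 n11 u4 n12 n2 n21 h n0 u3 u0; have u9 : ¬p100 := fun h => c2421 h u8 n23 n13 n24 n0; have u10 : ¬p104 := fun h => c232 u9 h; have u11 : p449 := Classical.byContradiction fun h => c3446 h u10 n8 n13 n5 n14 n6 n15 n16 u6 n12 n10 n17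 n7 n2 n18 n21 n19 n20 n9 n24 n22 u5; have u12 : ¬p154 := fun h => c2581 u10 n11 n12 u4 h u3 u7 n3 u8 n1 n5 n6 n7 n8 u2 n9 n10 n4 n21; c2961 u12 n11 n12 u11 n2 u7 u3 u0
  have c3605 : p444 → p386 → ¬p58 → ¬p196 → p1 → ¬p227 → ¬p72 → p381 → ¬p221 → p237 → p307 → ¬p79 → p442 → p449 → p293 → ¬p134 → ¬p157 → p450 → ¬p104 → False := fun n0 n1 n2 n3 n4 n5 n6 n7 n8 n9 n10 n11 n12 n13 n14 n15 n16 n17 n18 =>
    have u0 : p132 := Classical.byContradiction fun h => c1291 h; have u1 : p131 := Classical.byContradiction fun h => c264 h; have u2 : ¬p452 := fun h => c581 n4 h; have u3 : ¬p371 := fun h => c2992 h n12 n15 n17 n0 n14 n11 u2 n18 n13; have u4 : ¬p153 := fun h => c2991 n16 n12 n11 n15 h n0 n14 n17 u2 u0; have u5 : ¬p374 := fun h => c473 h u3; have u6 : ¬p393 := fun h => c774 h u3; have u7 : ¬p154 := fun h => c238 u4 h; have u8 : ¬p396 := fun h => c499 h u6; have u9 : p412 := Classical.byContradiction fun h => c2957 n0 h n11 n12 n13 n14 u7 u2 u1; have u10 : ¬p397 := fun h => c501 h u8; have u11 : p413 := Classical.byContradiction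 fun h => c1423 u9 h n10 n4; have u12 : ¬p391 := fun h => c531 h u11; have u13 : ¬p378 := fun h => c542 h u11 n9; have u14 : ¬p392 := fun h => c498 h u12; have u15 : ¬p379 := fun h => c480 h u13 n8; have u16 : ¬p382 := fun h => c2950 h u13 n6 n7; have u17 : ¬p383 := fun h => c483 h u16 n5; have u18 : p388 := Classical.byContradiction fun h => c502 n4 n3 u5 u15 u17 h u14 u10; have u19 : p387 := Classical.byContradiction fun h => c491 u18 h; have u20 : p384 := Classical.byContradiction fun h => c484 u19 h; have u21 : ¬p385 := fun h => c486 u19 h n1; have u22 : p389 := Classical.byContradiction fun h => c495 u12 u20 n2 h; c1763 u21 u22 u0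
  have c3609 : p448 → p451 → p0 → ¬p79 → ¬p295 → ¬p58 → ¬p386 → p384 → p266 → ¬p292 → ¬p264 → ¬p221 → p246 → ¬p227 → p1 → p449 → ¬p19 → ¬p194 → p329 → p30 → ¬p339 → p286 → p143 → ¬p44 → False := fun n0 n1 n2 n3 n4 n5 n6 n7 n8 n9 n10 n11 n12 n13 n14 n15 n16 n17 n18 n19 n20 n21 n22 n23 =>
    have u0 : ¬p192 := fun h => c256 h; have u1 : ¬p452 := fun h => c581 n14 h; have u2 : p277 := Classical.byContradiction fun h => c2387 h n21 u0; have u3 : ¬p158 := fun h => c729 h n6; have u4 : ¬p404 := fun h => c1990 h n1 n14 n7 n16 n17 n18 n19 n20 n21 n22 n23 n6; have u5 : p156 := Classical.byContradiction fun h => c237 h u3; have u6 : ¬p385 := fun h => c3502 n0 u4 n4 n2 n3 n6 n5 u1 n15 n7 n8 u2 n9 n10 n11 n12 n13 h; have u7 : p157 := Classical.byContradiction fun h => c139 u5 h; have u8 : ¬p154 := fun h => c726 u6 h; c725 u8 u7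
  have c3611 : ¬p79 → p293 → p425 → ¬p135 → p339 → p30 → p232 → p1 → ¬p44 → p14 → ¬p194 → ¬p227 → ¬p221 → ¬p72 → p294 → p230 → p278 → p329 → False := fun n0 n1 n2 n3 n4 n5 n6 n7 n8 n9 n10 n11 n12 n13 n14 n15 n16 n17 =>
    have u0 : ¬p192 := fun h => c256 h; have u1 : ¬p133 := fun h => c1436 h; have u2 : ¬p68 := fun h => c799 h; have u3 : ¬p71 := fun h => c55 h n13; have u4 : ¬p107 := fun h => c85 u3 h; have u5 : p73 := Classical.byContradiction fun h => c88 u3 h; have u6 : ¬p430 := fun h => c566 n7 h; have u7 : p286 := Classical.byContradiction fun h => c2385 n1 h u0; have u8 : p307 := Classical.byContradiction fun h => c2451 h u7 u1; have u9 : p265 := Classical.byContradiction fun h => c2300 n6 h u2; have u10 : p123 := Classical.byContradiction fun h => c909 u9 h n4; have u11 : ¬p121 := fun h => c101 h u10; have u12 : ¬p89 := fun h => c2384 u10 u3 h; have u13 : ¬p126 := fun h => c193 u11 h; have u14 : p340 := Classical.byContradiction fun h => c3596 n0 u13 n1 n2 n3 n14 u12 n7 u8 n8 n9 n10 n11 n12 n13 h u4 n6 n15 n16 u5 n17;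 have u15 : ¬p400 := fun h => c509 u14 h; have u16 : ¬p338 := fun h => c435 u14 h n4; have u17 : ¬p399 := fun h => c506 u15 u7 n5 h; c3597 n0 u13 n14 u17 n2 u6 n1 u16
  have c3613 : p232 → p93 → ¬p239 → ¬p398 → p293 → ¬p79 → False := fun n0 n1 n2 n3 n4 n5 =>
    c3612 n0 n1 n2 n3 n4 n5
  have c3614 : ¬p450 → ¬p104 → ¬p289 → p30 → p189 → p278 → p286 → False := fun n0 n1 n2 n3 n4 n5 n6 =>
    have u0 : p131 := Classical.byContradiction fun h => c264 h; have u1 : ¬p133 := fun h => c1436 h; have u2 : ¬p447 := fun h => c3497 h n0 n6 u1; have u3 : ¬p449 := fun h => c2929 n0 n1 n4 h n5 u0; c3315 u3 u2 n3 n2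
  have c3615 : p386 → p1 → ¬p227 → p278 → p30 → ¬p135 → ¬p93 → ¬p72 → p381 → ¬p221 → p237 → ¬p79 → p293 → p143 → ¬p196 → p294 → p13 → ¬p44 → ¬p58 → p296 → p59 → p232 → ¬p398 → ¬p339 → False := fun n0 n1 n2 n3 n4 n5 n6 n7 n8 n9 n10 n11 n12 n13 n14 n15 n16 n17 n18 n19 n20 n21 n22 n23 =>
    have u0 : p131 := Classical.byContradiction fun h => c264 h; have u1 : p11 := Classical.byContradiction fun h => c11 h; have u2 : p132 := Classical.byContradiction fun h => c1291 h; have u3 : ¬p133 := fun h => c1436 h; have u4 : ¬p192 := fun h => c256 h; have u5 : ¬p452 := fun h => c581 n1 h; have u6 : p286 := Classical.byContradiction fun h => c2385 n12 h u4; have u7 : p307 := Classical.byContradiction fun h => c2451 h u6 u3; have u8 : ¬p19 := fun h => c50 n16 h; have u9 : ¬p134 := fun h => c124 h n5; have u10 : ¬p289 := fun h => c699 h n5; have u11 : p136 := Classical.byContradiction fun h => c162 u9 h; have u12 : p309 := Classical.byContradiction fun h => c704 h u11; have u13 : p390 := Classical.byContradiction fun h => c2427 h n0 u3; have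 u14 : ¬p186 := fun h => c2919 h u13 u9 n23 u2; have u15 : p184 := Classical.byContradiction fun h => c205 h u14; have u16 : p185 := Classical.byContradiction fun h => c249 u15 h; have u17 : ¬p157 := fun h => c2923 u16 h n22; have u18 : ¬p156 := fun h => c139 h u17; have u19 : ¬p404 := fun h => c724 h u17; have u20 : p189 := Classical.byContradiction fun h => c241 u18 h; have u21 : ¬p100 := fun h => c2421 h n0 n21 n13 n6 u19; have u22 : ¬p104 := fun h => c232 u21 h; have u23 : p450 := Classical.byContradiction fun h => c3614 h u22 u10 n4 u20 n3 u6; have u24 : ¬p445 := fun h => c3604 u19 n20 n15 n19 u12 n1 n9 n18 n2 n3 u6 h n11 n13 n14 n10 n5 n4 n16 n17 n8 u23 n7 n21 n6; have u25 : p449 := Classical.byContradiction fun h => c3446 h u22 n2 n13 n1 n14 n9 n10 n5 n12 n11 u6 n4 n18 n15 n16 u23 n17 n8 n3 n6 n7 u10; have u26 : p444 := Classical.byContradiction fun h => c575 h u24; have u27 : ¬p442 := fun h => c3605 u26 n0 n18 n14 n1 n2 n7 n8 n9 n10 u7 n11 h u25 n12 u9 u17 u23 u22; have u28 : p441 := Classical.byContradiction fun h =>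 c573 h u27; have u29 : ¬p447 := fun h => c1128 h u28 u26 u5 u1; have u30 : p384 := Classical.byContradiction fun h => c3253 h u29 u8 n1 u6; have u31 : ¬p385 := fun h => c2464 u27 h n3 u30; have u32 : p387 := Classical.byContradiction fun h => c487 h u30 n18 u31; have u33 : p405 := Classical.byContradiction fun h => c3606 u31 u26 h u28 u25 u11 u6 u5 u0; have u34 : ¬p406 := fun h => c517 u32 h; c514 u34 u6 n4 u33
  have c3616 : ¬p79 → p22 → ¬p239 → ¬p135 → p263 → ¬p221 → p279 → ¬p72 → ¬p229 → ¬p235 → p0 → p1 → ¬p194 → p329 → p30 → ¬p44 → p293 → ¬p292 → ¬p31 → p425 → p14 → ¬p316 → ¬p311 → ¬p25 → ¬p261 → p73 → False := fun n0 n1 n2 n3 n4 n5 n6 n7 n8 n9 n10 n11 n12 n13 n14 n15 n16 n17 n18 n19 n20 n21 n22 n23 n24 n25 =>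
    have u0 : ¬p70 := fun h => c937 h; have u1 : p429 := Classical.byContradiction fun h => c1012 h; have u2 : ¬p133 := fun h => c1436 h; have u3 : p69 := Classical.byContradiction fun h => c907 h; have u4 : p132 := Classical.byContradiction fun h => c1291 h; have u5 : p131 := Classical.byContradiction fun h => c264 h; have u6 : p137 := Classical.byContradiction fun h => c889 h; have u7 : p67 := Classical.byContradiction fun h => c823 h; have u8 : ¬p192 := fun h => c256 h; have u9 : ¬p202 := fun h => c265 h; have u10 : p246 := Classical.byContradiction fun h => c636 n25 h; have u11 : ¬p224 := fun h => c293 h u9 n5; have u12 : p220 := Classical.byContradiction fun h => c2221 n5 h; have u13 : p226 := Classical.byContradiction fun h => c1283 h n7 n5; have u14 : ¬p227 := fun h => c1088 n7 h n5 u13; have u15 : p230 := Classical.byContradiction fun h => c1525 h n8 n5; have u16 : ¬p430 := fun h => c566 n11 h; have u17 : ¬p452 := fun h => c581 n11 h; have u18 : p286 := Classical.byContradiction fun h => c2385 n16 h u8; have u19 : p277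 := Classical.byContradiction fun h => c2387 h u18 u8; have u20 : p13 := Classical.byContradiction fun h => c13 h n20; have u21 : ¬p19 := fun h => c50 u20 h; have u22 : ¬p268 := fun h => c1259 h n9 u7; have u23 : ¬p264 := fun h => c1919 h n9; have u24 : ¬p134 := fun h => c124 h n3; have u25 : ¬p289 := fun h => c699 h n3; have u26 : p136 := Classical.byContradiction fun h => c162 u24 h; have u27 : ¬p163 := fun h => c163 u24 h; have u28 : ¬p242 := fun h => c317 h n2; have u29 : ¬p272 := fun h => c3527 h n25 n2 n7 u7; have u30 : ¬p243 := fun h => c320 h u28; have u31 : ¬p275 := fun h => c364 h u29; have u32 : p232 := Classical.byContradiction fun h => c2293 n8 n5 u30 n9 u11 h; have u33 : ¬p276 := fun h => c367 h u31; have u34 : p236 := Classical.byContradiction fun h => c1444 u32 h u26; have u35 : p451 := Classical.byContradiction fun h => c2407 h u32 u26 u21; have u36 : p297 := Classical.byContradiction fun h => c2515 n5 n3 u33 u20 h n6 u22 n17 n10 u15; have u37 : p266 := Classical.byContradiction fun h => c2096 n4 n3 u33 u14 n23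 h u22 n24; have u38 : p237 := Classical.byContradiction fun h => c312 h u15 n20 u34; have u39 : p296 := Classical.byContradiction fun h => c392 u36 h; have u40 : ¬p284 := fun h => c550 h u37; have u41 : ¬p301 := fun h => c535 h u38; have u42 : p282 := Classical.byContradiction fun h => c2532 u40 h n5 u14 n10 n6; have u43 : p278 := Classical.byContradiction fun h => c1085 h u42 u3; have u44 : p299 := Classical.byContradiction fun h => c1099 h u43 u6; have u45 : ¬p398 := fun h => c3595 u32 h n15 n19 n20 n11 n12 u14 n5 n7 n3 u15 u43 n13 u18 n14; have u46 : p303 := Classical.byContradiction fun h => c1095 h n7 u44; have u47 : ¬p407 := fun h => c1455 h u45 u26 u5; have u48 : p318 := Classical.byContradiction fun h => c1675 n7 n22 h u46 n10 u41 n5 u13; have u49 : p317 := Classical.byContradiction fun h => c412 u48 h; have u50 : p315 := Classical.byContradiction fun h => c409 u49 h n21; have u51 : p294 := Classical.byContradiction fun h => c2607 h u50 u27 u4; have u52 : ¬p339 := fun h => c3611 n0 n16 n19 n3 h n14 u32 n11 n15 n20 n12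 u14 n5 n7 u51 u15 u43 n13; have u53 : ¬p144 := fun h => c713 u52 h; have u54 : p142 := Classical.byContradiction fun h => c195 h u53; have u55 : ¬p295 := fun h => c1463 h u47 u24 u53 n19 u16 n0 u1 u2 u3; have u56 : p143 := Classical.byContradiction fun h => c129 u54 h; have u57 : ¬p60 := fun h => c1950 h n15 u21 n13 u56 u18 n14 n12 u52 n11; have u58 : ¬p61 := fun h => c224 u57 h; have u59 : p64 := Classical.byContradiction fun h => c228 u57 h; have u60 : ¬p57 := fun h => c3342 h u58 u24 u21 u17 n18; have u61 : p381 := Classical.byContradiction fun h => c1947 h u59 u12 u0; have u62 : p59 := Classical.byContradiction fun h => c226 u60 h; have u63 : ¬p196 := fun h => c262 h u60; have u64 : ¬p58 := fun h => c225 n11 u60 h; have u65 : ¬p93 := fun h => c3613 u32 h n2 u45 n16 n0; have u66 : ¬p386 := fun h => c3615 h n11 u14 u43 n14 n3 u65 n7 u61 n5 u38 n0 n16 u56 u63 u51 u20 n15 u64 u39 u62 u32 u45 u52; have u67 : ¬p158 := fun h => c729 h u66; have u68 : p156 := Classical.byContradiction fun h => c237 h u67; have u69 : ¬p155 := fun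 h => c728 h u67; have u70 : p157 := Classical.byContradiction fun h => c139 u68 h; have u71 : p384 := Classical.byContradiction fun h => c2467 h u69 u18; have u72 : p154 := Classical.byContradiction fun h => c725 h u70; have u73 : p449 := Classical.byContradiction fun h => c3457 h u70 u25 u66 u18 n14; have u74 : ¬p404 := fun h => c1990 h u35 n11 u71 u21 n12 n13 n14 u52 u18 u56 n15 u66; have u75 : p385 := Classical.byContradiction fun h => c726 h u72; have u76 : ¬p448 := fun h => c3609 h u35 n10 n0 u55 u64 u66 u71 u37 n17 u23 n5 u10 u14 n11 u73 u21 n12 n13 n14 u52 u18 u56 n15; have u77 : ¬p450 := fun h => c3479 u75 n4 u30 u24 n0 u19 n1 u55 u17 h u14 n17 n5 u66 n6 u74 u71 n7 n8 n9; c3507 u77 u76 u18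
  have c3618 : ¬p450 → ¬p339 → p278 → ¬p134 → p286 → ¬p289 → p30 → ¬p398 → p0 → ¬p79 → ¬p295 → ¬p58 → p266 → ¬p292 → ¬p264 → ¬p221 → p246 → ¬p227 → p1 → p451 → ¬p19 → ¬p194 → p329 → p143 → ¬p44 → False := fun n0 n1 n2 n3 n4 n5 n6 n7 n8 n9 n10 n11 n12 n13 n14 n15 n16 n17 n18 n19 n20 n21 n22 n23 n24 =>
    have u0 : p132 := Classical.byContradiction fun h => c1291 h; have u1 : ¬p133 := fun h => c1436 h; have u2 : ¬p74 := fun h => c60 h n9; have u3 : ¬p447 := fun h => c3497 h n0 n4 u1; have u4 : p448 := Classical.byContradiction fun h => c3507 n0 h n4; have u5 : p384 := Classical.byContradiction fun h => c3253 h u3 n20 n18 n4; have u6 : p449 := Classical.byContradiction fun h => c3315 h u3 n6 n5; have u7 : p386 := Classical.byContradiction fun h => c3609 u4 n19 n8 n9 n10 n11 h u5 n12 n13 n14 n15 n16 n17 n18 u6 n20 n21 n22 n6 n1 n4 n23 n24; have u8 : p390 := Classical.byContradiction fun h => c2427 h u7 u1; have u9 : ¬p186 := fun h => c2919 h u8 n3 n1 u0; have u10 : p184 := Classical.byContradiction fun h => c205 h u9; have u11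 : p185 := Classical.byContradiction fun h => c249 u10 h; have u12 : ¬p157 := fun h => c2923 u11 h n7; have u13 : ¬p156 := fun h => c139 h u12; have u14 : p189 := Classical.byContradiction fun h => c241 u13 h; have u15 : p104 := Classical.byContradiction fun h => c3614 n0 h n5 n6 u14 n2 n4; have u16 : p100 := Classical.byContradiction fun h => c232 h u15; c3617 u16 u13 u2
  have c3620 : ¬p79 → ¬p398 → p92 → p294 → ¬p430 → p426 → p73 → p239 → False := fun n0 n1 n2 n3 n4 n5 n6 n7 =>
    have u0 : ¬p96 := fun h => c73 n2 h; have u1 : p89 := Classical.byContradiction fun h => c654 h n2; have u2 : ¬p91 := fun h => c69 u1 h; have u3 : p94 := Classical.byContradiction fun h => c71 u1 h; have u4 : ¬p427 := fun h => c3405 h n4 u2 n7 n5 n6; have u5 : p428 := Classical.byContradiction fun h => c564 u4 h; have u6 : p324 := Classical.byContradiction fun h => c3407 h u5 u0 n4 n5 n6; c3619 n0 n1 n3 u3 u6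
  have c3621 : ¬p79 → p293 → p0 → ¬p135 → ¬p221 → p279 → ¬p72 → p1 → ¬p194 → p329 → p30 → ¬p44 → p232 → ¬p292 → p73 → p239 → ¬p264 → ¬p31 → p425 → p14 → p230 → ¬p316 → ¬p311 → p263 → False := fun n0 n1 n2 n3 n4 n5 n6 n7 n8 n9 n10 n11 n12 n13 n14 n15 n16 n17 n18 n19 n20 n21 n22 n23 =>
    have u0 : ¬p70 := fun h => c937 h; have u1 : p429 := Classical.byContradiction fun h => c1012 h; have u2 : ¬p133 := fun h => c1436 h; have u3 : p69 := Classical.byContradiction fun h => c907 h; have u4 : p132 := Classical.byContradiction fun h => c1291 h; have u5 : p131 := Classical.byContradiction fun h => c264 h; have u6 : p137 := Classical.byContradiction fun h => c889 h; have u7 : ¬p68 := fun h => c799 h; have u8 : ¬p192 := fun h => c256 h; have u9 : p426 := Classical.byContradiction fun h => c1014 h n6; have u10 : p246 := Classical.byContradiction fun h => c636 n14 h; have u11 : p220 := Classical.byContradiction fun h => c2221 n4 h; have u12 : p226 := Classical.byContradiction fun h => c1283 h n6 n4; have u13 : ¬p227 := fun h => c1088 n6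 h n4 u12; have u14 : ¬p430 := fun h => c566 n7 h; have u15 : ¬p452 := fun h => c581 n7 h; have u16 : p286 := Classical.byContradiction fun h => c2385 n1 h u8; have u17 : p277 := Classical.byContradiction fun h => c2387 h u16 u8; have u18 : p13 := Classical.byContradiction fun h => c13 h n19; have u19 : ¬p19 := fun h => c50 u18 h; have u20 : ¬p134 := fun h => c124 h n3; have u21 : ¬p289 := fun h => c699 h n3; have u22 : p136 := Classical.byContradiction fun h => c162 u20 h; have u23 : ¬p163 := fun h => c163 u20 h; have u24 : p265 := Classical.byContradiction fun h => c2300 n12 h u7; have u25 : p236 := Classical.byContradiction fun h => c1444 n12 h u22; have u26 : p451 := Classical.byContradiction fun h => c2407 h n12 u22 u19; have u27 : p266 := Classical.byContradiction fun h => c1294 u24 n7 h n23; have u28 : p237 := Classical.byContradiction fun h => c312 h n20 n19 u25; have u29 : ¬p284 := fun h => c550 h u27; have u30 : p297 := Classical.byContradiction fun h => c1920 u27 n4 u10 h n2 n16 u13 u17 n13; have u31 : ¬p301 := fun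 h => c535 h u28; have u32 : p282 := Classical.byContradiction fun h => c2532 u29 h n4 u13 n2 n5; have u33 : p296 := Classical.byContradiction fun h => c392 u30 h; have u34 : p278 := Classical.byContradiction fun h => c1085 h u32 u3; have u35 : p299 := Classical.byContradiction fun h => c1099 h u34 u6; have u36 : ¬p398 := fun h => c3595 n12 h n11 n18 n19 n7 n8 u13 n4 n6 n3 n20 u34 n9 u16 n10; have u37 : p303 := Classical.byContradiction fun h => c1095 h n6 u35; have u38 : ¬p407 := fun h => c1455 h u36 u22 u5; have u39 : p318 := Classical.byContradiction fun h => c1675 n6 n22 h u37 n2 u31 n4 u12; have u40 : p317 := Classical.byContradiction fun h => c412 u39 h; have u41 : p315 := Classical.byContradiction fun h => c409 u40 h n21; have u42 : p294 := Classical.byContradiction fun h => c2607 h u41 u23 u4; have u43 : ¬p339 := fun h => c3611 n0 n1 n18 n3 h n10 n12 n7 n11 n19 n8 u13 n4 n6 u42 n20 u34 n9; have u44 : ¬p144 := fun h => c713 u43 h; have u45 : p142 := Classical.byContradiction fun h => c195 h u44; have u46 : ¬p295 := fun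 h => c1463 h u38 u20 u44 n18 u14 n0 u1 u2 u3; have u47 : p143 := Classical.byContradiction fun h => c129 u45 h; have u48 : ¬p60 := fun h => c1950 h n11 u19 n9 u47 u16 n10 n8 u43 n7; have u49 : ¬p61 := fun h => c224 u48 h; have u50 : p64 := Classical.byContradiction fun h => c228 u48 h; have u51 : ¬p57 := fun h => c3342 h u49 u20 u19 u15 n17; have u52 : p381 := Classical.byContradiction fun h => c1947 h u50 u11 u0; have u53 : p59 := Classical.byContradiction fun h => c226 u51 h; have u54 : ¬p196 := fun h => c262 h u51; have u55 : ¬p58 := fun h => c225 n7 u51 h; have u56 : p450 := Classical.byContradiction fun h => c3618 h u43 u34 u20 u16 u21 n10 u36 n2 n0 u46 u55 u27 n13 n16 n4 u10 u13 n7 u26 u19 n8 n9 u47 n11; have u57 : ¬p92 := fun h => c3620 n0 u36 h u42 u14 u9 n14 n15; have u58 : ¬p93 := fun h => c182 u57 h; have u59 : ¬p386 := fun h => c3615 h n7 u13 u34 n10 n3 u58 n6 u52 n4 u28 n0 n1 u47 u54 u42 u18 n11 u55 u33 u53 n12 u36 u43; have u60 : ¬p158 := fun h => c729 h u59; have u61 : p156 := Classical.byContradiction fun h =>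 c237 h u60; have u62 : ¬p155 := fun h => c728 h u60; have u63 : p157 := Classical.byContradiction fun h => c139 u61 h; have u64 : p384 := Classical.byContradiction fun h => c2467 h u62 u16; have u65 : p154 := Classical.byContradiction fun h => c725 h u63; have u66 : ¬p404 := fun h => c1990 h u26 n7 u64 u19 n8 n9 n10 u43 u16 u47 n11 u59; have u67 : p385 := Classical.byContradiction fun h => c726 h u65; c3466 u66 u67 u20 n0 n2 u46 u15 u34 u13 n13 n4 u56 n5 u59 u64 n6
  have c3622 : ¬p79 → p294 → p30 → p239 → ¬p44 → ¬p339 → ¬p430 → p426 → p286 → p230 → ¬p71 → ¬p232 → False := fun n0 n1 n2 n3 n4 n5 n6 n7 n8 n9 n10 n11 =>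
    have u0 : p66 := Classical.byContradiction fun h => c263 h; have u1 : ¬p70 := fun h => c937 h; have u2 : p69 := Classical.byContradiction fun h => c907 h; have u3 : p67 := Classical.byContradiction fun h => c823 h; have u4 : p73 := Classical.byContradiction fun h => c88 n10 h; have u5 : ¬p265 := fun h => c1068 n10 h n11 u3; have u6 : ¬p123 := fun h => c1196 n10 h n5 n11 u3; have u7 : p121 := Classical.byContradiction fun h => c190 h u6; have u8 : p122 := Classical.byContradiction fun h => c100 u7 h; have u9 : p89 := Classical.byContradiction fun h => c3439 u7 h u1 u2; have u10 : p124 := Classical.byContradiction fun h => c1850 u8 h u5 n5; have u11 : ¬p91 := fun h => c69 u9 h; have u12 : p92 := Classical.byContradiction fun h => c1700 u10 h u0; have u13 : p337 := Classical.byContradiction fun h => c3321 h u11 n9; have u14 : p398 := Classical.byContradiction fun h => c3620 n0 h u12 n1 n6 n7 u4 n3; have u15 : p340 := Classical.byContradiction fun h => c436 h u13 n4 n5; have u16 : p400 := Classical.byContradiction fun h => c505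 h n8 n2 u14; c509 u15 u16
  have c3623 : p1 → p398 → p343 → p425 → p286 → p14 → ¬p221 → ¬p194 → p230 → p329 → ¬p72 → p50 → p73 → p240 → ¬p227 → p239 → ¬p289 → p30 → False := fun n0 n1 n2 n3 n4 n5 n6 n7 n8 n9 n10 n11 n12 n13 n14 n15 n16 n17 =>
    have u0 : ¬p203 := fun h => c631 n10 h; have u1 : p143 := Classical.byContradiction fun h => c708 h n1; have u2 : p400 := Classical.byContradiction fun h => c505 h n4 n17 n1; have u3 : p140 := Classical.byContradiction fun h => c709 h u1; have u4 : ¬p340 := fun h => c509 h u2; have u5 : p342 := Classical.byContradiction fun h => c1473 h u3 n16; have u6 : ¬p341 := fun h => c440 h u4; have u7 : ¬p344 := fun h => c443 h u5 n2; have u8 : p345 := Classical.byContradiction fun h => c3435 n0 u6 n14 h n3 n11 n9 n6 n5 n8 n13 n10 n7 n12 n15 u0; c449 u8 u7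
  have c3624 : ¬p79 → p294 → p1 → p425 → p14 → ¬p194 → ¬p221 → p240 → ¬p227 → ¬p72 → p50 → p329 → p239 → p30 → p286 → ¬p232 → ¬p241 → ¬p229 → ¬p235 → ¬p135 → ¬p44 → False := fun n0 n1 n2 n3 n4 n5 n6 n7 n8 n9 n10 n11 n12 n13 n14 n15 n16 n17 n18 n19 n20 =>
    have u0 : p131 := Classical.byContradiction fun h => c264 h; have u1 : ¬p71 := fun h => c55 h n9; have u2 : ¬p203 := fun h => c631 n9 h; have u3 : p426 := Classical.byContradiction fun h => c1014 h n9; have u4 : p73 := Classical.byContradiction fun h => c88 u1 h; have u5 : ¬p74 := fun h => c60 h n0; have u6 : p230 := Classical.byContradiction fun h => c1525 h n17 n6; have u7 : ¬p430 := fun h => c566 n2 h; have u8 : ¬p289 := fun h => c699 h n19; have u9 : p339 := Classical.byContradiction fun h => c3622 n0 n1 n13 n12 n20 h u7 u3 n14 u6 u1 n15; have u10 : p343 := Classical.byContradiction fun h => c2973 h u9 n19 u0; have u11 : ¬p398 := fun h => c3623 n2 h u10 n3 n14 n4 n6 n5 u6 n11 n9 n10 u4 n7 n8 n12 u8 n13; have u12 : ¬p92 := fun h => c3620 n0 u11 h n1 u7 u3 u4 n12; have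 u13 : ¬p93 := fun h => c182 u12 h; have u14 : p338 := Classical.byContradiction fun h => c3486 u5 u13 n2 n3 n4 n5 n6 n11 n9 n10 u4 n15 n13 n14 n8 h n12 n16 n17 n18; have u15 : p342 := Classical.byContradiction fun h => c1740 h n19 u14; have u16 : ¬p340 := fun h => c435 h u14 u9; have u17 : ¬p344 := fun h => c443 h u15 u10; have u18 : ¬p341 := fun h => c440 h u16; have u19 : ¬p345 := fun h => c449 h u17; c3435 n2 u18 n8 u19 n3 n10 n11 n6 n4 u6 n7 n9 n5 u4 n12 u2
  have c3626 : ¬p79 → ¬p72 → p81 → ¬p221 → ¬p227 → p29 → p1 → p425 → p293 → p14 → ¬p194 → p50 → ¬p241 → ¬p229 → ¬p235 → ¬p135 → ¬p44 → p329 → p73 → ¬p316 → p263 → p22 → ¬p25 → ¬p261 → False := fun n0 n1 n2 n3 n4 n5 n6 n7 n8 n9 n10 n11 n12 n13 n14 n15 n16 n17 n18 n19 n20 n21 n22 n23 =>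
    have u0 : p308 := Classical.byContradiction fun h => c1292 h; have u1 : ¬p290 := fun h => c1467 h; have u2 : p66 := Classical.byContradiction fun h => c263 h; have u3 : ¬p192 := fun h => c256 h; have u4 : ¬p202 := fun h => c265 h; have u5 : ¬p224 := fun h => c293 h u4 n3; have u6 : p279 := Classical.byContradiction fun h => c645 h n2; have u7 : p283 := Classical.byContradiction fun h => c2634 h n1 u6 u2; have u8 : p230 := Classical.byContradiction fun h => c1525 h n13 n3; have u9 : ¬p31 := fun h => c108 n5 h; have u10 : p30 := Classical.byContradiction fun h => c107 n6 n5 h; have u11 : p286 := Classical.byContradiction fun h => c2385 n8 h u3; have u12 : ¬p264 := fun h => c1919 h n14; have u13 : p0 := Classical.byContradiction fun h => c3505 h n17 n6 n7 n4 n11 n3 n9 n1 n10 n18 n12 n13; have u14 : ¬p134 := fun h => c124 h n15; have u15 : ¬p289 := fun h => c699 h n15; have u16 : p136 := Classical.byContradiction fun h => c162 u14 h; have u17 : ¬p291 := fun h => c383 h u15 u1; have u18 : p309 := Classical.byContradiction fun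 h => c704 h u16; have u19 : ¬p292 := fun h => c387 h u17; have u20 : ¬p310 := fun h => c402 h u0 u18; have u21 : ¬p311 := fun h => c405 h u20; have u22 : p239 := Classical.byContradiction fun h => c3616 n0 n21 h n15 n20 n3 u6 n1 n13 n14 u13 n6 n10 n17 u10 n16 n8 u19 u9 n7 n9 n19 u21 n22 n23 n18; have u23 : ¬p232 := fun h => c3621 n0 n8 u13 n15 n3 u6 n1 n6 n10 n17 u10 n16 h u19 n18 u22 u12 u9 n7 n9 u8 n19 u21 n20; have u24 : p243 := Classical.byContradiction fun h => c2293 n13 n3 h n14 u5 u23; have u25 : p242 := Classical.byContradiction fun h => c320 u24 h; have u26 : p240 := Classical.byContradiction fun h => c318 u25 h n12; have u27 : ¬p294 := fun h => c3624 n0 h n6 n7 n9 n10 n3 u26 n4 n1 n11 n17 u22 u10 u11 u23 n12 n13 n14 n15 n16; have u28 : ¬p295 := fun h => c3334 h u27 n5; have u29 : ¬p296 := fun h => c389 h u27 u28; have u30 : ¬p297 := fun h => c392 h u29; have u31 : p284 := Classical.byContradiction fun h => c1794 h n3 u30 u19 n4 u13 u6; have u32 : ¬p282 := fun h => c374 u31 h u7; have u33 : ¬p278 := fun h => c970 n1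 u32 h; c3625 u27 u33 u26 u23 n2
  have c3627 : ¬p294 → ¬p221 → p81 → p277 → ¬p235 → ¬p292 → ¬p229 → ¬p72 → p263 → p1 → ¬p227 → ¬p297 → ¬p241 → p0 → p246 → False := fun n0 n1 n2 n3 n4 n5 n6 n7 n8 n9 n10 n11 n12 n13 n14 =>
    have u0 : ¬p68 := fun h => c799 h; have u1 : ¬p202 := fun h => c265 h; have u2 : p66 := Classical.byContradiction fun h => c263 h; have u3 : ¬p224 := fun h => c293 h u1 n1; have u4 : p279 := Classical.byContradiction fun h => c645 h n2; have u5 : p283 := Classical.byContradiction fun h => c2634 h n7 u4 u2; have u6 : ¬p264 := fun h => c1919 h n4; have u7 : ¬p266 := fun h => c1920 h n1 n14 n11 n13 u6 n10 n3 n5; have u8 : p284 := Classical.byContradiction fun h => c1794 h n1 n11 n5 n10 n13 u4; have u9 : ¬p265 := fun h => c1294 h n9 u7 n8; have u10 : ¬p282 := fun h => c374 u8 h u5; have u11 : ¬p232 := fun h => c2300 h u9 u0; have u12 : ¬p278 := fun h => c970 n7 u10 h; have u13 : p243 := Classical.byContradiction fun h => c2293 n6 n1 h n4 u3 u11; have u14 : ¬p240 := fun h => c3625 n0 u12 h u11 n2; have u15 :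 p242 := Classical.byContradiction fun h => c320 u13 h; c318 u15 u14 n12
  have c3629 : ¬p294 → p289 → ¬p35 → ¬p136 → ¬p232 → p309 → ¬p316 → ¬p72 → p0 → ¬p311 → ¬p221 → p300 → p81 → ¬p241 → ¬p235 → ¬p229 → False := fun n0 n1 n2 n3 n4 n5 n6 n7 n8 n9 n10 n11 n12 n13 n14 n15 =>
    have u0 : p66 := Classical.byContradiction fun h => c263 h; have u1 : p67 := Classical.byContradiction fun h => c823 h; have u2 : ¬p202 := fun h => c265 h; have u3 : ¬p71 := fun h => c55 h n7; have u4 : ¬p203 := fun h => c631 n7 h; have u5 : ¬p107 := fun h => c85 u3 h; have u6 : ¬p224 := fun h => c293 h u2 n10; have u7 : p220 := Classical.byContradiction fun h => c2221 n10 h; have u8 : p226 := Classical.byContradiction fun h => c1283 h n7 n10; have u9 : ¬p265 := fun h => c1068 u3 h n4 u1; have u10 : p243 := Classical.byContradiction fun h => c2293 n15 n10 h n14 u6 n4; have u11 : ¬p84 := fun h => c1050 h u9 n3 u5 u0; have u12 : p242 := Classical.byContradiction fun h => c320 u10 h; have u13 : p82 := Classical.byContradiction fun h => c151 h u11; have u14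 : p240 := Classical.byContradiction fun h => c318 u12 h n13; have u15 : p87 := Classical.byContradiction fun h => c66 u13 h; have u16 : p278 := Classical.byContradiction fun h => c3625 n0 h u14 n4 n12; have u17 : p299 := Classical.byContradiction fun h => c652 h u15; have u18 : p303 := Classical.byContradiction fun h => c794 h u4 u15; have u19 : ¬p301 := fun h => c394 h u17 n11; have u20 : p318 := Classical.byContradiction fun h => c1675 n7 n9 h u18 n8 u19 n10 u8; have u21 : p317 := Classical.byContradiction fun h => c412 u20 h; have u22 : p315 := Classical.byContradiction fun h => c409 u21 h n6; have u23 : p88 := Classical.byContradiction fun h => c3201 n0 u22 h n1 n2 n5 u7; have u24 : ¬p85 := fun h => c67 h u23; c3628 n1 u24 u16 n4 u14 n0 n3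
  have c3630 : ¬p294 → p1 → ¬p136 → p286 → ¬p44 → ¬p194 → ¬p221 → p425 → p14 → p73 → p135 → p329 → ¬p316 → ¬p72 → p0 → p300 → p263 → ¬p35 → p81 → ¬p241 → ¬p235 → ¬p229 → p29 → False := fun n0 n1 n2 n3 n4 n5 n6 n7 n8 n9 n10 n11 n12 n13 n14 n15 n16 n17 n18 n19 n20 n21 n22 =>
    have u0 : ¬p70 := fun h => c937 h; have u1 : p69 := Classical.byContradiction fun h => c907 h; have u2 : p137 := Classical.byContradiction fun h => c889 h; have u3 : p66 := Classical.byContradiction fun h => c263 h; have u4 : ¬p68 := fun h => c799 h; have u5 : ¬p290 := fun h => c1467 h; have u6 : ¬p192 := fun h => c256 h; have u7 : p246 := Classical.byContradiction fun h => c636 n9 h; have u8 : p226 := Classical.byContradiction fun h => c1283 h n13 n6; have u9 : ¬p227 := fun h => c1088 n13 h n6 u8; have u10 : p230 := Classical.byContradiction fun h => c1525 h n21 n6; have u11 : p30 := Classical.byContradiction fun h => c107 n1 n22 h; have u12 : p277 := Classical.byContradiction fun h => c2387 h n3 u6; have u13 : ¬p295 := fun h => c3334 h n0 n22; have u14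 : ¬p296 := fun h => c389 h n0 u13; have u15 : ¬p297 := fun h => c392 h u14; have u16 : p292 := Classical.byContradiction fun h => c3627 n0 n6 n18 u12 n20 h n21 n13 n16 n1 u9 u15 n19 n14 u7; have u17 : p291 := Classical.byContradiction fun h => c387 u16 h; have u18 : p289 := Classical.byContradiction fun h => c383 u17 h u5; have u19 : ¬p310 := fun h => c504 h u17; have u20 : p309 := Classical.byContradiction fun h => c2685 h n1 u18 u11 n3; have u21 : p414 := Classical.byContradiction fun h => c3171 n1 u18 h; have u22 : ¬p311 := fun h => c405 h u19; have u23 : p232 := Classical.byContradiction fun h => c3629 n0 u18 n17 n2 h u20 n12 n13 n14 u22 n6 n15 n18 n19 n20 n21; have u24 : p265 := Classical.byContradiction fun h => c2300 u23 h u4; have u25 : p84 := Classical.byContradiction fun h => c1080 u23 h u20; have u26 : p266 := Classical.byContradiction fun h => c1294 u24 n1 h n16; have u27 : ¬p82 := fun h => c64 h u25; have u28 : ¬p284 := fun h => c550 h u26; have u29 : ¬p87 := fun h => c154 u27 h; have u30 : ¬p114 := fun h => c881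 u27 h u3; have u31 : p278 := Classical.byContradiction fun h => c2592 n0 h u28 u21; have u32 : ¬p119 := fun h => c160 u30 h; have u33 : p299 := Classical.byContradiction fun h => c1099 h u31 u2; have u34 : ¬p301 := fun h => c394 h u33 n15; have u35 : p303 := Classical.byContradiction fun h => c1095 h n13 u33; have u36 : p318 := Classical.byContradiction fun h => c1675 n13 u22 h u35 n14 u34 n6 u8; have u37 : p317 := Classical.byContradiction fun h => c412 u36 h; have u38 : p314 := Classical.byContradiction fun h => c408 u37 h; have u39 : p315 := Classical.byContradiction fun h => c409 u37 h n12; have u40 : p121 := Classical.byContradiction fun h => c3164 u23 h n1 u38 n4 n5 u18 u9 n6 n7 n8 u10 u31 n9 n3 u11 n2 u32 u39 u29 n11; have u41 : ¬p123 := fun h => c101 u40 h; have u42 : p89 := Classical.byContradiction fun h => c3439 u40 h u0 u1; have u43 : ¬p339 := fun h => c909 u24 u41 h; have u44 : ¬p91 := fun h => c69 u42 h; have u45 : ¬p337 := fun h => c3400 n1 u20 n10 n3 u43 h n4; c3321 u45 u44 u10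
  have c3631 : p232 → p1 → ¬p136 → p135 → p286 → ¬p44 → ¬p194 → p230 → ¬p221 → p425 → p14 → p278 → p30 → p289 → p329 → ¬p316 → ¬p72 → p303 → p0 → ¬p301 → p279 → p22 → p263 → False := fun n0 n1 n2 n3 n4 n5 n6 n7 n8 n9 n10 n11 n12 n13 n14 n15 n16 n17 n18 n19 n20 n21 n22 =>
    have u0 : ¬p70 := fun h => c937 h; have u1 : p69 := Classical.byContradiction fun h => c907 h; have u2 : p66 := Classical.byContradiction fun h => c263 h; have u3 : p308 := Classical.byContradiction fun h => c1292 h; have u4 : ¬p68 := fun h => c799 h; have u5 : ¬p71 := fun h => c55 h n16; have u6 : p73 := Classical.byContradiction fun h => c88 u5 h; have u7 : p226 := Classical.byContradiction fun h => c1283 h n16 n8; have u8 : ¬p227 := fun h => c1088 n16 h n8 u7; have u9 : p265 := Classical.byContradiction fun h => c2300 n0 h u4; have u10 : p309 := Classical.byContradiction fun h => c2685 h n1 n13 n12 n4; have u11 : p84 := Classical.byContradiction fun h => c3195 n1 u9 n8 u8 h n18 n20 n12 n13 n21 n22 u5; have u12 : ¬p310 := fun h => c402 h u3 u10; have u13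 : ¬p82 := fun h => c64 h u11; have u14 : ¬p311 := fun h => c405 h u12; have u15 : ¬p87 := fun h => c154 u13 h; have u16 : ¬p114 := fun h => c881 u13 h u2; have u17 : p318 := Classical.byContradiction fun h => c1675 n16 u14 h n17 n18 n19 n8 u7; have u18 : ¬p119 := fun h => c160 u16 h; have u19 : p317 := Classical.byContradiction fun h => c412 u17 h; have u20 : p314 := Classical.byContradiction fun h => c408 u19 h; have u21 : p315 := Classical.byContradiction fun h => c409 u19 h n15; have u22 : p121 := Classical.byContradiction fun h => c3164 n0 h n1 u20 n5 n6 n13 u8 n8 n9 n10 n7 n11 u6 n4 n12 n2 u18 u21 u15 n14; have u23 : ¬p123 := fun h => c101 u22 h; have u24 : p89 := Classical.byContradiction fun h => c3439 u22 h u0 u1; have u25 : ¬p339 := fun h => c909 u9 u23 h; have u26 : ¬p91 := fun h => c69 u24 h; have u27 : ¬p337 := fun h => c3400 n1 u10 n3 n4 u25 h n5; c3321 u27 u26 n7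
  have c3632 : p323 → p427 → p425 → p239 → ¬p430 → p426 → p73 → False := fun n0 n1 n2 n3 n4 n5 n6 =>
    have u0 : p69 := Classical.byContradiction fun h => c907 h; have u1 : p91 := Classical.byContradiction fun h => c3405 n1 n4 h n3 n5 n6; have u2 : p94 := Classical.byContradiction fun h => c2642 n0 n1 n4 n2 h u0; have u3 : ¬p89 := fun h => c69 h u1; c187 u3 u2
  have c3637 : p435 → ¬p437 → p135 → ¬p289 → p432 → p361 → p294 → ¬p440 → ¬p79 → ¬p309 → ¬p401 → False := fun n0 n1 n2 n3 n4 n5 n6 n7 n8 n9 n10 =>
    have u0 : ¬p436 := fun h => c3555 h n0 n10 n4 n5 n6 n7 n8; have u1 : p438 := Classical.byContradiction fun h => c570 u0 n1 h; have u2 : p439 := Classical.byContradiction fun h => c571 u0 n1 h; have u3 : p150 := Classical.byContradiction fun h => c3561 u1 n0 n4 h n6 n7 n8; have u4 : p362 := Classical.byContradiction fun h => c3546 u2 n0 n10 n4 h n6 n7 n8; have u5 : p172 := Classical.byContradiction fun h => c863 u3 h n3; have u6 : ¬p171 := fun h => c2806 h n10 n9 u4 n2; c221 u6 u5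
  have c3639 : p435 → ¬p437 → ¬p54 → p232 → ¬p19 → p1 → p432 → ¬p309 → ¬p289 → p286 → p30 → p135 → p361 → p294 → ¬p79 → False := fun n0 n1 n2 n3 n4 n5 n6 n7 n8 n9 n10 n11 n12 n13 n14 =>
    have u0 : p2 := Classical.byContradiction fun h => c0 h; have u1 : ¬p190 := fun h => c254 h; have u2 : p12 := Classical.byContradiction fun h => c12 h; have u3 : ¬p440 := fun h => c572 n5 h; have u4 : p433 := Classical.byContradiction fun h => c2750 h n3 n9; have u5 : p401 := Classical.byContradiction fun h => c3637 n0 n1 n11 n8 n6 n12 n13 u3 n14 n7 h; have u6 : p150 := Classical.byContradiction fun h => c716 u5 h; have u7 : p403 := Classical.byContradiction fun h => c510 h n9 n10 u5; have u8 : p172 := Classical.byContradiction fun h => c863 u6 h n8; have u9 : ¬p363 := fun h => c512 h u7; have u10 : p171 := Classical.byContradiction fun h => c221 h u8; have u11 : ¬p173 := fun h => c169 u10 h; have u12 : ¬p362 := fun h => c3519 u11 h n7; have u13 : p52 := Classical.byContradiction fun h => c464 u9 n12 h u12; have u14 : p51 := Classical.byContradiction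 fun h => c209 n5 h u13; have u15 : ¬p439 := fun h => c2745 h u14 n4 n2 n3 u4 n0 u3 u1 u2; have u16 : p436 := Classical.byContradiction fun h => c571 h n1 u15; c3638 u14 u16 n1 u0
  have c3640 : p401 → p361 → ¬p52 → ¬p309 → ¬p289 → p286 → p30 → False := fun n0 n1 n2 n3 n4 n5 n6 =>
    have u0 : p150 := Classical.byContradiction fun h => c716 n0 h; have u1 : p403 := Classical.byContradiction fun h => c510 h n5 n6 n0; have u2 : p172 := Classical.byContradiction fun h => c863 u0 h n4; have u3 : ¬p363 := fun h => c512 h u1; have u4 : p171 := Classical.byContradiction fun h => c221 h u2; have u5 : p362 := Classical.byContradiction fun h => c464 u3 n1 n2 h; have u6 : ¬p173 := fun h => c169 u4 h; c3519 u6 u5 n3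
  have c3643 : ¬p435 → p147 → ¬p398 → p328 → p324 → ¬p148 → p293 → ¬p79 → False := fun n0 n1 n2 n3 n4 n5 n6 n7 =>
    have u0 : p434 := Classical.byContradiction fun h => c569 h n0; c3563 u0 n0 n2 n3 n4 n1 n5 n6 n7
  have c3645 : p435 → p432 → ¬p86 → ¬p401 → p361 → p294 → p135 → ¬p79 → ¬p54 → p232 → ¬p19 → p1 → p414 → ¬p309 → ¬p289 → p286 → p30 → False := fun n0 n1 n2 n3 n4 n5 n6 n7 n8 n9 n10 n11 n12 n13 n14 n15 n16 =>
    have u0 : ¬p440 := fun h => c572 n11 h; have u1 : p437 := Classical.byContradiction fun h => c3639 n0 h n8 n9 n10 n11 n1 n13 n14 n15 n16 n6 n4 n5 n7; c3644 n0 n1 n2 n3 u1 n12 n5 n6 u0 n7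
  have c3647 : p354 → ¬p432 → False := fun n0 n1 =>
    have u0 : p10 := Classical.byContradiction fun h => c10 h; have u1 : p431 := Classical.byContradiction fun h => c567 h n1; c3646 n0 u1 n1 u0
  have c3649 : ¬p54 → ¬p79 → p14 → p428 → p135 → ¬p309 → p232 → ¬p19 → p1 → ¬p89 → ¬p289 → p30 → p328 → ¬p398 → p293 → ¬p72 → p278 → p294 → p425 → p37 → p170 → ¬p221 → p233 → ¬p227 → p56 → False := fun n0 n1 n2 n3 n4 n5 n6 n7 n8 n9 n10 n11 n12 n13 n14 n15 n16 n17 n18 n19 n20 n21 n22 n23 n24 =>
    have u0 : p12 := Classical.byContradiction fun h => c12 h; have u1 : p69 := Classical.byContradiction fun h => c907 h; have u2 : ¬p70 := fun h => c937 h; have u3 : ¬p192 := fun h => c256 h; have u4 : ¬p133 := fun h => c1436 h; have u5 : ¬p71 := fun h => c55 h n15; have u6 : ¬p430 := fun h => c566 n8 h; have u7 : ¬p440 := fun h => c572 n8 h; have u8 : p286 := Classical.byContradiction fun h => c2385 n14 h u3; have u9 : p307 := Classical.byContradiction fun h => c2451 h u8 u4; have u10 : p433 := Classical.byContradiction fun h => c2750 h n6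 u8; have u11 : p91 := Classical.byContradiction fun h => c184 n9 h; have u12 : ¬p94 := fun h => c187 n9 h; have u13 : ¬p121 := fun h => c3439 h n9 u2 u1; have u14 : p361 := Classical.byContradiction fun h => c3512 h n1 u11 n16 n21 n22 u8 n11 n23 n14 n2 n7 u5 n24 n8; have u15 : ¬p87 := fun h => c3633 u12 n20 h; have u16 : ¬p126 := fun h => c193 u13 h; have u17 : p147 := Classical.byContradiction fun h => c3516 u14 h u9 n19 n5 n4 n11; have u18 : ¬p82 := fun h => c66 h u15; have u19 : p324 := Classical.byContradiction fun h => c3018 h n3 u16 n18 u6; have u20 : p146 := Classical.byContradiction fun h => c217 h u17; have u21 : ¬p85 := fun h => c646 u18 h; have u22 : ¬p148 := fun h => c133 u20 h; have u23 : p152 := Classical.byContradiction fun h => c136 u20 h; have u24 : ¬p86 := fun h => c149 u21 h; have u25 : p357 := Classical.byContradiction fun h => c1003 h n15 u23 n16; have u26 : p354 := Classical.byContradiction fun h => c3221 u25 h u1; have u27 : p435 := Classical.byContradiction fun h => c3643 h u17 n13 n12 u19 u22 n14 n1;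 have u28 : p432 := Classical.byContradiction fun h => c3647 u26 h; have u29 : p437 := Classical.byContradiction fun h => c3639 u27 h n0 n6 n7 n8 u28 n5 n10 u8 n11 n4 u14 n17 n1; have u30 : ¬p51 := fun h => c2761 h u29 n0 n7 u27 u10 u7 u0; have u31 : ¬p52 := fun h => c209 n8 u30 h; have u32 : ¬p401 := fun h => c3640 h u14 u31 n5 n10 u8 n11; have u33 : ¬p414 := fun h => c3645 u27 u28 u24 u32 u14 n17 n4 n1 n0 n6 n7 n8 h n5 n10 u8 n11; have u34 : ¬p217 := fun h => c2779 u29 u27 u33 u7 h u31; c3648 u27 u29 u32 u28 u34 n17 n2 u7 n1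
  have c3650 : p435 → ¬p79 → ¬p414 → ¬p398 → p432 → p294 → p135 → p14 → ¬p235 → p293 → ¬p289 → p83 → ¬p401 → p30 → ¬p309 → p90 → ¬p19 → p232 → p0 → ¬p72 → ¬p221 → p299 → p1 → ¬p44 → p143 → ¬p54 → False := fun n0 n1 n2 n3 n4 n5 n6 n7 n8 n9 n10 n11 n12 n13 n14 n15 n16 n17 n18 n19 n20 n21 n22 n23 n24 n25 =>
    have u0 : ¬p192 := fun h => c256 h; have u1 : p226 := Classical.byContradiction fun h => c1283 h n19 n20; have u2 : ¬p440 := fun h => c572 n22 h; have u3 : p286 := Classical.byContradiction fun h => c2385 n9 h u0; have u4 : ¬p51 := fun h => c2763 h n25 n16 n2 u3 n17 u2; have u5 : ¬p75 := fun h => c2175 n23 n24 n2 h; have u6 : ¬p52 := fun h => c209 n22 u4 h; have u7 : ¬p86 := fun h => c2701 u5 h n10; have u8 : ¬p217 := fun h => c2829 n0 u2 n7 n6 h n11 n10 u7 n16 n17 n18 n19 n20 u1 u3 n21 n2 n9 n1 n8 u6 n13; have u9 : ¬p437 := fun h => c3648 n0 h n12 n4 u8 n5 n7 u2 n1; have u10 : ¬p361 := fun h => c3637 n0 u9 n6 n10 n4 h n5 u2 n1 n14 n12; have u11 : ¬p431 := fun h => c2799 n0 n2 n7 n6 u2 n8 n9 n1 n10 n11 h u3 u9 u6 n13; have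 u12 : p148 := Classical.byContradiction fun h => c2854 u10 h u3; have u13 : p147 := Classical.byContradiction fun h => c2913 u11 n2 n15 n1 n3 n4 n5 h u10; have u14 : ¬p146 := fun h => c133 h u12; c217 u14 u13
  have c3652 : p435 → p432 → ¬p289 → p294 → ¬p79 → p135 → p96 → ¬p309 → p14 → ¬p401 → ¬p227 → p1 → ¬p72 → p425 → p334 → ¬p93 → ¬p398 → ¬p235 → p293 → p83 → p30 → p90 → ¬p19 → p232 → p0 → ¬p221 → p299 → ¬p44 → p143 → ¬p54 → False := fun n0 n1 n2 n3 n4 n5 n6 n7 n8 n9 n10 n11 n12 n13 n14 n15 n16 n17 n18 n19 n20 n21 n22 n23 n24 n25 n26 n27 n28 n29 =>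
    have u0 : p9 := Classical.byContradiction fun h => c9 h; have u1 : ¬p192 := fun h => c256 h; have u2 : p426 := Classical.byContradiction fun h => c1014 h n12; have u3 : ¬p440 := fun h => c572 n11 h; have u4 : p286 := Classical.byContradiction fun h => c2385 n18 h u1; have u5 : p414 := Classical.byContradiction fun h => c3650 n0 n4 h n16 n1 n3 n5 n8 n17 n18 n2 n19 n9 n20 n7 n21 n22 n23 n24 n12 n25 n26 n11 n27 n28 n29; have u6 : ¬p217 := fun h => c2646 n6 n11 u5 n10 h n12 n13 n14 n15 u2; have u7 : ¬p437 := fun h => c3648 n0 h n9 n1 u6 n3 n8 u3 n4; have u8 : ¬p361 := fun h => c3637 n0 u7 n5 n2 n1 h n3 u3 n4 n7 n9; have u9 : p148 := Classical.byContradiction fun h => c2854 u8 h u4; have u10 : ¬p146 := fun h => c133 h u9; have u11 : ¬p147 := fun h => c217 u10 h; have u12 : ¬p150 := fun h => c717 h u11; have u13 : ¬p438 := fun h => c3561 h n0 n1 u12 n3 u3 n4; have u14 : p436 := Classical.byContradiction fun h => c570 h u7 u13; c3651 u14 n0 u11 n1 n3 u3 n4 u0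
  have c3653 : p435 → ¬p54 → p96 → ¬p19 → ¬p309 → ¬p289 → p30 → p232 → p1 → p135 → p294 → ¬p79 → p14 → p432 → ¬p227 → ¬p72 → p425 → p334 → ¬p93 → ¬p398 → ¬p235 → p293 → p83 → p90 → p0 → ¬p221 → p299 → ¬p44 → p143 → False := fun n0 n1 n2 n3 n4 n5 n6 n7 n8 n9 n10 n11 n12 n13 n14 n15 n16 n17 n18 n19 n20 n21 n22 n23 n24 n25 n26 n27 n28 =>
    have u0 : p12 := Classical.byContradiction fun h => c12 h; have u1 : ¬p192 := fun h => c256 h; have u2 : ¬p440 := fun h => c572 n8 h; have u3 : p286 := Classical.byContradiction fun h => c2385 n21 h u1; have u4 : p433 := Classical.byContradiction fun h => c2750 h n7 u3; have u5 : p401 := Classical.byContradiction fun h => c3652 n0 n13 n5 n10 n11 n9 n2 n4 n12 h n14 n8 n15 n16 n17 n18 n19 n20 n21 n22 n6 n23 n3 n7 n24 n25 n26 n27 n28 n1; have u6 : p150 := Classical.byContradiction fun h => c716 u5 h; have u7 : p149 := Classical.byContradiction fun h => c215 h u6; have u8 : ¬p151 := fun h => c135 u7 h; have u9 : ¬p148 := fun h => c720 u8 h; have u10 : p361 := Classical.byContradiction fun h =>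 c2854 h u9 u3; have u11 : p437 := Classical.byContradiction fun h => c3639 n0 h n1 n7 n3 n8 n13 n4 n5 u3 n6 n9 u10 n10 n11; have u12 : p52 := Classical.byContradiction fun h => c3640 u5 u10 h n4 n5 u3 n6; have u13 : ¬p51 := fun h => c2761 h u11 n1 n3 n0 u4 u2 u0; c209 n8 u13 u12
  have c3654 : p401 → ¬p52 → p286 → ¬p309 → ¬p289 → p30 → False := fun n0 n1 n2 n3 n4 n5 =>
    have u0 : p150 := Classical.byContradiction fun h => c716 n0 h; have u1 : ¬p361 := fun h => c3640 n0 h n1 n3 n4 n2 n5; have u2 : p149 := Classical.byContradiction fun h => c215 h u0; have u3 : p148 := Classical.byContradiction fun h => c2854 u1 h n2; have u4 : p146 := Classical.byContradiction fun h => c715 u2 h; c133 u4 u3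
  have c3658 : p97 → ¬p147 → ¬p92 → ¬p361 → p432 → ¬p431 → p143 → ¬p339 → p293 → ¬p79 → False := fun n0 n1 n2 n3 n4 n5 n6 n7 n8 n9 =>
    c3657 n0 n1 n2 n3 n4 n5 n6 n7 n8 n9
  have c3659 : ¬p195 → ¬p435 → p1 → ¬p79 → p278 → ¬p72 → p432 → ¬p221 → p233 → p30 → ¬p227 → p293 → p56 → ¬p361 → p143 → ¬p339 → ¬p92 → False := fun n0 n1 n2 n3 n4 n5 n6 n7 n8 n9 n10 n11 n12 n13 n14 n15 n16 =>
    have u0 : ¬p70 := fun h => c937 h; have u1 : p69 := Classical.byContradiction fun h => c907 h; have u2 : ¬p192 := fun h => c256 h; have u3 : p220 := Classical.byContradiction fun h => c2221 n7 h; have u4 : ¬p440 := fun h => c572 n2 h; have u5 : p286 := Classical.byContradiction fun h => c2385 n11 h u2; have u6 : ¬p363 := fun h => c461 h n13; have u7 : ¬p366 := fun h => c467 h n13; have u8 : p148 := Classical.byContradiction fun h => c2854 n13 h u5; have u9 : ¬p364 := fun h => c466 h u6; have u10 : ¬p367 := fun h => c469 h u7; have u11 : ¬p146 := fun h => c133 h u8; have u12 : ¬p147 := fun h => c217 u11 h; have u13 : ¬p431 := fun h => c2894 n1 h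 u4 u12; have u14 : ¬p97 := fun h => c3658 h u12 n16 n13 n6 u13 n14 n15 n11 n3; have u15 : ¬p99 := fun h => c213 u14 h; have u16 : ¬p128 := fun h => c3215 h u15 n12 u3 u0 u1; have u17 : ¬p358 := fun h => c3069 u15 h n2 u9 u13 n3 n4 n5 n0 n6 n7 n8 u5 n9 n13 n10 u10 n11 u12; have u18 : p129 := Classical.byContradiction fun h => c214 u16 h; c696 u17 u18
  have c3661 : p432 → ¬p240 → p90 → ¬p92 → p239 → ¬p398 → p135 → ¬p289 → p293 → ¬p79 → p294 → p37 → ¬p309 → p30 → p1 → p278 → ¬p72 → ¬p221 → p233 → ¬p227 → p56 → ¬p84 → p143 → ¬p339 → p232 → ¬p19 → ¬p54 → p14 → p425 → p334 → ¬p235 → p83 → p0 → ¬p44 → False := fun n0 n1 n2 n3 n4 n5 n6 n7 n8 n9 n10 n11 n12 n13 n14 n15 n16 n17 n18 n19 n20 n21 n22 n23 n24 n25 n26 n27 n28 n29 n30 n31 n32 n33 =>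
    have u0 : ¬p133 := fun h => c1436 h; have u1 : ¬p192 := fun h => c256 h; have u2 : p137 := Classical.byContradiction fun h => c889 h; have u3 : ¬p440 := fun h => c572 n14 h; have u4 : p286 := Classical.byContradiction fun h => c2385 n8 h u1; have u5 : p307 := Classical.byContradiction fun h => c2451 h u4 u0; have u6 : p299 := Classical.byContradiction fun h => c1099 h n15 u2; have u7 : ¬p93 := fun h => c182 n3 h; have u8 : p96 := Classical.byContradiction fun h => c186 n3 h; have u9 : ¬p435 := fun h => c3653 h n26 u8 n25 n12 n7 n13 n24 n14 n6 n10 n9 n27 n0 n19 n16 n28 n29 u7 n5 n30 n8 n31 n2 n32 n17 u6 n33 n22; have u10 : p434 := Classical.byContradiction fun h => c569 h u9; have u11 : ¬p51 := fun h => c2758 h u9 n24 u4 n25; have u12 : ¬p195 := fun h => c260 h u11; have u13 : ¬p52 := fun h => c209 n14 u11 h; have u14 : ¬p401 := fun h => c3654 h u13 u4 n12 n7 n13; have u15 : p361 := Classical.byContradiction fun h => c3659 u12 u9 n14 n9 n15 n16 n0 n17 n18 n13 n19 n8 n20 h n22 n23 n3; have u16 : p147 := Classical.byContradiction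 fun h => c3516 u15 h u5 n11 n12 n6 n13; have u17 : ¬p437 := fun h => c3539 h u15 u10 n0 u14 n10 u3 n9; have u18 : p146 := Classical.byContradiction fun h => c217 h u16; have u19 : ¬p148 := fun h => c133 u18 h; have u20 : p150 := Classical.byContradiction fun h => c3568 h u10 u19 n0 u3 n8 n9 u17; have u21 : p172 := Classical.byContradiction fun h => c863 u20 h n7; have u22 : p171 := Classical.byContradiction fun h => c221 h u21; c3660 u22 u10 u9 n21 n2 n1 n4 n5 n6
  have c3662 : ¬p432 → p307 → p37 → p278 → p30 → p135 → p1 → p14 → ¬p19 → ¬p72 → ¬p309 → p56 → p220 → False := fun n0 n1 n2 n3 n4 n5 n6 n7 n8 n9 n10 n11 n12 =>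
    have u0 : ¬p190 := fun h => c254 h; have u1 : p12 := Classical.byContradiction fun h => c12 h; have u2 : ¬p70 := fun h => c937 h; have u3 : p69 := Classical.byContradiction fun h => c907 h; have u4 : ¬p71 := fun h => c55 h n9; have u5 : ¬p440 := fun h => c572 n6 h; have u6 : p431 := Classical.byContradiction fun h => c567 h n0; have u7 : ¬p354 := fun h => c3647 h n0; have u8 : ¬p99 := fun h => c664 h u7; have u9 : ¬p357 := fun h => c3221 h u7 u3; have u10 : ¬p128 := fun h => c3215 h u8 n11 n12 u2 u3; have u11 : ¬p152 := fun h => c1003 u9 n9 h n3; have u12 : ¬p51 := fun h => c2737 h u10 n7 n8 u4 u0 u1; have u13 : ¬p146 := fun h => c136 h u11; have u14 : ¬p52 := fun h => c209 n6 u12 h; have u15 : ¬p147 := fun h => c217 u13 h; have u16 : ¬p361 := fun h => c3516 h u15 n1 n2 n10 n5 n4; c3444 u6 u15 u16 u14 u5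
  have c3663 : p432 → ¬p398 → p425 → ¬p289 → p135 → p89 → p293 → ¬p79 → p294 → p37 → p30 → p1 → p278 → ¬p72 → ¬p221 → p233 → ¬p227 → p56 → p143 → ¬p339 → p232 → ¬p19 → ¬p54 → p14 → p334 → ¬p235 → p0 → ¬p44 → p323 → p73 → ¬p167 → False := fun n0 n1 n2 n3 n4 n5 n6 n7 n8 n9 n10 n11 n12 n13 n14 n15 n16 n17 n18 n19 n20 n21 n22 n23 n24 n25 n26 n27 n28 n29 n30 =>
    have u0 : p69 := Classical.byContradiction fun h => c907 h; have u1 : p426 := Classical.byContradiction fun h => c1014 h n13; have u2 : ¬p430 := fun h => c566 n11 h; have u3 : ¬p309 := fun h => c3013 n19 n30 h; have u4 : p90 := Classical.byContradiction fun h => c68 n5 h; have u5 : p82 := Classical.byContradiction fun h => c2469 h n30 n5; have u6 : p83 := Classical.byContradiction fun h => c63 u5 h; have u7 : ¬p84 := fun h => c64 u5 h; have u8 : p239 := Classical.byContradiction fun h => c3510 n6 n7 u6 n3 h n20; have u9 : ¬p92 := fun h => c3620 n7 n1 h n8 u2 u1 n29 u8; have u10 : ¬p427 := fun h => c3632 n28 h n2 u8 u2 u1 n29; have u11 : ¬p93 := fun h => c182 u9 h; have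 u12 : p240 := Classical.byContradiction fun h => c3661 n0 h u4 u9 u8 n1 n4 n3 n6 n7 n8 n9 u3 n10 n11 n12 n13 n14 n15 n16 n17 u7 n18 n19 n20 n21 n22 n23 n2 n24 n25 u6 n26 n27; have u13 : p428 := Classical.byContradiction fun h => c564 u10 h; c3427 u13 u11 u12 n2 u2 u0
  have c3664 : p232 → ¬p339 → ¬p289 → ¬p79 → p14 → p425 → ¬p54 → ¬p19 → p1 → p135 → p30 → ¬p398 → p293 → ¬p72 → p278 → p294 → p37 → ¬p221 → p233 → ¬p227 → p56 → p334 → ¬p235 → p0 → ¬p44 → p73 → ¬p167 → p307 → False := fun n0 n1 n2 n3 n4 n5 n6 n7 n8 n9 n10 n11 n12 n13 n14 n15 n16 n17 n18 n19 n20 n21 n22 n23 n24 n25 n26 n27 =>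
    have u0 : p69 := Classical.byContradiction fun h => c907 h; have u1 : p220 := Classical.byContradiction fun h => c2221 n17 h; have u2 : ¬p430 := fun h => c566 n8 h; have u3 : ¬p144 := fun h => c713 n1 h; have u4 : ¬p309 := fun h => c3013 n1 n26 h; have u5 : p142 := Classical.byContradiction fun h => c195 h u3; have u6 : p143 := Classical.byContradiction fun h => c129 u5 h; have u7 : p139 := Classical.byContradiction fun h => c707 h u5; have u8 : p165 := Classical.byContradiction fun h => c3025 h u6 n2; have u9 : p145 := Classical.byContradiction fun h => c131 u7 h; have u10 : p164 := Classical.byContradiction fun h => c201 h u8; have u11 : p328 := Classical.byContradiction fun h => c1584 h u9 n14; have u12 : p170 := Classical.byContradiction fun h => c168 u10 h; have u13 : p333 := Classical.byContradiction fun h => c1041 n13 h u11; have u14 : p323 := Classical.byContradiction fun h => c3021 h n3 n1 n11 u13 n12 u0; have u15 : p432 := Classical.byContradiction fun h => c3662 h n27 n16 n14 n10 n9 n8 n4 n7 n13 u4 n20 u1; have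 u16 : ¬p89 := fun h => c3663 u15 n11 n5 n2 n9 h n12 n3 n15 n16 n10 n8 n14 n13 n17 n18 n19 n20 u6 n1 n0 n7 n6 n4 n21 n22 n23 n24 u14 n25 n26; have u17 : ¬p94 := fun h => c187 u16 h; have u18 : ¬p428 := fun h => c3649 n6 n3 n4 h n9 u4 n0 n7 n8 u16 n2 n10 u11 n11 n12 n13 n14 n15 n5 n16 u12 n17 n18 n19 n20; have u19 : ¬p427 := fun h => c2642 u14 h u2 n5 u17 u0; c564 u19 u18
  have c3665 : ¬p79 → p135 → p425 → p1 → p329 → ¬p227 → ¬p221 → ¬p72 → p230 → p14 → ¬p44 → p293 → ¬p194 → ¬p19 → p30 → p232 → p294 → p37 → ¬p235 → p0 → ¬p136 → p279 → p22 → p300 → ¬p78 → False := fun n0 n1 n2 n3 n4 n5 n6 n7 n8 n9 n10 n11 n12 n13 n14 n15 n16 n17 n18 n19 n20 n21 n22 n23 n24 =>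
    have u0 : p132 := Classical.byContradiction fun h => c1291 h; have u1 : p137 := Classical.byContradiction fun h => c889 h; have u2 : p69 := Classical.byContradiction fun h => c907 h; have u3 : ¬p68 := fun h => c799 h; have u4 : p66 := Classical.byContradiction fun h => c263 h; have u5 : ¬p133 := fun h => c1436 h; have u6 : ¬p192 := fun h => c256 h; have u7 : ¬p193 := fun h => c257 h; have u8 : p12 := Classical.byContradiction fun h => c12 h; have u9 : ¬p71 := fun h => c55 h n7; have u10 : ¬p107 := fun h => c85 u9 h; have u11 : p73 := Classical.byContradiction fun h => c88 u9 h; have u12 : p263 := Classical.byContradiction fun h => c1289 h u10 n8 u4; have u13 : p286 := Classical.byContradiction fun h => c2385 n11 h u6; have u14 : p307 := Classical.byContradiction fun h => c2451 h u13 u5; have u15 : p334 := Classical.byContradiction fun h => c1496 h n7 n4 u4; have u16 : ¬p316 := fun h => c2820 h n23 n13 u7 u8; have u17 : p265 := Classical.byContradiction fun h => c2300 n15 h u3; have u18 : p233 := Classical.byContradiction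 fun h => c305 h n8 n9 n15; have u19 : ¬p54 := fun h => c2773 h n15 n3 u13 n14 n13 n24 n9; have u20 : p266 := Classical.byContradiction fun h => c1294 u17 n3 h u12; have u21 : ¬p53 := fun h => c36 h u19; have u22 : ¬p284 := fun h => c550 h u20; have u23 : p56 := Classical.byContradiction fun h => c210 u21 h; have u24 : p282 := Classical.byContradiction fun h => c2532 u22 h n6 n5 n19 n21; have u25 : p278 := Classical.byContradiction fun h => c1085 h u24 u2; have u26 : p299 := Classical.byContradiction fun h => c1099 h u25 u1; have u27 : ¬p301 := fun h => c394 h u26 n23; have u28 : p303 := Classical.byContradiction fun h => c1095 h n7 u26; have u29 : ¬p289 := fun h => c3631 n15 n3 n20 n1 u13 n10 n12 n8 n6 n2 n9 u25 n14 h n4 u16 n7 u28 n19 u27 n21 n22 u12; have u30 : ¬p398 := fun h => c3572 n3 h u17 n20 n10 n2 u13 n12 u29 n8 n6 n4 n7 u25 n14; have u31 : ¬p168 := fun h => c1498 h u30 n1; have u32 : ¬p167 := fun h => c167 h u31; have u33 : p169 := Classical.byContradiction fun h => c200 u32 h; have u34 : p343 := Classical.byContradiction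 fun h => c738 h u33; have u35 : ¬p344 := fun h => c1474 h u29 n20 u34 n3 u14; have u36 : ¬p345 := fun h => c449 h u35; have u37 : p339 := Classical.byContradiction fun h => c3664 n15 h u29 n0 n9 n2 u19 n13 n3 n1 n14 u30 n11 n7 u25 n16 n17 n6 u18 n5 u23 u15 n18 n19 n10 u11 u32 u14; have u38 : ¬p338 := fun h => c3492 n15 u37 n3 u25 h n5 n6 n2 n9 n8 n12 n4 u9 u36; have u39 : p123 := Classical.byContradiction fun h => c909 u17 h u37; have u40 : ¬p342 := fun h => c1481 u38 h u0; have u41 : ¬p89 := fun h => c2384 u39 u9 h; have u42 : ¬p337 := fun h => c444 u35 h n10 u40; have u43 : p341 := Classical.byContradiction fun h => c3441 n3 h u25 n2 u41 n9 n5 n6 n7 u36 u10 n15 n8 n12 u11 n4; have u44 : ¬p340 := fun h => c433 h u42; c440 u43 u44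
  have c3666 : p1 → p339 → ¬p136 → p425 → p286 → p14 → ¬p221 → ¬p194 → ¬p72 → p50 → p73 → p329 → p30 → ¬p289 → ¬p227 → ¬p232 → ¬p241 → ¬p229 → ¬p235 → p240 → p294 → ¬p79 → p239 → False := fun n0 n1 n2 n3 n4 n5 n6 n7 n8 n9 n10 n11 n12 n13 n14 n15 n16 n17 n18 n19 n20 n21 n22 =>
    have u0 : ¬p203 := fun h => c631 n8 h; have u1 : p426 := Classical.byContradiction fun h => c1014 h n8; have u2 : ¬p74 := fun h => c60 h n21; have u3 : p230 := Classical.byContradiction fun h => c1525 h n17 n6; have u4 : ¬p430 := fun h => c566 n0 h; have u5 : p343 := Classical.byContradiction fun h => c1210 h n1 n2; have u6 : ¬p344 := fun h => c2347 n0 h n2 n4 n13 n1; have u7 : ¬p398 := fun h => c3623 n0 h u5 n3 n4 n5 n6 n7 u3 n11 n8 n9 n10 n19 n14 n22 n13 n12; have u8 : ¬p345 := fun h => c449 h u6; have u9 : ¬p92 := fun h => c3620 n21 u7 h n20 u4 u1 n10 n22; have u10 : p341 := Classical.byContradiction fun h => c3435 n0 h n14 u8 n3 n9 n11 n6 n5 u3 n19 n8 n7 n10 n22 u0; have u11 : ¬p93 := fun h => c182 u9 h; have u12 : p340 := Classical.byContradiction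 fun h => c440 u10 h; have u13 : p338 := Classical.byContradiction fun h => c3486 u2 u11 n0 n3 n5 n7 n6 n11 n8 n9 n10 n15 n12 n4 n14 h n22 n16 n17 n18; c435 u12 u13 n1
  have c3668 : ¬p79 → ¬p92 → p293 → p309 → p239 → p425 → ¬p136 → ¬p232 → p1 → p87 → ¬p227 → p14 → ¬p194 → ¬p221 → p329 → p240 → ¬p72 → p50 → p73 → p339 → p30 → ¬p241 → ¬p229 → ¬p235 → False := fun n0 n1 n2 n3 n4 n5 n6 n7 n8 n9 n10 n11 n12 n13 n14 n15 n16 n17 n18 n19 n20 n21 n22 n23 =>
    have u0 : p69 := Classical.byContradiction fun h => c907 h; have u1 : ¬p133 := fun h => c1436 h; have u2 : ¬p192 := fun h => c256 h; have u3 : ¬p203 := fun h => c631 n16 h; have u4 : p426 := Classical.byContradiction fun h => c1014 h n16; have u5 : ¬p74 := fun h => c60 h n0; have u6 : p230 := Classical.byContradiction fun h => c1525 h n22 n13; have u7 : ¬p430 := fun h => c566 n8 h; have u8 : p286 := Classical.byContradiction fun h => c2385 n2 h u2; have u9 : p307 := Classical.byContradiction fun h => c2451 h u8 u1; have u10 : ¬p93 := fun h => c182 n1 h; have u11 : p96 := Classical.byContradiction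 fun h => c186 n1 h; have u12 : p338 := Classical.byContradiction fun h => c3486 u5 u10 n8 n5 n11 n12 n13 n14 n16 n17 n18 n7 n20 u8 n10 h n4 n21 n22 n23; have u13 : ¬p428 := fun h => c3427 h u10 n15 n5 u7 u0; have u14 : ¬p340 := fun h => c435 h u12 n19; have u15 : p427 := Classical.byContradiction fun h => c564 h u13; have u16 : ¬p341 := fun h => c440 h u14; have u17 : p91 := Classical.byContradiction fun h => c3405 u15 u7 h n4 u4 n18; have u18 : ¬p323 := fun h => c3632 h u15 n5 n4 u7 u4 n18; have u19 : p345 := Classical.byContradiction fun h => c3435 n8 u16 n10 h n5 n17 n14 n13 n11 u6 n15 n16 n12 n18 n4 u3; have u20 : ¬p89 := fun h => c69 h u17; have u21 : p344 := Classical.byContradiction fun h => c449 u19 h; have u22 : ¬p94 := fun h => c187 u20 h; have u23 : ¬p409 := fun h => c522 u21 h; have u24 : ¬p170 := fun h => c3633 u22 h n9; have u25 : ¬p408 := fun h => c1061 h u23 n8 u9; have u26 : ¬p164 := fun h => c168 h u24; have u27 : ¬p141 := fun h => c1199 h u25 n6; have u28 : ¬p418 := fun h => c1171 h u25 n6 n7; have u29 : p166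 := Classical.byContradiction fun h => c202 u26 h; have u30 : p328 := Classical.byContradiction fun h => c3396 h u28 u11 u15 n4 n5 u7 u0; have u31 : p144 := Classical.byContradiction fun h => c1536 u29 h n3; have u32 : ¬p142 := fun h => c130 h u31; c3667 u18 n2 u32 u30 u27 n0
  have c3669 : ¬p79 → p293 → p1 → p425 → p14 → ¬p72 → ¬p221 → ¬p227 → ¬p229 → ¬p78 → ¬p35 → p81 → False := fun n0 n1 n2 n3 n4 n5 n6 n7 n8 n9 n10 n11 =>
    have u0 : p67 := Classical.byContradiction fun h => c823 h; have u1 : p66 := Classical.byContradiction fun h => c263 h; have u2 : ¬p193 := fun h => c257 h; have u3 : p12 := Classical.byContradiction fun h => c12 h; have u4 : p429 := Classical.byContradiction fun h => c1012 h; have u5 : p69 := Classical.byContradiction fun h => c907 h; have u6 : ¬p191 := fun h => c255 h; have u7 : ¬p190 := fun h => c254 h; have u8 : ¬p192 := fun h => c256 h; have u9 : ¬p202 := fun h => c265 h; have u10 : p245 := Classical.byContradiction fun h => c1814 h; have u11 : ¬p71 := fun h => c55 h n5; have u12 : ¬p203 := fun h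 => c631 n5 h; have u13 : p426 := Classical.byContradiction fun h => c1014 h n5; have u14 : ¬p107 := fun h => c85 u11 h; have u15 : p73 := Classical.byContradiction fun h => c88 u11 h; have u16 : p246 := Classical.byContradiction fun h => c636 u15 h; have u17 : ¬p247 := fun h => c323 h u10 u16; have u18 : ¬p224 := fun h => c293 h u9 n6; have u19 : p220 := Classical.byContradiction fun h => c2221 n6 h; have u20 : ¬p261 := fun h => c346 h u17 n6; have u21 : p279 := Classical.byContradiction fun h => c645 h n11; have u22 : p230 := Classical.byContradiction fun h => c1525 h n8 n6; have u23 : p263 := Classical.byContradiction fun h => c1289 h u14 u22 u1; have u24 : ¬p430 := fun h => c566 n2 h; have u25 : p29 := Classical.byContradiction fun h => c2650 n5 h n3 u13 n2; have u26 : p30 := Classical.byContradiction fun h => c107 n2 u25 h; have u27 : p286 := Classical.byContradiction fun h => c2385 n1 h u8; have u28 : p13 := Classical.byContradiction fun h => c13 h n4; have u29 : ¬p19 := fun h => c50 u28 h; have u30 : ¬p321 := fun h =>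 c2743 h u29 u7 u3; have u31 : ¬p23 := fun h => c2036 h u29 u16 u6 u3; have u32 : p45 := Classical.byContradiction fun h => c1644 u11 h u29 u24 u13 u4 u5 u3; have u33 : ¬p241 := fun h => c769 h u30; have u34 : p21 := Classical.byContradiction fun h => c19 h u31; have u35 : ¬p25 := fun h => c606 h u31; have u36 : ¬p43 := fun h => c32 h u32; have u37 : ¬p26 := fun h => c84 u34 h; have u38 : p22 := Classical.byContradiction fun h => c82 n2 u34 h; have u39 : ¬p194 := fun h => c259 h u36; have u40 : ¬p46 := fun h => c617 h u36; have u41 : ¬p44 := fun h => c180 n2 u36 h; have u42 : ¬p235 := fun h => c3437 n6 u38 h n7 n4 u29 u33 u37 u17; have u43 : p50 := Classical.byContradiction fun h => c181 u40 h; have u44 : p40 := Classical.byContradiction fun h => c3177 h u42 n4; have u45 : p329 := Classical.byContradiction fun h => c3436 h u19 u43; have u46 : p39 := Classical.byContradiction fun h => c28 h u44; have u47 : p0 := Classical.byContradiction fun h => c3505 h u45 n2 n3 n7 u43 n6 n4 n5 u39 u15 u33 n8; have u48 : ¬p42 := fun h => c147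 u46 h; have u49 : p36 := Classical.byContradiction fun h => c253 h u46; have u50 : p300 := Classical.byContradiction fun h => c3175 h u19 u48; have u51 : p37 := Classical.byContradiction fun h => c144 n2 u49 h; have u52 : ¬p316 := fun h => c2820 h u50 u29 u2 u3; have u53 : p135 := Classical.byContradiction fun h => c3626 n0 n5 n11 n6 n7 u25 n2 n3 n1 n4 u39 u43 u33 n8 u42 h u41 u45 u15 u52 u23 u38 u35 u20; have u54 : p134 := Classical.byContradiction fun h => c161 h u53; have u55 : ¬p136 := fun h => c125 u54 h; have u56 : p294 := Classical.byContradiction fun h => c3630 h n2 u55 u27 u41 u39 n6 n3 n4 u15 u53 u45 u52 n5 u47 u50 u23 n10 n11 u33 u42 n8 u25; have u57 : ¬p232 := fun h => c3665 n0 u53 n3 n2 u45 n7 n6 n5 u22 n4 u41 n1 u39 u29 u26 h u56 u51 u42 u47 u55 u21 u38 u50 n9; have u58 : ¬p265 := fun h => c1068 u11 h u57 u0; have u59 : p243 := Classical.byContradiction fun h => c2293 n8 n6 h u42 u18 u57; have u60 : ¬p84 := fun h => c1050 h u58 u55 u14 u1; have u61 : p242 := Classical.byContradiction fun h => c320 u59 h; have u62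 : p82 := Classical.byContradiction fun h => c151 h u60; have u63 : p239 := Classical.byContradiction fun h => c317 u61 h; have u64 : p240 := Classical.byContradiction fun h => c318 u61 h u33; have u65 : p87 := Classical.byContradiction fun h => c66 u62 h; have u66 : p339 := Classical.byContradiction fun h => c3622 n0 u56 u26 u63 u41 h u24 u13 u27 u22 u11 u57; have u67 : p343 := Classical.byContradiction fun h => c1210 h u66 u55; have u68 : p289 := Classical.byContradiction fun h => c3666 n2 u66 u55 n3 u27 n4 n6 u39 n5 u43 u15 u45 u26 h n7 u57 u33 n8 u42 u64 u56 n0 u63; have u69 : p309 := Classical.byContradiction fun h => c2685 h n2 u68 u26 u27; have u70 : p92 := Classical.byContradiction fun h => c3668 n0 h n1 u69 u63 n3 u55 u57 n2 u65 n7 n4 u39 n6 u45 u64 n5 u43 u15 u66 u26 u33 n8 u42; have u71 : p124 := Classical.byContradiction fun h => c1801 u11 u70 h; have u72 : p398 := Classical.byContradiction fun h => c3620 n0 h u70 u56 u24 u13 u15 u63; have u73 : p125 := Classical.byContradiction fun h => c102 u71 h; have u74 : p400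 := Classical.byContradiction fun h => c505 h u27 u26 u72; have u75 : p122 := Classical.byContradiction fun h => c690 u73 h; have u76 : ¬p340 := fun h => c509 h u74; have u77 : p342 := Classical.byContradiction fun h => c1208 u75 h u42 u0; have u78 : ¬p341 := fun h => c440 h u76; have u79 : ¬p344 := fun h => c443 h u77 u67; have u80 : p345 := Classical.byContradiction fun h => c3435 n2 u78 n7 h n3 u43 u45 n6 n4 u22 u64 n5 u39 u15 u63 u12; c449 u80 u79
  have c3670 : ¬p79 → p293 → p1 → ¬p221 → p425 → p29 → ¬p72 → ¬p227 → ¬p229 → ¬p78 → ¬p35 → p81 → False := fun n0 n1 n2 n3 n4 n5 n6 n7 n8 n9 n10 n11 =>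
    have u0 : ¬p192 := fun h => c256 h; have u1 : ¬p4 := fun h => c2 h; have u2 : ¬p71 := fun h => c55 h n6; have u3 : ¬p31 := fun h => c108 n5 h; have u4 : p286 := Classical.byContradiction fun h => c2385 n1 h u0; have u5 : p218 := Classical.byContradiction fun h => c2282 n1 h u3 u0 u1; have u6 : p225 := Classical.byContradiction fun h => c297 n7 u5 h; have u7 : ¬p14 := fun h => c3669 n0 n1 n2 n4 h n6 n3 n7 n8 n9 n10 n11; have u8 : ¬p414 := fun h => c595 u7 h; have u9 : ¬p13 := fun h => c47 n2 h u7; have u10 : ¬p289 := fun h => c3171 n2 h u8; have u11 : ¬p16 := fun h => c250 u9 h; c3463 u11 u10 u6 n2 n7 n3 n4 u2 u4 n5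
  have c3671 : ¬p79 → p1 → p425 → p286 → ¬p221 → ¬p72 → ¬p227 → ¬p229 → ¬p235 → ¬p289 → p263 → ¬p292 → p81 → ¬p297 → False := fun n0 n1 n2 n3 n4 n5 n6 n7 n8 n9 n10 n11 n12 n13 =>
    have u0 : ¬p68 := fun h => c799 h; have u1 : p429 := Classical.byContradiction fun h => c1012 h; have u2 : p69 := Classical.byContradiction fun h => c907 h; have u3 : p12 := Classical.byContradiction fun h => c12 h; have u4 : ¬p190 := fun h => c254 h; have u5 : ¬p4 := fun h => c2 h; have u6 : ¬p192 := fun h => c256 h; have u7 : ¬p202 := fun h => c265 h; have u8 : ¬p71 := fun h => c55 h n5; have u9 : p426 := Classical.byContradiction fun h => c1014 h n5; have u10 : p73 := Classical.byContradiction fun h => c88 u8 h; have u11 : p246 := Classical.byContradiction fun h => c636 u10 h; have u12 : ¬p224 := fun h => c293 h u7 n4; have u13 : p220 := Classical.byContradiction fun h => c2221 n4 h; have u14 : p230 := Classical.byContradiction fun h => c1525 h n7 n4; have u15 : ¬p430 := fun h => c566 n1 h; have u16 : p29 := Classical.byContradiction fun h =>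 c2650 n5 h n2 u9 n1; have u17 : ¬p31 := fun h => c108 u16 h; have u18 : p30 := Classical.byContradiction fun h => c107 n1 u16 h; have u19 : ¬p264 := fun h => c1919 h n8; have u20 : p277 := Classical.byContradiction fun h => c2387 h n3 u6; have u21 : p218 := Classical.byContradiction fun h => c2290 h u17 n3 u5; have u22 : p225 := Classical.byContradiction fun h => c297 n6 u21 h; have u23 : p16 := Classical.byContradiction fun h => c3463 h n9 u22 n1 n6 n4 n2 u8 n3 u16; have u24 : p13 := Classical.byContradiction fun h => c250 h u23; have u25 : ¬p19 := fun h => c50 u24 h; have u26 : p14 := Classical.byContradiction fun h => c47 n1 u24 h; have u27 : ¬p321 := fun h => c2743 h u25 u4 u3; have u28 : p45 := Classical.byContradiction fun h => c1644 u8 h u25 u15 u9 u1 u2 u3; have u29 : ¬p241 := fun h => c769 h u27; have u30 : ¬p43 := fun h => c32 h u28; have u31 : ¬p194 := fun h => c259 h u30; have u32 : ¬p46 := fun h => c617 h u30; have u33 : ¬p44 := fun h => c180 n1 u30 h; have u34 : p50 := Classical.byContradiction fun h => c181 u32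 h; have u35 : p329 := Classical.byContradiction fun h => c3436 h u13 u34; have u36 : p0 := Classical.byContradiction fun h => c3505 h u35 n1 n2 n6 u34 n4 u26 n5 u31 u10 u29 n7; have u37 : ¬p266 := fun h => c1920 h n4 u11 n13 u36 u19 n6 u20 n11; have u38 : p294 := Classical.byContradiction fun h => c3627 h n4 n12 u20 n8 n11 n7 n5 n10 n1 n6 n13 u29 u36 u11; have u39 : ¬p265 := fun h => c1294 h n1 u37 n10; have u40 : ¬p232 := fun h => c2300 h u39 u0; have u41 : p243 := Classical.byContradiction fun h => c2293 n7 n4 h n8 u12 u40; have u42 : p242 := Classical.byContradiction fun h => c320 u41 h; have u43 : p239 := Classical.byContradiction fun h => c317 u42 h; have u44 : p240 := Classical.byContradiction fun h => c318 u42 h u29; have u45 : p339 := Classical.byContradiction fun h => c3622 n0 u38 u18 u43 u33 h u15 u9 n3 u14 u8 u40; have u46 : p135 := Classical.byContradiction fun h => c3624 n0 u38 n1 n2 u26 u31 n4 u44 n6 n5 u34 u35 u43 u18 n3 u40 u29 n7 n8 h u33; have u47 : p136 := Classical.byContradiction fun h => c3666 n1 u45 h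 n2 n3 u26 n4 u31 n5 u34 u10 u35 u18 n9 n6 u40 u29 n7 n8 u44 u38 n0 u43; have u48 : p134 := Classical.byContradiction fun h => c161 h u46; c125 u48 u47
  have c3672 : p1 → p339 → ¬p136 → p425 → p14 → ¬p194 → ¬p221 → p329 → p230 → p240 → ¬p72 → p50 → p73 → p239 → p338 → ¬p227 → p342 → False := fun n0 n1 n2 n3 n4 n5 n6 n7 n8 n9 n10 n11 n12 n13 n14 n15 n16 =>
    have u0 : ¬p203 := fun h => c631 n10 h; have u1 : ¬p340 := fun h => c435 h n14 n1; have u2 : p343 := Classical.byContradiction fun h => c1210 h n1 n2; have u3 : ¬p341 := fun h => c440 h u1; have u4 : ¬p344 := fun h => c443 h n16 u2; have u5 : p345 := Classical.byContradiction fun h => c3435 n0 u3 n15 h n3 n11 n7 n6 n4 n8 n9 n10 n5 n12 n13 u0; c449 u5 u4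
  have c3674 : ¬p339 → ¬p286 → p239 → ¬p232 → ¬p44 → p50 → p220 → ¬p430 → p426 → ¬p71 → False := fun n0 n1 n2 n3 n4 n5 n6 n7 n8 n9 =>
    have u0 : p66 := Classical.byContradiction fun h => c263 h; have u1 : ¬p70 := fun h => c937 h; have u2 : p69 := Classical.byContradiction fun h => c907 h; have u3 : p67 := Classical.byContradiction fun h => c823 h; have u4 : p73 := Classical.byContradiction fun h => c88 n9 h; have u5 : ¬p265 := fun h => c1068 n9 h n3 u3; have u6 : ¬p123 := fun h => c1196 n9 h n0 n3 u3; have u7 : p121 := Classical.byContradiction fun h => c190 h u6; have u8 : p122 := Classical.byContradiction fun h => c100 u7 h; have u9 : p89 := Classical.byContradiction fun h => c3439 u7 h u1 u2; have u10 : p124 := Classical.byContradiction fun h => c1850 u8 h u5 n0; have u11 : ¬p91 := fun h => c69 u9 h; have u12 : p92 := Classical.byContradiction fun h => c1700 u10 h u0; have u13 : ¬p427 := fun h => c3405 h n7 u11 n2 n8 u4; have u14 : ¬p96 := fun h => c73 u12 h; have u15 : p428 := Classical.byContradiction fun h => c564 u13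 h; have u16 : p324 := Classical.byContradiction fun h => c3407 h u15 u14 n7 n8 u4; c3673 n1 u16 n2 n4 n5 n3 n0 n6
  have c3675 : p1 → p338 → ¬p221 → ¬p227 → p425 → ¬p286 → ¬p72 → ¬p232 → p342 → ¬p31 → ¬p235 → ¬p229 → False := fun n0 n1 n2 n3 n4 n5 n6 n7 n8 n9 n10 n11 =>
    have u0 : p131 := Classical.byContradiction fun h => c264 h; have u1 : p429 := Classical.byContradiction fun h => c1012 h; have u2 : p69 := Classical.byContradiction fun h => c907 h; have u3 : p12 := Classical.byContradiction fun h => c12 h; have u4 : ¬p190 := fun h => c254 h; have u5 : ¬p202 := fun h => c265 h; have u6 : ¬p71 := fun h => c55 h n6; have u7 : ¬p203 := fun h => c631 n6 h; have u8 : p426 := Classical.byContradiction fun h => c1014 h n6; have u9 : p73 := Classical.byContradiction fun h => c88 u6 h; have u10 : ¬p224 := fun h => c293 h u5 n2; have u11 : p220 := Classical.byContradiction fun h => c2221 n2 h; have u12 : p230 := Classical.byContradiction fun h => c1525 h n11 n2; have u13 : ¬p430 := fun h => c566 n0 h; have u14 : p243 := Classical.byContradiction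 fun h => c2293 n11 n2 h n10 u10 n7; have u15 : ¬p17 := fun h => c2323 h n9 n7; have u16 : p242 := Classical.byContradiction fun h => c320 u14 h; have u17 : p16 := Classical.byContradiction fun h => c15 n0 h u15; have u18 : p239 := Classical.byContradiction fun h => c317 u16 h; have u19 : p13 := Classical.byContradiction fun h => c250 h u17; have u20 : ¬p19 := fun h => c50 u19 h; have u21 : p14 := Classical.byContradiction fun h => c47 n0 u19 h; have u22 : ¬p321 := fun h => c2743 h u20 u4 u3; have u23 : p45 := Classical.byContradiction fun h => c1644 u6 h u20 u13 u8 u1 u2 u3; have u24 : ¬p241 := fun h => c769 h u22; have u25 : ¬p43 := fun h => c32 h u23; have u26 : p240 := Classical.byContradiction fun h => c318 u16 h u24; have u27 : ¬p194 := fun h => c259 h u25; have u28 : ¬p46 := fun h => c617 h u25; have u29 : ¬p44 := fun h => c180 n0 u25 h; have u30 : p50 := Classical.byContradiction fun h => c181 u28 h; have u31 : p329 := Classical.byContradiction fun h => c3436 h u11 u30; have u32 : p339 := Classical.byContradiction fun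 h => c3674 h n5 u18 n7 u29 u30 u11 u13 u8 u6; have u33 : ¬p340 := fun h => c435 h n1 u32; have u34 : p136 := Classical.byContradiction fun h => c3672 n0 u32 h n4 u21 u27 n2 u31 u12 u26 n6 u30 u9 u18 n1 n3 n8; have u35 : ¬p341 := fun h => c440 h u33; have u36 : ¬p134 := fun h => c125 h u34; have u37 : p345 := Classical.byContradiction fun h => c3435 n0 u35 n3 h n4 u30 u31 n2 u21 u12 u26 n6 u27 u9 u18 u7; have u38 : ¬p135 := fun h => c161 u36 h; have u39 : p344 := Classical.byContradiction fun h => c449 u37 h; have u40 : p343 := Classical.byContradiction fun h => c2973 h u32 u38 u0; c443 u39 n8 u40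
  have c3676 : p1 → ¬p341 → ¬p345 → p425 → ¬p227 → p14 → ¬p221 → p230 → ¬p72 → p242 → False := fun n0 n1 n2 n3 n4 n5 n6 n7 n8 n9 =>
    have u0 : p429 := Classical.byContradiction fun h => c1012 h; have u1 : p69 := Classical.byContradiction fun h => c907 h; have u2 : p12 := Classical.byContradiction fun h => c12 h; have u3 : ¬p190 := fun h => c254 h; have u4 : ¬p71 := fun h => c55 h n8; have u5 : ¬p203 := fun h => c631 n8 h; have u6 : p426 := Classical.byContradiction fun h => c1014 h n8; have u7 : p73 := Classical.byContradiction fun h => c88 u4 h; have u8 : p220 := Classical.byContradiction fun h => c2221 n6 h; have u9 : ¬p430 := fun h => c566 n0 h; have u10 : p239 := Classical.byContradiction fun h => c317 n9 h; have u11 : p13 := Classical.byContradiction fun h => c13 h n5; have u12 : ¬p19 := fun h => c50 u11 h; have u13 : ¬p321 := fun h => c2743 h u12 u3 u2; have u14 : p45 := Classical.byContradiction fun h => c1644 u4 h u12 u9 u6 u0 u1 u2; have u15 : ¬p241 := fun h => c769 h u13; have u16 : ¬p43 := fun h => c32 h u14; have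 u17 : p240 := Classical.byContradiction fun h => c318 n9 h u15; have u18 : ¬p194 := fun h => c259 h u16; have u19 : ¬p46 := fun h => c617 h u16; have u20 : p50 := Classical.byContradiction fun h => c181 u19 h; have u21 : p329 := Classical.byContradiction fun h => c3436 h u8 u20; c3435 n0 n1 n4 n2 n3 u20 u21 n6 n5 n7 u17 n8 u18 u7 u10 u5
  have c3677 : ¬p0 → ¬p72 → ¬p227 → p1 → ¬p221 → p425 → ¬p229 → ¬p261 → False := fun n0 n1 n2 n3 n4 n5 n6 n7 =>
    have u0 : p67 := Classical.byContradiction fun h => c823 h; have u1 : ¬p190 := fun h => c254 h; have u2 : p426 := Classical.byContradiction fun h => c1014 h n1; have u3 : p230 := Classical.byContradiction fun h => c1525 h n6 n4; have u4 : ¬p341 := fun h => c439 h n0; have u5 : ¬p345 := fun h => c448 h n0; have u6 : p276 := Classical.byContradiction fun h => c1241 n0 h n2 n7; have u7 : p243 := Classical.byContradiction fun h => c2295 n0 h n4 n6; have u8 : p275 := Classical.byContradiction fun h => c367 u6 h; have u9 : p242 := Classical.byContradiction fun h => c320 u7 h; have u10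 : ¬p14 := fun h => c3676 n3 u4 u5 n5 n2 h n4 u3 n1 u9; have u11 : ¬p414 := fun h => c595 u10 h; have u12 : ¬p13 := fun h => c47 n3 h u10; have u13 : ¬p273 := fun h => c2714 h n1 u11 u0 u1; have u14 : ¬p16 := fun h => c250 u12 h; have u15 : p274 := Classical.byContradiction fun h => c365 u8 u13 h; c1810 u15 n1 u5 n3 u14 n2 n4 u4 n5 u2
  have c3678 : p1 → ¬p227 → ¬p297 → ¬p221 → p263 → ¬p14 → p0 → p279 → ¬p31 → False := fun n0 n1 n2 n3 n4 n5 n6 n7 n8 =>
    have u0 : ¬p68 := fun h => c799 h; have u1 : ¬p290 := fun h => c1467 h; have u2 : ¬p414 := fun h => c595 n5 h; have u3 : ¬p13 := fun h => c47 n0 h n5; have u4 : ¬p289 := fun h => c3171 n0 h u2; have u5 : ¬p16 := fun h => c250 u3 h; have u6 : ¬p291 := fun h => c383 h u4 u1; have u7 : p17 := Classical.byContradiction fun h => c15 n0 u5 h; have u8 : ¬p292 := fun h => c387 h u6; have u9 : p232 := Classical.byContradiction fun h => c2323 u7 n8 h; have u10 : p284 := Classical.byContradiction fun h => c1794 h n3 n2 u8 n1 n6 n7; have u11 : p265 := Classical.byContradiction fun h =>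 c2300 u9 h u0; have u12 : ¬p266 := fun h => c550 u10 h; c1294 u11 n0 u12 n4
  have c3679 : p232 → ¬p44 → p1 → ¬p194 → p230 → ¬p221 → p425 → p14 → p30 → p329 → ¬p316 → ¬p72 → p0 → p279 → p22 → p263 → p300 → ¬p227 → ¬p297 → False := fun n0 n1 n2 n3 n4 n5 n6 n7 n8 n9 n10 n11 n12 n13 n14 n15 n16 n17 n18 =>
    have u0 : p137 := Classical.byContradiction fun h => c889 h; have u1 : ¬p290 := fun h => c1467 h; have u2 : p69 := Classical.byContradiction fun h => c907 h; have u3 : ¬p68 := fun h => c799 h; have u4 : p265 := Classical.byContradiction fun h => c2300 n0 h u3; have u5 : p266 := Classical.byContradiction fun h => c1294 u4 n2 h n15; have u6 : ¬p284 := fun h => c550 h u5; have u7 : p286 := Classical.byContradiction fun h => c2389 u6 h n12 n17 n13 n5; have u8 : p292 := Classical.byContradiction fun h => c1794 u6 n5 n18 h n17 n12 n13; have u9 : p282 := Classical.byContradiction fun h => c2532 u6 h n5 n17 n12 n13; have u10 : p291 := Classical.byContradiction fun h => c387 u8 h; have u11 : p278 := Classical.byContradiction fun h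 => c1085 h u9 u2; have u12 : p289 := Classical.byContradiction fun h => c383 u10 h u1; have u13 : p299 := Classical.byContradiction fun h => c1099 h u11 u0; have u14 : p135 := Classical.byContradiction fun h => c699 u12 h; have u15 : ¬p301 := fun h => c394 h u13 n16; have u16 : p303 := Classical.byContradiction fun h => c1095 h n11 u13; have u17 : p134 := Classical.byContradiction fun h => c161 h u14; have u18 : p136 := Classical.byContradiction fun h => c3631 n0 n2 h u14 u7 n1 n3 n4 n5 n6 n7 u11 n8 u12 n9 n10 n11 u16 n12 u15 n13 n14 n15; c125 u17 u18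
  have c3680 : p339 → p425 → p14 → ¬p136 → ¬p194 → ¬p221 → p329 → p230 → p240 → ¬p72 → p50 → p73 → p239 → p1 → ¬p227 → p143 → p309 → False := fun n0 n1 n2 n3 n4 n5 n6 n7 n8 n9 n10 n11 n12 n13 n14 n15 n16 =>
    have u0 : p142 := Classical.byContradiction fun h => c194 h n15; have u1 : p140 := Classical.byContradiction fun h => c709 h n15; have u2 : ¬p144 := fun h => c130 u0 h; have u3 : p338 := Classical.byContradiction fun h => c710 h u1; have u4 : ¬p166 := fun h => c1536 h u2 n16; have u5 : ¬p342 := fun h => c3672 n13 n0 n3 n1 n2 n4 n5 n6 n7 n8 n9 n10 n11 n12 u3 n14 h; have u6 : p164 := Classical.byContradiction fun h => c202 h u4; have u7 : ¬p165 := fun h => c735 u5 h; c165 u6 u7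
  have c3682 : p1 → p286 → ¬p227 → p289 → ¬p232 → p14 → ¬p72 → p242 → ¬p194 → p329 → p50 → p425 → ¬p241 → ¬p229 → ¬p235 → ¬p79 → ¬p44 → ¬p316 → p0 → p300 → p263 → ¬p35 → p81 → False := fun n0 n1 n2 n3 n4 n5 n6 n7 n8 n9 n10 n11 n12 n13 n14 n15 n16 n17 n18 n19 n20 n21 n22 =>
    have u0 : p69 := Classical.byContradiction fun h => c907 h; have u1 : ¬p133 := fun h => c1436 h; have u2 : ¬p71 := fun h => c55 h n6; have u3 : p426 := Classical.byContradiction fun h => c1014 h n6; have u4 : p73 := Classical.byContradiction fun h => c88 u2 h; have u5 : ¬p74 := fun h => c60 h n15; have u6 : p76 := Classical.byContradiction fun h => c112 u5 h; have u7 : ¬p221 := fun h => c3590 u6 n6 h; have u8 : p230 := Classical.byContradiction fun h => c1525 h n13 u7; have u9 : ¬p430 := fun h => c566 n0 h; have u10 : p29 := Classical.byContradiction fun h => c2650 n6 h n11 u3 n0; have u11 : p30 := Classical.byContradiction fun h => c107 n0 u10 h; have u12 : p239 := Classical.byContradiction fun h => c317 n7 h; have u13 : p240 := Classical.byContradiction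 fun h => c318 n7 h n12; have u14 : p307 := Classical.byContradiction fun h => c2451 h n1 u1; have u15 : p135 := Classical.byContradiction fun h => c699 n3 h; have u16 : p309 := Classical.byContradiction fun h => c2685 h n0 n3 u11 n1; have u17 : ¬p75 := fun h => c3138 n3 n14 h; have u18 : p134 := Classical.byContradiction fun h => c161 h u15; have u19 : ¬p136 := fun h => c125 u18 h; have u20 : p294 := Classical.byContradiction fun h => c3630 h n0 u19 n1 n16 n8 u7 n11 n5 u4 u15 n9 n17 n6 n18 n19 n20 n21 n22 n12 n14 n13 u10; have u21 : p339 := Classical.byContradiction fun h => c3622 n15 u20 u11 u12 n16 h u9 u3 n1 u8 u2 n4; have u22 : ¬p143 := fun h => c3680 u21 n11 n5 u19 n8 u7 n9 u8 u13 n6 n10 u4 u12 n0 n2 h u16; have u23 : ¬p142 := fun h => c129 h u22; have u24 : ¬p398 := fun h => c708 u22 h; have u25 : ¬p92 := fun h => c3620 n15 u24 h u20 u9 u3 u4 u12; have u26 : ¬p93 := fun h => c182 u25 h; have u27 : p96 := Classical.byContradiction fun h => c186 u25 h; have u28 : p338 := Classical.byContradiction fun h => c3486 u5 u26 n0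 n11 n5 n8 u7 n9 n6 n10 u4 n4 u11 n1 n2 h u12 n12 n13 n14; have u29 : ¬p428 := fun h => c3427 h u26 u13 n11 u9 u0; have u30 : ¬p340 := fun h => c435 h u28 u21; have u31 : p427 := Classical.byContradiction fun h => c564 h u29; have u32 : ¬p341 := fun h => c440 h u30; have u33 : ¬p323 := fun h => c3632 h u31 n11 u12 u9 u3 u4; have u34 : p345 := Classical.byContradiction fun h => c3676 n0 u32 h n11 n2 n5 u7 u8 n6 n7; have u35 : p344 := Classical.byContradiction fun h => c449 u34 h; have u36 : ¬p409 := fun h => c522 u35 h; have u37 : ¬p408 := fun h => c1061 h u36 n0 u14; have u38 : ¬p418 := fun h => c1171 h u37 u19 n4; have u39 : p328 := Classical.byContradiction fun h => c3396 h u38 u27 u31 u12 n11 u9 u0; c3681 u33 u23 u39 u38 u17 u12 u6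
  have c3683 : ¬p79 → p1 → p286 → p425 → ¬p72 → ¬p227 → ¬p221 → ¬p235 → ¬p229 → p263 → p81 → ¬p297 → ¬p232 → p14 → p242 → ¬p194 → p329 → p50 → ¬p241 → ¬p44 → ¬p316 → p0 → p300 → ¬p35 → False := fun n0 n1 n2 n3 n4 n5 n6 n7 n8 n9 n10 n11 n12 n13 n14 n15 n16 n17 n18 n19 n20 n21 n22 n23 =>
    have u0 : ¬p290 := fun h => c1467 h; have u1 : ¬p289 := fun h => c3682 n1 n2 n5 h n12 n13 n4 n14 n15 n16 n17 n3 n18 n8 n7 n0 n19 n20 n21 n22 n9 n23 n10; have u2 : ¬p291 := fun h => c383 h u1 u0; have u3 : p292 := Classical.byContradiction fun h => c3671 n0 n1 n3 n2 n6 n4 n5 n8 n7 u1 n9 h n10 n11; c387 u3 u2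
  have c3685 : ¬p79 → ¬p229 → p1 → ¬p72 → ¬p221 → ¬p227 → p263 → p81 → p246 → ¬p78 → False := fun n0 n1 n2 n3 n4 n5 n6 n7 n8 n9 =>
    have u0 : p67 := Classical.byContradiction fun h => c823 h; have u1 : p8 := Classical.byContradiction fun h => c7 h; have u2 : ¬p193 := fun h => c257 h; have u3 : p12 := Classical.byContradiction fun h => c12 h; have u4 : p429 := Classical.byContradiction fun h => c1012 h; have u5 : p69 := Classical.byContradiction fun h => c907 h; have u6 : ¬p191 := fun h => c255 h; have u7 : ¬p190 := fun h => c254 h; have u8 : ¬p202 := fun h => c265 h; have u9 : p245 := Classical.byContradiction fun h => c1814 h; have u10 : ¬p71 := fun h => c55 h n3; have u11 : p426 := Classical.byContradiction fun h => c1014 h n3; have u12 : ¬p247 := fun h => c323 h u9 n8; have u13 : ¬p224 := fun h => c293 h u8 n4; have u14 : p220 := Classical.byContradiction fun h => c2221 n4 h; have u15 : ¬p261 := fun h => c346 h u12 n4; have u16 : p279 := Classical.byContradiction fun h => c645 h n7; have u17 : p230 := Classical.byContradiction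 fun h => c1525 h n1 n4; have u18 : ¬p430 := fun h => c566 n2 h; have u19 : ¬p424 := fun h => c1036 n2 h; have u20 : p425 := Classical.byContradiction fun h => c562 u19 h; have u21 : p29 := Classical.byContradiction fun h => c2650 n3 h u20 u11 n2; have u22 : ¬p31 := fun h => c108 u21 h; have u23 : p32 := Classical.byContradiction fun h => c610 h u21; have u24 : p30 := Classical.byContradiction fun h => c107 n2 u21 h; have u25 : ¬p35 := fun h => c109 u23 h; have u26 : ¬p293 := fun h => c3670 n0 h n2 n4 u20 u21 n3 n5 n1 n9 u25 n7; have u27 : ¬p296 := fun h => c388 h u26; have u28 : ¬p297 := fun h => c392 h u27; have u29 : p0 := Classical.byContradiction fun h => c3677 h n3 n5 n2 n4 u20 n1 u15; have u30 : p14 := Classical.byContradiction fun h => c3678 n2 n5 u28 n4 n6 h u29 u16 u22; have u31 : p13 := Classical.byContradiction fun h => c13 h u30; have u32 : ¬p19 := fun h => c50 u31 h; have u33 : ¬p321 := fun h => c2743 h u32 u7 u3; have u34 : ¬p23 := fun h => c2036 h u32 n8 u6 u3; have u35 : p45 := Classical.byContradiction fun h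 => c1644 u10 h u32 u18 u11 u4 u5 u3; have u36 : ¬p241 := fun h => c769 h u33; have u37 : p21 := Classical.byContradiction fun h => c19 h u34; have u38 : ¬p43 := fun h => c32 h u35; have u39 : ¬p26 := fun h => c84 u37 h; have u40 : p22 := Classical.byContradiction fun h => c82 n2 u37 h; have u41 : ¬p194 := fun h => c259 h u38; have u42 : ¬p46 := fun h => c617 h u38; have u43 : ¬p44 := fun h => c180 n2 u38 h; have u44 : ¬p235 := fun h => c3437 n4 u40 h n5 u30 u32 u36 u39 u12; have u45 : p50 := Classical.byContradiction fun h => c181 u42 h; have u46 : p40 := Classical.byContradiction fun h => c3177 h u44 u30; have u47 : p329 := Classical.byContradiction fun h => c3436 h u14 u45; have u48 : p39 := Classical.byContradiction fun h => c28 h u46; have u49 : ¬p42 := fun h => c147 u48 h; have u50 : p300 := Classical.byContradiction fun h => c3175 h u14 u49; have u51 : ¬p316 := fun h => c2820 h u50 u32 u2 u3; have u52 : ¬p232 := fun h => c3679 h u43 n2 u41 u17 n4 u20 u30 u24 u47 u51 n3 u29 u16 u40 n6 u50 n5 u28; have u53 : p243 := Classical.byContradiction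 fun h => c2293 n1 n4 h u44 u13 u52; have u54 : p242 := Classical.byContradiction fun h => c320 u53 h; have u55 : p239 := Classical.byContradiction fun h => c317 u54 h; have u56 : ¬p286 := fun h => c3683 n0 n2 h u20 n3 n5 n4 u44 n1 n6 n7 u28 u52 u30 u54 u41 u47 u45 u36 u43 u51 u29 u50 u25; have u57 : ¬p141 := fun h => c2597 u56 h u1; have u58 : p339 := Classical.byContradiction fun h => c3674 h u56 u55 u52 u43 u45 u14 u18 u11 u10; have u59 : p139 := Classical.byContradiction fun h => c197 h u57; have u60 : p140 := Classical.byContradiction fun h => c128 u59 h; have u61 : p338 := Classical.byContradiction fun h => c710 h u60; have u62 : ¬p340 := fun h => c435 h u61 u58; have u63 : ¬p342 := fun h => c3675 n2 u61 n4 n5 u20 u56 n3 u52 h u22 u44 n1; have u64 : ¬p341 := fun h => c440 h u62; have u65 : ¬p122 := fun h => c1208 h u63 u44 u0; have u66 : p345 := Classical.byContradiction fun h => c3676 n2 u64 h u20 n5 u30 n4 u17 n3 u54; have u67 : ¬p121 := fun h => c100 h u65; have u68 : p344 := Classical.byContradiction fun h => c449 u66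 h; have u69 : p123 := Classical.byContradiction fun h => c190 u67 h; have u70 : p337 := Classical.byContradiction fun h => c441 u68 h; have u71 : ¬p89 := fun h => c2384 u69 u10 h; have u72 : p91 := Classical.byContradiction fun h => c184 u71 h; c3684 u56 u72 u70 u52
  have c3686 : ¬p79 → ¬p72 → ¬p205 → p246 → ¬p107 → False := fun n0 n1 n2 n3 n4 =>
    have u0 : p137 := Classical.byContradiction fun h => c889 h; have u1 : ¬p290 := fun h => c1467 h; have u2 : p69 := Classical.byContradiction fun h => c907 h; have u3 : ¬p68 := fun h => c799 h; have u4 : p66 := Classical.byContradiction fun h => c263 h; have u5 : ¬p202 := fun h => c265 h; have u6 : p245 := Classical.byContradiction fun h => c1814 h; have u7 : ¬p247 := fun h => c323 h u6 n3; have u8 : ¬p74 := fun h => c60 h n0; have u9 : p76 := Classical.byContradiction fun h => c112 u8 h; have u10 : ¬p77 := fun h => c637 u8 h; have u11 : ¬p221 := fun h => c3590 u9 n1 h; have u12 : ¬p78 := fun h => c110 u10 h; have u13 : p81 := Classical.byContradiction fun h => c114 u10 h; have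 u14 : ¬p224 := fun h => c293 h u5 u11; have u15 : p226 := Classical.byContradiction fun h => c1283 h n1 u11; have u16 : ¬p227 := fun h => c1088 n1 h u11 u15; have u17 : ¬p261 := fun h => c346 h u7 u11; have u18 : p279 := Classical.byContradiction fun h => c645 h u13; have u19 : ¬p229 := fun h => c300 h n2 u16; have u20 : p230 := Classical.byContradiction fun h => c1525 h u19 u11; have u21 : p263 := Classical.byContradiction fun h => c1289 h n4 u20 u4; have u22 : ¬p1 := fun h => c3685 n0 u19 h n1 u11 u16 u21 u13 n3 u12; have u23 : ¬p243 := fun h => c319 h u22; have u24 : ¬p276 := fun h => c366 h u22; have u25 : ¬p297 := fun h => c391 h u22; have u26 : ¬p318 := fun h => c411 h u22; have u27 : ¬p235 := fun h => c3182 n1 u7 u22 u11 u16 h n2 u15; have u28 : p0 := Classical.byContradiction fun h => c2295 h u23 u11 u19; have u29 : p232 := Classical.byContradiction fun h => c2293 u19 u11 u23 u27 u14 h; have u30 : ¬p310 := fun h => c1831 h u11 u24 u18 u25 u16 u17; have u31 : p265 := Classical.byContradiction fun h => c2300 u29 h u3;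 have u32 : ¬p311 := fun h => c405 h u30; have u33 : p266 := Classical.byContradiction fun h => c3172 u31 u21 h u24 u16 u17; have u34 : ¬p284 := fun h => c550 h u33; have u35 : p292 := Classical.byContradiction fun h => c1794 u34 u11 u25 h u16 u28 u18; have u36 : p282 := Classical.byContradiction fun h => c2532 u34 h u11 u16 u28 u18; have u37 : p291 := Classical.byContradiction fun h => c387 u35 h; have u38 : p278 := Classical.byContradiction fun h => c1085 h u36 u2; have u39 : p289 := Classical.byContradiction fun h => c383 u37 h u1; have u40 : p299 := Classical.byContradiction fun h => c1099 h u38 u0; have u41 : p135 := Classical.byContradiction fun h => c699 u39 h; have u42 : p303 := Classical.byContradiction fun h => c1095 h n1 u40; have u43 : p309 := Classical.byContradiction fun h => c3583 h u11 u18 u22 u41 u15 u23 u25 n0; have u44 : p301 := Classical.byContradiction fun h => c1675 n1 u32 u26 u42 u28 h u11 u15; have u45 : p84 := Classical.byContradiction fun h => c1080 u29 h u43; have u46 : ¬p300 := fun h => c394 u44 u40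 h; have u47 : ¬p82 := fun h => c64 h u45; have u48 : ¬p88 := fun h => c653 u46 h; have u49 : ¬p85 := fun h => c646 u47 h; c153 u49 u48
  have c3687 : ¬p205 → ¬p232 → ¬p1 → ¬p247 → ¬p72 → False := fun n0 n1 n2 n3 n4 =>
    have u0 : ¬p202 := fun h => c265 h; have u1 : ¬p216 := fun h => c285 h n2; have u2 : ¬p243 := fun h => c319 h n2; have u3 : ¬p259 := fun h => c342 h n2; have u4 : ¬p221 := fun h => c886 n0 h u1; have u5 : ¬p227 := fun h => c2541 h n3 u3; have u6 : ¬p224 := fun h => c293 h u0 u4; have u7 : p226 := Classical.byContradiction fun h => c1283 h n4 u4; have u8 : ¬p235 := fun h => c3182 n4 n3 n2 u4 u5 h n0 u7; have u9 : ¬p229 := fun h => c300 h n0 u5; c2293 u9 u4 u2 u8 u6 n1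
  have c3688 : p343 → ¬p430 → p425 → p239 → ¬p76 → ¬p135 → ¬p231 → p240 → p307 → p37 → p344 → False := fun n0 n1 n2 n3 n4 n5 n6 n7 n8 n9 n10 =>
    have u0 : p69 := Classical.byContradiction fun h => c907 h; have u1 : ¬p133 := fun h => c1436 h; have u2 : ¬p409 := fun h => c522 n10 h; have u3 : ¬p342 := fun h => c443 n10 h n0; have u4 : ¬p408 := fun h => c519 u2 n8 n9 h; have u5 : ¬p338 := fun h => c1740 u3 n5 h; have u6 : ¬p399 := fun h => c3473 h u4 u1; have u7 : ¬p90 := fun h => c3090 u5 h n6; have u8 : ¬p427 := fun h => c3471 h u5 n4 n3 u6 n6 n2 n1 u0; have u9 : ¬p93 := fun h => c656 u7 h; have u10 : p428 := Classical.byContradiction fun h => c564 u8 h; c3427 u10 u9 n7 n2 n1 u0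
  have c3689 : ¬p44 → ¬p344 → p339 → p1 → p425 → ¬p227 → p14 → ¬p221 → p230 → ¬p72 → p242 → False := fun n0 n1 n2 n3 n4 n5 n6 n7 n8 n9 n10 =>
    have u0 : p132 := Classical.byContradiction fun h => c1291 h; have u1 : ¬p345 := fun h => c449 h n1; have u2 : p341 := Classical.byContradiction fun h => c3676 n3 h u1 n4 n5 n6 n7 n8 n9 n10; have u3 : p340 := Classical.byContradiction fun h => c440 u2 h; have u4 : p337 := Classical.byContradiction fun h => c433 u3 h; have u5 : ¬p338 := fun h => c435 u3 h n2; have u6 : p342 := Classical.byContradiction fun h => c444 n1 u4 n0 h; c1481 u5 u6 u0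
  have c3690 : p1 → p240 → ¬p76 → p425 → ¬p231 → p37 → p339 → p286 → ¬p289 → ¬p44 → ¬p227 → p14 → ¬p221 → p230 → ¬p72 → p242 → False := fun n0 n1 n2 n3 n4 n5 n6 n7 n8 n9 n10 n11 n12 n13 n14 n15 =>
    have u0 : p131 := Classical.byContradiction fun h => c264 h; have u1 : ¬p133 := fun h => c1436 h; have u2 : ¬p430 := fun h => c566 n0 h; have u3 : p239 := Classical.byContradiction fun h => c317 n15 h; have u4 : p307 := Classical.byContradiction fun h => c2451 h n7 u1; have u5 : p344 := Classical.byContradiction fun h => c3689 n9 h n6 n0 n3 n10 n11 n12 n13 n14 n15; have u6 : p136 := Classical.byContradiction fun h => c2347 n0 u5 h n7 n8 n6; have u7 : ¬p134 := fun h => c125 h u6; have u8 : ¬p135 := fun h => c161 u7 h; have u9 : p343 := Classical.byContradiction fun h => c2973 h n6 u8 u0; c3688 u9 u2 n3 u3 n2 u8 n4 n1 u4 n5 u5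
  have c3692 : ¬p44 → p50 → ¬p221 → ¬p76 → p425 → p14 → ¬p72 → ¬p241 → p75 → ¬p205 → p22 → ¬p19 → ¬p26 → ¬p247 → False := fun n0 n1 n2 n3 n4 n5 n6 n7 n8 n9 n10 n11 n12 n13 =>
    have u0 : p66 := Classical.byContradiction fun h => c263 h; have u1 : ¬p70 := fun h => c937 h; have u2 : p69 := Classical.byContradiction fun h => c907 h; have u3 : p67 := Classical.byContradiction fun h => c823 h; have u4 : p132 := Classical.byContradiction fun h => c1291 h; have u5 : ¬p202 := fun h => c265 h; have u6 : p201 := Classical.byContradiction fun h => c1826 h; have u7 : ¬p71 := fun h => c55 h n6; have u8 : p426 := Classical.byContradiction fun h => c1014 h n6; have u9 : p73 := Classical.byContradiction fun h => c88 u7 h; have u10 : ¬p232 := fun h => c640 h n3; have u11 : ¬p265 := fun h => c1068 u7 h u10 u3; have u12 : p1 := Classical.byContradiction fun h => c3687 n9 u10 h n13 n6; have u13 : ¬p430 := fun h => c566 u12 h; have u14 : p218 := Classical.byContradiction fun h => c1898 h n11 u6; have u15 : ¬p224 := fun h => c293 h u5 n2; have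 u16 : p220 := Classical.byContradiction fun h => c2221 n2 h; have u17 : p226 := Classical.byContradiction fun h => c1283 h n6 n2; have u18 : ¬p227 := fun h => c1088 n6 h n2 u17; have u19 : ¬p235 := fun h => c3437 n2 n10 h u18 n5 n11 n7 n12 n13; have u20 : ¬p229 := fun h => c300 h n9 u18; have u21 : ¬p231 := fun h => c1910 h u19 u4; have u22 : ¬p289 := fun h => c3138 h u19 n8; have u23 : p243 := Classical.byContradiction fun h => c2293 u20 n2 h u19 u15 u10; have u24 : p40 := Classical.byContradiction fun h => c3177 h u19 n5; have u25 : p230 := Classical.byContradiction fun h => c1525 h u20 n2; have u26 : p242 := Classical.byContradiction fun h => c320 u23 h; have u27 : p39 := Classical.byContradiction fun h => c28 h u24; have u28 : p239 := Classical.byContradiction fun h => c317 u26 h; have u29 : p240 := Classical.byContradiction fun h => c318 u26 h n7; have u30 : p36 := Classical.byContradiction fun h => c253 h u27; have u31 : p286 := Classical.byContradiction fun h => c1991 h u16 n3 u28 u14; have u32 : p37 := Classical.byContradiction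 fun h => c144 u12 u30 h; have u33 : ¬p339 := fun h => c3690 u12 u29 n3 n4 u21 u32 h u31 u22 n0 u18 n5 n2 u25 n6 u26; have u34 : ¬p123 := fun h => c1196 u7 h u33 u10 u3; have u35 : p121 := Classical.byContradiction fun h => c190 h u34; have u36 : p122 := Classical.byContradiction fun h => c100 u35 h; have u37 : p89 := Classical.byContradiction fun h => c3439 u35 h u1 u2; have u38 : p124 := Classical.byContradiction fun h => c1850 u36 h u11 u33; have u39 : ¬p91 := fun h => c69 u37 h; have u40 : p92 := Classical.byContradiction fun h => c1700 u38 h u0; have u41 : p337 := Classical.byContradiction fun h => c3321 h u39 u25; have u42 : ¬p427 := fun h => c3405 h u13 u39 u28 u8 u9; have u43 : ¬p96 := fun h => c73 u40 h; have u44 : p340 := Classical.byContradiction fun h => c436 h u41 n0 u33; have u45 : p428 := Classical.byContradiction fun h => c564 u42 h; have u46 : ¬p400 := fun h => c509 u44 h; have u47 : p324 := Classical.byContradiction fun h => c3407 h u45 u43 u13 u8 u9; have u48 : ¬p398 := fun h => c1930 u46 h u31 u12; c3691 u33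 u48 u47 u29 u21 u16 n1 n3
  have c3693 : ¬p229 → ¬p230 → p1 → ¬p224 → ¬p234 → False := fun n0 n1 n2 n3 n4 =>
    have u0 : ¬p190 := fun h => c254 h; have u1 : p201 := Classical.byContradiction fun h => c1826 h; have u2 : p6 := Classical.byContradiction fun h => c4 h; have u3 : ¬p237 := fun h => c308 h n1; have u4 : ¬p239 := fun h => c1204 n1 h u2; have u5 : ¬p217 := fun h => c2155 n1 h u1; have u6 : ¬p319 := fun h => c2165 n1 h u5; have u7 : ¬p238 := fun h => c316 h u3; have u8 : ¬p242 := fun h => c317 h u4; have u9 : ¬p322 := fun h => c414 h u6; have u10 : p243 := Classical.byContradiction fun h => c416 n2 u0 u9 n3 n0 n4 u7 h; c320 u10 u8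
  have c3694 : ¬p72 → False := fun n0 =>
    have u0 : p66 := Classical.byContradiction fun h => c263 h; have u1 : ¬p202 := fun h => c265 h; have u2 : ¬p190 := fun h => c254 h; have u3 : p429 := Classical.byContradiction fun h => c1012 h; have u4 : p69 := Classical.byContradiction fun h => c907 h; have u5 : p12 := Classical.byContradiction fun h => c12 h; have u6 : ¬p191 := fun h => c255 h; have u7 : p245 := Classical.byContradiction fun h => c1814 h; have u8 : ¬p204 := fun h => c938 h; have u9 : ¬p71 := fun h => c55 h n0; have u10 : ¬p203 := fun h => c631 n0 h; have u11 : p426 := Classical.byContradiction fun h => c1014 h n0; have u12 : ¬p107 := fun h => c85 u9 h; have u13 : p73 := Classical.byContradiction fun h => c88 u9 h; have u14 : ¬p205 := fun h => c267 h u10 u8; have u15 : p246 := Classical.byContradiction fun h => c636 u13 h; have u16 : ¬p247 := fun h => c323 h u7 u15; have u17 : p79 := Classical.byContradiction fun h => c3686 h n0 u14 u15 u12; have u18 : p74 := Classical.byContradiction fun h => c115 h u17; have u19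 : p75 := Classical.byContradiction fun h => c57 u18 h; have u20 : ¬p76 := fun h => c58 u18 h; have u21 : ¬p232 := fun h => c640 h u20; have u22 : p1 := Classical.byContradiction fun h => c3687 u14 u21 h u16 n0; have u23 : ¬p430 := fun h => c566 u22 h; have u24 : ¬p424 := fun h => c1036 u22 h; have u25 : p425 := Classical.byContradiction fun h => c562 u24 h; have u26 : p29 := Classical.byContradiction fun h => c2650 n0 h u25 u11 u22; have u27 : ¬p31 := fun h => c108 u26 h; have u28 : p30 := Classical.byContradiction fun h => c107 u22 u26 h; have u29 : ¬p17 := fun h => c2323 h u27 u21; have u30 : p16 := Classical.byContradiction fun h => c15 u22 h u29; have u31 : p13 := Classical.byContradiction fun h => c250 h u30; have u32 : ¬p19 := fun h => c50 u31 h; have u33 : p14 := Classical.byContradiction fun h => c47 u22 u31 h; have u34 : ¬p321 := fun h => c2743 h u32 u2 u5; have u35 : ¬p23 := fun h => c2036 h u32 u15 u6 u5; have u36 : p45 := Classical.byContradiction fun h => c1644 u9 h u32 u23 u11 u3 u4 u5; have u37 : ¬p241 := fun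 h => c769 h u34; have u38 : p21 := Classical.byContradiction fun h => c19 h u35; have u39 : ¬p43 := fun h => c32 h u36; have u40 : ¬p26 := fun h => c84 u38 h; have u41 : p22 := Classical.byContradiction fun h => c82 u22 u38 h; have u42 : ¬p46 := fun h => c617 h u39; have u43 : ¬p44 := fun h => c180 u22 u39 h; have u44 : p50 := Classical.byContradiction fun h => c181 u42 h; have u45 : p221 := Classical.byContradiction fun h => c3692 u43 u44 h u20 u25 u33 n0 u37 u19 u14 u41 u32 u40 u16; have u46 : p216 := Classical.byContradiction fun h => c886 u14 u45 h; have u47 : p206 := Classical.byContradiction fun h => c1224 h u14 u45; have u48 : ¬p416 := fun h => c534 u22 u45 h; have u49 : p227 := Classical.byContradiction fun h => c1589 u9 h u45; have u50 : p215 := Classical.byContradiction fun h => c286 u46 h; have u51 : ¬p231 := fun h => c2150 h u47 u2; have u52 : p222 := Classical.byContradiction fun h => c2167 h u19 u47; have u53 : p259 := Classical.byContradiction fun h => c2541 u49 u16 h; have u54 : ¬p223 := fun h => c546 u22 u50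 h; have u55 : ¬p233 := fun h => c304 h u51 u21; have u56 : ¬p224 := fun h => c294 h u1 u52 u54; have u57 : p258 := Classical.byContradiction fun h => c343 u53 h; have u58 : ¬p234 := fun h => c307 h u55; have u59 : ¬p228 := fun h => c561 u22 u57 h; have u60 : ¬p229 := fun h => c301 h u14 u0 u9 u52 u59; have u61 : p230 := Classical.byContradiction fun h => c3693 u60 h u22 u56 u58; have u62 : ¬p414 := fun h => c532 u48 u61 h; have u63 : ¬p289 := fun h => c3171 u22 h u62; have u64 : ¬p37 := fun h => c3068 n0 h u51 u62 u14 u27 u22 u49 u16; have u65 : p40 := Classical.byContradiction fun h => c2880 h u28 u63; have u66 : ¬p36 := fun h => c144 u22 h u64; have u67 : p39 := Classical.byContradiction fun h => c28 h u65; c253 u66 u67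
  have c3695 : ¬p71 → False := fun n0 =>
    have u0 : p72 := Classical.byContradiction fun h => c3694 h; c87 n0 u0
  have c3696 : p73 → False := fun n0 =>
    have u0 : p71 := Classical.byContradiction fun h => c3695 h; c56 u0 n0
  have c3697 : p227 → p1 → p221 → ¬p414 → False := fun n0 n1 n2 n3 =>
    have u0 : ¬p73 := fun h => c3696 h; have u1 : p72 := Classical.byContradiction fun h => c3694 h; have u2 : ¬p289 := fun h => c3171 n1 h n3; c3120 n0 u2 u0 n2 u1 n1 n3
  have c3702 : ¬p244 → False := fun n0 =>
    have u0 : ¬p247 := fun h => c322 h n0; c1903 n0 u0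
  have c3703 : p227 → p1 → p221 → False := fun n0 n1 n2 =>
    have u0 : p201 := Classical.byContradiction fun h => c1826 h; have u1 : ¬p191 := fun h => c255 h; have u2 : p244 := Classical.byContradiction fun h => c3702 h; have u3 : ¬p73 := fun h => c3696 h; have u4 : p5 := Classical.byContradiction fun h => c3 h; have u5 : ¬p190 := fun h => c254 h; have u6 : ¬p208 := fun h => c543 h n2; have u7 : ¬p416 := fun h => c534 n1 n2 h; have u8 : ¬p251 := fun h => c558 h n0; have u9 : p414 := Classical.byContradiction fun h => c3697 n0 n1 n2 h; have u10 : p14 := Classical.byContradiction fun h => c595 h u9; have u11 : ¬p230 := fun h => c532 u7 h u9; have u12 : p13 := Classical.byContradiction fun h => c13 h u10; have u13 : ¬p197 := fun h => c2394 h u10 u5; have u14 : ¬p217 := fun h => c2155 u11 h u0; have u15 : ¬p319 := fun h => c2165 u11 h u14; have u16 : p18 := Classical.byContradiction fun h => c49 u12 h; have u17 : p206 := Classical.byContradiction fun h => c270 u6 u0 u13 h; have u18 : ¬p78 := fun h => c3131 h u14 u17; have u19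 : ¬p77 := fun h => c59 h u18; have u20 : p130 := Classical.byContradiction fun h => c111 u19 h; have u21 : ¬p250 := fun h => c3700 u15 u20 h u3 u4; have u22 : p199 := Classical.byContradiction fun h => c329 u8 u2 h u21; have u23 : p200 := Classical.byContradiction fun h => c331 u8 u2 h u21; have u24 : p256 := Classical.byContradiction fun h => c765 h u22; have u25 : ¬p22 := fun h => c2153 u22 h u1; have u26 : p257 := Classical.byContradiction fun h => c766 h u23; have u27 : ¬p21 := fun h => c82 n1 h u25; have u28 : ¬p258 := fun h => c341 h u24 u26; have u29 : ¬p24 := fun h => c251 u27 h; have u30 : ¬p259 := fun h => c343 h u28; have u31 : ¬p27 := fun h => c21 u29 h; have u32 : p247 := Classical.byContradiction fun h => c2541 n0 h u30; have u33 : p203 := Classical.byContradiction fun h => c2042 h u16 u31; have u34 : ¬p205 := fun h => c503 u32 h; c268 u34 u0 u33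
  have c3704 : ¬p230 → ¬p205 → ¬p227 → ¬p234 → ¬p238 → p222 → ¬p243 → ¬p322 → False := fun n0 n1 n2 n3 n4 n5 n6 n7 =>
    have u0 : p229 := Classical.byContradiction fun h => c2169 h n1 n3 n0 n4 n5 n6 n7; c300 u0 n1 n2
  have c3705 : ¬p230 → p1 → ¬p19 → p221 → ¬p234 → p206 → p207 → False := fun n0 n1 n2 n3 n4 n5 n6 =>
    have u0 : ¬p191 := fun h => c255 h; have u1 : p12 := Classical.byContradiction fun h => c12 h; have u2 : p244 := Classical.byContradiction fun h => c3702 h; have u3 : ¬p73 := fun h => c3696 h; have u4 : p5 := Classical.byContradiction fun h => c3 h; have u5 : p201 := Classical.byContradiction fun h => c1826 h; have u6 : p6 := Classical.byContradiction fun h => c4 h; have u7 : ¬p227 := fun h => c3703 h n1 n3; have u8 : ¬p237 := fun h => c308 h n0; have u9 : ¬p239 := fun h => c1204 n0 h u6; have u10 : ¬p217 := fun h => c2155 n0 h u5; have u11 : ¬p319 := fun h => c2165 n0 h u10; have u12 : ¬p238 := fun h => c316 h u8; have u13 : ¬p242 := fun h => c317 h u9; have u14 : ¬p76 := fun h => c2310 h u10 n6; have u15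 : ¬p78 := fun h => c3131 h u10 n5; have u16 : ¬p322 := fun h => c414 h u11; have u17 : ¬p243 := fun h => c320 h u13; have u18 : p74 := Classical.byContradiction fun h => c112 h u14; have u19 : ¬p77 := fun h => c59 h u15; have u20 : p75 := Classical.byContradiction fun h => c57 u18 h; have u21 : p130 := Classical.byContradiction fun h => c111 u19 h; have u22 : p222 := Classical.byContradiction fun h => c2167 h u20 n5; have u23 : ¬p250 := fun h => c3700 u11 u21 h u3 u4; have u24 : p205 := Classical.byContradiction fun h => c3704 n0 h u7 n4 u12 u22 u17 u16; have u25 : ¬p247 := fun h => c503 h u24; have u26 : ¬p251 := fun h => c544 u24 h n3; have u27 : p246 := Classical.byContradiction fun h => c1908 h u25; have u28 : p199 := Classical.byContradiction fun h => c329 u26 u2 h u23; have u29 : ¬p23 := fun h => c2036 h n2 u27 u0 u1; have u30 : ¬p22 := fun h => c2153 u28 h u0; have u31 : p21 := Classical.byContradiction fun h => c19 h u29; c82 n1 u31 u30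
  have c3706 : p1 → p221 → False := fun n0 n1 =>
    have u0 : p201 := Classical.byContradiction fun h => c1826 h; have u1 : p72 := Classical.byContradiction fun h => c3694 h; have u2 : ¬p73 := fun h => c3696 h; have u3 : ¬p190 := fun h => c254 h; have u4 : ¬p208 := fun h => c543 h n1; have u5 : ¬p416 := fun h => c534 n0 n1 h; have u6 : ¬p227 := fun h => c3703 h n0 n1; have u7 : ¬p220 := fun h => c1479 h u6 n1; have u8 : ¬p19 := fun h => c601 h u7; have u9 : p13 := Classical.byContradiction fun h => c16 h u8; have u10 : p14 := Classical.byContradiction fun h => c47 n0 u9 h; have u11 : ¬p197 := fun h => c2394 h u10 u3; have u12 : p207 := Classical.byContradiction fun h => c271 u4 u0 u11 h; have u13 : p206 := Classical.byContradiction fun h => c270 u4 u0 u11 h; have u14 : ¬p232 := fun h => c2264 h u12 u3; have u15 : ¬p231 := fun h => c2150 h u13 u3; have u16 : ¬p233 := fun h => c304 h u15 u14; have u17 : ¬p234 := fun h => c307 h u16; have u18 : p230 := Classical.byContradiction fun h => c3705 h n0 u8 n1 u17 u13 u12; have u19 :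 ¬p414 := fun h => c532 u5 u18 h; have u20 : ¬p289 := fun h => c3171 n0 h u19; have u21 : p217 := Classical.byContradiction fun h => c3062 u19 h n1 u6 u20; have u22 : p213 := Classical.byContradiction fun h => c2404 u19 u21 h; have u23 : p203 := Classical.byContradiction fun h => c2251 n0 u21 u1 h u9 u2; have u24 : ¬p205 := fun h => c2858 u22 u8 h; c268 u24 u0 u23
  have c3707 : p1 → False := fun n0 =>
    have u0 : p72 := Classical.byContradiction fun h => c3694 h; have u1 : ¬p290 := fun h => c1467 h; have u2 : ¬p190 := fun h => c254 h; have u3 : ¬p73 := fun h => c3696 h; have u4 : ¬p424 := fun h => c1036 n0 h; have u5 : p425 := Classical.byContradiction fun h => c562 u4 h; have u6 : p426 := Classical.byContradiction fun h => c563 u4 h; have u7 : ¬p221 := fun h => c3706 n0 h; have u8 : p220 := Classical.byContradiction fun h => c2221 u7 h; have u9 : p26 := Classical.byContradiction fun h => c1932 u8 h u3; have u10 : ¬p21 := fun h => c84 h u9; have u11 : ¬p24 := fun h => c251 u10 h; have u12 : ¬p27 := fun h => c21 u11 h; have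 u13 : ¬p13 := fun h => c2048 u12 u8 h; have u14 : ¬p14 := fun h => c13 u13 h; have u15 : ¬p414 := fun h => c595 u14 h; have u16 : ¬p240 := fun h => c2459 u15 h u2; have u17 : ¬p289 := fun h => c3171 n0 h u15; have u18 : ¬p291 := fun h => c383 h u17 u1; have u19 : p292 := Classical.byContradiction fun h => c3111 n0 h u0 u7 u17 u6 u5 u16; c387 u19 u18
  have c3708 : p243 → False := fun n0 =>
    have u0 : ¬p1 := fun h => c3707 h; c319 n0 u0
  have c3709 : p318 → False := fun n0 =>
    have u0 : ¬p1 := fun h => c3707 h; c411 n0 u0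
  have c3710 : p297 → False := fun n0 =>
    have u0 : ¬p1 := fun h => c3707 h; c391 n0 u0
  have c3711 : p216 → False := fun n0 =>
    have u0 : ¬p1 := fun h => c3707 h; c285 n0 u0
  have c3712 : p259 → False := fun n0 =>
    have u0 : ¬p1 := fun h => c3707 h; c342 n0 u0
  have c3713 : ¬p0 → False := fun n0 =>
    have u0 : ¬p216 := fun h => c3711 h; have u1 : ¬p259 := fun h => c3712 h; c785 n0 u0 u1
  have c3714 : p276 → False := fun n0 =>
    have u0 : ¬p1 := fun h => c3707 h; c366 n0 u0
  have c3715 : ¬p221 → ¬p289 → ¬p227 → False := fun n0 n1 n2 =>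
    have u0 : p72 := Classical.byContradiction fun h => c3694 h; have u1 : ¬p243 := fun h => c3708 h; have u2 : ¬p318 := fun h => c3709 h; have u3 : ¬p297 := fun h => c3710 h; have u4 : p0 := Classical.byContradiction fun h => c3713 h; have u5 : ¬p276 := fun h => c3714 h; have u6 : ¬p290 := fun h => c1467 h; have u7 : ¬p291 := fun h => c383 h n1 u6; have u8 : p292 := Classical.byContradiction fun h => c3128 n0 h u0 n2 n1 u1 u2 u3 u4 u5; c387 u8 u7
  have c3716 : ¬p221 → ¬p22 → ¬p227 → ¬p14 → ¬p225 → False := fun n0 n1 n2 n3 n4 =>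
    have u0 : ¬p276 := fun h => c3714 h; have u1 : ¬p243 := fun h => c3708 h; have u2 : ¬p138 := fun h => c902 h; have u3 : ¬p297 := fun h => c3710 h; have u4 : ¬p318 := fun h => c3709 h; have u5 : ¬p73 := fun h => c3696 h; have u6 : p0 := Classical.byContradiction fun h => c3713 h; have u7 : p72 := Classical.byContradiction fun h => c3694 h; have u8 : ¬p218 := fun h => c297 n2 h n4; have u9 : p289 := Classical.byContradiction fun h => c3715 n0 h n2; have u10 : p235 := Classical.byContradiction fun h => c3186 u9 h u5 n2 n1 n0 u1 u8 u6 u7 u0; have u11 : p86 := Classical.byContradiction fun h => c647 h u10; have u12 : p85 := Classical.byContradiction fun h => c149 h u11; have u13 : p82 := Classical.byContradiction fun h => c646 h u12; have u14 : p87 := Classical.byContradiction fun h => c66 u13 h; have u15 : ¬p279 := fun h => c3193 u8 h u14 n2 u10 n0 u3 u4 u5 n3 u1 u6 u7 u0 n1; have u16 : ¬p300 := fun h => c1816 u15 h u2; have u17 : p229 := Classical.byContradiction fun h => c3126 h u15 u1 n0 n3; have u18 : p301 := Classical.byContradiction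 fun h => c1238 u16 h; have u19 : p205 := Classical.byContradiction fun h => c300 u17 h n2; have u20 : ¬p270 := fun h => c557 u19 u18 h; have u21 : ¬p247 := fun h => c503 h u19; have u22 : p246 := Classical.byContradiction fun h => c1908 h u21; have u23 : ¬p261 := fun h => c346 h u21 n0; have u24 : ¬p113 := fun h => c2555 u15 h u22; have u25 : p25 := Classical.byContradiction fun h => c2120 n1 u23 h n2 u0; have u26 : p111 := Classical.byContradiction fun h => c120 h u24; have u27 : p265 := Classical.byContradiction fun h => c3123 u25 h u20 u23 u0 n2; have u28 : p108 := Classical.byContradiction fun h => c671 u26 h; have u29 : p110 := Classical.byContradiction fun h => c674 h u27; c90 u28 u29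
  have c3717 : ¬p221 → False := fun n0 =>
    have u0 : ¬p216 := fun h => c3711 h; have u1 : ¬p243 := fun h => c3708 h; have u2 : ¬p190 := fun h => c254 h; have u3 : p245 := Classical.byContradiction fun h => c1814 h; have u4 : ¬p259 := fun h => c3712 h; have u5 : p72 := Classical.byContradiction fun h => c3694 h; have u6 : p12 := Classical.byContradiction fun h => c12 h; have u7 : ¬p73 := fun h => c3696 h; have u8 : p220 := Classical.byContradiction fun h => c2221 n0 h; have u9 : p26 := Classical.byContradiction fun h => c1932 u8 h u7; have u10 : ¬p21 := fun h => c84 h u9; have u11 : ¬p22 := fun h => c18 u10 h; have u12 : ¬p24 := fun h => c251 u10 h; have u13 : ¬p27 := fun h => c21 u12 h; have u14 : ¬p13 := fun h => c2048 u13 u8 h; have u15 : ¬p14 := fun h => c13 u14 h; have u16 : ¬p16 := fun h => c250 u14 h; have u17 : ¬p20 := fun h => c17 u16 h; have u18 : p197 := Classical.byContradiction fun h => c1617 u17 h u6; have u19 : ¬p225 := fun h => c814 u17 h u5; have u20 : p227 := Classical.byContradiction fun h => c3716 n0 u11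 h u15 u19; have u21 : p247 := Classical.byContradiction fun h => c2541 u20 h u4; have u22 : p136 := Classical.byContradiction fun h => c3137 u20 h n0; have u23 : ¬p246 := fun h => c323 u21 u3 h; have u24 : ¬p205 := fun h => c503 u21 h; have u25 : ¬p208 := fun h => c559 u21 h u20; have u26 : ¬p134 := fun h => c125 h u22; have u27 : p206 := Classical.byContradiction fun h => c1317 h u24 u25 u0; have u28 : p207 := Classical.byContradiction fun h => c2299 h u18 u25 u24; have u29 : ¬p135 := fun h => c161 u26 h; have u30 : ¬p231 := fun h => c2150 h u27 u2; have u31 : ¬p232 := fun h => c2264 h u28 u2; have u32 : ¬p235 := fun h => c1726 u29 h u30; have u33 : ¬p217 := fun h => c2857 u24 h u0 u31 u32 u1; have u34 : ¬p86 := fun h => c2145 u29 h u27 u33; have u35 : p85 := Classical.byContradiction fun h => c2316 u20 h u0 u33 u23 u18; c65 u35 u34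
  have c3719 : ¬p414 → False := fun n0 =>
    have u0 : p221 := Classical.byContradiction fun h => c3717 h; have u1 : ¬p1 := fun h => c3707 h; c3122 n0 u0 u1
  have c3721 : ¬p14 → False := fun n0 =>
    have u0 : p414 := Classical.byContradiction fun h => c3719 h; c595 n0 u0
  have c3722 : ¬p13 → False := fun n0 =>
    have u0 : p14 := Classical.byContradiction fun h => c3721 h; c13 n0 u0
  have c3723 : p19 → False := fun n0 =>
    have u0 : p13 := Classical.byContradiction fun h => c3722 h; c50 u0 n0
  have c3724 : ¬p205 → False := fun n0 =>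
    have u0 : p221 := Classical.byContradiction fun h => c3717 h; have u1 : ¬p216 := fun h => c3711 h; c886 n0 u0 u1
  have c3725 : p247 → False := fun n0 =>
    have u0 : p205 := Classical.byContradiction fun h => c3724 h; c503 n0 u0
  have c3726 : ¬p246 → False := fun n0 =>
    have u0 : ¬p247 := fun h => c3725 h; c1908 n0 u0
  have c3727 : p23 → False := fun n0 =>
    have u0 : ¬p19 := fun h => c3723 h; have u1 : p246 := Classical.byContradiction fun h => c3726 h; have u2 : ¬p191 := fun h => c255 h; have u3 : p12 := Classical.byContradiction fun h => c12 h; c2036 n0 u0 u1 u2 u3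
  have c3728 : p25 → False := fun n0 =>
    have u0 : ¬p23 := fun h => c3727 h; c606 n0 u0
  have c3735 : p251 → False := fun n0 =>
    have u0 : p221 := Classical.byContradiction fun h => c3717 h; have u1 : p205 := Classical.byContradiction fun h => c3724 h; c544 u1 n0 u0
  have c3736 : p252 → False := fun n0 =>
    have u0 : ¬p251 := fun h => c3735 h; c333 n0 u0
  have c3737 : ¬p255 → False := fun n0 =>
    have u0 : ¬p247 := fun h => c3725 h; have u1 : ¬p248 := fun h => c325 h; have u2 : ¬p259 := fun h => c3712 h; have u3 : ¬p252 := fun h => c3736 h; c344 u0 u1 u3 n0 u2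
  have c3738 : ¬p254 → False := fun n0 =>
    have u0 : p255 := Classical.byContradiction fun h => c3737 h; c339 u0 n0
  have c3739 : ¬p250 → False := fun n0 =>
    have u0 : p254 := Classical.byContradiction fun h => c3738 h; have u1 : p244 := Classical.byContradiction fun h => c3702 h; have u2 : ¬p251 := fun h => c3735 h; have u3 : p199 := Classical.byContradiction fun h => c329 u2 u1 h n0; have u4 : p200 := Classical.byContradiction fun h => c331 u2 u1 h n0; c335 u0 u3 u4
  have c3741 : p76 → False := fun n0 =>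
    have u0 : p250 := Classical.byContradiction fun h => c3739 h; have u1 : ¬p73 := fun h => c3696 h; have u2 : ¬p190 := fun h => c254 h; c2325 n0 u0 u1 u2
  have c3742 : ¬p74 → False := fun n0 =>
    have u0 : ¬p76 := fun h => c3741 h; c112 n0 u0
  have c3743 : ¬p75 → False := fun n0 =>
    have u0 : p74 := Classical.byContradiction fun h => c3742 h; c57 u0 n0
  have c3745 : p227 → False := fun n0 =>
    have u0 : ¬p247 := fun h => c3725 h; have u1 : ¬p259 := fun h => c3712 h; c2541 n0 u0 u1
  have c3746 : ¬p203 → False := fun n0 =>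
    have u0 : p205 := Classical.byContradiction fun h => c3724 h; have u1 : ¬p204 := fun h => c938 h; c267 u0 n0 u1
  have c3747 : p197 → False := fun n0 =>
    have u0 : p14 := Classical.byContradiction fun h => c3721 h; have u1 : ¬p190 := fun h => c254 h; c2394 n0 u0 u1
  have c3748 : p208 → False := fun n0 =>
    have u0 : p221 := Classical.byContradiction fun h => c3717 h; c543 n0 u0
  have c3749 : ¬p206 → False := fun n0 =>
    have u0 : ¬p197 := fun h => c3747 h; have u1 : ¬p208 := fun h => c3748 h; have u2 : p201 := Classical.byContradiction fun h => c1826 h; c270 u1 u2 u0 n0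
  have c3750 : p231 → False := fun n0 =>
    have u0 : p206 := Classical.byContradiction fun h => c3749 h; have u1 : ¬p190 := fun h => c254 h; c2150 n0 u0 u1
  have c3751 : ¬p235 → p217 → False := fun n0 n1 =>
    have u0 : ¬p276 := fun h => c3714 h; have u1 : ¬p227 := fun h => c3745 h; have u2 : ¬p25 := fun h => c3728 h; have u3 : ¬p247 := fun h => c3725 h; have u4 : p246 := Classical.byContradiction fun h => c3726 h; have u5 : ¬p76 := fun h => c3741 h; have u6 : ¬p191 := fun h => c255 h; have u7 : p203 := Classical.byContradiction fun h => c3746 h; have u8 : ¬p231 := fun h => c3750 h; have u9 : p67 := Classical.byContradiction fun h => c823 h; have u10 : ¬p268 := fun h => c1259 h n0 u9; have u11 : ¬p264 := fun h => c1919 h n0; have u12 : p260 := Classical.byContradiction fun h => c2558 h n1 u7 u5 u8 u4; have u13 : ¬p265 := fun h => c2560 h n1 u4 u5 u6; have u14 : ¬p261 := fun h => c345 h u3 u12; have u15 : ¬p266 := fun h => c350 h u11 u13; have u16 : p135 := Classical.byContradiction fun h => c2559 h u14 u0 u1 u2 u15 u10;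 have u17 : p134 := Classical.byContradiction fun h => c161 h u16; have u18 : p269 := Classical.byContradiction fun h => c1502 n0 h u0 u13 u16 u14 u1; have u19 : ¬p136 := fun h => c125 u17 h; c3077 u18 u19 u13
  have c3753 : ¬p217 → False := fun n0 =>
    have u0 : p75 := Classical.byContradiction fun h => c3743 h; have u1 : p250 := Classical.byContradiction fun h => c3739 h; have u2 : ¬p73 := fun h => c3696 h; have u3 : p206 := Classical.byContradiction fun h => c3749 h; have u4 : ¬p78 := fun h => c3131 h n0 u3; have u5 : ¬p77 := fun h => c59 h u4; c3752 u5 n0 u0 u1 u2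
  have c3754 : ¬p235 → False := fun n0 =>
    have u0 : p217 := Classical.byContradiction fun h => c3753 h; c3751 n0 u0
  have c3755 : ¬p135 → False := fun n0 =>
    have u0 : p235 := Classical.byContradiction fun h => c3754 h; have u1 : ¬p231 := fun h => c3750 h; c1726 n0 u0 u1
  have c3756 : ¬p134 → False := fun n0 =>
    have u0 : p135 := Classical.byContradiction fun h => c3755 h; c161 n0 u0
  have c3757 : p136 → False := fun n0 =>
    have u0 : p134 := Classical.byContradiction fun h => c3756 h; c125 u0 n0
  have c3758 : p265 → False := fun n0 =>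
    have u0 : p217 := Classical.byContradiction fun h => c3753 h; have u1 : p246 := Classical.byContradiction fun h => c3726 h; have u2 : ¬p76 := fun h => c3741 h; have u3 : ¬p191 := fun h => c255 h; c2560 n0 u0 u1 u2 u3
  have c3759 : p269 → False := fun n0 =>
    have u0 : ¬p136 := fun h => c3757 h; have u1 : ¬p265 := fun h => c3758 h; c3077 n0 u0 u1
  have c3760 : p270 → False := fun n0 =>
    have u0 : ¬p269 := fun h => c3759 h; have u1 : p205 := Classical.byContradiction fun h => c3724 h; have u2 : ¬p73 := fun h => c3696 h; c2344 n0 u0 u1 u2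
  have c3761 : p271 → False := fun n0 =>
    have u0 : ¬p270 := fun h => c3760 h; c363 n0 u0
  have c3762 : ¬p260 → False := fun n0 =>
    have u0 : p217 := Classical.byContradiction fun h => c3753 h; have u1 : p203 := Classical.byContradiction fun h => c3746 h; have u2 : ¬p76 := fun h => c3741 h; have u3 : ¬p231 := fun h => c3750 h; have u4 : p246 := Classical.byContradiction fun h => c3726 h; c2558 n0 u0 u1 u2 u3 u4
  have c3763 : p261 → False := fun n0 =>
    have u0 : p260 := Classical.byContradiction fun h => c3762 h; have u1 : ¬p247 := fun h => c3725 h; c345 n0 u1 u0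
  have c3764 : p262 → False := fun n0 =>
    have u0 : ¬p227 := fun h => c3745 h; have u1 : ¬p248 := fun h => c325 h; c347 n0 u1 u0
  have c3765 : ¬p267 → False := fun n0 =>
    have u0 : ¬p271 := fun h => c3761 h; have u1 : ¬p276 := fun h => c3714 h; have u2 : ¬p227 := fun h => c3745 h; have u3 : ¬p261 := fun h => c3763 h; have u4 : ¬p262 := fun h => c3764 h; c368 u2 u3 u4 n0 u0 u1
  have c3766 : ¬p266 → False := fun n0 =>
    have u0 : p267 := Classical.byContradiction fun h => c3765 h; c356 u0 n0
  have c3767 : ¬p230 → False := fun n0 =>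
    have u0 : p217 := Classical.byContradiction fun h => c3753 h; have u1 : p201 := Classical.byContradiction fun h => c1826 h; c2155 n0 u0 u1
  have c3768 : ¬p237 → False := fun n0 =>
    have u0 : p235 := Classical.byContradiction fun h => c3754 h; have u1 : p14 := Classical.byContradiction fun h => c3721 h; have u2 : p230 := Classical.byContradiction fun h => c3767 h; c311 n0 u2 u1 u0
  have c3769 : p301 → False := fun n0 =>
    have u0 : p237 := Classical.byContradiction fun h => c3768 h; c535 n0 u0
  have c3770 : ¬p300 → False := fun n0 =>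
    have u0 : ¬p301 := fun h => c3769 h; c1238 n0 u0
  have c3771 : ¬p120 → False := fun n0 =>
    have u0 : p300 := Classical.byContradiction fun h => c3770 h; have u1 : ¬p73 := fun h => c3696 h; c2343 n0 u0 u1
  have c3772 : p117 → False := fun n0 =>
    have u0 : p120 := Classical.byContradiction fun h => c3771 h; c99 n0 u0
  have c3773 : p118 → False := fun n0 =>
    have u0 : ¬p117 := fun h => c3772 h; c155 u0 n0
  have c3774 : p264 → False := fun n0 =>
    have u0 : ¬p118 := fun h => c3773 h; have u1 : p132 := Classical.byContradiction fun h => c1291 h; c2358 n0 u0 u1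
  have u0 : p266 := Classical.byContradiction fun h => c3766 h; have u1 : ¬p264 := fun h => c3774 h; have u2 : ¬p265 := fun h => c3758 h; c350 u0 u1 u2

end Pool.Agent.P.MP_c009d0_co
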