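import Pool.Agent.P.MP_c009d0_co.Facts2
import Pool.Agent.P.MP_c009d0_co.CoreProp

/-! A closed family of losing paths forces a short trade. -/

namespace Pool.Agent.P.MP_c009d0_co

set_option maxRecDepth 100000 in
theorem core {m n : ℕ → ℤ} {j a1 a2 c1 c2 x v u : ℕ} {HC JJ : Prop} (X : Ctx m n j)
    (S : Setup m n j a1 a2 c1 c2 x v u HC JJ) : False :=
  prop_core
    (HC)
    (JJ)
    (m j ≤ (j : ℤ))
    (n j ≤ (j : ℤ))
    (m j + 2 ≤ n j)
    (m a1 ≤ (a1 : ℤ))
    (n a1 ≤ (a1 : ℤ))
    (m c1 ≤ (c1 : ℤ))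
    (m x ≤ (x : ℤ))
    (m v ≤ (v : ℤ))
    (n v ≤ (v : ℤ))
    (m u ≤ (u : ℤ))
    (m j + 1 ≤ n j)
    ((a1 : ℤ) + 1 ≤ (j : ℤ))
    (m a1 + 1 ≤ m j)
    (m a1 + (j : ℤ) ≤ m j + (a1 : ℤ))
    ((a1 : ℤ) ≤ (j : ℤ))
    (m a1 + (j : ℤ) + 1 ≤ m j + (a1 : ℤ))
    (n a1 + 1 ≤ n j)
    (n a1 + (j : ℤ) ≤ n j + (a1 : ℤ))
    (n a1 ≤ n j)
    ((a2 : ℤ) + 1 ≤ (j : ℤ))
    (m a2 + 1 ≤ m j)
    (m a2 + (j : ℤ) ≤ m j + (a2 : ℤ))
    ((a2 : ℤ) ≤ (j : ℤ))
    (m a2 + (j : ℤ) + 1 ≤ m j + (a2 : ℤ))
    (n a2 + (j : ℤ) ≤ n j + (a2 : ℤ))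
    (n a2 ≤ n j)
    (n a2 + (j : ℤ) + 1 ≤ n j + (a2 : ℤ))
    ((c1 : ℤ) + 1 ≤ (j : ℤ))
    (m c1 + 1 ≤ m j)
    (m c1 + (j : ℤ) ≤ m j + (c1 : ℤ))
    ((c1 : ℤ) ≤ (j : ℤ))
    (m c1 ≤ m j)
    (m c1 + (j : ℤ) + 1 ≤ m j + (c1 : ℤ))
    (n c1 + (j : ℤ) + 1 ≤ n j + (c1 : ℤ))
    ((c2 : ℤ) + 1 ≤ (j : ℤ))
    (m c2 + 1 ≤ m j)
    (m c2 + (j : ℤ) ≤ m j + (c2 : ℤ))
    ((c2 : ℤ) ≤ (j : ℤ))
    (m c2 ≤ m j)
    (m c2 + (j : ℤ) + 1 ≤ m j + (c2 : ℤ))
    (n c2 + (j : ℤ) + 1 ≤ n j + (c2 : ℤ))
    ((j : ℤ) ≤ (x : ℤ))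
    (m j ≤ m x)
    (m j + (x : ℤ) + 1 ≤ m x + (j : ℤ))
    ((j : ℤ) + 1 ≤ (x : ℤ))
    (m j + 1 ≤ m x)
    (m j + (x : ℤ) ≤ m x + (j : ℤ))
    (n j ≤ n x)
    (n j + (x : ℤ) ≤ n x + (j : ℤ))
    ((j : ℤ) ≤ (v : ℤ))
    (m j ≤ m v)
    ((j : ℤ) + 1 ≤ (v : ℤ))
    (m j + 1 ≤ m v)
    (m j + (v : ℤ) ≤ m v + (j : ℤ))
    (n j + (v : ℤ) ≤ n v + (j : ℤ))
    ((j : ℤ) ≤ (u : ℤ))
    (m j ≤ m u)
    (m j + (u : ℤ) + 1 ≤ m u + (j : ℤ))
    ((j : ℤ) + 1 ≤ (u : ℤ))
    (m j + 1 ≤ m u)
    (m j + (u : ℤ) ≤ m u + (j : ℤ))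
    (n j ≤ n u)
    (n j + (u : ℤ) ≤ n u + (j : ℤ))
    (m a1 ≤ m j)
    ((a1 : ℤ) ≤ (a2 : ℤ))
    (m a1 ≤ m a2)
    (m a1 + (a2 : ℤ) + 1 ≤ m a2 + (a1 : ℤ))
    (n a1 ≤ n a2)
    (n a1 + (a2 : ℤ) + 1 ≤ n a2 + (a1 : ℤ))
    ((a1 : ℤ) + 1 ≤ (a2 : ℤ))
    (n a1 + 1 ≤ n a2)
    (n a1 + (a2 : ℤ) ≤ n a2 + (a1 : ℤ))
    ((a1 : ℤ) ≤ (c1 : ℤ))
    (m a1 ≤ m c1)
    (m a1 + (c1 : ℤ) + 1 ≤ m c1 + (a1 : ℤ))
    ((a1 : ℤ) + 1 ≤ (c1 : ℤ))
    (m a1 + 1 ≤ m c1)
    (n a1 ≤ n c1)
    (n a1 + (c1 : ℤ) + 1 ≤ n c1 + (a1 : ℤ))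
    (n a1 + (c1 : ℤ) ≤ n c1 + (a1 : ℤ))
    ((a1 : ℤ) ≤ (c2 : ℤ))
    (m a1 ≤ m c2)
    (m a1 + (c2 : ℤ) + 1 ≤ m c2 + (a1 : ℤ))
    ((a1 : ℤ) + 1 ≤ (c2 : ℤ))
    (m a1 + 1 ≤ m c2)
    (n a1 ≤ n c2)
    (n a1 + (c2 : ℤ) ≤ n c2 + (a1 : ℤ))
    ((a1 : ℤ) ≤ (x : ℤ))
    (m a1 ≤ m x)
    (m a1 + (x : ℤ) + 1 ≤ m x + (a1 : ℤ))
    ((a1 : ℤ) + 1 ≤ (x : ℤ))
    (m a1 + 1 ≤ m x)
    (n a1 ≤ n x)
    (n a1 + (x : ℤ) + 1 ≤ n x + (a1 : ℤ))
    (n a1 + (x : ℤ) ≤ n x + (a1 : ℤ))
    ((a1 : ℤ) ≤ (v : ℤ))
    (m a1 + (v : ℤ) + 1 ≤ m v + (a1 : ℤ))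
    (n a1 ≤ n v)
    ((a1 : ℤ) ≤ (u : ℤ))
    (m a1 + (u : ℤ) + 1 ≤ m u + (a1 : ℤ))
    ((a1 : ℤ) + 1 ≤ (u : ℤ))
    (m a1 + 1 ≤ m u)
    (n a1 ≤ n u)
    (n a1 + (u : ℤ) ≤ n u + (a1 : ℤ))
    (m a2 ≤ m j)
    (m a1 + 1 ≤ m a2)
    ((a2 : ℤ) ≤ (c1 : ℤ))
    (m a2 ≤ m c1)
    (m a2 + (c1 : ℤ) + 1 ≤ m c1 + (a2 : ℤ))
    ((a2 : ℤ) + 1 ≤ (c1 : ℤ))
    (m a2 + 1 ≤ m c1)
    (n a2 + (c1 : ℤ) ≤ n c1 + (a2 : ℤ))
    ((a2 : ℤ) ≤ (c2 : ℤ))
    (m a2 ≤ m c2)
    (m a2 + (c2 : ℤ) + 1 ≤ m c2 + (a2 : ℤ))
    ((a2 : ℤ) + 1 ≤ (c2 : ℤ))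
    (m a2 + 1 ≤ m c2)
    (n a2 ≤ n c2)
    (n a2 + (c2 : ℤ) ≤ n c2 + (a2 : ℤ))
    ((a2 : ℤ) ≤ (x : ℤ))
    (m a2 ≤ m x)
    (m a2 + (x : ℤ) + 1 ≤ m x + (a2 : ℤ))
    ((a2 : ℤ) + 1 ≤ (x : ℤ))
    (m a2 + 1 ≤ m x)
    (n a2 ≤ n x)
    (n a2 + (x : ℤ) ≤ n x + (a2 : ℤ))
    ((a2 : ℤ) + 1 ≤ (v : ℤ))
    (n a2 + (v : ℤ) ≤ n v + (a2 : ℤ))
    (m a1 + (c1 : ℤ) ≤ m c1 + (a1 : ℤ))
    ((c1 : ℤ) ≤ (c2 : ℤ))
    (m c1 ≤ m c2)
    (m c1 + (c2 : ℤ) + 1 ≤ m c2 + (c1 : ℤ))
    ((c1 : ℤ) + 1 ≤ (c2 : ℤ))
    (m c1 + 1 ≤ m c2)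
    (m c1 + (c2 : ℤ) ≤ m c2 + (c1 : ℤ))
    (n c1 ≤ n c2)
    (n c1 + (c2 : ℤ) + 1 ≤ n c2 + (c1 : ℤ))
    ((c1 : ℤ) ≤ (x : ℤ))
    (m c1 ≤ m x)
    (m c1 + (x : ℤ) + 1 ≤ m x + (c1 : ℤ))
    ((c1 : ℤ) + 1 ≤ (x : ℤ))
    (m c1 + 1 ≤ m x)
    (m c1 + (x : ℤ) ≤ m x + (c1 : ℤ))
    (n c1 ≤ n x)
    ((c1 : ℤ) ≤ (v : ℤ))
    (m c1 ≤ m v)
    (m c1 + (v : ℤ) + 1 ≤ m v + (c1 : ℤ))
    ((c1 : ℤ) + 1 ≤ (v : ℤ))
    (m c1 + 1 ≤ m v)
    (m c1 + (v : ℤ) ≤ m v + (c1 : ℤ))
    (n c1 ≤ n v)
    ((c1 : ℤ) ≤ (u : ℤ))
    (m c1 ≤ m u)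
    (m c1 + (u : ℤ) + 1 ≤ m u + (c1 : ℤ))
    ((c1 : ℤ) + 1 ≤ (u : ℤ))
    (m c1 + 1 ≤ m u)
    (m c1 + (u : ℤ) ≤ m u + (c1 : ℤ))
    (n c1 ≤ n u)
    (n c1 + (u : ℤ) + 1 ≤ n u + (c1 : ℤ))
    (n a1 + 1 ≤ n c2)
    (n a2 + 1 ≤ n c2)
    (n c1 + 1 ≤ n c2)
    ((c2 : ℤ) ≤ (x : ℤ))
    (m c2 ≤ m x)
    (m c2 + (x : ℤ) + 1 ≤ m x + (c2 : ℤ))
    ((c2 : ℤ) + 1 ≤ (x : ℤ))
    (m c2 + 1 ≤ m x)
    (m c2 + (x : ℤ) ≤ m x + (c2 : ℤ))
    (n c2 ≤ n x)
    ((c2 : ℤ) ≤ (v : ℤ))
    (m c2 ≤ m v)
    (m c2 + (v : ℤ) + 1 ≤ m v + (c2 : ℤ))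
    ((c2 : ℤ) ≤ (u : ℤ))
    (m c2 ≤ m u)
    (m c2 + (u : ℤ) + 1 ≤ m u + (c2 : ℤ))
    ((c2 : ℤ) + 1 ≤ (u : ℤ))
    (m c2 + 1 ≤ m u)
    (m c2 + (u : ℤ) ≤ m u + (c2 : ℤ))
    (m a1 + (x : ℤ) ≤ m x + (a1 : ℤ))
    (n a2 + 1 ≤ n x)
    (n c1 + (x : ℤ) ≤ n x + (c1 : ℤ))
    (n c2 + (x : ℤ) ≤ n x + (c2 : ℤ))
    ((u : ℤ) + 1 ≤ (x : ℤ))
    (m u + 1 ≤ m x)
    (m u + (x : ℤ) ≤ m x + (u : ℤ))
    (n a1 + 1 ≤ n u)
    (n c1 + 1 ≤ n u)
    (n c1 + (u : ℤ) ≤ n u + (c1 : ℤ))
    (m a1 + 1 ≤ n a1)
    (m a2 + 1 ≤ n a2)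
    (m c1 + 1 ≤ n c1)
    (m c2 + 1 ≤ n c2)
    (m x + 1 ≤ n x)
    (m v + 1 ≤ n v)
    (m u + 1 ≤ n u)
    (m j ≤ n a1)
    (m j + (a1 : ℤ) ≤ n a1 + (j : ℤ))
    (m j ≤ n a2)
    (m j + (a2 : ℤ) ≤ n a2 + (j : ℤ))
    (n a1 + 1 ≤ (a1 : ℤ))
    (n a1 + 1 ≤ zz n a1 a1)
    (n a1 + 2 ≤ n a2)
    (n a1 + (a2 : ℤ) + 2 ≤ n a2 + (a1 : ℤ))
    (n a1 + 1 ≤ zz n a2 a1)
    (m c1 ≤ n a1 + 1)
    (m c1 + (a1 : ℤ) ≤ n a1 + (c1 : ℤ) + 1)
    (n a1 + 1 ≤ yy m j c1 a1)
    (HC ∧ n a1 + 1 ≤ yy m j c1 a1)
    (m c2 ≤ n a1 + 1)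
    (n a1 + 1 ≤ yy m j c2 a1)
    (HC ∧ n a1 + 1 ≤ yy m j c2 a1)
    (m j ≤ n a1 + 1)
    (m j + (a1 : ℤ) ≤ n a1 + (j : ℤ) + 1)
    (n a1 + 1 ≤ yy m j j a1)
    (JJ ∧ n a1 + 1 ≤ yy m j j a1)
    (m a1 ≤ n a1)
    (n j + 1 ≤ (j : ℤ))
    (n a1 ≤ n j + 1)
    (n a1 + (j : ℤ) ≤ n j + (a1 : ℤ) + 1)
    (n j + 1 ≤ zz n a1 j)
    (m a1 ≤ n a1 + 1)
    (n j + 2 ≤ zz n a1 j)
    (ZF m n j a1 a1)
    (n a2 ≤ n j + 1)
    (n a2 + (j : ℤ) ≤ n j + (a2 : ℤ) + 1)
    (n j + 1 ≤ zz n a2 j)
    (n j + 2 ≤ zz n a2 j)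
    (ZF m n j a2 a1)
    (m a1 + 1 ≤ (a1 : ℤ))
    (m a1 + 2 ≤ m c1)
    (m a1 + (c1 : ℤ) + 2 ≤ m c1 + (a1 : ℤ))
    (m a1 + 1 ≤ yy m j c1 a1)
    (HC ∧ m a1 + 1 ≤ yy m j c1 a1)
    (m a1 + 2 ≤ m c2)
    (m a1 + (c2 : ℤ) + 2 ≤ m c2 + (a1 : ℤ))
    (m a1 + 1 ≤ yy m j c2 a1)
    (HC ∧ m a1 + 1 ≤ yy m j c2 a1)
    (2 * m a1 + 1 ≤ n a1 + (a1 : ℤ))
    (2 * m a1 + 2 ≤ m j + n a1)
    (2 * m a1 + (j : ℤ) + 2 ≤ m j + n a1 + (a1 : ℤ))
    (2 * m a1 - n a1 + 1 ≤ yy m j j a1)
    (JJ ∧ 2 * m a1 - n a1 + 1 ≤ yy m j j a1)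
    (n a2 + 1 ≤ (a2 : ℤ))
    (n a1 ≤ n a2 + 1)
    (n a1 + (a2 : ℤ) ≤ n a2 + (a1 : ℤ) + 1)
    (n a2 + 1 ≤ zz n a1 a2)
    (n a2 + 1 ≤ zz n a2 a2)
    (m c1 ≤ n a2 + 1)
    (m c1 + (a2 : ℤ) ≤ n a2 + (c1 : ℤ) + 1)
    (n a2 + 1 ≤ yy m j c1 a2)
    (HC ∧ n a2 + 1 ≤ yy m j c1 a2)
    (m c2 + (a2 : ℤ) ≤ n a2 + (c2 : ℤ) + 1)
    (n a2 + 1 ≤ yy m j c2 a2)
    (HC ∧ n a2 + 1 ≤ yy m j c2 a2)
    (m j ≤ n a2 + 1)
    (m j + (a2 : ℤ) ≤ n a2 + (j : ℤ) + 1)
    (n a2 + 1 ≤ yy m j j a2)
    (JJ ∧ n a2 + 1 ≤ yy m j j a2)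
    (m a2 ≤ n a2)
    (ZF m n j a1 a2)
    (ZF m n j a2 a2)
    (m a2 + 1 ≤ (a2 : ℤ))
    (m a2 + 2 ≤ m c1)
    (m a2 + (c1 : ℤ) + 2 ≤ m c1 + (a2 : ℤ))
    (m a2 + 1 ≤ yy m j c1 a2)
    (HC ∧ m a2 + 1 ≤ yy m j c1 a2)
    (m a2 + 2 ≤ m c2)
    (m a2 + (c2 : ℤ) + 2 ≤ m c2 + (a2 : ℤ))
    (m a2 + 1 ≤ yy m j c2 a2)
    (HC ∧ m a2 + 1 ≤ yy m j c2 a2)
    (2 * m a2 + 1 ≤ n a2 + (a2 : ℤ))
    (2 * m a2 + 2 ≤ m j + n a2)
    (2 * m a2 + (j : ℤ) + 2 ≤ m j + n a2 + (a2 : ℤ))
    (2 * m a2 - n a2 + 1 ≤ yy m j j a2)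
    (JJ ∧ 2 * m a2 - n a2 + 1 ≤ yy m j j a2)
    (n c1 + 1 ≤ (c1 : ℤ))
    (n a1 ≤ n c1 + 1)
    (n a1 + (c1 : ℤ) ≤ n c1 + (a1 : ℤ) + 1)
    (n c1 + 1 ≤ zz n a1 c1)
    (ZF m n j a1 c1)
    (n a2 ≤ n c1 + 1)
    (n a2 + (c1 : ℤ) ≤ n c1 + (a2 : ℤ) + 1)
    (n c1 + 1 ≤ zz n a2 c1)
    (ZF m n j a2 c1)
    (m c1 + 1 ≤ (c1 : ℤ))
    (m c1 + 1 ≤ yy m j c1 c1)
    (HC ∧ m c1 + 1 ≤ yy m j c1 c1)
    (m c1 + 2 ≤ m c2)
    (m c1 + (c2 : ℤ) + 2 ≤ m c2 + (c1 : ℤ))
    (m c1 + 1 ≤ yy m j c2 c1)
    (HC ∧ m c1 + 1 ≤ yy m j c2 c1)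
    (2 * m c1 + 1 ≤ n c1 + (c1 : ℤ))
    (2 * m c1 + 2 ≤ m j + n c1)
    (2 * m c1 + (j : ℤ) + 2 ≤ m j + n c1 + (c1 : ℤ))
    (2 * m c1 - n c1 + 1 ≤ yy m j j c1)
    (JJ ∧ 2 * m c1 - n c1 + 1 ≤ yy m j j c1)
    (n c2 + 1 ≤ (c2 : ℤ))
    (n a1 ≤ n c2 + 1)
    (n a1 + (c2 : ℤ) ≤ n c2 + (a1 : ℤ) + 1)
    (n c2 + 1 ≤ zz n a1 c2)
    (ZF m n j a1 c2)
    (n a2 ≤ n c2 + 1)
    (n a2 + (c2 : ℤ) ≤ n c2 + (a2 : ℤ) + 1)
    (n c2 + 1 ≤ zz n a2 c2)
    (ZF m n j a2 c2)
    (m c2 + 1 ≤ (c2 : ℤ))
    (m c1 ≤ m c2 + 1)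
    (m c1 + (c2 : ℤ) ≤ m c2 + (c1 : ℤ) + 1)
    (m c2 + 1 ≤ yy m j c1 c2)
    (HC ∧ m c2 + 1 ≤ yy m j c1 c2)
    (m c2 + 1 ≤ yy m j c2 c2)
    (HC ∧ m c2 + 1 ≤ yy m j c2 c2)
    (2 * m c2 + 1 ≤ n c2 + (c2 : ℤ))
    (2 * m c2 + 2 ≤ m j + n c2)
    (2 * m c2 + (j : ℤ) + 2 ≤ m j + n c2 + (c2 : ℤ))
    (2 * m c2 - n c2 + 1 ≤ yy m j j c2)
    (JJ ∧ 2 * m c2 - n c2 + 1 ≤ yy m j j c2)
    (2 * m a1 ≤ n a1 + (a1 : ℤ))
    (2 * m a1 + 1 ≤ m j + n a1)
    (2 * m a1 + (j : ℤ) + 1 ≤ m j + n a1 + (a1 : ℤ))
    (2 * m a1 - n a1 + 0 ≤ yy m j j a1)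
    (2 * m x ≤ n x + (x : ℤ))
    (m j + n x ≤ 2 * m x)
    (m j + n x + (x : ℤ) ≤ 2 * m x + (j : ℤ))
    (2 * m x - n x + 0 ≤ yy m j j x)
    (n x + 1 ≤ (x : ℤ))
    (n a1 ≤ n x + 1)
    (n a1 + (x : ℤ) ≤ n x + (a1 : ℤ) + 1)
    (n x + 1 ≤ zz n a1 x)
    (m x ≤ n x + 1)
    (ZF m n j a1 x)
    (n a2 ≤ n x + 1)
    (n a2 + (x : ℤ) ≤ n x + (a2 : ℤ) + 1)
    (n x + 1 ≤ zz n a2 x)
    (ZF m n j a2 x)
    (m x + 1 ≤ (x : ℤ))
    (m c1 ≤ m x + 1)
    (m c1 + (x : ℤ) ≤ m x + (c1 : ℤ) + 1)
    (m x + 1 ≤ yy m j c1 x)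
    (HC ∧ m x + 1 ≤ yy m j c1 x)
    (m c2 ≤ m x + 1)
    (m c2 + (x : ℤ) ≤ m x + (c2 : ℤ) + 1)
    (m x + 1 ≤ yy m j c2 x)
    (HC ∧ m x + 1 ≤ yy m j c2 x)
    (2 * m x + 1 ≤ n x + (x : ℤ))
    (m j + n x ≤ 2 * m x + 1)
    (m j + n x + (x : ℤ) ≤ 2 * m x + (j : ℤ) + 1)
    (2 * m x - n x + 1 ≤ yy m j j x)
    (JJ ∧ 2 * m x - n x + 1 ≤ yy m j j x)
    (2 * m v ≤ n v + (v : ℤ))
    (2 * m v - n v + 0 ≤ yy m j j v)
    (n v + 1 ≤ (v : ℤ))
    (n a1 ≤ n v + 1)
    (n v + 1 ≤ zz n a1 v)
    (ZF m n j a1 v)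
    (n a2 ≤ n v + 1)
    (n a2 + (v : ℤ) ≤ n v + (a2 : ℤ) + 1)
    (n v + 1 ≤ zz n a2 v)
    (ZF m n j a2 v)
    (m v + 1 ≤ (v : ℤ))
    (m c1 + (v : ℤ) ≤ m v + (c1 : ℤ) + 1)
    (m v + 1 ≤ yy m j c1 v)
    (HC ∧ m v + 1 ≤ yy m j c1 v)
    (m c2 ≤ m v + 1)
    (m v + 1 ≤ yy m j c2 v)
    (HC ∧ m v + 1 ≤ yy m j c2 v)
    (2 * m v + 1 ≤ n v + (v : ℤ))
    (2 * m v - n v + 1 ≤ yy m j j v)
    (JJ ∧ 2 * m v - n v + 1 ≤ yy m j j v)
    (2 * m u ≤ n u + (u : ℤ))
    (m j + n u ≤ 2 * m u)
    (m j + n u + (u : ℤ) ≤ 2 * m u + (j : ℤ))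
    (2 * m u - n u + 0 ≤ yy m j j u)
    (n u + 1 ≤ (u : ℤ))
    (n a1 ≤ n u + 1)
    (n a1 + (u : ℤ) ≤ n u + (a1 : ℤ) + 1)
    (n u + 1 ≤ zz n a1 u)
    (ZF m n j a1 u)
    (n a2 ≤ n u + 1)
    (n a2 + (u : ℤ) ≤ n u + (a2 : ℤ) + 1)
    (n u + 1 ≤ zz n a2 u)
    (ZF m n j a2 u)
    (m u + 1 ≤ (u : ℤ))
    (m c1 ≤ m u + 1)
    (m c1 + (u : ℤ) ≤ m u + (c1 : ℤ) + 1)
    (m u + 1 ≤ yy m j c1 u)
    (HC ∧ m u + 1 ≤ yy m j c1 u)
    (m c2 ≤ m u + 1)
    (m c2 + (u : ℤ) ≤ m u + (c2 : ℤ) + 1)
    (m u + 1 ≤ yy m j c2 u)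
    (HC ∧ m u + 1 ≤ yy m j c2 u)
    (2 * m u + 1 ≤ n u + (u : ℤ))
    (m j + n u ≤ 2 * m u + 1)
    (m j + n u + (u : ℤ) ≤ 2 * m u + (j : ℤ) + 1)
    (2 * m u - n u + 1 ≤ yy m j j u)
    (JJ ∧ 2 * m u - n u + 1 ≤ yy m j j u)
    (m c1 + 2 ≤ m x)
    (m c1 + (x : ℤ) + 2 ≤ m x + (c1 : ℤ))
    (m c1 + 1 ≤ yy m j x c1)
    (m c1 + 2 ≤ m v)
    (m c1 + (v : ℤ) + 2 ≤ m v + (c1 : ℤ))
    (m c1 + 1 ≤ yy m j v c1)
    (m c1 + 2 ≤ m u)
    (m c1 + (u : ℤ) + 2 ≤ m u + (c1 : ℤ))
    (m c1 + 1 ≤ yy m j u c1)
    (m c2 + 2 ≤ m x)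
    (m c2 + (x : ℤ) + 2 ≤ m x + (c2 : ℤ))
    (m c2 + 1 ≤ yy m j x c2)
    (m c2 + (v : ℤ) + 2 ≤ m v + (c2 : ℤ))
    (m c2 + 1 ≤ yy m j v c2)
    (m c2 + (u : ℤ) + 2 ≤ m u + (c2 : ℤ))
    (m c2 + 1 ≤ yy m j u c2)
    (m a1 + 2 ≤ m j)
    (m a1 + (j : ℤ) + 2 ≤ m j + (a1 : ℤ))
    (m a1 + 1 ≤ yy m j j a1)
    (m a1 + 2 ≤ m x)
    (m a1 + (x : ℤ) + 2 ≤ m x + (a1 : ℤ))
    (m a1 + 1 ≤ yy m j x a1)
    (m a2 + (j : ℤ) + 2 ≤ m j + (a2 : ℤ))
    (m a2 + 1 ≤ yy m j j a2)
    (m a2 + (x : ℤ) + 2 ≤ m x + (a2 : ℤ))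
    (m a2 + 1 ≤ yy m j x a2)
    ((x : ℤ) ≤ zz n a2 x)
    (n a2 ≤ zz n a2 x + 1)
    (n a2 + (x : ℤ) ≤ (a2 : ℤ) + zz n a2 x + 1)
    ((x : ℤ) ≤ yy m j j x)
    (m j ≤ yy m j j x + 1)
    (m j + (x : ℤ) ≤ (j : ℤ) + yy m j j x + 1)
    (2 * m x ≤ yy m j j x + zz n a2 x)
    ((v : ℤ) ≤ zz n a1 v)
    (n a1 ≤ zz n a1 v + 1)
    (n a1 + (v : ℤ) ≤ (a1 : ℤ) + zz n a1 v + 1)
    ((v : ℤ) ≤ yy m j j v)
    (m j ≤ yy m j j v + 1)
    ((v : ℤ) ≤ yy m j c1 v)
    (m j ≤ yy m j c1 v)
    (m c1 ≤ yy m j c1 v + 1)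
    (m c1 + (v : ℤ) ≤ (c1 : ℤ) + yy m j c1 v + 1)
    (3 * m v ≤ yy m j c1 v + yy m j j v + zz n a1 v)
    ((u : ℤ) ≤ zz n a1 u)
    (n a1 ≤ zz n a1 u + 1)
    (n a1 + (u : ℤ) ≤ (a1 : ℤ) + zz n a1 u + 1)
    ((u : ℤ) ≤ yy m j j u)
    (m j ≤ yy m j j u + 1)
    (m j + (u : ℤ) ≤ (j : ℤ) + yy m j j u + 1)
    ((u : ℤ) ≤ yy m j c2 u)
    (m j ≤ yy m j c2 u)
    (m c2 ≤ yy m j c2 u + 1)
    (m c2 + (u : ℤ) ≤ (c2 : ℤ) + yy m j c2 u + 1)
    (m j + (u : ℤ) ≤ (j : ℤ) + yy m j c2 u)
    (3 * m u ≤ yy m j c2 u + yy m j j u + zz n a1 u)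
    (by intros; omega)
    (by intros; omega)
    (by intros; omega)
    (by intros; omega)
    (by intros; omega)
    (by intros; omega)
    (by intros; omega)
    (by intros; omega)
    (by intros; omega)
    (by intros; omega)
    (by intros; omega)
    (by intros; omega)
    (by intros; omega)
    (by intros; omega)
    (by intros; omega)
    (by intros; omega)
    (by intros; omega)
    (by intros; omega)
    (by intros; omega)
    (by intros; omega)
    (by intros; omega)
    (by intros; omega)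
    (by intros; omega)
    (by intros; omega)
    (by intros; omega)
    (by intros; omega)
    (by intros; omega)
    (by intros; omega)
    (by intros; omega)
    (by intros; omega)
    (by intros; omega)
    (by intros; omega)
    (by intros; omega)
    (by intros; omega)
    (by intros; omega)
    (by intros; omega)
    (by intros; omega)
    (by intros; omega)
    (by intros; omega)
    (by intros; omega)
    (by intros; omega)
    (by intros; omega)
    (by intros; omega)
    (by intros; omega)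
    (by intros; omega)
    (by intros; omega)
    (by intros; omega)
    (by intros; omega)
    (by intros; omega)
    (by intros; omega)
    (by intros; omega)
    (by intros; omega)
    (by intros; omega)
    (by intros; omega)
    (by intros; omega)
    (by intros; omega)
    (by intros; omega)
    (by intros; omega)
    (by intros; omega)
    (by intros; omega)
    (by intros; omega)
    (by intros; omega)
    (by intros; omega)
    (by intros; omega)
    (by intros; omega)
    (by intros; omega)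
    (by intros; omega)
    (by intros; omega)
    (by intros; omega)
    (by intros; omega)
    (by intros; omega)
    (by intros; omega)
    (by intros; omega)
    (by intros; omega)
    (by intros; omega)
    (by intros; omega)
    (by intros; omega)
    (by intros; omega)
    (by intros; omega)
    (by intros; omega)
    (by intros; omega)
    (by intros; omega)
    (by intros; omega)
    (by intros; omega)
    (by intros; omega)
    (by intros; omega)
    (by intros; omega)
    (by intros; omega)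
    (by intros; omega)
    (by intros; omega)
    (by intros; omega)
    (by intros; omega)
    (by intros; omega)
    (by intros; omega)
    (by intros; omega)
    (by intros; omega)
    (by intros; omega)
    (by intros; omega)
    (by intros; omega)
    (by intros; omega)
    (by intros; omega)
    (by intros; omega)
    (by intros; omega)
    (by intros; omega)
    (by intros; omega)
    (by intros; omega)
    (by intros; omega)
    (by intros; omega)
    (by intros; omega)
    (by intros; omega)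
    (by intros; omega)
    (by intros; omega)
    (by intros; omega)
    (by intros; omega)
    (by intros; omega)
    (by intros; omega)
    (by intros; omega)
    (by intros; omega)
    (by intros; omega)
    (by intros; omega)
    (by intros; omega)
    (by intros; omega)
    (by intros; omega)
    (by intros; omega)
    (by intros; omega)
    (by intros; omega)
    (by intros; omega)
    (by intros; omega)
    (by intros; omega)
    (by intros; omega)
    (by intros; omega)
    (by intros; omega)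
    (by intros; omega)
    (by intros; omega)
    (by intros; omega)
    (by intros; omega)
    (by intros; omega)
    (by intros; omega)
    (by intros; omega)
    (by intros; omega)
    (by intros; omega)
    (by intros; omega)
    (by intros; omega)
    (by intros; omega)
    (by intros; omega)
    (by intros; omega)
    (by intros; omega)
    (by intros; omega)
    (by intros; omega)
    (by intros; omega)
    (by intros; omega)
    (by intros; omega)
    (by intros; omega)
    (by intros; omega)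
    (by intros; omega)
    (by intros; omega)
    (by intros; omega)
    (by intros; omega)
    (by intros; omega)
    (by intros; omega)
    (by intros; omega)
    (by intros; omega)
    (by intros; omega)
    (by intros; omega)
    (by intros; omega)
    (by intros; omega)
    (by intros; omega)
    (by intros; omega)
    (by intros; omega)
    (by intros; omega)
    (by intros; omega)
    (by intros; omega)
    (by intros; omega)
    (by intros; omega)
    (by intros; omega)
    (by intros; omega)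
    (by intros; omega)
    (by intros; omega)
    (by intros; omega)
    (by intros; omega)
    (by intros; omega)
    (by intros; omega)
    (by intros; omega)
    (by intros; omega)
    (by intros; omega)
    (by intros; omega)
    (by intros; omega)
    (by intros; omega)
    (by intros; omega)
    (by intros; omega)
    (by intros; omega)
    (by intros; omega)
    (by intros; omega)
    (by intros; omega)
    (by intros; omega)
    (by intros; omega)
    (by intros; omega)
    (by intros; omega)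
    (by intros; omega)
    (by intros; omega)
    (by intros; omega)
    (by intros; omega)
    (by intros; omega)
    (by intros; omega)
    (by intros; omega)
    (by intros; omega)
    (by intros; omega)
    (by intros; omega)
    (by intros; omega)
    (by intros; omega)
    (by intros; omega)
    (by intros; omega)
    (by intros; omega)
    (by intros; omega)
    (by intros; omega)
    (by intros; omega)
    (by intros; omega)
    (by intros; omega)
    (by intros; omega)
    (by intros; omega)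
    (by intros; omega)
    (by intros; omega)
    (by intros; omega)
    (by intros; omega)
    (by intros; omega)
    (by intros; omega)
    (by intros; omega)
    (by intros; omega)
    (by intros; omega)
    (by intros; omega)
    (by intros; omega)
    (by intros; omega)
    (by intros; omega)
    (by intros; omega)
    (by intros; omega)
    (by intros; omega)
    (by intros; omega)
    (by intros; omega)
    (by intros; omega)
    (by intros; omega)
    (by intros; omega)
    (by intros; omega)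
    (by intros; omega)
    (by intros; omega)
    (by intros; omega)
    (by intros; omega)
    (by intros; omega)
    (by intros; omega)
    (by intros; omega)
    (by intros; omega)
    (by intros; omega)
    (by intros; omega)
    (by intros; omega)
    (by intros; omega)
    (by intros; omega)
    (by intros; omega)
    (by intros; omega)
    (by intros; omega)
    (by intros; omega)
    (by intros; omega)
    (by intros; omega)
    (by intros; omega)
    (by intros; omega)
    (by intros; omega)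
    (by intros; omega)
    (by intros; omega)
    (by intros; omega)
    (by intros; omega)
    (by intros; omega)
    (by intros; omega)
    (by intros; omega)
    (by intros; omega)
    (by intros; omega)
    (by intros; omega)
    (by intros; omega)
    (by intros; omega)
    (by intros; omega)
    (by intros; omega)
    (by intros; omega)
    (by intros; omega)
    (by intros; omega)
    (by intros; omega)
    (by intros; omega)
    (by intros; omega)
    (by intros; omega)
    (by intros; omega)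
    (by intros; omega)
    (by intros; omega)
    (by intros; omega)
    (by intros; omega)
    (by intros; omega)
    (by intros; omega)
    (by intros; omega)
    (by intros; omega)
    (by intros; omega)
    (by intros; omega)
    (by intros; omega)
    (by intros; omega)
    (by intros; omega)
    (by intros; omega)
    (by intros; omega)
    (by intros; omega)
    (by intros; omega)
    (by intros; omega)
    (by intros; omega)
    (by intros; omega)
    (by intros; omega)
    (by intros; omega)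
    (by intros; omega)
    (by intros; omega)
    (by intros; omega)
    (by intros; omega)
    (by intros; omega)
    (by intros; omega)
    (by intros; omega)
    (by intros; omega)
    (by intros; omega)
    (by intros; omega)
    (by intros; omega)
    (by intros; omega)
    (by intros; omega)
    (by intros; omega)
    (by intros; omega)
    (by intros; omega)
    (by intros; omega)
    (by intros; omega)
    (by intros; omega)
    (by intros; omega)
    (by intros; omega)
    (by intros; omega)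
    (by intros; omega)
    (by intros; omega)
    (by intros; omega)
    (by intros; omega)
    (by intros; omega)
    (by intros; omega)
    (by intros; omega)
    (by intros; omega)
    (by intros; omega)
    (by intros; omega)
    (by intros; omega)
    (by intros; omega)
    (by intros; omega)
    (by intros; omega)
    (by intros; omega)
    (by intros; omega)
    (by intros; omega)
    (by intros; omega)
    (by intros; omega)
    (by intros; omega)
    (by intros; omega)
    (by intros; omega)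
    (by intros; omega)
    (by intros; omega)
    (by intros; omega)
    (by intros; omega)
    (by intros; omega)
    (by intros; omega)
    (by intros; omega)
    (by intros; omega)
    (by intros; omega)
    (by intros; omega)
    (by intros; omega)
    (by intros; omega)
    (by intros; omega)
    (by intros; omega)
    (by intros; omega)
    (by intros; omega)
    (by intros; omega)
    (by intros; omega)
    (by intros; omega)
    (by intros; omega)
    (by intros; omega)
    (by intros; omega)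
    (by intros; omega)
    (by intros; omega)
    (by intros; omega)
    (by intros; omega)
    (by intros; omega)
    (by intros; omega)
    (by intros; omega)
    (by intros; omega)
    (by intros; omega)
    (by intros; omega)
    (by intros; omega)
    (by intros; omega)
    (by intros; omega)
    (by intros; omega)
    (by intros; omega)
    (by intros; omega)
    (by intros; omega)
    (by intros; omega)
    (by intros; omega)
    (by intros; omega)
    (by intros; omega)
    (by intros; omega)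
    (by intros; omega)
    (by intros; omega)
    (by intros; omega)
    (by intros; omega)
    (by intros; omega)
    (by intros; omega)
    (by intros; omega)
    (by intros; omega)
    (by intros; omega)
    (by intros; omega)
    (by intros; omega)
    (by intros; omega)
    (by intros; omega)
    (by intros; omega)
    (by intros; omega)
    (by intros; omega)
    (by intros; omega)
    (by intros; omega)
    (by intros; omega)
    (by intros; omega)
    (by intros; omega)
    (by intros; omega)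
    (by intros; omega)
    (by intros; omega)
    (by intros; omega)
    (by intros; omega)
    (by intros; omega)
    (by intros; omega)
    (by intros; omega)
    (by intros; omega)
    (by intros; omega)
    (by intros; omega)
    (by intros; omega)
    (by intros; omega)
    (by intros; omega)
    (by intros; omega)
    (by intros; omega)
    (by intros; omega)
    (by intros; omega)
    (by intros; omega)
    (by intros; omega)
    (by intros; omega)
    (by intros; omega)
    (by intros; omega)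
    (by intros; omega)
    (by intros; omega)
    (by intros; omega)
    (by intros; omega)
    (by intros; omega)
    (by intros; omega)
    (by intros; omega)
    (by intros; omega)
    (by intros; omega)
    (by intros; omega)
    (by intros; omega)
    (by intros; omega)
    (by intros; omega)
    (by intros; omega)
    (by intros; omega)
    (by intros; omega)
    (by intros; omega)
    (by intros; omega)
    (by intros; omega)
    (by intros; omega)
    (by intros; omega)
    (by intros; omega)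
    (by intros; omega)
    (by intros; omega)
    (by intros; omega)
    (by intros; omega)
    (by intros; omega)
    (by intros; omega)
    (by intros; omega)
    (by intros; omega)
    (by intros; omega)
    (by intros; omega)
    (by intros; omega)
    (by intros; omega)
    (by intros; omega)
    (by intros; omega)
    (by intros; omega)
    (by intros; omega)
    (by intros; omega)
    (by intros; omega)
    (by intros; omega)
    (by intros; omega)
    (by intros; omega)
    (by intros; omega)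
    (by intros; omega)
    (by intros; omega)
    (by intros; omega)
    (by intros; omega)
    (by intros; omega)
    (by intros; omega)
    (by intros; omega)
    (by intros; omega)
    (by intros; omega)
    (by intros; omega)
    (by intros; omega)
    (by intros; omega)
    (by intros; omega)
    (by intros; omega)
    (by intros; omega)
    (by intros; omega)
    (by intros; omega)
    (by intros; omega)
    (by intros; omega)
    (by intros; omega)
    (by intros; omega)
    (by intros; omega)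
    (by intros; omega)
    (by intros; omega)
    (by intros; omega)
    (by intros; omega)
    (by intros; omega)
    (by intros; omega)
    (by intros; omega)
    (by intros; omega)
    (by intros; omega)
    (by intros; omega)
    (by intros; omega)
    (by intros; omega)
    (by intros; omega)
    (by intros; omega)
    (by intros; omega)
    (by intros; omega)
    (by intros; omega)
    (by intros; omega)
    (by intros; omega)
    (by intros; omega)
    (by intros; omega)
    (by intros; omega)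
    (by intros; omega)
    (by intros; omega)
    (by intros; omega)
    (by intros; omega)
    (by intros; omega)
    (by intros; omega)
    (by intros; omega)
    (by intros; omega)
    (by intros; omega)
    (by intros; omega)
    (by intros; omega)
    (by intros; omega)
    (by intros; omega)
    (by intros; omega)
    (by intros; omega)
    (by intros; omega)
    (by intros; omega)
    (by intros; omega)
    (by intros; omega)
    (by intros; omega)
    (by intros; omega)
    (by intros; omega)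
    (by intros; omega)
    (by intros; omega)
    (by intros; omega)
    (by intros; omega)
    (by intros; omega)
    (by intros; omega)
    (by intros; omega)
    (by intros; omega)
    (by intros; omega)
    (by intros; omega)
    (by intros; omega)
    (by intros; omega)
    (by intros; omega)
    (by intros; omega)
    (by intros; omega)
    (by intros; omega)
    (by intros; omega)
    (by intros; omega)
    (by intros; omega)
    (by intros; omega)
    (by intros; omega)
    (by intros; omega)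
    (by intros; omega)
    (by intros; omega)
    (by intros; omega)
    (by intros; omega)
    (by intros; omega)
    (by intros; omega)
    (by intros; omega)
    (by intros; omega)
    (by intros; omega)
    (by intros; omega)
    (by intros; omega)
    (by intros; omega)
    (by intros; omega)
    (by intros; omega)
    (by intros; omega)
    (by intros; omega)
    (by intros; omega)
    (by intros; omega)
    (by intros; omega)
    (by intros; omega)
    (by intros; omega)
    (by intros; omega)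
    (by intros; omega)
    (by intros; omega)
    (by intros; omega)
    (by intros; omega)
    (by intros; omega)
    (by intros; omega)
    (by intros; omega)
    (by intros; omega)
    (by intros; omega)
    (by intros; omega)
    (by intros; omega)
    (by intros; omega)
    (by intros; omega)
    (by intros; omega)
    (by intros; omega)
    (by intros; omega)
    (by intros; omega)
    (by intros; omega)
    (by intros; omega)
    (by intros; omega)
    (by intros; omega)
    (by intros; omega)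
    (by intros; omega)
    (by intros; omega)
    (by intros; omega)
    (by intros; omega)
    (by intros; omega)
    (by intros; omega)
    (by intros; omega)
    (by intros; omega)
    (by intros; omega)
    (by intros; omega)
    (by intros; omega)
    (by intros; omega)
    (by intros; omega)
    (by intros; omega)
    (by intros; omega)
    (by intros; omega)
    (by intros; omega)
    (by intros; omega)
    (by have := X.hm.bd j; intros; omega)
    (by have := X.hn.bd j; intros; omega)
    (by have := X.hle j; intros; omega)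
    (by have := X.hm.bd a1; intros; omega)
    (by have := X.hn.bd a1; intros; omega)
    (by have := X.hm.bd c1; intros; omega)
    (by have := X.hm.bd x; intros; omega)
    (by have := X.hm.bd v; intros; omega)
    (by have := X.hn.bd v; intros; omega)
    (by have := X.hm.bd u; intros; omega)
    (by have := X.hj; intros; omega)
    (by have := X.hm.lip2 j a1; intros; omega)
    (by have := X.hm.lip2 j a1; intros; omega)
    (fun hJ => (by have := (S.pj hJ).at a1; intros; omega))
    (by have := X.hn.lip2 j a1; intros; omega)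
    (by have := S.pa1.at j; intros; omega)
    (by have := X.hm.lip2 j a2; intros; omega)
    (by have := X.hm.lip2 j a2; intros; omega)
    (fun hJ => (by have := (S.pj hJ).at a2; intros; omega))
    (by have := S.pa2.at j; intros; omega)
    (by have := X.pj.at a2; intros; omega)
    (by have := X.hm.lip2 j c1; intros; omega)
    ((by have := S.pc1.at j; intros; omega))
    (fun hJ => (by have := (S.pj hJ).at c1; intros; omega))
    (by have := X.hm.lip2 j c2; intros; omega)
    ((by have := S.pc2.at j; intros; omega))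
    (fun hJ => (by have := (S.pj hJ).at c2; intros; omega))
    (by have := X.hm.lip2 j x; intros; omega)
    (fun hJ => (by have := (S.pj hJ).at x; intros; omega))
    (by have := X.hn.lip2 j x; intros; omega)
    ((by have := S.pv.at j; intros; omega))
    (fun hJ => (by have := (S.pj hJ).at v; intros; omega))
    (by have := X.hm.lip2 j u; intros; omega)
    (by have := X.hm.lip2 j u; intros; omega)
    ((by have := S.pu.at j; intros; omega))
    (fun hJ => (by have := (S.pj hJ).at u; intros; omega))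
    (by have := X.hn.lip2 j u; intros; omega)
    (by have := X.hm.lip2 a1 j; intros; omega)
    (fun hJ => (by have := (S.pj hJ).at a1; intros; omega))
    (by have := X.hn.lip2 a1 j; intros; omega)
    (by have := X.pj.at a1; intros; omega)
    (by have := S.pa1.at j; intros; omega)
    (by have := X.hm.lip2 a1 a2; intros; omega)
    (by have := X.hm.lip2 a1 a2; intros; omega)
    (by have := X.hn.lip2 a1 a2; intros; omega)
    (by have := X.hn.lip2 a1 a2; intros; omega)
    (by have := S.pa2.at a1; intros; omega)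
    (by have := S.pa1.at a2; intros; omega)
    (by have := X.hm.lip2 a1 c1; intros; omega)
    (by have := X.hm.lip2 a1 c1; intros; omega)
    ((by have := S.pc1.at a1; intros; omega))
    (by have := X.hn.lip2 a1 c1; intros; omega)
    (by have := X.hn.lip2 a1 c1; intros; omega)
    (by have := S.pa1.at c1; intros; omega)
    (by have := X.hm.lip2 a1 c2; intros; omega)
    (by have := X.hm.lip2 a1 c2; intros; omega)
    ((by have := S.pc2.at a1; intros; omega))
    (by have := X.hn.lip2 a1 c2; intros; omega)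
    (by have := S.pa1.at c2; intros; omega)
    (by have := X.hm.lip2 a1 x; intros; omega)
    (by have := X.hm.lip2 a1 x; intros; omega)
    ((by have := S.px.at a1; intros; omega))
    (by have := X.hn.lip2 a1 x; intros; omega)
    (by have := X.hn.lip2 a1 x; intros; omega)
    (by have := S.pa1.at x; intros; omega)
    (by have := X.hm.lip2 a1 v; intros; omega)
    (by have := X.hm.lip2 a1 u; intros; omega)
    (by have := X.hn.lip2 a1 u; intros; omega)
    (by have := S.pa1.at u; intros; omega)
    (by have := X.hm.lip2 a2 j; intros; omega)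
    (by have := X.hm.lip2 a2 j; intros; omega)
    (fun hJ => (by have := (S.pj hJ).at a2; intros; omega))
    (by have := X.hn.lip2 a2 j; intros; omega)
    (by have := S.pa2.at j; intros; omega)
    (by have := X.hm.lip2 a2 a1; intros; omega)
    (by have := X.hn.lip2 a2 a1; intros; omega)
    (by have := X.hn.lip2 a2 a1; intros; omega)
    (by have := X.hm.lip2 a2 c1; intros; omega)
    (by have := X.hm.lip2 a2 c1; intros; omega)
    ((by have := S.pc1.at a2; intros; omega))
    (by have := X.hm.lip2 a2 c2; intros; omega)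
    (by have := X.hm.lip2 a2 c2; intros; omega)
    ((by have := S.pc2.at a2; intros; omega))
    (by have := X.hn.lip2 a2 c2; intros; omega)
    (by have := S.pa2.at c2; intros; omega)
    (by have := X.hm.lip2 a2 x; intros; omega)
    (by have := X.hm.lip2 a2 x; intros; omega)
    ((by have := S.px.at a2; intros; omega))
    (by have := X.hn.lip2 a2 x; intros; omega)
    (by have := S.pa2.at x; intros; omega)
    (fun hJ => (by have := (S.pj hJ).at c1; intros; omega))
    ((by have := S.pc1.at j; intros; omega))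
    (by have := X.hn.lip2 c1 j; intros; omega)
    (by have := X.hm.lip2 c1 a1; intros; omega)
    (by have := X.hm.lip2 c1 a1; intros; omega)
    ((by have := S.pc1.at a1; intros; omega))
    (by have := X.hn.lip2 c1 a1; intros; omega)
    (by have := S.pa1.at c1; intros; omega)
    (by have := X.hm.lip2 c1 a2; intros; omega)
    ((by have := S.pc1.at a2; intros; omega))
    (by have := X.hn.lip2 c1 a2; intros; omega)
    (by have := X.hm.lip2 c1 c2; intros; omega)
    (by have := X.hm.lip2 c1 c2; intros; omega)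
    ((by have := S.pc2.at c1; intros; omega))
    ((by have := S.pc1.at c2; intros; omega))
    (by have := X.hn.lip2 c1 c2; intros; omega)
    (by have := X.hn.lip2 c1 c2; intros; omega)
    (by have := X.hm.lip2 c1 x; intros; omega)
    ((by have := S.px.at c1; intros; omega))
    ((by have := S.pc1.at x; intros; omega))
    (by have := X.hn.lip2 c1 x; intros; omega)
    (by have := X.hm.lip2 c1 v; intros; omega)
    (by have := X.hm.lip2 c1 v; intros; omega)
    ((by have := S.pc1.at v; intros; omega))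
    (by have := X.hn.lip2 c1 v; intros; omega)
    (by have := X.hm.lip2 c1 u; intros; omega)
    (by have := X.hm.lip2 c1 u; intros; omega)
    ((by have := S.pu.at c1; intros; omega))
    ((by have := S.pc1.at u; intros; omega))
    (by have := X.hn.lip2 c1 u; intros; omega)
    (by have := X.hn.lip2 c1 u; intros; omega)
    (by have := X.hm.lip2 c2 j; intros; omega)
    (fun hJ => (by have := (S.pj hJ).at c2; intros; omega))
    ((by have := S.pc2.at j; intros; omega))
    (by have := X.hn.lip2 c2 j; intros; omega)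
    (by have := X.hm.lip2 c2 a1; intros; omega)
    ((by have := S.pc2.at a1; intros; omega))
    (by have := X.hn.lip2 c2 a1; intros; omega)
    (by have := X.hn.lip2 c2 a1; intros; omega)
    (by have := S.pa1.at c2; intros; omega)
    (by have := X.hm.lip2 c2 a2; intros; omega)
    ((by have := S.pc2.at a2; intros; omega))
    (by have := X.hn.lip2 c2 a2; intros; omega)
    (by have := S.pa2.at c2; intros; omega)
    (by have := X.hm.lip2 c2 c1; intros; omega)
    (by have := X.hm.lip2 c2 c1; intros; omega)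
    (by have := X.hn.lip2 c2 c1; intros; omega)
    (by have := X.hm.lip2 c2 x; intros; omega)
    ((by have := S.px.at c2; intros; omega))
    (by have := X.hn.lip2 c2 x; intros; omega)
    (by have := X.hm.lip2 c2 v; intros; omega)
    (by have := X.hm.lip2 c2 u; intros; omega)
    ((by have := S.pu.at c2; intros; omega))
    ((by have := S.pc2.at u; intros; omega))
    (by have := X.hm.lip2 x j; intros; omega)
    (by have := X.hm.lip2 x j; intros; omega)
    (fun hJ => (by have := (S.pj hJ).at x; intros; omega))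
    (by have := X.hn.lip2 x j; intros; omega)
    (by have := X.hm.lip2 x a1; intros; omega)
    (by have := X.hm.lip2 x a1; intros; omega)
    ((by have := S.px.at a1; intros; omega))
    (by have := X.hn.lip2 x a1; intros; omega)
    (by have := S.pa1.at x; intros; omega)
    (by have := X.hm.lip2 x a2; intros; omega)
    ((by have := S.px.at a2; intros; omega))
    (by have := X.hn.lip2 x a2; intros; omega)
    (by have := X.hn.lip2 x a2; intros; omega)
    (by have := S.pa2.at x; intros; omega)
    (by have := X.hm.lip2 x c1; intros; omega)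
    (by have := X.hm.lip2 x c1; intros; omega)
    ((by have := S.pc1.at x; intros; omega))
    ((by have := S.px.at c1; intros; omega))
    (by have := X.hn.lip2 x c1; intros; omega)
    (by have := X.hm.lip2 x c2; intros; omega)
    ((by have := S.pc2.at x; intros; omega))
    ((by have := S.px.at c2; intros; omega))
    (by have := X.hn.lip2 x c2; intros; omega)
    (by have := X.hm.lip2 x u; intros; omega)
    (by have := X.hm.lip2 v j; intros; omega)
    (fun hJ => (by have := (S.pj hJ).at v; intros; omega))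
    (by have := X.hn.lip2 v j; intros; omega)
    (by have := S.pa1.at v; intros; omega)
    (by have := X.hn.lip2 v a2; intros; omega)
    (by have := X.hm.lip2 v c1; intros; omega)
    ((by have := S.pc1.at v; intros; omega))
    ((by have := S.pv.at c1; intros; omega))
    ((by have := S.pc2.at v; intros; omega))
    (by have := X.hm.lip2 u j; intros; omega)
    (fun hJ => (by have := (S.pj hJ).at u; intros; omega))
    ((by have := S.pu.at j; intros; omega))
    (by have := X.hn.lip2 u j; intros; omega)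
    (by have := X.hm.lip2 u a1; intros; omega)
    (by have := X.hn.lip2 u a1; intros; omega)
    (by have := S.pa1.at u; intros; omega)
    (by have := X.hm.lip2 u c1; intros; omega)
    (by have := X.hm.lip2 u c1; intros; omega)
    ((by have := S.pc1.at u; intros; omega))
    ((by have := S.pu.at c1; intros; omega))
    (by have := X.hn.lip2 u c1; intros; omega)
    (by have := X.hn.lip2 u c1; intros; omega)
    (by have := X.hm.lip2 u c2; intros; omega)
    ((by have := S.pc2.at u; intros; omega))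
    ((by have := S.pu.at c2; intros; omega))
    ((by have := S.px.at u; intros; omega))
    (by have := S.na1; intros; omega)
    (by have := S.na2; intros; omega)
    (by have := S.nc1; intros; omega)
    (by have := S.nc2; intros; omega)
    (by have := X.uniq a1 S.pa1 S.na1; intros; omega)
    (by have := X.uniq a2 S.pa2 S.na2; intros; omega)
    (by have := X.pkle S.pc1; have := S.nc1; intros; omega)
    (by have := X.pkle S.pc2; have := S.nc2; intros; omega)
    (by have := X.pkle S.px; intros; omega)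
    (by have := X.pkle S.px; intros; omega)
    (by have := X.pkle S.pv; intros; omega)
    (by have := X.pkle S.pu; intros; omega)
    (by have := X.pkle S.pu; intros; omega)
    (by have := S.a12; intros; omega)
    (by have := S.c12; intros; omega)
    (by dsimp only [zz, top]; intros; omega)
    (by dsimp only [zz, top]; intros; omega)
    (by dsimp only [zz, top]; intros; omega)
    (by dsimp only [zz, top]; intros; omega)
    (by dsimp only [yy, top]; intros; omega)
    (by dsimp only [yy, top]; intros; omega)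
    (by dsimp only [yy, top]; intros; omega)
    (by dsimp only [yy, top]; intros; omega)
    (by dsimp only [yy, top]; intros; omega)
    (fun h g => g h.1)
    (fun h g => g h.2)
    (by dsimp only [yy, top]; intros; omega)
    (by dsimp only [yy, top]; intros; omega)
    (by dsimp only [yy, top]; intros; omega)
    (by dsimp only [yy, top]; intros; omega)
    (fun h g => g h.1)
    (fun h g => g h.2)
    (by dsimp only [yy, top]; intros; omega)
    (by dsimp only [yy, top]; intros; omega)
    (fun h g => g h.1)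
    (fun h g => g h.2)
    (fun h1 h2 h3 h4 h5 => (S.Ga1).elim h1 fun t => t.elim h2 fun t => t.elim h3 fun t => t.elim h4 h5)
    (by dsimp only [zz, top]; intros; omega)
    (by dsimp only [zz, top]; intros; omega)
    (by dsimp only [zz, top]; intros; omega)
    (by dsimp only [zz, top]; intros; omega)
    (by intro h; unfold ZF at h; intros; omega)
    (by intro h; unfold ZF at h; intros; omega)
    (by intro h; unfold ZF at h; intros; omega)
    (by dsimp only [zz, top]; intros; omega)
    (by dsimp only [zz, top]; intros; omega)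
    (by dsimp only [zz, top]; intros; omega)
    (by dsimp only [zz, top]; intros; omega)
    (by intro h; unfold ZF at h; intros; omega)
    (by intro h; unfold ZF at h; intros; omega)
    (by intro h; unfold ZF at h; intros; omega)
    (by dsimp only [yy, top]; intros; omega)
    (by dsimp only [yy, top]; intros; omega)
    (by dsimp only [yy, top]; intros; omega)
    (by dsimp only [yy, top]; intros; omega)
    (fun h g => g h.1)
    (fun h g => g h.2)
    (by dsimp only [yy, top]; intros; omega)
    (by dsimp only [yy, top]; intros; omega)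
    (by dsimp only [yy, top]; intros; omega)
    (by dsimp only [yy, top]; intros; omega)
    (by dsimp only [yy, top]; intros; omega)
    (by dsimp only [yy, top]; intros; omega)
    (by dsimp only [yy, top]; intros; omega)
    (fun h g => g h.1)
    (fun h g => g h.2)
    (by dsimp only [yy, top]; intros; omega)
    (by dsimp only [yy, top]; intros; omega)
    (fun h g => g h.1)
    (fun h g => g h.2)
    (fun h h1 h2 h3 h4 h5 => (S.Fa1 h).elim h1 fun t => t.elim h2 fun t => t.elim h3 fun t => t.elim h4 h5)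
    (by dsimp only [zz, top]; intros; omega)
    (by dsimp only [zz, top]; intros; omega)
    (by dsimp only [zz, top]; intros; omega)
    (by dsimp only [zz, top]; intros; omega)
    (by dsimp only [yy, top]; intros; omega)
    (by dsimp only [yy, top]; intros; omega)
    (by dsimp only [yy, top]; intros; omega)
    (by dsimp only [yy, top]; intros; omega)
    (by dsimp only [yy, top]; intros; omega)
    (fun h g => g h.1)
    (fun h g => g h.2)
    (by dsimp only [yy, top]; intros; omega)
    (by dsimp only [yy, top]; intros; omega)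
    (by dsimp only [yy, top]; intros; omega)
    (fun h g => g h.1)
    (fun h g => g h.2)
    (by dsimp only [yy, top]; intros; omega)
    (by dsimp only [yy, top]; intros; omega)
    (fun h g => g h.1)
    (fun h g => g h.2)
    (fun h1 h2 h3 h4 h5 => (S.Ga2).elim h1 fun t => t.elim h2 fun t => t.elim h3 fun t => t.elim h4 h5)
    (by intro h; unfold ZF at h; intros; omega)
    (by intro h; unfold ZF at h; intros; omega)
    (by intro h; unfold ZF at h; intros; omega)
    (by dsimp only [yy, top]; intros; omega)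
    (by dsimp only [yy, top]; intros; omega)
    (by dsimp only [yy, top]; intros; omega)
    (by dsimp only [yy, top]; intros; omega)
    (by dsimp only [yy, top]; intros; omega)
    (by dsimp only [yy, top]; intros; omega)
    (fun h g => g h.1)
    (fun h g => g h.2)
    (by dsimp only [yy, top]; intros; omega)
    (by dsimp only [yy, top]; intros; omega)
    (by dsimp only [yy, top]; intros; omega)
    (by dsimp only [yy, top]; intros; omega)
    (by dsimp only [yy, top]; intros; omega)
    (fun h g => g h.1)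
    (fun h g => g h.2)
    (by dsimp only [yy, top]; intros; omega)
    (by dsimp only [yy, top]; intros; omega)
    (fun h g => g h.1)
    (fun h g => g h.2)
    (fun h h1 h2 h3 h4 h5 => (S.Fa2 h).elim h1 fun t => t.elim h2 fun t => t.elim h3 fun t => t.elim h4 h5)
    (by dsimp only [zz, top]; intros; omega)
    (by dsimp only [zz, top]; intros; omega)
    (by intro h; unfold ZF at h; intros; omega)
    (by dsimp only [zz, top]; intros; omega)
    (by dsimp only [zz, top]; intros; omega)
    (by dsimp only [zz, top]; intros; omega)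
    (by dsimp only [zz, top]; intros; omega)
    (by intro h; unfold ZF at h; intros; omega)
    (by dsimp only [yy, top]; intros; omega)
    (fun h g => g h.2)
    (by dsimp only [yy, top]; intros; omega)
    (by dsimp only [yy, top]; intros; omega)
    (by dsimp only [yy, top]; intros; omega)
    (by dsimp only [yy, top]; intros; omega)
    (by dsimp only [yy, top]; intros; omega)
    (fun h g => g h.2)
    (by dsimp only [yy, top]; intros; omega)
    (by dsimp only [yy, top]; intros; omega)
    (fun h g => g h.1)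
    (fun h g => g h.2)
    (fun h h1 h2 h3 h4 h5 => (S.Fc1 h).elim h1 fun t => t.elim h2 fun t => t.elim h3 fun t => t.elim h4 h5)
    (by dsimp only [zz, top]; intros; omega)
    (by dsimp only [zz, top]; intros; omega)
    (by dsimp only [zz, top]; intros; omega)
    (by intro h; unfold ZF at h; intros; omega)
    (by dsimp only [zz, top]; intros; omega)
    (by intro h; unfold ZF at h; intros; omega)
    (by dsimp only [yy, top]; intros; omega)
    (by dsimp only [yy, top]; intros; omega)
    (by dsimp only [yy, top]; intros; omega)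
    (fun h g => g h.2)
    (by dsimp only [yy, top]; intros; omega)
    (fun h g => g h.2)
    (by dsimp only [yy, top]; intros; omega)
    (by dsimp only [yy, top]; intros; omega)
    (fun h g => g h.1)
    (fun h g => g h.2)
    (fun h h1 h2 h3 h4 h5 => (S.Fc2 h).elim h1 fun t => t.elim h2 fun t => t.elim h3 fun t => t.elim h4 h5)
    (by dsimp only [yy, top]; intros; omega)
    (by dsimp only [yy, top]; intros; omega)
    (fun hJ g1 g2 h1 h2 h3 h4 h5 => (S.FJ a1 hJ (by omega) (by omega)).elim h1 fun t => t.elim h2 fun t => t.elim h3 fun t => t.elim h4 h5)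
    (by dsimp only [yy, top]; intros; omega)
    (by dsimp only [yy, top]; intros; omega)
    (by dsimp only [yy, top]; intros; omega)
    (by dsimp only [yy, top]; intros; omega)
    (by dsimp only [zz, top]; intros; omega)
    (by dsimp only [zz, top]; intros; omega)
    (by dsimp only [zz, top]; intros; omega)
    (by dsimp only [zz, top]; intros; omega)
    (by intro h; unfold ZF at h; intros; omega)
    (by intro h; unfold ZF at h; intros; omega)
    (by dsimp only [zz, top]; intros; omega)
    (by dsimp only [zz, top]; intros; omega)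
    (by dsimp only [zz, top]; intros; omega)
    (by intro h; unfold ZF at h; intros; omega)
    (by intro h; unfold ZF at h; intros; omega)
    (by dsimp only [yy, top]; intros; omega)
    (by dsimp only [yy, top]; intros; omega)
    (by dsimp only [yy, top]; intros; omega)
    (by dsimp only [yy, top]; intros; omega)
    (by dsimp only [yy, top]; intros; omega)
    (by dsimp only [yy, top]; intros; omega)
    (fun h g => g h.1)
    (fun h g => g h.2)
    (by dsimp only [yy, top]; intros; omega)
    (by dsimp only [yy, top]; intros; omega)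
    (by dsimp only [yy, top]; intros; omega)
    (by dsimp only [yy, top]; intros; omega)
    (by dsimp only [yy, top]; intros; omega)
    (fun h g => g h.1)
    (fun h g => g h.2)
    (by dsimp only [yy, top]; intros; omega)
    (by dsimp only [yy, top]; intros; omega)
    (fun h g => g h.2)
    (fun hJ g1 g2 h1 h2 h3 h4 h5 => (S.FJ x hJ (by omega) (by omega)).elim h1 fun t => t.elim h2 fun t => t.elim h3 fun t => t.elim h4 h5)
    (by dsimp only [yy, top]; intros; omega)
    (by dsimp only [zz, top]; intros; omega)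
    (by intro h; unfold ZF at h; intros; omega)
    (by dsimp only [zz, top]; intros; omega)
    (by dsimp only [zz, top]; intros; omega)
    (by intro h; unfold ZF at h; intros; omega)
    (by dsimp only [yy, top]; intros; omega)
    (by dsimp only [yy, top]; intros; omega)
    (by dsimp only [yy, top]; intros; omega)
    (fun h g => g h.2)
    (by dsimp only [yy, top]; intros; omega)
    (by dsimp only [yy, top]; intros; omega)
    (fun h g => g h.2)
    (by dsimp only [yy, top]; intros; omega)
    (fun h g => g h.2)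
    (fun hJ g1 g2 h1 h2 h3 h4 h5 => (S.FJ v hJ (by omega) (by omega)).elim h1 fun t => t.elim h2 fun t => t.elim h3 fun t => t.elim h4 h5)
    (by dsimp only [yy, top]; intros; omega)
    (by dsimp only [yy, top]; intros; omega)
    (by dsimp only [zz, top]; intros; omega)
    (by dsimp only [zz, top]; intros; omega)
    (by intro h; unfold ZF at h; intros; omega)
    (by dsimp only [zz, top]; intros; omega)
    (by dsimp only [zz, top]; intros; omega)
    (by intro h; unfold ZF at h; intros; omega)
    (by dsimp only [yy, top]; intros; omega)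
    (by dsimp only [yy, top]; intros; omega)
    (by dsimp only [yy, top]; intros; omega)
    (by dsimp only [yy, top]; intros; omega)
    (by dsimp only [yy, top]; intros; omega)
    (fun h g => g h.2)
    (by dsimp only [yy, top]; intros; omega)
    (by dsimp only [yy, top]; intros; omega)
    (by dsimp only [yy, top]; intros; omega)
    (by dsimp only [yy, top]; intros; omega)
    (fun h g => g h.2)
    (by dsimp only [yy, top]; intros; omega)
    (by dsimp only [yy, top]; intros; omega)
    (fun h g => g h.2)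
    (fun hJ g1 g2 h1 h2 h3 h4 h5 => (S.FJ u hJ (by omega) (by omega)).elim h1 fun t => t.elim h2 fun t => t.elim h3 fun t => t.elim h4 h5)
    (X.Fzz S.pa1 S.pa2 S.na1 S.na2)
    (X.Fyy S.pc1 S.pc2)
    (by dsimp only [yy, top]; intros; omega)
    (by dsimp only [yy, top]; intros; omega)
    (by dsimp only [yy, top]; intros; omega)
    (by dsimp only [yy, top]; intros; omega)
    (X.Fyy S.pc1 S.px)
    (by dsimp only [yy, top]; intros; omega)
    (by dsimp only [yy, top]; intros; omega)
    (X.Fyy S.pc1 S.pv)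
    (by dsimp only [yy, top]; intros; omega)
    (by dsimp only [yy, top]; intros; omega)
    (by dsimp only [yy, top]; intros; omega)
    (X.Fyy S.pc1 S.pu)
    (by dsimp only [yy, top]; intros; omega)
    (by dsimp only [yy, top]; intros; omega)
    (by dsimp only [yy, top]; intros; omega)
    (by dsimp only [yy, top]; intros; omega)
    (X.Fyy S.pc2 S.px)
    (by dsimp only [yy, top]; intros; omega)
    (X.Fyy S.pc2 S.pv)
    (by dsimp only [yy, top]; intros; omega)
    (by dsimp only [yy, top]; intros; omega)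
    (X.Fyy S.pc2 S.pu)
    (by dsimp only [yy, top]; intros; omega)
    (by dsimp only [yy, top]; intros; omega)
    (fun hJ => X.Fzy S.pa1 S.na1 (S.pj hJ))
    (X.Fzy S.pa1 S.na1 S.pc2)
    (by dsimp only [yy, top]; intros; omega)
    (by dsimp only [yy, top]; intros; omega)
    (by dsimp only [yy, top]; intros; omega)
    (by dsimp only [yy, top]; intros; omega)
    (X.Fzy S.pa1 S.na1 S.px)
    (X.Fzyy S.pa1 S.na1 S.pv S.pc1)
    (X.Fzyy S.pa1 S.na1 S.pu S.pc2)
    (X.FzY1 S.pa1 S.na1 S.pc1 S.nc1 S.oc1)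
    (X.FzwY1 S.pa1 S.na1 S.pa2 S.na2 S.pc1 S.nc1 S.oc1)
    (X.FzY1 S.pa1 S.na1 S.pc2 S.nc2 S.oc2)
    (fun hJ => X.FzY2 S.pa1 S.na1 (S.pj hJ) (S.oj hJ))
    (by dsimp only [yy, top]; intros; omega)
    (fun hJ => X.Fzy S.pa2 S.na2 (S.pj hJ))
    (X.Fzy S.pa2 S.na2 S.pc1)
    (by dsimp only [yy, top]; intros; omega)
    (by dsimp only [yy, top]; intros; omega)
    (X.Fzy S.pa2 S.na2 S.px)
    (X.Fzyy S.pa2 S.na2 S.pc1 S.pc2)
    (X.Fzzy S.pa2 S.na2 S.pa1 S.na1 S.pc2)
    (X.FzY1 S.pa2 S.na2 S.pc1 S.nc1 S.oc1)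
    (X.FzwY1 S.pa2 S.na2 S.pa1 S.na1 S.pc1 S.nc1 S.oc1)
    (X.FzY1 S.pa2 S.na2 S.pc2 S.nc2 S.oc2)
    (fun hJ => X.FzY2 S.pa2 S.na2 (S.pj hJ) (S.oj hJ))
    (by dsimp only [zz, yy, top]; intros; omega)
    (by dsimp only [zz, yy, top]; intros; omega)
    (by dsimp only [zz, yy, top]; intros; omega)
    (by dsimp only [zz, yy, top]; intros; omega)
    (fun hJ => by have := S.wx  hJ; intros; omega)
    (by dsimp only [zz, yy, top]; intros; omega)
    (by dsimp only [zz, yy, top]; intros; omega)
    (by dsimp only [zz, yy, top]; intros; omega)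
    (by dsimp only [zz, yy, top]; intros; omega)
    (by dsimp only [zz, yy, top]; intros; omega)
    (fun hJ => by have := S.wv  hJ; intros; omega)
    (by dsimp only [zz, yy, top]; intros; omega)
    (by dsimp only [zz, yy, top]; intros; omega)
    (by dsimp only [zz, yy, top]; intros; omega)
    (by dsimp only [zz, yy, top]; intros; omega)
    (by dsimp only [zz, yy, top]; intros; omega)
    (by dsimp only [zz, yy, top]; intros; omega)
    (by dsimp only [zz, yy, top]; intros; omega)
    (by dsimp only [zz, yy, top]; intros; omega)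
    (fun hJ => by have := S.wu  hJ; intros; omega)

end Pool.Agent.P.MP_c009d0_co
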