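import Mathlib

/-! Simple games, desirability, coalition types and trade robustness. -/

namespace Pool.Agent.P.MP_c009d0_co

variable {N : Type} [Fintype N] [DecidableEq N]

/-- `W` is the family of winning coalitions of a simple game. -/
def IsSimpleGame (W : Set (Finset N)) : Prop :=
  (∀ S T : Finset N, S ∈ W → S ⊆ T → T ∈ W) ∧ ∅ ∉ W ∧ Finset.univ ∈ W

/-- Player `i` is at least as desirable as player `j`. -/
def Desir (W : Set (Finset N)) (i j : N) : Prop :=
  ∀ S : Finset N, i ∉ S → j ∉ S → insert j S ∈ W → insert i S ∈ W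

/-- The desirability relation is total. -/
def IsCompleteGame (W : Set (Finset N)) : Prop := ∀ i j, Desir W i j ∨ Desir W j i

/-- The coalition type of `S`: at `i`, the number of members of `S` of the same type as `i`. -/
noncomputable def coalType (W : Set (Finset N)) (S : Finset N) (i : N) : ℕ :=
  {j | j ∈ S ∧ Desir W j i ∧ Desir W i j}.ncard

/-- Partial sums of the coalition type of `S`: at `i`, the number of members of `S` whose type
is the type of `i` or a more desirable one. -/
noncomputable def partialSum (W : Set (Finset N)) (S : Finset N) (i : N) : ℕ :=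
  {j | j ∈ S ∧ Desir W j i}.ncard

/-- The shift-minimal winning coalition types. -/
def shiftMinTypes (W : Set (Finset N)) : Set (N → ℕ) :=
  {v | ∃ S ∈ W, coalType W S = v ∧
    ∀ T ∈ W, (∀ i, partialSum W T i ≤ partialSum W S i) → coalType W T = v}

/-- `k`-trade robustness. -/
def TradeRobust (W : Set (Finset N)) (k : ℕ) : Prop :=
  ∀ j, 1 ≤ j → j ≤ k → ∀ X Y : Fin j → Finset N, (∀ a, X a ∈ W) →
    (∀ p, {a | p ∈ X a}.ncard = {a | p ∈ Y a}.ncard) → ∃ a, Y a ∈ W

end Pool.Agent.P.MP_c009d0_co
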