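import Pool.Agent.P.MP_c009d0_co.Path

/-! The short trades available in a game with two minimal paths. -/

namespace Pool.Agent.P.MP_c009d0_co

/-- Winning paths of the game generated by `m` and `n`. -/
def Win (m n : ℕ → ℤ) (s : ℕ → ℤ) : Prop := (∀ k, m k ≤ s k) ∨ (∀ k, n k ≤ s k)

/-- The normalised situation. -/
structure Ctx (m n : ℕ → ℤ) (j : ℕ) : Prop where
  hm : IsPath m
  hn : IsPath n
  em : Ev m
  en : Ev n
  hj : n j = m j + 1
  hle : ∀ k, n k ≤ m k + 1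
  pj : Peak n j
  uniq : ∀ a, Peak n a → a ≠ j → n a ≤ m a
  t2 : NoT2 (Win m n)
  t3 : NoT3 (Win m n)

/-- Highest path failing `n` at `a`. -/
def zz (n : ℕ → ℤ) (a : ℕ) : ℕ → ℤ := top a (n a - 1)
/-- Highest path failing `m` at `c` and `n` at `j`. -/
def yy (m : ℕ → ℤ) (j c : ℕ) : ℕ → ℤ := fun l => min (top j (m j) l) (top c (m c - 1) l)
/-- Highest path failing `m` at `j`. -/
def yJ (m : ℕ → ℤ) (j : ℕ) : ℕ → ℤ := top j (m j - 1)

/-- Satisfies `n` at all peaks other than `j`. -/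
def OK (n : ℕ → ℤ) (j : ℕ) (y : ℕ → ℤ) : Prop := ∀ a, Peak n a → a ≠ j → n a ≤ y a

variable {m n : ℕ → ℤ} {j : ℕ}

theorem winm (s : ℕ → ℤ) (_ : IsPath s) (h : ∀ k, m k ≤ s k) : Win m n s := Or.inl h
theorem winn (s : ℕ → ℤ) (_ : IsPath s) (h : ∀ k, n k ≤ s k) : Win m n s := Or.inr h

theorem lose {s : ℕ → ℤ} {a b : ℕ} (h1 : s a < m a) (h2 : s b < n b) : ¬ Win m n s := by
  rintro (h | h)
  · have := h a; omega
  · have := h b; omega

namespace Ctx

theorem zp (X : Ctx m n j) {a : ℕ} (ha : Peak n a) : IsPath (zz n a) :=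
  top_path _ (by have := ha.pos X.hn; omega)

theorem yp (X : Ctx m n j) {c : ℕ} (hc : Peak m c) : IsPath (yy m j c) :=
  min_path (top_path _ (X.hm.bd j).1) (top_path _ (by have := hc.pos X.hm; omega))

theorem Jp (X : Ctx m n j) (hc : Peak m j) : IsPath (yJ m j) :=
  top_path _ (by have := hc.pos X.hm; omega)

theorem zl (X : Ctx m n j) {a : ℕ} (ha : Peak n a) (hne : a ≠ j) : ¬ Win m n (zz n a) := by
  have := X.uniq a ha hne
  refine lose (a := a) (b := a) ?_ ?_ <;> simp only [zz, top] <;> omega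

theorem yl (X : Ctx m n j) (c : ℕ) : ¬ Win m n (yy m j c) := by
  have := X.hj
  refine lose (a := c) (b := j) ?_ ?_ <;> simp only [yy, top] <;> omega

theorem Jl (X : Ctx m n j) : ¬ Win m n (yJ m j) := by
  have := X.hj
  refine lose (a := j) (b := j) ?_ ?_ <;> simp only [yJ, top] <;> omega

theorem zge (X : Ctx m n j) {a : ℕ} (ha : Peak n a) (k : ℕ) :
    (k ≠ a → n k ≤ zz n a k) ∧ (k = a → n k - 1 ≤ zz n a k) := by
  have := ha.at k; have := X.hn.bd k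
  simp only [zz, top]
  refine ⟨by omega, ?_⟩
  rintro rfl; omega

theorem yge (X : Ctx m n j) {c : ℕ} (hc : Peak m c) (k : ℕ) :
    (k ≠ c → m k ≤ yy m j c k) ∧ (k = c → m k - 1 ≤ yy m j c k) := by
  have := hc.at k; have := X.hm.bd k; have := X.hm.lip2 j k
  simp only [yy, top]
  refine ⟨by omega, ?_⟩
  rintro rfl; omega

theorem Fzz (X : Ctx m n j) {a b : ℕ} (ha : Peak n a) (hb : Peak n b) (h1 : a ≠ j) (h2 : b ≠ j)
    (e1 : n b + 1 ≤ zz n a b) (e2 : n a + 1 ≤ zz n b a) : False := by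
  obtain ⟨c, _, hc⟩ := pure2 X.t2 X.hn X.en winn (X.zp ha) (X.zp hb) (X.zl ha h1) (X.zl hb h2)
  have := X.zge ha c; have := X.zge hb c
  by_cases h3 : c = a
  · subst h3; omega
  · by_cases h4 : c = b
    · subst h4; omega
    · omega

theorem Fyy (X : Ctx m n j) {a b : ℕ} (ha : Peak m a) (hb : Peak m b)
    (e1 : m b + 1 ≤ yy m j a b) (e2 : m a + 1 ≤ yy m j b a) : False := by
  obtain ⟨c, _, hc⟩ := pure2 X.t2 X.hm X.em winm (X.yp ha) (X.yp hb) (X.yl a) (X.yl b)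
  have := X.yge ha c; have := X.yge hb c
  by_cases h3 : c = a
  · subst h3; omega
  · by_cases h4 : c = b
    · subst h4; omega
    · omega

theorem shz (X : Ctx m n j) {a k : ℕ} (ha : Peak n a) (h1 : a ≠ j)
    (e : n k + 1 ≤ zz n a k) : ∃ x y : ℕ → ℤ, IsPath x ∧ IsPath y ∧ Win m n x ∧ ¬ Win m n y ∧
      (∀ l, x l + ee k l = y l + ee a l) := by
  have hk : k ≠ a := by rintro rfl; simp only [zz, top] at e; omega
  obtain ⟨x, y, hx, hy, h2, h3, h4, _⟩ := shift X.hn ha hk e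
  have := X.uniq a ha h1
  exact ⟨x, y, hx, hy, Or.inr h2, lose (a := a) (b := a) (by omega) h3, h4⟩

theorem shy (X : Ctx m n j) {c k : ℕ} (hc : Peak m c)
    (e : m k + 1 ≤ yy m j c k) : ∃ x y : ℕ → ℤ, IsPath x ∧ IsPath y ∧ Win m n x ∧ ¬ Win m n y ∧
      (∀ l, x l + ee k l = y l + ee c l) := by
  have hk : k ≠ c := by rintro rfl; simp only [yy, top] at e; omega
  simp only [yy] at e
  obtain ⟨x, y, hx, hy, h2, h3, h4, h5⟩ := shift X.hm hc hk (le_trans e (min_le_right _ _))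
  have h6 := h5 j
  have h7 := le_trans e (min_le_left _ _)
  have := X.hj; have := X.hm.bd j
  simp only [top, bot] at h6 h7
  exact ⟨x, y, hx, hy, Or.inl h2, lose (a := c) (b := j) h3 (by omega), h4⟩

theorem shJ (X : Ctx m n j) {k : ℕ} (hc : Peak m j)
    (e : m k + 1 ≤ yJ m j k) : ∃ x y : ℕ → ℤ, IsPath x ∧ IsPath y ∧ Win m n x ∧ ¬ Win m n y ∧
      (∀ l, x l + ee k l = y l + ee j l) := by
  have hk : k ≠ j := by rintro rfl; simp only [yJ, top] at e; omega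
  obtain ⟨x, y, hx, hy, h2, h3, h4, _⟩ := shift X.hm hc hk e
  have := X.hj
  exact ⟨x, y, hx, hy, Or.inl h2, lose (a := j) (b := j) h3 (by omega), h4⟩

theorem Fzy (X : Ctx m n j) {a c : ℕ} (ha : Peak n a) (h1 : a ≠ j) (hc : Peak m c)
    (e1 : n c + 1 ≤ zz n a c) (e2 : m a + 1 ≤ yy m j c a) : False := by
  obtain ⟨x, y, hx, hy, w1, l1, s1⟩ := X.shz ha h1 e1
  obtain ⟨x', y', hx', hy', w2, l2, s2⟩ := X.shy hc e2
  exact X.t2 x x' y y' hx hx' hy hy' w1 w2 l1 l2 fun k => by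
    have := s1 k; have := s2 k; omega

theorem Fzyy (X : Ctx m n j) {a c d : ℕ} (ha : Peak n a) (h1 : a ≠ j) (hc : Peak m c)
    (hd : Peak m d) (e1 : n c + 1 ≤ zz n a c) (e2 : m d + 1 ≤ yy m j c d)
    (e3 : m a + 1 ≤ yy m j d a) : False := by
  obtain ⟨x, y, hx, hy, w1, l1, s1⟩ := X.shz ha h1 e1
  obtain ⟨x', y', hx', hy', w2, l2, s2⟩ := X.shy hc e2
  obtain ⟨x'', y'', hx'', hy'', w3, l3, s3⟩ := X.shy hd e3
  exact X.t3 x x' x'' y y' y'' hx hx' hx'' hy hy' hy'' w1 w2 w3 l1 l2 l3 fun k => by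
    have := s1 k; have := s2 k; have := s3 k; omega

theorem Fzzy (X : Ctx m n j) {a b c : ℕ} (ha : Peak n a) (h1 : a ≠ j) (hb : Peak n b)
    (h2 : b ≠ j) (hc : Peak m c) (e1 : n b + 1 ≤ zz n a b) (e2 : n c + 1 ≤ zz n b c)
    (e3 : m a + 1 ≤ yy m j c a) : False := by
  obtain ⟨x, y, hx, hy, w1, l1, s1⟩ := X.shz ha h1 e1
  obtain ⟨x', y', hx', hy', w2, l2, s2⟩ := X.shz hb h2 e2
  obtain ⟨x'', y'', hx'', hy'', w3, l3, s3⟩ := X.shy hc e3
  exact X.t3 x x' x'' y y' y'' hx hx' hx'' hy hy' hy'' w1 w2 w3 l1 l2 l3 fun k => by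
    have := s1 k; have := s2 k; have := s3 k; omega

theorem FzJmix (X : Ctx m n j) {a : ℕ} (ha : Peak n a) (h1 : a ≠ j) (hc : Peak m j)
    (e1 : n j + 1 ≤ zz n a j) (e2 : m a + 1 ≤ yJ m j a) : False := by
  obtain ⟨x, y, hx, hy, w1, l1, s1⟩ := X.shz ha h1 e1
  obtain ⟨x', y', hx', hy', w2, l2, s2⟩ := X.shJ hc e2
  exact X.t2 x x' y y' hx hx' hy hy' w1 w2 l1 l2 fun k => by
    have := s1 k; have := s2 k; omega

theorem FzY (X : Ctx m n j) {a : ℕ} (ha : Peak n a) (h1 : a ≠ j) {y : ℕ → ℤ} (hy : IsPath y)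
    (hl : ¬ Win m n y) (ok : OK n j y) (e1 : n a + 1 ≤ y a) (e2 : 2 * n j ≤ zz n a j + y j) :
    False := by
  obtain ⟨c, hp, hc⟩ := pure2 X.t2 X.hn X.en winn (X.zp ha) hy (X.zl ha h1) hl
  have := X.zge ha c; have := ok c hp
  by_cases h3 : c = a
  · subst h3; omega
  · by_cases h4 : c = j
    · subst h4; omega
    · omega

theorem FzzY (X : Ctx m n j) {a : ℕ} (ha : Peak n a) (h1 : a ≠ j) {y : ℕ → ℤ} (hy : IsPath y)
    (hl : ¬ Win m n y) (ok : OK n j y) (e1 : n a + 2 ≤ y a)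
    (e2 : 3 * n j ≤ 2 * zz n a j + y j) : False := by
  obtain ⟨c, hp, hc⟩ := pure3 X.t3 X.hn X.en winn (X.zp ha) (X.zp ha) hy (X.zl ha h1)
    (X.zl ha h1) hl
  have := X.zge ha c; have := ok c hp
  by_cases h3 : c = a
  · subst h3; omega
  · by_cases h4 : c = j
    · subst h4; omega
    · omega

theorem FzwY (X : Ctx m n j) {a b : ℕ} (ha : Peak n a) (h1 : a ≠ j) (hb : Peak n b) (h2 : b ≠ j)
    {y : ℕ → ℤ} (hy : IsPath y) (hl : ¬ Win m n y) (ok : OK n j y) (e0 : n a + 1 ≤ zz n b a)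
    (e1 : n b + 1 ≤ y b) (e2 : 3 * n j ≤ zz n a j + zz n b j + y j) : False := by
  obtain ⟨c, hp, hc⟩ := pure3 X.t3 X.hn X.en winn (X.zp ha) (X.zp hb) hy (X.zl ha h1)
    (X.zl hb h2) hl
  have := X.zge ha c; have := X.zge hb c; have := ok c hp
  have hab : a ≠ b := by rintro rfl; simp only [zz, top] at e0; omega
  by_cases h3 : c = a
  · subst h3; omega
  · by_cases h4 : c = j
    · subst h4; omega
    · by_cases h5 : c = b
      · subst h5; omega
      · omega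

theorem FzJ (X : Ctx m n j) {a : ℕ} (ha : Peak n a) (h1 : a ≠ j) (hc : Peak m j) :
    ∃ k, Peak m k ∧ zz n a k + yJ m j k < 2 * m k :=
  pure2 X.t2 X.hm X.em winm (X.zp ha) (X.Jp hc) (X.zl ha h1) X.Jl

theorem FzJy (X : Ctx m n j) {a c : ℕ} (ha : Peak n a) (h1 : a ≠ j) (hc : Peak m j)
    (hd : Peak m c) : ∃ k, Peak m k ∧ zz n a k + yJ m j k + yy m j c k < 3 * m k :=
  pure3 X.t3 X.hm X.em winm (X.zp ha) (X.Jp hc) (X.yp hd) (X.zl ha h1) X.Jl (X.yl c)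

theorem okX (X : Ctx m n j) {b : ℕ} (hb : n b < m b) : OK n j (yy m j b) := by
  intro a _ hne
  have := X.pj.at a; have := X.hn.lip2 a b; have := X.hn.bd a; have := X.hj
  simp only [yy, top]; omega

end Ctx

end Pool.Agent.P.MP_c009d0_co
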