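import Pool.Agent.P.MP_c009d0_co.Facts

/-! More facts, and the data of a closed family of losing paths. -/

namespace Pool.Agent.P.MP_c009d0_co

variable {m n : ℕ → ℤ} {j : ℕ}

namespace Ctx

theorem pkle (X : Ctx m n j) {c : ℕ} (hc : Peak m c) : n c ≤ m c ∨ c = j := by
  by_contra h
  push Not at h
  have h0 := X.hm.bd c
  obtain ⟨d, hd, h1⟩ := fail_peak X.hn X.en (top_path c h0.1) (k := c)
    (by simp only [top]; omega)
  have h2 := le_top X.hm (le_refl (m c)) d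
  have h3 : d = j := by
    by_contra h4
    have := X.uniq d hd h4; omega
  subst h3
  have := X.hj; have := hc.at d; have := X.hle c; have := X.hn.bd d
  simp only [top] at h1
  omega

theorem yj (X : Ctx m n j) {c : ℕ} (hc : Peak m c) (h : c ≠ j) : m j ≤ yy m j c j :=
  (X.yge hc j).1 h.symm

theorem FzY1 (X : Ctx m n j) {a c : ℕ} (ha : Peak n a) (h1 : a ≠ j) (hc : Peak m c) (h2 : c ≠ j)
    (ok : OK n j (yy m j c)) (e1 : n a + 1 ≤ yy m j c a) (e2 : n j + 1 ≤ zz n a j) : False :=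
  X.FzY ha h1 (X.yp hc) (X.yl c) ok e1 (by have := X.yj hc h2; have := X.hj; omega)

theorem FzY2 (X : Ctx m n j) {a : ℕ} (ha : Peak n a) (h1 : a ≠ j) (hc : Peak m j)
    (ok : OK n j (yy m j j)) (e1 : n a + 1 ≤ yy m j j a) (e2 : n j + 2 ≤ zz n a j) : False :=
  X.FzY ha h1 (X.yp hc) (X.yl j) ok e1 (by have := (X.yge hc j).2 rfl; have := X.hj; omega)

theorem FzwY1 (X : Ctx m n j) {a b c : ℕ} (ha : Peak n a) (h1 : a ≠ j) (hb : Peak n b)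
    (h2 : b ≠ j) (hc : Peak m c) (h3 : c ≠ j) (ok : OK n j (yy m j c))
    (e0 : n a + 1 ≤ zz n b a) (e1 : n b + 1 ≤ yy m j c b) (e2 : n j + 1 ≤ zz n a j) : False :=
  X.FzwY ha h1 hb h2 (X.yp hc) (X.yl c) ok e0 e1
    (by have := X.yj hc h3; have := X.hj; have := (X.zge hb j).1 h2.symm; omega)

theorem Fm2 (X : Ctx m n j) {a c : ℕ} (ha : Peak n a) (h1 : a ≠ j) (hc : Peak m c) :
    ∃ k, Peak m k ∧ zz n a k + yy m j c k < 2 * m k :=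
  pure2 X.t2 X.hm X.em winm (X.zp ha) (X.yp hc) (X.zl ha h1) (X.yl c)

theorem Fm3 (X : Ctx m n j) {a c d : ℕ} (ha : Peak n a) (h1 : a ≠ j) (hc : Peak m c)
    (hd : Peak m d) : ∃ k, Peak m k ∧ zz n a k + yy m j c k + yy m j d k < 3 * m k :=
  pure3 X.t3 X.hm X.em winm (X.zp ha) (X.yp hc) (X.yp hd) (X.zl ha h1) (X.yl c) (X.yl d)

end Ctx

/-- The second functional at `k` is positive on `zz n a`. -/
def ZF (m n : ℕ → ℤ) (j a k : ℕ) : Prop :=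
  (n k + 1 ≤ zz n a k ∨ 1 ≤ m k - n k) ∧ (n k + 1 ≤ zz n a k ∨ n j + 1 ≤ zz n a j) ∧
    (n k + 1 ≤ zz n a k ∨ a < k ∨ k < a ∨ 2 ≤ m k - n k ∨ n j + 2 ≤ zz n a j)

/-- Some member is positive for the second functional at `k`. -/
def PosF (m n : ℕ → ℤ) (j a1 a2 c1 c2 : ℕ) (HC JJ : Prop) (k : ℕ) : Prop :=
  ZF m n j a1 k ∨ ZF m n j a2 k ∨ (HC ∧ m k + 1 ≤ yy m j c1 k) ∨ (HC ∧ m k + 1 ≤ yy m j c2 k) ∨
    (JJ ∧ 2 * m k - n k + 1 ≤ yy m j j k)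

/-- Some member is positive for the first functional at `k`. -/
def PosG (m n : ℕ → ℤ) (j a1 a2 c1 c2 : ℕ) (HC JJ : Prop) (k : ℕ) : Prop :=
  n k + 1 ≤ zz n a1 k ∨ n k + 1 ≤ zz n a2 k ∨ (HC ∧ n k + 1 ≤ yy m j c1 k) ∨
    (HC ∧ n k + 1 ≤ yy m j c2 k) ∨ (JJ ∧ n k + 1 ≤ yy m j j k)

/-- A closed family of losing paths, seen through its extreme members. -/
structure Setup (m n : ℕ → ℤ) (j a1 a2 c1 c2 x v u : ℕ) (HC JJ : Prop) : Prop where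
  pa1 : Peak n a1
  pa2 : Peak n a2
  na1 : a1 ≠ j
  na2 : a2 ≠ j
  a12 : a1 ≤ a2
  pc1 : Peak m c1
  pc2 : Peak m c2
  nc1 : c1 ≠ j
  nc2 : c2 ≠ j
  c12 : c1 ≤ c2
  oc1 : OK n j (yy m j c1)
  oc2 : OK n j (yy m j c2)
  pj : JJ → Peak m j
  oj : JJ → OK n j (yy m j j)
  px : Peak m x
  pv : Peak m v
  pu : Peak m u
  wx : JJ → zz n a2 x + yy m j j x < 2 * m x
  wv : JJ → zz n a1 v + yy m j j v + yy m j c1 v < 3 * m v
  wu : JJ → zz n a1 u + yy m j j u + yy m j c2 u < 3 * m u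
  Ga1 : PosG m n j a1 a2 c1 c2 HC JJ a1
  Ga2 : PosG m n j a1 a2 c1 c2 HC JJ a2
  Fa1 : ¬ n j + 1 ≤ zz n a1 j → PosF m n j a1 a2 c1 c2 HC JJ a1
  Fa2 : ¬ n j + 1 ≤ zz n a2 j → PosF m n j a1 a2 c1 c2 HC JJ a2
  Fc1 : HC → PosF m n j a1 a2 c1 c2 HC JJ c1
  Fc2 : HC → PosF m n j a1 a2 c1 c2 HC JJ c2
  FJ : ∀ k, JJ → n k ≤ m k → yy m j j k < 2 * m k - n k → PosF m n j a1 a2 c1 c2 HC JJ k

end Pool.Agent.P.MP_c009d0_co
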