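import Pool.Agent.P.MP_c009d0_co.Close

/-! Games generated by two paths: no trade of length two or three means no trade at all. -/

namespace Pool.Agent.P.MP_c009d0_co

variable {m n : ℕ → ℤ}

theorem win_comm (m n : ℕ → ℤ) : Win m n = Win n m := by
  funext s; exact propext or_comm

theorem half {x y : ℕ → ℤ} (hx : IsPath x) (hy : IsPath y) {r : ℤ} (h0 : 0 ≤ r) (h1 : r ≤ 1) :
    IsPath (fun l => (x l + y l + r) / 2) := by
  refine ⟨by simp only [hx.1, hy.1]; omega, fun l => ?_⟩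
  have := hx.2 l; have := hy.2 l; beta_reduce; omega

theorem bigbig (hm : IsPath m) (hn : IsPath n) (t2 : NoT2 (Win m n)) {i j : ℕ}
    (hi : n i + 2 ≤ m i) (hj : m j + 2 ≤ n j) : False :=
  t2 m n _ _ hm hn (half hm hn le_rfl zero_le_one) (half hm hn zero_le_one le_rfl)
    (Or.inl fun _ => le_rfl) (Or.inr fun _ => le_rfl)
    (lose (a := i) (b := j) (by omega) (by omega)) (lose (a := i) (b := j) (by omega) (by omega))
    (fun k => by omega)

/-- Remove a peak of `n` from a path between `n` and `max m n`. -/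
theorem drop (hm : IsPath m) {a : ℕ} (pa : Peak n a) (ha : m a < n a) {s : ℕ → ℤ}
    (hs : IsPath s) (h1 : n a ≤ s a) (h2 : ∀ k, s k ≤ max (m k) (n k)) :
    IsPath (fun l => s l - ee a l) := by
  have h0 := pa.1
  refine sub_peak hs h0 ?_ ?_
  · have := h2 (a - 1); have := pa.at (a - 1); have := hm.lip (show a - 1 ≤ a by omega); omega
  · have := h2 (a + 1); have := pa.at (a + 1); have := hm.2 a; push_cast at *; omega

theorem ee_nonneg (a k : ℕ) : 0 ≤ ee a k := by simp only [ee]; split_ifs <;> omega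
theorem ee_self (a : ℕ) : ee a a = 1 := by simp only [ee, if_true]
theorem ee_ne {a k : ℕ} (h : k ≠ a) : ee a k = 0 := by simp only [ee, if_neg h]

theorem drop2 (hm : IsPath m) (hn : IsPath n) {a b : ℕ} (pa : Peak n a) (pb : Peak n b)
    (ha : m a < n a) (hb : m b < n b) (hab : a ≠ b) :
    IsPath (fun l => max (m l) (n l) - ee a l - ee b l) ∧
      ∀ k, m k ≤ max (m k) (n k) - ee a k - ee b k := by
  refine ⟨drop hm pb hb (drop hm pa ha (max_path hm hn) (le_max_right _ _) fun _ => le_rfl) ?_ ?_,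
    fun k => ?_⟩
  · have := ee_ne hab.symm; omega
  · intro k; have := ee_nonneg a k; omega
  · simp only [ee]; split_ifs with h1 h2 h2
    · omega
    · subst h1; omega
    · subst h2; omega
    · omega

theorem twobig (hm : IsPath m) (hn : IsPath n) (t2 : NoT2 (Win m n)) {i a b : ℕ}
    (hi : n i + 2 ≤ m i) (pa : Peak n a) (pb : Peak n b) (ha : m a < n a) (hb : m b < n b)
    (hab : a ≠ b) : False := by
  have hM := max_path hm hn
  have h := drop2 hm hn pa pb ha hb hab
  refine t2 _ n _ _ h.1 hn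
    (drop hm pa ha (half hM hn le_rfl zero_le_one) (by omega) fun k => by omega)
    (drop hm pb hb (half hM hn zero_le_one le_rfl) (by omega) fun k => by omega)
    (Or.inl h.2) (Or.inr fun _ => le_rfl) (lose (a := i) (b := a) ?_ ?_)
    (lose (a := i) (b := b) ?_ ?_) (fun k => by omega)
  · have := ee_nonneg a i; omega
  · have := ee_self a; omega
  · have := ee_nonneg b i; omega
  · have := ee_self b; omega

theorem twotwo (hm : IsPath m) (hn : IsPath n) (t2 : NoT2 (Win m n)) {c d a b : ℕ}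
    (pc : Peak m c) (pd : Peak m d) (hc : n c < m c) (hd : n d < m d) (hcd : c ≠ d)
    (pa : Peak n a) (pb : Peak n b) (ha : m a < n a) (hb : m b < n b)
    (hab : a ≠ b) : False := by
  have h := drop2 hm hn pa pb ha hb hab
  have h' := drop2 hn hm pc pd hc hd hcd
  have key : ∀ a c, Peak n a → m a < n a → Peak m c → n c < m c →
      IsPath (fun l => max (m l) (n l) - ee a l - ee c l) ∧
        ¬ Win m n (fun l => max (m l) (n l) - ee a l - ee c l) := by
    intro a c pa ha pc hc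
    have hac : c ≠ a := by rintro rfl; omega
    refine ⟨drop hn pc hc (drop hm pa ha (max_path hm hn) (le_max_right _ _) fun _ => le_rfl) ?_ ?_,
      lose (a := c) (b := a) ?_ ?_⟩
    · have := ee_ne hac; omega
    · intro k; have := ee_nonneg a k; omega
    · have := ee_self c; have := ee_nonneg a c; omega
    · have := ee_self a; have := ee_nonneg c a; omega
  exact t2 _ _ _ _ h.1 h'.1 (key a c pa ha pc hc).1 (key b d pb hb pd hd).1 (Or.inl h.2)
    (Or.inr h'.2) (key a c pa ha pc hc).2 (key b d pb hb pd hd).2 (fun k => by omega)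

theorem pathA1 (hm : IsPath m) (em : Ev m) (t2 : NoT2 (Win m n)) (hmn : ∀ k, m k ≤ n k)
    {ι : Type} [Fintype ι] [Nonempty ι] (x y : ι → ℕ → ℤ) (hy : ∀ i, IsPath (y i))
    (wx : ∀ i, Win m n (x i)) (ly : ∀ i, ¬ Win m n (y i))
    (hs : ∀ k, ∑ i, x i k = ∑ i, y i k) : False := by
  have hf : ∀ i, ∃ c, Peak m c ∧ y i c < m c := by
    intro i
    have h := ly i
    simp only [Win, not_or, not_forall, not_le] at h
    obtain ⟨⟨k, hk⟩, _⟩ := h
    exact fail_peak hm em (hy i) hk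
  refine slice (T := fun l => (l : ℤ)) t2 hm em winm
    ⟨rfl, fun k => by push_cast; omega⟩ (fun k => (hm.bd k).2)
    (fun c => Peak m c ∧ ∃ i, y i c < m c) ?_ ?_ ?_
  · intro c hc
    have := hmn c
    refine ⟨hc.1, lose (a := c) (b := c) ?_ ?_⟩ <;> simp only [top] <;> omega
  · obtain ⟨i⟩ := ‹Nonempty ι›
    obtain ⟨c, h1, h2⟩ := hf i
    exact ⟨c, h1, i, h2⟩
  · rintro c ⟨_, i, h⟩
    have h1 : 0 ≤ ∑ i, (y i c - m c) := by
      have h2 : ∑ _i : ι, m c ≤ ∑ i, x i c := Finset.sum_le_sum fun i _ => by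
        rcases wx i with g | g
        · exact g c
        · exact le_trans (hmn c) (g c)
      rw [Finset.sum_sub_distrib]; have := hs c; omega
    obtain ⟨i', h2⟩ := exists_pos _ h1 (i := i) (by omega)
    obtain ⟨d, h3, h4⟩ := hf i'
    have := le_top (hy i') (show y i' d ≤ m d - 1 by omega) c
    have := (hy i').bd c
    exact ⟨d, ⟨h3, i', h4⟩, by omega⟩

theorem pathA2 (hm : IsPath m) (hn : IsPath n) (em : Ev m) (en : Ev n) (t2 : NoT2 (Win m n))
    (t3 : NoT3 (Win m n)) {b j : ℕ} (pb : Peak m b) (hb : n b < m b) (pj : Peak n j)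
    (hj : m j < n j) (h1 : ∀ k, n k ≤ m k + 1) (h2 : ∀ a, Peak n a → m a < n a → a = j)
    {ι : Type} [Fintype ι] [Nonempty ι] (x y : ι → ℕ → ℤ) (hy : ∀ i, IsPath (y i))
    (wx : ∀ i, Win m n (x i)) (ly : ∀ i, ¬ Win m n (y i))
    (hs : ∀ k, ∑ i, x i k = ∑ i, y i k) : False :=
  Ctx.noTrade ⟨hm, hn, em, en, by have := h1 j; omega, h1, pj,
    fun a pa na => not_lt.mp fun h => na (h2 a pa h), t2, t3⟩ pb hb x y hy wx ly hs

theorem pathA (hm : IsPath m) (hn : IsPath n) (em : Ev m) (en : Ev n) (t2 : NoT2 (Win m n))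
    (t3 : NoT3 (Win m n))
    {ι : Type} [Fintype ι] [Nonempty ι] (x y : ι → ℕ → ℤ) (hy : ∀ i, IsPath (y i))
    (wx : ∀ i, Win m n (x i)) (ly : ∀ i, ¬ Win m n (y i))
    (hs : ∀ k, ∑ i, x i k = ∑ i, y i k) : False := by
  have t2' : NoT2 (Win n m) := win_comm m n ▸ t2
  have t3' : NoT3 (Win n m) := win_comm m n ▸ t3
  have wx' : ∀ i, Win n m (x i) := win_comm m n ▸ wx
  have ly' : ∀ i, ¬ Win n m (y i) := win_comm m n ▸ ly
  by_cases c1 : ∀ k, m k ≤ n k
  · exact pathA1 hm em t2 c1 x y hy wx ly hs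
  by_cases c2 : ∀ k, n k ≤ m k
  · exact pathA1 hn en t2' c2 x y hy wx' ly' hs
  push Not at c1 c2
  obtain ⟨k1, c1⟩ := c1
  obtain ⟨k2, c2⟩ := c2
  obtain ⟨b, pb, hb⟩ := fail_peak hm em hn c1
  obtain ⟨j, pj, hj⟩ := fail_peak hn en hm c2
  by_cases g : (∀ k, n k ≤ m k + 1) ∧ ∀ a, Peak n a → m a < n a → a = j
  · exact pathA2 hm hn em en t2 t3 pb hb pj hj g.1 g.2 x y hy wx ly hs
  by_cases g' : (∀ k, m k ≤ n k + 1) ∧ ∀ a, Peak m a → n a < m a → a = b
  · exact pathA2 hn hm en em t2' t3' pj hj pb hb g'.1 g'.2 x y hy wx' ly' hs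
  rw [not_and_or] at g g'
  push Not at g g'
  rcases g with ⟨k, g⟩ | ⟨a, pa, ha, g⟩ <;> rcases g' with ⟨l, g'⟩ | ⟨c, pc, hc, g'⟩
  · exact bigbig hm hn t2 (i := l) (j := k) (by omega) (by omega)
  · exact twobig hn hm t2' (i := k) (by omega) pc pb hc hb g'
  · exact twobig hm hn t2 (i := l) (by omega) pa pj ha hj g
  · exact twotwo hm hn t2 pc pb hc hb g' pa pj ha hj g

end Pool.Agent.P.MP_c009d0_co
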