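import Pool.Agent.P.MP_c009d0_co.Bridge
import Pool.Agent.P.MP_c009d0_co.PartA

/-! Transfer between games and paths. -/

namespace Pool.Agent.P.MP_c009d0_co

open Finset

variable {N : Type} [Fintype N] [DecidableEq N]

theorem exists_rank {W : Set (Finset N)} (hc : IsCompleteGame W) : ∃ R : Rank N, R.Compat W := by
  classical
  let e := (Fintype.equivFin N).symm
  let d : N → ℕ := fun i => #{j | Desir W j i}
  let σ := Tuple.sort (d ∘ e)
  have hm : Monotone (d ∘ e ∘ σ) := Tuple.monotone_sort (d ∘ e)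
  refine ⟨⟨Fintype.card N, fun x => (σ.symm (e.symm x)).val, fun x y h => ?_, fun x => Fin.is_lt _,
    fun i h => ⟨e (σ ⟨i, h⟩), by simp⟩⟩, fun x y h => ?_⟩
  · exact e.symm.injective (σ.symm.injective (Fin.ext h))
  · have h1 : d x ≤ d y := by simpa using hm (show σ.symm (e.symm x) ≤ σ.symm (e.symm y) from h)
    by_contra h2
    have h3 : Desir W y x := (hc x y).resolve_left h2
    have h4 : d y < d x := by
      refine card_lt_card ⟨fun z hz => ?_, fun g => ?_⟩
      · simp only [mem_filter, mem_univ, true_and] at hz ⊢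
        exact hz.trans' h3
      · have := g (show x ∈ ({j | Desir W j x} : Finset N) by
          simp only [mem_filter, mem_univ, true_and]; exact fun _ _ _ h => h)
        simp only [mem_filter, mem_univ, true_and] at this
        exact h2 this
    omega

theorem PR.noT2 {V : (ℕ → ℤ) → Prop} (h : PR V 3) : NoT2 V := by
  intro x x' y y' h1 h2 h3 h4 w1 w2 l1 l2 hs
  obtain ⟨a, ha⟩ := h 2 (by omega) (by omega) ![x, x'] ![y, y']
    (fun a => by fin_cases a <;> assumption) (fun a => by fin_cases a <;> assumption)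
    (fun a => by fin_cases a <;> assumption) (fun l => by simpa using hs l)
  fin_cases a
  · exact l1 ha
  · exact l2 ha

theorem PR.noT3 {V : (ℕ → ℤ) → Prop} (h : PR V 3) : NoT3 V := by
  intro x x' x'' y y' y'' h1 h2 h3 h4 h5 h6 w1 w2 w3 l1 l2 l3 hs
  obtain ⟨a, ha⟩ := h 3 (by omega) (by omega) ![x, x', x''] ![y, y', y'']
    (fun a => by fin_cases a <;> assumption) (fun a => by fin_cases a <;> assumption)
    (fun a => by fin_cases a <;> assumption) (fun l => by simpa [Fin.sum_univ_three] using hs l)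
  fin_cases a
  · exact l1 ha
  · exact l2 ha
  · exact l3 ha

/-- A 3-trade robust complete game with at most two shift-minimal winning types is
`k`-trade robust for every `k`. -/
theorem gameA {W : Set (Finset N)} (hW : IsSimpleGame W) (hc : IsCompleteGame W)
    (hr : (shiftMinTypes W).ncard ≤ 2) (h3 : TradeRobust W 3) (k : ℕ) : TradeRobust W k := by
  obtain ⟨R, hR⟩ := exists_rank hc
  rw [R.ncard_types hR] at hr
  obtain ⟨A, B, hAB⟩ : ∃ A B, ∀ T, T ∈ R.Mins W ↔ T = A ∨ T = B := by
    obtain ⟨T, hT, _⟩ := R.exists_min hW.2.2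
    have h0 : 0 < (R.Mins W).ncard := (Set.ncard_pos (Set.toFinite _)).2 ⟨T, hT⟩
    have : (R.Mins W).ncard = 1 ∨ (R.Mins W).ncard = 2 := by omega
    rcases this with h | h
    · obtain ⟨A, hA⟩ := Set.ncard_eq_one.1 h
      exact ⟨A, A, fun T => by simp [hA]⟩
    · obtain ⟨A, B, _, hA⟩ := Set.ncard_eq_two.1 h
      exact ⟨A, B, fun T => by simp [hA]⟩
  have hV : ∀ s, IsPath s → (Win (R.pth A) (R.pth B) s ↔ R.co s ∈ W) := by
    intro s hs
    rw [R.mem_iff_min hW hR]
    simp only [hAB, R.le_co hs, Win, exists_eq_or_imp, exists_eq_left]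
  rw [R.robust_iff hV] at h3 ⊢
  intro j h1 _ x y _ hy wx hs
  by_contra hl
  push Not at hl
  haveI : Nonempty (Fin j) := ⟨⟨0, h1⟩⟩
  exact pathA (R.pth_path A) (R.pth_path B) (R.pth_ev A) (R.pth_ev B) h3.noT2 h3.noT3 x y hy wx hl hs

/-- An antichain of `r` nonzero paths that are constant from `n` on. -/
structure Anti (r n : ℕ) (μ : Fin r → ℕ → ℤ) : Prop where
  path : ∀ a, IsPath (μ a)
  const : ∀ a l, n ≤ l → μ a l = μ a n
  pos : ∀ a, 1 ≤ μ a n
  anti : ∀ a b, (∀ l, μ a l ≤ μ b l) → a = b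

/-- Winning paths of the game generated by `μ`. -/
def Gen {r : ℕ} (μ : Fin r → ℕ → ℤ) (s : ℕ → ℤ) : Prop := ∃ a, ∀ l, μ a l ≤ s l

theorem gameB {r n : ℕ} (hr : 0 < r) {μ : Fin r → ℕ → ℤ} (H : Anti r n μ) :
    ∃ W : Set (Finset (Fin n)), IsSimpleGame W ∧ IsCompleteGame W ∧
      (shiftMinTypes W).ncard = r ∧ ∀ k, TradeRobust W k ↔ PR (Gen μ) k := by
  let R : Rank (Fin n) := ⟨n, Fin.val, Fin.val_injective, Fin.is_lt, fun i h => ⟨⟨i, h⟩, rfl⟩⟩
  let W : Set (Finset (Fin n)) := {S | Gen μ (R.pth S)}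
  have mono : ∀ S T : Finset (Fin n), S ⊆ T → ∀ k, R.pth S k ≤ R.pth T k := by
    intro S T h k
    simp only [Rank.pth, Rank.pc, Nat.cast_le]
    exact card_le_card (filter_subset_filter _ h)
  have hco : ∀ a l, R.pth (R.co (μ a)) l = μ a l := by
    intro a l
    by_cases h : l ≤ n
    · exact R.pth_co (H.path a) h
    · rw [R.pth_const _ (show n ≤ l by omega), H.const a l (by omega)]
      exact R.pth_co (H.path a) le_rfl
  have hW : IsSimpleGame W := by
    refine ⟨?_, ?_, ?_⟩
    · rintro S T ⟨a, ha⟩ h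
      exact ⟨a, fun l => (ha l).trans (mono S T h l)⟩
    · rintro ⟨a, ha⟩
      have h1 := ha n
      have h2 := H.pos a
      simp only [Rank.pth, Rank.pc, filter_empty, card_empty] at h1
      omega
    · exact ⟨⟨0, hr⟩, fun l => by rw [← hco]; exact mono _ _ (subset_univ _) l⟩
  have hR : R.Compat W := by
    rintro x y h S hx hy ⟨a, ha⟩
    refine ⟨a, fun l => (ha l).trans ?_⟩
    simp only [Rank.pth, Rank.pc, Nat.cast_le, filter_insert]
    have h1 : x ∉ ({z ∈ S | R.rk z < l} : Finset (Fin n)) := by simp [hx]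
    have h2 : y ∉ ({z ∈ S | R.rk z < l} : Finset (Fin n)) := by simp [hy]
    split_ifs with g1 g2 g2
    · rw [card_insert_of_notMem h1, card_insert_of_notMem h2]
    · omega
    · rw [card_insert_of_notMem h1]; omega
    · exact le_rfl
  refine ⟨W, hW, fun i j => (le_total (R.rk i) (R.rk j)).imp (hR i j) (hR j i), ?_, fun k => ?_⟩
  · have hM : R.Mins W = Set.range fun a => R.co (μ a) := by
      ext S
      constructor
      · rintro ⟨⟨a, ha⟩, h⟩
        exact ⟨a, h _ ⟨a, fun l => (hco a l).ge⟩ fun l => (hco a l).le.trans (ha l)⟩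
      · rintro ⟨a, rfl⟩
        refine ⟨⟨a, fun l => (hco a l).ge⟩, ?_⟩
        rintro T ⟨b, hb⟩ h
        have h1 : b = a := H.anti b a fun l => (hb l).trans ((h l).trans (hco a l).le)
        subst h1
        rw [← R.co_pth T]
        congr 1
        funext l
        exact le_antisymm ((h l).trans (hco b l).le) (hb l)
    rw [R.ncard_types hR, hM, Set.ncard_range_of_injective, Nat.card_eq_fintype_card,
      Fintype.card_fin]
    intro a b h
    refine H.anti a b fun l => ?_
    rw [← hco a, ← hco b]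
    exact (congrArg (fun S => R.pth S l) h).le
  · refine R.robust_iff (fun s hs => exists_congr fun a => ?_) k
    have := R.le_co hs (R.co (μ a))
    simp only [hco] at this
    exact this.symm

end Pool.Agent.P.MP_c009d0_co
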