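import Pool.Agent.P.MP_c009d0_co.Game

/-! Games with three or more minimal paths and shortest trade of any length. -/

namespace Pool.Agent.P.MP_c009d0_co

open Finset

/-- Prepend an absent player and a present player. -/
def up (s : ℕ → ℤ) : ℕ → ℤ := fun l => if l < 2 then 0 else 1 + s (l - 2)

/-- Remove the first two players. -/
def down (s : ℕ → ℤ) : ℕ → ℤ := fun l => s (l + 2) - 1

theorem up_path {s : ℕ → ℤ} (hs : IsPath s) : IsPath (up s) := by
  refine ⟨by simp [up], fun k => ?_⟩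
  simp only [up]
  split_ifs with h1 h2 h2
  · omega
  · have : k + 1 - 2 = 0 := by omega
    rw [this, hs.1]; omega
  · omega
  · have h3 := hs.2 (k - 2)
    have : k + 1 - 2 = k - 2 + 1 := by omega
    rw [this]; omega

theorem down_path {s : ℕ → ℤ} (hs : IsPath s) (h : s 2 = 1) : IsPath (down s) := by
  refine ⟨by simp [down, h], fun k => ?_⟩
  have := hs.2 (k + 2)
  simp only [down, show k + 1 + 2 = k + 2 + 1 by omega]; omega

theorem lift {r n : ℕ} {μ : Fin r → ℕ → ℤ} (H : Anti r n μ) :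
    ∃ μ' : Fin (r + 1) → ℕ → ℤ, Anti (r + 1) (n + 2) μ' ∧ ∀ k, PR (Gen μ') k ↔ PR (Gen μ) k := by
  let π : ℕ → ℤ := fun l => min (l : ℤ) 1
  have hπ : IsPath π := ⟨by simp [π], fun k => by simp only [π]; push_cast; omega⟩
  have hG : ∀ s, Gen (Fin.cons π fun a => up (μ a) : Fin (r + 1) → ℕ → ℤ) s ↔
      (∀ l, π l ≤ s l) ∨ ∃ a, ∀ l, up (μ a) l ≤ s l := by
    intro s
    simp only [Gen, Fin.exists_fin_succ, Fin.cons_zero, Fin.cons_succ]
  have upv : ∀ (s : ℕ → ℤ) l, up s (l + 2) = 1 + s l := fun s l => by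
    simp only [up, if_neg (show ¬ l + 2 < 2 by omega), Nat.add_sub_cancel]
  have up1 : ∀ s : ℕ → ℤ, up s 1 = 0 := fun s => by simp [up]
  refine ⟨Fin.cons π fun a => up (μ a), ⟨?_, ?_, ?_, ?_⟩, fun k => ⟨?_, ?_⟩⟩
  · refine Fin.cases hπ fun a => up_path (H.path a)
  · refine Fin.cases (fun l hl => ?_) fun a l hl => ?_
    · simp only [Fin.cons_zero, π]; push_cast; omega
    · obtain ⟨l, rfl⟩ : ∃ t, l = t + 2 := ⟨l - 2, by omega⟩
      simp only [Fin.cons_succ, upv, H.const a l (by omega)]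
  · refine Fin.cases ?_ fun a => ?_
    · simp only [Fin.cons_zero, π]; push_cast; omega
    · have := H.pos a
      simp only [Fin.cons_succ, upv]; omega
  · refine Fin.cases (Fin.cases (fun _ => rfl) fun b h => ?_)
      fun a => Fin.cases (fun h => ?_) fun b h => ?_
    · have := h 1
      simp only [Fin.cons_zero, Fin.cons_succ, up1, π] at this
      omega
    · have h1 := h (n + 2)
      have := H.pos a
      simp only [Fin.cons_zero, Fin.cons_succ, upv, π] at h1
      omega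
    · congr 1
      refine H.anti a b fun l => ?_
      have h1 := h (l + 2)
      simp only [Fin.cons_succ, upv] at h1
      omega
  · intro h j h1 h2 x y hx hy wx hs
    obtain ⟨a, ha⟩ := h j h1 h2 (fun a => up (x a)) (fun a => up (y a))
      (fun a => up_path (hx a)) (fun a => up_path (hy a))
      (fun a => by
        obtain ⟨b, hb⟩ := wx a
        refine (hG _).2 (Or.inr ⟨b, fun l => ?_⟩)
        have := hb (l - 2)
        simp only [up]; split_ifs <;> omega)
      (fun l => by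
        simp only [up]; split_ifs
        · rfl
        · simp only [sum_add_distrib, hs])
    rcases (hG _).1 ha with g | ⟨b, g⟩
    · have := g 1
      simp only [up1, π] at this
      omega
    · exact ⟨a, b, fun l => by have := g (l + 2); simp only [upv] at this; omega⟩
  · intro h j h1 h2 x y hx hy wx hs
    by_contra hl
    push Not at hl
    have y1 : ∀ a, y a 1 = 0 := by
      intro a
      by_contra g
      refine hl a ((hG _).2 (Or.inl fun l => ?_))
      have := (hy a).bd 1; have := (hy a).bd l; have := (hy a).lip2 1 l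
      simp only [π]; omega
    have x1 : ∀ a, x a 1 = 0 := by
      have e := hs 1
      simp only [y1, sum_const_zero] at e
      intro a
      exact (sum_eq_zero_iff_of_nonneg fun a _ => ((hx a).bd 1).1).1 e a (mem_univ _)
    have wx' : ∀ a, ∃ b, ∀ l, up (μ b) l ≤ x a l := by
      intro a
      refine ((hG _).1 (wx a)).resolve_left fun g => ?_
      have := g 1
      simp only [x1, π] at this
      omega
    have x2 : ∀ a, x a 2 = 1 := by
      intro a
      obtain ⟨b, hb⟩ := wx' a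
      have h3 := hb (0 + 2)
      rw [upv, (H.path b).1] at h3
      have := (hx a).2 1; have := x1 a
      norm_num at *; omega
    have y2 : ∀ a, y a 2 = 1 := by
      have e := hs 2
      have g : ∀ a ∈ (univ : Finset (Fin j)), y a 2 ≤ x a 2 := fun a _ => by
        have := (hy a).2 1; have := y1 a; have := x2 a
        norm_num at *; omega
      intro a
      rw [(sum_eq_sum_iff_of_le g).1 e.symm a (mem_univ _), x2]
    obtain ⟨a, b, hb⟩ := h j h1 h2 (fun a => down (x a)) (fun a => down (y a))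
      (fun a => down_path (hx a) (x2 a)) (fun a => down_path (hy a) (y2 a))
      (fun a => by
        obtain ⟨b, hb⟩ := wx' a
        exact ⟨b, fun l => by have := hb (l + 2); rw [upv] at this; simp only [down]; omega⟩)
      (fun l => by simp only [down, sum_sub_distrib, hs])
    refine hl a ((hG _).2 (Or.inr ⟨b, fun l => ?_⟩))
    have h3 := hb (l - 2)
    have := (hy a).bd l
    simp only [up, down] at h3 ⊢
    split_ifs with g
    · omega
    · rw [show l - 2 + 2 = l by omega] at h3; omega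

/-- The lowest path with four prescribed lower bounds. -/
def low (e1 e2 e3 e4 : ℕ) (v1 v2 v3 v4 : ℤ) : ℕ → ℤ := fun l =>
  max (max (bot e1 v1 l) (bot e2 v2 l)) (max (bot e3 v3 l) (bot e4 v4 l))

theorem low_path {e1 e2 e3 e4 : ℕ} {v1 v2 v3 v4 : ℤ} (h1 : v1 ≤ e1) (h2 : v2 ≤ e2) (h3 : v3 ≤ e3)
    (h4 : v4 ≤ e4) : IsPath (low e1 e2 e3 e4 v1 v2 v3 v4) :=
  max_path (max_path (bot_path _ h1) (bot_path _ h2)) (max_path (bot_path _ h3) (bot_path _ h4))

theorem bot_le {s : ℕ → ℤ} (hs : IsPath s) {k : ℕ} {c : ℤ} : (∀ l, bot k c l ≤ s l) ↔ c ≤ s k := by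
  constructor
  · intro h; have := h k; simp only [bot] at this; omega
  · intro h l; have := hs.lip2 k l; have := hs.bd l; simp only [bot]; omega

theorem low_le {s : ℕ → ℤ} (hs : IsPath s) {e1 e2 e3 e4 : ℕ} {v1 v2 v3 v4 : ℤ} :
    (∀ l, low e1 e2 e3 e4 v1 v2 v3 v4 l ≤ s l) ↔
      v1 ≤ s e1 ∧ v2 ≤ s e2 ∧ v3 ≤ s e3 ∧ v4 ≤ s e4 := by
  simp only [low, max_le_iff, forall_and, bot_le hs, and_assoc]

theorem bot_const {k l n : ℕ} {c : ℤ} (h1 : k ≤ n) (h2 : n ≤ l) : bot k c l = bot k c n := by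
  simp only [bot]; omega

theorem low_const {e1 e2 e3 e4 l : ℕ} {v1 v2 v3 v4 : ℤ} (h1 : e1 ≤ e4) (h2 : e2 ≤ e4)
    (h3 : e3 ≤ e4) (h : e4 ≤ l) :
    low e1 e2 e3 e4 v1 v2 v3 v4 l = low e1 e2 e3 e4 v1 v2 v3 v4 e4 := by
  simp only [low, bot_const h1 h, bot_const h2 h, bot_const h3 h, bot_const le_rfl h]

/-- Number of integers in `[s, s + d)` below `l`. -/
def iv (s d : ℤ) (l : ℕ) : ℤ := max 0 (min d (l - s))

theorem iv_succ (s d : ℤ) (l : ℕ) :
    iv s d (l + 1) = iv s d l + if s ≤ l ∧ l < s + d then 1 else 0 := by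
  simp only [iv]; push_cast; split_ifs <;> omega

theorem iv_lo {s d : ℤ} {l : ℕ} (h : l ≤ s) : iv s d l = 0 := by
  simp only [iv]; omega

theorem iv_hi {s d : ℤ} {l : ℕ} (h : s + d ≤ l) (hd : 0 ≤ d) : iv s d l = d := by
  simp only [iv]; omega

theorem iv_sum (s : ℤ) (m l : ℕ) : ∑ i ∈ range m, iv (s + i) 1 l = iv s m l := by
  induction m with
  | zero => simp only [sum_range_zero, iv]; omega
  | succ m ih => rw [sum_range_succ, ih]; simp only [iv]; push_cast; omega

theorem base2 : ∃ (n : ℕ) (μ : Fin 3 → ℕ → ℤ), Anti 3 n μ ∧ PR (Gen μ) 2 ∧ ¬ PR (Gen μ) 3 := by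
  let μ : Fin 3 → ℕ → ℤ := ![low 1 4 7 10 0 0 2 5, low 1 4 7 10 0 1 2 4, low 1 4 7 10 1 2 3 3]
  have hG : ∀ s, IsPath s → (Gen μ s ↔ (2 ≤ s 7 ∧ 5 ≤ s 10) ∨ (1 ≤ s 4 ∧ 2 ≤ s 7 ∧ 4 ≤ s 10) ∨
      (1 ≤ s 1 ∧ 2 ≤ s 4 ∧ 3 ≤ s 7 ∧ 3 ≤ s 10)) := by
    intro s hs
    have := hs.bd 1; have := hs.bd 4
    simp only [Gen, Fin.exists_fin_succ, μ, Matrix.cons_val_zero, Matrix.cons_val_succ, low_le hs,
      IsEmpty.exists_iff, or_false]
    omega
  refine ⟨10, μ, ⟨?_, ?_, ?_, ?_⟩, ?_, fun h => ?_⟩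
  · intro a; fin_cases a <;> exact low_path (by norm_num) (by norm_num) (by norm_num) (by norm_num)
  · intro a l h; fin_cases a <;> exact low_const (by norm_num) (by norm_num) (by norm_num) h
  · intro a; fin_cases a <;> decide
  · intro a b h
    have h1 := h 1; have h4 := h 4; have h10 := h 10
    revert h1 h4 h10
    fin_cases a <;> fin_cases b <;> decide
  · intro j h1 h2 x y hx hy wx hs
    by_contra hl
    push Not at hl
    have wx' := fun a => (hG _ (hx a)).1 (wx a)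
    have lose : ∀ a, (y a 1 ≤ 1 ∧ y a 4 ≤ 1 ∧ y a 7 ≤ 1 ∧ y a 10 ≤ 4) ∨
        (y a 1 ≤ 0 ∧ y a 4 ≤ 0 ∧ y a 7 ≤ 3 ∧ y a 10 ≤ 4) ∨
        (y a 1 ≤ 0 ∧ y a 4 ≤ 3 ∧ y a 7 ≤ 3 ∧ y a 10 ≤ 3) ∨
        (y a 1 ≤ 1 ∧ y a 4 ≤ 1 ∧ y a 7 ≤ 3 ∧ y a 10 ≤ 3) ∨
        (y a 1 ≤ 1 ∧ y a 4 ≤ 2 ∧ y a 7 ≤ 2 ∧ y a 10 ≤ 3) := by
      intro a
      have := mt (hG _ (hy a)).2 (hl a)
      have := (hy a).bd 1
      have := (hy a).lip (show 1 ≤ 4 by omega)
      have := (hy a).lip (show 4 ≤ 7 by omega)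
      have := (hy a).lip (show 7 ≤ 10 by omega)
      omega
    have b1 := fun a => ((hx a).bd 1).1
    have b4 := fun a => ((hx a).bd 4).1
    have s1 := hs 1; have s4 := hs 4; have s7 := hs 7; have s10 := hs 10
    have : j = 1 ∨ j = 2 := by omega
    rcases this with rfl | rfl
    · simp only [Fin.sum_univ_one] at s1 s4 s7 s10
      rcases wx' 0 with g | g | g <;> rcases lose 0 with q | q | q | q | q <;> omega
    · simp only [Fin.sum_univ_two] at s1 s4 s7 s10
      have := b1 0; have := b1 1; have := b4 0; have := b4 1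
      rcases wx' 0 with g | g | g <;> rcases wx' 1 with g' | g' | g' <;>
        rcases lose 0 with q | q | q | q | q <;> rcases lose 1 with q' | q' | q' | q' | q' <;>
        omega
  · let x : Fin 3 → ℕ → ℤ := ![fun l => iv 1 1 l + iv 4 1 l + iv 7 2 l,
      fun l => iv 2 1 l + iv 5 1 l + iv 7 1 l + iv 9 1 l, fun l => iv 0 1 l + iv 3 1 l + iv 6 1 l]
    let y : Fin 3 → ℕ → ℤ := ![fun l => iv 0 1 l + iv 7 3 l, iv 4 4, iv 1 3]
    have hx : ∀ a, IsPath (x a) := by
      intro a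
      fin_cases a <;> refine ⟨by decide, fun k => ?_⟩ <;>
        simp only [x, Fin.zero_eta, Fin.mk_one, Fin.reduceFinMk, Matrix.cons_val, iv_succ] <;>
        split_ifs <;> omega
    have hy : ∀ a, IsPath (y a) := by
      intro a
      fin_cases a <;> refine ⟨by decide, fun k => ?_⟩ <;>
        simp only [y, Fin.zero_eta, Fin.mk_one, Fin.reduceFinMk, Matrix.cons_val, iv_succ] <;>
        split_ifs <;> omega
    obtain ⟨a, ha⟩ := h 3 (by omega) le_rfl x y hx hy
      (fun a => (hG _ (hx a)).2 (by revert a; decide)) (fun l => by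
        simp only [x, y, Fin.sum_univ_three, Matrix.cons_val]
        by_cases hl : l < 10
        · interval_cases l <;> decide
        · simp (disch := omega) only [iv_hi]; norm_num)
    rw [hG _ (hy a)] at ha
    revert a; decide

theorem mono4 {α β γ δ p1 p2 p3 p4 q1 q2 q3 q4 : ℤ} (ha : 0 ≤ α) (hb : 0 ≤ β) (hc : 0 ≤ γ)
    (hd : 0 ≤ δ) (h : p1 ≤ q1 ∧ p2 ≤ q2 ∧ p3 ≤ q3 ∧ p4 ≤ q4) :
    α * p1 + β * p2 + γ * p3 + δ * p4 ≤ α * q1 + β * q2 + γ * q3 + δ * q4 := by
  have := mul_le_mul_of_nonneg_left h.1 ha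
  have := mul_le_mul_of_nonneg_left h.2.1 hb
  have := mul_le_mul_of_nonneg_left h.2.2.1 hc
  have := mul_le_mul_of_nonneg_left h.2.2.2 hd
  omega

theorem base3 (c : ℕ) (hc : 2 ≤ c) : ∃ (n : ℕ) (μ : Fin 3 → ℕ → ℤ), Anti 3 n μ ∧
    PR (Gen μ) (c + 1) ∧ ¬ PR (Gen μ) (c + 2) := by
  obtain ⟨e2, he2⟩ : ∃ e2, e2 = 2 * c + 1 := ⟨_, rfl⟩
  obtain ⟨e3, he3⟩ : ∃ e3, e3 = 3 * c + 3 := ⟨_, rfl⟩
  obtain ⟨e4, he4⟩ : ∃ e4, e4 = 4 * c + 4 := ⟨_, rfl⟩
  let μ : Fin 3 → ℕ → ℤ := ![low c e2 e3 e4 0 (c + 1) (2 * c + 2) (3 * c + 3),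
    low c e2 e3 e4 c (2 * c) (3 * c + 1) (3 * c + 2),
    low c e2 e3 e4 c (2 * c + 1) (2 * c + 2) (3 * c + 2)]
  have hG : ∀ s, IsPath s → (Gen μ s ↔
      (0 ≤ s c ∧ c + 1 ≤ s e2 ∧ 2 * c + 2 ≤ s e3 ∧ 3 * c + 3 ≤ s e4) ∨
      (c ≤ s c ∧ 2 * c ≤ s e2 ∧ 3 * c + 1 ≤ s e3 ∧ 3 * c + 2 ≤ s e4) ∨
      (c ≤ s c ∧ 2 * c + 1 ≤ s e2 ∧ 2 * c + 2 ≤ s e3 ∧ 3 * c + 2 ≤ s e4)) := by
    intro s hs
    simp only [Gen, Fin.exists_fin_succ, μ, Matrix.cons_val_zero, Matrix.cons_val_succ, low_le hs,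
      IsEmpty.exists_iff, or_false]
  have hp : ∀ a, IsPath (μ a) := by
    intro a; fin_cases a <;> exact low_path (by omega) (by omega) (by omega) (by omega)
  refine ⟨e4, μ, ⟨hp, ?_, ?_, ?_⟩, ?_, fun h => ?_⟩
  · intro a l h; fin_cases a <;> exact low_const (by omega) (by omega) (by omega) h
  · intro a
    have := (hG _ (hp a)).1 ⟨a, fun _ => le_rfl⟩
    omega
  · intro a b h
    have up : μ 0 c ≤ 0 ∧ μ 1 e2 ≤ 2 * c ∧ μ 1 e4 ≤ 3 * c + 2 ∧ μ 2 e3 ≤ 2 * c + 2 ∧
        μ 2 e4 ≤ 3 * c + 2 := by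
      refine ⟨?_, ?_, ?_, ?_, ?_⟩ <;> refine max_le (max_le ?_ ?_) (max_le ?_ ?_) <;>
        simp only [bot] <;> omega
    fin_cases a <;> fin_cases b <;>
      first
        | rfl
        | (have h1 := (low_le (hp _)).1 h
           simp only [Fin.zero_eta, Fin.mk_one, Fin.reduceFinMk] at h1
           omega)
  · intro j h1 h2 x y hx hy wx hs
    by_contra hl
    push Not at hl
    have hc' : (2 : ℤ) ≤ c := by omega
    have lin : ∀ α β γ δ : ℤ, ∑ a, (α * x a c + β * x a e2 + γ * x a e3 + δ * x a e4) =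
        ∑ a, (α * y a c + β * y a e2 + γ * y a e3 + δ * y a e4) := by
      intro α β γ δ
      simp only [sum_add_distrib, ← mul_sum, hs]
    have lose : ∀ a, (y a c ≤ c ∧ y a e2 ≤ c ∧ y a e3 ≤ 2 * c + 2 ∧ y a e4 ≤ 3 * c + 3) ∨
        (y a c ≤ c ∧ y a e2 ≤ 2 * c + 1 ∧ y a e3 ≤ 3 * c + 1 ∧ y a e4 ≤ 3 * c + 1) ∨
        (y a c ≤ c ∧ y a e2 ≤ 2 * c + 1 ∧ y a e3 ≤ 2 * c + 1 ∧ y a e4 ≤ 3 * c + 2) ∨
        (y a c ≤ c - 1 ∧ y a e2 ≤ 2 * c ∧ y a e3 ≤ 3 * c + 2 ∧ y a e4 ≤ 3 * c + 2) ∨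
        (y a c ≤ c ∧ y a e2 ≤ 2 * c - 1 ∧ y a e3 ≤ 3 * c + 1 ∧ y a e4 ≤ 3 * c + 2) ∨
        (y a c ≤ c ∧ y a e2 ≤ 2 * c ∧ y a e3 ≤ 3 * c ∧ y a e4 ≤ 3 * c + 2) := by
      intro a
      have := mt (hG _ (hy a)).2 (hl a)
      have := (hy a).bd c
      have := (hy a).lip (show c ≤ e2 by omega)
      have := (hy a).lip (show e2 ≤ e3 by omega)
      have := (hy a).lip (show e3 ≤ e4 by omega)
      omega
    by_cases hsp : ∃ a, y a c ≤ c ∧ y a e2 ≤ c ∧ y a e3 ≤ 2 * c + 2 ∧ y a e4 ≤ 3 * c + 3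
    · obtain ⟨a0, h0⟩ := hsp
      have g1 : (0 : ℤ) ≤ c + 1 := by omega
      have g2 : (0 : ℤ) ≤ c * c + c - 2 := by nlinarith
      have m := @mono4 0 (c + 1) 1 (c * c + c - 2)
      have w : ∀ a, ((c : ℤ) + 1) * (c + 1) + (2 * c + 2) + (c * c + c - 2) * (3 * c + 3) ≤
          0 * x a c + (c + 1) * x a e2 + 1 * x a e3 + (c * c + c - 2) * x a e4 := by
        intro a
        rcases (hG _ (hx a)).1 (wx a) with g | g | g <;>
          have := m le_rfl g1 zero_le_one g2 g <;> nlinarith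
      have v : ∀ a, 0 * y a c + (c + 1) * y a e2 + 1 * y a e3 + (c * c + c - 2) * y a e4 ≤
          ((c : ℤ) + 1) * (c + 1) + (2 * c + 2) + (c * c + c - 2) * (3 * c + 3) + 1 := by
        intro a
        rcases lose a with g | g | g | g | g | g <;>
          have := m le_rfl g1 zero_le_one g2 g <;> nlinarith
      have e := lin 0 (c + 1) 1 (c * c + c - 2)
      have t : ∑ a, (0 * y a c + (c + 1) * y a e2 + 1 * y a e3 + (c * c + c - 2) * y a e4) ≤
          ∑ a, ((0 * x a c + (c + 1) * x a e2 + 1 * x a e3 + (c * c + c - 2) * x a e4) +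
            (1 - if a = a0 then (c : ℤ) + 2 else 0)) := by
        refine sum_le_sum fun a _ => ?_
        have := w a
        split_ifs with g
        · subst g
          have := m le_rfl g1 zero_le_one g2 h0; nlinarith
        · have := v a; omega
      rw [sum_add_distrib (f := fun a => 0 * x a c + (c + 1) * x a e2 + 1 * x a e3 +
        (c * c + c - 2) * x a e4), e] at t
      simp only [sum_sub_distrib, sum_const, card_univ, Fintype.card_fin, sum_ite_eq', mem_univ,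
        if_true, nsmul_eq_mul, mul_one] at t
      omega
    · have g1 : (0 : ℤ) ≤ c - 1 := by omega
      have g2 : (0 : ℤ) ≤ c * c + c := by nlinarith
      have m := @mono4 2 (c - 1) 1 (c * c + c)
      have e := lin 2 (c - 1) 1 (c * c + c)
      refine absurd e (ne_of_gt (sum_lt_sum_of_nonempty ⟨⟨0, h1⟩, mem_univ _⟩ fun a _ => ?_))
      have w : 2 * (c : ℤ) + (c - 1) * (2 * c + 1) + (2 * c + 2) + (c * c + c) * (3 * c + 2) ≤
          2 * x a c + (c - 1) * x a e2 + 1 * x a e3 + (c * c + c) * x a e4 := by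
        rcases (hG _ (hx a)).1 (wx a) with g | g | g <;>
          have := m zero_le_two g1 zero_le_one g2 g <;> nlinarith
      rcases (lose a).resolve_left fun g => hsp ⟨a, g⟩ with g | g | g | g | g <;>
        have := m zero_le_two g1 zero_le_one g2 g <;> nlinarith
  · let X : ℕ → ℕ → ℤ := fun a l => match a with
      | 0 => l - iv 0 c l - iv (2 * c + 1) 1 l
      | i + 1 => l - iv (c + i) 1 l - iv (2 * c + 2 + i) 1 l - iv (3 * c + 3) (c + 1) l +
          iv (3 * c + 3 + i) 1 l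
    let Y : ℕ → ℕ → ℤ := fun a l =>
      if a < c then l - iv (0 + a) 1 l - iv (3 * c + 3) (c + 1) l
      else if a = c then l - iv c (c + 1) l else l - iv (2 * c + 1) (c + 2) l
    have hx : ∀ a, a < c + 2 → IsPath (X a) := by
      intro a ha
      rcases a with _ | i
      · refine ⟨by simp (disch := omega) only [X, iv_lo]; omega, fun k => ?_⟩
        simp only [X, iv_succ]; push_cast; split_ifs <;> omega
      · refine ⟨by simp (disch := omega) only [X, iv_lo]; omega, fun k => ?_⟩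
        simp only [X, iv_succ]; push_cast; split_ifs <;> omega
    have hy : ∀ a, IsPath (Y a) := by
      intro a
      refine ⟨by simp (disch := omega) only [Y, iv_lo]; split_ifs <;> omega, fun k => ?_⟩
      simp only [Y, iv_succ]; push_cast; split_ifs <;> omega
    obtain ⟨a, ha⟩ := h (c + 2) (by omega) le_rfl (fun a => X a) (fun a => Y a)
      (fun a => hx a a.2) (fun a => hy a)
      (fun a => (hG _ (hx a a.2)).2 (by
        obtain ⟨a, ha⟩ := a
        rcases a with _ | i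
        · refine Or.inl ⟨?_, ?_, ?_, ?_⟩ <;>
            simp (disch := omega) only [X, iv_lo, iv_hi] <;> omega
        · refine Or.inr (Or.inl ⟨?_, ?_, ?_, ?_⟩) <;>
            simp (disch := omega) only [X, iv_lo, iv_hi] <;> omega))
      (fun l => by
        rw [Fin.sum_univ_eq_sum_range (fun a => X a l), Fin.sum_univ_eq_sum_range (fun a => Y a l),
          sum_range_succ' (fun a => X a l), sum_range_succ (fun a => Y a l),
          sum_range_succ (fun a => Y a l),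
          sum_congr rfl (fun a ha => (if_pos (mem_range.1 ha) : Y a l = _))]
        have q : iv (2 * c + 1) 1 l + iv (2 * c + 2) (c + 1) l = iv (2 * c + 1) (c + 2) l := by
          simp only [iv]; omega
        simp only [X, Y, sum_add_distrib, sum_sub_distrib, iv_sum, sum_const, card_range,
          nsmul_eq_mul, lt_irrefl, if_false, if_true, if_neg (show ¬ c + 1 < c by omega),
          if_neg (show ¬ c + 1 = c by omega)]
        push_cast
        linarith)
    rw [hG _ (hy a)] at ha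
    simp only [Y] at ha
    split_ifs at ha <;> simp (disch := omega) only [iv_lo, iv_hi] at ha <;> omega

theorem partB (r k : ℕ) (hr : 3 ≤ r) (hk : 2 ≤ k) : ∃ (n : ℕ) (μ : Fin r → ℕ → ℤ), Anti r n μ ∧
    PR (Gen μ) k ∧ ¬ PR (Gen μ) (k + 1) := by
  induction r, hr using Nat.le_induction with
  | base =>
    rcases eq_or_lt_of_le hk with rfl | h
    · exact base2
    · obtain ⟨c, rfl⟩ : ∃ c, k = c + 1 := ⟨k - 1, by omega⟩
      exact base3 c (by omega)
  | succ r _ ih =>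
    obtain ⟨n, μ, H, h1, h2⟩ := ih
    obtain ⟨μ', H', h⟩ := lift H
    exact ⟨n + 2, μ', H', (h _).2 h1, mt (h _).1 h2⟩

end Pool.Agent.P.MP_c009d0_co
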